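import Pool.Agent.P.MP_9f4f5e_mp.LT.Defs

-- part Pool.Agent.P.MP_9f4f5e_mp.LT.Base
section

/-! Spectral data and elementary facts. -/

set_option autoImplicit false
set_option linter.unusedSectionVars false

open MeasureTheory Matrix
open scoped ENNReal ComplexOrder ComplexConjugate RealInnerProductSpace

noncomputable section

namespace Pool.Agent.P.MP_9f4f5e_mp.LT

variable {ι : Type} [Fintype ι] [DecidableEq ι]

theorem dg_isHermitian (d : ι → ℝ) : (dg d).IsHermitian := by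
  unfold dg
  rw [Matrix.IsHermitian, Matrix.diagonal_conjTranspose]
  congr 1
  funext i
  simp

theorem dg_apply (d : ι → ℝ) (i j : ι) : dg d i j = if i = j then (d i : ℂ) else 0 := by
  simp [dg, Matrix.diagonal_apply]

theorem dg_mul (d e : ι → ℝ) : dg d * dg e = dg fun i => d i * e i := by
  simp [dg, Matrix.diagonal_mul_diagonal]

theorem dg_sub (d e : ι → ℝ) : dg d - dg e = dg fun i => d i - e i := by
  simp [dg, Matrix.diagonal_sub]

theorem dg_add (d e : ι → ℝ) : dg d + dg e = dg fun i => d i + e i := by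
  simp [dg, Matrix.diagonal_add]

theorem dg_const (s : ℝ) : (dg fun _ : ι => s) = (s : ℂ) • (1 : Matrix ι ι ℂ) := by
  ext i j
  by_cases h : i = j <;> simp [dg_apply, h]

theorem dg_posSemidef {d : ι → ℝ} (hd : ∀ i, 0 ≤ d i) : (dg d).PosSemidef := by
  unfold dg
  rw [Matrix.posSemidef_diagonal_iff]
  intro i
  exact Complex.zero_le_real.2 (hd i)

theorem trace_dg (d : ι → ℝ) : (dg d).trace = ((∑ i, d i : ℝ) : ℂ) := by
  simp [dg, Matrix.trace_diagonal]

theorem continuous_dg {X : Type*} [TopologicalSpace X] {d : X → ι → ℝ}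
    (hd : ∀ i, Continuous fun x => d x i) : Continuous fun x => dg (d x) := by
  refine continuous_matrix fun i j => ?_
  simp only [dg_apply]
  split_ifs
  · exact Complex.continuous_ofReal.comp (hd i)
  · exact continuous_const

theorem exists_spec {M : Matrix ι ι ℂ} (hM : M.IsHermitian) : ∃ U l, Spec M U l := by
  refine ⟨hM.eigenvectorUnitary, hM.eigenvalues, ?_, ?_, ?_⟩
  · exact (Unitary.mem_iff.1 hM.eigenvectorUnitary.2).2
  · exact (Unitary.mem_iff.1 hM.eigenvectorUnitary.2).1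
  · conv_lhs => rw [hM.spectral_theorem, Unitary.conjStarAlgAut_apply]
    rfl

namespace Spec

variable {M U : Matrix ι ι ℂ} {l : ι → ℝ}

theorem conj_isHermitian (U : Matrix ι ι ℂ) (d : ι → ℝ) : (U * dg d * Uᴴ).IsHermitian :=
  Matrix.isHermitian_mul_mul_conjTranspose U (dg_isHermitian d)

theorem isHermitian (h : Spec M U l) : M.IsHermitian := h.eq ▸ conj_isHermitian U l

theorem map (h : Spec M U l) (d : ι → ℝ) : Spec (U * dg d * Uᴴ) U d := ⟨h.mul_ct, h.ct_mul, rfl⟩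

theorem diag (h : Spec M U l) : Uᴴ * M * U = dg l := by
  rw [h.eq]
  calc Uᴴ * (U * dg l * Uᴴ) * U = (Uᴴ * U) * dg l * (Uᴴ * U) := by
        simp only [Matrix.mul_assoc]
    _ = dg l := by rw [h.ct_mul, Matrix.one_mul, Matrix.mul_one]

theorem cfc_eq (h : Spec M U l) (f : ℝ → ℝ) : cfc f M = U * dg (fun i => f (l i)) * Uᴴ := by
  have hM := h.isHermitian
  set W : Matrix ι ι ℂ := (hM.eigenvectorUnitary : Matrix ι ι ℂ) with hW
  have hW1 : W * Wᴴ = 1 := (Unitary.mem_iff.1 hM.eigenvectorUnitary.2).2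
  have hW2 : Wᴴ * W = 1 := (Unitary.mem_iff.1 hM.eigenvectorUnitary.2).1
  have hMW : M = W * dg hM.eigenvalues * Wᴴ := by
    conv_lhs => rw [hM.spectral_theorem, Unitary.conjStarAlgAut_apply]
    rfl
  have hc : cfc f M = W * dg (fun i => f (hM.eigenvalues i)) * Wᴴ := by
    rw [hM.cfc_eq, Matrix.IsHermitian.cfc, Unitary.conjStarAlgAut_apply]
    rfl
  have h1 : dg l * (Uᴴ * W) = (Uᴴ * W) * dg hM.eigenvalues := by
    calc dg l * (Uᴴ * W) = Uᴴ * M * (U * Uᴴ) * W := by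
          rw [← h.diag]; simp only [Matrix.mul_assoc]
      _ = Uᴴ * (W * dg hM.eigenvalues * Wᴴ) * W := by rw [h.mul_ct, Matrix.mul_one, ← hMW]
      _ = (Uᴴ * W) * dg hM.eigenvalues * (Wᴴ * W) := by simp only [Matrix.mul_assoc]
      _ = _ := by rw [hW2, Matrix.mul_one]
  have h2 : dg (fun i => f (l i)) * (Uᴴ * W)
      = (Uᴴ * W) * dg (fun i => f (hM.eigenvalues i)) := by
    ext i j
    have h3 := congrFun (congrFun h1 i) j
    simp only [dg, Matrix.diagonal_mul, Matrix.mul_diagonal] at h3 ⊢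
    by_cases h0 : (Uᴴ * W) i j = 0
    · simp [h0]
    · have h4 : (l i : ℂ) = hM.eigenvalues j := by
        rw [mul_comm] at h3
        exact mul_left_cancel₀ h0 h3
      rw [Complex.ofReal_inj.1 h4, mul_comm]
  calc cfc f M = (U * Uᴴ) * W * dg (fun i => f (hM.eigenvalues i)) * Wᴴ := by
        rw [hc, h.mul_ct, Matrix.one_mul]
    _ = U * ((Uᴴ * W) * dg (fun i => f (hM.eigenvalues i))) * Wᴴ := by
        simp only [Matrix.mul_assoc]
    _ = U * dg (fun i => f (l i)) * Uᴴ * (W * Wᴴ) := by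
        rw [← h2]; simp only [Matrix.mul_assoc]
    _ = _ := by rw [hW1, Matrix.mul_one]

theorem trace_conj (h : Spec M U l) (d : ι → ℝ) :
    (U * dg d * Uᴴ).trace = ((∑ i, d i : ℝ) : ℂ) := by
  rw [Matrix.trace_mul_comm, ← Matrix.mul_assoc, h.ct_mul, Matrix.one_mul, trace_dg]

theorem tp_eq (h : Spec M U l) (k : ℕ) : tp k M = ∑ i, max (l i) 0 ^ k := by
  rw [tp, h.cfc_eq, h.trace_conj, Complex.ofReal_re]

theorem pp_eq (h : Spec M U l) : pp M = U * dg (fun i => max (l i) 0) * Uᴴ := h.cfc_eq _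

theorem pp_spec (h : Spec M U l) : Spec (pp M) U fun i => max (l i) 0 :=
  h.pp_eq ▸ h.map _

theorem shift (h : Spec M U l) (s : ℝ) : Spec (M - dg fun _ => s) U fun i => l i - s := by
  refine ⟨h.mul_ct, h.ct_mul, ?_⟩
  rw [← dg_sub, Matrix.mul_sub, Matrix.sub_mul, ← h.eq, dg_const, Matrix.mul_smul,
    Matrix.mul_one, Matrix.smul_mul, h.mul_ct]

/-- diagonal entries in the original basis -/
theorem conj_apply (U : Matrix ι ι ℂ) (d : ι → ℝ) (n : ι) :
    (U * dg d * Uᴴ) n n = ((∑ i, ‖U n i‖ ^ 2 * d i : ℝ) : ℂ) := by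
  rw [Matrix.mul_apply]
  push_cast
  refine Finset.sum_congr rfl fun i _ => ?_
  rw [dg, Matrix.mul_diagonal, Matrix.conjTranspose_apply, mul_right_comm, Complex.star_def,
    Complex.mul_conj, Complex.normSq_eq_norm_sq]
  push_cast
  ring

theorem row_sum (h : Spec M U l) (n : ι) : ∑ i, ‖U n i‖ ^ 2 = 1 := by
  have h1 := conj_apply U (fun _ => 1) n
  rw [dg_const, Complex.ofReal_one, one_smul, Matrix.mul_one, h.mul_ct, Matrix.one_apply_eq] at h1
  simp only [mul_one] at h1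
  exact_mod_cast h1.symm

theorem col_sum (h : Spec M U l) (n : ι) : ∑ i, ‖U i n‖ ^ 2 = 1 := by
  have h0 : Spec (Uᴴ * dg l * Uᴴᴴ) Uᴴ l :=
    ⟨by rw [Matrix.conjTranspose_conjTranspose, h.ct_mul],
      by rw [Matrix.conjTranspose_conjTranspose, h.mul_ct], rfl⟩
  simpa [Matrix.conjTranspose_apply] using h0.row_sum n

/-- the quadratic form in the eigenbasis -/
theorem qf_conj (U : Matrix ι ι ℂ) (d : ι → ℝ) (c : ι → ℂ) :
    qf (U * dg d * Uᴴ) c = ∑ i, d i * ‖(Uᴴ *ᵥ c) i‖ ^ 2 := by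
  have h1 : star c ⬝ᵥ (U * dg d * Uᴴ) *ᵥ c = star (Uᴴ *ᵥ c) ⬝ᵥ dg d *ᵥ (Uᴴ *ᵥ c) := by
    rw [Matrix.star_mulVec, Matrix.conjTranspose_conjTranspose, ← Matrix.mulVec_mulVec,
      ← Matrix.mulVec_mulVec, Matrix.dotProduct_mulVec (star c) U]
  rw [qf, h1, dotProduct, Complex.re_sum]
  refine Finset.sum_congr rfl fun i _ => ?_
  rw [dg, Matrix.mulVec_diagonal, Pi.star_apply, Complex.star_def, mul_left_comm,
    Complex.conj_mul', Complex.re_ofReal_mul]
  norm_cast

/-- Parseval -/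
theorem parseval (h : Spec M U l) (c : ι → ℂ) : ∑ i, ‖(Uᴴ *ᵥ c) i‖ ^ 2 = ∑ i, ‖c i‖ ^ 2 := by
  have h1 := qf_conj U (fun _ => 1) c
  have h2 := qf_conj (1 : Matrix ι ι ℂ) (fun _ => 1) c
  rw [dg_const, Complex.ofReal_one, one_smul, Matrix.mul_one] at h1 h2
  rw [h.mul_ct] at h1
  rw [Matrix.conjTranspose_one, Matrix.mul_one] at h2
  simp only [one_mul, Matrix.one_mulVec] at h1 h2
  rw [← h1, ← h2]

theorem nonneg_of_posSemidef (h : Spec M U l) (hM : M.PosSemidef) (i : ι) : 0 ≤ l i := by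
  have h1 := (hM.conjTranspose_mul_mul_same U).diag_nonneg (i := i)
  rw [h.diag, dg_apply, if_pos rfl] at h1
  exact Complex.zero_le_real.1 h1

theorem conj_posSemidef (U : Matrix ι ι ℂ) {d : ι → ℝ} (hd : ∀ i, 0 ≤ d i) :
    (U * dg d * Uᴴ).PosSemidef := (dg_posSemidef hd).mul_mul_conjTranspose_same U

theorem pow_eq (h : Spec M U l) (k : ℕ) : M ^ k = U * dg (fun i => l i ^ k) * Uᴴ := by
  induction k with
  | zero =>
    simp only [pow_zero]
    rw [dg_const, Complex.ofReal_one, one_smul, Matrix.mul_one, h.mul_ct]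
  | succ k ih =>
    rw [pow_succ, ih]
    conv_lhs => rw [h.eq]
    calc U * dg (fun i => l i ^ k) * Uᴴ * (U * dg l * Uᴴ)
        = U * (dg (fun i => l i ^ k) * (Uᴴ * U) * dg l) * Uᴴ := by simp only [Matrix.mul_assoc]
      _ = _ := by
          rw [h.ct_mul, Matrix.mul_one, dg_mul]
          simp only [pow_succ]

end Spec

theorem tp_nonneg {M : Matrix ι ι ℂ} (hM : M.IsHermitian) (k : ℕ) : 0 ≤ tp k M := by
  obtain ⟨U, l, h⟩ := exists_spec hM
  rw [h.tp_eq]
  exact Finset.sum_nonneg fun i _ => pow_nonneg (le_max_right _ _) _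

theorem pp_posSemidef {M : Matrix ι ι ℂ} (hM : M.IsHermitian) : (pp M).PosSemidef := by
  obtain ⟨U, l, h⟩ := exists_spec hM
  rw [h.pp_eq]
  exact Spec.conj_posSemidef U fun i => le_max_right _ _

theorem pp_sub_posSemidef {M : Matrix ι ι ℂ} (hM : M.IsHermitian) : (pp M - M).PosSemidef := by
  obtain ⟨U, l, h⟩ := exists_spec hM
  rw [h.pp_eq]
  conv => enter [1, 2]; rw [h.eq]
  rw [← Matrix.sub_mul, ← Matrix.mul_sub, dg_sub]
  exact Spec.conj_posSemidef U fun i => sub_nonneg.2 (le_max_left _ _)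

theorem tp_pp {M : Matrix ι ι ℂ} (hM : M.IsHermitian) (k : ℕ) : tp k (pp M) = tp k M := by
  obtain ⟨U, l, h⟩ := exists_spec hM
  rw [h.pp_spec.tp_eq, h.tp_eq]
  simp

theorem tp_of_posSemidef {V : Matrix ι ι ℂ} (hV : V.PosSemidef) (k : ℕ) :
    tp k V = (V ^ k).trace.re := by
  obtain ⟨U, l, h⟩ := exists_spec hV.isHermitian
  rw [h.tp_eq, h.pow_eq, h.trace_conj, Complex.ofReal_re]
  exact Finset.sum_congr rfl fun i _ => by rw [max_eq_left (h.nonneg_of_posSemidef hV i)]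

theorem qf_nonneg {V : Matrix ι ι ℂ} (hV : V.PosSemidef) (c : ι → ℂ) : 0 ≤ qf V c :=
  (Complex.nonneg_iff.1 (hV.dotProduct_mulVec_nonneg c)).1

theorem posSemidef_of_qf {V : Matrix ι ι ℂ} (hV : V.IsHermitian) (h : ∀ c, 0 ≤ qf V c) :
    V.PosSemidef := by
  obtain ⟨U, l, hs⟩ := exists_spec hV
  rw [hs.eq]
  refine Spec.conj_posSemidef U fun i => ?_
  have h1 := h (U *ᵥ Pi.single i 1)
  rw [hs.eq, Spec.qf_conj, Matrix.mulVec_mulVec, hs.ct_mul, Matrix.one_mulVec,
    Finset.sum_eq_single i] at h1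
  · simpa using h1
  · intro j _ hj
    simp [hj]
  · simp

theorem qf_sub (M N : Matrix ι ι ℂ) (c : ι → ℂ) : qf (M - N) c = qf M c - qf N c := by
  simp [qf, Matrix.sub_mulVec, dotProduct_sub]

theorem qf_dg (d : ι → ℝ) (c : ι → ℂ) : qf (dg d) c = ∑ i, d i * ‖c i‖ ^ 2 := by
  simpa using Spec.qf_conj (1 : Matrix ι ι ℂ) d c

theorem ec_add (r s : ℝ) : ec (r + s) = ec r * ec s := by
  simp [ec, AddChar.map_add_eq_mul]

theorem ec_zero : ec 0 = 1 := by simp [ec]

theorem norm_ec (r : ℝ) : ‖ec r‖ = 1 := by simp [ec]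

theorem ec_neg (r : ℝ) : ec (-r) = conj (ec r) := by
  simp [ec, AddChar.map_neg_eq_inv]

theorem ec_eq (r : ℝ) : ec r = Complex.exp (((2 * Real.pi * r : ℝ) : ℂ) * Complex.I) :=
  Real.fourierChar_apply r

@[fun_prop] theorem continuous_ec : Continuous ec :=
  continuous_subtype_val.comp Real.continuous_fourierChar

@[simp] theorem part_glue_zero {n : ℕ} (x : E3) (y : EN n) : part (glue x y) 0 = x := rfl

theorem sw_glue {n : ℕ} (i j : Fin n) (x : E3) (y : EN n) :
    sw i.succ j.succ (glue x y) = glue x (sw i j y) := by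
  ext ⟨p, k⟩
  refine Fin.cases ?_ (fun q => ?_) p
  · simp [sw, glue, Equiv.swap_apply_of_ne_of_ne (Fin.succ_ne_zero i).symm
      (Fin.succ_ne_zero j).symm]
  · have h1 : Equiv.swap i.succ j.succ q.succ = (Equiv.swap i j q).succ :=
      ((Fin.succ_injective n).map_swap i j q).symm
    simp [sw, glue, h1]

theorem sw_glue_glue {n : ℕ} (x x' : E3) (y : EN n) :
    sw 0 1 (glue x (glue x' y)) = glue x' (glue x y) := by
  ext ⟨p, k⟩
  refine Fin.cases ?_ (fun q => ?_) p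
  · simp only [sw, Equiv.swap_apply_left]
    rfl
  · refine Fin.cases ?_ (fun r => ?_) q
    · have h1 : Equiv.swap (0 : Fin (n + 2)) 1 (Fin.succ 0) = 0 := Equiv.swap_apply_right _ _
      simp only [sw, h1]
      rfl
    · have h1 : Equiv.swap (0 : Fin (n + 2)) 1 r.succ.succ = r.succ.succ :=
        Equiv.swap_apply_of_ne_of_ne (Fin.succ_ne_zero _)
          (fun h => Fin.succ_ne_zero r (Fin.succ_injective _ h))
      simp only [sw, h1]
      rfl

theorem part_sw {n : ℕ} (i j k : Fin n) (z : EN n) :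
    part (sw i j z) k = part z (Equiv.swap i j k) := rfl

/-- the exchange of two particles is a linear isometry -/
theorem exists_swIso {n : ℕ} (i j : Fin n) :
    ∃ L : EN n ≃ₗᵢ[ℝ] EN n, ∀ z, L z = sw i j z := by
  refine ⟨LinearIsometryEquiv.piLpCongrLeft 2 ℝ ℝ
    ((Equiv.swap i j).prodCongr (Equiv.refl (Fin 3))), fun z => ?_⟩
  ext ⟨p, k⟩
  simp [sw, LinearIsometryEquiv.piLpCongrLeft_apply, Equiv.piCongrLeft'_apply]

theorem mp_sw {n : ℕ} (i j : Fin n) :
    MeasurePreserving (sw i j : EN n → EN n) volume volume := by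
  obtain ⟨L, hL⟩ := exists_swIso i j
  have h : (sw i j : EN n → EN n) = L := funext fun z => (hL z).symm
  rw [h]
  exact L.measurePreserving

end Pool.Agent.P.MP_9f4f5e_mp.LT
end
end

-- part Pool.Agent.P.MP_9f4f5e_mp.LT.A2
section

set_option autoImplicit false
set_option linter.unusedSectionVars false

open MeasureTheory Matrix
open scoped ENNReal ComplexOrder ComplexConjugate RealInnerProductSpace FourierTransform

noncomputable section

namespace Pool.Agent.P.MP_9f4f5e_mp.LT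

variable {ι : Type} [Fintype ι] [DecidableEq ι]

theorem a2_convex (k : ℕ) : ConvexOn ℝ Set.univ fun x : ℝ => max x 0 ^ k := by
  have h1 : ConvexOn ℝ Set.univ fun x : ℝ => max x 0 :=
    (convexOn_id convex_univ).sup (convexOn_const 0 convex_univ)
  exact h1.pow (fun x _ => le_max_right _ _) k

/-- Monotonicity. Hint: Spec M U l, Spec N W m; l i = qf M (U *ᵥ Pi.single i 1) ≤ qf N (same)
= ∑ j, m j * s i j with s i j = ‖(Wᴴ * U) j i‖^2 doubly stochastic (Wᴴ * U is unitary: use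
Spec.row_sum, Spec.col_sum or Spec.parseval); x ↦ max x 0 ^ k is monotone and convex
(ConvexOn.map_sum_le); sum over i. -/
theorem tp_mono {M N : Matrix ι ι ℂ} (hM : M.IsHermitian) (hN : N.IsHermitian)
    (h : (N - M).PosSemidef) {k : ℕ} (hk : k ≠ 0) : tp k M ≤ tp k N := by
  obtain ⟨U, l, hU⟩ := exists_spec hM
  obtain ⟨W, m, hW⟩ := exists_spec hN
  have hX : Spec ((Uᴴ * W) * dg m * (Uᴴ * W)ᴴ) (Uᴴ * W) m := by
    refine ⟨?_, ?_, rfl⟩
    · rw [Matrix.conjTranspose_mul, Matrix.conjTranspose_conjTranspose]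
      calc Uᴴ * W * (Wᴴ * U) = Uᴴ * (W * Wᴴ) * U := by simp only [Matrix.mul_assoc]
        _ = 1 := by rw [hW.mul_ct, Matrix.mul_one, hU.ct_mul]
    · rw [Matrix.conjTranspose_mul, Matrix.conjTranspose_conjTranspose]
      calc Wᴴ * U * (Uᴴ * W) = Wᴴ * (U * Uᴴ) * W := by simp only [Matrix.mul_assoc]
        _ = 1 := by rw [hU.mul_ct, Matrix.mul_one, hW.ct_mul]
  have e1 : Uᴴ * (N - M) * U = (Uᴴ * W) * dg m * (Uᴴ * W)ᴴ - dg l := by
    rw [Matrix.mul_sub, Matrix.sub_mul, hU.diag, Matrix.conjTranspose_mul,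
      Matrix.conjTranspose_conjTranspose]
    congr 1
    conv_lhs => rw [hW.eq]
    simp only [Matrix.mul_assoc]
  have e2 : ∀ i, l i ≤ ∑ j, ‖(Uᴴ * W) i j‖ ^ 2 * m j := by
    intro i
    have h1 := (h.conjTranspose_mul_mul_same U).diag_nonneg (i := i)
    rw [e1, Matrix.sub_apply, Spec.conj_apply, dg_apply, if_pos rfl, ← Complex.ofReal_sub] at h1
    exact sub_nonneg.1 (Complex.zero_le_real.1 h1)
  have e3 : ∀ i, max (l i) 0 ^ k ≤ ∑ j, ‖(Uᴴ * W) i j‖ ^ 2 * max (m j) 0 ^ k := by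
    intro i
    have h1 := (a2_convex k).map_sum_le (t := Finset.univ) (w := fun j => ‖(Uᴴ * W) i j‖ ^ 2)
      (p := m) (fun j _ => by positivity) (hX.row_sum i) fun j _ => Set.mem_univ _
    simp only [smul_eq_mul] at h1
    exact (pow_le_pow_left₀ (le_max_right _ _) (max_le_max_right 0 (e2 i)) k).trans h1
  rw [hU.tp_eq, hW.tp_eq]
  refine (Finset.sum_le_sum fun i _ => e3 i).trans (le_of_eq ?_)
  rw [Finset.sum_comm]
  refine Finset.sum_congr rfl fun j _ => ?_
  rw [← Finset.sum_mul, hX.col_sum, one_mul]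

/-- Hint: the eigenvalues are nonpositive. -/
theorem tp_eq_zero {M : Matrix ι ι ℂ} (hM : (-M).PosSemidef) {k : ℕ} (hk : k ≠ 0) :
    tp k M = 0 := by
  have hH : M.IsHermitian := by simpa using hM.isHermitian.neg
  obtain ⟨U, l, hU⟩ := exists_spec hH
  rw [hU.tp_eq]
  refine Finset.sum_eq_zero fun i _ => ?_
  have h1 := (hM.conjTranspose_mul_mul_same U).diag_nonneg (i := i)
  rw [Matrix.mul_neg, Matrix.neg_mul, hU.diag, Matrix.neg_apply, dg_apply, if_pos rfl,
    ← Complex.ofReal_neg] at h1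
  have h2 : l i ≤ 0 := neg_nonneg.1 (Complex.zero_le_real.1 h1)
  rw [max_eq_right h2, zero_pow hk]

/-- Hint: tp_mono and tp_of_posSemidef. -/
theorem tp_one_le_trace {M Z : Matrix ι ι ℂ} (hM : M.IsHermitian) (hZ : Z.PosSemidef)
    (h : (Z - M).PosSemidef) : tp 1 M ≤ Z.trace.re := by
  have h1 := tp_mono hM hZ.isHermitian h one_ne_zero
  rwa [tp_of_posSemidef hZ, pow_one] at h1

end Pool.Agent.P.MP_9f4f5e_mp.LT
end
end

-- part Pool.Agent.P.MP_9f4f5e_mp.LT.A3
section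

set_option autoImplicit false
set_option linter.unusedSectionVars false

open MeasureTheory Matrix
open scoped ENNReal ComplexOrder ComplexConjugate RealInnerProductSpace FourierTransform

noncomputable section

namespace Pool.Agent.P.MP_9f4f5e_mp.LT

variable {ι : Type} [Fintype ι] [DecidableEq ι]

/-- Hint: posSemidef_of_qf, qf_sub, qf_dg; ‖c i‖ * ‖c j‖ ≤ ∑ ‖c i‖^2. -/
theorem le_entry_sum {M : Matrix ι ι ℂ} (hM : M.IsHermitian) :
    ((dg fun _ => ∑ i, ∑ j, ‖M i j‖) - M).PosSemidef := by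
  refine posSemidef_of_qf ((dg_isHermitian _).sub hM) fun c => ?_
  rw [qf_sub, qf_dg, sub_nonneg, ← Finset.mul_sum]
  have hc : ∀ i j, ‖c i‖ * ‖c j‖ ≤ ∑ i, ‖c i‖ ^ 2 := fun i j => by
    have h1 : ∀ i, ‖c i‖ ^ 2 ≤ ∑ i, ‖c i‖ ^ 2 := fun i =>
      Finset.single_le_sum (f := fun i => ‖c i‖ ^ 2) (fun _ _ => sq_nonneg _) (Finset.mem_univ i)
    nlinarith [h1 i, h1 j, sq_nonneg (‖c i‖ - ‖c j‖)]
  refine (Complex.re_le_norm _).trans ?_
  rw [dotProduct, Finset.sum_mul]
  refine (norm_sum_le _ _).trans (Finset.sum_le_sum fun i _ => ?_)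
  rw [Matrix.mulVec, dotProduct, Finset.mul_sum, Finset.sum_mul]
  refine (norm_sum_le _ _).trans (Finset.sum_le_sum fun j _ => ?_)
  rw [norm_mul, norm_mul, Pi.star_apply, norm_star, mul_left_comm]
  exact mul_le_mul_of_nonneg_left (hc i j) (norm_nonneg _)

/-- Continuity on Hermitian families. Hint: fix x0, Spec (F x0) U l, η x = ∑ i j, ‖(F x - F x0) i j‖
→ 0; by le_entry_sum (for F x - F x0 and its negative), tp_mono and Spec.shift:
∑ max (l i - η x) 0 ^ k ≤ tp k (F x) ≤ ∑ max (l i + η x) 0 ^ k; squeeze. -/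
theorem continuous_tp {X : Type*} [TopologicalSpace X] {F : X → Matrix ι ι ℂ} (hF : Continuous F)
    (hH : ∀ x, (F x).IsHermitian) {k : ℕ} (hk : k ≠ 0) : Continuous fun x => tp k (F x) := by
  rw [continuous_iff_continuousAt]
  intro x0
  obtain ⟨U, l, hs⟩ := exists_spec (hH x0)
  set η : X → ℝ := fun x => ∑ i, ∑ j, ‖(F x - F x0) i j‖ with hη
  have hηc : Continuous η := by
    refine continuous_finsetSum _ fun i _ => continuous_finsetSum _ fun j _ => ?_
    exact ((hF.sub continuous_const).matrix_elem i j).norm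
  have hη0 : η x0 = 0 := by simp [hη]
  have hlo : ∀ x, ∑ i, max (l i - η x) 0 ^ k ≤ tp k (F x) := fun x => by
    rw [← (hs.shift (η x)).tp_eq]
    refine tp_mono (hs.shift (η x)).isHermitian (hH x) ?_ hk
    have h1 := le_entry_sum ((hH x).sub (hH x0)).neg
    simp only [Matrix.neg_apply, norm_neg] at h1
    have h2 : F x - (F x0 - dg fun _ => η x) = (dg fun _ => η x) - -(F x - F x0) := by abel
    rw [h2]
    exact h1
  have hhi : ∀ x, tp k (F x) ≤ ∑ i, max (l i - -η x) 0 ^ k := fun x => by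
    rw [← (hs.shift (-η x)).tp_eq]
    refine tp_mono (hH x) (hs.shift (-η x)).isHermitian ?_ hk
    have h1 := le_entry_sum ((hH x).sub (hH x0))
    have h3 : (dg fun _ : ι => -η x) = -dg fun _ : ι => η x := by
      rw [dg_const, dg_const, Complex.ofReal_neg, neg_smul]
    have h2 : (F x0 - dg fun _ => -η x) - F x = (dg fun _ => η x) - (F x - F x0) := by
      rw [h3]
      abel
    rw [h2]
    exact h1
  have c1 : Continuous fun x => ∑ i, max (l i - η x) 0 ^ k := by fun_prop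
  have c2 : Continuous fun x => ∑ i, max (l i - -η x) 0 ^ k := by fun_prop
  have t1 := c1.tendsto x0
  have t2 := c2.tendsto x0
  simp only [hη0, neg_zero, sub_zero, ← hs.tp_eq] at t1 t2
  exact tendsto_of_tendsto_of_tendsto_of_le_of_le t1 t2 hlo hhi

/-- the form used below -/
theorem continuous_tp_sub_dg {X : Type*} [TopologicalSpace X] {V : Matrix ι ι ℂ}
    (hV : V.IsHermitian) {d : X → ι → ℝ} (hd : ∀ i, Continuous fun x => d x i) {k : ℕ}
    (hk : k ≠ 0) : Continuous fun x => tp k (V - dg (d x)) := by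
  exact continuous_tp (continuous_const.sub (continuous_dg hd))
    (fun x => hV.sub (dg_isHermitian _)) hk

end Pool.Agent.P.MP_9f4f5e_mp.LT
end
end

-- part Pool.Agent.P.MP_9f4f5e_mp.LT.A5
section

set_option autoImplicit false
set_option linter.unusedSectionVars false

open MeasureTheory Matrix
open scoped ENNReal ComplexOrder ComplexConjugate RealInnerProductSpace FourierTransform

noncomputable section

namespace Pool.Agent.P.MP_9f4f5e_mp.LT

variable {ι : Type} [Fintype ι] [DecidableEq ι]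

theorem a5_trace_sq {W : Matrix ι ι ℂ} (hW : W.IsHermitian) :
    ∑ i, (W i i).re ^ 2 ≤ (W * W).trace.re := by
  rw [Matrix.trace, Complex.re_sum]
  refine Finset.sum_le_sum fun i _ => ?_
  rw [Matrix.diag_apply, Matrix.mul_apply, Complex.re_sum]
  have h1 : ∀ j, (W i j * W j i).re = ‖W i j‖ ^ 2 := by
    intro j
    have : W j i = conj (W i j) := by
      rw [← hW.apply j i]
      rfl
    rw [this, Complex.mul_conj, Complex.normSq_eq_norm_sq, Complex.ofReal_re]
  simp only [h1]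
  calc (W i i).re ^ 2 ≤ ‖W i i‖ ^ 2 := by
        rw [← sq_abs]
        exact pow_le_pow_left₀ (abs_nonneg _) (Complex.abs_re_le_norm _) 2
    _ ≤ ∑ j, ‖W i j‖ ^ 2 :=
        Finset.single_le_sum (f := fun j => ‖W i j‖ ^ 2) (fun j _ => sq_nonneg _)
          (Finset.mem_univ i)

theorem a5_trace_dg (W : Matrix ι ι ℂ) (v : ι → ℝ) :
    (W * dg v).trace.re = ∑ i, (W i i).re * v i := by
  rw [Matrix.trace, Complex.re_sum]
  refine Finset.sum_congr rfl fun i _ => ?_
  rw [Matrix.diag_apply, dg, Matrix.mul_diagonal, Complex.re_mul_ofReal]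

theorem a5_conj_mul {M U : Matrix ι ι ℂ} {l : ι → ℝ} (h : Spec M U l) (d e : ι → ℝ) :
    U * dg d * Uᴴ * (U * dg e * Uᴴ) = U * dg (fun i => d i * e i) * Uᴴ := by
  calc U * dg d * Uᴴ * (U * dg e * Uᴴ)
      = U * (dg d * (Uᴴ * U) * dg e) * Uᴴ := by simp only [Matrix.mul_assoc]
    _ = _ := by rw [h.ct_mul, Matrix.mul_one, dg_mul]

/-- Hint: Spec N U v, Z' = Uᴴ * Z * U is PosSemidef; (Z * N).trace.re = ∑ (Z' i i).re * v i,
(Z * Z).trace.re = (Z' * Z').trace.re = ∑ i j, ‖Z' i j‖^2 ≥ ∑ (Z' i i).re ^ 2;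
2 z v - z^2 ≤ max v 0 ^ 2 for z ≥ 0. -/
theorem two_trace_le {Z N : Matrix ι ι ℂ} (hZ : Z.PosSemidef) (hN : N.IsHermitian) :
    2 * (Z * N).trace.re - (Z * Z).trace.re ≤ tp 2 N := by
  obtain ⟨U, v, h⟩ := exists_spec hN
  have hW : (Uᴴ * Z * U).PosSemidef := hZ.conjTranspose_mul_mul_same U
  have h1 : (Z * N).trace = (Uᴴ * Z * U * dg v).trace := by
    conv_lhs => rw [h.eq]
    rw [← Matrix.mul_assoc, Matrix.trace_mul_comm]
    simp only [Matrix.mul_assoc]
  have h2 : (Z * Z).trace = (Uᴴ * Z * U * (Uᴴ * Z * U)).trace := by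
    have h3 : Uᴴ * Z * U * (Uᴴ * Z * U) = Uᴴ * (Z * (U * Uᴴ) * Z) * U := by
      simp only [Matrix.mul_assoc]
    rw [h3, h.mul_ct, Matrix.mul_one, Matrix.trace_mul_comm _ U, ← Matrix.mul_assoc, h.mul_ct,
      Matrix.one_mul]
  have h4 := a5_trace_sq hW.isHermitian
  rw [h1, h2, a5_trace_dg, h.tp_eq]
  have h5 : ∑ i, (2 * (((Uᴴ * Z * U) i i).re * v i) - ((Uᴴ * Z * U) i i).re ^ 2)
      ≤ ∑ i, max (v i) 0 ^ 2 := by
    refine Finset.sum_le_sum fun i _ => ?_
    have hz : 0 ≤ ((Uᴴ * Z * U) i i).re := (Complex.nonneg_iff.1 (hW.diag_nonneg (i := i))).1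
    have hm : v i ≤ max (v i) 0 := le_max_left _ _
    nlinarith [sq_nonneg (((Uᴴ * Z * U) i i).re - max (v i) 0), mul_le_mul_of_nonneg_left hm hz]
  rw [Finset.sum_sub_distrib, ← Finset.mul_sum] at h5
  linarith

theorem pp_diag_nonneg {M : Matrix ι ι ℂ} (hM : M.IsHermitian) (n : ι) : 0 ≤ (pp M n n).re := by
  exact (Complex.nonneg_iff.1 ((pp_posSemidef hM).diag_nonneg (i := n))).1

/-- Hint: Spec.pp_eq, Spec.conj_apply, Spec.row_sum, Cauchy-Schwarz or Jensen. -/
theorem pp_diag_sq_le {M : Matrix ι ι ℂ} (hM : M.IsHermitian) (n : ι) :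
    (pp M n n).re ^ 2 ≤ tp 2 M := by
  have h1 := a5_trace_sq (pp_posSemidef hM).isHermitian
  have h2 : tp 2 M = (pp M * pp M).trace.re := by
    rw [← tp_pp hM, tp_of_posSemidef (pp_posSemidef hM), sq]
  rw [h2]
  exact le_trans (Finset.single_le_sum (f := fun i => (pp M i i).re ^ 2)
    (fun j _ => sq_nonneg _) (Finset.mem_univ n)) h1

/-- Subgradient inequality. Hint: two_trace_le with Z = pp M; (pp M * M).trace = (pp M * pp M).trace
has real part tp 2 M. -/
theorem tp_two_sub {M : Matrix ι ι ℂ} (hM : M.IsHermitian) (n : ι) (c : ℝ) :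
    tp 2 M - 2 * c * (pp M n n).re ≤ tp 2 (M - dg (Pi.single n c)) := by
  have h1 := two_trace_le (pp_posSemidef hM) (hM.sub (dg_isHermitian (Pi.single n c)))
  have h2 : tp 2 M = (pp M * pp M).trace.re := by
    rw [← tp_pp hM, tp_of_posSemidef (pp_posSemidef hM), sq]
  have h3 : pp M * M = pp M * pp M := by
    obtain ⟨U, l, h⟩ := exists_spec hM
    rw [h.pp_eq]
    conv_lhs => enter [2]; rw [h.eq]
    rw [a5_conj_mul h, a5_conj_mul h]
    congr 3
    funext i
    rcases le_total (l i) 0 with hl | hl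
    · simp [max_eq_right hl]
    · simp [max_eq_left hl]
  have h4 : ∑ i, (pp M i i).re * (Pi.single n c : ι → ℝ) i = (pp M n n).re * c := by
    rw [Finset.sum_eq_single n]
    · simp
    · intro j _ hj
      simp [hj]
    · simp
  rw [Matrix.mul_sub, Matrix.trace_sub, Complex.sub_re, a5_trace_dg, h4, h3, ← h2] at h1
  linarith

/-- a positive semidefinite matrix is its own positive part -/
theorem pp_of_posSemidef {V : Matrix ι ι ℂ} (hV : V.PosSemidef) : pp V = V := by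
  obtain ⟨U, l, h⟩ := exists_spec hV.isHermitian
  rw [h.pp_eq]
  conv_rhs => rw [h.eq]
  congr 3
  funext i
  exact max_eq_left (h.nonneg_of_posSemidef hV i)

end Pool.Agent.P.MP_9f4f5e_mp.LT
end
end

-- part Pool.Agent.P.MP_9f4f5e_mp.LT.E2
section

set_option autoImplicit false
set_option linter.unusedSectionVars false

open MeasureTheory Matrix
open scoped ENNReal ComplexOrder ComplexConjugate RealInnerProductSpace FourierTransform

noncomputable section

namespace Pool.Agent.P.MP_9f4f5e_mp.LT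

variable {V : Type} [NormedAddCommGroup V] [InnerProductSpace ℝ V] [FiniteDimensional ℝ V]
  [MeasurableSpace V] [BorelSpace V]

theorem e2_mem (k : V) : MemLp (fun x : V => ec (-⟪k, x⟫)) ∞ (volume : Measure V) :=
  memLp_top_of_bound (Continuous.aestronglyMeasurable (by fun_prop)) 1
    (Filter.Eventually.of_forall fun x => (norm_ec _).le)

/-- modulation -/
def e2M (k : V) : Lp ℂ 2 (volume : Measure V) →L[ℂ] Lp ℂ 2 (volume : Measure V) :=
  (ContinuousLinearMap.mul ℂ ℂ).holderL volume ∞ 2 2 (e2_mem k).toLp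

theorem e2M_coe (k : V) (ψ : Lp ℂ 2 (volume : Measure V)) :
    ∀ᵐ x, e2M k ψ x = ec (-⟪k, x⟫) * ψ x := by
  filter_upwards [(ContinuousLinearMap.mul ℂ ℂ).coeFn_holder (r := 2) (e2_mem k).toLp ψ,
    (e2_mem k).coeFn_toLp] with x h1 h2
  rw [e2M, ContinuousLinearMap.holderL_apply_apply, h1, h2, ContinuousLinearMap.mul_apply']

/-- translation -/
def e2T (k : V) : Lp ℂ 2 (volume : Measure V) →ₗᵢ[ℂ] Lp ℂ 2 (volume : Measure V) :=
  Lp.compMeasurePreservingₗᵢ ℂ (fun x => x + k) (measurePreserving_add_right volume k)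

theorem e2T_coe (k : V) (ψ : Lp ℂ 2 (volume : Measure V)) : ∀ᵐ x, e2T k ψ x = ψ (x + k) :=
  Lp.coeFn_compMeasurePreserving ψ (measurePreserving_add_right volume k)

theorem e2_inv (k : V) (f : V → ℂ) (x : V) :
    𝓕⁻ (fun v => f (v + k)) x = ec (-⟪k, x⟫) * 𝓕⁻ f x := by
  rw [Real.fourierInv_eq, Real.fourierInv_eq, ← integral_const_mul,
    ← integral_add_right_eq_self (fun v => ec (-⟪k, x⟫) * (Real.fourierChar ⟪v, x⟫ • f v)) k]
  refine integral_congr_ae (Filter.Eventually.of_forall fun v => ?_)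
  show ec ⟪v, x⟫ * f (v + k) = ec (-⟪k, x⟫) * (ec ⟪v + k, x⟫ * f (v + k))
  rw [← mul_assoc, ← ec_add, inner_add_left]
  congr 2
  ring

theorem e2_comm (k : V) (χ : Lp ℂ 2 (volume : Measure V)) :
    (𝓕⁻ (e2T k χ) : Lp ℂ 2 (volume : Measure V)) = e2M k (𝓕⁻ χ) := by
  refine DenseRange.induction_on
    (p := fun χ : Lp ℂ 2 (volume : Measure V) =>
      (𝓕⁻ (e2T k χ) : Lp ℂ 2 (volume : Measure V)) = e2M k (𝓕⁻ χ))
    (SchwartzMap.denseRange_toLpCLM (p := 2) ENNReal.ofNat_ne_top) χ ?_ fun f => ?_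
  · exact isClosed_eq ((Lp.fourierTransformₗᵢ V ℂ).symm.continuous.comp (e2T k).continuous)
      ((e2M k).continuous.comp (Lp.fourierTransformₗᵢ V ℂ).symm.continuous)
  · have h1 : e2T k (f.toLp 2) = (f.compSubConstCLM ℂ (-k)).toLp 2 := by
      refine Lp.ext ?_
      filter_upwards [e2T_coe k (f.toLp 2), (f.compSubConstCLM ℂ (-k)).coeFn_toLp 2 volume,
        (measurePreserving_add_right volume k).quasiMeasurePreserving.ae (f.coeFn_toLp 2 volume)]
        with x a1 a2 a3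
      rw [a1, a2, a3, SchwartzMap.compSubConstCLM_apply, sub_neg_eq_add]
    show 𝓕⁻ (e2T k (f.toLp 2)) = e2M k (𝓕⁻ (f.toLp 2))
    rw [h1, SchwartzMap.toLp_fourierInv_eq, SchwartzMap.toLp_fourierInv_eq]
    refine Lp.ext ?_
    filter_upwards [e2M_coe k ((𝓕⁻ f).toLp 2), (𝓕⁻ f).coeFn_toLp 2 volume,
      (𝓕⁻ (f.compSubConstCLM ℂ (-k))).coeFn_toLp 2 volume] with x a1 a2 a3
    rw [a1, a2, a3, SchwartzMap.fourierInv_coe, SchwartzMap.fourierInv_coe, ← e2_inv]
    refine congrArg (fun g : V → ℂ => 𝓕⁻ g x) (funext fun v => ?_)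
    rw [SchwartzMap.compSubConstCLM_apply, sub_neg_eq_add]

/-- Plancherel with a translation. -/
theorem fourier_corr (ψ : Lp ℂ 2 (volume : Measure V)) (k : V) :
    ∫ ζ, (𝓕 ψ : Lp ℂ 2 (volume : Measure V)) (ζ + k) * conj ((𝓕 ψ : Lp ℂ 2 (volume : Measure V)) ζ)
      = ∫ x, ((‖ψ x‖ ^ 2 : ℝ) : ℂ) * ec (-⟪k, x⟫) := by
  have h1 := e2_comm k (𝓕 ψ)
  rw [FourierTransform.fourierInv_fourier_eq] at h1
  have h2 := Lp.inner_fourier_eq ψ (e2M k ψ)
  rw [← h1, FourierTransform.fourier_fourierInv_eq, h1, L2.inner_def, L2.inner_def] at h2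
  refine (integral_congr_ae ?_).trans (h2.trans (integral_congr_ae ?_))
  · filter_upwards [e2T_coe k (𝓕 ψ)] with x a1
    rw [a1, RCLike.inner_apply]
  · filter_upwards [e2M_coe k ψ] with x a1
    rw [a1, RCLike.inner_apply, mul_assoc, Complex.mul_conj, Complex.normSq_eq_norm_sq, mul_comm]

end Pool.Agent.P.MP_9f4f5e_mp.LT
end
end

-- part Pool.Agent.P.MP_9f4f5e_mp.LT.G1
section

set_option autoImplicit false
set_option linter.unusedSectionVars false

open MeasureTheory Matrix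
open scoped ENNReal ComplexOrder ComplexConjugate RealInnerProductSpace FourierTransform

noncomputable section

namespace Pool.Agent.P.MP_9f4f5e_mp.LT

variable {ι : Type} [Fintype ι] [DecidableEq ι]

theorem g1_int {X : Type} [MeasurableSpace X] (μ : Measure X) [IsFiniteMeasure μ]
    {f : X → ℝ} (hf : Measurable f) (B : ℝ) (h0 : ∀ x, 0 ≤ f x) (hB : ∀ x, f x ≤ B) :
    Integrable f μ :=
  Integrable.of_bound hf.aestronglyMeasurable B
    (Filter.Eventually.of_forall fun x => by rw [Real.norm_of_nonneg (h0 x)]; exact hB x)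

theorem g1_qf {X : Type} [MeasurableSpace X] (μ : Measure X) [IsFiniteMeasure μ]
    {e : X → ι → ℂ} (he : ∀ i, Measurable fun x => e x i) (he1 : ∀ x i, ‖e x i‖ ≤ 1)
    {V : X → ℝ} (hV : Measurable V) {M : ℝ} (h0 : ∀ x, 0 ≤ V x) (hM : ∀ x, V x ≤ M)
    (c : ι → ℂ) :
    qf (Matrix.of fun i j => ∫ x, (V x : ℂ) * (e x i * conj (e x j)) ∂μ) c
      = ∫ x, V x * ‖∑ i, conj (c i) * e x i‖ ^ 2 ∂μ := by
  have hint : ∀ i j, Integrable (fun x => (V x : ℂ) * (e x i * conj (e x j))) μ := by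
    intro i j
    have hm : Measurable fun x => (V x : ℂ) * (e x i * conj (e x j)) :=
      (Complex.measurable_ofReal.comp hV).mul
        ((he i).mul (Complex.continuous_conj.measurable.comp (he j)))
    refine Integrable.of_bound hm.aestronglyMeasurable M (Filter.Eventually.of_forall fun x => ?_)
    rw [norm_mul, norm_mul, Complex.norm_real, Real.norm_of_nonneg (h0 x), Complex.norm_conj]
    have h1 : ‖e x i‖ * ‖e x j‖ ≤ 1 := mul_le_one₀ (he1 x i) (norm_nonneg _) (he1 x j)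
    exact (mul_le_of_le_one_right (h0 x) h1).trans (hM x)
  have h1 : star c ⬝ᵥ (Matrix.of fun i j => ∫ x, (V x : ℂ) * (e x i * conj (e x j)) ∂μ) *ᵥ c
      = ∫ x, ∑ i, ∑ j, conj (c i) * ((V x : ℂ) * (e x i * conj (e x j)) * c j) ∂μ := by
    rw [integral_finset_sum _ fun i _ => integrable_finset_sum _ fun j _ =>
      ((hint i j).mul_const _).const_mul _]
    simp only [dotProduct, Matrix.mulVec, Matrix.of_apply, Pi.star_apply, Complex.star_def]
    refine Finset.sum_congr rfl fun i _ => ?_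
    rw [integral_finset_sum _ fun j _ => ((hint i j).mul_const _).const_mul _, Finset.mul_sum]
    refine Finset.sum_congr rfl fun j _ => ?_
    rw [integral_const_mul, integral_mul_const]
  have h2 : ∀ x, ∑ i, ∑ j, conj (c i) * ((V x : ℂ) * (e x i * conj (e x j)) * c j)
      = ((V x * ‖∑ i, conj (c i) * e x i‖ ^ 2 : ℝ) : ℂ) := by
    intro x
    push_cast
    rw [← Complex.mul_conj', map_sum, Finset.sum_mul_sum, Finset.mul_sum]
    refine Finset.sum_congr rfl fun i _ => ?_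
    rw [Finset.mul_sum]
    refine Finset.sum_congr rfl fun j _ => ?_
    simp only [map_mul, Complex.conj_conj]
    ring
  rw [qf, h1]
  simp only [h2]
  rw [integral_complex_ofReal, Complex.ofReal_re]

theorem g1_pow (v l : ℝ) : 4 * l ^ 3 * v - 3 * l ^ 4 ≤ v ^ 4 := by
  have h : v ^ 4 - (4 * l ^ 3 * v - 3 * l ^ 4) = (v - l) ^ 2 * ((v + l) ^ 2 + 2 * l ^ 2) := by
    ring
  have h1 : 0 ≤ (v - l) ^ 2 * ((v + l) ^ 2 + 2 * l ^ 2) := by positivity
  linarith

/-- Berezin-Lieb inequality. Hint: Hermitian by integral_conj. Spec W U l;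
ω k x = ‖(Uᴴ *ᵥ e x) k‖^2; l k = ∫ V * ω k (Spec.diag, integral_finset_sum), so 0 ≤ l k;
∫ ω k ≤ 1 (hfr, Spec.col_sum); V^4 ≥ 4 l^3 V - 3 l^4 gives l k ^ 4 ≤ ∫ V^4 * ω k;
∑ k, ω k x ≤ card (Spec.parseval). Everything is bounded and measurable, hence integrable. -/
theorem berezin_lieb {X : Type} [MeasurableSpace X] (μ : Measure X) [IsFiniteMeasure μ]
    {e : X → ι → ℂ} (he : ∀ i, Measurable fun x => e x i) (he1 : ∀ x i, ‖e x i‖ ≤ 1)
    (hfr : ∀ c : ι → ℂ, ∫ x, ‖∑ i, conj (c i) * e x i‖ ^ 2 ∂μ ≤ ∑ i, ‖c i‖ ^ 2)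
    {V : X → ℝ} (hV : Measurable V) {M : ℝ} (h0 : ∀ x, 0 ≤ V x) (hM : ∀ x, V x ≤ M) :
    (Matrix.of fun i j => ∫ x, (V x : ℂ) * (e x i * conj (e x j)) ∂μ).IsHermitian ∧
      tp 4 (Matrix.of fun i j => ∫ x, (V x : ℂ) * (e x i * conj (e x j)) ∂μ)
        ≤ Fintype.card ι * ∫ x, V x ^ 4 ∂μ := by
  have hH : (Matrix.of fun i j => ∫ x, (V x : ℂ) * (e x i * conj (e x j)) ∂μ).IsHermitian := by
    ext i j
    rw [Matrix.conjTranspose_apply, Matrix.of_apply, Matrix.of_apply, Complex.star_def,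
      ← integral_conj]
    congr 1
    funext x
    simp only [map_mul, Complex.conj_conj, Complex.conj_ofReal]
    ring
  refine ⟨hH, ?_⟩
  obtain ⟨U, l, hs⟩ := exists_spec hH
  set w : ι → X → ℝ := fun k x => ‖∑ i, conj (U i k) * e x i‖ ^ 2 with hw
  have w0 : ∀ k x, 0 ≤ w k x := fun k x => sq_nonneg _
  have wm : ∀ k, Measurable (w k) := fun k =>
    (Finset.measurable_sum _ fun i _ => (he i).const_mul _).norm.pow_const 2
  have wsum : ∀ x, ∑ k, w k x ≤ Fintype.card ι := by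
    intro x
    have h1 := hs.parseval (e x)
    have h2 : ∑ k, w k x = ∑ i, ‖(Uᴴ *ᵥ e x) i‖ ^ 2 := by
      refine Finset.sum_congr rfl fun k _ => ?_
      simp only [hw, Matrix.mulVec, dotProduct, Matrix.conjTranspose_apply, Complex.star_def]
    rw [h2, h1]
    calc ∑ i, ‖e x i‖ ^ 2 ≤ ∑ _i : ι, (1 : ℝ) :=
          Finset.sum_le_sum fun i _ => pow_le_one₀ (norm_nonneg _) (he1 x i)
      _ = Fintype.card ι := by simp
  have wle : ∀ k x, w k x ≤ Fintype.card ι := fun k x =>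
    (Finset.single_le_sum (f := fun k => w k x) (fun k _ => w0 k x) (Finset.mem_univ k)).trans
      (wsum x)
  have hl : ∀ k, l k = ∫ x, V x * w k x ∂μ := by
    intro k
    have h1 := g1_qf μ he he1 hV h0 hM (fun i => U i k)
    have h2 : (fun i => U i k) = U *ᵥ Pi.single k 1 := by
      funext i
      simp
    rw [← h1, h2, hs.eq, Spec.qf_conj, Matrix.mulVec_mulVec, hs.ct_mul, Matrix.one_mulVec,
      Finset.sum_eq_single k]
    · simp
    · intro j _ hj
      simp [hj]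
    · simp
  have hw1 : ∀ k, ∫ x, w k x ∂μ ≤ 1 := fun k => (hfr fun i => U i k).trans (hs.col_sum k).le
  have iw : ∀ k, Integrable (w k) μ := fun k => g1_int μ (wm k) _ (w0 k) (wle k)
  have iVw : ∀ k, Integrable (fun x => V x * w k x) μ := fun k =>
    g1_int μ (hV.mul (wm k)) (M * Fintype.card ι) (fun x => mul_nonneg (h0 x) (w0 k x))
      fun x => mul_le_mul (hM x) (wle k x) (w0 k x) ((h0 x).trans (hM x))
  have iV4 : Integrable (fun x => V x ^ 4) μ :=
    g1_int μ (hV.pow_const 4) (M ^ 4) (fun x => pow_nonneg (h0 x) 4)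
      fun x => pow_le_pow_left₀ (h0 x) (hM x) 4
  have iV4w : ∀ k, Integrable (fun x => V x ^ 4 * w k x) μ := fun k =>
    g1_int μ ((hV.pow_const 4).mul (wm k)) (M ^ 4 * Fintype.card ι)
      (fun x => mul_nonneg (pow_nonneg (h0 x) 4) (w0 k x))
      fun x => mul_le_mul (pow_le_pow_left₀ (h0 x) (hM x) 4) (wle k x) (w0 k x)
        (pow_nonneg ((h0 x).trans (hM x)) 4)
  have hl0 : ∀ k, 0 ≤ l k := fun k => by
    rw [hl k]
    exact integral_nonneg fun x => mul_nonneg (h0 x) (w0 k x)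
  have hk : ∀ k, max (l k) 0 ^ 4 ≤ ∫ x, V x ^ 4 * w k x ∂μ := by
    intro k
    rw [max_eq_left (hl0 k)]
    have h1 : ∫ x, (4 * l k ^ 3 * (V x * w k x) - 3 * l k ^ 4 * w k x) ∂μ
        ≤ ∫ x, V x ^ 4 * w k x ∂μ := by
      refine integral_mono (((iVw k).const_mul _).sub ((iw k).const_mul _)) (iV4w k) fun x => ?_
      have h2 := mul_le_mul_of_nonneg_right (g1_pow (V x) (l k)) (w0 k x)
      simp only
      linarith
    rw [integral_sub ((iVw k).const_mul _) ((iw k).const_mul _), integral_const_mul,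
      integral_const_mul, ← hl k] at h1
    have h3 := mul_le_mul_of_nonneg_left (hw1 k) (pow_nonneg (hl0 k) 4)
    nlinarith
  rw [hs.tp_eq]
  calc ∑ k, max (l k) 0 ^ 4 ≤ ∑ k, ∫ x, V x ^ 4 * w k x ∂μ := Finset.sum_le_sum fun k _ => hk k
    _ = ∫ x, ∑ k, V x ^ 4 * w k x ∂μ := (integral_finset_sum _ fun k _ => iV4w k).symm
    _ ≤ ∫ x, Fintype.card ι * V x ^ 4 ∂μ := by
        refine integral_mono (integrable_finset_sum _ fun k _ => iV4w k) (iV4.const_mul _)
          fun x => ?_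
        simp only
        rw [← Finset.mul_sum, mul_comm]
        exact mul_le_mul_of_nonneg_right (wsum x) (pow_nonneg (h0 x) 4)
    _ = _ := integral_const_mul _ _

end Pool.Agent.P.MP_9f4f5e_mp.LT
end
end

-- part Pool.Agent.P.MP_9f4f5e_mp.LT.G2
section

set_option autoImplicit false
set_option linter.unusedSectionVars false

open MeasureTheory Matrix
open scoped ENNReal ComplexOrder ComplexConjugate RealInnerProductSpace FourierTransform

noncomputable section

namespace Pool.Agent.P.MP_9f4f5e_mp.LT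

theorem isOpen_cell (h : ℝ) : IsOpen (cell h) := by
  rw [cell, Set.ofPred_forall]
  exact isOpen_iInter_of_finite fun k => isOpen_lt (by fun_prop) continuous_const

theorem g2_pre (S : Fin 3 → Set ℝ) :
    (WithLp.toLp 2 : (Fin 3 → ℝ) → E3) ⁻¹' {x : E3 | ∀ k, x k ∈ S k} = Set.univ.pi S := by
  ext x
  simp

/-- product formula on coordinate boxes. Hint: PiLp.volume_preserving_toLp, volume_pi,
Measure.restrict_pi_pi, integral_fintype_prod_eq_prod (or write the integrand as a product of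
indicator functions). -/
theorem integral_box {𝕜 : Type} [RCLike 𝕜] (S : Fin 3 → Set ℝ) (hS : ∀ k, MeasurableSet (S k))
    (f : Fin 3 → ℝ → 𝕜) :
    ∫ x in {x : E3 | ∀ k, x k ∈ S k}, ∏ k, f k (x k) = ∏ k, ∫ s in S k, f k s := by
  rw [← (PiLp.volume_preserving_toLp (Fin 3)).setIntegral_preimage_emb
    (MeasurableEquiv.toLp 2 _).measurableEmbedding, g2_pre, volume_pi, Measure.restrict_pi_pi]
  exact integral_fintype_prod_eq_prod f

theorem volume_box (S : Fin 3 → Set ℝ) (hS : ∀ k, MeasurableSet (S k)) :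
    volume {x : E3 | ∀ k, x k ∈ S k} = ∏ k, volume (S k) := by
  rw [← (PiLp.volume_preserving_toLp (Fin 3)).measure_preimage_emb
    (MeasurableEquiv.toLp 2 _).measurableEmbedding, g2_pre, volume_pi_pi]

theorem g2_cell (h : ℝ) :
    cell h = {x : E3 | ∀ k, x k ∈ Set.Ioo (-(1 / (2 * h))) (1 / (2 * h))} := by
  simp only [cell, abs_lt, Set.mem_Ioo]

theorem volume_cell_ne_top (h : ℝ) : volume (cell h) ≠ ∞ := by
  rw [g2_cell, volume_box _ fun _ => measurableSet_Ioo]
  exact ENNReal.prod_ne_top fun _ _ => measure_Ioo_lt_top.ne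

/-- one-dimensional orthogonality. Hint: ec_eq, integral_exp_mul_complex,
Complex.exp_int_mul_two_pi_mul_I. -/
theorem integral_ec_int {h : ℝ} (hh : 0 < h) (j : ℤ) :
    ∫ s in Set.Ioo (-(1 / (2 * h))) (1 / (2 * h)), ec (h * j * s)
      = if j = 0 then ((1 / h : ℝ) : ℂ) else 0 := by
  have h0 : 0 < 1 / (2 * h) := by positivity
  have h1 : (h : ℂ) ≠ 0 := Complex.ofReal_ne_zero.2 hh.ne'
  rw [← integral_Ioc_eq_integral_Ioo, ← intervalIntegral.integral_of_le (by linarith)]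
  split_ifs with hj
  · simp only [hj, Int.cast_zero, mul_zero, zero_mul, ec_zero, intervalIntegral.integral_const,
      Complex.real_smul, mul_one]
    congr 1
    field_simp
    ring
  · have e : ∀ s : ℝ, ec (h * j * s) = Complex.exp (2 * Real.pi * Complex.I * h * j * s) := by
      intro s
      rw [ec_eq]
      congr 1
      push_cast
      ring
    simp only [e]
    rw [integral_exp_mul_complex (mul_ne_zero (mul_ne_zero Complex.two_pi_I_ne_zero h1)
      (Int.cast_ne_zero.2 hj)), div_eq_zero_iff, sub_eq_zero]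
    refine Or.inl (Complex.exp_eq_exp_iff_exists_int.2 ⟨j, ?_⟩)
    push_cast
    field_simp
    ring

theorem g2_prod (h : ℝ) {m : ℕ} (i j : Fin 3 → Fin m) (x : E3) :
    ec (-⟪lat h i, x⟫) * conj (ec (-⟪lat h j, x⟫)) =
      ∏ k, ec (h * (((j k : ℕ) : ℤ) - ((i k : ℕ) : ℤ) : ℤ) * x k) := by
  rw [← ec_neg, ← ec_add, Fin.prod_univ_three, ← ec_add, ← ec_add]
  congr 1
  simp only [lat, PiLp.inner_apply, Fin.sum_univ_three, RCLike.inner_apply, conj_trivial]
  push_cast
  ring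

/-- Parseval on the cell. Hint: expand the square, ec (-⟪lat h i, x⟫) * conj (ec (-⟪lat h j, x⟫))
= ∏ k, ec (h * (j k - i k) * x k), integral_box, integral_ec_int. -/
theorem cell_frame {h : ℝ} (hh : 0 < h) {m : ℕ} (c : (Fin 3 → Fin m) → ℂ) :
    h ^ 3 * ∫ x in cell h, ‖∑ i, conj (c i) * ec (-⟪lat h i, x⟫)‖ ^ 2 ≤ ∑ i, ‖c i‖ ^ 2 := by
  have hi : ∀ i j : Fin 3 → Fin m, IntegrableOn (fun x : E3 => conj (c i) * c j *
      ∏ k, ec (h * (((j k : ℕ) : ℤ) - ((i k : ℕ) : ℤ) : ℤ) * x k)) (cell h) := fun i j =>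
    Measure.integrableOn_of_bounded (M := ‖c i‖ * ‖c j‖) (volume_cell_ne_top h)
      (Continuous.aestronglyMeasurable (by fun_prop))
      (ae_of_all _ fun x => by simp [norm_ec])
  have e : ∀ x : E3, ((‖∑ i, conj (c i) * ec (-⟪lat h i, x⟫)‖ ^ 2 : ℝ) : ℂ) = ∑ i, ∑ j,
      conj (c i) * c j * ∏ k, ec (h * (((j k : ℕ) : ℤ) - ((i k : ℕ) : ℤ) : ℤ) * x k) := by
    intro x
    rw [Complex.ofReal_pow, ← Complex.mul_conj', map_sum, Finset.sum_mul_sum]
    refine Finset.sum_congr rfl fun i _ => Finset.sum_congr rfl fun j _ => ?_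
    rw [← g2_prod, map_mul, Complex.conj_conj]
    ring
  have e2 : ∀ i j : Fin 3 → Fin m, ∫ x in cell h, conj (c i) * c j *
      ∏ k, ec (h * (((j k : ℕ) : ℤ) - ((i k : ℕ) : ℤ) : ℤ) * x k) =
        if i = j then ((‖c i‖ ^ 2 / h ^ 3 : ℝ) : ℂ) else 0 := by
    intro i j
    rw [integral_const_mul, g2_cell, integral_box _ (fun _ => measurableSet_Ioo)
      fun k s => ec (h * (((j k : ℕ) : ℤ) - ((i k : ℕ) : ℤ) : ℤ) * s)]
    simp only [integral_ec_int hh]
    split_ifs with hij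
    · subst hij
      rw [Complex.conj_mul']
      simp [div_eq_mul_inv]
    · obtain ⟨k, hk⟩ := Function.ne_iff.1 hij
      rw [Finset.prod_eq_zero (Finset.mem_univ k) (if_neg fun q => hk (Fin.ext (by omega))),
        mul_zero]
  refine le_of_eq (Complex.ofReal_injective ?_)
  rw [Complex.ofReal_mul, ← integral_complex_ofReal]
  simp only [e]
  rw [integral_finsetSum _ fun i _ => integrable_finsetSum _ fun j _ => hi i j,
    Finset.sum_congr rfl fun i _ => integral_finsetSum _ fun j _ => hi i j]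
  simp only [e2, Finset.sum_ite_eq, Finset.mem_univ, if_true]
  rw [← Complex.ofReal_sum, ← Complex.ofReal_mul, ← Finset.sum_div,
    mul_div_cancel₀ _ (pow_pos hh 3).ne']

end Pool.Agent.P.MP_9f4f5e_mp.LT
end
end

-- part Pool.Agent.P.MP_9f4f5e_mp.LT.G4
section

set_option autoImplicit false
set_option linter.unusedSectionVars false

open MeasureTheory Matrix
open scoped ENNReal ComplexOrder ComplexConjugate RealInnerProductSpace FourierTransform

noncomputable section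

namespace Pool.Agent.P.MP_9f4f5e_mp.LT

theorem fej_nonneg (m : ℕ) (y : ℝ) : 0 ≤ fej m y := by
  unfold fej
  positivity

theorem fej_le (m : ℕ) (y : ℝ) : fej m y ≤ m := by
  have h : ‖∑ j : Fin m, ec (((j : ℕ) : ℝ) * y)‖ ≤ m := by
    refine (norm_sum_le _ _).trans ?_
    simp [norm_ec]
  unfold fej
  refine div_le_of_le_mul₀ (Nat.cast_nonneg _) (Nat.cast_nonneg _) ?_
  rw [sq]
  exact mul_self_le_mul_self (norm_nonneg _) h

@[fun_prop] theorem continuous_fej (m : ℕ) : Continuous (fej m) := by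
  unfold fej
  fun_prop

theorem g4_int {E : Type} [NormedAddCommGroup E] {f : ℝ → E} (hf : Continuous f) (a b : ℝ) :
    IntegrableOn f (Set.Ioo a b) :=
  (hf.integrableOn_Icc (a := a) (b := b)).mono_set Set.Ioo_subset_Icc_self

theorem g4_sq (m : ℕ) (y : ℝ) :
    ((‖∑ j : Fin m, ec (((j : ℕ) : ℝ) * y)‖ ^ 2 : ℝ) : ℂ) =
      ∑ i : Fin m, ∑ j : Fin m, ec (1 * (((i : ℕ) - (j : ℕ) : ℤ) : ℝ) * y) := by
  rw [← Complex.normSq_eq_norm_sq, ← Complex.mul_conj, map_sum, Finset.sum_mul_sum]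
  refine Finset.sum_congr rfl fun i _ => Finset.sum_congr rfl fun j _ => ?_
  rw [← ec_neg, ← ec_add]
  push_cast
  ring_nf

/-- Hint: expand the square, integral_ec_int with h = 1. -/
theorem integral_fej {m : ℕ} (hm : 0 < m) :
    ∫ y in Set.Ioo (-(1 / 2) : ℝ) (1 / 2), fej m y = 1 := by
  have hm' : (m : ℝ) ≠ 0 := Nat.cast_ne_zero.2 hm.ne'
  have key : ∫ y in Set.Ioo (-(1 / 2) : ℝ) (1 / 2),
      ‖∑ j : Fin m, ec (((j : ℕ) : ℝ) * y)‖ ^ 2 = m := by
    apply Complex.ofReal_injective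
    rw [← integral_complex_ofReal]
    simp only [g4_sq]
    have hc : ∀ k : ℤ, Continuous fun y : ℝ => ec (1 * (k : ℝ) * y) := fun k => by fun_prop
    rw [integral_finsetSum _ fun i _ =>
      g4_int (continuous_finsetSum _ fun j _ => hc _) _ _]
    have h1 : ∀ i : Fin m, ∫ y in Set.Ioo (-(1 / 2) : ℝ) (1 / 2),
        ∑ j : Fin m, ec (1 * (((i : ℕ) - (j : ℕ) : ℤ) : ℝ) * y) = 1 := by
      intro i
      rw [integral_finsetSum _ fun j _ => g4_int (hc _) _ _]
      have h2 : ∀ j : Fin m, ∫ y in Set.Ioo (-(1 / 2) : ℝ) (1 / 2),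
          ec (1 * (((i : ℕ) - (j : ℕ) : ℤ) : ℝ) * y) = if i = j then 1 else 0 := by
        intro j
        have := integral_ec_int (h := 1) one_pos ((i : ℕ) - (j : ℕ) : ℤ)
        rw [mul_one] at this
        rw [this]
        have e : ((i : ℕ) - (j : ℕ) : ℤ) = 0 ↔ i = j := by
          rw [sub_eq_zero, Nat.cast_inj, Fin.val_inj]
        simp only [e]
        simp
      simp only [h2]
      simp
    simp only [h1]
    simp
  unfold fej
  rw [integral_div, key, div_self hm']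

theorem g4_geom (m : ℕ) (y : ℝ) :
    (ec y - 1) * ∑ j : Fin m, ec (((j : ℕ) : ℝ) * y) = ec (m * y) - 1 := by
  rw [Fin.sum_univ_eq_sum_range (fun j : ℕ => ec ((j : ℝ) * y)) m]
  induction m with
  | zero => simp [ec_zero]
  | succ n ih =>
    rw [Finset.sum_range_succ, mul_add, ih]
    have : ec (((n + 1 : ℕ) : ℝ) * y) = ec y * ec (n * y) := by
      rw [← ec_add]
      push_cast
      ring_nf
    rw [this]
    ring

theorem g4_low {y : ℝ} (h1 : |y| ≤ 1 / 2) : 4 * |y| ≤ ‖ec y - 1‖ := by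
  have hp := Real.pi_pos
  rw [ec_eq, mul_comm _ Complex.I, Complex.norm_exp_I_mul_ofReal_sub_one, Real.norm_eq_abs,
    abs_mul, abs_two]
  have e : 2 * Real.pi * y / 2 = Real.pi * y := by ring
  rw [e]
  have a : |Real.pi * y| = Real.pi * |y| := by rw [abs_mul, abs_of_pos hp]
  have h := Real.mul_abs_le_abs_sin (x := Real.pi * y) (by rw [a]; nlinarith)
  rw [a] at h
  have e2 : 2 / Real.pi * (Real.pi * |y|) = 2 * |y| := by field_simp
  linarith

/-- Hint: geometric sum: (ec y - 1) * ∑ = ec (m y) - 1, ‖ec y - 1‖ = 2 |sin (π y)| ≥ 4 |y|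
(Complex.norm_exp_I_mul_ofReal_sub_one, Real.mul_abs_le_abs_sin). -/
theorem fej_le_far {m : ℕ} (hm : 0 < m) {y : ℝ} (h0 : y ≠ 0) (h1 : |y| ≤ 1 / 2) :
    fej m y ≤ 1 / (4 * m * y ^ 2) := by
  have hm' : (0 : ℝ) < m := Nat.cast_pos.2 hm
  have h2 : ‖ec y - 1‖ * ‖∑ j : Fin m, ec (((j : ℕ) : ℝ) * y)‖ ≤ 2 := by
    rw [← norm_mul, g4_geom]
    refine (norm_sub_le _ _).trans ?_
    rw [norm_ec, norm_one]
    norm_num
  have h3 := g4_low h1
  unfold fej
  generalize hS : ‖∑ j : Fin m, ec (((j : ℕ) : ℝ) * y)‖ = S at h2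
  have hS0 : 0 ≤ S := hS ▸ norm_nonneg _
  have h4 : 2 * |y| * S ≤ 1 := by nlinarith [mul_le_mul_of_nonneg_right h3 hS0]
  have h5 : (2 * |y| * S) ^ 2 ≤ 1 := pow_le_one₀ (by positivity) h4
  rw [mul_pow, mul_pow, sq_abs] at h5
  rw [div_le_div_iff₀ hm' (by positivity)]
  nlinarith [mul_le_mul_of_nonneg_right h5 hm'.le]

/-- concentration -/
theorem fej_mass {m : ℕ} (hm : 0 < m) {δ : ℝ} (h0 : 0 < δ) (h1 : δ ≤ 1 / 2) :
    1 - 1 / (4 * m * δ ^ 2) ≤ ∫ y in Set.Ioo (-δ) δ, fej m y := by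
  have hm' : (0 : ℝ) < m := Nat.cast_pos.2 hm
  have hsub : Set.Ioo (-δ) δ ⊆ Set.Ioo (-(1 / 2) : ℝ) (1 / 2) :=
    Set.Ioo_subset_Ioo (by linarith) h1
  have hi := g4_int (continuous_fej m) (-(1 / 2) : ℝ) (1 / 2)
  have hi2 : IntegrableOn ((Set.Ioo (-δ) δ).indicator (fej m))
      (Set.Ioo (-(1 / 2) : ℝ) (1 / 2)) := hi.indicator measurableSet_Ioo
  have hi3 := g4_int (f := fun _ : ℝ => 1 / (4 * m * δ ^ 2)) continuous_const
    (-(1 / 2) : ℝ) (1 / 2)
  have hle : ∫ y in Set.Ioo (-(1 / 2) : ℝ) (1 / 2), fej m y ≤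
      ∫ y in Set.Ioo (-(1 / 2) : ℝ) (1 / 2),
        ((Set.Ioo (-δ) δ).indicator (fej m) y + 1 / (4 * m * δ ^ 2)) := by
    refine setIntegral_mono_on hi (hi2.add hi3) measurableSet_Ioo fun y hy => ?_
    by_cases h : y ∈ Set.Ioo (-δ) δ
    · rw [Set.indicator_of_mem h]
      exact le_add_of_nonneg_right (by positivity)
    · rw [Set.indicator_of_notMem h, zero_add]
      have h2 : δ ≤ |y| := by
        by_contra hc
        exact h (abs_lt.1 (not_le.1 hc))
      have h3 : y ≠ 0 := by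
        rintro rfl
        rw [abs_zero] at h2
        linarith
      refine (fej_le_far hm h3 (abs_le.2 ⟨hy.1.le, hy.2.le⟩)).trans ?_
      refine one_div_le_one_div_of_le (by positivity) ?_
      have h4 : δ ^ 2 ≤ y ^ 2 := by
        rw [← sq_abs y]
        exact pow_le_pow_left₀ h0.le h2 2
      exact mul_le_mul_of_nonneg_left h4 (by positivity)
  rw [integral_fej hm, integral_add hi2 hi3, setIntegral_indicator measurableSet_Ioo,
    Set.inter_eq_right.2 hsub, setIntegral_const] at hle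
  have hv : (volume : Measure ℝ).real (Set.Ioo (-(1 / 2) : ℝ) (1 / 2)) = 1 := by
    rw [Real.volume_real_Ioo]
    norm_num
  rw [hv, one_smul] at hle
  linarith

end Pool.Agent.P.MP_9f4f5e_mp.LT
end
end
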