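import Pool.Agent.K.MP_9f4f5e_mp.C0

set_option autoImplicit false
set_option linter.unusedSectionVars false

open MeasureTheory Matrix
open scoped ENNReal ComplexOrder ComplexConjugate RealInnerProductSpace FourierTransform

noncomputable section

namespace Pool.Agent.P.MP_9f4f5e_mp.LT

variable {ι : Type} [Fintype ι] [DecidableEq ι]

theorem a4_trace_dg (N : Matrix ι ι ℂ) (e : ι → ℝ) :
    (N * dg e).trace.re = ∑ i, e i * (N i i).re := by
  rw [Matrix.trace, Complex.re_sum]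
  refine Finset.sum_congr rfl fun i _ => ?_
  rw [Matrix.diag_apply, dg, Matrix.mul_diagonal, mul_comm, Complex.re_ofReal_mul]

theorem a4_qf_col (g U : Matrix ι ι ℂ) (k : ι) :
    qf g (fun i => U i k) = ((Uᴴ * g * U) k k).re := by
  rw [qf, Matrix.mul_assoc, Matrix.mul_apply]
  rfl

theorem a4_trace {M U : Matrix ι ι ℂ} {l : ι → ℝ} (h : Spec M U l) (g : Matrix ι ι ℂ) :
    (g * M).trace.re = ∑ k, l k * qf g (fun i => U i k) := by
  have h1 : (g * M).trace = (Uᴴ * g * U * dg l).trace := by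
    conv_lhs => rw [h.eq, ← Matrix.mul_assoc, Matrix.trace_mul_comm]
    simp only [Matrix.mul_assoc]
  rw [h1, a4_trace_dg]
  simp only [a4_qf_col]

/-- Dual bound. Hint: Spec M U l; (g * M).trace.re = ∑ k, l k * qf g (column k of U), and
0 ≤ qf g (column) ≤ 1 by Spec.col_sum. -/
theorem trace_mul_le_tp_one {M g : Matrix ι ι ℂ} (hM : M.IsHermitian) (h0 : ∀ c, 0 ≤ qf g c)
    (h1 : ∀ c, qf g c ≤ ∑ i, ‖c i‖ ^ 2) : (g * M).trace.re ≤ tp 1 M := by
  obtain ⟨U, l, h⟩ := exists_spec hM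
  rw [a4_trace h, h.tp_eq]
  refine Finset.sum_le_sum fun k _ => ?_
  have h2 := h0 fun i => U i k
  have h3 := h1 fun i => U i k
  rw [h.col_sum] at h3
  rw [pow_one]
  calc l k * qf g (fun i => U i k) ≤ max (l k) 0 * qf g (fun i => U i k) :=
        mul_le_mul_of_nonneg_right (le_max_left _ _) h2
    _ ≤ max (l k) 0 * 1 := mul_le_mul_of_nonneg_left h3 (le_max_right _ _)
    _ = max (l k) 0 := mul_one _

/-- Equality for the spectral projection g = U dg (if 0 < l i then 1 else 0) Uᴴ. -/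
theorem exists_trace_eq_tp_one {M : Matrix ι ι ℂ} (hM : M.IsHermitian) :
    ∃ g : Matrix ι ι ℂ, (∀ c, 0 ≤ qf g c) ∧ (∀ c, qf g c ≤ ∑ i, ‖c i‖ ^ 2) ∧
      (∀ i, 0 ≤ (g i i).re) ∧ (g * M).trace.re = tp 1 M := by
  obtain ⟨U, l, h⟩ := exists_spec hM
  set χ : ι → ℝ := fun i => if 0 < l i then 1 else 0 with hχ
  have c0 : ∀ i, 0 ≤ χ i := fun i => by
    simp only [hχ]
    split_ifs <;> norm_num
  have c1 : ∀ i, χ i ≤ 1 := fun i => by
    simp only [hχ]
    split_ifs <;> norm_num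
  have c2 : ∀ i, χ i * l i = max (l i) 0 ^ 1 := fun i => by
    simp only [hχ]
    split_ifs with hi
    · rw [one_mul, pow_one, max_eq_left hi.le]
    · rw [zero_mul, pow_one, max_eq_right (not_lt.mp hi)]
  refine ⟨U * dg χ * Uᴴ, fun c => ?_, fun c => ?_, fun i => ?_, ?_⟩
  · rw [Spec.qf_conj]
    exact Finset.sum_nonneg fun i _ => mul_nonneg (c0 i) (sq_nonneg _)
  · rw [Spec.qf_conj, ← h.parseval c]
    exact Finset.sum_le_sum fun i _ => mul_le_of_le_one_left (sq_nonneg _) (c1 i)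
  · rw [Spec.conj_apply, Complex.ofReal_re]
    exact Finset.sum_nonneg fun k _ => mul_nonneg (sq_nonneg _) (c0 k)
  · have h1 : U * dg χ * Uᴴ * M = U * dg (fun i => χ i * l i) * Uᴴ := by
      conv_lhs => rw [h.eq]
      calc U * dg χ * Uᴴ * (U * dg l * Uᴴ) = U * (dg χ * (Uᴴ * U) * dg l) * Uᴴ := by
            simp only [Matrix.mul_assoc]
        _ = _ := by rw [h.ct_mul, Matrix.mul_one, dg_mul]
    rw [h1, h.trace_conj, Complex.ofReal_re, h.tp_eq]
    exact Finset.sum_congr rfl fun i _ => c2 i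

/-- Convexity and monotonicity in the diagonal. Hint: g optimal for V - dg d;
(g * (V - dg e)).trace.re = (g * V).trace.re - ∑ i, e i * (g i i).re is affine in e;
tp 1 (V - dg d) ≤ ∫ ω, (g * (V - dg (e ω))).trace.re, ofReal of an integral is at most the
lintegral of ofReal, then lintegral_mono with trace_mul_le_tp_one. -/
theorem tp_one_le_lintegral {Ω : Type} [MeasurableSpace Ω] (μ : Measure Ω)
    [IsProbabilityMeasure μ] {V : Matrix ι ι ℂ} (hV : V.IsHermitian) (d : ι → ℝ) (e : Ω → ι → ℝ)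
    (he : ∀ i, Integrable (fun ω => e ω i) μ) (hle : ∀ i, ∫ ω, e ω i ∂μ ≤ d i) :
    ENNReal.ofReal (tp 1 (V - dg d)) ≤ ∫⁻ ω, ENNReal.ofReal (tp 1 (V - dg (e ω))) ∂μ := by
  obtain ⟨g, g0, g1, g2, g3⟩ := exists_trace_eq_tp_one (hV.sub (dg_isHermitian d))
  have haff : ∀ x : ι → ℝ,
      (g * (V - dg x)).trace.re = (g * V).trace.re - ∑ i, x i * (g i i).re := fun x => by
    rw [Matrix.mul_sub, Matrix.trace_sub, Complex.sub_re, a4_trace_dg]
  have hi1 : ∀ i, Integrable (fun ω => e ω i * (g i i).re) μ := fun i => (he i).mul_const _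
  have hi2 : Integrable (fun ω => ∑ i, e ω i * (g i i).re) μ :=
    integrable_finsetSum _ fun i _ => hi1 i
  have hi3 : Integrable (fun ω => (g * V).trace.re - ∑ i, e ω i * (g i i).re) μ :=
    (integrable_const _).sub hi2
  have h1 : tp 1 (V - dg d) ≤ ∫ ω, ((g * V).trace.re - ∑ i, e ω i * (g i i).re) ∂μ := by
    rw [integral_sub (integrable_const _) hi2, integral_finsetSum _ fun i _ => hi1 i, ← g3, haff,
      integral_const, probReal_univ, one_smul]
    refine sub_le_sub_left (Finset.sum_le_sum fun i _ => ?_) _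
    rw [integral_mul_const]
    exact mul_le_mul_of_nonneg_right (hle i) (g2 i)
  have h2 : ∫ ω, ((g * V).trace.re - ∑ i, e ω i * (g i i).re) ∂μ
      ≤ ∫ ω, max ((g * V).trace.re - ∑ i, e ω i * (g i i).re) 0 ∂μ :=
    integral_mono hi3 hi3.pos_part fun ω => le_max_left _ _
  refine (ENNReal.ofReal_le_ofReal (h1.trans h2)).trans ?_
  rw [ofReal_integral_eq_lintegral_ofReal hi3.pos_part
    (Filter.Eventually.of_forall fun ω => le_max_right _ _)]
  refine lintegral_mono fun ω => ENNReal.ofReal_le_ofReal (max_le ?_ ?_)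
  · rw [← haff]
    exact trace_mul_le_tp_one (hV.sub (dg_isHermitian _)) g0 g1
  · exact tp_nonneg (hV.sub (dg_isHermitian _)) 1

end Pool.Agent.P.MP_9f4f5e_mp.LT
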