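import Pool.Agent.K.MP_9f4f5e_mp.C0
import Pool.Agent.P.MP_9f4f5e_mp.RL.Stmt
import Pool.Agent.K.MP_9f4f5e_mp.C1

-- part Pool.Agent.P.MP_9f4f5e_mp.RL.Defs
section

set_option linter.unusedSectionVars false
set_option linter.unusedVariables false

open MeasureTheory Matrix
open scoped ENNReal ComplexOrder ComplexConjugate FourierTransform RealInnerProductSpace
open Pool.Agent.P.MP_9f4f5e_mp.LT (tp pp dg qf ec fej Spec)

noncomputable section

namespace Pool.Agent.P.MP_9f4f5e_mp.RL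

variable {d : ℕ} {ι κ : Type} [Fintype ι] [DecidableEq ι] [Fintype κ]

/-- diagonal of the positive part -/
def p1 (M : Matrix ι ι ℂ) (i : ι) : ℝ := (pp M i i).re

/-- diagonal of the square of the positive part -/
def p2 (M : Matrix ι ι ℂ) (i : ι) : ℝ := ((pp M * pp M) i i).re

/-- the matrix is at most K -/
def Bd (V : Matrix ι ι ℂ) (K : ℝ) : Prop := ((dg fun _ => K) - V).PosSemidef

/-- relativistic energy -/
def om (p : E d) (m : ℝ) : ℝ := √(‖p‖ ^ 2 + m ^ 2)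

/-- unit vectors -/
def ee (k : Fin d) : E d := EuclideanSpace.single k 1

/-- increment of the energy in a momentum direction -/
def gt (p : E d) (m ε : ℝ) (k : Fin d) : ℝ := om (p - ε • ee k) m - om p m

/-- increment of the energy in the mass -/
def gm (p : E d) (m ε : ℝ) : ℝ := om p (m + ε) - om p m

/-- the fibre matrix -/
def MM (V : Matrix ι ι ℂ) (a : ι → E d) (t : E d) (m z : ℝ) : Matrix ι ι ℂ :=
  V - dg fun i => om (a i - t) m - z

/-- its cubic Riesz mean -/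
def TT (V : Matrix ι ι ℂ) (a : ι → E d) (t : E d) (m z : ℝ) : ℝ := tp 3 (MM V a t m z)

/-- the first order term -/
def QQ (V : Matrix ι ι ℂ) (a : ι → E d) (t : E d) (m z : ℝ) : ℝ :=
  ∑ i, p2 (MM V a t m z) i / om (a i - t) m

/-- second differences in the momentum -/
def S2 (V : Matrix ι ι ℂ) (a : ι → E d) (t : E d) (m z ε : ℝ) : ℝ :=
  ∑ k, (TT V a (t + ε • ee k) m z + TT V a (t + (-ε) • ee k) m z - 2 * TT V a t m z)

/-- the discrete wave operator -/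
def E1 (V : Matrix ι ι ℂ) (a : ι → E d) (t : E d) (m z ε : ℝ) : ℝ :=
  S2 V a t m z ε + (TT V a t (m + ε) z + TT V a t (m - ε) z - 2 * TT V a t m z)
    - (TT V a t m (z + ε) + TT V a t m (z - ε) - 2 * TT V a t m z)

/-- the weight -/
def wt (d : ℕ) (m : ℝ) : ℝ := m ^ (-((d : ℝ) / 2))

/-- the potential constant -/
def cc (d : ℕ) : ℝ := (d : ℝ) / 2 * ((d : ℝ) / 2 + 1)

/-- the weighted discrete operator -/
def DD (V : Matrix ι ι ℂ) (a : ι → E d) (t : E d) (m z ε : ℝ) : ℝ :=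
  wt d (m + ε) * TT V a t (m + ε) z + wt d (m - ε) * TT V a t (m - ε) z
    - wt d m * (TT V a t m (z + ε) + TT V a t m (z - ε)) + wt d m * S2 V a t m z ε
    - cc d * ε ^ 2 / m ^ 2 * (wt d m * TT V a t m z)

/-- the integral over the momentum -/
def UU (V : Matrix ι ι ℂ) (a : ι → E d) (m z : ℝ) : ℝ := ∫ t, TT V a t m z

/-- the weighted excess over the classical value -/
def WW (V : Matrix ι ι ℂ) (a : ι → E d) (m z : ℝ) : ℝ :=
  wt d m * (UU V a m z - UU V (fun _ => (0 : E d)) m z)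

/-- integral over a momentum cell -/
def uu (Q : Set (E d)) (f : E d → ℂ) (p : E d) : ℂ := ∫ s in Q, f (p + s)

/-- Fourier transform of the indicator of the cell -/
def ww (Q : Set (E d)) (z : E d) : ℂ := ∫ s in Q, ec (-⟪s, z⟫)

/-- the momentum cube of side h -/
def cube (d : ℕ) (h : ℝ) : Set (E d) := {s | ∀ k, s k ∈ Set.Ico 0 h}

/-- the position cell of side 1/h -/
def cell (d : ℕ) (h : ℝ) : Set (E d) := {x | ∀ k, |x k| < 1 / (2 * h)}

/-- lattice points in a cube -/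
def lat (h : ℝ) {n : ℕ} (i : Fin d → Fin n) : E d := WithLp.toLp 2 fun k => h * ((i k : ℕ) : ℝ)

/-- all lattice points -/
def zl (h : ℝ) (i : Fin d → ℤ) : E d := WithLp.toLp 2 fun k => h * (i k : ℝ)

/-- product Fejer kernel -/
def ker (n : ℕ) (h : ℝ) (y : E d) : ℝ := h ^ d * ∏ k, fej n (h * y k)

/-- kinetic energy as a real number -/
def tk (m : ℝ) (u : L2 d) : ℝ := ∫ ξ, sym m ξ * ‖fn (ft u) ξ‖ ^ 2

/-- the cubic phase space integral, momentum outside -/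
def ph3 (m : ℝ) (V : E d → ℝ) : ℝ≥0∞ := ∫⁻ ξ : E d, ∫⁻ x, ENNReal.ofReal (V x - sym m ξ) ^ 3

end Pool.Agent.P.MP_9f4f5e_mp.RL
end
end

-- part Pool.Agent.P.MP_9f4f5e_mp.RL.A3
section

set_option linter.unusedSectionVars false
set_option linter.unusedVariables false

open MeasureTheory Matrix
open scoped ENNReal ComplexOrder ComplexConjugate FourierTransform RealInnerProductSpace
open Pool.Agent.P.MP_9f4f5e_mp.LT (tp pp dg qf ec fej Spec)

noncomputable section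

namespace Pool.Agent.P.MP_9f4f5e_mp.RL

variable {d : ℕ} {ι κ : Type} [Fintype ι] [DecidableEq ι] [Fintype κ]

theorem a3_pow (v : ℝ) {L : ℝ} (hL : 0 ≤ L) : 3 * L ^ 2 * v - 2 * L ^ 3 ≤ max v 0 ^ 3 := by
  have h1 : max v 0 ^ 3 - (3 * L ^ 2 * max v 0 - 2 * L ^ 3) =
      (max v 0 - L) ^ 2 * (max v 0 + 2 * L) := by ring
  have h2 : 0 ≤ (max v 0 - L) ^ 2 * (max v 0 + 2 * L) :=
    mul_nonneg (sq_nonneg _) (add_nonneg (le_max_right _ _) (by linarith))
  have h3 := mul_le_mul_of_nonneg_left (le_max_left v 0) (sq_nonneg L)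
  linarith

theorem a3_max (v : ℝ) : max v 0 ^ 2 * v = max v 0 ^ 3 := by
  rcases le_total v 0 with h | h
  · rw [max_eq_right h]; ring
  · rw [max_eq_left h]; ring

theorem berezin3 {X : Type} [MeasurableSpace X] (μ : Measure X) [IsFiniteMeasure μ]
    {e : X → ι → ℂ} (he : ∀ i, Measurable fun x => e x i) (he1 : ∀ x i, ‖e x i‖ ≤ 1)
    (hfr : ∀ c : ι → ℂ, ∫ x, ‖∑ i, conj (c i) * e x i‖ ^ 2 ∂μ ≤ ∑ i, ‖c i‖ ^ 2)
    {V : X → ℝ} (hV : Measurable V) {M : ℝ} (h0 : ∀ x, 0 ≤ V x) (hM : ∀ x, V x ≤ M) :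
    (Matrix.of fun i j => ∫ x, (V x : ℂ) * (e x i * conj (e x j)) ∂μ).IsHermitian ∧
      ∀ k : ℝ, 0 ≤ k →
        tp 3 ((Matrix.of fun i j => ∫ x, (V x : ℂ) * (e x i * conj (e x j)) ∂μ) - dg fun _ => k)
          ≤ Fintype.card ι * ∫ x, max (V x - k) 0 ^ 3 ∂μ := by
  have hH : (Matrix.of fun i j => ∫ x, (V x : ℂ) * (e x i * conj (e x j)) ∂μ).IsHermitian := by
    ext i j
    rw [Matrix.conjTranspose_apply, Matrix.of_apply, Matrix.of_apply, Complex.star_def,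
      ← integral_conj]
    congr 1
    funext x
    simp only [map_mul, Complex.conj_conj, Complex.conj_ofReal]
    ring
  refine ⟨hH, fun k hk0 => ?_⟩
  obtain ⟨U, l, hs⟩ := LT.exists_spec hH
  set w : ι → X → ℝ := fun j x => ‖∑ i, conj (U i j) * e x i‖ ^ 2 with hw
  have w0 : ∀ j x, 0 ≤ w j x := fun j x => sq_nonneg _
  have wm : ∀ j, Measurable (w j) := fun j =>
    (Finset.measurable_sum _ fun i _ => (he i).const_mul _).norm.pow_const 2
  have wsum : ∀ x, ∑ j, w j x ≤ Fintype.card ι := by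
    intro x
    have h1 := hs.parseval (e x)
    have h2 : ∑ j, w j x = ∑ i, ‖(Uᴴ *ᵥ e x) i‖ ^ 2 := by
      refine Finset.sum_congr rfl fun j _ => ?_
      simp only [hw, Matrix.mulVec, dotProduct, Matrix.conjTranspose_apply, Complex.star_def]
    rw [h2, h1]
    calc ∑ i, ‖e x i‖ ^ 2 ≤ ∑ _i : ι, (1 : ℝ) :=
          Finset.sum_le_sum fun i _ => pow_le_one₀ (norm_nonneg _) (he1 x i)
      _ = Fintype.card ι := by simp
  have wle : ∀ j x, w j x ≤ Fintype.card ι := fun j x =>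
    (Finset.single_le_sum (f := fun j => w j x) (fun j _ => w0 j x) (Finset.mem_univ j)).trans
      (wsum x)
  have hl : ∀ j, l j = ∫ x, V x * w j x ∂μ := by
    intro j
    have h1 := LT.g1_qf μ he he1 hV h0 hM (fun i => U i j)
    have h2 : (fun i => U i j) = U *ᵥ Pi.single j 1 := by
      funext i
      simp
    rw [← h1, h2, hs.eq, LT.Spec.qf_conj, Matrix.mulVec_mulVec, hs.ct_mul, Matrix.one_mulVec,
      Finset.sum_eq_single j]
    · simp
    · intro i _ hi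
      simp [hi]
    · simp
  have hw1 : ∀ j, ∫ x, w j x ∂μ ≤ 1 := fun j => (hfr fun i => U i j).trans (hs.col_sum j).le
  have iw : ∀ j, Integrable (w j) μ := fun j => LT.g1_int μ (wm j) _ (w0 j) (wle j)
  have iVw : ∀ j, Integrable (fun x => V x * w j x) μ := fun j =>
    LT.g1_int μ (hV.mul (wm j)) (M * Fintype.card ι) (fun x => mul_nonneg (h0 x) (w0 j x))
      fun x => mul_le_mul (hM x) (wle j x) (w0 j x) ((h0 x).trans (hM x))
  have pm : Measurable fun x => max (V x - k) 0 ^ 3 :=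
    ((hV.sub_const k).max measurable_const).pow_const 3
  have p0 : ∀ x, 0 ≤ max (V x - k) 0 ^ 3 := fun x => pow_nonneg (le_max_right _ _) 3
  have pM : ∀ x, max (V x - k) 0 ^ 3 ≤ M ^ 3 := fun x =>
    pow_le_pow_left₀ (le_max_right _ _)
      (max_le (by linarith [hM x]) ((h0 x).trans (hM x))) 3
  have ip : Integrable (fun x => max (V x - k) 0 ^ 3) μ := LT.g1_int μ pm (M ^ 3) p0 pM
  have ipw : ∀ j, Integrable (fun x => max (V x - k) 0 ^ 3 * w j x) μ := fun j =>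
    LT.g1_int μ (pm.mul (wm j)) (M ^ 3 * Fintype.card ι) (fun x => mul_nonneg (p0 x) (w0 j x))
      fun x => mul_le_mul (pM x) (wle j x) (w0 j x) ((p0 x).trans (pM x))
  have hk : ∀ j, max (l j - k) 0 ^ 3 ≤ ∫ x, max (V x - k) 0 ^ 3 * w j x ∂μ := by
    intro j
    have hL : 0 ≤ max (l j - k) 0 := le_max_right _ _
    have h4 := a3_max (l j - k)
    generalize max (l j - k) 0 = L at hL h4 ⊢
    have h1 : ∫ x, (3 * L ^ 2 * (V x * w j x) - (3 * L ^ 2 * k + 2 * L ^ 3) * w j x) ∂μ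
        ≤ ∫ x, max (V x - k) 0 ^ 3 * w j x ∂μ := by
      refine integral_mono (((iVw j).const_mul _).sub ((iw j).const_mul _)) (ipw j) fun x => ?_
      have h2 := mul_le_mul_of_nonneg_right (a3_pow (V x - k) hL) (w0 j x)
      simp only
      linarith
    rw [integral_sub ((iVw j).const_mul _) ((iw j).const_mul _), integral_const_mul,
      integral_const_mul, ← hl j] at h1
    have h3 := mul_le_mul_of_nonneg_left (hw1 j)
      (by positivity : 0 ≤ 3 * L ^ 2 * k + 2 * L ^ 3)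
    linarith
  rw [(hs.shift k).tp_eq]
  calc ∑ j, max (l j - k) 0 ^ 3 ≤ ∑ j, ∫ x, max (V x - k) 0 ^ 3 * w j x ∂μ :=
        Finset.sum_le_sum fun j _ => hk j
    _ = ∫ x, ∑ j, max (V x - k) 0 ^ 3 * w j x ∂μ :=
        (integral_finsetSum _ fun j _ => ipw j).symm
    _ ≤ ∫ x, Fintype.card ι * max (V x - k) 0 ^ 3 ∂μ := by
        refine integral_mono (integrable_finsetSum _ fun j _ => ipw j) (ip.const_mul _)
          fun x => ?_
        simp only
        rw [← Finset.mul_sum, mul_comm]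
        exact mul_le_mul_of_nonneg_right (wsum x) (p0 x)
    _ = _ := integral_const_mul _ _

end Pool.Agent.P.MP_9f4f5e_mp.RL
end
end

-- part Pool.Agent.P.MP_9f4f5e_mp.RL.A2
section

set_option linter.unusedSectionVars false
set_option linter.unusedVariables false

open MeasureTheory Matrix
open scoped ENNReal ComplexOrder ComplexConjugate FourierTransform RealInnerProductSpace
open Pool.Agent.P.MP_9f4f5e_mp.LT (tp pp dg qf ec fej Spec)

noncomputable section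

namespace Pool.Agent.P.MP_9f4f5e_mp.RL

variable {d : ℕ} {ι κ : Type} [Fintype ι] [DecidableEq ι] [Fintype κ]

theorem a2x_cube {c : ℝ} (hc : 0 ≤ c) (l : ℝ) : 3 * c ^ 2 * l - 2 * c ^ 3 ≤ max l 0 ^ 3 := by
  have h0 := le_max_right l 0
  have h1 := mul_le_mul_of_nonneg_left (le_max_left l 0) (sq_nonneg c)
  have h : max l 0 ^ 3 - (3 * c ^ 2 * max l 0 - 2 * c ^ 3) =
      (max l 0 - c) ^ 2 * (max l 0 + 2 * c) := by ring
  have h2 : 0 ≤ (max l 0 - c) ^ 2 * (max l 0 + 2 * c) := by positivity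
  linarith

theorem peierls3 {N : Matrix ι ι ℂ} (hN : N.IsHermitian) (v : κ → ι → ℂ) {h : ℝ}
    (hv : ∀ c : ι → ℂ, ∑ k, ‖∑ i, conj (c i) * v k i‖ ^ 2 ≤ h * ∑ i, ‖c i‖ ^ 2)
    (c : κ → ℝ) (hc : ∀ k, 0 ≤ c k) :
    ∑ k, (3 * c k ^ 2 * qf N (v k) - 2 * c k ^ 3 * ∑ i, ‖v k i‖ ^ 2) ≤ h * tp 3 N := by
  obtain ⟨U, l, hs⟩ := LT.exists_spec hN
  have hw : ∀ j, ∑ k, ‖(Uᴴ *ᵥ v k) j‖ ^ 2 ≤ h := by
    intro j
    have h1 := hv fun i => U i j
    rw [hs.col_sum, mul_one] at h1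
    refine le_of_eq_of_le (Finset.sum_congr rfl fun k _ => ?_) h1
    simp only [Matrix.mulVec, dotProduct, Matrix.conjTranspose_apply, Complex.star_def]
  have hq : ∀ k, qf N (v k) = ∑ j, l j * ‖(Uᴴ *ᵥ v k) j‖ ^ 2 := fun k => by
    rw [← LT.Spec.qf_conj, ← hs.eq]
  calc _ ≤ ∑ k, ∑ j, max (l j) 0 ^ 3 * ‖(Uᴴ *ᵥ v k) j‖ ^ 2 := by
        refine Finset.sum_le_sum fun k _ => ?_
        rw [hq, ← hs.parseval, Finset.mul_sum, Finset.mul_sum, ← Finset.sum_sub_distrib]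
        refine Finset.sum_le_sum fun j _ => ?_
        have h1 := mul_le_mul_of_nonneg_right (a2x_cube (hc k) (l j)) (sq_nonneg ‖(Uᴴ *ᵥ v k) j‖)
        linarith
    _ = ∑ j, max (l j) 0 ^ 3 * ∑ k, ‖(Uᴴ *ᵥ v k) j‖ ^ 2 := by
        rw [Finset.sum_comm]
        simp only [Finset.mul_sum]
    _ ≤ ∑ j, max (l j) 0 ^ 3 * h :=
        Finset.sum_le_sum fun j _ =>
          mul_le_mul_of_nonneg_left (hw j) (pow_nonneg (le_max_right _ _) _)
    _ = _ := by rw [hs.tp_eq, ← Finset.sum_mul, mul_comm]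

theorem tp3_low {M : Matrix ι ι ℂ} (hM : M.IsHermitian) (g : ι → ℝ) :
    tp 3 M - 3 * ∑ i, p2 M i * g i ≤ tp 3 (M - dg g) := by
  obtain ⟨U, l, hs⟩ := LT.exists_spec hM
  have h1 := peierls3 (hM.sub (LT.dg_isHermitian g)) (fun k i => U i k) (h := 1) (fun c => by
    rw [one_mul, ← hs.parseval c]
    refine le_of_eq (Finset.sum_congr rfl fun k _ => ?_)
    rw [← Complex.norm_conj]
    simp only [Matrix.mulVec, dotProduct, Matrix.conjTranspose_apply, Complex.star_def, map_sum,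
      map_mul, Complex.conj_conj, mul_comm]) (fun k => max (l k) 0) fun k => le_max_right _ _
  rw [one_mul] at h1
  refine le_of_eq_of_le ?_ h1
  have hq : ∀ k, qf (M - dg g) (fun i => U i k) = l k - ∑ i, g i * ‖U i k‖ ^ 2 := fun k => by
    rw [LT.qf_sub, LT.qf_dg, LT.a4_qf_col, hs.diag, LT.dg_apply, if_pos rfl, Complex.ofReal_re]
  have hp : ∀ i, p2 M i = ∑ k, ‖U i k‖ ^ 2 * (max (l k) 0 * max (l k) 0) := fun i => by
    rw [p2, hs.pp_eq, LT.a5_conj_mul hs, LT.Spec.conj_apply, Complex.ofReal_re]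
  simp only [hq, hp, hs.col_sum, hs.tp_eq, Finset.sum_mul]
  rw [Finset.sum_comm, Finset.mul_sum, ← Finset.sum_sub_distrib]
  refine Finset.sum_congr rfl fun k _ => ?_
  have h2 : ∑ i, ‖U i k‖ ^ 2 * (max (l k) 0 * max (l k) 0) * g i =
      max (l k) 0 ^ 2 * ∑ i, g i * ‖U i k‖ ^ 2 := by
    rw [Finset.mul_sum]
    exact Finset.sum_congr rfl fun i _ => by ring
  rw [h2]
  rcases le_total (l k) 0 with h | h
  · rw [max_eq_right h]
    ring
  · rw [max_eq_left h]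
    ring

theorem a2x_sc (x s : ℝ) : max x 0 ^ 3 - 3 * s * max x 0 ^ 2 + 3 * s ^ 2 * max x 0 ^ 1 - |s| ^ 3
    ≤ max (x - s) 0 ^ 3 := by
  have h0 : 0 ≤ max (x - s) 0 ^ 3 := pow_nonneg (le_max_right _ _) 3
  have h1 : 0 ≤ |s| ^ 3 := pow_nonneg (abs_nonneg s) 3
  rcases le_total x 0 with h | h
  · rw [max_eq_right h]
    nlinarith
  · rw [max_eq_left h]
    have h2 : (x - s) ^ 3 ≤ max (x - s) 0 ^ 3 :=
      (Odd.pow_le_pow (by decide)).2 (le_max_left _ _)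
    have h3 : s ^ 3 ≤ |s| ^ 3 := (Odd.pow_le_pow (by decide)).2 (le_abs_self s)
    nlinarith

theorem tp3_sc {M : Matrix ι ι ℂ} (hM : M.IsHermitian) (s : ℝ) :
    tp 3 M - 3 * s * tp 2 M + 3 * s ^ 2 * tp 1 M - Fintype.card ι * |s| ^ 3
      ≤ tp 3 (M - dg fun _ => s) := by
  obtain ⟨U, l, hs⟩ := LT.exists_spec hM
  rw [(hs.shift s).tp_eq, hs.tp_eq, hs.tp_eq, hs.tp_eq]
  refine le_of_eq_of_le ?_ (Finset.sum_le_sum fun i _ => a2x_sc (l i) s)
  rw [Finset.sum_sub_distrib, Finset.sum_add_distrib, Finset.sum_sub_distrib, ← Finset.mul_sum,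
    ← Finset.mul_sum, Finset.sum_const, Finset.card_univ, nsmul_eq_mul]

theorem tp_le_of_bd {M : Matrix ι ι ℂ} (hM : M.IsHermitian) {K : ℝ} (h : Bd M K) (hK : 0 ≤ K)
    {k : ℕ} (hk : k ≠ 0) : tp k M ≤ Fintype.card ι * K ^ k := by
  have hs : Spec (dg fun _ : ι => K) 1 fun _ => K := ⟨by simp, by simp, by simp⟩
  refine (LT.tp_mono hM (LT.dg_isHermitian _) h hk).trans (le_of_eq ?_)
  rw [hs.tp_eq, max_eq_left hK, Finset.sum_const, Finset.card_univ, nsmul_eq_mul]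

theorem Bd.mono {M : Matrix ι ι ℂ} {K L : ℝ} (h : Bd M K) (hKL : K ≤ L) : Bd M L := by
  have h1 := Matrix.PosSemidef.add h (LT.dg_posSemidef (d := fun _ : ι => L - K)
    fun _ => sub_nonneg.2 hKL)
  have h2 : (dg fun _ : ι => K) - M + (dg fun _ : ι => L - K) = (dg fun _ : ι => L) - M := by
    rw [← LT.dg_sub]
    abel
  rwa [h2] at h1

theorem tp_smul {M : Matrix ι ι ℂ} (hM : M.IsHermitian) {c : ℝ} (hc : 0 < c) (k : ℕ) :
    tp k ((c : ℂ) • M) = c ^ k * tp k M := by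
  obtain ⟨U, l, hs⟩ := LT.exists_spec hM
  have h1 : (dg fun i => c * l i) = (c : ℂ) • dg l := by
    ext i j
    rw [Matrix.smul_apply, LT.dg_apply, LT.dg_apply]
    split_ifs <;> simp
  have h2 : Spec ((c : ℂ) • M) U fun i => c * l i :=
    ⟨hs.mul_ct, hs.ct_mul, by rw [h1, Matrix.mul_smul, Matrix.smul_mul, ← hs.eq]⟩
  rw [h2.tp_eq, hs.tp_eq, Finset.mul_sum]
  refine Finset.sum_congr rfl fun i _ => ?_
  rw [← mul_pow, mul_max_of_nonneg _ _ hc.le, mul_zero]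

end Pool.Agent.P.MP_9f4f5e_mp.RL
end
end

-- part Pool.Agent.P.MP_9f4f5e_mp.RL.A1
section

set_option linter.unusedSectionVars false
set_option linter.unusedVariables false

open MeasureTheory Matrix
open scoped ENNReal ComplexOrder ComplexConjugate FourierTransform RealInnerProductSpace
open Pool.Agent.P.MP_9f4f5e_mp.LT (tp pp dg qf ec fej Spec)

noncomputable section

namespace Pool.Agent.P.MP_9f4f5e_mp.RL

variable {d : ℕ} {ι κ : Type} [Fintype ι] [DecidableEq ι] [Fintype κ]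

theorem p1_nonneg {M : Matrix ι ι ℂ} (hM : M.IsHermitian) (i : ι) : 0 ≤ p1 M i :=
  LT.pp_diag_nonneg hM i

theorem p2_nonneg {M : Matrix ι ι ℂ} (hM : M.IsHermitian) (i : ι) : 0 ≤ p2 M i := by
  obtain ⟨U, l, h⟩ := LT.exists_spec hM
  rw [p2, h.pp_eq, LT.a5_conj_mul h, LT.Spec.conj_apply, Complex.ofReal_re]
  exact Finset.sum_nonneg fun j _ => mul_nonneg (sq_nonneg _) (mul_self_nonneg _)

theorem sum_p1 {M : Matrix ι ι ℂ} (hM : M.IsHermitian) : ∑ i, p1 M i = tp 1 M := by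
  rw [← LT.tp_pp hM, LT.tp_of_posSemidef (LT.pp_posSemidef hM), pow_one, Matrix.trace,
    Complex.re_sum]
  rfl

theorem sum_p2 {M : Matrix ι ι ℂ} (hM : M.IsHermitian) : ∑ i, p2 M i = tp 2 M := by
  rw [← LT.tp_pp hM, LT.tp_of_posSemidef (LT.pp_posSemidef hM), sq, Matrix.trace,
    Complex.re_sum]
  rfl

theorem a1_cube (V E : Matrix ι ι ℂ) : ((V - E) ^ 3).trace =
    (V ^ 3).trace - 3 * (V * V * E).trace + 3 * (V * (E * E)).trace - (E * E * E).trace := by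
  have c1 : (V * E * V).trace = (V * V * E).trace := by rw [trace_mul_cycle]
  have c2 : (E * V * V).trace = (V * V * E).trace := by rw [trace_mul_cycle, c1]
  have c3 : (V * E * E).trace = (V * (E * E)).trace := by rw [Matrix.mul_assoc]
  have c4 : (E * E * V).trace = (V * (E * E)).trace := by rw [trace_mul_cycle, c3]
  have c5 : (E * V * E).trace = (V * (E * E)).trace := by rw [trace_mul_cycle, c4]
  rw [show (V - E) ^ 3 = V ^ 3 - (V * V * E + V * E * V + E * V * V) +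
    (V * E * E + E * V * E + E * E * V) - E * E * E by noncomm_ring]
  simp only [trace_sub, trace_add, c1, c2, c3, c4, c5]
  ring

theorem a1_psd {V : Matrix ι ι ℂ} (hV : V.PosSemidef) (g : ι → ℝ) {e : ℝ}
    (hg : ∀ i, |g i| ≤ e) :
    tp 3 (V - dg g) ≤ tp 3 V - 3 * ∑ i, ((V * V) i i).re * g i + 3 * ∑ i, (V i i).re * g i ^ 2
      + 2 * Fintype.card ι * e ^ 3 := by
  obtain ⟨U, l, h⟩ := LT.exists_spec (hV.isHermitian.sub (LT.dg_isHermitian g))
  have he : ∀ i : ι, 0 ≤ e := fun i => (abs_nonneg _).trans (hg i)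
  have l0 : ∀ i, 0 ≤ l i - -e := (h.shift (-e)).nonneg_of_posSemidef (by
    rw [sub_sub, LT.dg_add, sub_eq_add_neg, ← zero_sub,
      show (0 : Matrix ι ι ℂ) = dg fun _ => 0 by simp [dg], LT.dg_sub]
    refine hV.add (LT.dg_posSemidef fun i => ?_)
    linarith [(abs_le.1 (hg i)).2])
  have s : ∑ i, l i ^ 3 = tp 3 V - 3 * ∑ i, ((V * V) i i).re * g i
      + 3 * ∑ i, (V i i).re * g i ^ 2 - ∑ i, g i ^ 3 := by
    have h3 : ∀ z : ℂ, (3 * z).re = 3 * z.re := fun z => by simp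
    rw [LT.tp_of_posSemidef hV, ← Complex.ofReal_re (∑ i, l i ^ 3), ← h.trace_conj, ← h.pow_eq,
      a1_cube, LT.dg_mul, LT.dg_mul, LT.trace_dg, Complex.sub_re, Complex.add_re, Complex.sub_re,
      h3, h3, LT.a5_trace_dg, LT.a5_trace_dg, Complex.ofReal_re]
    simp only [pow_succ, pow_zero, one_mul]
  have b : ∑ i, max (l i) 0 ^ 3 ≤ ∑ i, (l i ^ 3 + e ^ 3) := Finset.sum_le_sum fun i _ => by
    obtain h | h := le_total (l i) 0
    · have := pow_le_pow_left₀ (neg_nonneg.2 h) (show -l i ≤ e by linarith [l0 i]) 3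
      rw [max_eq_right h]
      nlinarith
    · rw [max_eq_left h]
      linarith [pow_nonneg (he i) 3]
  have c : ∑ i, -g i ^ 3 ≤ ∑ _i : ι, e ^ 3 := Finset.sum_le_sum fun i _ => by
    have h1 := pow_le_pow_left₀ (abs_nonneg _) (hg i) 3
    have h2 := neg_le_abs (g i ^ 3)
    rw [abs_pow] at h2
    linarith
  rw [Finset.sum_add_distrib, s, Finset.sum_const, Finset.card_univ, nsmul_eq_mul] at b
  rw [Finset.sum_neg_distrib, Finset.sum_const, Finset.card_univ, nsmul_eq_mul] at c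
  rw [h.tp_eq]
  linarith

theorem tp3_up {M : Matrix ι ι ℂ} (hM : M.IsHermitian) (g : ι → ℝ) {e : ℝ}
    (hg : ∀ i, |g i| ≤ e) :
    tp 3 (M - dg g) ≤ tp 3 M - 3 * ∑ i, p2 M i * g i + 3 * ∑ i, p1 M i * g i ^ 2
      + 2 * Fintype.card ι * e ^ 3 := by
  have hP := LT.pp_posSemidef hM
  have h1 := a1_psd hP g hg
  rw [LT.tp_pp hM] at h1
  refine le_trans (LT.tp_mono (hM.sub (LT.dg_isHermitian g))
    (hP.isHermitian.sub (LT.dg_isHermitian g)) ?_ (by norm_num)) h1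
  rw [sub_sub_sub_cancel_right]
  exact LT.pp_sub_posSemidef hM

end Pool.Agent.P.MP_9f4f5e_mp.RL
end
end

-- part Pool.Agent.P.MP_9f4f5e_mp.RL.G1
section

set_option linter.unusedSectionVars false
set_option linter.unusedVariables false

open MeasureTheory Matrix
open scoped ENNReal ComplexOrder ComplexConjugate FourierTransform RealInnerProductSpace
open Pool.Agent.P.MP_9f4f5e_mp.LT (tp pp dg qf ec fej Spec)

noncomputable section

namespace Pool.Agent.P.MP_9f4f5e_mp.RL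

variable {d : ℕ} {ι κ : Type} [Fintype ι] [DecidableEq ι] [Fintype κ]

theorem g1_le (x y m : ℝ) : √(x ^ 2 + m ^ 2) ≤ √(y ^ 2 + m ^ 2) + |x - y| := by
  have h1 : |y| ≤ √(y ^ 2 + m ^ 2) := Real.abs_le_sqrt (by nlinarith [sq_nonneg m])
  have h2 : √(y ^ 2 + m ^ 2) ^ 2 = y ^ 2 + m ^ 2 := Real.sq_sqrt (by positivity)
  have h3 : y * (x - y) ≤ √(y ^ 2 + m ^ 2) * |x - y| :=
    (le_abs_self _).trans ((abs_mul _ _).le.trans
      (mul_le_mul_of_nonneg_right h1 (abs_nonneg _)))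
  apply Real.sqrt_le_iff.2
  refine ⟨by positivity, ?_⟩
  nlinarith [sq_abs (x - y)]

theorem g1_lip (x y m : ℝ) : |√(x ^ 2 + m ^ 2) - √(y ^ 2 + m ^ 2)| ≤ |x - y| := by
  have h1 := g1_le x y m
  have h2 := g1_le y x m
  rw [abs_sub_comm y x] at h2
  exact abs_le.2 ⟨by linarith, by linarith⟩

theorem le_om (p : E d) (m : ℝ) : m ≤ om p m := by
  exact Real.le_sqrt_of_sq_le (by nlinarith [sq_nonneg ‖p‖])

theorem norm_le_om (p : E d) (m : ℝ) : ‖p‖ ≤ om p m := by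
  exact Real.le_sqrt_of_sq_le (by nlinarith [sq_nonneg m])

theorem om_sq (p : E d) (m : ℝ) : om p m ^ 2 = ‖p‖ ^ 2 + m ^ 2 := by
  exact Real.sq_sqrt (by positivity)

theorem continuous_om : Continuous fun q : E d × ℝ => om q.1 q.2 := by
  unfold om
  fun_prop

theorem om_neg (p : E d) (m : ℝ) : om (-p) m = om p m := by
  simp only [om, norm_neg]

theorem om_zero (p : E d) : om p 0 = ‖p‖ := by
  simp [om]

theorem om_sub_le (p : E d) {m : ℝ} (hm : 0 ≤ m) : om p m - m ≤ ‖p‖ := by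
  have h : om p m ≤ ‖p‖ + m := by
    apply Real.sqrt_le_iff.2
    refine ⟨by positivity, ?_⟩
    nlinarith [mul_nonneg (norm_nonneg p) hm]
  linarith

theorem om_lip (p q : E d) (m : ℝ) : |om (p + q) m - om p m| ≤ ‖q‖ := by
  refine (g1_lip ‖p + q‖ ‖p‖ m).trans ?_
  simpa using abs_norm_sub_norm_le (p + q) p

theorem om_lip_m (p : E d) (m e : ℝ) : |om p (m + e) - om p m| ≤ |e| := by
  have h := g1_lip (m + e) m ‖p‖
  rw [add_sub_cancel_left, add_comm ((m + e) ^ 2), add_comm (m ^ 2)] at h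
  exact h

theorem om_close (a t : E d) {m : ℝ} (hm : 0 < m) :
    |om (a - t) m - om (0 - t) m| ≤ ‖a‖ * (‖a‖ + 2 * ‖t‖) / (2 * m) := by
  have h1 := le_om (a - t) m
  have h2 := le_om (0 - t) m
  have h3 := om_sq (a - t) m
  have h4 := om_sq (0 - t) m
  rw [zero_sub, norm_neg] at h4
  rw [zero_sub] at h2 ⊢
  have h5 : |‖a - t‖ - ‖t‖| ≤ ‖a‖ := by
    have := abs_norm_sub_norm_le (a - t) (-t)
    simpa using this
  have h6 : ‖a - t‖ ≤ ‖a‖ + ‖t‖ := norm_sub_le a t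
  have n1 := norm_nonneg (a - t)
  have n2 := norm_nonneg t
  generalize om (a - t) m = x at *
  generalize om (-t) m = y at *
  generalize ‖a - t‖ = u at *
  rw [le_div_iff₀ (by positivity)]
  have e : |x - y| * (x + y) = |u - ‖t‖| * (u + ‖t‖) := by
    rw [← abs_of_nonneg (show 0 ≤ x + y by linarith), ← abs_mul,
      ← abs_of_nonneg (show 0 ≤ u + ‖t‖ by linarith), ← abs_mul]
    congr 1
    linear_combination h3 - h4
  calc |x - y| * (2 * m) ≤ |x - y| * (x + y) :=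
        mul_le_mul_of_nonneg_left (by linarith) (abs_nonneg _)
    _ = |u - ‖t‖| * (u + ‖t‖) := e
    _ ≤ ‖a‖ * (‖a‖ + 2 * ‖t‖) :=
        mul_le_mul h5 (by linarith) (by linarith) (norm_nonneg _)

theorem sym_eq (m : ℝ) (ξ : E d) :
    sym m ξ = 2 * Real.pi * (om ξ (m / (2 * Real.pi)) - m / (2 * Real.pi)) := by
  have hp : 0 < 2 * Real.pi := by positivity
  have e : (2 * Real.pi * ‖ξ‖) ^ 2 + m ^ 2 =
      (2 * Real.pi) ^ 2 * (‖ξ‖ ^ 2 + (m / (2 * Real.pi)) ^ 2) := by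
    field_simp
  unfold sym om
  rw [e, Real.sqrt_mul (sq_nonneg _), Real.sqrt_sq hp.le, mul_sub, mul_div_cancel₀ _ hp.ne']

theorem sym_nonneg (m : ℝ) (ξ : E d) : 0 ≤ sym m ξ := by
  rw [sym_eq]
  exact mul_nonneg (by positivity) (sub_nonneg.2 (le_om _ _))

theorem continuous_sym (m : ℝ) : Continuous fun ξ : E d => sym m ξ := by
  unfold sym
  fun_prop

theorem sym_neg (m : ℝ) (ξ : E d) : sym m (-ξ) = sym m ξ := by
  simp only [sym, norm_neg]

theorem sym_lip (m : ℝ) (p s : E d) : sym m p ≤ sym m (p + s) + 2 * Real.pi * ‖s‖ := by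
  rw [sym_eq, sym_eq, ← mul_add]
  have h := (abs_le.1 (om_lip p s (m / (2 * Real.pi)))).1
  exact mul_le_mul_of_nonneg_left (by linarith) (by positivity)

theorem sym_ge (m : ℝ) (p : E d) : 2 * Real.pi * ‖p‖ - m ≤ sym m p := by
  have h : 2 * Real.pi * ‖p‖ ≤ √((2 * Real.pi * ‖p‖) ^ 2 + m ^ 2) :=
    Real.le_sqrt_of_sq_le (by nlinarith [sq_nonneg m])
  unfold sym
  linarith

theorem sym_le {m : ℝ} (hm : 0 ≤ m) (p : E d) : sym m p ≤ 2 * Real.pi * ‖p‖ := by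
  rw [sym_eq]
  exact mul_le_mul_of_nonneg_left (om_sub_le p (by positivity)) (by positivity)

theorem MM_herm {V : Matrix ι ι ℂ} (hV : V.IsHermitian) (a : ι → E d) (t : E d) (m z : ℝ) :
    (MM V a t m z).IsHermitian := by
  exact hV.sub (LT.dg_isHermitian _)

theorem MM_t (V : Matrix ι ι ℂ) (a : ι → E d) (t : E d) (m z ε : ℝ) (k : Fin d) :
    MM V a (t + ε • ee k) m z = MM V a t m z - dg fun i => gt (a i - t) m ε k := by
  unfold MM gt
  rw [sub_sub V, LT.dg_add]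
  congr 2
  funext i
  rw [sub_add_eq_sub_sub]
  ring

theorem MM_m (V : Matrix ι ι ℂ) (a : ι → E d) (t : E d) (m z ε : ℝ) :
    MM V a t (m + ε) z = MM V a t m z - dg fun i => gm (a i - t) m ε := by
  unfold MM gm
  rw [sub_sub V, LT.dg_add]
  congr 2
  funext i
  ring

theorem MM_z (V : Matrix ι ι ℂ) (a : ι → E d) (t : E d) (m z ε : ℝ) :
    MM V a t m (z + ε) = MM V a t m z - dg fun _ => -ε := by
  unfold MM
  rw [sub_sub V, LT.dg_add]
  congr 2
  funext i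
  ring

theorem MM_bd {V : Matrix ι ι ℂ} {K : ℝ} (hK : Bd V K) (a : ι → E d) (t : E d) (m z : ℝ) :
    Bd (MM V a t m z) (K + z - m) := by
  have e : (dg fun _ => K + z - m) - MM V a t m z =
      ((dg fun _ => K) - V) + dg fun i => om (a i - t) m - m := by
    unfold MM
    rw [sub_sub_eq_add_sub, sub_add_eq_add_sub, LT.dg_add, LT.dg_add]
    congr 2
    funext i
    ring
  unfold Bd
  rw [e]
  exact Matrix.PosSemidef.add hK (LT.dg_posSemidef fun i => sub_nonneg.2 (le_om _ _))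

end Pool.Agent.P.MP_9f4f5e_mp.RL
end
end

-- part Pool.Agent.P.MP_9f4f5e_mp.RL.G2
section

set_option linter.unusedSectionVars false
set_option linter.unusedVariables false

open MeasureTheory Matrix
open scoped ENNReal ComplexOrder ComplexConjugate FourierTransform RealInnerProductSpace
open Pool.Agent.P.MP_9f4f5e_mp.LT (tp pp dg qf ec fej Spec)

noncomputable section

namespace Pool.Agent.P.MP_9f4f5e_mp.RL

variable {d : ℕ} {ι κ : Type} [Fintype ι] [DecidableEq ι] [Fintype κ]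

theorem g2_lin {O x g e : ℝ} (hO : 0 < O) (h : g ^ 2 + 2 * O * g = 2 * e * x + e ^ 2) :
    g - e * x / O = (e ^ 2 - g ^ 2) / (2 * O) := by
  field_simp
  linarith

theorem g2_one {O x g e : ℝ} (hO : 0 < O) (hg : |g| ≤ |e|)
    (h : g ^ 2 + 2 * O * g = 2 * e * x + e ^ 2) :
    0 ≤ g - e * x / O ∧ g - e * x / O ≤ e ^ 2 / (2 * O) := by
  rw [g2_lin hO h]
  have h1 : g ^ 2 ≤ e ^ 2 := sq_le_sq.mpr hg
  refine ⟨div_nonneg (by linarith) (by linarith), ?_⟩
  exact div_le_div_of_nonneg_right (by nlinarith [sq_nonneg g]) (by linarith)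

theorem g2_two {O x g e : ℝ} (hO : 0 < O) (hx : |x| ≤ O) (hg : |g| ≤ |e|)
    (h : g ^ 2 + 2 * O * g = 2 * e * x + e ^ 2) :
    |g ^ 2 - e ^ 2 * x ^ 2 / O ^ 2| ≤ |e| ^ 3 / O := by
  obtain ⟨h0, h1⟩ := g2_one hO hg h
  have e1 : g ^ 2 - e ^ 2 * x ^ 2 / O ^ 2 = (g - e * x / O) * (g + e * x / O) := by
    field_simp
    ring
  have e2 : |e * x / O| ≤ |e| := by
    rw [abs_div, abs_mul, abs_of_pos hO, div_le_iff₀ hO]
    exact mul_le_mul_of_nonneg_left hx (abs_nonneg e)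
  have e3 : |g + e * x / O| ≤ 2 * |e| := (abs_add_le _ _).trans (by linarith)
  rw [e1, abs_mul, abs_of_nonneg h0]
  calc (g - e * x / O) * |g + e * x / O| ≤ e ^ 2 / (2 * O) * (2 * |e|) :=
        mul_le_mul h1 e3 (abs_nonneg _) (by positivity)
    _ = |e| ^ 3 / O := by
        rw [← sq_abs e]
        field_simp

theorem g2_norm_ee (k : Fin d) : ‖(ee k : E d)‖ = 1 := by
  simp [ee]

theorem gt_abs (p : E d) (m ε : ℝ) (k : Fin d) : |gt p m ε k| ≤ |ε| := by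
  have h := om_lip p (-(ε • ee k)) m
  rw [norm_neg, norm_smul, g2_norm_ee, mul_one, Real.norm_eq_abs, ← sub_eq_add_neg] at h
  exact h

theorem gm_abs (p : E d) (m ε : ℝ) : |gm p m ε| ≤ |ε| := om_lip_m p m ε

theorem g2_gt_eq (p : E d) (m ε : ℝ) (k : Fin d) :
    gt p m ε k ^ 2 + 2 * om p m * gt p m ε k = 2 * ε * (-p k) + ε ^ 2 := by
  have h1 := om_sq (p - ε • ee k) m
  have h2 := om_sq p m
  have h3 : ‖p - ε • ee k‖ ^ 2 = ‖p‖ ^ 2 - 2 * (ε * p k) + ε ^ 2 := by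
    rw [norm_sub_sq_real, norm_smul, g2_norm_ee, mul_one, Real.norm_eq_abs, sq_abs,
      inner_smul_right]
    simp [ee, EuclideanSpace.inner_single_right]
  unfold gt
  nlinarith

theorem g2_gm_eq (p : E d) (m ε : ℝ) :
    gm p m ε ^ 2 + 2 * om p m * gm p m ε = 2 * ε * m + ε ^ 2 := by
  have h1 := om_sq p (m + ε)
  have h2 := om_sq p m
  unfold gm
  nlinarith

theorem g2_coord (p : E d) (m : ℝ) (k : Fin d) : |(-p k)| ≤ om p m := by
  rw [abs_neg]
  exact (by simpa using PiLp.norm_apply_le p k : |p k| ≤ ‖p‖).trans (norm_le_om p m)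

theorem g2_sum (p : E d) (m : ℝ) : ∑ k, (-p k) ^ 2 + m ^ 2 = om p m ^ 2 := by
  rw [om_sq, EuclideanSpace.real_norm_sq_eq]
  simp

theorem g2_pair {O x g g' e m : ℝ} (hm : 0 < m) (hO : m ≤ O) (he : 0 ≤ e) (hx : |x| ≤ O)
    (hg : |g| ≤ |e|) (hg' : |g'| ≤ |(-e)|) (h : g ^ 2 + 2 * O * g = 2 * e * x + e ^ 2)
    (h' : g' ^ 2 + 2 * O * g' = 2 * (-e) * x + (-e) ^ 2) :
    |g ^ 2 + g' ^ 2 - 2 * e ^ 2 * x ^ 2 / O ^ 2| ≤ 2 * e ^ 3 / m := by
  have hO0 : 0 < O := hm.trans_le hO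
  have a1 := g2_two hO0 hx hg h
  have a2 := g2_two hO0 hx hg' h'
  rw [abs_neg, neg_sq] at a2
  rw [abs_of_nonneg he] at a1 a2
  have a3 : e ^ 3 / O ≤ e ^ 3 / m := div_le_div_of_nonneg_left (by positivity) hm hO
  have e1 : g ^ 2 + g' ^ 2 - 2 * e ^ 2 * x ^ 2 / O ^ 2
      = (g ^ 2 - e ^ 2 * x ^ 2 / O ^ 2) + (g' ^ 2 - e ^ 2 * x ^ 2 / O ^ 2) := by ring
  have e2 : 2 * e ^ 3 / m = e ^ 3 / m + e ^ 3 / m := by ring
  rw [e1, e2]
  exact (abs_add_le _ _).trans (by linarith)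

theorem incr_sq (p : E d) {m ε : ℝ} (hm : 0 < m) (hε : 0 ≤ ε) :
    |∑ k, (gt p m ε k ^ 2 + gt p m (-ε) k ^ 2) + (gm p m ε ^ 2 + gm p m (-ε) ^ 2) - 2 * ε ^ 2|
      ≤ 2 * (d + 1) * ε ^ 3 / m := by
  have hO := le_om p m
  have hO0 : 0 < om p m := hm.trans_le hO
  have a1 : ∀ k, |gt p m ε k ^ 2 + gt p m (-ε) k ^ 2 - 2 * ε ^ 2 * (-p k) ^ 2 / om p m ^ 2|
      ≤ 2 * ε ^ 3 / m := fun k =>
    g2_pair hm hO hε (g2_coord p m k) (gt_abs p m ε k) (gt_abs p m (-ε) k) (g2_gt_eq p m ε k)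
      (g2_gt_eq p m (-ε) k)
  have a2 : |gm p m ε ^ 2 + gm p m (-ε) ^ 2 - 2 * ε ^ 2 * m ^ 2 / om p m ^ 2| ≤ 2 * ε ^ 3 / m :=
    g2_pair hm hO hε (by rwa [abs_of_pos hm]) (gm_abs p m ε) (gm_abs p m (-ε)) (g2_gm_eq p m ε)
      (g2_gm_eq p m (-ε))
  have e0 : ∑ k, 2 * ε ^ 2 * (-p k) ^ 2 / om p m ^ 2 + 2 * ε ^ 2 * m ^ 2 / om p m ^ 2
      = 2 * ε ^ 2 := by
    rw [← Finset.sum_div, ← Finset.mul_sum, ← add_div, ← mul_add, g2_sum]
    field_simp
  have e1 : ∑ k, (gt p m ε k ^ 2 + gt p m (-ε) k ^ 2) + (gm p m ε ^ 2 + gm p m (-ε) ^ 2) - 2 * ε ^ 2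
      = ∑ k, (gt p m ε k ^ 2 + gt p m (-ε) k ^ 2 - 2 * ε ^ 2 * (-p k) ^ 2 / om p m ^ 2)
        + (gm p m ε ^ 2 + gm p m (-ε) ^ 2 - 2 * ε ^ 2 * m ^ 2 / om p m ^ 2) := by
    rw [Finset.sum_sub_distrib]
    linarith
  have a3 := (Finset.abs_sum_le_sum_abs _ Finset.univ).trans
    (Finset.sum_le_sum fun k (_ : k ∈ Finset.univ) => a1 k)
  rw [Finset.sum_const, Finset.card_univ, Fintype.card_fin, nsmul_eq_mul] at a3
  have e2 : 2 * ((d : ℝ) + 1) * ε ^ 3 / m = d * (2 * ε ^ 3 / m) + 2 * ε ^ 3 / m := by ring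
  rw [e1, e2]
  exact (abs_add_le _ _).trans (add_le_add a3 a2)

theorem g2_add {O x g g' e : ℝ} (hO : 0 < O) (h : g ^ 2 + 2 * O * g = 2 * e * x + e ^ 2)
    (h' : g' ^ 2 + 2 * O * g' = 2 * (-e) * x + (-e) ^ 2) :
    g + g' = (2 * e ^ 2 - (g ^ 2 + g' ^ 2)) / (2 * O) := by
  field_simp
  linarith

theorem incr_sum (p : E d) {m ε : ℝ} (hm : 0 < m) (hε : 0 ≤ ε) :
    |∑ k, (gt p m ε k + gt p m (-ε) k) + (gm p m ε + gm p m (-ε)) - d * ε ^ 2 / om p m|
      ≤ (d + 1) * ε ^ 3 / m ^ 2 := by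
  have hO := le_om p m
  have hO0 : 0 < om p m := hm.trans_le hO
  have a := incr_sq p hm hε
  have b1 : ∀ k, gt p m ε k + gt p m (-ε) k
      = (2 * ε ^ 2 - (gt p m ε k ^ 2 + gt p m (-ε) k ^ 2)) / (2 * om p m) := fun k =>
    g2_add hO0 (g2_gt_eq p m ε k) (g2_gt_eq p m (-ε) k)
  have b2 := g2_add hO0 (g2_gm_eq p m ε) (g2_gm_eq p m (-ε))
  have e1 : ∑ k, (gt p m ε k + gt p m (-ε) k) + (gm p m ε + gm p m (-ε)) - d * ε ^ 2 / om p m
      = -(∑ k, (gt p m ε k ^ 2 + gt p m (-ε) k ^ 2) + (gm p m ε ^ 2 + gm p m (-ε) ^ 2)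
        - 2 * ε ^ 2) / (2 * om p m) := by
    rw [b2, Finset.sum_congr rfl fun k _ => b1 k, ← Finset.sum_div, Finset.sum_sub_distrib,
      Finset.sum_const, Finset.card_univ, Fintype.card_fin, nsmul_eq_mul]
    field_simp
    ring
  rw [e1, abs_div, abs_neg, abs_of_pos (by positivity : 0 < 2 * om p m)]
  calc _ ≤ 2 * (d + 1) * ε ^ 3 / m / (2 * m) :=
        div_le_div₀ (by positivity) a (by positivity) (by linarith)
    _ = (d + 1) * ε ^ 3 / m ^ 2 := by field_simp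

theorem incr_m (p : E d) {m ε : ℝ} (hm : 0 < m) (hε : 0 ≤ ε) :
    |gm p m ε - gm p m (-ε) - 2 * ε * m / om p m| ≤ ε ^ 2 / m := by
  have hO := le_om p m
  have hO0 : 0 < om p m := hm.trans_le hO
  obtain ⟨a1, a2⟩ := g2_one hO0 (gm_abs p m ε) (g2_gm_eq p m ε)
  obtain ⟨b1, b2⟩ := g2_one hO0 (gm_abs p m (-ε)) (g2_gm_eq p m (-ε))
  rw [neg_sq] at b2
  have c : ε ^ 2 / (2 * om p m) ≤ ε ^ 2 / m :=
    div_le_div_of_nonneg_left (by positivity) hm (by linarith)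
  have e1 : gm p m ε - gm p m (-ε) - 2 * ε * m / om p m
      = (gm p m ε - ε * m / om p m) - (gm p m (-ε) - -ε * m / om p m) := by ring
  rw [e1, abs_le]
  constructor <;> linarith

end Pool.Agent.P.MP_9f4f5e_mp.RL
end
end

-- part Pool.Agent.P.MP_9f4f5e_mp.RL.P1
section

set_option linter.unusedSectionVars false
set_option linter.unusedVariables false

open MeasureTheory Matrix
open scoped ENNReal ComplexOrder ComplexConjugate FourierTransform RealInnerProductSpace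
open Pool.Agent.P.MP_9f4f5e_mp.LT (tp pp dg qf ec fej Spec)

noncomputable section

namespace Pool.Agent.P.MP_9f4f5e_mp.RL

variable {d : ℕ} {ι κ : Type} [Fintype ι] [DecidableEq ι] [Fintype κ]

theorem p1x_move {M : Matrix ι ι ℂ} (hM : M.IsHermitian) (g g' : ι → ℝ) {e : ℝ}
    (hg : ∀ i, |g i| ≤ e) (hg' : ∀ i, |g' i| ≤ e) :
    tp 3 (M - dg g) + tp 3 (M - dg g') - 2 * tp 3 M ≤ -(3 * ∑ i, p2 M i * (g i + g' i))
      + 3 * ∑ i, p1 M i * (g i ^ 2 + g' i ^ 2) + 4 * Fintype.card ι * e ^ 3 := by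
  have h1 := tp3_up hM g hg
  have h2 := tp3_up hM g' hg'
  simp only [mul_add, Finset.sum_add_distrib]
  linarith

theorem p1x_bd {V : Matrix ι ι ℂ} (hV : V.IsHermitian) {K : ℝ} (hK : Bd V K) (a : ι → E d)
    (t : E d) {m z Z : ℝ} (hm : 0 ≤ m) (hz : z ≤ Z) {k : ℕ} (hk : k ≠ 0) :
    tp k (MM V a t m z) ≤ Fintype.card ι * max (K + Z) 0 ^ k :=
  tp_le_of_bd (MM_herm hV a t m z)
    ((MM_bd hK a t m z).mono (le_trans (by linarith) (le_max_left _ _))) (le_max_right _ _) hk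

theorem p1x_z {M : Matrix ι ι ℂ} (hM : M.IsHermitian) {ε : ℝ} (hε : 0 ≤ ε) :
    6 * ε ^ 2 * tp 1 M - 2 * Fintype.card ι * ε ^ 3
      ≤ tp 3 (M - dg fun _ => -ε) + tp 3 (M - dg fun _ => - -ε) - 2 * tp 3 M := by
  have h1 := tp3_sc hM (-ε)
  have h2 := tp3_sc hM (- -ε)
  rw [abs_neg, abs_of_nonneg hε] at h1
  rw [abs_neg, abs_neg, abs_of_nonneg hε] at h2
  nlinarith

theorem est_up {V : Matrix ι ι ℂ} (hV : V.IsHermitian) {K : ℝ} (hK : Bd V K) {m1 : ℝ}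
    (hm1 : 0 < m1) (Z : ℝ) :
    ∃ C : ℝ, 0 ≤ C ∧ ∀ (a : ι → E d) (t : E d) (m z ε : ℝ), m1 ≤ m → z ≤ Z → 0 ≤ ε → ε ≤ 1 →
      E1 V a t m z ε ≤ -(3 * d * ε ^ 2 * QQ V a t m z) + C * ε ^ 3 ∧
      -(6 * ε * m * QQ V a t m z) - C * ε ^ 2 ≤ TT V a t (m + ε) z - TT V a t (m - ε) z := by
  obtain ⟨L, hL⟩ : ∃ L, L = max (K + Z) 0 := ⟨_, rfl⟩
  have hL0 : 0 ≤ L := hL ▸ le_max_right _ _
  obtain ⟨N, hN⟩ : ∃ N : ℝ, N = Fintype.card ι := ⟨_, rfl⟩
  have hN0 : 0 ≤ N := hN ▸ Nat.cast_nonneg _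
  have hd : (0 : ℝ) ≤ d := Nat.cast_nonneg d
  refine ⟨3 * (N * L ^ 2) * ((d + 1) / m1 ^ 2 + 1 / m1) + 3 * (N * L) * (2 * (d + 1) / m1 + 1)
    + (4 * d + 6) * N, by positivity, fun a t m z ε hm hz hε hε1 => ?_⟩
  have hm0 : 0 < m := hm1.trans_le hm
  have hM := MM_herm hV a t m z
  have b1 := p1x_bd hV hK a t hm0.le hz one_ne_zero
  have b2 := p1x_bd hV hK a t hm0.le hz two_ne_zero
  rw [← hL, ← hN] at b1 b2
  rw [pow_one] at b1
  have hab : |ε| ≤ ε := (abs_of_nonneg hε).le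
  have hab' : |-ε| ≤ ε := by rwa [abs_neg]
  simp only [E1, S2, TT, QQ, sub_eq_add_neg m ε, sub_eq_add_neg z ε, MM_t, MM_m, MM_z]
  generalize MM V a t m z = M at hM b1 b2
  have s1 := sum_p1 hM
  have s2 := sum_p2 hM
  have n1 := LT.tp_nonneg hM 1
  have n2 := LT.tp_nonneg hM 2
  have e3 : 0 ≤ ε ^ 3 := by positivity
  have e2 : 0 ≤ ε ^ 2 := by positivity
  have i1 : ε ^ 2 / m ≤ ε ^ 2 * (1 / m1) := by
    rw [mul_one_div]
    exact div_le_div_of_nonneg_left e2 hm1 hm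
  have i2 : 2 * (d + 1) * ε ^ 3 / m ≤ ε ^ 3 * (2 * (d + 1) / m1) := by
    rw [← mul_div_assoc, mul_comm (ε ^ 3)]
    exact div_le_div_of_nonneg_left (by positivity) hm1 hm
  have i3 : (d + 1) * ε ^ 3 / m ^ 2 ≤ ε ^ 3 * ((d + 1) / m1 ^ 2) := by
    rw [← mul_div_assoc, mul_comm (ε ^ 3)]
    exact div_le_div_of_nonneg_left (by positivity) (by positivity)
      (pow_le_pow_left₀ hm1.le hm 2)
  have c1 : 0 ≤ ε ^ 3 * (3 * (N * L ^ 2) * (1 / m1)) := by positivity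
  have c2 : 0 ≤ ε ^ 3 * (3 * (N * L)) := by positivity
  constructor
  · have h1 := Finset.sum_le_sum fun (k : Fin d) (_ : k ∈ Finset.univ) =>
      p1x_move hM (fun i => gt (a i - t) m ε k) (fun i => gt (a i - t) m (-ε) k)
        (fun i => (gt_abs _ _ _ _).trans hab) (fun i => (gt_abs _ _ _ _).trans hab')
    have h2 := p1x_move hM (fun i => gm (a i - t) m ε) (fun i => gm (a i - t) m (-ε))
      (fun i => (gm_abs _ _ _).trans hab) (fun i => (gm_abs _ _ _).trans hab')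
    have h3 := p1x_z hM hε
    have h4 : ∑ i, (d * ε ^ 2 * (p2 M i / om (a i - t) m)
        - p2 M i * (ε ^ 3 * ((d + 1) / m1 ^ 2))) ≤
        ∑ i, (∑ k, p2 M i * (gt (a i - t) m ε k + gt (a i - t) m (-ε) k)
          + p2 M i * (gm (a i - t) m ε + gm (a i - t) m (-ε))) :=
      Finset.sum_le_sum fun i _ => by
        have := mul_le_mul_of_nonneg_left
          (neg_le_of_abs_le ((incr_sum (a i - t) hm0 hε).trans i3)) (p2_nonneg hM i)
        rw [← Finset.mul_sum]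
        have e : d * ε ^ 2 * (p2 M i / om (a i - t) m) = p2 M i * (d * ε ^ 2 / om (a i - t) m) := by
          ring
        rw [e]
        linarith
    have h5 : ∑ i, (∑ k, p1 M i * (gt (a i - t) m ε k ^ 2 + gt (a i - t) m (-ε) k ^ 2)
          + p1 M i * (gm (a i - t) m ε ^ 2 + gm (a i - t) m (-ε) ^ 2)) ≤
        ∑ i, p1 M i * (2 * ε ^ 2 + ε ^ 3 * (2 * (d + 1) / m1)) :=
      Finset.sum_le_sum fun i _ => by
        have := mul_le_mul_of_nonneg_left
          (le_of_abs_le ((incr_sq (a i - t) hm0 hε).trans i2)) (p1_nonneg hM i)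
        rw [← Finset.mul_sum]
        linarith
    rw [Finset.sum_sub_distrib, ← Finset.mul_sum, ← Finset.sum_mul, s2, Finset.sum_add_distrib,
      Finset.sum_comm] at h4
    rw [← Finset.sum_mul, s1, Finset.sum_add_distrib, Finset.sum_comm] at h5
    rw [Finset.sum_add_distrib (g := fun _ => 4 * (Fintype.card ι : ℝ) * ε ^ 3),
      Finset.sum_add_distrib (f := fun k => -(3 * ∑ i, p2 M i *
        (gt (a i - t) m ε k + gt (a i - t) m (-ε) k))), Finset.sum_neg_distrib, ← Finset.mul_sum,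
      ← Finset.mul_sum, Finset.sum_const, Finset.card_univ, Fintype.card_fin, nsmul_eq_mul] at h1
    rw [← hN] at h1 h2 h3
    have h6 := mul_le_mul_of_nonneg_right b2 (show 0 ≤ ε ^ 3 * ((d + 1) / m1 ^ 2) by positivity)
    have h7 := mul_le_mul_of_nonneg_right b1 (show 0 ≤ ε ^ 3 * (2 * (d + 1) / m1) by positivity)
    linarith
  · have h1 := tp3_low hM fun i => gm (a i - t) m ε
    have h2 := tp3_up hM (fun i => gm (a i - t) m (-ε)) fun i => (gm_abs _ _ _).trans hab'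
    have h4 : ∑ i, (p2 M i * gm (a i - t) m ε - p2 M i * gm (a i - t) m (-ε)) ≤
        ∑ i, (2 * ε * m * (p2 M i / om (a i - t) m) + p2 M i * (ε ^ 2 * (1 / m1))) :=
      Finset.sum_le_sum fun i _ => by
        have := mul_le_mul_of_nonneg_left
          (le_of_abs_le ((incr_m (a i - t) hm0 hε).trans i1)) (p2_nonneg hM i)
        have e : 2 * ε * m * (p2 M i / om (a i - t) m) = p2 M i * (2 * ε * m / om (a i - t) m) := by
          ring
        rw [e]
        linarith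
    have h5 : ∑ i, p1 M i * gm (a i - t) m (-ε) ^ 2 ≤ ∑ i, p1 M i * ε ^ 2 :=
      Finset.sum_le_sum fun i _ => mul_le_mul_of_nonneg_left
        (sq_le_sq' (neg_le_of_abs_le ((gm_abs _ _ _).trans hab'))
          (le_of_abs_le ((gm_abs _ _ _).trans hab'))) (p1_nonneg hM i)
    rw [Finset.sum_sub_distrib, Finset.sum_add_distrib, ← Finset.mul_sum, ← Finset.sum_mul,
      s2] at h4
    rw [← Finset.sum_mul, s1] at h5
    rw [← hN] at h2
    have h6 := mul_le_mul_of_nonneg_right b2 (show 0 ≤ ε ^ 2 * (1 / m1) by positivity)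
    have h7 := mul_le_mul_of_nonneg_right b1 e2
    have h8 : N * ε ^ 3 ≤ N * ε ^ 2 :=
      mul_le_mul_of_nonneg_left (pow_le_pow_of_le_one hε hε1 (by norm_num)) hN0
    have c3 : 0 ≤ ε ^ 2 * (3 * (N * L ^ 2) * ((d + 1) / m1 ^ 2)) := by positivity
    have c4 : 0 ≤ ε ^ 2 * (3 * (N * L) * (2 * (d + 1) / m1)) := by positivity
    have c5 : 0 ≤ ε ^ 2 * ((4 * d + 4) * N) := by positivity
    linarith

end Pool.Agent.P.MP_9f4f5e_mp.RL
end
end
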