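import Pool.Agent.K.MP_9f4f5e_mp.C6
import Pool.Agent.K.MP_9f4f5e_mp.C7

-- part Pool.Agent.P.MP_9f4f5e_mp.RL.P3
section

set_option linter.unusedSectionVars false
set_option linter.unusedVariables false

open MeasureTheory Matrix
open scoped ENNReal ComplexOrder ComplexConjugate FourierTransform RealInnerProductSpace
open Pool.Agent.P.MP_9f4f5e_mp.LT (tp pp dg qf ec fej Spec)

noncomputable section

namespace Pool.Agent.P.MP_9f4f5e_mp.RL

variable {d : ℕ} {ι κ : Type} [Fintype ι] [DecidableEq ι] [Fintype κ]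

theorem wt_pos (d : ℕ) {m : ℝ} (hm : 0 < m) : 0 < wt d m := Real.rpow_pos_of_pos hm _

theorem wt_le (d : ℕ) {m1 m : ℝ} (hm1 : 0 < m1) (h : m1 ≤ m) : wt d m ≤ wt d m1 :=
  Real.rpow_le_rpow_of_nonpos hm1 h (neg_nonpos.2 (by positivity))

theorem wt_mul (d : ℕ) {m : ℝ} (hm : 0 < m) : wt d m * √m ^ d = 1 := by
  rw [wt, Real.sqrt_eq_rpow, ← Real.rpow_natCast, ← Real.rpow_mul hm.le, ← Real.rpow_add hm,
    show -((d : ℝ) / 2) + 1 / 2 * (d : ℝ) = 0 by ring, Real.rpow_zero]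

theorem cc_nonneg (d : ℕ) : 0 ≤ cc d := by
  unfold cc
  positivity

theorem p3_step {P Q : ℝ → ℝ} {b K : ℝ} {n : ℕ} (hb : 0 ≤ b) (hK : 0 ≤ K) (h0 : P 0 = 1)
    (hP : ∀ y, HasDerivAt P (-b * Q y) y)
    (h : ∀ y, |y| ≤ 1 / 2 → |(1 + y) ^ (-(b + 1)) - Q y| ≤ K * |y| ^ n) :
    ∀ x, |x| ≤ 1 / 2 → |(1 + x) ^ (-b) - P x| ≤ b * K * |x| ^ (n + 1) := by
  intro x hx
  have hd : ∀ y ∈ Metric.closedBall (0 : ℝ) |x|,
      HasDerivWithinAt (fun y : ℝ => (1 + y) ^ (-b) - P y)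
        (-b * ((1 + y) ^ (-(b + 1)) - Q y)) (Metric.closedBall (0 : ℝ) |x|) y := by
    intro y hy
    have h1 : |y| ≤ 1 / 2 := by
      rw [mem_closedBall_zero_iff, Real.norm_eq_abs] at hy
      exact hy.trans hx
    have h2 : 1 + y ≠ 0 := by
      have := (abs_le.1 h1).1
      linarith
    have h3 := (((hasDerivAt_id' y).const_add 1).rpow_const (p := -b) (Or.inl h2)).sub (hP y)
    refine (h3.congr_deriv ?_).hasDerivWithinAt
    rw [show -b - 1 = -(b + 1) by ring]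
    ring
  have hb' : ∀ y ∈ Metric.closedBall (0 : ℝ) |x|,
      ‖-b * ((1 + y) ^ (-(b + 1)) - Q y)‖ ≤ b * K * |x| ^ n := by
    intro y hy
    rw [mem_closedBall_zero_iff, Real.norm_eq_abs] at hy
    rw [Real.norm_eq_abs, abs_mul, abs_neg, abs_of_nonneg hb, mul_assoc]
    exact mul_le_mul_of_nonneg_left ((h y (hy.trans hx)).trans
      (mul_le_mul_of_nonneg_left (pow_le_pow_left₀ (abs_nonneg y) hy n) hK)) hb
  have h4 := (convex_closedBall (0 : ℝ) |x|).norm_image_sub_le_of_norm_hasDerivWithin_le hd hb'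
    (Metric.mem_closedBall_self (abs_nonneg x)) (y := x) (by simp)
  simp only [add_zero, Real.one_rpow, h0, sub_self, sub_zero, Real.norm_eq_abs] at h4
  rw [pow_succ, ← mul_assoc]
  exact h4

theorem p3_main {a : ℝ} (ha : 0 ≤ a) : ∃ K : ℝ, 0 ≤ K ∧ ∀ x, |x| ≤ 1 / 2 →
    |(1 + x) ^ (-a) - (1 - a * x + a * (a + 1) / 2 * x ^ 2)| ≤ K * |x| ^ 3 := by
  have k0 : 0 ≤ (1 / 2 : ℝ) ^ (-(a + 1 + 1 + 1)) := Real.rpow_nonneg (by norm_num) _
  have h0 : ∀ y : ℝ, |y| ≤ 1 / 2 → |(1 + y) ^ (-(a + 1 + 1 + 1)) - (fun _ : ℝ => (0 : ℝ)) y| ≤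
      (1 / 2 : ℝ) ^ (-(a + 1 + 1 + 1)) * |y| ^ 0 := by
    intro y hy
    have h1 := (abs_le.1 hy).1
    rw [pow_zero, mul_one, sub_zero, abs_of_nonneg (Real.rpow_nonneg (by linarith) _)]
    exact Real.rpow_le_rpow_of_nonpos (by norm_num) (by linarith) (by linarith)
  have h1 := p3_step (P := fun _ => 1) (b := a + 1 + 1) (by linarith) k0 rfl
    (fun y => by simpa using hasDerivAt_const y (1 : ℝ)) h0
  have h2 := p3_step (P := fun y => 1 - (a + 1) * y) (b := a + 1) (by linarith)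
    (by positivity) (by simp)
    (fun y => (((hasDerivAt_id' y).const_mul (a + 1)).const_sub 1).congr_deriv (by ring)) h1
  have h3 := p3_step (P := fun y => 1 - a * y + a * (a + 1) / 2 * y ^ 2) (b := a) ha
    (by positivity) (by simp)
    (fun y => ((((hasDerivAt_id' y).const_mul a).const_sub 1).add
      ((hasDerivAt_pow 2 y).const_mul (a * (a + 1) / 2))).congr_deriv (by
        simp only [Nat.cast_ofNat, Nat.add_one_sub_one, pow_one]
        ring)) h2
  exact ⟨_, by positivity, h3⟩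

theorem wt_taylor (d : ℕ) {m1 : ℝ} (hm1 : 0 < m1) :
    ∃ C : ℝ, 0 ≤ C ∧ ∀ m ε : ℝ, m1 ≤ m → |ε| ≤ m1 / 2 →
      |wt d (m + ε) - wt d m * (1 - (d : ℝ) / 2 * ε / m + cc d / 2 * ε ^ 2 / m ^ 2)|
        ≤ C * |ε| ^ 3 := by
  obtain ⟨K, hK, h⟩ := p3_main (a := (d : ℝ) / 2) (by positivity)
  have w1 := wt_pos d hm1
  refine ⟨wt d m1 * (K / m1 ^ 3), by positivity, fun m ε hm hε => ?_⟩
  have m0 : 0 < m := hm1.trans_le hm
  have h1 : |ε / m| ≤ |ε| / m1 := by
    rw [abs_div, abs_of_pos m0]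
    exact div_le_div_of_nonneg_left (abs_nonneg ε) hm1 hm
  have h2 : |ε / m| ≤ 1 / 2 := by
    refine h1.trans ?_
    rw [div_le_iff₀ hm1]
    linarith
  have h3 : wt d (m + ε) = wt d m * (1 + ε / m) ^ (-((d : ℝ) / 2)) := by
    have h4 := (abs_le.1 h2).1
    rw [wt, wt, ← Real.mul_rpow m0.le (by linarith), mul_add, mul_one, mul_div_cancel₀ _ m0.ne']
  have h4 : 1 - (d : ℝ) / 2 * ε / m + cc d / 2 * ε ^ 2 / m ^ 2 =
      1 - (d : ℝ) / 2 * (ε / m) + (d : ℝ) / 2 * ((d : ℝ) / 2 + 1) / 2 * (ε / m) ^ 2 := by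
    unfold cc
    ring
  rw [h3, h4, ← mul_sub, abs_mul, abs_of_pos (wt_pos d m0), mul_assoc]
  refine mul_le_mul (wt_le d hm1 hm) ((h _ h2).trans ?_) (abs_nonneg _) w1.le
  calc K * |ε / m| ^ 3 ≤ K * (|ε| / m1) ^ 3 :=
        mul_le_mul_of_nonneg_left (pow_le_pow_left₀ (abs_nonneg _) h1 3) hK
    _ = K / m1 ^ 3 * |ε| ^ 3 := by ring

end Pool.Agent.P.MP_9f4f5e_mp.RL
end
end

-- part Pool.Agent.P.MP_9f4f5e_mp.RL.P4
section

set_option linter.unusedSectionVars false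
set_option linter.unusedVariables false

open MeasureTheory Matrix
open scoped ENNReal ComplexOrder ComplexConjugate FourierTransform RealInnerProductSpace
open Pool.Agent.P.MP_9f4f5e_mp.LT (tp pp dg qf ec fej Spec)

noncomputable section

namespace Pool.Agent.P.MP_9f4f5e_mp.RL

variable {d : ℕ} {ι κ : Type} [Fintype ι] [DecidableEq ι] [Fintype κ]

theorem p4_core {w w1 wp wm T Tp Tm A a c e m m1 Q C1 C2 C3 : ℝ} (hw0 : 0 ≤ w) (hw1 : w ≤ w1)
    (ha : 0 ≤ a) (hc : 0 ≤ c) (he : 0 ≤ e) (he1 : e ≤ 1) (hm1 : 0 < m1) (hm : m1 ≤ m)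
    (h1 : 0 ≤ C1) (h2 : 0 ≤ C2) (h3 : 0 ≤ C3)
    (hE : A ≤ -(6 * a * e ^ 2 * Q) + C1 * e ^ 3) (hD : -(6 * e * m * Q) - C1 * e ^ 2 ≤ Tp - Tm)
    (hp : |Tp - T| ≤ C2 * e) (hn : |Tm - T| ≤ C2 * e) (hT : |T| ≤ C2)
    (tp' : |wp - w * (1 - a * e / m + c / 2 * e ^ 2 / m ^ 2)| ≤ C3 * e ^ 3)
    (tm' : |wm - w * (1 + a * e / m + c / 2 * e ^ 2 / m ^ 2)| ≤ C3 * e ^ 3) :
    wp * Tp + wm * Tm + w * (A - Tp - Tm) - c * e ^ 2 / m ^ 2 * (w * T) ≤
      (w1 * (C1 + a * C1 / m1 + c * C2 / m1 ^ 2) + 4 * C2 * C3) * e ^ 3 := by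
  have hm0 : 0 < m := hm1.trans_le hm
  have hCe : C2 * e ≤ C2 := mul_le_of_le_one_right h2 he1
  have hTp : |Tp| ≤ 2 * C2 := by
    have := abs_add_le (Tp - T) T
    rw [sub_add_cancel] at this
    linarith
  have hTm : |Tm| ≤ 2 * C2 := by
    have := abs_add_le (Tm - T) T
    rw [sub_add_cancel] at this
    linarith
  obtain ⟨u, hu⟩ : ∃ u, u = wp - w * (1 - a * e / m + c / 2 * e ^ 2 / m ^ 2) := ⟨_, rfl⟩
  obtain ⟨v, hv⟩ : ∃ v, v = wm - w * (1 + a * e / m + c / 2 * e ^ 2 / m ^ 2) := ⟨_, rfl⟩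
  rw [← hu] at tp'
  rw [← hv] at tm'
  have e3 : 0 ≤ e ^ 3 := by positivity
  have hid : wp * Tp + wm * Tm + w * (A - Tp - Tm) - c * e ^ 2 / m ^ 2 * (w * T) =
      w * (A + a * e / m * (-(Tp - Tm)) + c / 2 * e ^ 2 / m ^ 2 * ((Tp - T) + (Tm - T)))
        + u * Tp + v * Tm := by
    rw [hu, hv]; ring
  have b1 : u * Tp ≤ C3 * e ^ 3 * (2 * C2) := by
    refine (le_abs_self _).trans ?_
    rw [abs_mul]
    exact mul_le_mul tp' hTp (abs_nonneg _) (by positivity)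
  have b2 : v * Tm ≤ C3 * e ^ 3 * (2 * C2) := by
    refine (le_abs_self _).trans ?_
    rw [abs_mul]
    exact mul_le_mul tm' hTm (abs_nonneg _) (by positivity)
  have b3 : a * e / m * (-(Tp - Tm)) ≤ 6 * a * e ^ 2 * Q + a * C1 / m1 * e ^ 3 := by
    have c1 : a * e / m * (-(Tp - Tm)) ≤ a * e / m * (6 * e * m * Q + C1 * e ^ 2) :=
      mul_le_mul_of_nonneg_left (by linarith) (by positivity)
    have c2 : a * e / m * (6 * e * m * Q + C1 * e ^ 2) =
        6 * a * e ^ 2 * Q + a * C1 / m * e ^ 3 := by field_simp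
    have c3 : a * C1 / m ≤ a * C1 / m1 := div_le_div_of_nonneg_left (by positivity) hm1 hm
    have c4 := mul_le_mul_of_nonneg_right c3 e3
    linarith
  have b4 : c / 2 * e ^ 2 / m ^ 2 * ((Tp - T) + (Tm - T)) ≤ c * C2 / m1 ^ 2 * e ^ 3 := by
    have c1 : (Tp - T) + (Tm - T) ≤ 2 * (C2 * e) := by
      linarith [le_abs_self (Tp - T), le_abs_self (Tm - T)]
    have c2 := mul_le_mul_of_nonneg_left c1 (show 0 ≤ c / 2 * e ^ 2 / m ^ 2 by positivity)
    have c3 : c / 2 * e ^ 2 / m ^ 2 * (2 * (C2 * e)) = c * C2 / m ^ 2 * e ^ 3 := by ring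
    have c4 : c * C2 / m ^ 2 ≤ c * C2 / m1 ^ 2 :=
      div_le_div_of_nonneg_left (by positivity) (by positivity) (pow_le_pow_left₀ hm1.le hm 2)
    have c5 := mul_le_mul_of_nonneg_right c4 e3
    linarith
  have b5 : A + a * e / m * (-(Tp - Tm)) + c / 2 * e ^ 2 / m ^ 2 * ((Tp - T) + (Tm - T)) ≤
      (C1 + a * C1 / m1 + c * C2 / m1 ^ 2) * e ^ 3 := by linarith
  have b6 := mul_le_mul_of_nonneg_left b5 hw0
  have b7 : w * ((C1 + a * C1 / m1 + c * C2 / m1 ^ 2) * e ^ 3) ≤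
      w1 * ((C1 + a * C1 / m1 + c * C2 / m1 ^ 2) * e ^ 3) :=
    mul_le_mul_of_nonneg_right hw1 (by positivity)
  rw [hid]
  linarith

theorem p4_taylor {m1 : ℝ} (hm1 : 0 < m1) : ∃ C : ℝ, 0 ≤ C ∧ ∀ m ε : ℝ, m1 ≤ m → 0 ≤ ε →
    ε ≤ m1 / 2 →
    |wt d (m + ε) - wt d m * (1 - (d : ℝ) / 2 * ε / m + cc d / 2 * ε ^ 2 / m ^ 2)| ≤ C * ε ^ 3 ∧
    |wt d (m - ε) - wt d m * (1 + (d : ℝ) / 2 * ε / m + cc d / 2 * ε ^ 2 / m ^ 2)| ≤ C * ε ^ 3 := by
  obtain ⟨C, hC, h⟩ := wt_taylor d hm1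
  refine ⟨C, hC, fun m ε hm h0 h1 => ⟨?_, ?_⟩⟩
  · have := h m ε hm (by rwa [abs_of_nonneg h0])
    rwa [abs_of_nonneg h0] at this
  · have := h m (-ε) hm (by rwa [abs_neg, abs_of_nonneg h0])
    rw [abs_neg, abs_of_nonneg h0, ← sub_eq_add_neg] at this
    have h2 : 1 - (d : ℝ) / 2 * -ε / m + cc d / 2 * (-ε) ^ 2 / m ^ 2 =
        1 + (d : ℝ) / 2 * ε / m + cc d / 2 * ε ^ 2 / m ^ 2 := by ring
    rwa [h2] at this

theorem p4_DD (V : Matrix ι ι ℂ) (a : ι → E d) (t : E d) (m z ε : ℝ) :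
    DD V a t m z ε = wt d (m + ε) * TT V a t (m + ε) z + wt d (m - ε) * TT V a t (m - ε) z
      + wt d m * (E1 V a t m z ε - TT V a t (m + ε) z - TT V a t (m - ε) z)
      - cc d * ε ^ 2 / m ^ 2 * (wt d m * TT V a t m z) := by
  unfold DD E1
  ring

theorem DD_up {V : Matrix ι ι ℂ} (hV : V.IsHermitian) {K : ℝ} (hK : Bd V K) {m1 : ℝ}
    (hm1 : 0 < m1) (Z : ℝ) :
    ∃ C : ℝ, 0 ≤ C ∧ ∀ (a : ι → E d) (t : E d) (m z ε : ℝ), m1 ≤ m → z ≤ Z → 0 ≤ ε → ε ≤ 1 →
      ε ≤ m1 / 2 → DD V a t m z ε ≤ C * ε ^ 3 := by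
  obtain ⟨C1, h1, hup⟩ := est_up (d := d) hV hK hm1 Z
  obtain ⟨C2, h2, hlip⟩ := est_lip (d := d) hV hK Z
  obtain ⟨C3, h3, hta⟩ := p4_taylor (d := d) hm1
  have hw := (wt_pos d hm1).le
  have hc := cc_nonneg d
  refine ⟨wt d m1 * (C1 + (d : ℝ) / 2 * C1 / m1 + cc d * C2 / m1 ^ 2) + 4 * C2 * C3,
    by positivity, fun a t m z ε hm hz h0 he he' => ?_⟩
  have hm0 : 0 < m := hm1.trans_le hm
  obtain ⟨u1, u2⟩ := hup a t m z ε hm hz h0 he
  obtain ⟨l1, l2, -, l4⟩ := hlip a t m z ε hm0.le hz h0 he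
  obtain ⟨t1, t2⟩ := hta m ε hm h0 he'
  rw [p4_DD]
  exact p4_core (Q := QQ V a t m z) (wt_pos d hm0).le (wt_le d hm1 hm) (by positivity) hc h0 he
    hm1 hm h1 h2 h3 (by linarith) u2 l1 l2 l4 t1 t2

theorem DD_low {V : Matrix ι ι ℂ} (hV : V.IsHermitian) {K : ℝ} (hK : Bd V K) {m1 : ℝ}
    (hm1 : 0 < m1) (Z : ℝ) :
    ∃ C : ℝ, 0 ≤ C ∧ ∀ (t : E d) (m z ε : ℝ), m1 ≤ m → z ≤ Z → 0 ≤ ε → ε ≤ 1 →
      ε ≤ m1 / 2 → -(C * ε ^ 3) ≤ DD V (fun _ => (0 : E d)) t m z ε := by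
  obtain ⟨C1, h1, hlow⟩ := est_low (d := d) hV hK hm1 Z
  obtain ⟨C2, h2, hlip⟩ := est_lip (d := d) hV hK Z
  obtain ⟨C3, h3, hta⟩ := p4_taylor (d := d) hm1
  have hw := (wt_pos d hm1).le
  have hc := cc_nonneg d
  refine ⟨wt d m1 * (C1 + (d : ℝ) / 2 * C1 / m1 + cc d * C2 / m1 ^ 2) + 4 * C2 * C3,
    by positivity, fun t m z ε hm hz h0 he he' => ?_⟩
  have hm0 : 0 < m := hm1.trans_le hm
  obtain ⟨u1, u2⟩ := hlow t m z ε hm hz h0 he
  obtain ⟨l1, l2, -, l4⟩ := hlip (fun _ => (0 : E d)) t m z ε hm0.le hz h0 he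
  obtain ⟨t1, t2⟩ := hta m ε hm h0 he'
  rw [p4_DD]
  have h := p4_core (Q := -QQ V (fun _ => (0 : E d)) t m z)
    (A := -E1 V (fun _ => (0 : E d)) t m z ε)
    (T := -TT V (fun _ => (0 : E d)) t m z) (Tp := -TT V (fun _ => (0 : E d)) t (m + ε) z)
    (Tm := -TT V (fun _ => (0 : E d)) t (m - ε) z)
    (wt_pos d hm0).le (wt_le d hm1 hm) (by positivity) hc h0 he
    hm1 hm h1 h2 h3 (by linarith) (by linarith)
    (by rwa [← neg_sub', abs_neg]) (by rwa [← neg_sub', abs_neg]) (by rwa [abs_neg]) t1 t2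
  linarith

end Pool.Agent.P.MP_9f4f5e_mp.RL
end
end

-- part Pool.Agent.P.MP_9f4f5e_mp.RL.I1
section

set_option linter.unusedSectionVars false
set_option linter.unusedVariables false

open MeasureTheory Matrix
open scoped ENNReal ComplexOrder ComplexConjugate FourierTransform RealInnerProductSpace
open Pool.Agent.P.MP_9f4f5e_mp.LT (tp pp dg qf ec fej Spec)

noncomputable section

namespace Pool.Agent.P.MP_9f4f5e_mp.RL

variable {d : ℕ} {ι κ : Type} [Fintype ι] [DecidableEq ι] [Fintype κ]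

theorem exists_bd {V : Matrix ι ι ℂ} (hV : V.IsHermitian) : ∃ K : ℝ, 0 ≤ K ∧ Bd V K := by
  exact ⟨∑ i, ∑ j, ‖V i j‖, by positivity, LT.le_entry_sum hV⟩

theorem exists_rad (a : ι → E d) : ∃ ρ : ℝ, 0 ≤ ρ ∧ ∀ i, ‖a i‖ ≤ ρ := by
  exact ⟨∑ i, ‖a i‖, by positivity, fun i =>
    Finset.single_le_sum (f := fun j => ‖a j‖) (fun j _ => norm_nonneg _) (Finset.mem_univ i)⟩

theorem TT_nonneg {V : Matrix ι ι ℂ} (hV : V.IsHermitian) (a : ι → E d) (t : E d) (m z : ℝ) :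
    0 ≤ TT V a t m z := by
  exact LT.tp_nonneg (MM_herm hV a t m z) 3

theorem TT_zero {V : Matrix ι ι ℂ} {K : ℝ} (hK : Bd V K) {a : ι → E d} {t : E d} {m z : ℝ}
    (h : ∀ i, K + z ≤ om (a i - t) m) : TT V a t m z = 0 := by
  refine LT.tp_eq_zero ?_ (by norm_num)
  have h1 : -MM V a t m z = (dg fun i => (om (a i - t) m - z) - K) + ((dg fun _ => K) - V) := by
    rw [← LT.dg_sub, MM]
    abel
  rw [h1]
  exact (LT.dg_posSemidef fun i => by linarith [h i]).add hK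

theorem TT_supp {V : Matrix ι ι ℂ} {K : ℝ} (hK : Bd V K) {a : ι → E d} {ρ : ℝ}
    (ha : ∀ i, ‖a i‖ ≤ ρ) {t : E d} {m z : ℝ} (h : ρ + K + z ≤ ‖t‖) : TT V a t m z = 0 := by
  refine TT_zero hK fun i => ?_
  have h1 := norm_le_om (a i - t) m
  have h2 : ‖t‖ - ‖a i‖ ≤ ‖a i - t‖ := by
    rw [norm_sub_rev]
    exact norm_sub_norm_le t (a i)
  linarith [ha i]

theorem continuous_TT {V : Matrix ι ι ℂ} (hV : V.IsHermitian) (a : ι → E d) (m z : ℝ) :
    Continuous fun t => TT V a t m z := by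
  refine LT.continuous_tp_sub_dg hV (d := fun (t : E d) i => om (a i - t) m - z) (fun i => ?_)
    (by norm_num)
  exact (continuous_om.comp
    ((continuous_const.sub continuous_id).prodMk continuous_const)).sub continuous_const

theorem integrable_TT {V : Matrix ι ι ℂ} (hV : V.IsHermitian) (a : ι → E d) (m z : ℝ) :
    Integrable fun t => TT V a t m z := by
  obtain ⟨K, -, hK⟩ := exists_bd hV
  obtain ⟨ρ, -, ha⟩ := exists_rad a
  refine (continuous_TT hV a m z).integrable_of_hasCompactSupport ?_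
  refine HasCompactSupport.intro (isCompact_closedBall (0 : E d) (ρ + K + z)) fun t ht => ?_
  refine TT_supp hK ha ?_
  rw [mem_closedBall_zero_iff, not_le] at ht
  exact ht.le

theorem UU_zero {V : Matrix ι ι ℂ} {K : ℝ} (hK : Bd V K) (a : ι → E d) {m z : ℝ}
    (h : K ≤ m - z) : UU V a m z = 0 := by
  have h1 : ∀ t, TT V a t m z = 0 := fun t => TT_zero hK fun i => by
    linarith [le_om (a i - t) m]
  simp [UU, h1]

theorem integral_le_ball {f : E d → ℝ} (hf : Integrable f) {R c : ℝ} (hc : 0 ≤ c)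
    (h1 : ∀ t, ‖t‖ < R → f t ≤ c) (h2 : ∀ t, R ≤ ‖t‖ → f t ≤ 0) :
    ∫ t, f t ≤ c * (volume : Measure (E d)).real (Metric.ball 0 R) := by
  have h3 : Integrable ((Metric.ball (0 : E d) R).indicator fun _ => c) :=
    (integrable_indicator_iff Metric.isOpen_ball.measurableSet).2
      (integrableOn_const measure_ball_lt_top.ne)
  refine (integral_mono hf h3 fun t => ?_).trans_eq ?_
  · by_cases ht : t ∈ Metric.ball (0 : E d) R
    · rw [Set.indicator_of_mem ht]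
      exact h1 t (mem_ball_zero_iff.1 ht)
    · rw [Set.indicator_of_notMem ht]
      exact h2 t (not_lt.1 fun e => ht (mem_ball_zero_iff.2 e))
  · rw [integral_indicator_const _ Metric.isOpen_ball.measurableSet, smul_eq_mul, mul_comm]

theorem UU_small {V : Matrix ι ι ℂ} (hV : V.IsHermitian) (a : ι → E d) {η : ℝ} (hη : 0 < η) :
    ∃ δ : ℝ, 0 < δ ∧ UU V a 0 δ ≤ UU V a 0 0 + η := by
  obtain ⟨K, -, hK⟩ := exists_bd hV
  obtain ⟨ρ, -, ha⟩ := exists_rad a
  obtain ⟨C, hC, hL⟩ := est_lip (d := d) hV hK 0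
  obtain ⟨v, hv⟩ : ∃ v, v = (volume : Measure (E d)).real (Metric.ball 0 (ρ + K + 1)) := ⟨_, rfl⟩
  have v0 : 0 ≤ v := hv ▸ measureReal_nonneg
  have p0 : 0 < C * v + 1 := by positivity
  obtain ⟨δ, d0, d1, d2⟩ : ∃ δ : ℝ, 0 < δ ∧ δ ≤ 1 ∧ δ * (C * v + 1) ≤ η :=
    ⟨min 1 (η / (C * v + 1)), lt_min one_pos (div_pos hη p0), min_le_left _ _,
      (le_div_iff₀ p0).1 (min_le_right _ _)⟩
  refine ⟨δ, d0, ?_⟩
  have h1 := integral_le_ball ((integrable_TT hV a 0 δ).sub (integrable_TT hV a 0 0))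
    (R := ρ + K + 1) (c := C * δ) (by positivity) (fun t _ => ?_) (fun t ht => ?_)
  · simp only [Pi.sub_apply] at h1
    rw [integral_sub (integrable_TT hV a 0 δ) (integrable_TT hV a 0 0), ← hv] at h1
    unfold UU
    nlinarith
  · have h2 := (hL a t 0 0 δ le_rfl le_rfl d0.le d1).2.2.1
    rw [zero_add] at h2
    exact (le_abs_self _).trans h2
  · have h2 : TT V a t 0 δ = 0 := TT_supp hK ha (by linarith)
    have h3 := TT_nonneg hV a t 0 0
    simp only [Pi.sub_apply]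
    linarith

end Pool.Agent.P.MP_9f4f5e_mp.RL
end
end

-- part Pool.Agent.P.MP_9f4f5e_mp.RL.I2
section

set_option linter.unusedSectionVars false
set_option linter.unusedVariables false

open MeasureTheory Matrix
open scoped ENNReal ComplexOrder ComplexConjugate FourierTransform RealInnerProductSpace
open Pool.Agent.P.MP_9f4f5e_mp.LT (tp pp dg qf ec fej Spec)

noncomputable section

namespace Pool.Agent.P.MP_9f4f5e_mp.RL

variable {d : ℕ} {ι κ : Type} [Fintype ι] [DecidableEq ι] [Fintype κ]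

theorem i2_S2 {V : Matrix ι ι ℂ} (hV : V.IsHermitian) (a : ι → E d) (m z ε : ℝ) :
    Integrable (fun t => S2 V a t m z ε) ∧ ∫ t, S2 V a t m z ε = 0 := by
  have h0 := integrable_TT hV a m z
  have h1 : ∀ v : E d, Integrable fun t => TT V a (t + v) m z := fun v => h0.comp_add_right v
  have h2 : ∀ v : E d, ∫ t, TT V a (t + v) m z = ∫ t, TT V a t m z := fun v =>
    integral_add_right_eq_self (fun t => TT V a t m z) v
  have h3 : ∀ k : Fin d, Integrable fun t =>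
      TT V a (t + ε • ee k) m z + TT V a (t + (-ε) • ee k) m z - 2 * TT V a t m z := fun k =>
    ((h1 _).add (h1 _)).sub (h0.const_mul 2)
  unfold S2
  refine ⟨integrable_finsetSum _ fun k _ => h3 k, ?_⟩
  rw [integral_finsetSum _ fun k _ => h3 k]
  refine Finset.sum_eq_zero fun k _ => ?_
  have h4 : Integrable fun t => TT V a (t + ε • ee k) m z + TT V a (t + (-ε) • ee k) m z :=
    (h1 _).add (h1 _)
  rw [integral_sub h4 (h0.const_mul 2), integral_add (h1 _) (h1 _), h2, h2, integral_const_mul]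
  ring

theorem i2_supp {V : Matrix ι ι ℂ} {K : ℝ} (hK : Bd V K) {a : ι → E d} {ρ : ℝ}
    (ha : ∀ i, ‖a i‖ ≤ ρ) {t : E d} {m z Z ε : ℝ} (hz : z ≤ Z) (h0 : 0 ≤ ε) (h1 : ε ≤ 1)
    (h : ρ + K + Z + 2 ≤ ‖t‖) : DD V a t m z ε = 0 := by
  have h2 : ∀ (k : Fin d) (e : ℝ), |e| ≤ 1 → TT V a (t + e • ee k) m z = 0 := by
    intro k e he
    refine TT_supp hK ha ?_
    have h3 : ‖e • (ee k : E d)‖ ≤ 1 := by
      rw [norm_smul, ee, EuclideanSpace.norm_single, Real.norm_eq_abs]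
      simpa using he
    have h4 : ‖t‖ ≤ ‖t + e • ee k‖ + ‖e • (ee k : E d)‖ := by
      simpa using norm_sub_le (t + e • ee k) (e • (ee k : E d))
    linarith
  have h5 : ∀ m' z' : ℝ, z' ≤ Z + 1 → TT V a t m' z' = 0 := fun m' z' hz' =>
    TT_supp hK ha (by linarith)
  have h6 : S2 V a t m z ε = 0 := by
    unfold S2
    refine Finset.sum_eq_zero fun k _ => ?_
    rw [h2 k ε (by rwa [abs_of_nonneg h0]), h2 k (-ε) (by rwa [abs_neg, abs_of_nonneg h0]),
      h5 m z (by linarith)]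
    ring
  unfold DD
  rw [h6, h5 _ z (by linarith), h5 _ z (by linarith), h5 _ z (by linarith),
    h5 _ (z + ε) (by linarith), h5 _ (z - ε) (by linarith)]
  ring

theorem integral_DD {V : Matrix ι ι ℂ} (hV : V.IsHermitian) (a : ι → E d) (m z ε : ℝ) :
    Integrable (fun t => DD V a t m z ε) ∧
      ∫ t, DD V a t m z ε = wt d (m + ε) * UU V a (m + ε) z + wt d (m - ε) * UU V a (m - ε) z
        - wt d m * (UU V a m (z + ε) + UU V a m (z - ε))
        - cc d * ε ^ 2 / m ^ 2 * (wt d m * UU V a m z) := by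
  obtain ⟨s1, s2⟩ := i2_S2 hV a m z ε
  have i1 := (integrable_TT hV a (m + ε) z).const_mul (wt d (m + ε))
  have i2 := (integrable_TT hV a (m - ε) z).const_mul (wt d (m - ε))
  have i3 := integrable_TT hV a m (z + ε)
  have i4 := integrable_TT hV a m (z - ε)
  have i5 : Integrable fun t => wt d m * (TT V a t m (z + ε) + TT V a t m (z - ε)) :=
    (i3.add i4).const_mul _
  have i6 := s1.const_mul (wt d m)
  have i7 := ((integrable_TT hV a m z).const_mul (wt d m)).const_mul (cc d * ε ^ 2 / m ^ 2)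
  have j1 : Integrable fun t => wt d (m + ε) * TT V a t (m + ε) z +
      wt d (m - ε) * TT V a t (m - ε) z := i1.add i2
  have j2 : Integrable fun t => wt d (m + ε) * TT V a t (m + ε) z +
      wt d (m - ε) * TT V a t (m - ε) z - wt d m * (TT V a t m (z + ε) + TT V a t m (z - ε)) :=
    j1.sub i5
  have j3 : Integrable fun t => wt d (m + ε) * TT V a t (m + ε) z +
      wt d (m - ε) * TT V a t (m - ε) z - wt d m * (TT V a t m (z + ε) + TT V a t m (z - ε))
      + wt d m * S2 V a t m z ε := j2.add i6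
  unfold DD UU
  refine ⟨j3.sub i7, ?_⟩
  rw [integral_sub j3 i7, integral_add j2 i6, integral_sub j1 i5, integral_add i1 i2]
  simp only [integral_const_mul]
  rw [integral_add i3 i4, s2]
  ring

theorem WW_mixed {V : Matrix ι ι ℂ} (hV : V.IsHermitian) (a : ι → E d) {m1 : ℝ} (hm1 : 0 < m1)
    (Z : ℝ) : ∃ C ε0 : ℝ, 0 < ε0 ∧ ∀ m z ε : ℝ, m1 ≤ m → |z| ≤ Z → 0 < ε → ε ≤ ε0 →
      WW V a (m + ε) z + WW V a (m - ε) z - WW V a m (z + ε) - WW V a m (z - ε)
        ≤ cc d * ε ^ 2 / m ^ 2 * WW V a m z + C * ε ^ 3 := by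
  obtain ⟨K, -, hK⟩ := exists_bd hV
  obtain ⟨ρ, hρ, ha⟩ := exists_rad a
  obtain ⟨C1, c1, h1⟩ := DD_up (d := d) hV hK hm1 Z
  obtain ⟨C2, c2, h2⟩ := DD_low (d := d) hV hK hm1 Z
  refine ⟨(C1 + C2) * (volume : Measure (E d)).real (Metric.ball 0 (ρ + K + Z + 2)),
    min 1 (m1 / 2), lt_min one_pos (by linarith), fun m z ε hm hz h0 he => ?_⟩
  have hz' : z ≤ Z := (le_abs_self z).trans hz
  have e1 : ε ≤ 1 := he.trans (min_le_left _ _)
  have e2 : ε ≤ m1 / 2 := he.trans (min_le_right _ _)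
  obtain ⟨a1, a2⟩ := integral_DD hV a m z ε
  obtain ⟨b1, b2⟩ := integral_DD hV (fun _ => (0 : E d)) m z ε
  have u1 := integral_le_ball a1 (R := ρ + K + Z + 2) (c := C1 * ε ^ 3) (by positivity)
    (fun t _ => h1 a t m z ε hm hz' h0.le e1 e2)
    (fun t ht => (i2_supp hK ha hz' h0.le e1 ht).le)
  have b3 : Integrable fun t => -DD V (fun _ => (0 : E d)) t m z ε := b1.neg
  have u2 := integral_le_ball b3 (R := ρ + K + Z + 2) (c := C2 * ε ^ 3) (by positivity)
    (fun t _ => neg_le.1 (h2 t m z ε hm hz' h0.le e1 e2))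
    (fun t ht => by
      rw [i2_supp hK (fun _ => by simpa using hρ) hz' h0.le e1 ht]
      simp)
  rw [integral_neg, b2] at u2
  rw [a2] at u1
  unfold WW
  linarith

end Pool.Agent.P.MP_9f4f5e_mp.RL
end
end

-- part Pool.Agent.P.MP_9f4f5e_mp.RL.I3
section

set_option linter.unusedSectionVars false
set_option linter.unusedVariables false

open MeasureTheory Matrix
open scoped ENNReal ComplexOrder ComplexConjugate FourierTransform RealInnerProductSpace
open Pool.Agent.P.MP_9f4f5e_mp.LT (tp pp dg qf ec fej Spec)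

noncomputable section

namespace Pool.Agent.P.MP_9f4f5e_mp.RL

variable {d : ℕ} {ι κ : Type} [Fintype ι] [DecidableEq ι] [Fintype κ]

theorem i3x_pert {M : Matrix ι ι ℂ} (hM : M.IsHermitian) {L : ℝ} (hL : Bd M L) (hL0 : 0 ≤ L)
    (g : ι → ℝ) {e e0 : ℝ} (he : 0 ≤ e) (he0 : e ≤ e0) (hg : ∀ i, |g i| ≤ e) :
    tp 3 (M - dg g) - tp 3 M ≤ e * (3 * (Fintype.card ι * L ^ 2)
      + 3 * e0 * (Fintype.card ι * L) + 2 * Fintype.card ι * e0 ^ 2) := by
  have h1 := tp3_up hM g hg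
  have b1 := tp_le_of_bd hM hL hL0 one_ne_zero
  have b2 := tp_le_of_bd hM hL hL0 two_ne_zero
  rw [pow_one] at b1
  have h2 : ∑ i, p2 M i * (-e) ≤ ∑ i, p2 M i * g i := Finset.sum_le_sum fun i _ =>
    mul_le_mul_of_nonneg_left (neg_le_of_abs_le (hg i)) (p2_nonneg hM i)
  have h3 : ∑ i, p1 M i * g i ^ 2 ≤ ∑ i, p1 M i * e ^ 2 := Finset.sum_le_sum fun i _ =>
    mul_le_mul_of_nonneg_left (sq_le_sq' (neg_le_of_abs_le (hg i)) (le_of_abs_le (hg i)))
      (p1_nonneg hM i)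
  rw [← Finset.sum_mul, sum_p2 hM] at h2
  rw [← Finset.sum_mul, sum_p1 hM] at h3
  have hN : (0 : ℝ) ≤ Fintype.card ι := Nat.cast_nonneg _
  generalize (Fintype.card ι : ℝ) = N at *
  have h4 := mul_le_mul_of_nonneg_right b2 he
  have h5 := mul_le_mul_of_nonneg_right b1 (sq_nonneg e)
  have h6 : N * L * e ^ 2 ≤ N * L * (e * e0) :=
    mul_le_mul_of_nonneg_left (by nlinarith) (by positivity)
  have h7 : N * e ^ 3 ≤ N * (e * e0 ^ 2) := by
    refine mul_le_mul_of_nonneg_left ?_ hN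
    have := mul_le_mul_of_nonneg_left (pow_le_pow_left₀ he he0 2) he
    linarith
  linarith

theorem WW_decay {V : Matrix ι ι ℂ} (hV : V.IsHermitian) (a : ι → E d) {m0 : ℝ} (hm0 : 0 < m0)
    (x0 : ℝ) : ∃ C : ℝ, 0 ≤ C ∧ ∀ m z : ℝ, m0 ≤ m → x0 ≤ m - z → WW V a m z ≤ C / √m := by
  obtain ⟨K, hK0, hK⟩ := exists_bd hV
  obtain ⟨ρ, hρ0, hρ⟩ := exists_rad a
  obtain ⟨L, hL⟩ : ∃ L, L = max (K - x0) 0 := ⟨_, rfl⟩
  have hL0 : 0 ≤ L := hL ▸ le_max_right _ _
  have hL1 : K - x0 ≤ L := hL ▸ le_max_left _ _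
  have hs0 : 0 < √m0 := Real.sqrt_pos.2 hm0
  obtain ⟨r, hr⟩ : ∃ r, r = √(L * (L / m0 + 2)) := ⟨_, rfl⟩
  have hr0 : 0 ≤ r := hr ▸ Real.sqrt_nonneg _
  have hr2 : r ^ 2 = L * (L / m0 + 2) := hr ▸ Real.sq_sqrt (by positivity)
  obtain ⟨R0, hR0⟩ : ∃ R0, R0 = ρ / √m0 + r := ⟨_, rfl⟩
  have hR00 : 0 ≤ R0 := hR0 ▸ by positivity
  obtain ⟨D, hD⟩ : ∃ D, D = ρ * (ρ / √m0 + 2 * R0) / 2 := ⟨_, rfl⟩
  have hD0 : 0 ≤ D := hD ▸ by positivity
  obtain ⟨A, hA⟩ : ∃ A, A = 3 * (Fintype.card ι * L ^ 2)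
      + 3 * (D / √m0) * (Fintype.card ι * L) + 2 * Fintype.card ι * (D / √m0) ^ 2 := ⟨_, rfl⟩
  have hA0 : 0 ≤ A := hA ▸ by positivity
  refine ⟨D * A * (volume : Measure (E d)).real (Metric.ball 0 R0),
    mul_nonneg (by positivity) measureReal_nonneg, fun m z hm hz => ?_⟩
  have hm1 : 0 < m := hm0.trans_le hm
  have hs : 0 < √m := Real.sqrt_pos.2 hm1
  have hss : √m0 ≤ √m := Real.sqrt_le_sqrt hm
  have hs2 : √m * √m = m := Real.mul_self_sqrt hm1.le
  have hρ1 : ρ ≤ ρ / √m0 * √m := by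
    rw [div_mul_eq_mul_div, le_div_iff₀ hs0]
    exact mul_le_mul_of_nonneg_left hss hρ0
  have key := integral_le_ball (R := √m * R0) (c := D / √m * A)
    ((integrable_TT hV a m z).sub (integrable_TT hV (fun _ => (0 : E d)) m z)) (by positivity)
    (fun t ht => by
      have e : MM V a t m z = MM V (fun _ => (0 : E d)) t m z
          - dg fun i => om (a i - t) m - om (0 - t) m := by
        unfold MM
        rw [sub_sub, LT.dg_add]
        exact congrArg (fun f => V - dg f) (funext fun i => by ring)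
      have hb : Bd (MM V (fun _ => (0 : E d)) t m z) L :=
        (MM_bd hK _ t m z).mono (by linarith)
      show tp 3 (MM V a t m z) - tp 3 (MM V (fun _ => (0 : E d)) t m z) ≤ _
      rw [e, hA]
      refine i3x_pert (MM_herm hV _ t m z) hb hL0 _ (by positivity)
        (div_le_div_of_nonneg_left hD0 hs0 hss) fun i => (om_close _ _ hm1).trans ?_
      rw [div_le_div_iff₀ (by positivity) hs]
      have h1 : ‖a i‖ * (‖a i‖ + 2 * ‖t‖) ≤ ρ * (ρ / √m0 * √m + 2 * (√m * R0)) :=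
        mul_le_mul (hρ i) (by linarith [hρ i]) (by positivity) hρ0
      have h2 := mul_le_mul_of_nonneg_right h1 hs.le
      refine h2.trans (le_of_eq ?_)
      rw [hD]
      linear_combination (ρ * (ρ / √m0 + 2 * R0)) * hs2)
    (fun t ht => by
      have h0 : TT V a t m z = 0 := TT_zero hK fun i => by
        rcases le_total (K + z) m with h | h
        · exact h.trans (le_om _ _)
        refine abs_le_of_sq_le_sq' ?_ (hm1.le.trans (le_om _ _)) |>.2
        rw [om_sq]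
        have h1 : ‖t‖ - ‖a i‖ ≤ ‖a i - t‖ := by
          rw [norm_sub_rev]
          exact norm_sub_norm_le _ _
        have h2 : r * √m ≤ ‖a i - t‖ := by
          rw [hR0] at ht
          linarith [hρ i]
        have h3 := pow_le_pow_left₀ (by positivity) h2 2
        have h4 : (r * √m) ^ 2 = L * (L / m0 * m + 2 * m) := by
          rw [mul_pow, hr2, sq, hs2]
          ring
        have h5 : L ≤ L / m0 * m := by
          rw [div_mul_eq_mul_div, le_div_iff₀ hm0]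
          exact mul_le_mul_of_nonneg_left hm hL0
        have h6 : (K + z - m) * (K + z - m + 2 * m) ≤ L * (L / m0 * m + 2 * m) :=
          mul_le_mul (by linarith) (by linarith) (by linarith) hL0
        nlinarith
      show TT V a t m z - TT V (fun _ => (0 : E d)) t m z ≤ 0
      linarith [TT_nonneg hV (fun _ => (0 : E d)) t m z])
  have hv : (volume : Measure (E d)).real (Metric.ball 0 (√m * R0))
      = √m ^ d * (volume : Measure (E d)).real (Metric.ball 0 R0) := by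
    rw [Measure.real, Measure.addHaar_ball_mul_of_pos _ _ hs, finrank_euclideanSpace_fin,
      ENNReal.toReal_mul, ENNReal.toReal_ofReal (by positivity), Measure.real]
  have e : ∫ t, ((fun t => TT V a t m z) - fun t => TT V (fun _ => (0 : E d)) t m z) t
      = UU V a m z - UU V (fun _ => (0 : E d)) m z :=
    integral_sub (integrable_TT hV a m z) (integrable_TT hV (fun _ => (0 : E d)) m z)
  rw [e, hv] at key
  refine (mul_le_mul_of_nonneg_left key (wt_pos d hm1).le).trans (le_of_eq ?_)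
  linear_combination (D / √m * A * (volume : Measure (E d)).real (Metric.ball 0 R0)) * wt_mul d hm1

end Pool.Agent.P.MP_9f4f5e_mp.RL
end
end

-- part Pool.Agent.P.MP_9f4f5e_mp.RL.O1
section

set_option linter.unusedSectionVars false
set_option linter.unusedVariables false

open MeasureTheory Matrix
open scoped ENNReal ComplexOrder ComplexConjugate FourierTransform RealInnerProductSpace
open Pool.Agent.P.MP_9f4f5e_mp.LT (tp pp dg qf ec fej Spec)

noncomputable section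

namespace Pool.Agent.P.MP_9f4f5e_mp.RL

variable {d : ℕ} {ι κ : Type} [Fintype ι] [DecidableEq ι] [Fintype κ]

theorem grid_sum (W b : ℕ → ℕ → ℝ) (I J : ℕ)
    (h : ∀ i j, i < I → j < J → W (i + 1) (j + 1) + W i j - W (i + 1) j - W i (j + 1) ≤ b i j) :
    W 0 0 ≤ W I 0 + W 0 J - W I J + ∑ i ∈ Finset.range I, ∑ j ∈ Finset.range J, b i j := by
  induction I with
  | zero => simp
  | succ I ih =>
    have h1 := ih fun i j hi hj => h i j (by omega) hj
    have h2 : ∑ j ∈ Finset.range J, ((W (I + 1) (j + 1) - W I (j + 1)) - (W (I + 1) j - W I j))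
        = (W (I + 1) J - W I J) - (W (I + 1) 0 - W I 0) :=
      Finset.sum_range_sub (fun j => W (I + 1) j - W I j) J
    have h3 : ∑ j ∈ Finset.range J, ((W (I + 1) (j + 1) - W I (j + 1)) - (W (I + 1) j - W I j))
        ≤ ∑ j ∈ Finset.range J, b I j :=
      Finset.sum_le_sum fun j hj => by
        have := h I j (by omega) (Finset.mem_range.1 hj)
        linarith
    rw [Finset.sum_range_succ]
    linarith

theorem o1_q {m0 s : ℝ} (hm0 : 0 < m0) (hs : 0 < s) (J : ℕ) :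
    ∑ j ∈ Finset.range J, (s / 2) ^ 2 / (m0 + (j + 1) * s / 2) ^ 2 ≤ s / (2 * m0) := by
  have key : ∀ J : ℕ, ∑ j ∈ Finset.range J, (s / 2) ^ 2 / (m0 + (j + 1) * s / 2) ^ 2
      ≤ s / (2 * m0) - s / (2 * (m0 + J * s / 2)) := by
    intro J
    induction J with
    | zero => simp
    | succ J ih =>
      rw [Finset.sum_range_succ]
      have hJ : (0 : ℝ) ≤ J := Nat.cast_nonneg J
      have ha : 0 < m0 + J * s / 2 := by positivity
      have hb : 0 < m0 + (J + 1) * s / 2 := by positivity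
      have h1 : (s / 2) ^ 2 / (m0 + (J + 1) * s / 2) ^ 2
          ≤ (s / 2) ^ 2 / ((m0 + J * s / 2) * (m0 + (J + 1) * s / 2)) :=
        div_le_div_of_nonneg_left (by positivity) (by positivity) (by nlinarith)
      have h2 : (s / 2) ^ 2 / ((m0 + J * s / 2) * (m0 + (J + 1) * s / 2))
          = s / (2 * (m0 + J * s / 2)) - s / (2 * (m0 + (J + 1) * s / 2)) := by
        field_simp
        ring
      push_cast
      linarith
  have h0 : 0 ≤ s / (2 * (m0 + J * s / 2)) := by positivity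
  linarith [key J]

theorem o1_count {δ s : ℝ} (hδ : 0 ≤ δ) (hs : 0 < s) (I : ℕ) :
    ∑ i ∈ Finset.range I, (if (i : ℝ) * s < δ then s else 0) ≤ δ + s := by
  have key : ∀ I : ℕ, ∑ i ∈ Finset.range I, (if (i : ℝ) * s < δ then s else 0) ≤ I * s ∧
      ∑ i ∈ Finset.range I, (if (i : ℝ) * s < δ then s else 0) ≤ δ + s := by
    intro I
    induction I with
    | zero => simp; linarith
    | succ I ih =>
      rw [Finset.sum_range_succ]
      push_cast
      split_ifs with h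
      · constructor <;> linarith [ih.1]
      · constructor <;> linarith [ih.1, ih.2]
  exact (key I).2

theorem o1_ceil {A s : ℝ} (hA : 0 ≤ A) (hs : 0 < s) (hs1 : s ≤ 1) :
    ∃ I : ℕ, A ≤ I * s ∧ I * s ≤ A + 1 := by
  refine ⟨⌈A / s⌉₊, (div_le_iff₀ hs).1 (Nat.le_ceil _), ?_⟩
  have h1 := (Nat.ceil_lt_add_one (div_nonneg hA hs.le)).le
  have h2 := mul_le_mul_of_nonneg_right h1 hs.le
  rw [add_mul, div_mul_cancel₀ _ hs.ne'] at h2
  linarith

theorem strip (W : ℝ → ℝ → ℝ) {c X m0 : ℝ} (hc : 0 ≤ c) (hm0 : 0 < m0)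
    (h1 : ∀ x y, X ≤ x → 0 ≤ x → 0 ≤ y → W x y = 0)
    (h2 : ∀ η : ℝ, 0 < η → ∃ H : ℝ, ∀ x y, 0 ≤ x → 0 ≤ y → H ≤ y → W x y ≤ η)
    (h3 : ∀ H : ℝ, ∃ C s0 : ℝ, 0 < s0 ∧ ∀ x y s, 0 ≤ x → x ≤ H → 0 ≤ y → y ≤ H → 0 < s → s ≤ s0 →
      W (x + s) (y + s) + W x y - W (x + s) y - W x (y + s)
        ≤ c * (s / 2) ^ 2 / (m0 + (x + y + s) / 2) ^ 2 * W (x + s / 2) (y + s / 2) + C * s ^ 3)
    {x1 δ B : ℝ} (hδ : 0 ≤ δ) (hB0 : 0 ≤ B)
    (hB : ∀ x y, 0 ≤ x → x1 - δ ≤ x → 0 ≤ y → W x y ≤ B)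
    (h0 : ∀ x y, 0 ≤ x → x1 ≤ x → 0 ≤ y → W x y ≤ 0) :
    ∀ x y, 0 ≤ x → x1 - δ ≤ x → 0 ≤ y → W x y ≤ c * δ / (2 * m0) * B := by
  intro x y hx hx1 hy
  refine le_of_forall_pos_le_add fun η hη => ?_
  obtain ⟨H, hH⟩ := h2 (η / 2) (by linarith)
  obtain ⟨C, s0, hs0, hC⟩ := h3 (x + y + |X| + |H| + 2)
  have hX := abs_nonneg X
  have hH0 := abs_nonneg H
  have hC0 := abs_nonneg C
  set A : ℝ := c * B / (2 * m0) + |C| * ((|X| + 1) * (|H| + 1)) with hA
  have hA0 : 0 ≤ A := by positivity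
  obtain ⟨s, hs, hs1, hs2, hs3⟩ : ∃ s : ℝ, 0 < s ∧ s ≤ s0 ∧ s ≤ 1 ∧ s * A ≤ η / 2 := by
    refine ⟨min (min s0 1) (η / 2 / (A + 1)), by positivity,
      (min_le_left _ _).trans (min_le_left _ _), (min_le_left _ _).trans (min_le_right _ _), ?_⟩
    have h4 : min (min s0 1) (η / 2 / (A + 1)) ≤ η / 2 / (A + 1) := min_le_right _ _
    have h5 : η / 2 / (A + 1) * (A + 1) = η / 2 := div_mul_cancel₀ _ (by positivity)
    have h6 : 0 < η / 2 / (A + 1) := by positivity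
    nlinarith [mul_le_mul_of_nonneg_right h4 hA0]
  obtain ⟨I, hI1, hI2⟩ := o1_ceil hX hs hs2
  obtain ⟨J, hJ1, hJ2⟩ := o1_ceil hH0 hs hs2
  have hG := grid_sum (fun i j => W (x + i * s) (y + j * s))
    (fun i j => (if (i : ℝ) * s < δ then s else 0) *
      (c * B / s * ((s / 2) ^ 2 / (m0 + (j + 1) * s / 2) ^ 2)) + |C| * s ^ 3) I J (by
      intro i j hi hj
      have hi0 : (0 : ℝ) ≤ i * s := by positivity
      have hj0 : (0 : ℝ) ≤ j * s := by positivity
      have hi1 : (i : ℝ) * s ≤ I * s :=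
        mul_le_mul_of_nonneg_right (by exact_mod_cast hi.le) hs.le
      have hj1 : (j : ℝ) * s ≤ J * s :=
        mul_le_mul_of_nonneg_right (by exact_mod_cast hj.le) hs.le
      have h4 := hC (x + i * s) (y + j * s) s (by linarith) (by linarith) (by linarith)
        (by linarith) hs hs1
      have e1 : x + ((i + 1 : ℕ) : ℝ) * s = x + i * s + s := by push_cast; ring
      have e2 : y + ((j + 1 : ℕ) : ℝ) * s = y + j * s + s := by push_cast; ring
      simp only [e1, e2]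
      refine h4.trans (add_le_add ?_
        (mul_le_mul_of_nonneg_right (le_abs_self C) (by positivity)))
      have hp : 0 < m0 + (j + 1) * s / 2 := by positivity
      have hq : c * (s / 2) ^ 2 / (m0 + (x + i * s + (y + j * s) + s) / 2) ^ 2
          ≤ c * (s / 2) ^ 2 / (m0 + (j + 1) * s / 2) ^ 2 :=
        div_le_div_of_nonneg_left (by positivity) (by positivity)
          (pow_le_pow_left₀ hp.le (by linarith) 2)
      have hq0 : 0 ≤ c * (s / 2) ^ 2 / (m0 + (x + i * s + (y + j * s) + s) / 2) ^ 2 := by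
        positivity
      split_ifs with h5
      · have h6 := hB (x + i * s + s / 2) (y + j * s + s / 2) (by linarith) (by linarith)
          (by linarith)
        refine (mul_le_mul_of_nonneg_left h6 hq0).trans
          ((mul_le_mul_of_nonneg_right hq hB0).trans (le_of_eq ?_))
        field_simp
      · have h6 := h0 (x + i * s + s / 2) (y + j * s + s / 2) (by linarith)
          (by linarith [not_lt.1 h5]) (by linarith)
        rw [zero_mul]
        exact mul_nonpos_of_nonneg_of_nonpos hq0 h6)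
  have hIs : (0 : ℝ) ≤ I * s := by positivity
  have hJs : (0 : ℝ) ≤ J * s := by positivity
  simp only [Nat.cast_zero, zero_mul, add_zero] at hG
  rw [h1 (x + I * s) y (by linarith [le_abs_self X]) (by linarith) hy,
    h1 (x + I * s) (y + J * s) (by linarith [le_abs_self X]) (by linarith) (by linarith)] at hG
  have h7 := hH x (y + J * s) hx (by linarith) (by linarith [le_abs_self H])
  simp only [Finset.sum_add_distrib, ← Finset.mul_sum, ← Finset.sum_mul, Finset.sum_const,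
    Finset.card_range, nsmul_eq_mul] at hG
  have h8 := o1_q hm0 hs J
  have h9 := o1_count hδ hs I
  have h10 : 0 ≤ ∑ j ∈ Finset.range J, (s / 2) ^ 2 / (m0 + (j + 1) * s / 2) ^ 2 :=
    Finset.sum_nonneg fun j _ => by positivity
  have h11 : (∑ i ∈ Finset.range I, (if (i : ℝ) * s < δ then s else 0)) *
      (c * B / s * ∑ j ∈ Finset.range J, (s / 2) ^ 2 / (m0 + (j + 1) * s / 2) ^ 2)
      ≤ (δ + s) * (c * B / s * (s / (2 * m0))) :=
    mul_le_mul h9 (mul_le_mul_of_nonneg_left h8 (by positivity)) (by positivity) (by positivity)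
  have h12 : (δ + s) * (c * B / s * (s / (2 * m0)))
      = c * δ / (2 * m0) * B + s * (c * B / (2 * m0)) := by
    field_simp
  have h13 : (I : ℝ) * (J * (|C| * s ^ 3)) ≤ s * (|C| * ((|X| + 1) * (|H| + 1))) := by
    have := mul_le_mul hI2 hJ2 hJs (by positivity)
    have h14 := mul_le_mul_of_nonneg_left this (mul_nonneg hs.le hC0)
    nlinarith
  have h15 : s * A = s * (c * B / (2 * m0)) + s * (|C| * ((|X| + 1) * (|H| + 1))) := by
    rw [hA]; ring
  linarith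

end Pool.Agent.P.MP_9f4f5e_mp.RL
end
end

-- part Pool.Agent.P.MP_9f4f5e_mp.RL.O2
section

set_option linter.unusedSectionVars false
set_option linter.unusedVariables false

open MeasureTheory Matrix
open scoped ENNReal ComplexOrder ComplexConjugate FourierTransform RealInnerProductSpace
open Pool.Agent.P.MP_9f4f5e_mp.LT (tp pp dg qf ec fej Spec)

noncomputable section

namespace Pool.Agent.P.MP_9f4f5e_mp.RL

variable {d : ℕ} {ι κ : Type} [Fintype ι] [DecidableEq ι] [Fintype κ]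

theorem goursat (w : ℝ → ℝ → ℝ) {c K m0 z0 : ℝ} (hc : 0 ≤ c) (hm0 : 0 < m0)
    (h1 : ∀ m z, K ≤ m - z → w m z = 0)
    (h2 : ∃ C : ℝ, 0 ≤ C ∧ ∀ m z, m0 ≤ m → m0 - z0 ≤ m - z → w m z ≤ C / √m)
    (h3 : ∀ Z : ℝ, ∃ C ε0 : ℝ, 0 < ε0 ∧ ∀ m z ε : ℝ, m0 ≤ m → |z| ≤ Z → 0 < ε → ε ≤ ε0 →
      w (m + ε) z + w (m - ε) z - w m (z + ε) - w m (z - ε)
        ≤ c * ε ^ 2 / m ^ 2 * w m z + C * ε ^ 3) : w m0 z0 ≤ 0 := by
  obtain ⟨C, hC, h2⟩ := h2
  set W : ℝ → ℝ → ℝ := fun x y => w (m0 + (x + y) / 2) (z0 + (y - x) / 2) with hW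
  have a1 : ∀ x y, K - m0 + z0 ≤ x → 0 ≤ x → 0 ≤ y → W x y = 0 := by
    intro x y hx _ _
    exact h1 _ _ (by linarith)
  have a0 : ∀ x y, 0 ≤ x → 0 ≤ y → W x y ≤ C / √(m0 + (x + y) / 2) := by
    intro x y hx hy
    exact h2 _ _ (by linarith) (by linarith)
  have a2 : ∀ η : ℝ, 0 < η → ∃ H : ℝ, ∀ x y, 0 ≤ x → 0 ≤ y → H ≤ y → W x y ≤ η := by
    intro η hη
    refine ⟨2 * (C / η) ^ 2, fun x y hx hy hH => (a0 x y hx hy).trans ?_⟩
    have hm : 0 < m0 + (x + y) / 2 := by linarith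
    have hs : 0 < √(m0 + (x + y) / 2) := Real.sqrt_pos.2 hm
    have h4 : C / η ≤ √(m0 + (x + y) / 2) := Real.le_sqrt_of_sq_le (by linarith)
    rw [div_le_iff₀ hs]
    rw [div_le_iff₀ hη] at h4
    linarith
  have a3 : ∀ H : ℝ, ∃ C s0 : ℝ, 0 < s0 ∧ ∀ x y s, 0 ≤ x → x ≤ H → 0 ≤ y → y ≤ H → 0 < s →
      s ≤ s0 → W (x + s) (y + s) + W x y - W (x + s) y - W x (y + s)
        ≤ c * (s / 2) ^ 2 / (m0 + (x + y + s) / 2) ^ 2 * W (x + s / 2) (y + s / 2) + C * s ^ 3 := by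
    intro H
    obtain ⟨C', ε0, hε0, h⟩ := h3 (|z0| + H)
    refine ⟨C' / 8, 2 * ε0, by linarith, fun x y s hx hxH hy hyH hs hs0 => ?_⟩
    have hz : |z0 + (y - x) / 2| ≤ |z0| + H := by
      refine (abs_add_le _ _).trans ?_
      have : |(y - x) / 2| ≤ H := abs_le.2 ⟨by linarith, by linarith⟩
      linarith
    have h5 := h (m0 + (x + y + s) / 2) (z0 + (y - x) / 2) (s / 2) (by linarith) hz
      (by linarith) (by linarith)
    have e1 : W (x + s) (y + s) = w (m0 + (x + y + s) / 2 + s / 2) (z0 + (y - x) / 2) := by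
      simp only [hW]; congr 1 <;> ring
    have e2 : W x y = w (m0 + (x + y + s) / 2 - s / 2) (z0 + (y - x) / 2) := by
      simp only [hW]; congr 1; ring
    have e3 : W (x + s) y = w (m0 + (x + y + s) / 2) (z0 + (y - x) / 2 - s / 2) := by
      simp only [hW]; congr 1 <;> ring
    have e4 : W x (y + s) = w (m0 + (x + y + s) / 2) (z0 + (y - x) / 2 + s / 2) := by
      simp only [hW]; congr 1 <;> ring
    have e5 : W (x + s / 2) (y + s / 2) = w (m0 + (x + y + s) / 2) (z0 + (y - x) / 2) := by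
      simp only [hW]; congr 1 <;> ring
    rw [e1, e2, e3, e4, e5]
    have e6 : C' / 8 * s ^ 3 = C' * (s / 2) ^ 3 := by ring
    rw [e6]
    linarith
  have hc1 : 0 < c + 1 := by linarith
  set δ : ℝ := m0 / (c + 1) with hδ
  have hδ0 : 0 < δ := div_pos hm0 hc1
  have hq : c * δ / (2 * m0) ≤ 1 / 2 := by
    rw [hδ, div_le_iff₀ (by linarith : 0 < 2 * m0)]
    have : c * (m0 / (c + 1)) ≤ m0 := by
      rw [← mul_div_assoc, div_le_iff₀ hc1]; nlinarith
    linarith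
  have hB0 : 0 ≤ C / √m0 := div_nonneg hC (Real.sqrt_nonneg _)
  have b0 : ∀ x y, 0 ≤ x → 0 ≤ y → W x y ≤ C / √m0 := by
    intro x y hx hy
    refine (a0 x y hx hy).trans ?_
    exact div_le_div_of_nonneg_left hC (Real.sqrt_pos.2 hm0) (Real.sqrt_le_sqrt (by linarith))
  have step : ∀ x1 : ℝ, (∀ x y, 0 ≤ x → x1 ≤ x → 0 ≤ y → W x y ≤ 0) →
      ∀ x y, 0 ≤ x → x1 - δ ≤ x → 0 ≤ y → W x y ≤ 0 := by
    intro x1 h0
    have it : ∀ n : ℕ, ∀ x y, 0 ≤ x → x1 - δ ≤ x → 0 ≤ y → W x y ≤ C / √m0 * (1 / 2) ^ n := by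
      intro n
      induction n with
      | zero => intro x y hx _ hy; simpa using b0 x y hx hy
      | succ n ih =>
        intro x y hx hx1 hy
        have hB : 0 ≤ C / √m0 * (1 / 2 : ℝ) ^ n := by positivity
        refine (strip W hc hm0 a1 a2 a3 hδ0.le hB ih h0 x y hx hx1 hy).trans ?_
        calc c * δ / (2 * m0) * (C / √m0 * (1 / 2) ^ n)
            ≤ 1 / 2 * (C / √m0 * (1 / 2) ^ n) := mul_le_mul_of_nonneg_right hq hB
          _ = C / √m0 * (1 / 2) ^ (n + 1) := by ring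
    intro x y hx hx1 hy
    have ht : Filter.Tendsto (fun n : ℕ => C / √m0 * (1 / 2 : ℝ) ^ n) Filter.atTop
        (nhds (C / √m0 * 0)) :=
      (tendsto_pow_atTop_nhds_zero_of_lt_one (by norm_num) (by norm_num)).const_mul _
    rw [mul_zero] at ht
    exact ge_of_tendsto' ht fun n => it n x y hx hx1 hy
  have all : ∀ k : ℕ, ∀ x y, 0 ≤ x → K - m0 + z0 - k * δ ≤ x → 0 ≤ y → W x y ≤ 0 := by
    intro k
    induction k with
    | zero =>
      intro x y hx hx1 hy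
      exact (a1 x y (by simpa using hx1) hx hy).le
    | succ k ih =>
      intro x y hx hx1 hy
      refine step _ ih x y hx ?_ hy
      push_cast at hx1
      linarith
  obtain ⟨k, hk⟩ := exists_nat_ge ((K - m0 + z0) / δ)
  rw [div_le_iff₀ hδ0] at hk
  have := all k 0 0 le_rfl (by linarith) le_rfl
  simpa [hW] using this

end Pool.Agent.P.MP_9f4f5e_mp.RL
end
end

-- part Pool.Agent.P.MP_9f4f5e_mp.RL.MI
section

set_option linter.unusedSectionVars false
set_option linter.unusedVariables false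

open MeasureTheory Matrix
open scoped ENNReal ComplexOrder ComplexConjugate FourierTransform RealInnerProductSpace
open Pool.Agent.P.MP_9f4f5e_mp.LT (tp pp dg qf ec fej Spec)

noncomputable section

namespace Pool.Agent.P.MP_9f4f5e_mp.RL

variable {d : ℕ} {ι κ : Type} [Fintype ι] [DecidableEq ι] [Fintype κ]

theorem mi_mono {V : Matrix ι ι ℂ} (hV : V.IsHermitian) (a : ι → E d) {m z m' z' : ℝ}
    (h : ∀ p : E d, om p m' - z' ≤ om p m - z) : UU V a m z ≤ UU V a m' z' := by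
  refine integral_mono (integrable_TT hV a m z) (integrable_TT hV a m' z') fun t => ?_
  refine LT.tp_mono (MM_herm hV a t m z) (MM_herm hV a t m' z') ?_ (by norm_num)
  have e : MM V a t m' z' - MM V a t m z =
      dg fun i => (om (a i - t) m - z) - (om (a i - t) m' - z') := by
    rw [← LT.dg_sub]
    unfold MM
    abel
  rw [e]
  exact LT.dg_posSemidef fun i => sub_nonneg.2 (h _)

theorem mi_herm {W : Matrix ι ι ℂ} (hW : W.IsHermitian) (c : ℝ) : ((c : ℂ) • W).IsHermitian := by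
  rw [Matrix.IsHermitian, Matrix.conjTranspose_smul, hW.eq]
  simp

theorem mi_eq {W : Matrix ι ι ℂ} (hW : W.IsHermitian) (a : ι → E d) (m : ℝ) (t : E d) :
    tp 3 (W - dg fun i => sym m (a i - t)) = (2 * Real.pi) ^ 3 *
      TT ((((2 * Real.pi)⁻¹ : ℝ) : ℂ) • W) a t (m / (2 * Real.pi)) (m / (2 * Real.pi)) := by
  have hp : 0 < 2 * Real.pi := by positivity
  unfold TT
  rw [← tp_smul (MM_herm (mi_herm hW _) _ _ _ _) hp]
  congr 1
  unfold MM
  rw [smul_sub, smul_smul, ← Complex.ofReal_mul, mul_inv_cancel₀ hp.ne', Complex.ofReal_one,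
    one_smul]
  congr 1
  ext i j
  rw [Matrix.smul_apply, LT.dg_apply, LT.dg_apply, sym_eq]
  split_ifs
  · rw [smul_eq_mul, ← Complex.ofReal_mul]
  · simp

theorem mi_eq0 (W : Matrix ι ι ℂ) (m : ℝ) (t : E d) :
    (W - dg fun _ => sym m t) = W - dg fun i : ι => sym m ((fun _ => (0 : E d)) i - t) := by
  simp only [zero_sub, sym_neg]

theorem UU_le {V : Matrix ι ι ℂ} (hV : V.IsHermitian) (a : ι → E d) {m : ℝ} (hm : 0 < m)
    (z : ℝ) : UU V a m z ≤ UU V (fun _ => (0 : E d)) m z := by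
  obtain ⟨K, -, hK⟩ := exists_bd hV
  have h := goursat (WW V a) (c := cc d) (K := K) (m0 := m) (z0 := z)
    (by unfold cc; positivity) hm
    (fun m z h => by unfold WW; rw [UU_zero hK _ h, UU_zero hK _ h]; simp)
    (WW_decay hV a hm (m - z)) (WW_mixed hV a hm)
  unfold WW at h
  have hw : 0 < wt d m := Real.rpow_pos_of_pos hm _
  have := nonpos_of_mul_nonpos_right h hw
  linarith

theorem UU_le' {V : Matrix ι ι ℂ} (hV : V.IsHermitian) (a : ι → E d) {m : ℝ} (hm : 0 ≤ m) :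
    UU V a m m ≤ UU V (fun _ => (0 : E d)) m m := by
  rcases hm.lt_or_eq with hm | rfl
  · exact UU_le hV a hm m
  · refine le_of_forall_pos_le_add fun η hη => ?_
    obtain ⟨δ, hδ, h⟩ := UU_small hV (fun _ => (0 : E d)) hη
    calc UU V a 0 0 ≤ UU V a δ δ :=
          mi_mono hV a fun p => by rw [om_zero, sub_zero]; exact om_sub_le p hδ.le
      _ ≤ UU V (fun _ => (0 : E d)) δ δ := UU_le hV a hδ δ
      _ ≤ UU V (fun _ => (0 : E d)) 0 δ :=
          mi_mono hV _ fun p => by rw [om_zero]; exact sub_le_sub_right (norm_le_om p δ) δ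
      _ ≤ _ := h

theorem integrable_sym {W : Matrix ι ι ℂ} (hW : W.IsHermitian) (a : ι → E d) (m : ℝ) :
    Integrable fun t => tp 3 (W - dg fun i => sym m (a i - t)) := by
  simp only [mi_eq hW a m]
  exact (integrable_TT (mi_herm hW _) a _ _).const_mul _

theorem integrable_sym0 {W : Matrix ι ι ℂ} (hW : W.IsHermitian) (m : ℝ) :
    Integrable fun t : E d => tp 3 (W - dg fun _ => sym m t) := by
  have h := integrable_sym hW (fun _ => (0 : E d)) m
  simpa only [zero_sub, sym_neg] using h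

theorem matrix_sym {W : Matrix ι ι ℂ} (hW : W.IsHermitian) (a : ι → E d) {m : ℝ} (hm : 0 ≤ m) :
    ∫ t, tp 3 (W - dg fun i => sym m (a i - t)) ≤ ∫ t : E d, tp 3 (W - dg fun _ => sym m t) := by
  have e : (fun t : E d => tp 3 (W - dg fun _ => sym m t)) = fun t => (2 * Real.pi) ^ 3 *
      TT ((((2 * Real.pi)⁻¹ : ℝ) : ℂ) • W) (fun _ => (0 : E d)) t (m / (2 * Real.pi))
        (m / (2 * Real.pi)) := by
    funext t
    rw [mi_eq0, mi_eq hW]
  rw [e]
  simp only [mi_eq hW a m]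
  rw [integral_const_mul, integral_const_mul]
  exact mul_le_mul_of_nonneg_left (UU_le' (mi_herm hW _) a (by positivity)) (by positivity)

end Pool.Agent.P.MP_9f4f5e_mp.RL
end
end

-- part Pool.Agent.P.MP_9f4f5e_mp.RL.R1
section

set_option linter.unusedSectionVars false
set_option linter.unusedVariables false

open MeasureTheory Matrix
open scoped ENNReal ComplexOrder ComplexConjugate FourierTransform RealInnerProductSpace
open Pool.Agent.P.MP_9f4f5e_mp.LT (tp pp dg qf ec fej Spec)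

noncomputable section

namespace Pool.Agent.P.MP_9f4f5e_mp.RL

variable {d : ℕ} {ι κ : Type} [Fintype ι] [DecidableEq ι] [Fintype κ]

theorem fn_meas (f : L2 d) : Measurable (fn f) := by
  exact (Lp.stronglyMeasurable f).measurable

theorem fn_sq (f : L2 d) :
    Integrable (fun x => ‖fn f x‖ ^ 2) ∧ ∫ x, ‖fn f x‖ ^ 2 = ‖f‖ ^ 2 := by
  refine ⟨(memLp_two_iff_integrable_sq_norm (Lp.memLp f).1).1 (Lp.memLp f), ?_⟩
  rw [← inner_self_eq_norm_sq (𝕜 := ℂ) f, L2.inner_def,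
    ← integral_re (L2.integrable_inner (𝕜 := ℂ) f f)]
  exact integral_congr_ae (Filter.Eventually.of_forall fun x =>
    (inner_self_eq_norm_sq (𝕜 := ℂ) (fn f x)).symm)

theorem fn_mass {u : L2 d} (hu : ‖u‖ = 1) : ∫⁻ x, ‖fn u x‖ₑ ^ 2 = 1 := by
  obtain ⟨h1, h2⟩ := fn_sq u
  have h3 := ofReal_integral_eq_lintegral_ofReal h1
    (Filter.Eventually.of_forall fun x => by positivity)
  rw [h2, hu] at h3
  have h4 : ∀ x, ‖fn u x‖ₑ ^ 2 = ENNReal.ofReal (‖fn u x‖ ^ 2) := fun x => by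
    rw [ENNReal.ofReal_pow (norm_nonneg _), ofReal_norm]
  simp only [h4]
  rw [← h3]
  simp

theorem measurable_uu (Q : Set (E d)) {f : E d → ℂ} (hf : Measurable f) : Measurable (uu Q f) := by
  have m : Measurable fun q : E d × E d => f (q.1 + q.2) := by fun_prop
  exact (m.stronglyMeasurable.integral_prod_right' (ν := volume.restrict Q)).measurable

theorem r1_cs (Q : Set (E d)) {f : E d → ℂ} (hf : Measurable f) (p : E d) :
    ‖uu Q f p‖ₑ ^ 2 ≤ volume Q * ∫⁻ s in Q, ‖f (p + s)‖ₑ ^ 2 := by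
  have m : Measurable fun s : E d => ‖f (p + s)‖ₑ := by fun_prop
  have h1 := ENNReal.lintegral_mul_le_Lp_mul_Lq (volume.restrict Q)
    Real.HolderConjugate.two_two (f := fun _ => 1) aemeasurable_const m.aemeasurable
  simp only [Pi.mul_apply, one_mul, one_pow, lintegral_const, Measure.restrict_apply_univ,
    ENNReal.rpow_two] at h1
  refine (pow_le_pow_left' ((enorm_integral_le_lintegral_enorm _).trans h1) 2).trans_eq ?_
  rw [← ENNReal.mul_rpow_of_nonneg _ _ (by norm_num), ← ENNReal.rpow_two, ← ENNReal.rpow_mul]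
  simp

theorem r1_ofReal (c : ℝ) (hc : 0 ≤ c) (z : ℂ) :
    ENNReal.ofReal (c * ‖z‖ ^ 2) = ENNReal.ofReal c * ‖z‖ₑ ^ 2 := by
  rw [ENNReal.ofReal_mul hc, ENNReal.ofReal_pow (norm_nonneg _), ofReal_norm]

theorem r1_main {Q : Set (E d)} (hQm : MeasurableSet Q) (hQ : volume Q ≠ ∞) (f : L2 d)
    {w w' : E d → ℝ} (hw : Continuous w)
    (hw' : Continuous w') (h0 : ∀ p, 0 ≤ w p) (h0' : ∀ p, 0 ≤ w' p)
    (hle : ∀ p, ∀ s ∈ Q, w p ≤ w' (p + s))
    (hI : Integrable fun ξ => w' ξ * ‖fn f ξ‖ ^ 2) :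
    Integrable (fun p => w p * ‖uu Q (fn f) p‖ ^ 2) ∧
      ∫ p, w p * ‖uu Q (fn f) p‖ ^ 2 ≤ volume.real Q ^ 2 * ∫ ξ, w' ξ * ‖fn f ξ‖ ^ 2 := by
  have hm := fn_meas f
  set F : E d → ℝ≥0∞ := fun ξ => ENNReal.ofReal (w' ξ * ‖fn f ξ‖ ^ 2) with hFdef
  have hF : Measurable F := (hw'.measurable.mul (hm.norm.pow_const 2)).ennreal_ofReal
  have hpt : ∀ p, ENNReal.ofReal (w p * ‖uu Q (fn f) p‖ ^ 2) ≤
      volume Q * ∫⁻ s in Q, F (p + s) := by
    intro p
    rw [r1_ofReal _ (h0 p)]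
    calc ENNReal.ofReal (w p) * ‖uu Q (fn f) p‖ₑ ^ 2
        ≤ ENNReal.ofReal (w p) * (volume Q * ∫⁻ s in Q, ‖fn f (p + s)‖ₑ ^ 2) :=
          mul_le_mul_right (r1_cs Q hm p) _
      _ = volume Q * ∫⁻ s in Q, ENNReal.ofReal (w p) * ‖fn f (p + s)‖ₑ ^ 2 := by
          rw [lintegral_const_mul' _ _ ENNReal.ofReal_ne_top, mul_left_comm]
      _ ≤ volume Q * ∫⁻ s in Q, F (p + s) := by
          refine mul_le_mul_right (setLIntegral_mono' hQm fun s hs => ?_) _
          simp only [hFdef]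
          rw [r1_ofReal _ (h0' _)]
          exact mul_le_mul_left (ENNReal.ofReal_le_ofReal (hle p s hs)) _
  have hm2 : Measurable (Function.uncurry fun (p s : E d) => F (p + s)) :=
    hF.comp (measurable_fst.add measurable_snd)
  have hpos : ∀ ξ, 0 ≤ w' ξ * ‖fn f ξ‖ ^ 2 := fun ξ => mul_nonneg (h0' ξ) (sq_nonneg _)
  have hL : ∫⁻ p, ENNReal.ofReal (w p * ‖uu Q (fn f) p‖ ^ 2) ≤
      ENNReal.ofReal (volume.real Q ^ 2 * ∫ ξ, w' ξ * ‖fn f ξ‖ ^ 2) :=
    calc _ ≤ ∫⁻ p, volume Q * ∫⁻ s in Q, F (p + s) := lintegral_mono hpt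
      _ = volume Q * ∫⁻ s in Q, ∫⁻ p, F (p + s) := by
        rw [lintegral_const_mul' _ _ hQ, lintegral_lintegral_swap hm2.aemeasurable]
      _ = volume Q * ∫⁻ _ in Q, ∫⁻ p, F p := by
        simp only [lintegral_add_right_eq_self F]
      _ = _ := by
        rw [setLIntegral_const, ENNReal.ofReal_mul (sq_nonneg _),
          ofReal_integral_eq_lintegral_ofReal hI (Filter.Eventually.of_forall hpos),
          ENNReal.ofReal_pow measureReal_nonneg, ofReal_measureReal hQ]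
        ring
  have hg0 : ∀ p, 0 ≤ w p * ‖uu Q (fn f) p‖ ^ 2 := fun p => mul_nonneg (h0 p) (sq_nonneg _)
  have hgm : AEStronglyMeasurable (fun p => w p * ‖uu Q (fn f) p‖ ^ 2) volume :=
    (hw.measurable.mul ((measurable_uu Q hm).norm.pow_const 2)).aestronglyMeasurable
  refine ⟨⟨hgm, (hasFiniteIntegral_iff_ofReal (Filter.Eventually.of_forall hg0)).2
    (hL.trans_lt ENNReal.ofReal_lt_top)⟩, ?_⟩
  rw [integral_eq_lintegral_of_nonneg_ae (Filter.Eventually.of_forall hg0) hgm]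
  exact ENNReal.toReal_le_of_le_ofReal (mul_nonneg (sq_nonneg _) (integral_nonneg hpos)) hL

theorem uu_sq {Q : Set (E d)} (hQm : MeasurableSet Q) (hQ : volume Q ≠ ∞) (f : L2 d) :
    Integrable (fun p => ‖uu Q (fn f) p‖ ^ 2) ∧
      ∫ p, ‖uu Q (fn f) p‖ ^ 2 ≤ volume.real Q ^ 2 * ‖f‖ ^ 2 := by
  have := r1_main hQm hQ f (w := fun _ => 1) (w' := fun _ => 1) continuous_const continuous_const
    (fun _ => zero_le_one) (fun _ => zero_le_one) (fun _ _ _ => le_rfl)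
    (by simpa only [one_mul] using (fn_sq f).1)
  simpa only [one_mul, (fn_sq f).2] using this

theorem uu_kin {Q : Set (E d)} (hQm : MeasurableSet Q) (hQ : volume Q ≠ ∞) {r : ℝ} (hr0 : 0 ≤ r)
    (hr : ∀ s ∈ Q, ‖s‖ ≤ r) (m : ℝ) (f : L2 d)
    (hf : Integrable fun ξ => sym m ξ * ‖fn f ξ‖ ^ 2) :
    Integrable (fun p => sym m p * ‖uu Q (fn f) p‖ ^ 2) ∧
      ∫ p, sym m p * ‖uu Q (fn f) p‖ ^ 2 ≤ volume.real Q ^ 2 *
        ((∫ ξ, sym m ξ * ‖fn f ξ‖ ^ 2) + 2 * Real.pi * r * ‖f‖ ^ 2) := by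
  have h2 := (fn_sq f).1.const_mul (2 * Real.pi * r)
  have hc : 0 ≤ 2 * Real.pi := by positivity
  have := r1_main hQm hQ f (w := fun p => sym m p) (w' := fun p => sym m p + 2 * Real.pi * r)
    (continuous_sym m) ((continuous_sym m).add continuous_const) (sym_nonneg m)
    (fun p => add_nonneg (sym_nonneg m p) (mul_nonneg hc hr0))
    (fun p s hs => by
      have h1 := sym_lip m p s
      have h3 := mul_le_mul_of_nonneg_left (hr s hs) hc
      linarith)
    (by simp only [add_mul]; exact hf.add h2)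
  simp only [add_mul] at this
  rwa [integral_add hf h2, integral_const_mul, (fn_sq f).2] at this

end Pool.Agent.P.MP_9f4f5e_mp.RL
end
end
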