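import Pool.Agent.K.MP_9f4f5e_mp.C0
import Pool.Agent.K.MP_9f4f5e_mp.C8

set_option linter.unusedSectionVars false
set_option linter.unusedVariables false

open MeasureTheory Matrix
open scoped ENNReal ComplexOrder ComplexConjugate FourierTransform RealInnerProductSpace
open Pool.Agent.P.MP_9f4f5e_mp.LT (tp pp dg qf ec fej Spec)

noncomputable section

namespace Pool.Agent.P.MP_9f4f5e_mp.RL

variable {d : ℕ} {ι κ : Type} [Fintype ι] [DecidableEq ι] [Fintype κ]

theorem measurable_ww (Q : Set (E d)) : Measurable (ww Q) := by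
  have h : StronglyMeasurable fun p : E d × E d => ec (-⟪p.2, p.1⟫) := by
    refine Continuous.stronglyMeasurable ?_
    fun_prop
  exact (h.integral_prod_right' (ν := (volume : Measure (E d)).restrict Q)).measurable

theorem norm_ww_le {Q : Set (E d)} (hQ : volume Q ≠ ∞) (z : E d) : ‖ww Q z‖ ≤ volume.real Q := by
  have h := norm_setIntegral_le_of_norm_le_const (μ := (volume : Measure (E d))) (s := Q)
    (f := fun s : E d => ec (-⟪s, z⟫)) (C := 1) hQ.lt_top fun s _ => (LT.norm_ec _).le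
  simpa [ww] using h

theorem r2_shift {A : E d → ℂ} (hA : MemLp A 2 volume) (k : E d) :
    MemLp (fun p => A (p + k)) 2 volume :=
  hA.comp_measurePreserving (measurePreserving_add_right volume k)

theorem r2_conj {A : E d → ℂ} (hA : MemLp A 2 volume) : MemLp (fun p => conj (A p)) 2 volume :=
  hA.congr_norm (Complex.continuous_conj.comp_aestronglyMeasurable hA.1)
    (Filter.Eventually.of_forall fun _ => (Complex.norm_conj _).symm)

theorem r2_uu_mul {A B : E d → ℂ} (hA : Measurable A) (hB : Measurable B)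
    (hA2 : MemLp A 2 volume) (hB2 : MemLp B 2 volume) {Q : Set (E d)} (hQ : volume Q ≠ ∞)
    (k : E d) :
    ∫ p, uu Q A (p + k) * B p = ∫ s in Q, ∫ p, A (p + k + s) * B p := by
  have : IsFiniteMeasure ((volume : Measure (E d)).restrict Q) := isFiniteMeasure_restrict.2 hQ
  have hm : Measurable fun q : E d × E d => A (q.2 + k + q.1) * B q.2 := by fun_prop
  have h1 : ∀ s : E d, MemLp (fun p => A (p + k + s)) 2 volume := fun s => by
    simpa only [add_assoc] using r2_shift hA2 (k + s)
  have h2 : ∀ s : E d, ∫ p, ‖A (p + k + s)‖ ^ 2 = ∫ p, ‖A p‖ ^ 2 := fun s => by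
    simpa only [add_assoc] using
      integral_add_right_eq_self (μ := volume) (fun p => ‖A p‖ ^ 2) (k + s)
  have h3 : ∀ s : E d, Integrable fun p => A (p + k + s) * B p := fun s =>
    (h1 s).integrable_mul hB2
  have hi : Integrable (fun q : E d × E d => A (q.2 + k + q.1) * B q.2)
      (((volume : Measure (E d)).restrict Q).prod volume) := by
    refine (integrable_prod_iff hm.aestronglyMeasurable).2 ⟨Filter.Eventually.of_forall h3, ?_⟩
    refine Integrable.of_bound hm.norm.stronglyMeasurable.integral_prod_right'.aestronglyMeasurable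
      ((∫ p, ‖A p‖ ^ 2) + ∫ p, ‖B p‖ ^ 2) (Filter.Eventually.of_forall fun s => ?_)
    have i1 := (memLp_two_iff_integrable_sq_norm (h1 s).1).1 (h1 s)
    have i2 := (memLp_two_iff_integrable_sq_norm hB2.1).1 hB2
    rw [Real.norm_of_nonneg (integral_nonneg fun _ => norm_nonneg _), ← h2 s, ← integral_add i1 i2]
    refine integral_mono (h3 s).norm (i1.add i2) fun p => ?_
    simp only [norm_mul]
    nlinarith [sq_nonneg (‖A (p + k + s)‖ - ‖B p‖), norm_nonneg (A (p + k + s)), norm_nonneg (B p)]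
  rw [integral_integral_swap (f := fun s p : E d => A (p + k + s) * B p) hi]
  simp only [uu, integral_mul_const]

theorem r2_swap {g : E d → ℂ} (hg : Integrable g) {Q : Set (E d)} (hQ : volume Q ≠ ∞)
    {φ : E d → E d → ℝ} (hφ : Continuous fun p : E d × E d => φ p.1 p.2) :
    ∫ s in Q, ∫ z, g z * ec (φ s z) = ∫ z, g z * ∫ s in Q, ec (φ s z) := by
  have : IsFiniteMeasure ((volume : Measure (E d)).restrict Q) := isFiniteMeasure_restrict.2 hQ
  have h1 : Integrable (fun p : E d × E d => (1 : ℂ) * g p.2)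
      (((volume : Measure (E d)).restrict Q).prod volume) :=
    (integrable_const (1 : ℂ)).mul_prod hg
  have h2 : Integrable (Function.uncurry fun s z : E d => g z * ec (φ s z))
      (((volume : Measure (E d)).restrict Q).prod volume) := by
    have h3 := h1.mul_bdd (c := 1) (g := fun p : E d × E d => ec (φ p.1 p.2))
      (LT.continuous_ec.comp hφ).aestronglyMeasurable
      (Filter.Eventually.of_forall fun p => (LT.norm_ec _).le)
    refine h3.congr (Filter.Eventually.of_forall fun p => ?_)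
    simp [Function.uncurry]
  rw [integral_integral_swap h2]
  simp only [integral_const_mul]

theorem r2_conj_ww (Q : Set (E d)) (z : E d) : ∫ s in Q, ec ⟪s, z⟫ = conj (ww Q z) := by
  rw [ww, ← integral_conj]
  simp only [← LT.ec_neg, neg_neg]

theorem r2_rho {ρ : E d → ℝ} (hρ : Integrable ρ) {Q : Set (E d)} (hQ : volume Q ≠ ∞) (k : E d) :
    ∫ s in Q, ∫ s' in Q, ∫ z, (ρ z : ℂ) * ec (-⟪k + s - s', z⟫)
      = ∫ z, ((ρ z * ‖ww Q z‖ ^ 2 : ℝ) : ℂ) * ec (-⟪k, z⟫) := by
  have hρ' : Integrable fun z => (ρ z : ℂ) := hρ.ofReal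
  have hb : ∀ v : E d, ∀ {g : E d → ℂ}, Integrable g →
      Integrable fun z => g z * ec (-⟪v, z⟫) := fun v g hg =>
    hg.mul_bdd (c := 1) (Continuous.aestronglyMeasurable (by fun_prop))
      (Filter.Eventually.of_forall fun z => (LT.norm_ec _).le)
  have hg : Integrable fun z => (ρ z : ℂ) * ec (-⟪k, z⟫) * conj (ww Q z) :=
    (hb k hρ').mul_bdd (c := volume.real Q)
      (Complex.continuous_conj.measurable.comp (measurable_ww Q)).aestronglyMeasurable
      (Filter.Eventually.of_forall fun z => by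
        rw [Complex.norm_conj]; exact norm_ww_le hQ z)
  have h1 : ∀ s : E d, ∫ s' in Q, ∫ z, (ρ z : ℂ) * ec (-⟪k + s - s', z⟫)
      = ∫ z, ((ρ z : ℂ) * ec (-⟪k, z⟫) * conj (ww Q z)) * ec (-⟪s, z⟫) := by
    intro s
    have h2 := r2_swap (hb s (hb k hρ')) hQ (φ := fun s' z => ⟪s', z⟫) (by fun_prop)
    have h3 : ∀ s' z : E d, (ρ z : ℂ) * ec (-⟪k + s - s', z⟫)
        = (ρ z : ℂ) * ec (-⟪k, z⟫) * ec (-⟪s, z⟫) * ec ⟪s', z⟫ := by
      intro s' z
      rw [mul_assoc, mul_assoc, ← LT.ec_add, ← LT.ec_add, inner_sub_left, inner_add_left]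
      congr 2
      ring
    simp only [h3]
    rw [h2]
    refine integral_congr_ae (Filter.Eventually.of_forall fun z => ?_)
    simp only
    rw [r2_conj_ww]
    ring
  simp only [h1]
  rw [r2_swap hg hQ (φ := fun s z => -⟪s, z⟫) (by fun_prop)]
  refine integral_congr_ae (Filter.Eventually.of_forall fun z => ?_)
  simp only
  have h4 : ∫ s in Q, ec (-⟪s, z⟫) = ww Q z := rfl
  have h5 : ((‖ww Q z‖ ^ 2 : ℝ) : ℂ) = ww Q z * conj (ww Q z) := by
    rw [Complex.mul_conj, Complex.normSq_eq_norm_sq]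
  rw [h4, Complex.ofReal_mul, h5]
  ring

theorem r2_corr {Q : Set (E d)} (hQm : MeasurableSet Q) (hQ : volume Q ≠ ∞) (u : L2 d) (k : E d) :
    Integrable (fun p => uu Q (fn (ft u)) (p + k) * conj (uu Q (fn (ft u)) p)) ∧
      ∫ p, uu Q (fn (ft u)) (p + k) * conj (uu Q (fn (ft u)) p)
        = ∫ z, ((‖fn u z‖ ^ 2 * ‖ww Q z‖ ^ 2 : ℝ) : ℂ) * ec (-⟪k, z⟫) := by
  have hm : Measurable (fn (ft u)) := fn_meas _
  have hc := measurable_uu Q hm
  have hU : MemLp (uu Q (fn (ft u))) 2 volume :=
    (memLp_two_iff_integrable_sq_norm hc.aestronglyMeasurable).2 (uu_sq hQm hQ (ft u)).1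
  have h2 : MemLp (fn (ft u)) 2 volume := Lp.memLp (ft u)
  have hcorr : ∀ k : E d, ∫ p, fn (ft u) (p + k) * conj (fn (ft u) p)
      = ∫ z, ((‖fn u z‖ ^ 2 : ℝ) : ℂ) * ec (-⟪k, z⟫) := fun k => LT.fourier_corr u k
  generalize fn (ft u) = f at hc hU hm h2 hcorr
  refine ⟨(r2_shift hU k).integrable_mul (r2_conj hU), ?_⟩
  rw [r2_uu_mul (B := fun p => conj (uu Q f p)) hm
    (Complex.continuous_conj.measurable.comp hc) h2 (r2_conj hU) hQ, ← r2_rho (fn_sq u).1 hQ]
  refine integral_congr_ae (Filter.Eventually.of_forall fun s => ?_)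
  have h1 : ∀ p : E d, f (p + k + s) * conj (uu Q f p)
      = uu Q (fun p => conj (f p)) (p + 0) * f (p + (k + s)) := by
    intro p
    simp only [uu, add_zero, add_assoc]
    rw [integral_conj, mul_comm]
  simp only [h1]
  rw [r2_uu_mul (A := fun p => conj (f p)) (B := fun p => f (p + (k + s)))
    (Complex.continuous_conj.measurable.comp hm) (hm.comp (measurable_add_const _)) (r2_conj h2)
    (r2_shift h2 _) hQ]
  refine integral_congr_ae (Filter.Eventually.of_forall fun s' => ?_)
  simp only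
  rw [← hcorr, ← integral_add_right_eq_self (fun p => f (p + (k + s - s')) * conj (f p)) s']
  refine integral_congr_ae (Filter.Eventually.of_forall fun p => ?_)
  have h3 : p + s' + (k + s - s') = p + (k + s) := by abel
  simp only [h3, add_zero]
  rw [mul_comm]

theorem uu_corr {Q : Set (E d)} (hQm : MeasurableSet Q) (hQ : volume Q ≠ ∞) (u : L2 d)
    (a b : E d) :
    Integrable (fun t => uu Q (fn (ft u)) (a - t) * conj (uu Q (fn (ft u)) (b - t))) ∧
      ∫ t, uu Q (fn (ft u)) (a - t) * conj (uu Q (fn (ft u)) (b - t))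
        = ∫ z, ((‖fn u z‖ ^ 2 * ‖ww Q z‖ ^ 2 : ℝ) : ℂ) * ec (-⟪a - b, z⟫) := by
  obtain ⟨h1, h2⟩ := r2_corr hQm hQ u (a - b)
  have e : (fun t => uu Q (fn (ft u)) (a - t) * conj (uu Q (fn (ft u)) (b - t))) =
      fun t => (fun p => uu Q (fn (ft u)) (p + (a - b)) * conj (uu Q (fn (ft u)) p)) (b - t) := by
    funext t
    have : b - t + (a - b) = a - t := by abel
    simp only [this]
  rw [e]
  exact ⟨h1.comp_sub_left b, (integral_sub_left_eq_self _ volume b).trans h2⟩

end Pool.Agent.P.MP_9f4f5e_mp.RL
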