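import Pool.Agent.K.MP_9f4f5e_mp.C8
import Pool.Agent.K.MP_9f4f5e_mp.C6
import Pool.Agent.K.MP_9f4f5e_mp.C9
import Pool.Agent.K.MP_9f4f5e_mp.C2
import Pool.Agent.K.MP_9f4f5e_mp.C0
import Pool.Agent.K.MP_9f4f5e_mp.C4

-- part Pool.Agent.P.MP_9f4f5e_mp.RL.R3
section

set_option linter.unusedSectionVars false
set_option linter.unusedVariables false

open MeasureTheory Matrix
open scoped ENNReal ComplexOrder ComplexConjugate FourierTransform RealInnerProductSpace
open Pool.Agent.P.MP_9f4f5e_mp.LT (tp pp dg qf ec fej Spec)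

noncomputable section

namespace Pool.Agent.P.MP_9f4f5e_mp.RL

variable {d : ℕ} {ι κ : Type} [Fintype ι] [DecidableEq ι] [Fintype κ]

theorem orthonormal_ft {κ : Type} {u : κ → L2 d} (hu : Orthonormal ℂ u) :
    Orthonormal ℂ fun k => ft (u k) := by
  classical
  rw [orthonormal_iff_ite] at hu ⊢
  intro i j
  rw [← hu i j]
  exact Lp.inner_fourier_eq _ _

theorem r3_meas {Q : Set (E d)} (hQm : MeasurableSet Q) (p : E d) :
    MeasurableSet {ξ : E d | ξ - p ∈ Q} :=
  (measurable_sub_const p) hQm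

theorem r3_vol (Q : Set (E d)) (p : E d) : volume {ξ : E d | ξ - p ∈ Q} = volume Q := by
  have : {ξ : E d | ξ - p ∈ Q} = (fun ξ => ξ + (-p)) ⁻¹' Q := by
    ext ξ
    simp [sub_eq_add_neg]
  rw [this, measure_preimage_add_right]

/-- the indicator of a translated cell -/
def r3_e {Q : Set (E d)} (hQm : MeasurableSet Q) (hQ : volume Q ≠ ∞) (p : E d) : L2 d :=
  indicatorConstLp 2 (r3_meas hQm p) ((r3_vol Q p).trans_ne hQ) (1 : ℂ)

theorem r3_inner {Q : Set (E d)} (hQm : MeasurableSet Q) (hQ : volume Q ≠ ∞) (p : E d)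
    (f : L2 d) : inner ℂ (r3_e hQm hQ p) f = uu Q (fn f) p := by
  rw [r3_e, L2.inner_indicatorConstLp_one, uu, ← integral_indicator (r3_meas hQm p),
    ← integral_indicator hQm, ← integral_add_left_eq_self _ p]
  refine integral_congr_ae (Filter.Eventually.of_forall fun s => ?_)
  by_cases hs : s ∈ Q
  · have h2 : p + s ∈ {ξ : E d | ξ - p ∈ Q} := by simpa using hs
    simp only [Set.indicator_of_mem hs, Set.indicator_of_mem h2, fn]
  · have h2 : p + s ∉ {ξ : E d | ξ - p ∈ Q} := by simpa using hs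
    simp only [Set.indicator_of_notMem hs, Set.indicator_of_notMem h2]

theorem r3_inner_e {Q : Set (E d)} (hQm : MeasurableSet Q) (hQ : volume Q ≠ ∞) (p q : E d) :
    inner ℂ (r3_e hQm hQ p) (r3_e hQm hQ q) =
      ((volume.real ({ξ : E d | ξ - p ∈ Q} ∩ {ξ : E d | ξ - q ∈ Q}) : ℝ) : ℂ) :=
  L2.inner_indicatorConstLp_one_indicatorConstLp_one (r3_meas hQm p) (r3_meas hQm q)
    ((r3_vol Q p).trans_ne hQ) ((r3_vol Q q).trans_ne hQ)

theorem r3_orth {Q : Set (E d)} (hQm : MeasurableSet Q) (hQ : volume Q ≠ ∞) {a : ι → E d}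
    (hdis : ∀ i j, i ≠ j → ∀ s ∈ Q, ∀ s' ∈ Q, a i + s ≠ a j + s') (t : E d) (i j : ι) :
    inner ℂ (r3_e hQm hQ (a i - t)) (r3_e hQm hQ (a j - t)) =
      if i = j then ((volume.real Q : ℝ) : ℂ) else 0 := by
  rw [r3_inner_e]
  split_ifs with hij
  · subst hij
    rw [Set.inter_self, Measure.real, r3_vol, Measure.real]
  · have key : {ξ : E d | ξ - (a i - t) ∈ Q} ∩ {ξ : E d | ξ - (a j - t) ∈ Q} = ∅ :=
      Set.eq_empty_of_forall_notMem fun x hx => hdis i j hij _ hx.1 _ hx.2 (by abel)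
    rw [key]
    simp

theorem uu_bessel {f : κ → L2 d} (hf : Orthonormal ℂ f) {Q : Set (E d)} (hQm : MeasurableSet Q)
    (hQ : volume Q ≠ ∞) (a : ι → E d)
    (hdis : ∀ i j, i ≠ j → ∀ s ∈ Q, ∀ s' ∈ Q, a i + s ≠ a j + s') (t : E d) (c : ι → ℂ) :
    ∑ k, ‖∑ i, conj (c i) * uu Q (fn (f k)) (a i - t)‖ ^ 2
      ≤ volume.real Q * ∑ i, ‖c i‖ ^ 2 := by
  set g : L2 d := ∑ i, c i • r3_e hQm hQ (a i - t) with hg
  have h1 : ∀ k, ∑ i, conj (c i) * uu Q (fn (f k)) (a i - t) = inner ℂ g (f k) := by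
    intro k
    rw [hg, sum_inner]
    refine Finset.sum_congr rfl fun i _ => ?_
    rw [inner_smul_left, r3_inner]
  have h2 : inner ℂ g g = ((volume.real Q * ∑ i, ‖c i‖ ^ 2 : ℝ) : ℂ) := by
    rw [hg, sum_inner]
    push_cast
    rw [Finset.mul_sum]
    refine Finset.sum_congr rfl fun i _ => ?_
    rw [inner_sum]
    simp only [inner_smul_left, inner_smul_right, r3_orth hQm hQ hdis]
    rw [Finset.sum_eq_single i]
    · rw [if_pos rfl, ← Complex.mul_conj']
      ring
    · intro j _ hj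
      rw [if_neg hj.symm]
      simp
    · simp
  have h3 : ‖g‖ ^ 2 = volume.real Q * ∑ i, ‖c i‖ ^ 2 := by
    rw [inner_self_eq_norm_sq_to_K] at h2
    have h4 : ((‖g‖ ^ 2 : ℝ) : ℂ) = ((volume.real Q * ∑ i, ‖c i‖ ^ 2 : ℝ) : ℂ) := by
      rw [← h2]
      push_cast
      rfl
    exact_mod_cast h4
  rw [← h3]
  refine le_trans (le_of_eq ?_) (hf.sum_inner_products_le g (s := Finset.univ))
  refine Finset.sum_congr rfl fun k _ => ?_
  rw [h1, norm_inner_symm]

end Pool.Agent.P.MP_9f4f5e_mp.RL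
end
end

-- part Pool.Agent.P.MP_9f4f5e_mp.RL.R4
section

set_option linter.unusedSectionVars false
set_option linter.unusedVariables false

open MeasureTheory Matrix
open scoped ENNReal ComplexOrder ComplexConjugate FourierTransform RealInnerProductSpace
open Pool.Agent.P.MP_9f4f5e_mp.LT (tp pp dg qf ec fej Spec)

noncomputable section

namespace Pool.Agent.P.MP_9f4f5e_mp.RL

variable {d : ℕ} {ι κ : Type} [Fintype ι] [DecidableEq ι] [Fintype κ]

theorem r4_qf (W : Matrix ι ι ℂ) (v : ι → ℂ) :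
    qf W v = (∑ i, ∑ j, v i * conj (v j) * W j i).re := by
  unfold qf
  congr 1
  simp only [dotProduct, Matrix.mulVec, Pi.star_apply, Finset.mul_sum, RCLike.star_def]
  rw [Finset.sum_comm]
  exact Finset.sum_congr rfl fun i _ => Finset.sum_congr rfl fun j _ => by ring

theorem finite_level {u : κ → L2 d} (hu : Orthonormal ℂ u) {m : ℝ} (hm : 0 ≤ m)
    (hT : ∀ k, Integrable fun ξ => sym m ξ * ‖fn (ft (u k)) ξ‖ ^ 2) {Q : Set (E d)}
    (hQm : MeasurableSet Q) (hQ : volume Q ≠ ∞) {r : ℝ} (hr0 : 0 ≤ r) (hr : ∀ s ∈ Q, ‖s‖ ≤ r)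
    (a : ι → E d) (hdis : ∀ i j, i ≠ j → ∀ s ∈ Q, ∀ s' ∈ Q, a i + s ≠ a j + s')
    {W : Matrix ι ι ℂ} (hW : W.IsHermitian) (c : κ → ℝ) (hc : ∀ k, 0 ≤ c k) :
    ∑ k, (3 * c k ^ 2 * ((∑ i, ∑ j,
        (∫ z, ((‖fn (u k) z‖ ^ 2 * ‖ww Q z‖ ^ 2 : ℝ) : ℂ) * ec (-⟪a i - a j, z⟫)) * W j i).re
        - Fintype.card ι * volume.real Q ^ 2 * (tk m (u k) + 2 * Real.pi * r))
        - 2 * c k ^ 3 * (Fintype.card ι * volume.real Q ^ 2))
      ≤ volume.real Q * ∫ t : E d, tp 3 (W - dg fun _ => sym m t) := by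
  set h : ℝ := volume.real Q with hh
  have hh0 : 0 ≤ h := measureReal_nonneg
  have hn : ∀ k, ‖ft (u k)‖ = 1 := fun k => (orthonormal_ft hu).1 k
  set v : E d → κ → ι → ℂ := fun t k i => uu Q (fn (ft (u k))) (a i - t) with hv
  have hC := fun k i j => uu_corr hQm hQ (u k) (a i) (a j)
  have hK : ∀ k i, Integrable (fun t => sym m (a i - t) * ‖v t k i‖ ^ 2) ∧
      ∫ t, sym m (a i - t) * ‖v t k i‖ ^ 2 ≤ h ^ 2 * (tk m (u k) + 2 * Real.pi * r) :=
    fun k i => by
      obtain ⟨h1, h2⟩ := uu_kin hQm hQ hr0 hr m (ft (u k)) (hT k)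
      rw [hn k, one_pow, mul_one] at h2
      exact ⟨h1.comp_sub_left (a i), (integral_sub_left_eq_self
        (fun p => sym m p * ‖uu Q (fn (ft (u k))) p‖ ^ 2) volume (a i)).trans_le h2⟩
  have hS : ∀ k i, Integrable (fun t => ‖v t k i‖ ^ 2) ∧ ∫ t, ‖v t k i‖ ^ 2 ≤ h ^ 2 :=
    fun k i => by
      obtain ⟨h1, h2⟩ := uu_sq hQm hQ (ft (u k))
      rw [hn k, one_pow, mul_one] at h2
      exact ⟨h1.comp_sub_left (a i), (integral_sub_left_eq_self
        (fun p => ‖uu Q (fn (ft (u k))) p‖ ^ 2) volume (a i)).trans_le h2⟩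
  have hA : ∀ k, Integrable fun t => ∑ i, ∑ j, v t k i * conj (v t k j) * W j i := fun k =>
    integrable_finsetSum _ fun i _ => integrable_finsetSum _ fun j _ => (hC k i j).1.mul_const _
  have hA' : ∀ k, Integrable fun t => (∑ i, ∑ j, v t k i * conj (v t k j) * W j i).re :=
    fun k => (hA k).re
  have hB : ∀ k, Integrable fun t => ∑ i, sym m (a i - t) * ‖v t k i‖ ^ 2 := fun k =>
    integrable_finsetSum _ fun i _ => (hK k i).1
  have hD : ∀ k, Integrable fun t => ∑ i, ‖v t k i‖ ^ 2 := fun k =>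
    integrable_finsetSum _ fun i _ => (hS k i).1
  have hI : ∀ k, Integrable fun t =>
      3 * c k ^ 2 * ((∑ i, ∑ j, v t k i * conj (v t k j) * W j i).re
      - ∑ i, sym m (a i - t) * ‖v t k i‖ ^ 2) - 2 * c k ^ 3 * ∑ i, ‖v t k i‖ ^ 2 := fun k =>
    (((hA' k).sub (hB k)).const_mul _).sub ((hD k).const_mul _)
  have hpt : ∀ t, ∑ k, (3 * c k ^ 2 * ((∑ i, ∑ j, v t k i * conj (v t k j) * W j i).re
      - ∑ i, sym m (a i - t) * ‖v t k i‖ ^ 2) - 2 * c k ^ 3 * ∑ i, ‖v t k i‖ ^ 2)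
      ≤ h * tp 3 (W - dg fun i => sym m (a i - t)) := fun t => by
    have := peierls3 (hW.sub (LT.dg_isHermitian fun i => sym m (a i - t))) (v t)
      (uu_bessel (orthonormal_ft hu) hQm hQ a hdis t) c hc
    simpa only [LT.qf_sub, LT.qf_dg, r4_qf W] using this
  have key := integral_mono (integrable_finsetSum _ fun k _ => hI k)
    ((integrable_sym hW a m).const_mul h) hpt
  rw [integral_const_mul, integral_finsetSum _ fun k _ => hI k] at key
  refine le_trans (Finset.sum_le_sum fun k _ => ?_)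
    (key.trans (mul_le_mul_of_nonneg_left (matrix_sym hW a hm) hh0))
  have eA : ∫ t, (∑ i, ∑ j, v t k i * conj (v t k j) * W j i).re
      = (∑ i, ∑ j, (∫ z, ((‖fn (u k) z‖ ^ 2 * ‖ww Q z‖ ^ 2 : ℝ) : ℂ)
          * ec (-⟪a i - a j, z⟫)) * W j i).re := by
    refine (integral_re (hA k)).trans (congrArg Complex.re ?_)
    rw [integral_finsetSum _ fun i _ =>
      integrable_finsetSum _ fun j _ => (hC k i j).1.mul_const _]
    refine Finset.sum_congr rfl fun i _ => ?_
    rw [integral_finsetSum _ fun j _ => (hC k i j).1.mul_const _]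
    refine Finset.sum_congr rfl fun j _ => ?_
    rw [integral_mul_const, (hC k i j).2]
  have eB : ∫ t, ∑ i, sym m (a i - t) * ‖v t k i‖ ^ 2 ≤
      Fintype.card ι * h ^ 2 * (tk m (u k) + 2 * Real.pi * r) := by
    rw [integral_finsetSum _ fun i _ => (hK k i).1]
    refine (Finset.sum_le_sum fun i _ => (hK k i).2).trans_eq ?_
    rw [Finset.sum_const, Finset.card_univ, nsmul_eq_mul, mul_assoc (Fintype.card ι : ℝ)]
  have eD : ∫ t, ∑ i, ‖v t k i‖ ^ 2 ≤ Fintype.card ι * h ^ 2 := by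
    rw [integral_finsetSum _ fun i _ => (hS k i).1]
    refine (Finset.sum_le_sum fun i _ => (hS k i).2).trans_eq ?_
    rw [Finset.sum_const, Finset.card_univ, nsmul_eq_mul]
  have i1 : Integrable fun t => (∑ i, ∑ j, v t k i * conj (v t k j) * W j i).re
      - ∑ i, sym m (a i - t) * ‖v t k i‖ ^ 2 := (hA' k).sub (hB k)
  rw [integral_sub (i1.const_mul _) ((hD k).const_mul _), integral_const_mul, integral_const_mul,
    integral_sub (hA' k) (hB k), eA]
  have f1 := mul_le_mul_of_nonneg_left eB (mul_nonneg zero_le_three (sq_nonneg (c k)))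
  have f2 := mul_le_mul_of_nonneg_left eD (mul_nonneg zero_le_two (pow_nonneg (hc k) 3))
  linarith

end Pool.Agent.P.MP_9f4f5e_mp.RL
end
end

-- part Pool.Agent.P.MP_9f4f5e_mp.RL.R5
section

set_option linter.unusedSectionVars false
set_option linter.unusedVariables false

open MeasureTheory Matrix
open scoped ENNReal ComplexOrder ComplexConjugate FourierTransform RealInnerProductSpace
open Pool.Agent.P.MP_9f4f5e_mp.LT (tp pp dg qf ec fej Spec)

noncomputable section

namespace Pool.Agent.P.MP_9f4f5e_mp.RL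

variable {d : ℕ} {ι κ : Type} [Fintype ι] [DecidableEq ι] [Fintype κ]

theorem r5_pre (S : Fin d → Set ℝ) :
    (WithLp.toLp 2 : (Fin d → ℝ) → E d) ⁻¹' {x : E d | ∀ k, x k ∈ S k} = Set.univ.pi S := by
  ext x
  simp

theorem integral_box {𝕜 : Type} [RCLike 𝕜] (S : Fin d → Set ℝ) (hS : ∀ k, MeasurableSet (S k))
    (f : Fin d → ℝ → 𝕜) :
    ∫ x in {x : E d | ∀ k, x k ∈ S k}, ∏ k, f k (x k) = ∏ k, ∫ s in S k, f k s := by
  rw [← (PiLp.volume_preserving_toLp (Fin d)).setIntegral_preimage_emb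
    (MeasurableEquiv.toLp 2 _).measurableEmbedding, r5_pre, volume_pi, Measure.restrict_pi_pi]
  exact integral_fintype_prod_eq_prod f

theorem volume_box (S : Fin d → Set ℝ) (hS : ∀ k, MeasurableSet (S k)) :
    volume {x : E d | ∀ k, x k ∈ S k} = ∏ k, volume (S k) := by
  rw [← (PiLp.volume_preserving_toLp (Fin d)).measure_preimage_emb
    (MeasurableEquiv.toLp 2 _).measurableEmbedding, r5_pre, volume_pi_pi]

theorem measurableSet_box (S : Fin d → Set ℝ) (hS : ∀ k, MeasurableSet (S k)) :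
    MeasurableSet {x : E d | ∀ k, x k ∈ S k} := by
  have e : {x : E d | ∀ k, x k ∈ S k} = ⋂ k, (fun s : E d => s k) ⁻¹' S k := by
    ext s
    simp
  rw [e]
  exact MeasurableSet.iInter fun k => (hS k).preimage (by fun_prop)

theorem norm_le_of_coord {s : E d} {h : ℝ} (hs : ∀ k, |s k| ≤ h) : ‖s‖ ≤ d * h := by
  have h1 : ‖s‖ ^ 2 ≤ (∑ k, |s k|) ^ 2 := by
    rw [EuclideanSpace.real_norm_sq_eq]
    refine le_trans (le_of_eq ?_) (Finset.sum_sq_le_sq_sum_of_nonneg fun k _ => abs_nonneg (s k))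
    simp only [sq_abs]
  have h2 : ∑ k, |s k| ≤ d * h := by
    refine (Finset.sum_le_sum fun k _ => hs k).trans (le_of_eq ?_)
    simp
  exact (abs_le_of_sq_le_sq' h1 (Finset.sum_nonneg fun k _ => abs_nonneg _)).2.trans h2

theorem ec_sum (a : Fin d → ℝ) : ec (∑ k, a k) = ∏ k, ec (a k) := by
  induction (Finset.univ : Finset (Fin d)) using Finset.induction_on with
  | empty => simp [LT.ec_zero]
  | insert k s hk ih => rw [Finset.sum_insert hk, Finset.prod_insert hk, LT.ec_add, ih]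

theorem measurableSet_cube (h : ℝ) : MeasurableSet (cube d h) :=
  measurableSet_box (fun _ => Set.Ico 0 h) fun _ => measurableSet_Ico

theorem volume_cube {h : ℝ} (hh : 0 < h) : volume (cube d h) = ENNReal.ofReal (h ^ d) := by
  have := volume_box (d := d) (fun _ => Set.Ico 0 h) fun _ => measurableSet_Ico
  rw [cube, this, ENNReal.ofReal_pow hh.le]
  simp

theorem real_cube {h : ℝ} (hh : 0 < h) : (volume : Measure (E d)).real (cube d h) = h ^ d := by
  rw [Measure.real, volume_cube hh, ENNReal.toReal_ofReal (by positivity)]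

theorem norm_le_of_mem_cube {h : ℝ} {s : E d} (hs : s ∈ cube d h) : ‖s‖ ≤ d * h :=
  norm_le_of_coord fun k => by
    rw [abs_of_nonneg (hs k).1]
    exact (hs k).2.le

theorem lat_disjoint {h : ℝ} (hh : 0 < h) {n : ℕ} (i j : Fin d → Fin n) (hij : i ≠ j) :
    ∀ s ∈ cube d h, ∀ s' ∈ cube d h, lat h i + s ≠ lat h j + s' := by
  intro s hs s' hs' e
  refine hij (funext fun k => Fin.ext ?_)
  have e1 : h * ((i k : ℕ) : ℝ) + s k = h * ((j k : ℕ) : ℝ) + s' k :=
    congrArg (fun v : E d => v k) e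
  obtain ⟨a1, a2⟩ := hs k
  obtain ⟨b1, b2⟩ := hs' k
  have c1 : ((i k : ℕ) : ℝ) < (j k : ℕ) + 1 := lt_of_mul_lt_mul_left (by linarith) hh.le
  have c2 : ((j k : ℕ) : ℝ) < (i k : ℕ) + 1 := lt_of_mul_lt_mul_left (by linarith) hh.le
  have d1 : (i k : ℕ) < (j k : ℕ) + 1 := by exact_mod_cast c1
  have d2 : (j k : ℕ) < (i k : ℕ) + 1 := by exact_mod_cast c2
  omega

theorem r5_cell (h : ℝ) :
    cell d h = {x : E d | ∀ k, x k ∈ Set.Ioo (-(1 / (2 * h))) (1 / (2 * h))} := by
  simp only [cell, abs_lt, Set.mem_Ioo]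

theorem measurableSet_cell (h : ℝ) : MeasurableSet (cell d h) := by
  rw [r5_cell]
  exact measurableSet_box _ fun _ => measurableSet_Ioo

theorem volume_cell_ne_top (h : ℝ) : volume (cell d h) ≠ ∞ := by
  rw [r5_cell, volume_box _ fun _ => measurableSet_Ioo]
  exact ENNReal.prod_ne_top fun _ _ => measure_Ioo_lt_top.ne

theorem r5_prod (h : ℝ) {n : ℕ} (i j : Fin d → Fin n) (x : E d) :
    ec (-⟪lat h i, x⟫) * conj (ec (-⟪lat h j, x⟫)) =
      ∏ k, ec (h * (((j k : ℕ) : ℤ) - ((i k : ℕ) : ℤ) : ℤ) * x k) := by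
  rw [← LT.ec_neg, ← LT.ec_add, ← ec_sum, neg_neg, neg_add_eq_sub, ← inner_sub_left,
    PiLp.inner_apply]
  congr 1
  refine Finset.sum_congr rfl fun k _ => ?_
  simp only [lat, PiLp.sub_apply, RCLike.inner_apply, conj_trivial]
  push_cast
  ring

theorem cell_frame {h : ℝ} (hh : 0 < h) {n : ℕ} (c : (Fin d → Fin n) → ℂ) :
    h ^ d * ∫ x in cell d h, ‖∑ i, conj (c i) * ec (-⟪lat h i, x⟫)‖ ^ 2 ≤ ∑ i, ‖c i‖ ^ 2 := by
  have hi : ∀ i j : Fin d → Fin n, IntegrableOn (fun x : E d => conj (c i) * c j *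
      ∏ k, ec (h * (((j k : ℕ) : ℤ) - ((i k : ℕ) : ℤ) : ℤ) * x k)) (cell d h) := fun i j =>
    Measure.integrableOn_of_bounded (M := ‖c i‖ * ‖c j‖) (volume_cell_ne_top h)
      (Continuous.aestronglyMeasurable (by fun_prop))
      (ae_of_all _ fun x => by simp [LT.norm_ec])
  have e : ∀ x : E d, ((‖∑ i, conj (c i) * ec (-⟪lat h i, x⟫)‖ ^ 2 : ℝ) : ℂ) = ∑ i, ∑ j,
      conj (c i) * c j * ∏ k, ec (h * (((j k : ℕ) : ℤ) - ((i k : ℕ) : ℤ) : ℤ) * x k) := by
    intro x
    rw [Complex.ofReal_pow, ← Complex.mul_conj', map_sum, Finset.sum_mul_sum]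
    refine Finset.sum_congr rfl fun i _ => Finset.sum_congr rfl fun j _ => ?_
    rw [← r5_prod, map_mul, Complex.conj_conj]
    ring
  have e2 : ∀ i j : Fin d → Fin n, ∫ x in cell d h, conj (c i) * c j *
      ∏ k, ec (h * (((j k : ℕ) : ℤ) - ((i k : ℕ) : ℤ) : ℤ) * x k) =
        if i = j then ((‖c i‖ ^ 2 / h ^ d : ℝ) : ℂ) else 0 := by
    intro i j
    rw [integral_const_mul, r5_cell, integral_box _ (fun _ => measurableSet_Ioo)
      fun k s => ec (h * (((j k : ℕ) : ℤ) - ((i k : ℕ) : ℤ) : ℤ) * s)]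
    simp only [LT.integral_ec_int hh]
    split_ifs with hij
    · subst hij
      rw [Complex.conj_mul']
      simp [div_eq_mul_inv]
    · obtain ⟨k, hk⟩ := Function.ne_iff.1 hij
      rw [Finset.prod_eq_zero (Finset.mem_univ k) (if_neg fun q => hk (Fin.ext (by omega))),
        mul_zero]
  refine le_of_eq (Complex.ofReal_injective ?_)
  rw [Complex.ofReal_mul, ← integral_complex_ofReal]
  simp only [e]
  rw [integral_finsetSum _ fun i _ => integrable_finsetSum _ fun j _ => hi i j,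
    Finset.sum_congr rfl fun i _ => integral_finsetSum _ fun j _ => hi i j]
  simp only [e2, Finset.sum_ite_eq, Finset.mem_univ, if_true]
  rw [← Complex.ofReal_sum, ← Complex.ofReal_mul, ← Finset.sum_div,
    mul_div_cancel₀ _ (pow_pos hh d).ne']

theorem le_norm_ww {h : ℝ} (hh : 0 < h) (z : E d) :
    h ^ d * (1 - 2 * Real.pi * (d * h) * ‖z‖) ≤ ‖ww (cube d h) z‖ := by
  have lt : (volume : Measure (E d)) (cube d h) < ∞ := by
    rw [volume_cube hh]
    exact ENNReal.ofReal_lt_top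
  have b := norm_setIntegral_le_of_norm_le_const (f := fun s : E d => ec (-⟪s, z⟫) - 1)
    (C := 2 * Real.pi * (d * h) * ‖z‖) lt fun s hs => by
      refine (LT.g3_ec _).trans ?_
      have h1 : |⟪s, z⟫| ≤ d * h * ‖z‖ := (abs_real_inner_le_norm s z).trans
        (mul_le_mul_of_nonneg_right (norm_le_of_mem_cube hs) (norm_nonneg _))
      rw [abs_neg, mul_assoc (2 * Real.pi)]
      exact mul_le_mul_of_nonneg_left h1 Real.two_pi_pos.le
  have i1 : IntegrableOn (fun _ : E d => (1 : ℂ)) (cube d h) := integrableOn_const lt.ne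
  have c : Continuous fun s : E d => ec (-⟪s, z⟫) := by fun_prop
  have i2 : IntegrableOn (fun s : E d => ec (-⟪s, z⟫)) (cube d h) :=
    Measure.integrableOn_of_bounded lt.ne c.aestronglyMeasurable (M := 1)
      (Filter.Eventually.of_forall fun s => (LT.norm_ec _).le)
  rw [integral_sub i2 i1, setIntegral_const, real_cube hh] at b
  have t := norm_sub_norm_le ((h ^ d : ℝ) • (1 : ℂ)) (ww (cube d h) z)
  rw [norm_sub_rev, norm_smul, norm_one, Real.norm_of_nonneg (by positivity)] at t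
  rw [← ww] at b
  linarith

end Pool.Agent.P.MP_9f4f5e_mp.RL
end
end

-- part Pool.Agent.P.MP_9f4f5e_mp.RL.R6
section

set_option linter.unusedSectionVars false
set_option linter.unusedVariables false

open MeasureTheory Matrix
open scoped ENNReal ComplexOrder ComplexConjugate FourierTransform RealInnerProductSpace
open Pool.Agent.P.MP_9f4f5e_mp.LT (tp pp dg qf ec fej Spec)

noncomputable section

namespace Pool.Agent.P.MP_9f4f5e_mp.RL

variable {d : ℕ} {ι κ : Type} [Fintype ι] [DecidableEq ι] [Fintype κ]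

theorem ker_nonneg (n : ℕ) {h : ℝ} (hh : 0 < h) (y : E d) : 0 ≤ ker n h y := by
  unfold ker
  exact mul_nonneg (by positivity) (Finset.prod_nonneg fun k _ => LT.fej_nonneg _ _)

theorem ker_le (n : ℕ) {h : ℝ} (hh : 0 < h) (y : E d) : ker n h y ≤ h ^ d * n ^ d := by
  unfold ker
  refine mul_le_mul_of_nonneg_left ?_ (by positivity)
  calc ∏ k, fej n (h * y k) ≤ ∏ _k : Fin d, (n : ℝ) :=
        Finset.prod_le_prod (fun k _ => LT.fej_nonneg _ _) (fun k _ => LT.fej_le _ _)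
    _ = (n : ℝ) ^ d := by simp

theorem continuous_ker (n : ℕ) (h : ℝ) : Continuous (ker n h : E d → ℝ) := by
  unfold ker
  fun_prop

theorem integral_ker_box (n : ℕ) {h δ : ℝ} (hh : 0 < h) (hδ : 0 < δ) :
    ∫ y in {y : E d | ∀ k, y k ∈ Set.Ioo (-δ) δ}, ker n h y
      = (∫ s in Set.Ioo (-(h * δ)) (h * δ), fej n s) ^ d := by
  have h1 : ∀ y : E d, ker n h y = ∏ k : Fin d, (h * fej n (h * y k)) := by
    intro y
    unfold ker
    rw [Finset.prod_mul_distrib]
    simp
  simp_rw [h1]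
  rw [integral_box (𝕜 := ℝ) (fun _ => Set.Ioo (-δ) δ) (fun _ => measurableSet_Ioo)
    (fun _ s => h * fej n (h * s))]
  have hδ2 : 0 < h * δ := mul_pos hh hδ
  have h2 : ∫ s in Set.Ioo (-δ) δ, h * fej n (h * s)
      = ∫ s in Set.Ioo (-(h * δ)) (h * δ), fej n s := by
    rw [← integral_Ioc_eq_integral_Ioo, ← integral_Ioc_eq_integral_Ioo,
      ← intervalIntegral.integral_of_le (by linarith),
      ← intervalIntegral.integral_of_le (by linarith), intervalIntegral.integral_const_mul,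
      intervalIntegral.mul_integral_comp_mul_left, mul_neg]
  simp only [h2, Finset.prod_const, Finset.card_univ, Fintype.card_fin]

theorem dirichlet_eq (h : ℝ) {n : ℕ} (hn : 0 < n) (y : E d) :
    (h : ℂ) ^ d * ∑ i : Fin d → Fin n, ∑ j : Fin d → Fin n, ec ⟪lat h i - lat h j, y⟫
      = ((n ^ d * ker n h y : ℝ) : ℂ) := by
  have e1 : ∀ i : Fin d → Fin n, ec ⟪lat h i, y⟫ = ∏ k, ec (((i k : ℕ) : ℝ) * (h * y k)) := by
    intro i
    rw [← ec_sum, PiLp.inner_apply]
    congr 1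
    refine Finset.sum_congr rfl fun k _ => ?_
    simp only [lat, RCLike.inner_apply, conj_trivial]
    ring
  have e2 : ∑ i : Fin d → Fin n, ec ⟪lat h i, y⟫ =
      ∏ k, ∑ j : Fin n, ec (((j : ℕ) : ℝ) * (h * y k)) := by
    rw [Finset.prod_univ_sum, Fintype.piFinset_univ]
    exact Finset.sum_congr rfl fun i _ => e1 i
  have e3 : ∑ i : Fin d → Fin n, ∑ j : Fin d → Fin n, ec ⟪lat h i - lat h j, y⟫ =
      (∑ i : Fin d → Fin n, ec ⟪lat h i, y⟫) * conj (∑ i : Fin d → Fin n, ec ⟪lat h i, y⟫) := by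
    rw [map_sum, Finset.sum_mul_sum]
    refine Finset.sum_congr rfl fun i _ => Finset.sum_congr rfl fun j _ => ?_
    rw [inner_sub_left, sub_eq_add_neg, LT.ec_add, LT.ec_neg]
  have hn' : (n : ℝ) ≠ 0 := by positivity
  have e4 : ∀ s : ℝ, ‖∑ j : Fin n, ec (((j : ℕ) : ℝ) * s)‖ ^ 2 = n * fej n s := by
    intro s
    unfold fej
    rw [mul_div_cancel₀ _ hn']
  have e5 : (∏ k, ‖∑ j : Fin n, ec (((j : ℕ) : ℝ) * (h * y k))‖) ^ 2
      = n ^ d * ∏ k, fej n (h * y k) := by
    rw [← Finset.prod_pow, Finset.prod_congr rfl fun k _ => e4 (h * y k), Finset.prod_mul_distrib,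
      Finset.prod_const, Finset.card_univ, Fintype.card_fin]
  rw [e3, Complex.mul_conj', e2, norm_prod, ker, ← Complex.ofReal_pow, ← Complex.ofReal_pow, e5,
    ← Complex.ofReal_mul, mul_left_comm]

theorem r6_measurable_ec (a : E d) : Measurable fun x : E d => ec ⟪a, x⟫ :=
  (LT.continuous_ec.comp (continuous_const.inner continuous_id)).measurable

theorem r6_measurable_ec_neg (a : E d) : Measurable fun x : E d => ec (-⟪a, x⟫) :=
  (LT.continuous_ec.comp (continuous_const.inner continuous_id).neg).measurable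

theorem r6_integrable_mul {A : E d → ℝ} (hA : Integrable A) {e : E d → ℂ} (he : Measurable e)
    (he1 : ∀ x, ‖e x‖ = 1) : Integrable fun x => (A x : ℂ) * e x :=
  hA.ofReal.mul_bdd (c := 1) he.aestronglyMeasurable
    (Filter.Eventually.of_forall fun x => (he1 x).le)

theorem r6_inner {h : ℝ} {n : ℕ} (hn : 0 < n) {V : E d → ℝ} (hi : Integrable V) (z : E d) :
    ∑ i : Fin d → Fin n, ∑ j : Fin d → Fin n, ec (-⟪lat h i - lat h j, z⟫)
        * ((h : ℂ) ^ d * ∫ x, (V x : ℂ) * ec ⟪lat h i - lat h j, x⟫)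
      = ((n ^ d * ∫ x, V x * ker n h (x - z) : ℝ) : ℂ) := by
  have h1 : ∀ i j : Fin d → Fin n, ec (-⟪lat h i - lat h j, z⟫)
        * ((h : ℂ) ^ d * ∫ x, (V x : ℂ) * ec ⟪lat h i - lat h j, x⟫)
      = ∫ x, (h : ℂ) ^ d * ((V x : ℂ) * ec ⟪lat h i - lat h j, x - z⟫) := by
    intro i j
    rw [← integral_const_mul, ← integral_const_mul]
    refine integral_congr_ae (Filter.Eventually.of_forall fun x => ?_)
    simp only
    rw [inner_sub_right (lat h i - lat h j) x z, sub_eq_add_neg (⟪lat h i - lat h j, x⟫),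
      LT.ec_add]
    ring
  have h2 : ∀ i j : Fin d → Fin n, Integrable
      fun x => (h : ℂ) ^ d * ((V x : ℂ) * ec ⟪lat h i - lat h j, x - z⟫) := by
    intro i j
    refine Integrable.const_mul ?_ _
    exact r6_integrable_mul hi
      ((r6_measurable_ec _).comp (measurable_id.sub_const z)) fun x => LT.norm_ec _
  simp only [h1]
  rw [← integral_const_mul, ← integral_complex_ofReal]
  rw [Finset.sum_congr rfl fun i _ => (integral_finsetSum Finset.univ fun j _ => h2 i j).symm,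
    ← integral_finsetSum Finset.univ
      fun i _ => integrable_finsetSum Finset.univ fun j _ => h2 i j]
  refine integral_congr_ae (Filter.Eventually.of_forall fun x => ?_)
  have h3 := dirichlet_eq h hn (x - z)
  simp only [← Finset.mul_sum]
  rw [mul_left_comm, h3]
  push_cast
  ring

theorem double_sum {h : ℝ} {n : ℕ} (hn : 0 < n) {V : E d → ℝ} (hi : Integrable V) {A : E d → ℝ}
    (hA : Integrable A) :
    ∑ i : Fin d → Fin n, ∑ j : Fin d → Fin n, (∫ z, (A z : ℂ) * ec (-⟪lat h i - lat h j, z⟫))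
        * ((h : ℂ) ^ d * ∫ x, (V x : ℂ) * ec ⟪lat h i - lat h j, x⟫)
      = ((n ^ d * ∫ z, A z * ∫ x, V x * ker n h (x - z) : ℝ) : ℂ) := by
  have h2 : ∀ i j : Fin d → Fin n, Integrable
      fun z => (A z : ℂ) * ec (-⟪lat h i - lat h j, z⟫)
        * ((h : ℂ) ^ d * ∫ x, (V x : ℂ) * ec ⟪lat h i - lat h j, x⟫) := by
    intro i j
    exact (r6_integrable_mul hA (r6_measurable_ec_neg _) fun x => LT.norm_ec _).mul_const _
  simp only [← integral_mul_const]
  rw [← integral_const_mul, ← integral_complex_ofReal]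
  rw [Finset.sum_congr rfl fun i _ => (integral_finsetSum Finset.univ fun j _ => h2 i j).symm,
    ← integral_finsetSum Finset.univ
      fun i _ => integrable_finsetSum Finset.univ fun j _ => h2 i j]
  refine integral_congr_ae (Filter.Eventually.of_forall fun z => ?_)
  have h3 := r6_inner (h := h) hn hi z
  simp only [mul_assoc (A z : ℂ), ← Finset.mul_sum]
  rw [h3]
  push_cast
  ring

theorem cell_entry {h : ℝ} (hh : 0 < h) {V : E d → ℝ} (hs : ∀ x, x ∉ cell d h → V x = 0)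
    (a b : E d) :
    ∫ x, (V x : ℂ) * (ec (-⟪b, x⟫) * conj (ec (-⟪a, x⟫)))
        ∂(ENNReal.ofReal (h ^ d) • (volume : Measure (E d)).restrict (cell d h))
      = (h : ℂ) ^ d * ∫ x, (V x : ℂ) * ec ⟪a - b, x⟫ := by
  rw [integral_smul_measure, ENNReal.toReal_ofReal (by positivity),
    setIntegral_eq_integral_of_forall_compl_eq_zero (fun x hx => by simp [hs x hx]),
    Complex.real_smul, Complex.ofReal_pow]
  congr 1
  refine integral_congr_ae (Filter.Eventually.of_forall fun x => ?_)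
  simp only
  rw [← LT.ec_neg, neg_neg, ← LT.ec_add, inner_sub_left]
  congr 2
  ring

end Pool.Agent.P.MP_9f4f5e_mp.RL
end
end

-- part Pool.Agent.P.MP_9f4f5e_mp.RL.R7
section

set_option linter.unusedSectionVars false
set_option linter.unusedVariables false

open MeasureTheory Matrix
open scoped ENNReal ComplexOrder ComplexConjugate FourierTransform RealInnerProductSpace
open Pool.Agent.P.MP_9f4f5e_mp.LT (tp pp dg qf ec fej Spec)

noncomputable section

namespace Pool.Agent.P.MP_9f4f5e_mp.RL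

variable {d : ℕ} {ι κ : Type} [Fintype ι] [DecidableEq ι] [Fintype κ]

theorem r7_ofReal {X : Type} [MeasurableSpace X] (μ : Measure X) {f : X → ℝ}
    (h0 : ∀ x, 0 ≤ f x) : ENNReal.ofReal (∫ x, f x ∂μ) ≤ ∫⁻ x, ENNReal.ofReal (f x) ∂μ := by
  by_cases hf : Integrable f μ
  · exact (ofReal_integral_eq_lintegral_ofReal hf (Filter.Eventually.of_forall h0)).le
  · rw [integral_undef hf, ENNReal.ofReal_zero]
    exact zero_le

theorem r7_max (y : ℝ) : ENNReal.ofReal (max y 0 ^ 3) = ENNReal.ofReal y ^ 3 := by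
  rw [ENNReal.ofReal_pow (le_max_right _ _)]
  rcases le_total y 0 with h | h
  · rw [max_eq_right h, ENNReal.ofReal_of_nonpos h, ENNReal.ofReal_zero]
  · rw [max_eq_left h]

theorem r7_pt (h : ℝ) (V : E d → ℝ) (k : ℝ) :
    ENNReal.ofReal (∫ x, max (V x - k) 0 ^ 3
        ∂(ENNReal.ofReal (h ^ d) • (volume : Measure (E d)).restrict (cell d h)))
      ≤ ENNReal.ofReal (h ^ d) * ∫⁻ x, ENNReal.ofReal (V x - k) ^ 3 := by
  refine (r7_ofReal _ fun x => pow_nonneg (le_max_right _ _) 3).trans ?_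
  simp only [r7_max]
  rw [lintegral_smul_measure, smul_eq_mul]
  exact mul_le_mul_right (lintegral_mono' Measure.restrict_le_self le_rfl) _

theorem fixed_level {u : κ → L2 d} (hu : Orthonormal ℂ u) {m : ℝ} (hm : 0 ≤ m)
    (hT : ∀ k, Integrable fun ξ => sym m ξ * ‖fn (ft (u k)) ξ‖ ^ 2) {h : ℝ} (hh : 0 < h) {n : ℕ}
    (hn : 0 < n) {V : E d → ℝ} (hV : Measurable V) {M : ℝ} (h0 : ∀ x, 0 ≤ V x)
    (hM : ∀ x, V x ≤ M) (hs : ∀ x, x ∉ cell d h → V x = 0) (c : κ → ℝ) (hc : ∀ k, 0 ≤ c k)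
    {B : ℝ} (hB0 : 0 ≤ B) (hB : ph3 m V ≤ ENNReal.ofReal B) :
    ∑ k, (3 * c k ^ 2 * ((∫ z, ‖fn (u k) z‖ ^ 2 * ‖ww (cube d h) z‖ ^ 2 / (h ^ d) ^ 2
        * ∫ x, V x * ker n h (x - z)) - tk m (u k) - 2 * Real.pi * (d * h)) - 2 * c k ^ 3)
      ≤ B := by
  have hi : Integrable V := by
    have h1 : IntegrableOn V (cell d h) volume :=
      Measure.integrableOn_of_bounded (volume_cell_ne_top h) hV.aestronglyMeasurable
        (M := M) (Filter.Eventually.of_forall fun x => by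
          rw [Real.norm_eq_abs, abs_of_nonneg (h0 x)]
          exact hM x)
    exact h1.integrable_of_forall_notMem_eq_zero hs
  have hn' : (0 : ℝ) < n := by positivity
  have hp : 0 < h ^ d := by positivity
  have : IsFiniteMeasure ((volume : Measure (E d)).restrict (cell d h)) :=
    isFiniteMeasure_restrict.2 (volume_cell_ne_top h)
  have : IsFiniteMeasure (ENNReal.ofReal (h ^ d) • (volume : Measure (E d)).restrict (cell d h)) :=
    Measure.smul_finite _ ENNReal.ofReal_ne_top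
  obtain ⟨hW, hBL⟩ := berezin3 (ι := Fin d → Fin n)
    (ENNReal.ofReal (h ^ d) • (volume : Measure (E d)).restrict (cell d h))
    (e := fun x i => ec (-⟪lat h i, x⟫))
    (fun i => Continuous.measurable (by fun_prop))
    (fun x i => (LT.norm_ec _).le)
    (fun c => by
      rw [integral_smul_measure, ENNReal.toReal_ofReal hp.le, smul_eq_mul]
      exact cell_frame hh c) hV h0 hM
  have hQ : volume (cube d h) ≠ ∞ := by
    rw [volume_cube hh]
    exact ENNReal.ofReal_ne_top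
  have hF := finite_level hu hm hT (measurableSet_cube h) hQ (r := d * h) (by positivity)
    (fun s hs => norm_le_of_mem_cube hs) (lat h) (lat_disjoint hh) hW c hc
  have hcard : (Fintype.card (Fin d → Fin n) : ℝ) = n ^ d := by simp
  have hR := r7_ofReal volume fun t : E d =>
    LT.tp_nonneg (hW.sub (LT.dg_isHermitian fun _ => sym m t)) 3
  have hR2 := hR.trans (lintegral_mono fun t =>
    (ENNReal.ofReal_le_ofReal (hBL _ (sym_nonneg m t))).trans
      ((ENNReal.ofReal_mul (Nat.cast_nonneg _)).trans_le (mul_le_mul_right (r7_pt h V _) _)))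
  rw [lintegral_const_mul' _ _ ENNReal.ofReal_ne_top,
    lintegral_const_mul' _ _ ENNReal.ofReal_ne_top] at hR2
  have hR3 := hR2.trans (mul_le_mul_right (mul_le_mul_right hB _) _)
  rw [← ENNReal.ofReal_mul hp.le, ← ENNReal.ofReal_mul (Nat.cast_nonneg _),
    ENNReal.ofReal_le_ofReal_iff (by positivity), hcard] at hR3
  have hF2 := hF.trans (mul_le_mul_of_nonneg_left hR3 measureReal_nonneg)
  have hA : ∀ k, Integrable fun z => ‖fn (u k) z‖ ^ 2 * ‖ww (cube d h) z‖ ^ 2 := fun k =>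
    (fn_sq (u k)).1.mul_bdd (c := volume.real (cube d h) ^ 2)
      ((measurable_ww _).norm.pow_const 2).aestronglyMeasurable
      (Filter.Eventually.of_forall fun z => by
        rw [Real.norm_eq_abs, abs_of_nonneg (by positivity)]
        exact pow_le_pow_left₀ (norm_nonneg _) (norm_ww_le hQ z) 2)
  simp only [Matrix.of_apply, cell_entry hh hs] at hF2
  simp only [double_sum hn hi (hA _), Complex.ofReal_re, hcard, real_cube hh] at hF2
  have heq : ∀ k, (∫ z, ‖fn (u k) z‖ ^ 2 * ‖ww (cube d h) z‖ ^ 2 / (h ^ d) ^ 2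
        * ∫ x, V x * ker n h (x - z)) = ((h ^ d) ^ 2)⁻¹ *
      ∫ z, ‖fn (u k) z‖ ^ 2 * ‖ww (cube d h) z‖ ^ 2 * ∫ x, V x * ker n h (x - z) := by
    intro k
    rw [← integral_const_mul]
    refine integral_congr_ae (Filter.Eventually.of_forall fun z => ?_)
    simp only
    ring
  simp only [heq]
  refine le_of_mul_le_mul_left ?_ (mul_pos (pow_pos hn' d) (pow_pos hp 2))
  rw [Finset.mul_sum]
  refine le_trans (le_of_eq (Finset.sum_congr rfl fun k _ => ?_)) (hF2.trans (le_of_eq ?_))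
  · field_simp
    ring
  · ring

end Pool.Agent.P.MP_9f4f5e_mp.RL
end
end

-- part Pool.Agent.P.MP_9f4f5e_mp.RL.R8
section

set_option linter.unusedSectionVars false
set_option linter.unusedVariables false

open MeasureTheory Matrix
open scoped ENNReal ComplexOrder ComplexConjugate FourierTransform RealInnerProductSpace
open Pool.Agent.P.MP_9f4f5e_mp.LT (tp pp dg qf ec fej Spec)

noncomputable section

namespace Pool.Agent.P.MP_9f4f5e_mp.RL

variable {d : ℕ} {ι κ : Type} [Fintype ι] [DecidableEq ι] [Fintype κ]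

theorem r8_cont {V : E d → ℝ} (hV : Measurable V) {M : ℝ} (hM : ∀ x, |V x| ≤ M) :
    Continuous fun f : Lp ℝ 1 (volume : Measure (E d)) => ∫ z, f z * V z := by
  have hM0 : 0 ≤ M := (abs_nonneg _).trans (hM 0)
  have hI : ∀ f : Lp ℝ 1 (volume : Measure (E d)), Integrable fun z => f z * V z := fun f =>
    (L1.integrable_coeFn f).mul_bdd hV.aestronglyMeasurable (Filter.Eventually.of_forall hM)
  refine (LipschitzWith.of_dist_le_mul (K := NNReal.mk M hM0) fun f g => ?_).continuous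
  have hd : Integrable fun z => dist (f z) (g z) := by
    simp only [dist_eq_norm]
    exact ((L1.integrable_coeFn f).sub (L1.integrable_coeFn g)).norm
  rw [L1.dist_eq_integral_dist, dist_eq_norm, ← integral_sub (hI f) (hI g), NNReal.coe_mk,
    ← integral_const_mul]
  refine norm_integral_le_of_norm_le (hd.const_mul M) (Filter.Eventually.of_forall fun z => ?_)
  rw [← sub_mul, norm_mul, dist_eq_norm, mul_comm]
  exact mul_le_mul_of_nonneg_right (hM z) (norm_nonneg _)

theorem continuous_pair {A V : E d → ℝ} (hA : Integrable A) (hV : Measurable V) {M : ℝ}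
    (hM : ∀ x, |V x| ≤ M) : Continuous fun y => ∫ z, A z * V (z + y) := by
  let g : E d → C(E d, E d) := fun y => ⟨fun z => z - y, by fun_prop⟩
  have hg : Continuous g := ContinuousMap.continuous_of_continuous_uncurry _ (by
    show Continuous fun p : E d × E d => p.2 - p.1
    fun_prop)
  have hgm : ∀ y, MeasurePreserving (g y) volume volume := fun y =>
    measurePreserving_sub_right volume y
  have hc := (r8_cont hV hM).comp (Continuous.compMeasurePreservingLp
    (f := fun _ : E d => hA.toL1 A) continuous_const hg hgm ENNReal.one_ne_top)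
  refine hc.congr fun y => ?_
  have h1 := Lp.coeFn_compMeasurePreserving (hA.toL1 A) (hgm y)
  have h2 := (hgm y).quasiMeasurePreserving.ae_eq_comp hA.coeFn_toL1
  calc _ = ∫ z, A (z - y) * V z := by
        refine integral_congr_ae ?_
        filter_upwards [h1, h2] with z e1 e2
        rw [e1, e2]
        rfl
    _ = ∫ z, A z * V (z + y) := by
        rw [← integral_add_right_eq_self (fun z => A (z - y) * V z) y]
        simp only [add_sub_cancel_right]

theorem r8_lower {A V : E d → ℝ} (hA : Integrable A) (hA0 : ∀ z, 0 ≤ A z)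
    (hi : Integrable V) (h0 : ∀ x, 0 ≤ V x) {h : ℝ} (hh : 0 < h) (n : ℕ) {δ c : ℝ} (hδ : 0 < δ)
    (hc : ∀ y : E d, (∀ k, y k ∈ Set.Ioo (-δ) δ) → c ≤ ∫ z, A z * V (z + y)) :
    c * (∫ s in Set.Ioo (-(h * δ)) (h * δ), fej n s) ^ d
      ≤ ∫ z, A z * ∫ x, V x * ker n h (x - z) := by
  have hK0 : ∀ y : E d, 0 ≤ ker n h y := ker_nonneg n hh
  have hKc := continuous_ker (d := d) n h
  have hKb : ∀ y : E d, ‖ker n h y‖ ≤ h ^ d * n ^ d := fun y => by
    rw [Real.norm_of_nonneg (hK0 y)]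
    exact ker_le n hh y
  have hB := measurableSet_box (fun _ : Fin d => Set.Ioo (-δ) δ) fun _ => measurableSet_Ioo
  have hfin : volume {y : E d | ∀ k, y k ∈ Set.Ioo (-δ) δ} ≠ ∞ := by
    rw [volume_box (fun _ : Fin d => Set.Ioo (-δ) δ) fun _ => measurableSet_Ioo]
    exact ENNReal.prod_ne_top fun _ _ => measure_Ioo_lt_top.ne
  have hK : IntegrableOn (ker n h) {y : E d | ∀ k, y k ∈ Set.Ioo (-δ) δ} :=
    Measure.integrableOn_of_bounded hfin hKc.aestronglyMeasurable
      (Filter.Eventually.of_forall hKb)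
  have hG0 : Integrable (fun p : E d × E d => A p.1 * V (p.1 + p.2)) (volume.prod volume) :=
    (measurePreserving_prod_add volume volume).integrable_comp_of_integrable (hA.mul_prod hi)
  have hG : Integrable (fun p : E d × E d => A p.1 * V (p.1 + p.2) * ker n h p.2)
      (volume.prod volume) :=
    hG0.mul_bdd (hKc.comp continuous_snd).aestronglyMeasurable
      (Filter.Eventually.of_forall fun p => hKb p.2)
  have e1 : ∀ z, A z * ∫ x, V x * ker n h (x - z)
      = ∫ y, A z * V (z + y) * ker n h y := fun z => by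
    rw [← integral_add_left_eq_self (fun x => V x * ker n h (x - z)) z, ← integral_const_mul]
    simp only [add_sub_cancel_left, mul_assoc]
  have e2 : ∫ z, ∫ y, A z * V (z + y) * ker n h y
      = ∫ y, ∫ z, A z * V (z + y) * ker n h y := integral_integral_swap hG
  have hI : Integrable fun y => ∫ z, A z * V (z + y) * ker n h y := hG.integral_prod_right
  simp_rw [e1]
  rw [e2, ← integral_ker_box n hh hδ, ← integral_const_mul]
  refine le_trans (setIntegral_mono_on (hK.const_mul c) hI.integrableOn hB fun y hy => ?_)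
    (setIntegral_le_integral hI (Filter.Eventually.of_forall fun y => ?_))
  · rw [integral_mul_const]
    exact mul_le_mul_of_nonneg_right (hc y hy) (hK0 y)
  · exact integral_nonneg fun z => mul_nonneg (mul_nonneg (hA0 z) (h0 _)) (hK0 y)

theorem fej_limit {A V : E d → ℝ} (hA : Integrable A) (hA0 : ∀ z, 0 ≤ A z) (hV : Measurable V)
    (hi : Integrable V) {M : ℝ} (h0 : ∀ x, 0 ≤ V x) (hM : ∀ x, V x ≤ M) {h : ℝ} (hh : 0 < h)
    {η : ℝ} (hη : 0 < η) :
    ∀ᶠ n : ℕ in Filter.atTop,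
      (∫ z, A z * V z) - η ≤ ∫ z, A z * ∫ x, V x * ker n h (x - z) := by
  have hF := continuous_pair hA hV (M := M) fun x => by rw [abs_of_nonneg (h0 x)]; exact hM x
  obtain ⟨c, hc⟩ : ∃ c, c = (∫ z, A z * V z) - η / 2 := ⟨_, rfl⟩
  rcases lt_or_ge c 0 with hc0 | hc0
  · refine Filter.Eventually.of_forall fun m => ?_
    have : 0 ≤ ∫ z, A z * ∫ x, V x * ker m h (x - z) :=
      integral_nonneg fun z => mul_nonneg (hA0 z) (integral_nonneg fun x =>
        mul_nonneg (h0 x) (ker_nonneg _ hh _))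
    linarith
  have hlt : c < (fun y => ∫ z, A z * V (z + y)) 0 := by
    simp only [add_zero]
    linarith
  obtain ⟨ε, hε, hball⟩ := Metric.eventually_nhds_iff.1
    (hF.continuousAt.eventually (lt_mem_nhds hlt))
  obtain ⟨δ, hδ⟩ : ∃ δ, δ = min (ε / (d + 1)) (1 / (2 * h)) := ⟨_, rfl⟩
  have hδ0 : 0 < δ := hδ ▸ lt_min (by positivity) (by positivity)
  have hδ1 : δ * (d + 1) ≤ ε := (le_div_iff₀ (by positivity)).1 (hδ ▸ min_le_left _ _)
  have hδ2 : h * δ ≤ 1 / 2 := by
    have h1 : δ ≤ 1 / (2 * h) := hδ ▸ min_le_right _ _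
    calc h * δ ≤ h * (1 / (2 * h)) := mul_le_mul_of_nonneg_left h1 hh.le
      _ = 1 / 2 := by field_simp
  have hhδ : 0 < h * δ := mul_pos hh hδ0
  have hy : ∀ y : E d, (∀ k, y k ∈ Set.Ioo (-δ) δ) → c ≤ ∫ z, A z * V (z + y) := fun y hy => by
    refine (hball ?_).le
    rw [dist_zero_right]
    have h1 := norm_le_of_coord (s := y) fun k => (abs_lt.2 (hy k)).le
    linarith
  have hs : Filter.Tendsto (fun m : ℕ => 1 - 1 / (4 * (m : ℝ) * (h * δ) ^ 2))
      Filter.atTop (nhds 1) := by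
    have h1 : Filter.Tendsto (fun m : ℕ => 1 - (1 / (4 * (h * δ) ^ 2)) * (m : ℝ)⁻¹)
        Filter.atTop (nhds (1 - (1 / (4 * (h * δ) ^ 2)) * 0)) :=
      (tendsto_inv_atTop_nhds_zero_nat.const_mul _).const_sub _
    rw [mul_zero, sub_zero] at h1
    refine h1.congr fun m => ?_
    rw [one_div, one_div, ← mul_inv, mul_right_comm]
  have ht := (hs.pow d).const_mul c
  rw [one_pow, mul_one] at ht
  have hlt2 : (∫ z, A z * V z) - η < c := by linarith
  filter_upwards [ht.eventually (lt_mem_nhds hlt2), hs.eventually (lt_mem_nhds one_pos),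
    Filter.eventually_gt_atTop 0] with m hm1 hm3 hm2
  refine hm1.le.trans (le_trans ?_ (r8_lower hA hA0 hi h0 hh m hδ0 hy))
  exact mul_le_mul_of_nonneg_left (pow_le_pow_left₀ hm3.le (LT.fej_mass hm2 hhδ hδ2) d) hc0

end Pool.Agent.P.MP_9f4f5e_mp.RL
end
end

-- part Pool.Agent.P.MP_9f4f5e_mp.RL.R9
section

set_option linter.unusedSectionVars false
set_option linter.unusedVariables false

open MeasureTheory Matrix
open scoped ENNReal ComplexOrder ComplexConjugate FourierTransform RealInnerProductSpace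
open Pool.Agent.P.MP_9f4f5e_mp.LT (tp pp dg qf ec fej Spec)

noncomputable section

namespace Pool.Agent.P.MP_9f4f5e_mp.RL

variable {d : ℕ} {ι κ : Type} [Fintype ι] [DecidableEq ι] [Fintype κ]

theorem r9_ww_le {h : ℝ} (hh : 0 < h) (z : E d) : ‖ww (cube d h) z‖ ≤ h ^ d := by
  have := norm_ww_le (Q := cube d h) (by rw [volume_cube hh]; exact ENNReal.ofReal_ne_top) z
  rwa [real_cube hh] at this

theorem r9_ratio {v : ℕ → ℝ} (hv : ∀ j, 0 < v j)
    (hv0 : Filter.Tendsto v Filter.atTop (nhds 0)) (z : E d) :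
    Filter.Tendsto (fun j => ‖ww (cube d (v j)) z‖ ^ 2 / (v j ^ d) ^ 2) Filter.atTop (nhds 1) := by
  have h1 : Filter.Tendsto (fun j => ‖ww (cube d (v j)) z‖ / v j ^ d) Filter.atTop (nhds 1) := by
    have hlow : Filter.Tendsto (fun j => 1 - 2 * Real.pi * (d * v j) * ‖z‖) Filter.atTop
        (nhds 1) := by
      have := (((hv0.const_mul (d : ℝ)).const_mul (2 * Real.pi)).mul_const ‖z‖).const_sub 1
      simpa using this
    refine tendsto_of_tendsto_of_tendsto_of_le_of_le hlow tendsto_const_nhds (fun j => ?_)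
      (fun j => ?_)
    · have := le_norm_ww (hv j) z
      show 1 - 2 * Real.pi * (d * v j) * ‖z‖ ≤ ‖ww (cube d (v j)) z‖ / v j ^ d
      rw [le_div_iff₀ (pow_pos (hv j) d)]
      linarith
    · show ‖ww (cube d (v j)) z‖ / v j ^ d ≤ 1
      rw [div_le_one (pow_pos (hv j) d)]
      exact r9_ww_le (hv j) z
  have h2 := h1.pow 2
  rw [one_pow] at h2
  refine h2.congr fun j => ?_
  rw [div_pow]

theorem r9_ratio_le {h : ℝ} (hh : 0 < h) (z : E d) :
    ‖ww (cube d h) z‖ ^ 2 / (h ^ d) ^ 2 ≤ 1 := by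
  rw [div_le_one (by positivity)]
  exact pow_le_pow_left₀ (norm_nonneg _) (r9_ww_le hh z) 2

theorem r9_int (u : L2 d) {h : ℝ} (hh : 0 < h) :
    Integrable fun z => ‖fn u z‖ ^ 2 * ‖ww (cube d h) z‖ ^ 2 / (h ^ d) ^ 2 := by
  have h1 := (fn_sq u).1.mul_bdd (c := 1) (g := fun z => ‖ww (cube d h) z‖ ^ 2 / (h ^ d) ^ 2)
    (((measurable_ww (cube d h)).norm.pow_const 2).div_const _).aestronglyMeasurable
    (Filter.Eventually.of_forall fun z => by
      rw [Real.norm_of_nonneg (by positivity)]; exact r9_ratio_le hh z)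
  simpa only [mul_div_assoc] using h1

theorem r9_integrable {V : E d → ℝ} (hV : Measurable V) {M r : ℝ}
    (h0 : ∀ x, 0 ≤ V x) (hM : ∀ x, V x ≤ M) (hs : ∀ x, r ≤ ‖x‖ → V x = 0) : Integrable V := by
  have h1 : IntegrableOn V (Metric.ball (0 : E d) r) := by
    refine Measure.integrableOn_of_bounded (M := M) measure_ball_lt_top.ne
      hV.aestronglyMeasurable ?_
    refine Filter.Eventually.of_forall fun x => ?_
    rw [Real.norm_eq_abs, abs_of_nonneg (h0 x)]
    exact hM x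
  refine h1.integrable_of_forall_notMem_eq_zero fun x hx => hs x ?_
  simpa using hx

theorem r9_off {V : E d → ℝ} {r h : ℝ} (hhr : r ≤ 1 / (2 * h))
    (hs : ∀ x, r ≤ ‖x‖ → V x = 0) : ∀ x, x ∉ cell d h → V x = 0 := by
  intro x hx
  apply hs
  by_contra hlt
  push Not at hlt
  apply hx
  intro k
  have h1 : |x k| ≤ ‖x‖ := by
    have := PiLp.norm_apply_le x k
    simpa [Real.norm_eq_abs] using this
  linarith

theorem r9_level {u : κ → L2 d} (hu : Orthonormal ℂ u) {m : ℝ} (hm : 0 ≤ m)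
    (hT : ∀ k, Integrable fun ξ => sym m ξ * ‖fn (ft (u k)) ξ‖ ^ 2) {h : ℝ} (hh : 0 < h)
    {V : E d → ℝ} (hV : Measurable V) (hi : Integrable V) {M : ℝ} (h0 : ∀ x, 0 ≤ V x)
    (hM : ∀ x, V x ≤ M) (hs : ∀ x, x ∉ cell d h → V x = 0) (c : κ → ℝ) (hc : ∀ k, 0 ≤ c k)
    {B : ℝ} (hB0 : 0 ≤ B) (hB : ph3 m V ≤ ENNReal.ofReal B) :
    ∑ k, (3 * c k ^ 2 * ((∫ z, ‖fn (u k) z‖ ^ 2 * ‖ww (cube d h) z‖ ^ 2 / (h ^ d) ^ 2 * V z)
      - tk m (u k) - 2 * Real.pi * (d * h)) - 2 * c k ^ 3) ≤ B := by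
  have key : ∀ η : ℝ, 0 < η →
      ∑ k, (3 * c k ^ 2 * ((∫ z, ‖fn (u k) z‖ ^ 2 * ‖ww (cube d h) z‖ ^ 2 / (h ^ d) ^ 2 * V z)
        - η - tk m (u k) - 2 * Real.pi * (d * h)) - 2 * c k ^ 3) ≤ B := by
    intro η hη
    have h1 := Filter.eventually_all.2 fun k =>
      fej_limit (r9_int (u k) hh) (fun z => by positivity) hV hi h0 hM hh hη
    obtain ⟨n, hn1, hn⟩ := (h1.and (Filter.eventually_gt_atTop 0)).exists
    refine le_trans (Finset.sum_le_sum fun k _ => ?_)
      (fixed_level hu hm hT hh hn hV h0 hM hs c hc hB0 hB)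
    have := mul_le_mul_of_nonneg_left (hn1 k) (sq_nonneg (c k))
    linarith
  have hl : Filter.Tendsto (fun η : ℝ =>
      ∑ k, (3 * c k ^ 2 * ((∫ z, ‖fn (u k) z‖ ^ 2 * ‖ww (cube d h) z‖ ^ 2 / (h ^ d) ^ 2 * V z)
        - η - tk m (u k) - 2 * Real.pi * (d * h)) - 2 * c k ^ 3)) (nhdsWithin 0 (Set.Ioi 0))
      (nhds (∑ k, (3 * c k ^ 2 *
        ((∫ z, ‖fn (u k) z‖ ^ 2 * ‖ww (cube d h) z‖ ^ 2 / (h ^ d) ^ 2 * V z)
        - 0 - tk m (u k) - 2 * Real.pi * (d * h)) - 2 * c k ^ 3))) :=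
    Filter.Tendsto.mono_left (Continuous.tendsto (by fun_prop) 0) nhdsWithin_le_nhds
  have := le_of_tendsto hl (eventually_mem_nhdsWithin.mono key)
  simpa only [sub_zero] using this

theorem bounded_level {u : κ → L2 d} (hu : Orthonormal ℂ u) {m : ℝ} (hm : 0 ≤ m)
    (hT : ∀ k, Integrable fun ξ => sym m ξ * ‖fn (ft (u k)) ξ‖ ^ 2)
    {V : E d → ℝ} (hV : Measurable V) {M r : ℝ} (h0 : ∀ x, 0 ≤ V x) (hM : ∀ x, V x ≤ M)
    (hs : ∀ x, r ≤ ‖x‖ → V x = 0) (c : κ → ℝ) (hc : ∀ k, 0 ≤ c k)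
    {B : ℝ} (hB0 : 0 ≤ B) (hB : ph3 m V ≤ ENNReal.ofReal B) :
    ∑ k, (3 * c k ^ 2 * ((∫ z, ‖fn (u k) z‖ ^ 2 * V z) - tk m (u k)) - 2 * c k ^ 3) ≤ B := by
  have hi := r9_integrable hV h0 hM hs
  have hr : 0 < |r| + 1 := by positivity
  set v : ℕ → ℝ := fun j => (2 * (|r| + 1))⁻¹ * (1 / ((j : ℝ) + 1)) with hv
  have hpos : ∀ j, 0 < v j := fun j => by
    simp only [hv]
    positivity
  have hv0 : Filter.Tendsto v Filter.atTop (nhds 0) := by
    have := (tendsto_one_div_add_atTop_nhds_zero_nat (𝕜 := ℝ)).const_mul (2 * (|r| + 1))⁻¹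
    simpa [hv] using this
  have hvr : ∀ j, r ≤ 1 / (2 * v j) := fun j => by
    have h1 : 1 / (2 * v j) = (|r| + 1) * ((j : ℝ) + 1) := by
      simp only [hv]
      field_simp
    have h2 : (0 : ℝ) ≤ j := Nat.cast_nonneg j
    have h3 := le_abs_self r
    rw [h1]
    nlinarith
  have hlim : ∀ k, Filter.Tendsto
      (fun j => ∫ z, ‖fn (u k) z‖ ^ 2 * ‖ww (cube d (v j)) z‖ ^ 2 / (v j ^ d) ^ 2 * V z)
      Filter.atTop (nhds (∫ z, ‖fn (u k) z‖ ^ 2 * V z)) := by
    intro k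
    refine tendsto_integral_of_dominated_convergence (fun z => ‖fn (u k) z‖ ^ 2 * M)
      (fun j => (r9_int (u k) (hpos j)).1.mul hV.aestronglyMeasurable)
      ((fn_sq (u k)).1.mul_const M) (fun j => Filter.Eventually.of_forall fun z => ?_)
      (Filter.Eventually.of_forall fun z => ?_)
    · have h1 := r9_ratio_le (hpos j) z
      have h2 := h0 z
      have h3 := hpos j
      rw [Real.norm_of_nonneg (by positivity), mul_div_assoc, mul_assoc]
      refine mul_le_mul_of_nonneg_left ?_ (by positivity)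
      exact (mul_le_of_le_one_left h2 h1).trans (hM z)
    · have h1 := ((r9_ratio hpos hv0 z).const_mul (‖fn (u k) z‖ ^ 2)).mul_const (V z)
      rw [mul_one] at h1
      simpa only [mul_div_assoc] using h1
  have hl := tendsto_finsetSum Finset.univ fun k _ =>
    ((((hlim k).sub_const (tk m (u k))).sub ((hv0.const_mul (d : ℝ)).const_mul
      (2 * Real.pi))).const_mul (3 * c k ^ 2)).sub_const (2 * c k ^ 3)
  have := le_of_tendsto' hl fun j =>
    r9_level hu hm hT (hpos j) hV hi h0 hM (r9_off (hvr j) hs) c hc hB0 hB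
  simpa only [mul_zero, sub_zero] using this

end Pool.Agent.P.MP_9f4f5e_mp.RL
end
end

-- part Pool.Agent.P.MP_9f4f5e_mp.RL.R10
section

set_option linter.unusedSectionVars false
set_option linter.unusedVariables false

open MeasureTheory Matrix
open scoped ENNReal ComplexOrder ComplexConjugate FourierTransform RealInnerProductSpace
open Pool.Agent.P.MP_9f4f5e_mp.LT (tp pp dg qf ec fej Spec)

noncomputable section

namespace Pool.Agent.P.MP_9f4f5e_mp.RL

variable {d : ℕ} {ι κ : Type} [Fintype ι] [DecidableEq ι] [Fintype κ]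

theorem r10_meas (u : L2 d) : Measurable (fn u) := (Lp.stronglyMeasurable u).measurable

theorem r10_ofReal (a : ℝ) (z : ℂ) (ha : 0 ≤ a) :
    ENNReal.ofReal a * ‖z‖ₑ ^ 2 = ENNReal.ofReal (a * ‖z‖ ^ 2) := by
  rw [ENNReal.ofReal_mul ha, ENNReal.ofReal_pow (norm_nonneg _), ofReal_norm]

theorem r10_kin_eq (m : ℝ) (u : L2 d) :
    kin m u = ∫⁻ ξ, ENNReal.ofReal (sym m ξ * ‖fn (ft u) ξ‖ ^ 2) :=
  lintegral_congr fun ξ => r10_ofReal _ _ (sym_nonneg m ξ)

theorem r10_kin_int {m : ℝ} {u : L2 d} (h : kin m u ≠ ∞) :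
    Integrable fun ξ => sym m ξ * ‖fn (ft u) ξ‖ ^ 2 := by
  have hm : Measurable fun ξ : E d => sym m ξ * ‖fn (ft u) ξ‖ ^ 2 :=
    (continuous_sym m).measurable.mul ((r10_meas _).norm.pow_const 2)
  rw [r10_kin_eq] at h
  exact (lintegral_ofReal_ne_top_iff_integrable hm.aestronglyMeasurable
    (Filter.Eventually.of_forall fun ξ => mul_nonneg (sym_nonneg m ξ) (by positivity))).1 h

theorem r10_kin_val {m : ℝ} {u : L2 d} (h : kin m u ≠ ∞) : kin m u = ENNReal.ofReal (tk m u) := by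
  rw [r10_kin_eq, tk]
  exact (ofReal_integral_eq_lintegral_ofReal (r10_kin_int h)
    (Filter.Eventually.of_forall fun ξ => mul_nonneg (sym_nonneg m ξ) (by positivity))).symm

theorem r10_sq (u : L2 d) : Integrable fun z => ‖fn u z‖ ^ 2 :=
  (memLp_two_iff_integrable_sq_norm (Lp.aestronglyMeasurable u)).1 (Lp.memLp u)

theorem r10_pot_val (u : L2 d) {V : E d → ℝ} (hV : Measurable V) {M : ℝ} (h0 : ∀ x, 0 ≤ V x)
    (hM : ∀ x, V x ≤ M) : pot V u = ENNReal.ofReal (∫ z, ‖fn u z‖ ^ 2 * V z) := by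
  have hi : Integrable fun z => ‖fn u z‖ ^ 2 * V z :=
    (r10_sq u).mul_bdd hV.aestronglyMeasurable (c := M) (Filter.Eventually.of_forall fun x => by
      rw [Real.norm_eq_abs, abs_of_nonneg (h0 x)]; exact hM x)
  rw [ofReal_integral_eq_lintegral_ofReal hi
    (Filter.Eventually.of_forall fun x => mul_nonneg (by positivity) (h0 x))]
  unfold pot
  refine lintegral_congr fun x => ?_
  rw [r10_ofReal _ _ (h0 x), mul_comm]

theorem r10_bounded {u : κ → L2 d} (hu : Orthonormal ℂ u) {m : ℝ} (hm : 0 ≤ m)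
    {V : E d → ℝ} (hV : Measurable V) {M r : ℝ} (h0 : ∀ x, 0 ≤ V x) (hM : ∀ x, V x ≤ M)
    (hs : ∀ x, r ≤ ‖x‖ → V x = 0) :
    ∑ k, (pot V (u k) - kin m (u k)) ^ 3 ≤ ph3 m V := by
  classical
  by_cases ht : ph3 m V = ∞
  · rw [ht]
    exact le_top
  let κ' := {k // kin m (u k) ≠ ∞}
  let c : κ' → ℝ := fun k => max ((∫ z, ‖fn (u k.1) z‖ ^ 2 * V z) - tk m (u k.1)) 0
  have key := bounded_level (κ := κ') (u := fun k => u k.1) (hu.comp _ Subtype.val_injective) hm
    (fun k => r10_kin_int k.2) hV h0 hM hs c (fun k => le_max_right _ _)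
    (B := (ph3 m V).toReal) ENNReal.toReal_nonneg (ENNReal.ofReal_toReal ht).ge
  have e1 : ∀ k : κ', 3 * c k ^ 2 * ((∫ z, ‖fn (u k.1) z‖ ^ 2 * V z) - tk m (u k.1))
      - 2 * c k ^ 3 = c k ^ 3 := by
    intro k
    rcases le_total ((∫ z, ‖fn (u k.1) z‖ ^ 2 * V z) - tk m (u k.1)) 0 with h | h
    · have : c k = 0 := max_eq_right h
      rw [this]; ring
    · have : c k = _ := max_eq_left h
      rw [← this]; ring
  simp only [e1] at key
  have e2 : ∀ k : κ', (pot V (u k.1) - kin m (u k.1)) ^ 3 = ENNReal.ofReal (c k ^ 3) := by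
    intro k
    have htk : 0 ≤ tk m (u k.1) :=
      integral_nonneg fun ξ => mul_nonneg (sym_nonneg m ξ) (by positivity)
    rw [r10_pot_val _ hV h0 hM, r10_kin_val k.2, ← ENNReal.ofReal_sub _ htk,
      ENNReal.ofReal_pow (le_max_right _ _), ENNReal.ofReal_max, ENNReal.ofReal_zero,
      max_eq_left (zero_le)]
  have e5 : ∑ k, (pot V (u k) - kin m (u k)) ^ 3
      = ∑ k : κ', (pot V (u k.1) - kin m (u k.1)) ^ 3 := by
    rw [← Finset.sum_subtype (Finset.univ.filter fun k => kin m (u k) ≠ ∞) (by simp)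
      (fun k => (pot V (u k) - kin m (u k)) ^ 3)]
    refine (Finset.sum_subset (Finset.filter_subset _ _) fun k _ hk => ?_).symm
    have : kin m (u k) = ∞ := by simpa using hk
    rw [this]
    simp
  rw [e5, ← ENNReal.ofReal_toReal ht]
  simp only [e2]
  rw [← ENNReal.ofReal_sum_of_nonneg fun k _ => pow_nonneg (le_max_right _ _) 3]
  exact ENNReal.ofReal_le_ofReal key

/-- truncation -/
def r10_tr (V : E d → ℝ) (n : ℕ) (x : E d) : ℝ := if ‖x‖ < n then min (max (V x) 0) n else 0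

theorem r10_tr_meas {V : E d → ℝ} (hV : Measurable V) (n : ℕ) : Measurable (r10_tr V n) :=
  Measurable.ite (measurableSet_lt measurable_norm measurable_const)
    ((hV.max measurable_const).min measurable_const) measurable_const

theorem r10_tr_nonneg (V : E d → ℝ) (n : ℕ) (x : E d) : 0 ≤ r10_tr V n x := by
  unfold r10_tr
  split_ifs
  · exact le_min (le_max_right _ _) (Nat.cast_nonneg n)
  · exact le_rfl

theorem r10_tr_le (V : E d → ℝ) (n : ℕ) (x : E d) : r10_tr V n x ≤ n := by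
  unfold r10_tr
  split_ifs
  · exact min_le_right _ _
  · exact Nat.cast_nonneg n

theorem r10_tr_le' (V : E d → ℝ) (n : ℕ) (x : E d) {k : ℝ} (hk : 0 ≤ k) :
    ENNReal.ofReal (r10_tr V n x - k) ≤ ENNReal.ofReal (V x - k) := by
  have h : r10_tr V n x ≤ max (V x) 0 := by
    unfold r10_tr
    split_ifs
    · exact min_le_left _ _
    · exact le_max_right _ _
  rcases le_total (V x) 0 with h1 | h1
  · rw [max_eq_right h1] at h
    rw [ENNReal.ofReal_of_nonpos (by linarith)]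
    exact zero_le
  · rw [max_eq_left h1] at h
    exact ENNReal.ofReal_le_ofReal (by linarith)

theorem r10_tr_mono (V : E d → ℝ) (x : E d) : Monotone fun n => r10_tr V n x := by
  intro n m h
  have h' : (n : ℝ) ≤ m := Nat.cast_le.2 h
  by_cases hn : ‖x‖ < n
  · simp only [r10_tr, if_pos hn, if_pos (hn.trans_le h')]
    exact min_le_min le_rfl h'
  · have := r10_tr_nonneg V m x
    simpa only [r10_tr, if_neg hn] using this

theorem r10_tr_ev (V : E d → ℝ) (x : E d) :
    ∀ᶠ n : ℕ in Filter.atTop, ENNReal.ofReal (r10_tr V n x) = ENNReal.ofReal (V x) := by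
  filter_upwards [tendsto_natCast_atTop_atTop (R := ℝ).eventually_gt_atTop ‖x‖,
    tendsto_natCast_atTop_atTop (R := ℝ).eventually_ge_atTop (max (V x) 0)] with n h1 h2
  rw [r10_tr, if_pos h1, min_eq_left h2, ENNReal.ofReal_max, ENNReal.ofReal_zero,
    max_eq_left (zero_le)]

theorem r10_pot_lim {V : E d → ℝ} (hV : Measurable V) (u : L2 d) :
    Filter.Tendsto (fun n => pot (r10_tr V n) u) Filter.atTop (nhds (pot V u)) := by
  unfold pot
  refine lintegral_tendsto_of_tendsto_of_monotone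
    (fun n => ((r10_tr_meas hV n).ennreal_ofReal.mul
      ((r10_meas u).enorm.pow_const 2)).aemeasurable)
    (Filter.Eventually.of_forall fun x n m h =>
      mul_le_mul_left (ENNReal.ofReal_le_ofReal (r10_tr_mono V x h)) _)
    (Filter.Eventually.of_forall fun x => tendsto_const_nhds.congr' ?_)
  filter_upwards [r10_tr_ev V x] with n hn
  rw [hn]

theorem lt_three {u : κ → L2 d} (hu : Orthonormal ℂ u) {m : ℝ} (hm : 0 ≤ m) {V : E d → ℝ}
    (hV : Measurable V) :
    ∑ k, (pot V (u k) - kin m (u k)) ^ 3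
      ≤ ∫⁻ x, ∫⁻ ξ : E d, ENNReal.ofReal (V x - sym m ξ) ^ 3 := by
  have h1 : Filter.Tendsto (fun n => ∑ k, (pot (r10_tr V n) (u k) - kin m (u k)) ^ 3) Filter.atTop
      (nhds (∑ k, (pot V (u k) - kin m (u k)) ^ 3)) := by
    refine tendsto_finsetSum _ fun k _ => ?_
    exact ((ENNReal.continuous_pow 3).comp (ENNReal.continuous_sub_right _)).continuousAt.tendsto.comp
      (r10_pot_lim hV (u k))
  refine le_of_tendsto' h1 fun n => ?_
  refine (r10_bounded hu hm (r10_tr_meas hV n) (r10_tr_nonneg V n) (r10_tr_le V n) (r := n)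
    fun x hx => if_neg (not_lt.2 hx)).trans ?_
  have hs : Measurable fun q : E d × E d => ENNReal.ofReal (V q.1 - sym m q.2) ^ 3 :=
    ((hV.comp measurable_fst).sub
      ((continuous_sym m).measurable.comp measurable_snd)).ennreal_ofReal.pow_const 3
  rw [lintegral_lintegral_swap hs.aemeasurable]
  exact lintegral_mono fun ξ => lintegral_mono fun x =>
    pow_le_pow_left' (r10_tr_le' V n x (sym_nonneg m ξ)) 3

end Pool.Agent.P.MP_9f4f5e_mp.RL
end
end

-- part Pool.Agent.P.MP_9f4f5e_mp.RL.R11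
section

set_option linter.unusedSectionVars false
set_option linter.unusedVariables false

open MeasureTheory Matrix
open scoped ENNReal ComplexOrder ComplexConjugate FourierTransform RealInnerProductSpace
open Pool.Agent.P.MP_9f4f5e_mp.LT (tp pp dg qf ec fej Spec)

noncomputable section

namespace Pool.Agent.P.MP_9f4f5e_mp.RL

variable {d : ℕ} {ι κ : Type} [Fintype ι] [DecidableEq ι] [Fintype κ]

theorem r11_mass {u : L2 d} (hu : ‖u‖ = 1) : ∫⁻ x, ‖fn u x‖ₑ ^ 2 = 1 := by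
  obtain ⟨h1, h2⟩ := fn_sq u
  have h3 := ofReal_integral_eq_lintegral_ofReal h1
    (Filter.Eventually.of_forall fun x => by positivity)
  rw [h2, hu] at h3
  have h4 : ∀ x, ‖fn u x‖ₑ ^ 2 = ENNReal.ofReal (‖fn u x‖ ^ 2) := fun x => by
    rw [ENNReal.ofReal_pow (norm_nonneg _), ofReal_norm]
  simp only [h4]
  rw [← h3]
  simp

theorem r11_meas (u : L2 d) : Measurable fun x => ‖fn u x‖ₑ ^ 2 :=
  ((Lp.stronglyMeasurable u).measurable.enorm).pow_const 2

theorem r11_pot {u : L2 d} (hu : ‖u‖ = 1) {V : E d → ℝ} {s : ℝ} (hs : 0 ≤ s) :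
    pot V u ≤ pot (fun x => V x - s) u + ENNReal.ofReal s := by
  unfold pot
  have h1 : ∀ x, ENNReal.ofReal (V x) * ‖fn u x‖ₑ ^ 2 ≤
      ENNReal.ofReal (V x - s) * ‖fn u x‖ₑ ^ 2 + ENNReal.ofReal s * ‖fn u x‖ₑ ^ 2 := fun x => by
    rw [← add_mul, ENNReal.ofReal_sub _ hs]
    exact mul_le_mul_left le_tsub_add _
  refine (lintegral_mono h1).trans ?_
  rw [lintegral_add_right _ ((r11_meas u).const_mul _), lintegral_const_mul _ (r11_meas u),
    r11_mass hu, mul_one]

theorem r11_shift {u : L2 d} (hu : ‖u‖ = 1) (m : ℝ) {V : E d → ℝ} {s : ℝ} (hs : 0 ≤ s) :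
    (pot V u - kin m u) - ENNReal.ofReal s ≤ pot (fun x => V x - s) u - kin m u := by
  rw [tsub_right_comm]
  exact tsub_le_tsub_right (tsub_le_iff_right.2 (r11_pot hu hs)) _

theorem r11_W (m : ℝ) {V : E d → ℝ} (hV : Measurable V) :
    Measurable fun z : E d × E d => ENNReal.ofReal (V z.1 - sym m z.2) := by
  have h : Continuous (sym m : E d → ℝ) := by
    unfold sym
    fun_prop
  exact ((hV.comp measurable_fst).sub (h.measurable.comp measurable_snd)).ennreal_ofReal

theorem r11_step {u : κ → L2 d} (hu : Orthonormal ℂ u) {m : ℝ} (hm : 0 ≤ m) {V : E d → ℝ}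
    (hV : Measurable V) {s : ℝ} (hs : 0 ≤ s) :
    ∑ k, ((pot V (u k) - kin m (u k)) - ENNReal.ofReal s) ^ 3
      ≤ ∫⁻ z : E d × E d, (ENNReal.ofReal (V z.1 - sym m z.2) - ENNReal.ofReal s) ^ 3
        ∂(volume.prod volume) := by
  have h1 := lt_three hu hm (V := fun x => V x - s) (hV.sub_const s)
  simp only [sub_right_comm _ s, ENNReal.ofReal_sub _ hs] at h1
  rw [lintegral_prod (fun z : E d × E d =>
    (ENNReal.ofReal (V z.1 - sym m z.2) - ENNReal.ofReal s) ^ 3)
    (((r11_W m hV).sub measurable_const).pow_const 3).aemeasurable]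
  refine le_trans (Finset.sum_le_sum fun k _ => ?_) h1
  exact pow_le_pow_left' (r11_shift (hu.1 k) m hs) 3

theorem r11_main {a : ℝ} (ha : 0 < a) {u : κ → L2 d} (hu : Orthonormal ℂ u) {m : ℝ} (hm : 0 ≤ m)
    {V : E d → ℝ} (hV : Measurable V) :
    ENNReal.ofReal (6 / (a * (a + 1) * (a + 2) * (a + 3))) *
        ∑ k, (pot V (u k) - kin m (u k)) ^ (a + 3)
      ≤ ENNReal.ofReal (6 / (a * (a + 1) * (a + 2) * (a + 3))) * phase m (a + 3) V := by
  have hw : Measurable fun s : ℝ => ENNReal.ofReal (s ^ (a - 1)) :=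
    (measurable_id.pow_const (a - 1)).ennreal_ofReal
  have hW := r11_W m hV
  have hL : ENNReal.ofReal (6 / (a * (a + 1) * (a + 2) * (a + 3))) *
      ∑ k, (pot V (u k) - kin m (u k)) ^ (a + 3) =
      ∫⁻ s in Set.Ioi (0 : ℝ), ENNReal.ofReal (s ^ (a - 1)) *
        ∑ k, ((pot V (u k) - kin m (u k)) - ENNReal.ofReal s) ^ 3 := by
    simp only [Finset.mul_sum]
    rw [lintegral_finsetSum]
    · exact Finset.sum_congr rfl fun k _ => (LT1.al_three ha _).symm
    · intro k _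
      exact hw.mul ((measurable_const.sub measurable_id.ennreal_ofReal).pow_const 3)
  have hq : Measurable fun p : ℝ × (E d × E d) => ENNReal.ofReal (p.1 ^ (a - 1)) *
      (ENNReal.ofReal (V p.2.1 - sym m p.2.2) - ENNReal.ofReal p.1) ^ 3 :=
    (hw.comp measurable_fst).mul
      (((hW.comp measurable_snd).sub measurable_fst.ennreal_ofReal).pow_const 3)
  have hR : ENNReal.ofReal (6 / (a * (a + 1) * (a + 2) * (a + 3))) * phase m (a + 3) V =
      ∫⁻ s in Set.Ioi (0 : ℝ), ENNReal.ofReal (s ^ (a - 1)) *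
        ∫⁻ z : E d × E d, (ENNReal.ofReal (V z.1 - sym m z.2) - ENNReal.ofReal s) ^ 3
          ∂(volume.prod volume) := by
    rw [phase, ← lintegral_prod (fun z : E d × E d => ENNReal.ofReal (V z.1 - sym m z.2) ^ (a + 3))
      (hW.pow_const (a + 3)).aemeasurable, ← lintegral_const_mul _ (hW.pow_const (a + 3))]
    have h1 : ∀ s : ℝ, ENNReal.ofReal (s ^ (a - 1)) *
        ∫⁻ z : E d × E d, (ENNReal.ofReal (V z.1 - sym m z.2) - ENNReal.ofReal s) ^ 3
          ∂(volume.prod volume) =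
        ∫⁻ z : E d × E d, ENNReal.ofReal (s ^ (a - 1)) *
          (ENNReal.ofReal (V z.1 - sym m z.2) - ENNReal.ofReal s) ^ 3 ∂(volume.prod volume) :=
      fun s => (lintegral_const_mul _ ((hW.sub measurable_const).pow_const 3)).symm
    simp only [h1]
    rw [lintegral_lintegral_swap (μ := volume.restrict (Set.Ioi (0 : ℝ)))
      (ν := (volume : Measure (E d)).prod (volume : Measure (E d)))
      (f := fun s z => ENNReal.ofReal (s ^ (a - 1)) *
        (ENNReal.ofReal (V z.1 - sym m z.2) - ENNReal.ofReal s) ^ 3) hq.aemeasurable]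
    exact lintegral_congr fun x => (LT1.al_three ha _).symm
  rw [hL, hR]
  exact setLIntegral_mono' measurableSet_Ioi fun s hs =>
    mul_le_mul_right (r11_step hu hm hV (le_of_lt hs)) _

theorem lt_upper {m γ : ℝ} (hm : 0 ≤ m) (hγ : 3 ≤ γ) : LiebThirring d m γ 1 := by
  intro N u hu V hV
  rw [ENNReal.ofReal_one, one_mul]
  rcases eq_or_lt_of_le hγ with rfl | hlt
  · have h2 : (3 : ℝ) = ((3 : ℕ) : ℝ) := by norm_num
    simp only [phase, h2, ENNReal.rpow_natCast]
    exact lt_three hu hm hV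
  · have ha : 0 < γ - 3 := sub_pos.2 hlt
    have h1 := r11_main ha hu hm hV
    have hp : 0 < 6 / ((γ - 3) * (γ - 3 + 1) * (γ - 3 + 2) * (γ - 3 + 3)) := by positivity
    have h2 := (ENNReal.mul_le_mul_iff_right (ENNReal.ofReal_pos.2 hp).ne'
      ENNReal.ofReal_ne_top).1 h1
    rwa [sub_add_cancel] at h2

end Pool.Agent.P.MP_9f4f5e_mp.RL
end
end

-- part Pool.Agent.P.MP_9f4f5e_mp.RL.W1
section

set_option linter.unusedSectionVars false
set_option linter.unusedVariables false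

open MeasureTheory Matrix
open scoped ENNReal ComplexOrder ComplexConjugate FourierTransform RealInnerProductSpace
open Pool.Agent.P.MP_9f4f5e_mp.LT (tp pp dg qf ec fej Spec)

noncomputable section

namespace Pool.Agent.P.MP_9f4f5e_mp.RL

variable {d : ℕ} {ι κ : Type} [Fintype ι] [DecidableEq ι] [Fintype κ]

theorem w1_fwd (k : E d) (f : E d → ℂ) (x : E d) :
    𝓕 (fun v => f (v + k)) x = ec (-⟪-k, x⟫) * 𝓕 f x := by
  rw [Real.fourier_eq, Real.fourier_eq, ← integral_const_mul,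
    ← integral_add_right_eq_self
      (fun v => ec (-⟪-k, x⟫) * (Real.fourierChar (-⟪v, x⟫) • f v)) k]
  refine integral_congr_ae (Filter.Eventually.of_forall fun v => ?_)
  show ec (-⟪v, x⟫) * f (v + k) = ec (-⟪-k, x⟫) * (ec (-⟪v + k, x⟫) * f (v + k))
  rw [← mul_assoc, ← LT.ec_add, inner_add_left, inner_neg_left]
  congr 2
  ring

theorem w1_comm (k : E d) (χ : L2 d) : (𝓕 (LT.e2T k χ) : L2 d) = LT.e2M (-k) (𝓕 χ) := by
  refine DenseRange.induction_on
    (p := fun χ : L2 d => (𝓕 (LT.e2T k χ) : L2 d) = LT.e2M (-k) (𝓕 χ))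
    (SchwartzMap.denseRange_toLpCLM (p := 2) ENNReal.ofNat_ne_top) χ ?_ fun f => ?_
  · exact isClosed_eq ((Lp.fourierTransformₗᵢ (E d) ℂ).continuous.comp (LT.e2T k).continuous)
      ((LT.e2M (-k)).continuous.comp (Lp.fourierTransformₗᵢ (E d) ℂ).continuous)
  · have h1 : LT.e2T k (f.toLp 2) = (f.compSubConstCLM ℂ (-k)).toLp 2 := by
      refine Lp.ext ?_
      filter_upwards [LT.e2T_coe k (f.toLp 2), (f.compSubConstCLM ℂ (-k)).coeFn_toLp 2 volume,
        (measurePreserving_add_right volume k).quasiMeasurePreserving.ae (f.coeFn_toLp 2 volume)]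
        with x a1 a2 a3
      rw [a1, a2, a3, SchwartzMap.compSubConstCLM_apply, sub_neg_eq_add]
    show 𝓕 (LT.e2T k (f.toLp 2)) = LT.e2M (-k) (𝓕 (f.toLp 2))
    rw [h1, SchwartzMap.toLp_fourier_eq, SchwartzMap.toLp_fourier_eq]
    refine Lp.ext ?_
    filter_upwards [LT.e2M_coe (-k) ((𝓕 f).toLp 2), (𝓕 f).coeFn_toLp 2 volume,
      (𝓕 (f.compSubConstCLM ℂ (-k))).coeFn_toLp 2 volume] with x a1 a2 a3
    rw [a1, a2, a3, SchwartzMap.fourier_coe, SchwartzMap.fourier_coe, ← w1_fwd]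
    refine congrArg (fun g : E d → ℂ => 𝓕 g x) (funext fun v => ?_)
    rw [SchwartzMap.compSubConstCLM_apply, sub_neg_eq_add]

/-- the momentum cell with index k -/
def w1c (h : ℝ) (k : Fin d → ℤ) : Set (E d) :=
  {ξ | ∀ i, ξ i ∈ Set.Ico (k i * h) ((k i + 1) * h)}

theorem w1_meas (h : ℝ) (k : Fin d → ℤ) : MeasurableSet (w1c h k) :=
  measurableSet_box (fun i => Set.Ico (k i * h) ((k i + 1) * h)) fun _ => measurableSet_Ico

theorem w1_vol {h : ℝ} (hh : 0 < h) (k : Fin d → ℤ) :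
    volume (w1c h k) = ENNReal.ofReal (h ^ d) := by
  rw [w1c, volume_box (fun i => Set.Ico (k i * h) ((k i + 1) * h)) fun _ => measurableSet_Ico]
  have e : ∀ i, volume (Set.Ico ((k i : ℝ) * h) ((k i + 1) * h)) = ENNReal.ofReal h := by
    intro i
    rw [Real.volume_Ico]
    congr 1
    ring
  simp only [e, Finset.prod_const, Finset.card_univ, Fintype.card_fin]
  rw [ENNReal.ofReal_pow hh.le]

theorem w1_inner (c : ℝ) (j : Fin d → ℤ) (ξ : E d) : ⟪zl c j, ξ⟫ = ∑ i, c * j i * ξ i := by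
  simp [zl, PiLp.inner_apply, mul_comm]

theorem w1_int {h : ℝ} (hh : 0 < h) (k j : Fin d → ℤ) :
    ∫ ξ in w1c h k, ec ⟪zl h⁻¹ j, ξ⟫ = if j = 0 then ((h ^ d : ℝ) : ℂ) else 0 := by
  have e : ∀ ξ : E d, ec ⟪zl h⁻¹ j, ξ⟫ = ∏ i, ec (j i / h * ξ i) := by
    intro ξ
    rw [w1_inner, ec_sum]
    refine Finset.prod_congr rfl fun i _ => ?_
    congr 1
    ring
  simp only [e]
  rw [w1c, integral_box (fun i => Set.Ico (k i * h) ((k i + 1) * h)) (fun _ => measurableSet_Ico)
    fun i s => ec (j i / h * s)]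
  simp only [LT1.s12_int hh]
  split_ifs with hj
  · simp [hj]
  · obtain ⟨i, hi⟩ := Function.ne_iff.1 hj
    exact Finset.prod_eq_zero (Finset.mem_univ i) (if_neg hi)

theorem w1_disj {h : ℝ} (hh : 0 < h) {k k' : Fin d → ℤ} {ξ : E d} (h1 : ξ ∈ w1c h k)
    (h2 : ξ ∈ w1c h k') : k = k' :=
  funext fun i => LT1.s12_disj hh (h1 i) (h2 i)

theorem w1_sym {h : ℝ} (m : ℝ) {k : Fin d → ℤ} {ξ : E d} (h1 : ξ ∈ w1c h k) :
    sym m ξ ≤ sym m (zl h k) + 2 * Real.pi * (d * h) := by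
  have a1 := sym_lip m ξ (zl h k - ξ)
  have a2 : ‖zl h k - ξ‖ ≤ d * h := by
    refine norm_le_of_coord fun i => ?_
    have := h1 i
    have e : (zl h k - ξ) i = h * k i - ξ i := by simp [zl]
    rw [e, abs_le]
    constructor <;> nlinarith [this.1, this.2]
  rw [add_sub_cancel] at a1
  nlinarith [Real.pi_pos]

theorem ft_translate (w : L2 d) (b : E d) : ∃ u : L2 d, (∀ᵐ x, fn u x = fn w (x + b)) ∧
    ∀ᵐ ξ, fn (ft u) ξ = ec ⟪b, ξ⟫ * fn (ft w) ξ := by
  refine ⟨LT.e2T b w, LT.e2T_coe b w, ?_⟩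
  unfold fn ft
  rw [w1_comm]
  filter_upwards [LT.e2M_coe (-b) (𝓕 w)] with ξ a1
  rw [a1, inner_neg_left, neg_neg]

theorem shannon {h : ℝ} (hh : 0 < h) (m : ℝ) :
    ∃ (w : (Fin d → ℤ) → L2 d) (u : (Fin d → ℤ) × (Fin d → ℤ) → L2 d), Orthonormal ℂ u ∧
      (∀ k, ‖w k‖ = 1) ∧ (∀ k j, ∀ᵐ x, fn (u (k, j)) x = fn (w k) (x - zl h⁻¹ j)) ∧
      ∀ k j, kin m (u (k, j)) ≤ ENNReal.ofReal (sym m (zl h k) + 2 * Real.pi * (d * h)) := by
  have hd : 0 < h ^ d := pow_pos hh d
  have hv : ∀ k : Fin d → ℤ, volume (w1c h k) ≠ ∞ := fun k => by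
    rw [w1_vol hh]
    exact ENNReal.ofReal_ne_top
  obtain ⟨χ, hχ⟩ : ∃ χ : (Fin d → ℤ) → L2 d, ∀ k, χ k = indicatorConstLp 2
      (w1_meas h k) (hv k) (((√(h ^ d))⁻¹ : ℝ) : ℂ) := ⟨_, fun _ => rfl⟩
  have hs : 0 < √(h ^ d) := Real.sqrt_pos.2 hd
  have hc : ∀ k, ∀ᵐ ξ, fn (ft (𝓕⁻ (χ k))) ξ =
      (w1c h k).indicator (fun _ => (((√(h ^ d))⁻¹ : ℝ) : ℂ)) ξ := by
    intro k
    unfold fn ft
    rw [FourierTransform.fourier_fourierInv_eq, hχ]
    exact indicatorConstLp_coeFn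
  choose u hu1 hu2 using fun a : (Fin d → ℤ) × (Fin d → ℤ) =>
    ft_translate (𝓕⁻ (χ a.1)) (-zl h⁻¹ a.2)
  have hu3 : ∀ a : (Fin d → ℤ) × (Fin d → ℤ), ∀ᵐ ξ, fn (ft (u a)) ξ = (w1c h a.1).indicator
      (fun ξ => ec ⟪-zl h⁻¹ a.2, ξ⟫ * (((√(h ^ d))⁻¹ : ℝ) : ℂ)) ξ := by
    intro a
    filter_upwards [hu2 a, hc a.1] with ξ a1 a2
    rw [a1, a2, Set.indicator_mul_right]
  have hon : Orthonormal ℂ u := by
    refine orthonormal_iff_ite.2 fun a b => ?_
    rw [← Lp.inner_fourier_eq, L2.inner_def]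
    by_cases hk : a.1 = b.1
    · have e : ∫ ξ, inner ℂ ((𝓕 (u a) : L2 d) ξ) ((𝓕 (u b) : L2 d) ξ) =
          ∫ ξ, (w1c h a.1).indicator
            (fun ξ => ((h ^ d : ℝ) : ℂ)⁻¹ * ec ⟪zl h⁻¹ (a.2 - b.2), ξ⟫) ξ := by
        refine integral_congr_ae ?_
        filter_upwards [hu3 a, hu3 b] with ξ a1 a2
        unfold fn ft at a1 a2
        rw [a1, a2, ← hk]
        by_cases hξ : ξ ∈ w1c h a.1
        · simp only [Set.indicator_of_mem hξ]
          rw [RCLike.inner_apply, map_mul, ← LT.ec_neg, Complex.conj_ofReal, mul_mul_mul_comm,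
            ← LT.ec_add, ← Complex.ofReal_mul, ← mul_inv, Real.mul_self_sqrt hd.le, mul_comm,
            Complex.ofReal_inv]
          congr 2
          rw [inner_neg_left, inner_neg_left, neg_neg, w1_inner, w1_inner, w1_inner,
            ← Finset.sum_neg_distrib, ← Finset.sum_add_distrib]
          refine Finset.sum_congr rfl fun i _ => ?_
          simp only [Pi.sub_apply]
          push_cast
          ring
        · simp only [Set.indicator_of_notMem hξ, inner_zero_left]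
      rw [e, integral_indicator (w1_meas h _), integral_const_mul, w1_int hh]
      by_cases hj : a.2 = b.2
      · rw [if_pos (sub_eq_zero.2 hj), if_pos (Prod.ext hk hj),
          inv_mul_cancel₀ (Complex.ofReal_ne_zero.2 hd.ne')]
      · rw [if_neg (sub_ne_zero.2 hj), if_neg fun q => hj (congrArg Prod.snd q), mul_zero]
    · rw [if_neg fun q => hk (congrArg Prod.fst q)]
      refine integral_eq_zero_of_ae ?_
      filter_upwards [hu3 a, hu3 b] with ξ a1 a2
      unfold fn ft at a1 a2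
      rw [a1, a2]
      by_cases hξ : ξ ∈ w1c h a.1
      · rw [Set.indicator_of_notMem fun q => hk (w1_disj hh hξ q), inner_zero_right]
        rfl
      · rw [Set.indicator_of_notMem hξ, inner_zero_left]
        rfl
  refine ⟨fun k => 𝓕⁻ (χ k), u, hon, fun k => ?_, fun k j => ?_, fun k j => ?_⟩
  · rw [← Lp.norm_fourier_eq, FourierTransform.fourier_fourierInv_eq, hχ,
      norm_indicatorConstLp two_ne_zero ENNReal.ofNat_ne_top, Measure.real, w1_vol hh,
      ENNReal.toReal_ofReal hd.le, Complex.norm_real,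
      Real.norm_of_nonneg (by positivity), ENNReal.toReal_ofNat, ← Real.sqrt_eq_rpow,
      inv_mul_cancel₀ hs.ne']
  · simpa only [sub_eq_add_neg] using hu1 (k, j)
  · have h1 := fn_mass (u := ft (u (k, j))) ((Lp.norm_fourier_eq _).trans (hon.1 _))
    rw [← mul_one (ENNReal.ofReal _), ← h1, ← lintegral_const_mul' _ _ ENNReal.ofReal_ne_top]
    refine lintegral_mono_ae ?_
    filter_upwards [hu3 (k, j)] with ξ a1
    by_cases hξ : ξ ∈ w1c h k
    · exact mul_le_mul_left (ENNReal.ofReal_le_ofReal (w1_sym m hξ)) _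
    · rw [a1, Set.indicator_of_notMem hξ]
      simp

end Pool.Agent.P.MP_9f4f5e_mp.RL
end
end

-- part Pool.Agent.P.MP_9f4f5e_mp.RL.W2
section

set_option linter.unusedSectionVars false
set_option linter.unusedVariables false

open MeasureTheory Matrix
open scoped ENNReal ComplexOrder ComplexConjugate FourierTransform RealInnerProductSpace
open Pool.Agent.P.MP_9f4f5e_mp.LT (tp pp dg qf ec fej Spec)

noncomputable section

namespace Pool.Agent.P.MP_9f4f5e_mp.RL

variable {d : ℕ} {ι κ : Type} [Fintype ι] [DecidableEq ι] [Fintype κ]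

/-- a closed coordinate box -/
def w2_box (d : ℕ) (a b : ℝ) : Set (E d) := {x | ∀ k, x k ∈ Set.Icc a b}

theorem w2_meas (a b : ℝ) : MeasurableSet (w2_box d a b) :=
  measurableSet_box (fun _ => Set.Icc a b) fun _ => measurableSet_Icc

theorem w2_vol {a b : ℝ} (hab : a ≤ b) : volume (w2_box d a b) = ENNReal.ofReal ((b - a) ^ d) := by
  have h1 := volume_box (d := d) (fun _ => Set.Icc a b) fun _ => measurableSet_Icc
  refine h1.trans ?_
  rw [Finset.prod_const, Finset.card_univ, Fintype.card_fin, Real.volume_Icc,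
    ENNReal.ofReal_pow (sub_nonneg.2 hab)]

theorem w2_radius (w : L2 d) (hw : ‖w‖ = 1) {η : ℝ} (hη : 0 < η) :
    ∀ᶠ n : ℕ in Filter.atTop, 1 - η ≤ ∫ x in w2_box d (-(n : ℝ)) n, ‖fn w x‖ ^ 2 := by
  have hU : (⋃ n : ℕ, w2_box d (-(n : ℝ)) n) = Set.univ := by
    refine Set.eq_univ_of_forall fun x => ?_
    obtain ⟨n, hn⟩ := exists_nat_ge ‖x‖
    refine Set.mem_iUnion.2 ⟨n, fun k => abs_le.1 ?_⟩
    have h2 := PiLp.norm_apply_le x k
    rw [Real.norm_eq_abs] at h2
    exact h2.trans hn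
  have h1 := tendsto_setIntegral_of_monotone (μ := volume) (f := fun x => ‖fn w x‖ ^ 2)
    (s := fun n : ℕ => w2_box d (-(n : ℝ)) n) (fun _ => w2_meas _ _)
    (fun a b hab x hx k =>
      Set.Icc_subset_Icc (neg_le_neg (Nat.cast_le.2 hab)) (Nat.cast_le.2 hab) (hx k))
    (fn_sq w).1.integrableOn
  rw [hU, Measure.restrict_univ, (fn_sq w).2, hw, one_pow] at h1
  exact h1.eventually (eventually_ge_nhds (by linarith))

theorem w2_pot (w u : L2 d) {a : E d} {r L c : ℝ} (hu : ∀ᵐ x, fn u x = fn w (x - a))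
    (h0 : ∀ k, 0 ≤ a k) (h1 : ∀ k, a k ≤ L) (hc : c ≤ ∫ x in w2_box d (-r) r, ‖fn w x‖ ^ 2) :
    ENNReal.ofReal c ≤ pot (Set.indicator (w2_box d (-r) (L + r)) 1) u := by
  have e1 : pot (Set.indicator (w2_box d (-r) (L + r)) 1) u =
      ∫⁻ x, ENNReal.ofReal (Set.indicator (w2_box d (-r) (L + r)) (1 : E d → ℝ) (x + a)) *
        ‖fn w x‖ₑ ^ 2 := by
    rw [← lintegral_sub_right_eq_self _ a]
    refine lintegral_congr_ae ?_
    filter_upwards [hu] with x hx
    rw [hx, sub_add_cancel]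
  rw [e1]
  refine (ENNReal.ofReal_le_ofReal hc).trans ?_
  rw [ofReal_integral_eq_lintegral_ofReal (fn_sq w).1.integrableOn
    (Filter.Eventually.of_forall fun x => sq_nonneg _), ← lintegral_indicator (w2_meas _ _)]
  refine lintegral_mono fun x => ?_
  by_cases hx : x ∈ w2_box d (-r) r
  · have hx' : x + a ∈ w2_box d (-r) (L + r) := fun k => by
      rw [PiLp.add_apply]
      exact ⟨by linarith [(hx k).1, h0 k], by linarith [(hx k).2, h1 k]⟩
    rw [Set.indicator_of_mem hx, Set.indicator_of_mem hx', ENNReal.ofReal_pow (norm_nonneg _),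
      ofReal_norm]
    simp
  · rw [Set.indicator_of_notMem hx]
    exact zero_le

theorem w2_phase (m : ℝ) {γ : ℝ} (hγ : 0 < γ) {B : Set (E d)} (hB : MeasurableSet B) :
    phase m γ (Set.indicator B 1) =
      volume B * ∫⁻ ξ : E d, ENNReal.ofReal (1 - sym m ξ) ^ γ := by
  have h1 : ∀ x : E d, ∫⁻ ξ : E d, ENNReal.ofReal (Set.indicator B (1 : E d → ℝ) x - sym m ξ) ^ γ =
      Set.indicator B (fun _ => ∫⁻ ξ : E d, ENNReal.ofReal (1 - sym m ξ) ^ γ) x := by
    intro x
    by_cases hx : x ∈ B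
    · simp only [Set.indicator_of_mem hx, Pi.one_apply]
    · have h2 : ∀ ξ : E d, ENNReal.ofReal (0 - sym m ξ) ^ γ = 0 := fun ξ => by
        rw [ENNReal.ofReal_of_nonpos (by linarith [sym_nonneg m ξ]), ENNReal.zero_rpow_of_pos hγ]
      simp only [Set.indicator_of_notMem hx, h2, lintegral_zero]
  unfold phase
  simp only [h1]
  rw [lintegral_indicator_const hB, mul_comm]

theorem phi_fin (m : ℝ) {γ : ℝ} (hγ : 0 < γ) :
    ∫⁻ ξ : E d, ENNReal.ofReal (1 - sym m ξ) ^ γ ≠ ∞ := by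
  have hpi := Real.pi_pos
  have h1 : ∀ ξ : E d, ENNReal.ofReal (1 - sym m ξ) ^ γ ≤
      Set.indicator (Metric.closedBall (0 : E d) ((1 + |m|) / (2 * Real.pi))) 1 ξ := by
    intro ξ
    by_cases hx : ξ ∈ Metric.closedBall (0 : E d) ((1 + |m|) / (2 * Real.pi))
    · rw [Set.indicator_of_mem hx, Pi.one_apply]
      exact ENNReal.rpow_le_one (ENNReal.ofReal_le_one.2 (by linarith [sym_nonneg m ξ])) hγ.le
    · rw [Set.indicator_of_notMem hx]
      rw [mem_closedBall_zero_iff, not_le, div_lt_iff₀ (by positivity)] at hx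
      rw [ENNReal.ofReal_of_nonpos (by linarith [sym_ge m ξ, le_abs_self m]),
        ENNReal.zero_rpow_of_pos hγ]
  refine ne_top_of_le_ne_top ?_ (lintegral_mono h1)
  rw [lintegral_indicator_one measurableSet_closedBall]
  exact measure_closedBall_lt_top.ne

theorem lower_sum {m γ C : ℝ} (hγ : 0 < γ) (H : LiebThirring d m γ C) {h η : ℝ} (hh : 0 < h)
    (hη : 0 < η) (F : Finset (Fin d → ℤ)) :
    ENNReal.ofReal (h ^ d *
        ∑ k ∈ F, max (1 - η - sym m (zl h k) - 2 * Real.pi * (d * h)) 0 ^ γ)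
      ≤ ENNReal.ofReal C * ∫⁻ ξ : E d, ENNReal.ofReal (1 - sym m ξ) ^ γ := by
  obtain ⟨w, u, hu, hw, huw, hkin⟩ := shannon (d := d) hh m
  obtain ⟨n, hn⟩ := (Filter.eventually_all.2 fun p : F => w2_radius (w p.1) (hw _) hη).exists
  set S := ∑ k ∈ F, max (1 - η - sym m (zl h k) - 2 * Real.pi * (d * h)) 0 ^ γ with hS
  set Φ := (∫⁻ ξ : E d, ENNReal.ofReal (1 - sym m ξ) ^ γ).toReal with hΦ
  have hΦ' : ∫⁻ ξ : E d, ENNReal.ofReal (1 - sym m ξ) ^ γ = ENNReal.ofReal Φ :=
    (ENNReal.ofReal_toReal (phi_fin m hγ)).symm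
  have hΦ0 : 0 ≤ Φ := ENNReal.toReal_nonneg
  have hn0 : (0 : ℝ) ≤ n := Nat.cast_nonneg _
  have hC : 0 ≤ max C 0 := le_max_right _ _
  have hpi := Real.pi_pos
  have h3 : ENNReal.ofReal C = ENNReal.ofReal (max C 0) := by
    rcases le_total C 0 with h' | h'
    · rw [max_eq_right h', ENNReal.ofReal_of_nonpos h', ENNReal.ofReal_zero]
    · rw [max_eq_left h']
  have key : ∀ J : ℕ, (J : ℝ) ^ d * S ≤ max C 0 * ((J / h + 2 * n) ^ d * Φ) := fun J => by
    let e : F × (Fin d → Fin J) → (Fin d → ℤ) × (Fin d → ℤ) :=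
      fun q => (q.1.1, fun k => ((q.2 k : ℕ) : ℤ))
    have he : Function.Injective e := fun q q' hq =>
      Prod.ext (Subtype.ext (congrArg Prod.fst hq))
        (funext fun k => Fin.ext (Int.ofNat_injective (congrFun (congrArg Prod.snd hq) k)))
    let φ := (Fintype.equivFin (F × (Fin d → Fin J))).symm
    have h1 := H _ (u ∘ e ∘ φ) (hu.comp _ (he.comp φ.injective))
      (Set.indicator (w2_box d (-(n : ℝ)) (J / h + n)) 1) (measurable_one.indicator (w2_meas _ _))
    have hJ : (0 : ℝ) ≤ J / h := by positivity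
    have hL : (0 : ℝ) ≤ (J / h + 2 * n) ^ d := by positivity
    have e2 : (J : ℝ) / h + n - -(n : ℝ) = J / h + 2 * n := by ring
    rw [w2_phase m hγ (w2_meas _ _), w2_vol (by linarith), e2, hΦ', h3,
      ← ENNReal.ofReal_mul hL, ← ENNReal.ofReal_mul hC] at h1
    have h4 : ∀ q : F × (Fin d → Fin J),
        ENNReal.ofReal (max (1 - η - sym m (zl h q.1.1) - 2 * Real.pi * (d * h)) 0 ^ γ) ≤
          (pot (Set.indicator (w2_box d (-(n : ℝ)) (J / h + n)) 1) (u (e q))
            - kin m (u (e q))) ^ γ := by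
      intro q
      have a1 := w2_pot (L := J / h) (w q.1.1) (u (e q)) (huw q.1.1 fun k => ((q.2 k : ℕ) : ℤ))
        (fun k => by
          show 0 ≤ h⁻¹ * ((((q.2 k : ℕ) : ℤ)) : ℝ)
          positivity)
        (fun k => by
          show h⁻¹ * ((((q.2 k : ℕ) : ℤ)) : ℝ) ≤ J / h
          rw [div_eq_inv_mul]
          refine mul_le_mul_of_nonneg_left ?_ (by positivity)
          exact_mod_cast (q.2 k).2.le) (hn q.1)
      have a2 := hkin q.1.1 fun k => ((q.2 k : ℕ) : ℤ)
      rw [← ENNReal.ofReal_rpow_of_nonneg (le_max_right _ _) hγ.le]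
      refine ENNReal.rpow_le_rpow ?_ hγ.le
      refine le_trans ?_ (tsub_le_tsub a1 a2)
      rw [← ENNReal.ofReal_sub _ (add_nonneg (sym_nonneg _ _) (by positivity)), ← sub_sub]
      rcases le_total (1 - η - sym m (zl h q.1.1) - 2 * Real.pi * (d * h)) 0 with h' | h'
      · rw [max_eq_right h', ENNReal.ofReal_zero]
        exact zero_le
      · rw [max_eq_left h']
    have h5 := (Finset.sum_le_sum fun i (_ : i ∈ Finset.univ) => h4 (φ i)).trans h1
    rw [← ENNReal.ofReal_sum_of_nonneg fun _ _ => Real.rpow_nonneg (le_max_right _ _) _,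
      ENNReal.ofReal_le_ofReal_iff (mul_nonneg hC (mul_nonneg hL hΦ0)),
      φ.sum_comp fun q => max (1 - η - sym m (zl h q.1.1) - 2 * Real.pi * (d * h)) 0 ^ γ] at h5
    refine le_trans (le_of_eq ?_) h5
    rw [hS, ← Finset.sum_coe_sort F, Fintype.sum_prod_type, Finset.mul_sum]
    refine Finset.sum_congr rfl fun k _ => ?_
    simp only [Finset.sum_const, Finset.card_univ, Fintype.card_fun, Fintype.card_fin,
      nsmul_eq_mul, Nat.cast_pow]
  rw [hΦ', h3, ← ENNReal.ofReal_mul hC]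
  refine ENNReal.ofReal_le_ofReal ?_
  have t1 : Filter.Tendsto (fun J : ℕ => max C 0 * ((1 + 2 * n * h / J) ^ d * Φ)) Filter.atTop
      (nhds (max C 0 * ((1 + 0) ^ d * Φ))) :=
    ((((tendsto_const_div_atTop_nhds_zero_nat (2 * n * h)).const_add 1).pow d).mul_const
      Φ).const_mul _
  rw [add_zero, one_pow, one_mul] at t1
  refine ge_of_tendsto t1 ?_
  filter_upwards [Filter.eventually_gt_atTop 0] with J hJ
  have hJ0 : (0 : ℝ) < J := Nat.cast_pos.2 hJ
  have h6 := mul_le_mul_of_nonneg_left (key J) (show (0 : ℝ) ≤ (h / J) ^ d by positivity)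
  have e3 : (h / J) ^ d * ((J : ℝ) ^ d * S) = h ^ d * S := by
    rw [← mul_assoc, ← mul_pow, div_mul_cancel₀ _ hJ0.ne']
  have e4 : (h / J) * (J / h + 2 * n) = 1 + 2 * n * h / J := by
    field_simp
  have e5 : (h / J) ^ d * (max C 0 * ((J / h + 2 * n) ^ d * Φ)) =
      max C 0 * ((1 + 2 * n * h / J) ^ d * Φ) := by
    rw [← e4, mul_pow]
    ring
  rwa [e3, e5] at h6

end Pool.Agent.P.MP_9f4f5e_mp.RL
end
end

-- part Pool.Agent.P.MP_9f4f5e_mp.RL.W3
section

set_option linter.unusedSectionVars false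
set_option linter.unusedVariables false

open MeasureTheory Matrix
open scoped ENNReal ComplexOrder ComplexConjugate FourierTransform RealInnerProductSpace
open Pool.Agent.P.MP_9f4f5e_mp.LT (tp pp dg qf ec fej Spec)

noncomputable section

namespace Pool.Agent.P.MP_9f4f5e_mp.RL

variable {d : ℕ} {ι κ : Type} [Fintype ι] [DecidableEq ι] [Fintype κ]

/-- the momentum cell with corner at a lattice point -/
def w3cell (h : ℝ) (k : Fin d → ℤ) : Set (E d) :=
  {ξ | ∀ i, ξ i ∈ Set.Ico (h * (k i : ℝ)) (h * (k i : ℝ) + h)}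

theorem w3_meas (h : ℝ) (k : Fin d → ℤ) : MeasurableSet (w3cell h k) :=
  measurableSet_box (fun i => Set.Ico (h * (k i : ℝ)) (h * (k i : ℝ) + h))
    fun _ => measurableSet_Ico

theorem w3_vol {h : ℝ} (hh : 0 < h) (k : Fin d → ℤ) :
    volume (w3cell h k) = ENNReal.ofReal (h ^ d) := by
  have := volume_box (fun i => Set.Ico (h * (k i : ℝ)) (h * (k i : ℝ) + h))
    fun _ => measurableSet_Ico
  unfold w3cell
  rw [this]
  simp only [Real.volume_Ico, add_sub_cancel_left, Finset.prod_const, Finset.card_univ,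
    Fintype.card_fin]
  rw [ENNReal.ofReal_pow hh.le]

theorem w3_mem {h : ℝ} (hh : 0 < h) (ξ : E d) : ξ ∈ w3cell h fun i => ⌊ξ i / h⌋ := fun i => by
  have h1 := Int.floor_le (ξ i / h)
  have h2 := Int.lt_floor_add_one (ξ i / h)
  rw [le_div_iff₀ hh] at h1
  rw [div_lt_iff₀ hh] at h2
  exact ⟨by linarith, by linarith⟩

theorem w3_sym (m : ℝ) {h : ℝ} {k : Fin d → ℤ} {ξ : E d} (hξ : ξ ∈ w3cell h k) :
    sym m (zl h k) ≤ sym m ξ + 2 * Real.pi * (d * h) := by
  have h1 := sym_lip m (zl h k) (ξ - zl h k)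
  rw [add_sub_cancel] at h1
  have h2 : ‖ξ - zl h k‖ ≤ d * h := norm_le_of_coord fun i => by
    have h3 := hξ i
    have h4 : (ξ - zl h k) i = ξ i - h * (k i : ℝ) := rfl
    rw [h4, abs_le]
    exact ⟨by linarith [h3.1, h3.2], by linarith [h3.1, h3.2]⟩
  have := mul_le_mul_of_nonneg_left h2 (by positivity : (0 : ℝ) ≤ 2 * Real.pi)
  linarith

theorem riemann (m : ℝ) {γ : ℝ} (hγ : 0 < γ) {h : ℝ} (hh : 0 < h) (b : ℝ) :
    ∃ F : Finset (Fin d → ℤ),
      ∫⁻ ξ : E d, ENNReal.ofReal (b - 2 * Real.pi * (d * h) - sym m ξ) ^ γ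
        ≤ ENNReal.ofReal (h ^ d * ∑ k ∈ F, max (b - sym m (zl h k)) 0 ^ γ) := by
  have hπ := Real.pi_pos
  let R : ℤ := ⌈(b + m) / (2 * Real.pi) / h⌉
  let F : Finset (Fin d → ℤ) := Fintype.piFinset fun _ => Finset.Icc (-R) R
  let c : (Fin d → ℤ) → ℝ := fun k => max (b - sym m (zl h k)) 0 ^ γ
  have hc : ∀ k, 0 ≤ c k := fun k => Real.rpow_nonneg (le_max_right _ _) _
  refine ⟨F, ?_⟩
  have key : ∀ ξ : E d, ENNReal.ofReal (b - 2 * Real.pi * (d * h) - sym m ξ) ^ γ
      ≤ ∑ k ∈ F, (w3cell h k).indicator (fun _ => ENNReal.ofReal (c k)) ξ := fun ξ => by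
    rcases le_or_gt (b - 2 * Real.pi * (d * h) - sym m ξ) 0 with h0 | h0
    · rw [ENNReal.ofReal_of_nonpos h0, ENNReal.zero_rpow_of_pos hγ]
      exact zero_le
    have h1 : ‖ξ‖ ≤ (b + m) / (2 * Real.pi) := by
      rw [le_div_iff₀ (by positivity)]
      have h2 := sym_ge m ξ
      have h3 : 0 ≤ 2 * Real.pi * (d * h) := by positivity
      linarith
    have hk : (fun i => ⌊ξ i / h⌋) ∈ F := by
      refine Fintype.mem_piFinset.2 fun i => Finset.mem_Icc.2 ?_
      have h2 : |ξ i| ≤ (b + m) / (2 * Real.pi) := (PiLp.norm_apply_le ξ i).trans h1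
      have h3 : (b + m) / (2 * Real.pi) / h ≤ R := Int.le_ceil _
      rw [abs_le] at h2
      have h4 : ξ i / h ≤ (b + m) / (2 * Real.pi) / h := div_le_div_of_nonneg_right h2.2 hh.le
      have h5 : -((b + m) / (2 * Real.pi)) / h ≤ ξ i / h := div_le_div_of_nonneg_right h2.1 hh.le
      rw [neg_div] at h5
      refine ⟨Int.le_floor.2 ?_, ?_⟩
      · push_cast
        linarith
      · have h6 := Int.floor_le (ξ i / h)
        exact Int.cast_le.1 (h6.trans (h4.trans h3))
    refine le_trans ?_ (Finset.single_le_sum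
      (f := fun k => (w3cell h k).indicator (fun _ => ENNReal.ofReal (c k)) ξ)
      (fun _ _ => zero_le) hk)
    rw [Set.indicator_of_mem (w3_mem hh ξ),
      ← ENNReal.ofReal_rpow_of_nonneg (le_max_right _ _) hγ.le]
    refine ENNReal.rpow_le_rpow (ENNReal.ofReal_le_ofReal (le_max_of_le_left ?_)) hγ.le
    have := w3_sym m (w3_mem hh ξ)
    linarith
  refine (lintegral_mono key).trans (le_of_eq ?_)
  rw [lintegral_finsetSum _ fun k _ => measurable_const.indicator (w3_meas h k), Finset.mul_sum,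
    ENNReal.ofReal_sum_of_nonneg fun k _ => mul_nonneg (pow_nonneg hh.le d) (hc k)]
  refine Finset.sum_congr rfl fun k _ => ?_
  rw [lintegral_indicator_const (w3_meas h k), w3_vol hh, ENNReal.ofReal_mul (pow_nonneg hh.le d),
    mul_comm]

end Pool.Agent.P.MP_9f4f5e_mp.RL
end
end

-- part Pool.Agent.P.MP_9f4f5e_mp.RL.W4
section

set_option linter.unusedSectionVars false
set_option linter.unusedVariables false

open MeasureTheory Matrix
open scoped ENNReal ComplexOrder ComplexConjugate FourierTransform RealInnerProductSpace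
open Pool.Agent.P.MP_9f4f5e_mp.LT (tp pp dg qf ec fej Spec)

noncomputable section

namespace Pool.Agent.P.MP_9f4f5e_mp.RL

variable {d : ℕ} {ι κ : Type} [Fintype ι] [DecidableEq ι] [Fintype κ]

theorem phi_pos {m : ℝ} (hm : 0 ≤ m) {γ : ℝ} (hγ : 0 < γ) :
    ∫⁻ ξ : E d, ENNReal.ofReal (1 - sym m ξ) ^ γ ≠ 0 := by
  have hπ := Real.pi_pos
  have hr : (0 : ℝ) < 1 / (4 * Real.pi) := by positivity
  have h1 : ENNReal.ofReal (1 / 2) ^ γ * volume (Metric.ball (0 : E d) (1 / (4 * Real.pi)))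
      ≤ ∫⁻ ξ : E d, ENNReal.ofReal (1 - sym m ξ) ^ γ := by
    rw [← lintegral_indicator_const measurableSet_ball]
    refine lintegral_mono fun ξ => ?_
    by_cases hξ : ξ ∈ Metric.ball (0 : E d) (1 / (4 * Real.pi))
    · rw [Set.indicator_of_mem hξ]
      refine ENNReal.rpow_le_rpow (ENNReal.ofReal_le_ofReal ?_) hγ.le
      have h2 := sym_le hm ξ
      rw [mem_ball_zero_iff, lt_div_iff₀ (by positivity)] at hξ
      nlinarith
    · rw [Set.indicator_of_notMem hξ]
      exact zero_le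
  refine (lt_of_lt_of_le ?_ h1).ne'
  refine ENNReal.mul_pos ?_ (Metric.measure_ball_pos volume _ hr).ne'
  exact (ENNReal.rpow_pos (ENNReal.ofReal_pos.2 (by norm_num)) ENNReal.ofReal_ne_top).ne'

theorem w4_step {m γ C : ℝ} (hγ : 0 < γ) (H : LiebThirring d m γ C) {h : ℝ} (hh : 0 < h) :
    ∫⁻ ξ : E d, ENNReal.ofReal (1 - (1 + 4 * Real.pi * d) * h - sym m ξ) ^ γ
      ≤ ENNReal.ofReal C * ∫⁻ ξ : E d, ENNReal.ofReal (1 - sym m ξ) ^ γ := by
  obtain ⟨F, hF⟩ := riemann (d := d) m hγ hh (1 - h - 2 * Real.pi * (d * h))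
  have h2 := lower_sum hγ H hh hh F
  have e1 : 1 - h - 2 * Real.pi * (d * h) - 2 * Real.pi * (d * h)
      = 1 - (1 + 4 * Real.pi * d) * h := by ring
  have e2 : ∀ k : Fin d → ℤ, 1 - h - 2 * Real.pi * (d * h) - sym m (zl h k)
      = 1 - h - sym m (zl h k) - 2 * Real.pi * (d * h) := fun k => by ring
  rw [e1] at hF
  simp only [e2] at hF
  exact hF.trans h2

theorem lt_lower {m γ C : ℝ} (hm : 0 ≤ m) (hγ : 0 < γ) (H : LiebThirring d m γ C) : 1 ≤ C := by
  set Φ := ∫⁻ ξ : E d, ENNReal.ofReal (1 - sym m ξ) ^ γ with hΦ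
  let K : ℝ := 1 + 4 * Real.pi * d
  let f : ℕ → E d → ℝ≥0∞ := fun n ξ =>
    ENNReal.ofReal (1 - K * (1 / ((n : ℝ) + 1)) - sym m ξ) ^ γ
  have hf : ∀ n, Measurable (f n) := fun n =>
    (ENNReal.continuous_rpow_const.comp (ENNReal.continuous_ofReal.comp
      (continuous_const.sub (continuous_sym m)))).measurable
  have ht : ∀ ξ : E d, Filter.Tendsto (fun n => f n ξ) Filter.atTop
      (nhds (ENNReal.ofReal (1 - sym m ξ) ^ γ)) := fun ξ => by
    have h0 : Filter.Tendsto (fun n : ℕ => 1 - K * (1 / ((n : ℝ) + 1)) - sym m ξ) Filter.atTop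
        (nhds (1 - K * 0 - sym m ξ)) :=
      (tendsto_const_nhds.sub (tendsto_one_div_add_atTop_nhds_zero_nat.const_mul K)).sub
        tendsto_const_nhds
    rw [mul_zero, sub_zero] at h0
    exact ((ENNReal.continuous_rpow_const.comp ENNReal.continuous_ofReal).tendsto _).comp h0
  have h1 : Φ ≤ ENNReal.ofReal C * Φ := by
    have h2 := lintegral_liminf_le (μ := (volume : Measure (E d))) (u := Filter.atTop) hf
    simp only [fun ξ => (ht ξ).liminf_eq] at h2
    refine h2.trans (Filter.liminf_le_of_frequently_le' (Filter.Frequently.of_forall fun n => ?_))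
    exact w4_step hγ H (by positivity)
  have h3 : 1 ≤ ENNReal.ofReal C := by
    rwa [← ENNReal.mul_le_mul_iff_left (phi_pos hm hγ) (phi_fin m hγ), one_mul]
  exact ENNReal.one_le_ofReal.1 h3

end Pool.Agent.P.MP_9f4f5e_mp.RL
end
end

-- part Pool.Agent.P.MP_9f4f5e_mp.RL.Main
section

set_option linter.unusedSectionVars false
set_option linter.unusedVariables false

open MeasureTheory Matrix
open scoped ENNReal ComplexOrder ComplexConjugate FourierTransform RealInnerProductSpace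
open Pool.Agent.P.MP_9f4f5e_mp.LT (tp pp dg qf ec fej Spec)

noncomputable section

namespace Pool.Agent.P.MP_9f4f5e_mp.RL

variable {d : ℕ} {ι κ : Type} [Fintype ι] [DecidableEq ι] [Fintype κ]

theorem sharp (d : ℕ) {m γ : ℝ} (hm : 0 ≤ m) (hγ : 3 ≤ γ) :
    IsLeast {C : ℝ | LiebThirring d m γ C} 1 :=
  ⟨lt_upper hm hγ, fun _ hC => lt_lower hm (by linarith) hC⟩

end Pool.Agent.P.MP_9f4f5e_mp.RL
end
end
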