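import Pool.Agent.K.MP_9f4f5e_mp.C0

-- part Pool.Agent.P.MP_9f4f5e_mp.LT.B1
section

set_option autoImplicit false
set_option linter.unusedSectionVars false

open MeasureTheory Matrix
open scoped ENNReal ComplexOrder ComplexConjugate RealInnerProductSpace FourierTransform

noncomputable section

namespace Pool.Agent.P.MP_9f4f5e_mp.LT

variable {ι : Type} [Fintype ι] [DecidableEq ι]

/-- Hint: continuous (continuous_tp_sub_dg) with compact support: for
|t| ≥ ∑ |a i| + ∑ i j ‖V i j‖ the negative of the matrix is PosSemidef (le_entry_sum,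
dg_posSemidef), then tp_eq_zero. -/
theorem integrable_tp {V : Matrix ι ι ℂ} (hV : V.IsHermitian) (a : ι → ℝ) {k : ℕ} (hk : k ≠ 0) :
    Integrable fun t : ℝ => tp k (V - dg fun i => |a i - t|) := by
  have hc : Continuous fun t : ℝ => tp k (V - dg fun i => |a i - t|) :=
    continuous_tp_sub_dg hV (d := fun t i => |a i - t|)
      (fun i => (continuous_const.sub continuous_id).abs) hk
  refine hc.integrable_of_hasCompactSupport ?_
  set S : ℝ := ∑ i, ∑ j, ‖V i j‖ with hS
  set R : ℝ := ∑ i, |a i| + S with hR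
  refine HasCompactSupport.intro (isCompact_Icc (a := -R) (b := R)) fun t ht => ?_
  have hRt : R ≤ |t| := by
    by_contra hlt
    exact ht (Set.mem_Icc.2 (abs_le.1 (not_le.1 hlt).le))
  refine tp_eq_zero ?_ hk
  have h1 : -(V - dg fun i => |a i - t|)
      = (dg fun i => |a i - t| - S) + ((dg fun _ => S) - V) := by
    rw [← dg_sub]
    abel
  rw [h1]
  refine (dg_posSemidef fun i => ?_).add (le_entry_sum hV)
  have h2 : |a i| ≤ ∑ j, |a j| :=
    Finset.single_le_sum (f := fun j => |a j|) (fun j _ => abs_nonneg _) (Finset.mem_univ i)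
  have h3 : |t| - |a i| ≤ |a i - t| := by
    rw [abs_sub_comm]
    exact abs_sub_abs_le_abs_sub t (a i)
  linarith

/-- passage to the lower integral -/
theorem lintegral_tp_eq {V : Matrix ι ι ℂ} (hV : V.IsHermitian) (a : ι → ℝ) {k : ℕ}
    (hk : k ≠ 0) : ∫⁻ t : ℝ, ENNReal.ofReal (tp k (V - dg fun i => |a i - t|))
      = ENNReal.ofReal (∫ t : ℝ, tp k (V - dg fun i => |a i - t|)) := by
  refine (ofReal_integral_eq_lintegral_ofReal (integrable_tp hV a hk) ?_).symm
  exact Filter.Eventually.of_forall fun t => tp_nonneg (hV.sub (dg_isHermitian _)) k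

/-- scalar integral -/
theorem integral_Ioi_max_pow (x : ℝ) {k : ℕ} (hk : k ≠ 0) :
    IntegrableOn (fun s : ℝ => max (x - s) 0 ^ k) (Set.Ioi 0) ∧
      ∫ s in Set.Ioi (0 : ℝ), max (x - s) 0 ^ k = max x 0 ^ (k + 1) / (k + 1) := by
  have hc : Continuous fun s : ℝ => max (x - s) 0 ^ k :=
    ((continuous_const.sub continuous_id).max continuous_const).pow k
  set y : ℝ := max x 0 with hy
  have hy0 : 0 ≤ y := le_max_right _ _
  have hzero : ∀ s ∈ Set.Ioi y, max (x - s) 0 ^ k = 0 := by
    intro s hs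
    have h1 : x - s ≤ 0 := by
      have h2 : x ≤ y := le_max_left _ _
      have h3 : y < s := hs
      linarith
    rw [max_eq_right h1, zero_pow hk]
  have hsplit : Set.Ioi (0 : ℝ) = Set.Ioc 0 y ∪ Set.Ioi y := (Set.Ioc_union_Ioi_eq_Ioi hy0).symm
  have hi1 : IntegrableOn (fun s : ℝ => max (x - s) 0 ^ k) (Set.Ioc 0 y) :=
    (hc.integrableOn_Icc (a := 0) (b := y)).mono_set Set.Ioc_subset_Icc_self
  have hi2 : IntegrableOn (fun s : ℝ => max (x - s) 0 ^ k) (Set.Ioi y) :=
    (integrableOn_zero (μ := volume) (s := Set.Ioi y)).congr_fun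
      (fun s hs => (hzero s hs).symm) measurableSet_Ioi
  refine ⟨hsplit ▸ hi1.union hi2, ?_⟩
  rw [hsplit, setIntegral_union (Set.Ioc_disjoint_Ioi le_rfl) measurableSet_Ioi hi1 hi2,
    setIntegral_eq_zero_of_forall_eq_zero hzero, add_zero]
  have h4 : ∫ s in Set.Ioc (0 : ℝ) y, max (x - s) 0 ^ k = ∫ s in Set.Ioc (0 : ℝ) y, (y - s) ^ k := by
    refine setIntegral_congr_fun measurableSet_Ioc fun s hs => ?_
    have h5 : x = y := by
      rcases le_total x 0 with h | h
      · have h6 : y = 0 := max_eq_right h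
        exact absurd (hs.1.trans_le hs.2) (by rw [h6]; exact lt_irrefl _)
      · exact (max_eq_left h).symm
    change max (x - s) 0 ^ k = (y - s) ^ k
    rw [h5, max_eq_left (sub_nonneg.2 hs.2)]
  rw [h4, ← intervalIntegral.integral_of_le hy0,
    intervalIntegral.integral_comp_sub_left (fun s => s ^ k) y, integral_pow]
  simp

end Pool.Agent.P.MP_9f4f5e_mp.LT
end
end

-- part Pool.Agent.P.MP_9f4f5e_mp.LT.B2
section

set_option autoImplicit false
set_option linter.unusedSectionVars false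

open MeasureTheory Matrix
open scoped ENNReal ComplexOrder ComplexConjugate RealInnerProductSpace FourierTransform

noncomputable section

namespace Pool.Agent.P.MP_9f4f5e_mp.LT

variable {ι : Type} [Fintype ι] [DecidableEq ι]

/-- Layer cake formula. Hint: Spec.shift, Spec.tp_eq, integral_Ioi_max_pow. -/
theorem lintegral_tp_shift {M : Matrix ι ι ℂ} (hM : M.IsHermitian) {k : ℕ} (hk : k ≠ 0) :
    ∫⁻ s in Set.Ioi (0 : ℝ), ENNReal.ofReal (tp k (M - dg fun _ => s))
      = ENNReal.ofReal (tp (k + 1) M / (k + 1)) := by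
  obtain ⟨U, l, h⟩ := exists_spec hM
  have h1 : ∀ s : ℝ, tp k (M - dg fun _ => s) = ∑ i, max (l i - s) 0 ^ k :=
    fun s => (h.shift s).tp_eq k
  simp_rw [h1]
  have hi : IntegrableOn (fun s : ℝ => ∑ i, max (l i - s) 0 ^ k) (Set.Ioi 0) :=
    integrable_finsetSum _ fun i _ => (integral_Ioi_max_pow (l i) hk).1
  rw [← ofReal_integral_eq_lintegral_ofReal hi (ae_of_all _ fun s =>
    Finset.sum_nonneg fun i _ => pow_nonneg (le_max_right _ _) _),
    integral_finsetSum _ fun i _ => (integral_Ioi_max_pow (l i) hk).1, h.tp_eq, Finset.sum_div]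
  congr 1
  exact Finset.sum_congr rfl fun i _ => (integral_Ioi_max_pow (l i) hk).2

theorem b2_scalar (x b : ℝ) : Integrable (fun t : ℝ => max (x - |b - t|) 0 ^ 2) ∧
    ∫ t : ℝ, max (x - |b - t|) 0 ^ 2 = 2 / 3 * max x 0 ^ 3 := by
  constructor
  · refine Continuous.integrable_of_hasCompactSupport (by fun_prop) ?_
    refine HasCompactSupport.intro (isCompact_Icc (a := b - |x|) (b := b + |x|)) fun t ht => ?_
    have h1 : x - |b - t| ≤ 0 := by
      have h2 := le_abs_self x
      have h3 := le_abs_self (b - t)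
      have h4 := neg_abs_le (b - t)
      rw [Set.mem_Icc, not_and_or, not_le, not_le] at ht
      rcases ht with ht | ht <;> linarith
    rw [max_eq_right h1]
    norm_num
  · rw [integral_sub_left_eq_self (fun t : ℝ => max (x - |t|) 0 ^ 2) volume b,
      integral_comp_abs (f := fun s : ℝ => max (x - s) 0 ^ 2),
      (integral_Ioi_max_pow x two_ne_zero).2]
    push_cast
    ring

/-- All points equal. Hint: Spec.shift; ∫ t, max (x - |b - t|) 0 ^ 2 = 2 * max x 0 ^ 3 / 3
(integral_sub_left_eq_self, integral_comp_abs, integral_Ioi_max_pow). -/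
theorem integral_tp_const {V : Matrix ι ι ℂ} (hV : V.IsHermitian) (b : ℝ) :
    ∫ t : ℝ, tp 2 (V - dg fun _ => |b - t|) = 2 / 3 * tp 3 V := by
  obtain ⟨U, l, h⟩ := exists_spec hV
  have h1 : ∀ t : ℝ, tp 2 (V - dg fun _ => |b - t|) = ∑ i, max (l i - |b - t|) 0 ^ 2 :=
    fun t => (h.shift _).tp_eq 2
  simp_rw [h1]
  rw [integral_finsetSum _ fun i _ => (b2_scalar (l i) b).1, h.tp_eq, Finset.mul_sum]
  exact Finset.sum_congr rfl fun i _ => (b2_scalar (l i) b).2

end Pool.Agent.P.MP_9f4f5e_mp.LT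
end
end

-- part Pool.Agent.P.MP_9f4f5e_mp.LT.A6
section

set_option autoImplicit false
set_option linter.unusedSectionVars false

open MeasureTheory Matrix
open scoped ENNReal ComplexOrder ComplexConjugate RealInnerProductSpace FourierTransform

noncomputable section

namespace Pool.Agent.P.MP_9f4f5e_mp.LT

variable {ι : Type} [Fintype ι] [DecidableEq ι]

/-- Hint: W = V - dg (single n ε), Spec W U l; W + ε is PosSemidef (Spec.shift with s = -ε and
Spec.nonneg_of_posSemidef), so -ε ≤ l i and max (l i) 0 ^ 3 ≤ l i ^ 3 + ε ^ 3;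
∑ l i ^ 3 = (W ^ 3).trace.re (Spec.pow_eq); expand with E = dg (single n 1), E * E = E,
trace cyclicity, (A * E).trace = A n n; tp_of_posSemidef. -/
theorem tp_three_sub {V : Matrix ι ι ℂ} (hV : V.PosSemidef) (n : ι) {ε : ℝ} (hε : 0 ≤ ε) :
    tp 3 (V - dg (Pi.single n ε)) ≤ tp 3 V - 3 * ε * ((V * V) n n).re
      + 3 * ε ^ 2 * (V n n).re + Fintype.card ι * ε ^ 3 := by
  obtain ⟨U, l, h⟩ := exists_spec (hV.isHermitian.sub (dg_isHermitian (Pi.single n ε)))
  have l0 : ∀ i, 0 ≤ l i - -ε := (h.shift (-ε)).nonneg_of_posSemidef (by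
    rw [sub_sub, dg_add, sub_eq_add_neg, ← zero_sub, show (0 : Matrix ι ι ℂ) = dg fun _ => 0 by
      simp [dg], dg_sub]
    refine hV.add (dg_posSemidef fun i => ?_)
    by_cases e : i = n <;> simp [e, hε])
  have t : ∀ A : Matrix ι ι ℂ, (A * dg (Pi.single n ε)).trace = ε * A n n := fun A => by
    simp only [dg, Matrix.trace, Matrix.diag, Matrix.mul_diagonal]
    rw [Finset.sum_eq_single n (fun i _ e => by simp [e]) (by simp), Pi.single_eq_same, mul_comm]
  have d : ∀ A : Matrix ι ι ℂ, (A * dg (Pi.single n ε)) n n = ε * A n n := fun A => by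
    simp [dg, mul_comm]
  set E := dg (Pi.single n ε : ι → ℝ) with hE
  have e : ((V - E) ^ 3).trace = (V ^ 3).trace - 3 * ε * (V * V) n n + 3 * ε ^ 2 * V n n - ε ^ 3 := by
    have c1 : (V * E * V).trace = ε * (V * V) n n := by rw [trace_mul_cycle, t]
    have c2 : (E * V * V).trace = ε * (V * V) n n := by rw [trace_mul_cycle, c1]
    have c3 : (V * E * E).trace = ε * (ε * V n n) := by rw [t, d]
    have c4 : (E * E * V).trace = ε * (ε * V n n) := by rw [trace_mul_cycle, c3]
    have c5 : (E * V * E).trace = ε * (ε * V n n) := by rw [trace_mul_cycle, c4]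
    have c6 : (E * E * E).trace = ε * (ε * ε) := by rw [t, d, hE, dg_apply]; simp
    rw [show (V - E) ^ 3 = V ^ 3 - (V * V * E + V * E * V + E * V * V) +
      (V * E * E + E * V * E + E * E * V) - E * E * E by noncomm_ring]
    simp only [trace_sub, trace_add, t (V * V), c1, c2, c3, c4, c5, c6]
    ring
  have s : ∑ i, l i ^ 3 = tp 3 V - 3 * ε * ((V * V) n n).re + 3 * ε ^ 2 * (V n n).re - ε ^ 3 := by
    rw [tp_of_posSemidef hV, ← Complex.ofReal_re (∑ i, l i ^ 3), ← h.trace_conj, ← h.pow_eq, e]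
    simp [← Complex.ofReal_pow]
  have b : ∑ i, max (l i) 0 ^ 3 ≤ ∑ i, (l i ^ 3 + ε ^ 3) := Finset.sum_le_sum fun i _ => by
    obtain h | h := le_total (l i) 0
    · have := pow_le_pow_left₀ (neg_nonneg.2 h) (show -l i ≤ ε by linarith [l0 i]) 3
      rw [max_eq_right h]
      nlinarith
    · rw [max_eq_left h]
      linarith [pow_nonneg hε 3]
  rw [Finset.sum_add_distrib, s, Finset.sum_const, Finset.card_univ, nsmul_eq_mul] at b
  rw [h.tp_eq]
  linarith [pow_nonneg hε 3]

end Pool.Agent.P.MP_9f4f5e_mp.LT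
end
end

-- part Pool.Agent.P.MP_9f4f5e_mp.LT.B3
section

set_option autoImplicit false
set_option linter.unusedSectionVars false

open MeasureTheory Matrix
open scoped ENNReal ComplexOrder ComplexConjugate RealInnerProductSpace FourierTransform

noncomputable section

namespace Pool.Agent.P.MP_9f4f5e_mp.LT

variable {ι : Type} [Fintype ι] [DecidableEq ι]

theorem b3_shift (x b : ℝ) :
    IntegrableOn (fun t : ℝ => max (x - (t - b)) 0) (Set.Ioi b) ∧
      ∫ t in Set.Ioi b, max (x - (t - b)) 0 = max x 0 ^ 2 / 2 := by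
  obtain ⟨h1, h2⟩ := integral_Ioi_max_pow x (k := 1) one_ne_zero
  have hp : MeasurePreserving (fun t : ℝ => t - b) volume volume :=
    measurePreserving_sub_right volume b
  have he : MeasurableEmbedding fun t : ℝ => t - b :=
    (Homeomorph.subRight b).measurableEmbedding
  have hs : (fun t : ℝ => t - b) ⁻¹' Set.Ioi 0 = Set.Ioi b := by
    ext t
    simp
  simp only [pow_one] at h1 h2
  refine ⟨?_, ?_⟩
  · have h3 := (hp.integrableOn_comp_preimage he (f := fun s : ℝ => max (x - s) 0)
      (s := Set.Ioi 0)).2 h1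
    rw [hs] at h3
    exact h3
  · have h3 := hp.setIntegral_preimage_emb he (fun s : ℝ => max (x - s) 0) (Set.Ioi 0)
    rw [hs] at h3
    rw [h3, h2]
    norm_num

theorem b3_sq (V : Matrix ι ι ℂ) (a : ι → ℝ) (n : ι) :
    ((V + dg fun i => a i - a n) ^ 2) n n = (V * V) n n := by
  rw [pow_two, Matrix.mul_apply, Matrix.mul_apply]
  refine Finset.sum_congr rfl fun j _ => ?_
  simp only [Matrix.add_apply, dg_apply]
  by_cases h : n = j
  · subst h
    simp
  · simp [h, Ne.symm h]

/-- The region above the top point. Hint: B = V + dg a, Spec B U b; for t > a n the matrix is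
B - dg (fun _ => t) and by Spec.shift, Spec.pp_eq, Spec.conj_apply the entry is
∑ k, ‖U n k‖^2 * max (b k - t) 0; integrate (integral_Ioi_max_pow with k = 1 after the shift
t = a n + s), max x 0 ^ 2 ≤ x ^ 2, and ∑ k, ‖U n k‖^2 * (b k - a n)^2 is the (n,n) entry of C * C,
C = B - dg (fun _ => a n), whose n-th row and n-th column agree with those of V. -/
theorem tail_le {V : Matrix ι ι ℂ} (hV : V.IsHermitian) (a : ι → ℝ) (n : ι)
    (hn : ∀ i, a i ≤ a n) :
    IntegrableOn (fun t : ℝ => (pp (V - dg fun i => |a i - t|) n n).re) (Set.Ioi (a n)) ∧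
      ∫ t in Set.Ioi (a n), (pp (V - dg fun i => |a i - t|) n n).re
        ≤ 1 / 2 * ((V * V) n n).re := by
  have hC : (V + dg fun i => a i - a n).IsHermitian := hV.add (dg_isHermitian _)
  obtain ⟨U, c, hS⟩ := exists_spec hC
  have h1 : ∀ t ∈ Set.Ioi (a n), (pp (V - dg fun i => |a i - t|) n n).re
      = ∑ k, ‖U n k‖ ^ 2 * max (c k - (t - a n)) 0 := by
    intro t ht
    have h2 : (V - dg fun i => |a i - t|)
        = (V + dg fun i => a i - a n) - dg fun _ => t - a n := by
      have h3 : (fun i => |a i - t|) = fun i => (t - a n) - (a i - a n) := by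
        funext i
        have h4 := hn i
        have h5 : a n < t := ht
        rw [abs_of_nonpos (by linarith)]
        ring
      rw [h3, ← dg_sub (fun _ => t - a n) (fun i => a i - a n)]
      abel
    rw [h2, (hS.shift (t - a n)).pp_eq, Spec.conj_apply, Complex.ofReal_re]
  have h6 : ∀ k, IntegrableOn (fun t : ℝ => ‖U n k‖ ^ 2 * max (c k - (t - a n)) 0)
      (Set.Ioi (a n)) := fun k => (b3_shift (c k) (a n)).1.const_mul _
  refine ⟨?_, ?_⟩
  · refine IntegrableOn.congr_fun ?_ (fun t ht => (h1 t ht).symm) measurableSet_Ioi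
    exact integrable_finsetSum _ fun k _ => h6 k
  · rw [setIntegral_congr_fun measurableSet_Ioi h1, integral_finsetSum _ fun k _ => h6 k,
      ← b3_sq V a n, hS.pow_eq, Spec.conj_apply, Complex.ofReal_re, Finset.mul_sum]
    refine Finset.sum_le_sum fun k _ => ?_
    rw [integral_const_mul, (b3_shift (c k) (a n)).2]
    have h7 : max (c k) 0 ^ 2 ≤ c k ^ 2 := by
      rcases le_total (c k) 0 with h | h
      · rw [max_eq_right h]
        nlinarith [sq_nonneg (c k)]
      · rw [max_eq_left h]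
    have h8 := mul_le_mul_of_nonneg_left h7 (sq_nonneg ‖U n k‖)
    linarith

end Pool.Agent.P.MP_9f4f5e_mp.LT
end
end

-- part Pool.Agent.P.MP_9f4f5e_mp.LT.B4
section

set_option autoImplicit false
set_option linter.unusedSectionVars false

open MeasureTheory Matrix
open scoped ENNReal ComplexOrder ComplexConjugate RealInnerProductSpace FourierTransform

noncomputable section

namespace Pool.Agent.P.MP_9f4f5e_mp.LT

variable {ι : Type} [Fintype ι] [DecidableEq ι]

/-- Effect of the simultaneous move on the integral. Hint: with Y t = V - dg |a - t|, the new matrix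
is Y t - dg (single n (c t)), c t = ε + |a n - ε - t| - |a n - t|, c t = 0 for t ≤ a n - ε,
0 ≤ c t ≤ 2 ε. By tp_two_sub, pp_diag_nonneg, pp_diag_sq_le and tp_mono (Y t ≤ V):
tp 2 (Y t) - g t ≤ tp 2 (new), g = indicator (Ioc (a n - ε) (a n)) (4 ε K)
+ indicator (Ioi (a n)) (4 ε (pp (Y t) n n).re); integral_mono, integrable_tp, tail_le. -/
theorem move_integral {V : Matrix ι ι ℂ} (hV : V.PosSemidef) (a : ι → ℝ) (n : ι)
    (hn : ∀ i, a i ≤ a n) {ε K : ℝ} (hε : 0 ≤ ε) (hK : 0 ≤ K) (hVK : tp 2 V ≤ K ^ 2) :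
    (∫ t : ℝ, tp 2 (V - dg fun i => |a i - t|)) - 4 * ε ^ 2 * K - 2 * ε * ((V * V) n n).re
      ≤ ∫ t : ℝ, tp 2 (V - dg (Pi.single n ε)
        - dg fun i => |a i - (Pi.single n ε : ι → ℝ) i - t|) := by
  set Y : ℝ → Matrix ι ι ℂ := fun t => V - dg fun i => |a i - t| with hY
  have hYH : ∀ t, (Y t).IsHermitian := fun t => hV.isHermitian.sub (dg_isHermitian _)
  have hYK : ∀ t, (pp (Y t) n n).re ≤ K := fun t => by
    have h1 : tp 2 (Y t) ≤ tp 2 V := tp_mono (hYH t) hV.isHermitian
      (by simpa [hY] using dg_posSemidef (d := fun i => |a i - t|) fun i => abs_nonneg _)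
      (by norm_num)
    exact (abs_le_of_sq_le_sq' ((pp_diag_sq_le (hYH t) n).trans (h1.trans hVK)) hK).2
  obtain ⟨hi, ht⟩ := tail_le hV.isHermitian a n hn
  set g : ℝ → ℝ := fun t => (Set.Ioc (a n - ε) (a n)).indicator (fun _ => 4 * ε * K) t +
    (Set.Ioi (a n)).indicator (fun t => 4 * ε * (pp (Y t) n n).re) t with hg
  have hg1 : Integrable ((Set.Ioc (a n - ε) (a n)).indicator (fun _ : ℝ => 4 * ε * K)) :=
    (integrable_indicator_iff measurableSet_Ioc).2 (integrableOn_const (by simp))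
  have hg2 : Integrable ((Set.Ioi (a n)).indicator (fun t => 4 * ε * (pp (Y t) n n).re)) :=
    (integrable_indicator_iff measurableSet_Ioi).2 (Integrable.const_mul hi _)
  have hgi : ∫ t, g t ≤ 4 * ε ^ 2 * K + 2 * ε * ((V * V) n n).re := by
    rw [hg, integral_add hg1 hg2, integral_indicator measurableSet_Ioc,
      integral_indicator measurableSet_Ioi, integral_const_mul, integral_const_mul]
    have h1 : ∫ _ in Set.Ioc (a n - ε) (a n), K = ε * K := by
      simp [Measure.real, Real.volume_Ioc, hε]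
    have h2 := mul_le_mul_of_nonneg_left ht (by positivity : 0 ≤ 4 * ε)
    rw [h1]
    simp only [hY]
    linarith
  have hpt : ∀ t, tp 2 (Y t) - g t ≤ tp 2 (V - dg (Pi.single n ε)
      - dg fun i => |a i - (Pi.single n ε : ι → ℝ) i - t|) := by
    intro t
    set c := ε + |a n - ε - t| - |a n - t| with hc
    have e : V - dg (Pi.single n ε) - (dg fun i => |a i - (Pi.single n ε : ι → ℝ) i - t|) =
        Y t - dg (Pi.single n c) := by
      simp only [hY, sub_sub, dg_add]
      congr 2
      funext i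
      by_cases h : i = n
      · subst h
        simp only [Pi.single_eq_same, hc, sub_sub]
        ring
      · simp [Pi.single_eq_of_ne h]
    rw [e]
    refine le_trans ?_ (tp_two_sub (hYH t) n c)
    have h0 := pp_diag_nonneg (hYH t) n
    have h1 := hYK t
    have h2 : c ≤ 2 * ε := by
      have := abs_sub_abs_le_abs_sub (a n - ε - t) (a n - t)
      rw [show a n - ε - t - (a n - t) = -ε by ring, abs_neg, abs_of_nonneg hε] at this
      linarith
    have h3 := mul_le_mul_of_nonneg_right h2 h0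
    simp only [hg, Set.indicator_apply, Set.mem_Ioc, Set.mem_Ioi]
    by_cases c1 : a n < t
    · rw [if_neg (fun h => absurd c1 (not_lt.2 h.2)), if_pos c1]
      linarith
    · rw [if_neg c1]
      by_cases c2 : a n - ε < t
      · rw [if_pos ⟨c2, not_lt.1 c1⟩]
        linarith [mul_le_mul_of_nonneg_left h1 hε]
      · rw [if_neg (fun h => c2 h.1)]
        have : c = 0 := by
          rw [hc, abs_of_nonneg (by linarith), abs_of_nonneg (by linarith)]
          ring
        rw [this]
        simp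
  have hI1 := integrable_tp hV.isHermitian a (k := 2) (by norm_num)
  have hI2 := integrable_tp (hV.isHermitian.sub (dg_isHermitian (Pi.single n ε)))
    (fun i => a i - (Pi.single n ε : ι → ℝ) i) (k := 2) (by norm_num)
  have h := integral_mono (hI1.sub (hg1.add hg2)) hI2 hpt
  have e := integral_sub hI1 (hg1.add hg2)
  simp only [Pi.sub_apply, Pi.add_apply] at h e
  rw [e] at h
  simp only [hg] at hgi
  linarith

/-- One step. Hint: move_integral, tp_mono with pp_sub_posSemidef, tp_pp, tp_three_sub,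
(V n n).re ≤ K from pp_of_posSemidef and pp_diag_sq_le. -/
theorem step {V : Matrix ι ι ℂ} (hV : V.PosSemidef) (a : ι → ℝ) (n : ι)
    (hn : ∀ i, a i ≤ a n) {ε K : ℝ} (hε : 0 ≤ ε) (hK : 0 ≤ K) (hVK : tp 2 V ≤ K ^ 2) :
    tp 2 (pp (V - dg (Pi.single n ε))) ≤ K ^ 2 ∧
    (∫ t : ℝ, tp 2 (V - dg fun i => |a i - t|)) - 2 / 3 * tp 3 V
      ≤ (∫ t : ℝ, tp 2 (pp (V - dg (Pi.single n ε))
          - dg fun i => |a i - (Pi.single n ε : ι → ℝ) i - t|))
        - 2 / 3 * tp 3 (pp (V - dg (Pi.single n ε))) + (6 * K + Fintype.card ι * ε) * ε ^ 2 := by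
  have hW : (V - dg (Pi.single n ε)).IsHermitian := hV.isHermitian.sub (dg_isHermitian _)
  have hP := (pp_posSemidef hW).isHermitian
  constructor
  · rw [tp_pp hW]
    refine (tp_mono hW hV.isHermitian ?_ (by norm_num)).trans hVK
    rw [sub_sub_cancel]
    refine dg_posSemidef fun i => ?_
    by_cases h : i = n
    · subst h; simpa using hε
    · simp [Pi.single_eq_of_ne h]
  have h1 := move_integral hV a n hn hε hK hVK
  have h2 : (∫ t : ℝ, tp 2 (V - dg (Pi.single n ε)
      - dg fun i => |a i - (Pi.single n ε : ι → ℝ) i - t|)) ≤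
      ∫ t : ℝ, tp 2 (pp (V - dg (Pi.single n ε))
        - dg fun i => |a i - (Pi.single n ε : ι → ℝ) i - t|) :=
    integral_mono (integrable_tp hW (fun i => a i - (Pi.single n ε : ι → ℝ) i) (by norm_num))
      (integrable_tp hP (fun i => a i - (Pi.single n ε : ι → ℝ) i) (by norm_num)) fun t =>
      tp_mono (hW.sub (dg_isHermitian _)) (hP.sub (dg_isHermitian _))
        (by rw [sub_sub_sub_cancel_right]; exact pp_sub_posSemidef hW) (by norm_num)
  have h3 := tp_three_sub hV n hε
  have h4 : (V n n).re ≤ K := by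
    have := pp_diag_sq_le hV.isHermitian n
    rw [pp_of_posSemidef hV] at this
    exact (abs_le_of_sq_le_sq' (this.trans hVK) hK).2
  have h5 := mul_le_mul_of_nonneg_left h4 (sq_nonneg ε)
  have h6 : 0 ≤ (Fintype.card ι : ℝ) * ε ^ 3 := by positivity
  rw [tp_pp hW]
  nlinarith

end Pool.Agent.P.MP_9f4f5e_mp.LT
end
end

-- part Pool.Agent.P.MP_9f4f5e_mp.LT.B5
section

set_option autoImplicit false
set_option linter.unusedSectionVars false

open MeasureTheory Matrix
open scoped ENNReal ComplexOrder ComplexConjugate RealInnerProductSpace FourierTransform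

noncomputable section

namespace Pool.Agent.P.MP_9f4f5e_mp.LT

variable {ι : Type} [Fintype ι] [DecidableEq ι]

theorem b5_ind (b : ℝ) {K η : ℝ} (hK : 0 ≤ K) (hη : 0 < η) (hη1 : η ≤ 1) (N : ℕ) :
    ∀ a : ι → ℝ, (∀ i, b ≤ a i) → ∑ i, ⌈(a i - b) / η⌉₊ ≤ N → ∀ V : Matrix ι ι ℂ, V.PosSemidef →
      tp 2 V ≤ K ^ 2 → (∫ t : ℝ, tp 2 (V - dg fun i => |a i - t|)) - 2 / 3 * tp 3 V
        ≤ (6 * K + Fintype.card ι) * η * ∑ i, (a i - b) := by
  have hconst : ∀ a : ι → ℝ, (∀ i, a i = b) → ∀ V : Matrix ι ι ℂ, V.PosSemidef →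
      (∫ t : ℝ, tp 2 (V - dg fun i => |a i - t|)) - 2 / 3 * tp 3 V
        ≤ (6 * K + Fintype.card ι) * η * ∑ i, (a i - b) := by
    intro a h V hV
    simp only [h, sub_self, Finset.sum_const_zero, mul_zero]
    rw [integral_tp_const hV.isHermitian b, sub_self]
  induction N with
  | zero =>
    intro a ha hN V hV _
    refine hconst a (fun i => ?_) V hV
    have h1 : ⌈(a i - b) / η⌉₊ ≤ 0 :=
      (Finset.single_le_sum (f := fun i => ⌈(a i - b) / η⌉₊) (fun _ _ => Nat.zero_le _)
        (Finset.mem_univ i)).trans hN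
    have h2 : (a i - b) / η ≤ 0 := by simpa using Nat.ceil_le.1 h1
    have h3 : a i - b ≤ 0 := by
      rw [div_le_iff₀ hη] at h2
      simpa using h2
    linarith [ha i]
  | succ N ih =>
    intro a ha hN V hV hVK
    by_cases h : ∀ i, a i = b
    · exact hconst a h V hV
    obtain ⟨j, hj⟩ := not_forall.1 h
    have : Nonempty ι := ⟨j⟩
    obtain ⟨n, hn⟩ := Finite.exists_max a
    have hb : b < a n := (lt_of_le_of_ne (ha j) (Ne.symm hj)).trans_le (hn j)
    obtain ⟨ε, hε0, hεη, hεa, hεc⟩ : ∃ ε : ℝ, 0 < ε ∧ ε ≤ η ∧ ε ≤ a n - b ∧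
        ⌈(a n - ε - b) / η⌉₊ < ⌈(a n - b) / η⌉₊ := by
      have hc : 0 < ⌈(a n - b) / η⌉₊ := Nat.ceil_pos.2 (div_pos (by linarith) hη)
      rcases le_total η (a n - b) with h1 | h1
      · refine ⟨η, hη, le_rfl, h1, ?_⟩
        obtain ⟨c, hc'⟩ : ∃ c, ⌈(a n - b) / η⌉₊ = c + 1 := ⟨_, (Nat.succ_pred_eq_of_pos hc).symm⟩
        have h2 := Nat.le_ceil ((a n - b) / η)
        rw [hc'] at h2 ⊢
        refine Nat.lt_succ_of_le (Nat.ceil_le.2 ?_)
        push_cast at h2
        rw [div_le_iff₀ hη] at h2 ⊢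
        linarith
      · refine ⟨a n - b, by linarith, h1, le_rfl, ?_⟩
        rw [show a n - (a n - b) - b = 0 by ring, zero_div, Nat.ceil_zero]
        exact hc
    obtain ⟨h1, h2⟩ := step hV a n hn hε0.le hK hVK
    have hH : (V - dg (Pi.single n ε)).IsHermitian := hV.isHermitian.sub (dg_isHermitian _)
    have h3 := ih (fun i => a i - (Pi.single n ε : ι → ℝ) i) (fun i => ?_) ?_ _
      (pp_posSemidef hH) h1
    · have h4 : ∑ i, (a i - (Pi.single n ε : ι → ℝ) i - b) = ∑ i, (a i - b) - ε := by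
        simp only [sub_right_comm _ _ b]
        rw [Finset.sum_sub_distrib]
        simp
      rw [h4] at h3
      have hc : (0 : ℝ) ≤ Fintype.card ι := Nat.cast_nonneg _
      have h5 : (6 * K + Fintype.card ι * ε) * ε ^ 2 ≤ (6 * K + Fintype.card ι) * η * ε := by
        have e1 : (Fintype.card ι : ℝ) * ε ≤ Fintype.card ι :=
          mul_le_of_le_one_right hc (hεη.trans hη1)
        have e2 : ε ^ 2 ≤ η * ε := by nlinarith
        rw [mul_assoc]
        exact mul_le_mul (by linarith) e2 (sq_nonneg _) (by linarith)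
      linarith
    · by_cases hi : i = n
      · subst hi
        simp only [Pi.single_eq_same]
        linarith
      · simp only [Pi.single_eq_of_ne hi, sub_zero]
        exact ha i
    · refine Nat.le_of_lt_succ (lt_of_lt_of_le (Finset.sum_lt_sum (fun i _ => ?_)
        ⟨n, Finset.mem_univ n, ?_⟩) hN)
      · by_cases hi : i = n
        · subst hi
          simp only [Pi.single_eq_same]
          exact hεc.le
        · simp only [Pi.single_eq_of_ne hi, sub_zero, le_refl]
      · simp only [Pi.single_eq_same]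
        exact hεc

theorem b5_psd {V : Matrix ι ι ℂ} (hV : V.PosSemidef) (a : ι → ℝ) :
    ∫ t : ℝ, tp 2 (V - dg fun i => |a i - t|) ≤ 2 / 3 * tp 3 V := by
  obtain ⟨b, hb⟩ := (Set.finite_range a).bddBelow
  have ha : ∀ i, b ≤ a i := fun i => hb ⟨i, rfl⟩
  have h0 := tp_nonneg hV.isHermitian 2
  have hK : tp 2 V ≤ √(tp 2 V) ^ 2 := (Real.sq_sqrt h0).ge
  have hS : 0 ≤ ∑ i, (a i - b) := Finset.sum_nonneg fun i _ => sub_nonneg.2 (ha i)
  obtain ⟨C, hC, hC0⟩ : ∃ C : ℝ, C = (6 * √(tp 2 V) + Fintype.card ι) * ∑ i, (a i - b) ∧ 0 ≤ C :=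
    ⟨_, rfl, by positivity⟩
  refine le_of_forall_pos_le_add fun δ hδ => ?_
  have hη : 0 < min 1 (δ / (C + 1)) := lt_min one_pos (by positivity)
  have h1 := b5_ind b (Real.sqrt_nonneg _) hη (min_le_left _ _) _ a ha le_rfl V hV hK
  rw [mul_right_comm, ← hC] at h1
  have h2 : C * min 1 (δ / (C + 1)) ≤ δ := by
    refine (mul_le_mul_of_nonneg_left (min_le_right _ _) hC0).trans ?_
    rw [← mul_div_assoc, div_le_iff₀ (by positivity)]
    nlinarith
  linarith

/-- The sharp inequality. Hint: fix b ≤ all a i, K, 0 < η ≤ 1. Induction on N: for all a ≥ b with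
∑ ⌈(a i - b) / η⌉₊ ≤ N and all PosSemidef V with tp 2 V ≤ K^2:
J a V ≤ (6 K + card) * η * ∑ (a i - b). If a = fun _ => b use integral_tp_const; else take n
maximising a (Finite.exists_max), ε = min η (a n - b) > 0, apply step; the ceiling at n drops by
one. Let η → 0. For Hermitian V use pp V (tp_mono, tp_pp, integral_mono). -/
theorem lt_two {V : Matrix ι ι ℂ} (hV : V.IsHermitian) (a : ι → ℝ) :
    ∫ t : ℝ, tp 2 (V - dg fun i => |a i - t|) ≤ 2 / 3 * tp 3 V := by
  have hP := pp_posSemidef hV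
  rw [← tp_pp hV 3]
  refine le_trans (integral_mono (integrable_tp hV a two_ne_zero)
    (integrable_tp hP.isHermitian a two_ne_zero) fun t => ?_) (b5_psd hP a)
  refine tp_mono (hV.sub (dg_isHermitian _)) (hP.isHermitian.sub (dg_isHermitian _)) ?_ two_ne_zero
  rw [sub_sub_sub_cancel_right]
  exact pp_sub_posSemidef hV

end Pool.Agent.P.MP_9f4f5e_mp.LT
end
end
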