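import Pool.Agent.K.MP_9f4f5e_mp.C4
import Pool.Agent.K.MP_9f4f5e_mp.C0
import Pool.Agent.K.MP_9f4f5e_mp.C3

-- part Pool.Agent.P.MP_9f4f5e_mp.LT1.S2
section

set_option linter.unusedSectionVars false

open MeasureTheory Matrix
open scoped ENNReal ComplexOrder ComplexConjugate FourierTransform
open Pool.Agent.P.MP_9f4f5e_mp.LT (tp dg qf ec fej)

noncomputable section

namespace Pool.Agent.P.MP_9f4f5e_mp.LT1

theorem s2_meas (f : L2) : Measurable (fn f) := (Lp.stronglyMeasurable f).measurable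

theorem fn_sq (f : L2) : Integrable (fun x => ‖fn f x‖ ^ 2) ∧ ∫ x, ‖fn f x‖ ^ 2 = ‖f‖ ^ 2 := by
  refine ⟨(memLp_two_iff_integrable_sq_norm (Lp.memLp f).1).1 (Lp.memLp f), ?_⟩
  rw [← inner_self_eq_norm_sq (𝕜 := ℂ) f, L2.inner_def,
    ← integral_re (L2.integrable_inner (𝕜 := ℂ) f f)]
  exact integral_congr_ae (Filter.Eventually.of_forall fun x =>
    (inner_self_eq_norm_sq (𝕜 := ℂ) (fn f x)).symm)

theorem continuous_uu (h : ℝ) (f : L2) : Continuous (uu h (fn f)) := by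
  rcases le_or_gt h 0 with hh | hh
  · have e : uu h (fn f) = fun _ => 0 := by
      funext p; simp [uu, Set.Ico_eq_empty_of_le hh]
    rw [e]; exact continuous_const
  · have hi : ∀ a b, IntervalIntegrable (fn f) volume a b := fun a b =>
      ((Lp.memLp f).locallyIntegrable one_le_two).integrableOn_isCompact isCompact_uIcc
        |>.intervalIntegrable
    have e : uu h (fn f) = fun p => (∫ x in (0 : ℝ)..(p + h), fn f x) - ∫ x in (0 : ℝ)..p, fn f x := by
      funext p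
      rw [intervalIntegral.integral_interval_sub_left (hi _ _) (hi _ _), uu,
        integral_Ico_eq_integral_Ioc, ← intervalIntegral.integral_of_le hh.le,
        intervalIntegral.integral_comp_add_left (fn f) p, add_zero]
    rw [e]
    have hc := intervalIntegral.continuous_primitive hi 0
    exact (hc.comp (continuous_id.add continuous_const)).sub hc

theorem s2_cs {h : ℝ} {f : ℝ → ℂ} (hf : Measurable f) (p : ℝ) :
    ‖uu h f p‖ₑ ^ 2 ≤ ENNReal.ofReal h * ∫⁻ s in Set.Ico 0 h, ‖f (p + s)‖ₑ ^ 2 := by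
  have m : Measurable fun s : ℝ => ‖f (p + s)‖ₑ := by fun_prop
  have h1 := ENNReal.lintegral_mul_le_Lp_mul_Lq (volume.restrict (Set.Ico 0 h))
    Real.HolderConjugate.two_two (f := fun _ => 1) aemeasurable_const m.aemeasurable
  simp only [Pi.mul_apply, one_mul, one_pow, lintegral_const, Measure.restrict_apply_univ,
    ENNReal.rpow_two, Real.volume_Ico, sub_zero] at h1
  refine (pow_le_pow_left' ((enorm_integral_le_lintegral_enorm _).trans h1) 2).trans_eq ?_
  rw [← ENNReal.mul_rpow_of_nonneg _ _ (by norm_num), ← ENNReal.rpow_two, ← ENNReal.rpow_mul]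
  simp

theorem s2_ofReal (c : ℝ) (hc : 0 ≤ c) (z : ℂ) :
    ENNReal.ofReal (c * ‖z‖ ^ 2) = ENNReal.ofReal c * ‖z‖ₑ ^ 2 := by
  rw [ENNReal.ofReal_mul hc, ENNReal.ofReal_pow (norm_nonneg _), ofReal_norm]

theorem s2_main {h : ℝ} (hh : 0 < h) (f : L2) {w w' : ℝ → ℝ} (hw : Continuous w)
    (hw' : Continuous w') (h0 : ∀ p, 0 ≤ w p) (h0' : ∀ p, 0 ≤ w' p)
    (hle : ∀ p, ∀ s ∈ Set.Ico 0 h, w p ≤ w' (p + s))
    (hI : Integrable fun ξ => w' ξ * ‖fn f ξ‖ ^ 2) :
    Integrable (fun p => w p * ‖uu h (fn f) p‖ ^ 2) ∧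
      ∫ p, w p * ‖uu h (fn f) p‖ ^ 2 ≤ h ^ 2 * ∫ ξ, w' ξ * ‖fn f ξ‖ ^ 2 := by
  have hm := s2_meas f
  set F : ℝ → ℝ≥0∞ := fun ξ => ENNReal.ofReal (w' ξ * ‖fn f ξ‖ ^ 2) with hFdef
  have hF : Measurable F := (hw'.measurable.mul (hm.norm.pow_const 2)).ennreal_ofReal
  have hpt : ∀ p, ENNReal.ofReal (w p * ‖uu h (fn f) p‖ ^ 2) ≤
      ENNReal.ofReal h * ∫⁻ s in Set.Ico 0 h, F (p + s) := by
    intro p
    rw [s2_ofReal _ (h0 p)]
    calc ENNReal.ofReal (w p) * ‖uu h (fn f) p‖ₑ ^ 2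
        ≤ ENNReal.ofReal (w p) * (ENNReal.ofReal h * ∫⁻ s in Set.Ico 0 h, ‖fn f (p + s)‖ₑ ^ 2) :=
          mul_le_mul_right (s2_cs hm p) _
      _ = ENNReal.ofReal h * ∫⁻ s in Set.Ico 0 h, ENNReal.ofReal (w p) * ‖fn f (p + s)‖ₑ ^ 2 := by
          rw [lintegral_const_mul' _ _ ENNReal.ofReal_ne_top, mul_left_comm]
      _ ≤ ENNReal.ofReal h * ∫⁻ s in Set.Ico 0 h, F (p + s) := by
          refine mul_le_mul_right (setLIntegral_mono' measurableSet_Ico fun s hs => ?_) _
          simp only [hFdef]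
          rw [s2_ofReal _ (h0' _)]
          exact mul_le_mul_left (ENNReal.ofReal_le_ofReal (hle p s hs)) _
  have hm2 : Measurable (Function.uncurry fun (p s : ℝ) => F (p + s)) :=
    hF.comp (measurable_fst.add measurable_snd)
  have hpos : ∀ ξ, 0 ≤ w' ξ * ‖fn f ξ‖ ^ 2 := fun ξ => mul_nonneg (h0' ξ) (sq_nonneg _)
  have hL : ∫⁻ p, ENNReal.ofReal (w p * ‖uu h (fn f) p‖ ^ 2) ≤
      ENNReal.ofReal (h ^ 2 * ∫ ξ, w' ξ * ‖fn f ξ‖ ^ 2) :=
    calc _ ≤ ∫⁻ p, ENNReal.ofReal h * ∫⁻ s in Set.Ico 0 h, F (p + s) := lintegral_mono hpt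
      _ = ENNReal.ofReal h * ∫⁻ s in Set.Ico 0 h, ∫⁻ p, F (p + s) := by
        rw [lintegral_const_mul' _ _ ENNReal.ofReal_ne_top,
          lintegral_lintegral_swap hm2.aemeasurable]
      _ = ENNReal.ofReal h * ∫⁻ _ in Set.Ico 0 h, ∫⁻ p, F p := by
        simp only [lintegral_add_right_eq_self F]
      _ = _ := by
        rw [setLIntegral_const, Real.volume_Ico, sub_zero, ENNReal.ofReal_mul (sq_nonneg h),
          ofReal_integral_eq_lintegral_ofReal hI (Filter.Eventually.of_forall hpos),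
          ENNReal.ofReal_pow hh.le]
        ring
  have hg0 : ∀ p, 0 ≤ w p * ‖uu h (fn f) p‖ ^ 2 := fun p => mul_nonneg (h0 p) (sq_nonneg _)
  have hgm : AEStronglyMeasurable (fun p => w p * ‖uu h (fn f) p‖ ^ 2) volume :=
    (hw.mul ((continuous_uu h f).norm.pow 2)).aestronglyMeasurable
  refine ⟨⟨hgm, (hasFiniteIntegral_iff_ofReal (Filter.Eventually.of_forall hg0)).2
    (hL.trans_lt ENNReal.ofReal_lt_top)⟩, ?_⟩
  rw [integral_eq_lintegral_of_nonneg_ae (Filter.Eventually.of_forall hg0) hgm]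
  exact ENNReal.toReal_le_of_le_ofReal (mul_nonneg (sq_nonneg h) (integral_nonneg hpos)) hL

theorem uu_sq {h : ℝ} (hh : 0 < h) (f : L2) :
    Integrable (fun p => ‖uu h (fn f) p‖ ^ 2) ∧ ∫ p, ‖uu h (fn f) p‖ ^ 2 ≤ h ^ 2 * ‖f‖ ^ 2 := by
  have := s2_main hh f (w := fun _ => 1) (w' := fun _ => 1) continuous_const continuous_const
    (fun _ => zero_le_one) (fun _ => zero_le_one) (fun _ _ _ => le_rfl)
    (by simpa only [one_mul] using (fn_sq f).1)
  simpa only [one_mul, (fn_sq f).2] using this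

theorem uu_kin {h : ℝ} (hh : 0 < h) (f : L2) (hf : Integrable fun ξ => |ξ| * ‖fn f ξ‖ ^ 2) :
    Integrable (fun p => |p| * ‖uu h (fn f) p‖ ^ 2) ∧
      ∫ p, |p| * ‖uu h (fn f) p‖ ^ 2 ≤ h ^ 2 * ((∫ ξ, |ξ| * ‖fn f ξ‖ ^ 2) + h * ‖f‖ ^ 2) := by
  have h2 := (fn_sq f).1.const_mul h
  have := s2_main hh f (w := fun p => |p|) (w' := fun p => |p| + h) continuous_abs
    (continuous_abs.add continuous_const) abs_nonneg (fun p => add_nonneg (abs_nonneg p) hh.le)
    (fun p s hs => by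
      have h1 : |p| ≤ |p + s| + |s| := by simpa using abs_sub (p + s) s
      rw [abs_of_nonneg hs.1] at h1
      linarith [hs.2])
    (by simp only [add_mul]; exact hf.add h2)
  simp only [add_mul] at this
  rwa [integral_add hf h2, integral_const_mul, (fn_sq f).2] at this

end Pool.Agent.P.MP_9f4f5e_mp.LT1
end
end

-- part Pool.Agent.P.MP_9f4f5e_mp.LT1.S13
section

set_option linter.unusedSectionVars false

open MeasureTheory Matrix
open scoped ENNReal ComplexOrder ComplexConjugate FourierTransform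
open Pool.Agent.P.MP_9f4f5e_mp.LT (tp dg qf ec fej)

noncomputable section

namespace Pool.Agent.P.MP_9f4f5e_mp.LT1

theorem s13_radius (w : L2) (hw : ‖w‖ = 1) {η : ℝ} (hη : 0 < η) :
    ∀ᶠ n : ℕ in Filter.atTop, 1 - η ≤ ∫ x in Set.Icc (-(n : ℝ)) n, ‖fn w x‖ ^ 2 := by
  have hU : (⋃ n : ℕ, Set.Icc (-(n : ℝ)) n) = Set.univ := by
    refine Set.eq_univ_of_forall fun x => ?_
    obtain ⟨n, hn⟩ := exists_nat_ge |x|
    exact Set.mem_iUnion.2 ⟨n, abs_le.1 hn⟩
  have h1 := tendsto_setIntegral_of_monotone (μ := volume) (f := fun x => ‖fn w x‖ ^ 2)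
    (s := fun n : ℕ => Set.Icc (-(n : ℝ)) n) (fun _ => measurableSet_Icc)
    (fun a b hab => Set.Icc_subset_Icc (neg_le_neg (Nat.cast_le.2 hab)) (Nat.cast_le.2 hab))
    (fn_sq w).1.integrableOn
  rw [hU, Measure.restrict_univ, (fn_sq w).2, hw, one_pow] at h1
  exact h1.eventually (eventually_ge_nhds (by linarith))

theorem s13_pot (w u : L2) {a r L c : ℝ} (hu : ∀ᵐ x, fn u x = fn w (x - a)) (h0 : 0 ≤ a)
    (h1 : a ≤ L) (hc : c ≤ ∫ x in Set.Icc (-r) r, ‖fn w x‖ ^ 2) :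
    ENNReal.ofReal c ≤ pot (Set.indicator (Set.Icc (-r) (L + r)) 1) u := by
  have e1 : pot (Set.indicator (Set.Icc (-r) (L + r)) 1) u =
      ∫⁻ x, ENNReal.ofReal (Set.indicator (Set.Icc (-r) (L + r)) (1 : ℝ → ℝ) (x + a)) *
        ‖fn w x‖ₑ ^ 2 := by
    rw [← lintegral_sub_right_eq_self _ a]
    refine lintegral_congr_ae ?_
    filter_upwards [hu] with x hx
    rw [hx, sub_add_cancel]
  rw [e1]
  refine (ENNReal.ofReal_le_ofReal hc).trans ?_
  rw [ofReal_integral_eq_lintegral_ofReal (fn_sq w).1.integrableOn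
    (Filter.Eventually.of_forall fun x => sq_nonneg _), ← lintegral_indicator measurableSet_Icc]
  refine lintegral_mono fun x => ?_
  by_cases hx : x ∈ Set.Icc (-r) r
  · have hx' : x + a ∈ Set.Icc (-r) (L + r) := ⟨by linarith [hx.1], by linarith [hx.2]⟩
    rw [Set.indicator_of_mem hx, Set.indicator_of_mem hx', ENNReal.ofReal_pow (norm_nonneg _),
      ofReal_norm]
    simp
  · rw [Set.indicator_of_notMem hx]
    exact zero_le

/-- the frequency cells -/
def s13_idx {K : ℕ} (p : Fin K × Bool) : ℤ := if p.2 then (p.1 : ℕ) else -((p.1 : ℕ) : ℤ) - 1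

theorem s13_idx_inj {K : ℕ} : Function.Injective (s13_idx (K := K)) := by
  rintro ⟨a, _ | _⟩ ⟨b, _ | _⟩ h <;> simp only [s13_idx, Bool.false_eq_true, if_false, if_true] at h
  · exact Prod.ext (Fin.ext (by show (a : ℕ) = b; omega)) rfl
  · omega
  · omega
  · exact Prod.ext (Fin.ext (by show (a : ℕ) = b; omega)) rfl

theorem s13_idx_max {K : ℕ} (p : Fin K × Bool) :
    max (-(s13_idx p : ℝ)) (s13_idx p + 1) = ((p.1 : ℕ) : ℝ) + 1 := by
  have h0 : (0 : ℝ) ≤ (p.1 : ℕ) := Nat.cast_nonneg _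
  obtain ⟨a, _ | _⟩ := p
  · simp only [s13_idx, Bool.false_eq_true, if_false]
    push_cast
    rw [max_eq_left (by linarith)]; ring
  · simp only [s13_idx, if_true]
    push_cast
    rw [max_eq_right (by linarith)]

theorem lower_sum {γ C : ℝ} (hγ : 0 < γ) (H : LiebThirring γ C) {h η : ℝ} (hh : 0 < h)
    (hη : 0 < η) (K : ℕ) :
    2 * h * ∑ k ∈ Finset.range K, max (1 - η - 2 * Real.pi * h * (k + 1)) 0 ^ γ ≤ max C 0 := by
  obtain ⟨w, u, hu, hw, huw, hkin⟩ := shannon hh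
  obtain ⟨n, hn⟩ := (Filter.eventually_all.2 fun p : Fin K × Bool =>
    s13_radius (w (s13_idx p)) (hw _) hη).exists
  set S := ∑ k ∈ Finset.range K, max (1 - η - 2 * Real.pi * h * (k + 1)) 0 ^ γ with hS
  have hn0 : (0 : ℝ) ≤ n := Nat.cast_nonneg _
  have hC : 0 ≤ max C 0 := le_max_right _ _
  have key : ∀ J : ℕ, 2 * J * S ≤ max C 0 * (J / h + 2 * n) := fun J => by
    let e : (Fin K × Bool) × Fin J → ℤ × ℤ := fun q => (s13_idx q.1, ((q.2 : ℕ) : ℤ))
    have he : Function.Injective e := fun q q' hq =>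
      Prod.ext (s13_idx_inj (congrArg Prod.fst hq))
        (Fin.ext (Int.ofNat_injective (congrArg Prod.snd hq)))
    let φ := (Fintype.equivFin ((Fin K × Bool) × Fin J)).symm
    have h1 := H _ (u ∘ e ∘ φ) (hu.comp _ (he.comp φ.injective))
      (Set.indicator (Set.Icc (-(n : ℝ)) (J / h + n)) 1)
      (measurable_one.indicator measurableSet_Icc)
    have hL : (0 : ℝ) ≤ J / h + 2 * n := by positivity
    have h2 : ∫⁻ x, ENNReal.ofReal (Set.indicator (Set.Icc (-(n : ℝ)) (J / h + n))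
        (1 : ℝ → ℝ) x) ^ (γ + 1) = ENNReal.ofReal (J / h + 2 * n) := by
      have : ∀ x, ENNReal.ofReal (Set.indicator (Set.Icc (-(n : ℝ)) (J / h + n))
          (1 : ℝ → ℝ) x) ^ (γ + 1) = Set.indicator (Set.Icc (-(n : ℝ)) (J / h + n)) 1 x := by
        intro x
        by_cases hx : x ∈ Set.Icc (-(n : ℝ)) (J / h + n)
        · simp [Set.indicator_of_mem hx]
        · simp [Set.indicator_of_notMem hx, show 0 < γ + 1 by linarith]
      simp only [this]
      rw [lintegral_indicator_one measurableSet_Icc, Real.volume_Icc]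
      congr 1; ring
    have h3 : ENNReal.ofReal C = ENNReal.ofReal (max C 0) := by
      rcases le_total C 0 with h' | h'
      · rw [max_eq_right h', ENNReal.ofReal_of_nonpos h', ENNReal.ofReal_zero]
      · rw [max_eq_left h']
    rw [h2, h3, ← ENNReal.ofReal_mul hC] at h1
    have h4 : ∀ q : (Fin K × Bool) × Fin J,
        ENNReal.ofReal (max (1 - η - 2 * Real.pi * h * (((q.1.1 : ℕ) : ℝ) + 1)) 0 ^ γ) ≤
          (pot (Set.indicator (Set.Icc (-(n : ℝ)) (J / h + n)) 1) (u (e q)) - kin (u (e q))) ^ γ := by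
      intro q
      have a1 := s13_pot (L := J / h) (w (s13_idx q.1)) (u (e q)) (huw (s13_idx q.1) (q.2 : ℕ))
        (by positivity) (by
          refine div_le_div_of_nonneg_right ?_ hh.le
          exact_mod_cast q.2.2.le) (hn q.1)
      have a2 := hkin (s13_idx q.1) (q.2 : ℕ)
      rw [s13_idx_max] at a2
      rw [← ENNReal.ofReal_rpow_of_nonneg (le_max_right _ _) hγ.le]
      refine ENNReal.rpow_le_rpow ?_ hγ.le
      refine le_trans ?_ (tsub_le_tsub a1 a2)
      rw [← ENNReal.ofReal_sub _ (by positivity)]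
      rcases le_total (1 - η - 2 * Real.pi * h * (((q.1.1 : ℕ) : ℝ) + 1)) 0 with h' | h'
      · rw [max_eq_right h', ENNReal.ofReal_zero]; exact zero_le
      · rw [max_eq_left h']
    have h5 := (Finset.sum_le_sum fun i (_ : i ∈ Finset.univ) => h4 (φ i)).trans h1
    rw [← ENNReal.ofReal_sum_of_nonneg fun _ _ => Real.rpow_nonneg (le_max_right _ _) _,
      ENNReal.ofReal_le_ofReal_iff (mul_nonneg hC hL),
      φ.sum_comp fun q => max (1 - η - 2 * Real.pi * h * (((q.1.1 : ℕ) : ℝ) + 1)) 0 ^ γ] at h5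
    refine le_trans (le_of_eq ?_) h5
    rw [hS, Finset.sum_range, Fintype.sum_prod_type, Fintype.sum_prod_type, Finset.mul_sum]
    refine Finset.sum_congr rfl fun k _ => ?_
    simp only [Finset.sum_const, Finset.card_univ, Fintype.card_fin, Fintype.card_bool,
      nsmul_eq_mul]
    push_cast
    ring
  refine le_of_forall_pos_le_add fun ε hε => ?_
  obtain ⟨J, hJ⟩ := exists_nat_gt (max C 0 * (2 * n) * h / ε)
  have hJ0 : (0 : ℝ) < J := lt_of_le_of_lt (by positivity) hJ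
  have h6 := mul_le_mul_of_nonneg_right (key J) hh.le
  rw [div_lt_iff₀ hε] at hJ
  have h7 : max C 0 * (J / h + 2 * n) * h = max C 0 * J + max C 0 * (2 * n) * h := by
    field_simp
  rw [h7] at h6
  refine le_of_mul_le_mul_left ?_ hJ0
  nlinarith

end Pool.Agent.P.MP_9f4f5e_mp.LT1
end
end

-- part Pool.Agent.P.MP_9f4f5e_mp.LT1.S14
section

set_option linter.unusedSectionVars false

open MeasureTheory Matrix
open scoped ENNReal ComplexOrder ComplexConjugate FourierTransform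
open Pool.Agent.P.MP_9f4f5e_mp.LT (tp dg qf ec fej)

noncomputable section

namespace Pool.Agent.P.MP_9f4f5e_mp.LT1

theorem s14_sum {γ b c : ℝ} (hγ : 0 < γ) (hc : 0 < c) {K : ℕ} (hK : c * K = b) :
    b ^ (γ + 1) / (c * (γ + 1)) ≤ ∑ k ∈ Finset.range K, (b - c * k) ^ γ := by
  have h1 : AntitoneOn (fun s : ℝ => (b - c * s) ^ γ) (Set.Icc 0 (0 + K)) := by
    intro s _ t ht hst
    have h2 : t ≤ K := by simpa using ht.2
    exact Real.rpow_le_rpow (by nlinarith) (by nlinarith) hγ.le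
  have h2 := h1.integral_le_sum
  simp only [zero_add] at h2
  refine le_trans (le_of_eq ?_) h2
  rw [intervalIntegral.integral_comp_sub_mul (fun x : ℝ => x ^ γ) hc.ne' b,
    integral_rpow (Or.inl (by linarith)), hK, sub_self, mul_zero, sub_zero,
    Real.zero_rpow (by linarith), sub_zero, smul_eq_mul]
  field_simp

theorem s14_le {γ C : ℝ} (hγ : 0 < γ) (H : LiebThirring γ C) {b : ℝ} (h0 : 0 < b) (h1 : b < 1) :
    b ^ (γ + 1) / (Real.pi * (γ + 1)) ≤ max C 0 := by
  obtain ⟨K, hK⟩ := exists_nat_gt (b / (1 - b))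
  have hb : 0 < 1 - b := by linarith
  have hK0 : (0 : ℝ) < K := lt_trans (div_pos h0 hb) hK
  obtain ⟨c, hc⟩ : ∃ c, c = b / K := ⟨_, rfl⟩
  have c0 : 0 < c := hc ▸ div_pos h0 hK0
  have c1 : c * K = b := by
    rw [hc]
    field_simp
  have c2 : c < 1 - b := by
    rw [div_lt_iff₀ hb] at hK
    rw [hc, div_lt_iff₀ hK0]
    linarith
  have hp := Real.pi_pos
  have h2 := lower_sum hγ H (h := c / (2 * Real.pi)) (η := 1 - b - c) (by positivity)
    (by linarith) K
  have h3 : ∀ k ∈ Finset.range K, (b - c * k) ^ γ =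
      max (1 - (1 - b - c) - 2 * Real.pi * (c / (2 * Real.pi)) * (k + 1)) 0 ^ γ := fun k hk => by
    have h4 : (k : ℝ) ≤ K := by exact_mod_cast (Finset.mem_range.1 hk).le
    have h5 : 1 - (1 - b - c) - 2 * Real.pi * (c / (2 * Real.pi)) * (k + 1) = b - c * k := by
      field_simp
      ring
    rw [h5, max_eq_left (by nlinarith)]
  rw [← Finset.sum_congr rfl h3] at h2
  refine le_trans ?_ h2
  calc b ^ (γ + 1) / (Real.pi * (γ + 1))
      = 2 * (c / (2 * Real.pi)) * (b ^ (γ + 1) / (c * (γ + 1))) := by field_simp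
    _ ≤ _ := mul_le_mul_of_nonneg_left (s14_sum hγ c0 c1) (by positivity)

theorem lt_lower {γ C : ℝ} (hγ : 0 < γ) (H : LiebThirring γ C) :
    1 / (Real.pi * (γ + 1)) ≤ C := by
  have h1 : ContinuousAt (fun b : ℝ => b ^ (γ + 1) / (Real.pi * (γ + 1))) 1 :=
    (Real.continuousAt_rpow_const 1 (γ + 1) (Or.inl one_ne_zero)).div_const _
  have h2 := h1.tendsto.mono_left (nhdsWithin_le_nhds (s := Set.Iio 1))
  rw [Real.one_rpow] at h2
  have h3 : 1 / (Real.pi * (γ + 1)) ≤ max C 0 := by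
    refine le_of_tendsto h2 ?_
    filter_upwards [Ioo_mem_nhdsLT (show (0 : ℝ) < 1 by norm_num)] with b hb
    exact s14_le hγ H hb.1 hb.2
  have h4 : 0 < 1 / (Real.pi * (γ + 1)) := by
    have := Real.pi_pos
    positivity
  rcases le_max_iff.1 h3 with h | h
  · exact h
  · exact absurd h (not_le.2 h4)

end Pool.Agent.P.MP_9f4f5e_mp.LT1
end
end

-- part Pool.Agent.P.MP_9f4f5e_mp.LT1.T1
section

set_option linter.unusedSectionVars false

open MeasureTheory Matrix
open scoped ENNReal ComplexOrder ComplexConjugate FourierTransform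
open Pool.Agent.P.MP_9f4f5e_mp.LT (tp dg qf ec fej)

noncomputable section

namespace Pool.Agent.P.MP_9f4f5e_mp.LT1

theorem t1_cont {g : ℝ → ℂ} (h1 : Integrable g) : Continuous fun x : ℝ => ∫ ξ, ec (ξ * x) * g ξ := by
  refine continuous_of_dominated (bound := fun ξ => ‖g ξ‖) (fun x => ?_) (fun x => ?_) h1.norm ?_
  · exact (Continuous.aestronglyMeasurable (by fun_prop)).mul h1.1
  · exact Filter.Eventually.of_forall fun ξ => by rw [norm_mul, LT.norm_ec, one_mul]
  · exact Filter.Eventually.of_forall fun ξ => by fun_prop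

/-- For an integrable and square integrable function the two inverse transforms agree. -/
theorem ft_inv_ae {g : ℝ → ℂ} (h1 : Integrable g) (h2 : MemLp g 2 volume) :
    ∃ u : L2, ft u = h2.toLp g ∧ ∀ᵐ x, fn u x = ∫ ξ, ec (ξ * x) * g ξ := by
  refine ⟨𝓕⁻ (h2.toLp g), FourierTransform.fourier_fourierInv_eq _, ?_⟩
  refine ae_eq_of_integral_contDiff_smul_eq
    ((Lp.memLp (𝓕⁻ (h2.toLp g) : L2)).locallyIntegrable (by norm_num))
    (t1_cont h1).locallyIntegrable fun φ hφ hs => ?_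
  have hφ' : ContDiff ℝ (⊤ : ℕ∞) fun x => (φ x : ℂ) := Complex.ofRealCLM.contDiff.comp hφ
  have hs' : HasCompactSupport fun x => (φ x : ℂ) := hs.comp_left (g := fun r : ℝ => (r : ℂ)) rfl
  set f : SchwartzMap ℝ ℂ := hs'.toSchwartzMap hφ' with hf
  have hfx : ∀ x, f x = (φ x : ℂ) := fun x => rfl
  have hi : Integrable fun x => (φ x : ℂ) := hφ'.continuous.integrable_of_hasCompactSupport hs'
  have e1 := Lp.inner_fourier_eq (f.toLp 2) (𝓕⁻ (h2.toLp g) : L2)
  rw [FourierTransform.fourier_fourierInv_eq, SchwartzMap.toLp_fourier_eq, L2.inner_def,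
    L2.inner_def] at e1
  have e2 : ∫ x, φ x • fn (𝓕⁻ (h2.toLp g)) x
      = ∫ x, inner ℂ ((f.toLp 2 : L2) x) ((𝓕⁻ (h2.toLp g) : L2) x) := by
    refine integral_congr_ae ?_
    filter_upwards [f.coeFn_toLp 2 volume] with x hx
    rw [hx, hfx, RCLike.inner_apply, Complex.conj_ofReal, mul_comm, Complex.real_smul]
    rfl
  have e3 : ∫ ξ, inner ℂ (((𝓕 f).toLp 2 : L2) ξ) ((h2.toLp g : L2) ξ)
      = ∫ ξ, ∫ x, (φ x : ℂ) * (ec (ξ * x) * g ξ) := by
    refine integral_congr_ae ?_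
    filter_upwards [(𝓕 f).coeFn_toLp 2 volume, h2.coeFn_toLp] with ξ a1 a2
    rw [a1, a2, RCLike.inner_apply, SchwartzMap.fourier_coe, Real.fourier_real_eq, ← integral_conj,
      ← integral_const_mul]
    refine integral_congr_ae (Filter.Eventually.of_forall fun x => ?_)
    show g ξ * conj (ec (-(x * ξ)) * f x) = (φ x : ℂ) * (ec (ξ * x) * g ξ)
    rw [map_mul, LT.ec_neg, Complex.conj_conj, hfx, Complex.conj_ofReal, mul_comm x ξ]
    ring
  rw [e2, ← e1, e3, integral_integral_swap]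
  · refine integral_congr_ae (Filter.Eventually.of_forall fun x => ?_)
    simp only
    rw [integral_const_mul, Complex.real_smul]
  · refine (h1.mul_prod hi).norm.mono' ?_ (Filter.Eventually.of_forall fun p => ?_)
    · exact (hi.1.comp_snd).mul ((Continuous.aestronglyMeasurable (by fun_prop)).mul h1.1.comp_fst)
    · simp only [Function.uncurry, norm_mul, LT.norm_ec, one_mul]
      rw [mul_comm]

end Pool.Agent.P.MP_9f4f5e_mp.LT1
end
end

-- part Pool.Agent.P.MP_9f4f5e_mp.LT1.T2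
section

set_option linter.unusedSectionVars false

open MeasureTheory Matrix Set
open scoped ENNReal ComplexOrder ComplexConjugate FourierTransform
open Pool.Agent.P.MP_9f4f5e_mp.LT (tp dg qf ec fej)

noncomputable section

namespace Pool.Agent.P.MP_9f4f5e_mp.LT1

theorem t2_abs {f : ℝ → ℝ} (hf : IntegrableOn f (Ioi 0)) : Integrable fun x => f |x| := by
  have h1 : IntegrableOn (fun x => f |x|) (Ioi 0) :=
    hf.congr_fun (fun x hx => by rw [abs_of_pos hx]) measurableSet_Ioi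
  have h2 : IntegrableOn (fun x => f |x|) (Iic 0) := by
    rw [integrableOn_Iic_iff_integrableOn_Iio]
    have h3 : IntegrableOn (fun x => f |x|) (Ioi (-0)) := by rwa [neg_zero]
    simpa only [abs_neg] using h3.comp_neg_Iio
  rw [← integrableOn_univ, ← Iic_union_Ioi (a := (0 : ℝ))]
  exact h2.union h1

theorem t2_exp {b : ℝ} (hb : 0 < b) : Integrable (fun x : ℝ => Real.exp (-b * |x|)) ∧
    ∫ x : ℝ, Real.exp (-b * |x|) = 2 / b := by
  refine ⟨t2_abs (integrableOn_exp_mul_Ioi (neg_lt_zero.2 hb) 0), ?_⟩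
  rw [integral_comp_abs (f := fun x => Real.exp (-b * x)),
    integral_exp_mul_Ioi (neg_lt_zero.2 hb)]
  simp [div_eq_mul_inv]

theorem t2_mom {b : ℝ} (hb : 0 < b) : Integrable (fun x : ℝ => |x| * Real.exp (-b * |x|)) ∧
    ∫ x : ℝ, |x| * Real.exp (-b * |x|) = 2 / b ^ 2 := by
  constructor
  · refine t2_abs (f := fun x => x * Real.exp (-b * x)) ?_
    simpa using integrableOn_rpow_mul_exp_neg_mul_rpow (s := 1) (p := 1) (by norm_num) one_pos hb
  · rw [integral_comp_abs (f := fun x => x * Real.exp (-b * x))]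
    have h := Real.integral_rpow_mul_exp_neg_mul_Ioi (a := 2) (r := b) two_pos hb
    norm_num at h
    simp only [neg_mul]
    rw [h]
    field_simp

theorem t2_ft (x : ℝ) : ∫ ξ : ℝ, ec (ξ * x) * ((Real.exp (-(2 * Real.pi) * |ξ|) : ℝ) : ℂ)
    = ((1 / Real.pi * (1 + x ^ 2)⁻¹ : ℝ) : ℂ) := by
  have hπ := Real.pi_pos
  set a : ℂ := 2 * Real.pi * (1 + x * Complex.I) with ha
  set b : ℂ := 2 * Real.pi * (-1 + x * Complex.I) with hb
  have ha0 : 0 < a.re := by simp [ha, hπ]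
  have hb0 : b.re < 0 := by simp [hb, hπ]
  have e1 : EqOn (fun ξ : ℝ => Complex.exp (a * ξ))
      (fun ξ : ℝ => ec (ξ * x) * ((Real.exp (-(2 * Real.pi) * |ξ|) : ℝ) : ℂ)) (Iic 0) := by
    intro ξ hξ
    simp only
    rw [LT.ec_eq, abs_of_nonpos hξ, Complex.ofReal_exp, ← Complex.exp_add, ha]
    congr 1
    push_cast
    ring
  have e2 : EqOn (fun ξ : ℝ => Complex.exp (b * ξ))
      (fun ξ : ℝ => ec (ξ * x) * ((Real.exp (-(2 * Real.pi) * |ξ|) : ℝ) : ℂ)) (Ioi 0) := by
    intro ξ hξ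
    simp only
    rw [LT.ec_eq, abs_of_pos hξ, Complex.ofReal_exp, ← Complex.exp_add, hb]
    congr 1
    push_cast
    ring
  rw [← intervalIntegral.integral_Iic_add_Ioi (b := 0)
    ((integrableOn_exp_mul_complex_Iic ha0 0).congr_fun e1 measurableSet_Iic)
    ((integrableOn_exp_mul_complex_Ioi hb0 0).congr_fun e2 measurableSet_Ioi),
    ← setIntegral_congr_fun measurableSet_Iic e1, ← setIntegral_congr_fun measurableSet_Ioi e2,
    integral_exp_mul_complex_Iic ha0, integral_exp_mul_complex_Ioi hb0]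
  have h1 : a ≠ 0 := fun h => by simp [h] at ha0
  have h2 : b ≠ 0 := fun h => by simp [h] at hb0
  have h3 : (Real.pi : ℂ) ≠ 0 := by exact_mod_cast hπ.ne'
  have h4 : (1 + (x : ℂ) ^ 2) ≠ 0 := by exact_mod_cast (by positivity : (1 + x ^ 2 : ℝ) ≠ 0)
  push_cast
  simp only [mul_zero, Complex.exp_zero]
  field_simp
  rw [ha, hb]
  linear_combination (-4 * (Real.pi : ℂ) ^ 2 * (x : ℂ) ^ 2) * Complex.I_sq

/-- The Benjamin-Ono soliton. -/
theorem exists_soliton : ∃ u : L2, ‖u‖ = 1 ∧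
    (∀ᵐ x, ‖fn u x‖ ^ 2 = 2 / Real.pi * ((1 + x ^ 2)⁻¹) ^ 2) ∧
    kin u = ENNReal.ofReal (1 / 2) := by
  have hπ := Real.pi_pos
  set g : ℝ → ℂ := fun ξ => ((√(2 * Real.pi) : ℝ) : ℂ) *
    ((Real.exp (-(2 * Real.pi) * |ξ|) : ℝ) : ℂ) with hg
  have hsq : ∀ ξ, ‖g ξ‖ ^ 2 = 2 * Real.pi * Real.exp (-(4 * Real.pi) * |ξ|) := by
    intro ξ
    rw [hg, norm_mul, mul_pow, Complex.norm_real, Complex.norm_real, Real.norm_eq_abs,
      Real.norm_eq_abs, sq_abs, sq_abs, Real.sq_sqrt (by positivity), ← Real.exp_nat_mul]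
    congr 2
    push_cast
    ring
  have h1 : Integrable g := ((t2_exp (by positivity)).1.ofReal).const_mul _
  have h2 : MemLp g 2 volume := by
    rw [memLp_two_iff_integrable_sq_norm h1.1]
    simp_rw [hsq]
    exact (t2_exp (by positivity)).1.const_mul _
  obtain ⟨u, hu, hx⟩ := ft_inv_ae h1 h2
  have hf : ∀ᵐ ξ, fn (ft u) ξ = g ξ := by rw [hu]; exact h2.coeFn_toLp
  refine ⟨u, ?_, ?_, ?_⟩
  · have h3 := (fn_sq (ft u)).2
    rw [integral_congr_ae (g := fun ξ => 2 * Real.pi * Real.exp (-(4 * Real.pi) * |ξ|))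
      (hf.mono fun ξ h => by simp only [h, hsq]), integral_const_mul,
      (t2_exp (by positivity)).2, ft, Lp.norm_fourier_eq] at h3
    have h4 : ‖u‖ ^ 2 = 1 := by rw [← h3]; field_simp; norm_num
    exact (pow_eq_one_iff_of_nonneg (norm_nonneg _) two_ne_zero).1 h4
  · filter_upwards [hx] with x h
    have h3 : ∫ ξ, ec (ξ * x) * g ξ = ((√(2 * Real.pi) : ℝ) : ℂ) *
        ∫ ξ : ℝ, ec (ξ * x) * ((Real.exp (-(2 * Real.pi) * |ξ|) : ℝ) : ℂ) := by
      rw [← integral_const_mul]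
      exact integral_congr_ae (Filter.Eventually.of_forall fun ξ => by simp only [hg]; ring)
    rw [h, h3, t2_ft, norm_mul, mul_pow, Complex.norm_real, Complex.norm_real, Real.norm_eq_abs,
      Real.norm_eq_abs, sq_abs, sq_abs, Real.sq_sqrt (by positivity)]
    field_simp
  · have h3 := t2_mom (b := 4 * Real.pi) (by positivity)
    have h4 : kin u = ∫⁻ ξ, ENNReal.ofReal
        ((2 * Real.pi) ^ 2 * (|ξ| * Real.exp (-(4 * Real.pi) * |ξ|))) := by
      refine lintegral_congr_ae (hf.mono fun ξ h => ?_)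
      simp only
      rw [h, ← s2_ofReal _ (by positivity), hsq]
      congr 1
      ring
    rw [h4, ← ofReal_integral_eq_lintegral_ofReal (h3.1.const_mul _)
      (Filter.Eventually.of_forall fun ξ => by positivity), integral_const_mul, h3.2]
    congr 1
    field_simp
    norm_num

end Pool.Agent.P.MP_9f4f5e_mp.LT1
end
end

-- part Pool.Agent.P.MP_9f4f5e_mp.LT1.T3
section

set_option linter.unusedSectionVars false

open MeasureTheory Matrix Filter Topology
open scoped ENNReal ComplexOrder ComplexConjugate FourierTransform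
open Pool.Agent.P.MP_9f4f5e_mp.LT (tp dg qf ec fej)

noncomputable section

namespace Pool.Agent.P.MP_9f4f5e_mp.LT1

theorem t3_int (n : ℕ) : Integrable fun x : ℝ => ((1 + x ^ 2)⁻¹) ^ (n + 1) := by
  refine integrable_inv_one_add_sq.mono' (by fun_prop) (Eventually.of_forall fun x => ?_)
  have h0 : 0 ≤ (1 + x ^ 2)⁻¹ := by positivity
  have h1 : (1 + x ^ 2)⁻¹ ≤ 1 := inv_le_one_of_one_le₀ (by nlinarith [sq_nonneg x])
  rw [Real.norm_of_nonneg (by positivity), pow_succ]
  exact mul_le_of_le_one_left h0 (pow_le_one₀ h0 h1)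

theorem t3_lim (n : ℕ) {l : Filter ℝ} (hl : Tendsto (fun x : ℝ => |x|) l atTop) :
    Tendsto (fun x : ℝ => x * ((1 + x ^ 2)⁻¹) ^ (n + 1)) l (𝓝 0) := by
  refine squeeze_zero_norm' ?_ (tendsto_inv_atTop_zero.comp hl)
  filter_upwards [hl.eventually_gt_atTop 0] with x hx
  have h0 : 0 ≤ (1 + x ^ 2)⁻¹ := by positivity
  have h1 : (1 + x ^ 2)⁻¹ ≤ 1 := inv_le_one_of_one_le₀ (by nlinarith [sq_nonneg x])
  have h2 : ((1 + x ^ 2)⁻¹) ^ (n + 1) ≤ (1 + x ^ 2)⁻¹ := by
    rw [pow_succ]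
    exact mul_le_of_le_one_left h0 (pow_le_one₀ h0 h1)
  rw [norm_mul, Real.norm_eq_abs, Real.norm_of_nonneg (by positivity)]
  refine (mul_le_mul_of_nonneg_left h2 hx.le).trans ?_
  simp only [Function.comp]
  rw [← div_eq_mul_inv, div_le_iff₀ (by positivity), ← sq_abs x]
  field_simp
  nlinarith

theorem t3_rec (n : ℕ) : (2 * (n + 1) : ℝ) * ∫ x : ℝ, ((1 + x ^ 2)⁻¹) ^ (n + 2)
    = (2 * n + 1) * ∫ x : ℝ, ((1 + x ^ 2)⁻¹) ^ (n + 1) := by
  have h := integral_of_hasDerivAt_of_tendsto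
    (f := fun x : ℝ => x * ((1 + x ^ 2)⁻¹) ^ (n + 1))
    (f' := fun x : ℝ => (2 * (n + 1) : ℝ) * ((1 + x ^ 2)⁻¹) ^ (n + 2)
      - (2 * n + 1) * ((1 + x ^ 2)⁻¹) ^ (n + 1)) (fun x => ?_)
    (((t3_int (n + 1)).const_mul _).sub ((t3_int n).const_mul _))
    (t3_lim n tendsto_abs_atBot_atTop) (t3_lim n tendsto_abs_atTop_atTop)
  · rw [integral_sub ((t3_int (n + 1)).const_mul _) ((t3_int n).const_mul _), integral_const_mul,
      integral_const_mul] at h
    linarith
  · have h0 : (1 + x ^ 2) ≠ 0 := by positivity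
    have h1 : HasDerivAt (fun x : ℝ => 1 + x ^ 2) (2 * x) x := by
      simpa using (hasDerivAt_pow 2 x).const_add 1
    refine ((hasDerivAt_id x).mul ((h1.inv h0).pow (n + 1))).congr_deriv ?_
    simp only [id, Pi.pow_apply, Pi.inv_apply, Nat.add_sub_cancel, pow_succ]
    push_cast
    field_simp
    ring

theorem int_two : Integrable (fun x : ℝ => ((1 + x ^ 2)⁻¹) ^ 2) ∧
    ∫ x : ℝ, ((1 + x ^ 2)⁻¹) ^ 2 = Real.pi / 2 := by
  refine ⟨t3_int 1, ?_⟩
  have h := t3_rec 0
  simp only [zero_add, pow_one, integral_univ_inv_one_add_sq, Nat.cast_zero] at h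
  linarith

theorem int_three : Integrable (fun x : ℝ => ((1 + x ^ 2)⁻¹) ^ 3) ∧
    ∫ x : ℝ, ((1 + x ^ 2)⁻¹) ^ 3 = 3 * Real.pi / 8 := by
  refine ⟨t3_int 2, ?_⟩
  have h := t3_rec 1
  rw [int_two.2] at h
  norm_num at h ⊢
  linarith

theorem t3_trial {γ C l : ℝ} (hγ : 0 < γ) (hl : 2 / 3 ≤ l) (H : LiebThirring γ C) :
    ENNReal.ofReal ((3 * l / 4 - 1 / 2) ^ γ)
      ≤ ENNReal.ofReal C * ∫⁻ x : ℝ, ENNReal.ofReal ((l * (1 + x ^ 2)⁻¹) ^ (γ + 1)) := by
  obtain ⟨u, h1, h2, h3⟩ := exists_soliton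
  have hπ := Real.pi_pos
  have h4 := H 1 (fun _ => u) ⟨fun _ => h1, fun i j hij => (hij (Subsingleton.elim i j)).elim⟩
    (fun x => l * (1 + x ^ 2)⁻¹) (by fun_prop)
  have h5 : pot (fun x => l * (1 + x ^ 2)⁻¹) u = ENNReal.ofReal (3 * l / 4) := by
    have h6 : pot (fun x => l * (1 + x ^ 2)⁻¹) u
        = ∫⁻ x : ℝ, ENNReal.ofReal (l * (2 / Real.pi) * ((1 + x ^ 2)⁻¹) ^ 3) := by
      refine lintegral_congr_ae (h2.mono fun x h => ?_)
      simp only
      rw [← s2_ofReal _ (by positivity), h]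
      congr 1
      ring
    rw [h6, ← ofReal_integral_eq_lintegral_ofReal (int_three.1.const_mul _)
      (Eventually.of_forall fun x => by positivity), integral_const_mul, int_three.2]
    congr 1
    field_simp
    ring
  rw [Fin.sum_univ_one, h5, h3, ← ENNReal.ofReal_sub _ (by norm_num),
    ENNReal.ofReal_rpow_of_nonneg (by linarith) hγ.le] at h4
  refine h4.trans_eq ?_
  congr 1
  exact lintegral_congr fun x => ENNReal.ofReal_rpow_of_nonneg (by positivity) (by linarith)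

theorem not_lt_one : ¬ LiebThirring 1 (1 / (Real.pi * (1 + 1))) := by
  intro H
  have hπ := Real.pi_pos
  have h := t3_trial (l := 3 / 2) one_pos (by norm_num) H
  have h1 : ∀ x : ℝ, (3 / 2 * (1 + x ^ 2)⁻¹) ^ ((1 : ℝ) + 1) = 9 / 4 * ((1 + x ^ 2)⁻¹) ^ 2 := by
    intro x
    rw [one_add_one_eq_two, Real.rpow_two]
    ring
  simp only [h1] at h
  rw [← ofReal_integral_eq_lintegral_ofReal (int_two.1.const_mul _)
    (Eventually.of_forall fun x => by positivity), integral_const_mul, int_two.2,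
    ← ENNReal.ofReal_mul (by positivity), ENNReal.ofReal_le_ofReal_iff (by positivity),
    Real.rpow_one] at h
  have h2 : 1 / (Real.pi * (1 + 1)) * (9 / 4 * (Real.pi / 2)) = 9 / 16 := by
    field_simp
    norm_num
  rw [h2] at h
  norm_num at h

theorem not_lt_mid {γ : ℝ} (h1 : 1 < γ) (h2 : γ < 2) :
    ¬ LiebThirring γ (1 / (Real.pi * (γ + 1))) := by
  intro H
  have hπ := Real.pi_pos
  have h := t3_trial (l := 2) (by linarith) (by norm_num) H
  set θ := 2 - γ with hθ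
  have hθ0 : 0 < θ := by linarith
  have hθ1 : θ < 1 := by linarith
  set c : ℝ := 2 ^ θ * 3 ^ (1 - θ) with hc
  have hc0 : 0 < c := by positivity
  have hc1 : c < γ + 1 := by
    have h3 := strictConvexOn_exp.2 (Set.mem_univ (Real.log 2)) (Set.mem_univ (Real.log 3))
      (Real.log_lt_log two_pos (by norm_num)).ne hθ0 (sub_pos.2 hθ1) (by ring)
    rw [smul_eq_mul, smul_eq_mul, smul_eq_mul, smul_eq_mul, Real.exp_log two_pos,
      Real.exp_log three_pos, Real.exp_add, mul_comm θ, mul_comm (1 - θ),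
      ← Real.rpow_def_of_pos two_pos, ← Real.rpow_def_of_pos three_pos] at h3
    linarith
  have h3 : ∀ x : ℝ, (2 * (1 + x ^ 2)⁻¹) ^ (γ + 1) ≤
      c * (2 * θ) * ((1 + x ^ 2)⁻¹) ^ 2 + c * (8 / 3 * (1 - θ)) * ((1 + x ^ 2)⁻¹) ^ 3 := by
    intro x
    set v : ℝ := 2 * (1 + x ^ 2)⁻¹ with hv
    have hv0 : 0 < v := by positivity
    have h4 := Real.geom_mean_le_arith_mean2_weighted hθ0.le (sub_pos.2 hθ1).le
      (show 0 ≤ v ^ 2 / 2 by positivity) (show 0 ≤ v ^ 3 / 3 by positivity) (by ring)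
    have h5 : v ^ (γ + 1) = c * ((v ^ 2 / 2) ^ θ * (v ^ 3 / 3) ^ (1 - θ)) := by
      rw [Real.div_rpow (by positivity) (by norm_num), Real.div_rpow (by positivity) (by norm_num),
        ← Real.rpow_natCast v 2, ← Real.rpow_natCast v 3, ← Real.rpow_mul hv0.le,
        ← Real.rpow_mul hv0.le, hc]
      field_simp
      rw [← Real.rpow_add hv0]
      congr 1
      push_cast
      linarith
    rw [h5]
    refine (mul_le_mul_of_nonneg_left h4 hc0.le).trans_eq ?_
    rw [hv]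
    ring
  have hi : Integrable fun x : ℝ =>
      c * (2 * θ) * ((1 + x ^ 2)⁻¹) ^ 2 + c * (8 / 3 * (1 - θ)) * ((1 + x ^ 2)⁻¹) ^ 3 :=
    (int_two.1.const_mul _).add (int_three.1.const_mul _)
  have h4 := h.trans (mul_le_mul_right
    (lintegral_mono fun x => ENNReal.ofReal_le_ofReal (h3 x)) _)
  have hs : 0 < 1 - θ := sub_pos.2 hθ1
  rw [← ofReal_integral_eq_lintegral_ofReal hi (Eventually.of_forall fun x => by positivity),
    integral_add (int_two.1.const_mul _) (int_three.1.const_mul _), integral_const_mul,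
    integral_const_mul, int_two.2, int_three.2, ← ENNReal.ofReal_mul (by positivity),
    ENNReal.ofReal_le_ofReal_iff (by positivity)] at h4
  have h5 : 1 / (Real.pi * (γ + 1)) *
      (c * (2 * θ) * (Real.pi / 2) + c * (8 / 3 * (1 - θ)) * (3 * Real.pi / 8)) = c / (γ + 1) := by
    field_simp
    ring
  rw [h5, le_div_iff₀ (by linarith)] at h4
  norm_num at h4
  linarith

end Pool.Agent.P.MP_9f4f5e_mp.LT1
end
end

-- part Pool.Agent.P.MP_9f4f5e_mp.LT1.S1
section

set_option linter.unusedSectionVars false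

open MeasureTheory Matrix
open scoped ENNReal ComplexOrder ComplexConjugate FourierTransform
open Pool.Agent.P.MP_9f4f5e_mp.LT (tp dg qf ec fej)

noncomputable section

namespace Pool.Agent.P.MP_9f4f5e_mp.LT1

variable {ι κ : Type} [Fintype ι] [DecidableEq ι] [Fintype κ]

theorem s1_pow {v l : ℝ} (hv : 0 ≤ v) (hl : 0 ≤ l) : 3 * l ^ 2 * v - 2 * l ^ 3 ≤ v ^ 3 := by
  have h : v ^ 3 - (3 * l ^ 2 * v - 2 * l ^ 3) = (v - l) ^ 2 * (v + 2 * l) := by ring
  have h1 : 0 ≤ (v - l) ^ 2 * (v + 2 * l) := by positivity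
  linarith

theorem s1_sq {c : ℝ} (hc : 0 ≤ c) (l : ℝ) : 2 * c * l - c ^ 2 ≤ max l 0 ^ 2 := by
  have h1 := mul_le_mul_of_nonneg_left (le_max_left l 0) hc
  nlinarith [sq_nonneg (max l 0 - c)]

theorem peierls {N : Matrix ι ι ℂ} (hN : N.IsHermitian) (v : κ → ι → ℂ) {h : ℝ}
    (hv : ∀ c : ι → ℂ, ∑ k, ‖∑ i, conj (c i) * v k i‖ ^ 2 ≤ h * ∑ i, ‖c i‖ ^ 2)
    (c : κ → ℝ) (hc : ∀ k, 0 ≤ c k) :
    ∑ k, (2 * c k * qf N (v k) - c k ^ 2 * ∑ i, ‖v k i‖ ^ 2) ≤ h * tp 2 N := by
  obtain ⟨U, l, hs⟩ := LT.exists_spec hN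
  have hw : ∀ j, ∑ k, ‖(Uᴴ *ᵥ v k) j‖ ^ 2 ≤ h := by
    intro j
    have h1 := hv fun i => U i j
    rw [hs.col_sum, mul_one] at h1
    refine le_of_eq_of_le (Finset.sum_congr rfl fun k _ => ?_) h1
    simp only [Matrix.mulVec, dotProduct, Matrix.conjTranspose_apply, Complex.star_def]
  have hq : ∀ k, qf N (v k) = ∑ j, l j * ‖(Uᴴ *ᵥ v k) j‖ ^ 2 := fun k => by
    rw [← LT.Spec.qf_conj, ← hs.eq]
  calc _ ≤ ∑ k, ∑ j, max (l j) 0 ^ 2 * ‖(Uᴴ *ᵥ v k) j‖ ^ 2 := by
        refine Finset.sum_le_sum fun k _ => ?_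
        rw [hq, ← hs.parseval, Finset.mul_sum, Finset.mul_sum, ← Finset.sum_sub_distrib]
        refine Finset.sum_le_sum fun j _ => ?_
        have h1 := mul_le_mul_of_nonneg_right (s1_sq (hc k) (l j)) (sq_nonneg ‖(Uᴴ *ᵥ v k) j‖)
        linarith
    _ = ∑ j, max (l j) 0 ^ 2 * ∑ k, ‖(Uᴴ *ᵥ v k) j‖ ^ 2 := by
        rw [Finset.sum_comm]
        simp only [Finset.mul_sum]
    _ ≤ ∑ j, max (l j) 0 ^ 2 * h :=
        Finset.sum_le_sum fun j _ => mul_le_mul_of_nonneg_left (hw j) (sq_nonneg _)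
    _ = _ := by rw [hs.tp_eq, ← Finset.sum_mul, mul_comm]

theorem berezin_three {X : Type} [MeasurableSpace X] (μ : Measure X) [IsFiniteMeasure μ]
    {e : X → ι → ℂ} (he : ∀ i, Measurable fun x => e x i) (he1 : ∀ x i, ‖e x i‖ ≤ 1)
    (hfr : ∀ c : ι → ℂ, ∫ x, ‖∑ i, conj (c i) * e x i‖ ^ 2 ∂μ ≤ ∑ i, ‖c i‖ ^ 2)
    {V : X → ℝ} (hV : Measurable V) {M : ℝ} (h0 : ∀ x, 0 ≤ V x) (hM : ∀ x, V x ≤ M) :
    (Matrix.of fun i j => ∫ x, (V x : ℂ) * (e x i * conj (e x j)) ∂μ).IsHermitian ∧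
      tp 3 (Matrix.of fun i j => ∫ x, (V x : ℂ) * (e x i * conj (e x j)) ∂μ)
        ≤ Fintype.card ι * ∫ x, V x ^ 3 ∂μ := by
  have hH : (Matrix.of fun i j => ∫ x, (V x : ℂ) * (e x i * conj (e x j)) ∂μ).IsHermitian := by
    ext i j
    rw [Matrix.conjTranspose_apply, Matrix.of_apply, Matrix.of_apply, Complex.star_def,
      ← integral_conj]
    congr 1
    funext x
    simp only [map_mul, Complex.conj_conj, Complex.conj_ofReal]
    ring
  refine ⟨hH, ?_⟩
  obtain ⟨U, l, hs⟩ := LT.exists_spec hH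
  set w : ι → X → ℝ := fun k x => ‖∑ i, conj (U i k) * e x i‖ ^ 2 with hw
  have w0 : ∀ k x, 0 ≤ w k x := fun k x => sq_nonneg _
  have wm : ∀ k, Measurable (w k) := fun k =>
    (Finset.measurable_sum _ fun i _ => (he i).const_mul _).norm.pow_const 2
  have wsum : ∀ x, ∑ k, w k x ≤ Fintype.card ι := by
    intro x
    have h1 := hs.parseval (e x)
    have h2 : ∑ k, w k x = ∑ i, ‖(Uᴴ *ᵥ e x) i‖ ^ 2 := by
      refine Finset.sum_congr rfl fun k _ => ?_
      simp only [hw, Matrix.mulVec, dotProduct, Matrix.conjTranspose_apply, Complex.star_def]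
    rw [h2, h1]
    calc ∑ i, ‖e x i‖ ^ 2 ≤ ∑ _i : ι, (1 : ℝ) :=
          Finset.sum_le_sum fun i _ => pow_le_one₀ (norm_nonneg _) (he1 x i)
      _ = Fintype.card ι := by simp
  have wle : ∀ k x, w k x ≤ Fintype.card ι := fun k x =>
    (Finset.single_le_sum (f := fun k => w k x) (fun k _ => w0 k x) (Finset.mem_univ k)).trans
      (wsum x)
  have hl : ∀ k, l k = ∫ x, V x * w k x ∂μ := by
    intro k
    have h1 := LT.g1_qf μ he he1 hV h0 hM (fun i => U i k)
    have h2 : (fun i => U i k) = U *ᵥ Pi.single k 1 := by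
      funext i
      simp
    rw [← h1, h2, hs.eq, LT.Spec.qf_conj, Matrix.mulVec_mulVec, hs.ct_mul, Matrix.one_mulVec,
      Finset.sum_eq_single k]
    · simp
    · intro j _ hj
      simp [hj]
    · simp
  have hw1 : ∀ k, ∫ x, w k x ∂μ ≤ 1 := fun k => (hfr fun i => U i k).trans (hs.col_sum k).le
  have iw : ∀ k, Integrable (w k) μ := fun k => LT.g1_int μ (wm k) _ (w0 k) (wle k)
  have iVw : ∀ k, Integrable (fun x => V x * w k x) μ := fun k =>
    LT.g1_int μ (hV.mul (wm k)) (M * Fintype.card ι) (fun x => mul_nonneg (h0 x) (w0 k x))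
      fun x => mul_le_mul (hM x) (wle k x) (w0 k x) ((h0 x).trans (hM x))
  have iV4 : Integrable (fun x => V x ^ 3) μ :=
    LT.g1_int μ (hV.pow_const 3) (M ^ 3) (fun x => pow_nonneg (h0 x) 3)
      fun x => pow_le_pow_left₀ (h0 x) (hM x) 3
  have iV4w : ∀ k, Integrable (fun x => V x ^ 3 * w k x) μ := fun k =>
    LT.g1_int μ ((hV.pow_const 3).mul (wm k)) (M ^ 3 * Fintype.card ι)
      (fun x => mul_nonneg (pow_nonneg (h0 x) 3) (w0 k x))
      fun x => mul_le_mul (pow_le_pow_left₀ (h0 x) (hM x) 3) (wle k x) (w0 k x)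
        (pow_nonneg ((h0 x).trans (hM x)) 3)
  have hl0 : ∀ k, 0 ≤ l k := fun k => by
    rw [hl k]
    exact integral_nonneg fun x => mul_nonneg (h0 x) (w0 k x)
  have hk : ∀ k, max (l k) 0 ^ 3 ≤ ∫ x, V x ^ 3 * w k x ∂μ := by
    intro k
    rw [max_eq_left (hl0 k)]
    have h1 : ∫ x, (3 * l k ^ 2 * (V x * w k x) - 2 * l k ^ 3 * w k x) ∂μ
        ≤ ∫ x, V x ^ 3 * w k x ∂μ := by
      refine integral_mono (((iVw k).const_mul _).sub ((iw k).const_mul _)) (iV4w k) fun x => ?_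
      have h2 := mul_le_mul_of_nonneg_right (s1_pow (h0 x) (hl0 k)) (w0 k x)
      simp only
      linarith
    rw [integral_sub ((iVw k).const_mul _) ((iw k).const_mul _), integral_const_mul,
      integral_const_mul, ← hl k] at h1
    have h3 := mul_le_mul_of_nonneg_left (hw1 k) (pow_nonneg (hl0 k) 3)
    nlinarith
  rw [hs.tp_eq]
  calc ∑ k, max (l k) 0 ^ 3 ≤ ∑ k, ∫ x, V x ^ 3 * w k x ∂μ := Finset.sum_le_sum fun k _ => hk k
    _ = ∫ x, ∑ k, V x ^ 3 * w k x ∂μ := (integral_finset_sum _ fun k _ => iV4w k).symm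
    _ ≤ ∫ x, Fintype.card ι * V x ^ 3 ∂μ := by
        refine integral_mono (integrable_finset_sum _ fun k _ => iV4w k) (iV4.const_mul _)
          fun x => ?_
        simp only
        rw [← Finset.mul_sum, mul_comm]
        exact mul_le_mul_of_nonneg_right (wsum x) (pow_nonneg (h0 x) 3)
    _ = _ := integral_const_mul _ _

end Pool.Agent.P.MP_9f4f5e_mp.LT1
end
end

-- part Pool.Agent.P.MP_9f4f5e_mp.LT1.S3
section

set_option linter.unusedSectionVars false

open MeasureTheory Matrix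
open scoped ENNReal ComplexOrder ComplexConjugate FourierTransform
open Pool.Agent.P.MP_9f4f5e_mp.LT (tp dg qf ec fej)

noncomputable section

namespace Pool.Agent.P.MP_9f4f5e_mp.LT1

theorem s3_fin (h : ℝ) : IsFiniteMeasure ((volume : Measure ℝ).restrict (Set.Ico 0 h)) :=
  isFiniteMeasure_restrict.2 measure_Ico_lt_top.ne

theorem continuous_ww (h : ℝ) : Continuous (ww h) := by
  have := s3_fin h
  exact continuous_of_dominated (F := fun z s : ℝ => ec (-(s * z))) (bound := fun _ => 1)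
    (fun z => Continuous.aestronglyMeasurable (by fun_prop))
    (fun z => Filter.Eventually.of_forall fun s => (LT.norm_ec _).le) (integrable_const 1)
    (Filter.Eventually.of_forall fun s => by fun_prop)

theorem norm_ww_le {h : ℝ} (hh : 0 < h) (z : ℝ) : ‖ww h z‖ ≤ h := by
  have := norm_setIntegral_le_of_norm_le_const (μ := (volume : Measure ℝ)) (s := Set.Ico 0 h)
    (f := fun s : ℝ => ec (-(s * z))) (C := 1) measure_Ico_lt_top fun s _ => (LT.norm_ec _).le
  rwa [Real.volume_real_Ico_of_le hh.le, one_mul, sub_zero] at this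

theorem s3_shift {A : ℝ → ℂ} (hA : MemLp A 2 volume) (k : ℝ) :
    MemLp (fun p => A (p + k)) 2 volume :=
  hA.comp_measurePreserving (measurePreserving_add_right volume k)

theorem s3_conj {A : ℝ → ℂ} (hA : MemLp A 2 volume) : MemLp (fun p => conj (A p)) 2 volume :=
  hA.congr_norm (Complex.continuous_conj.comp_aestronglyMeasurable hA.1)
    (Filter.Eventually.of_forall fun _ => (Complex.norm_conj _).symm)

theorem s3_uu_mul {A B : ℝ → ℂ} (hA : Measurable A) (hB : Measurable B)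
    (hA2 : MemLp A 2 volume) (hB2 : MemLp B 2 volume) (h k : ℝ) :
    ∫ p, uu h A (p + k) * B p = ∫ s in Set.Ico 0 h, ∫ p, A (p + k + s) * B p := by
  have := s3_fin h
  have hm : Measurable fun q : ℝ × ℝ => A (q.2 + k + q.1) * B q.2 := by fun_prop
  have h1 : ∀ s : ℝ, MemLp (fun p => A (p + k + s)) 2 volume := fun s => by
    simpa only [add_assoc] using s3_shift hA2 (k + s)
  have h2 : ∀ s : ℝ, ∫ p, ‖A (p + k + s)‖ ^ 2 = ∫ p, ‖A p‖ ^ 2 := fun s => by
    simpa only [add_assoc] using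
      integral_add_right_eq_self (μ := volume) (fun p => ‖A p‖ ^ 2) (k + s)
  have h3 : ∀ s : ℝ, Integrable fun p => A (p + k + s) * B p := fun s => (h1 s).integrable_mul hB2
  have hi : Integrable (fun q : ℝ × ℝ => A (q.2 + k + q.1) * B q.2)
      (((volume : Measure ℝ).restrict (Set.Ico 0 h)).prod volume) := by
    refine (integrable_prod_iff hm.aestronglyMeasurable).2 ⟨Filter.Eventually.of_forall h3, ?_⟩
    refine Integrable.of_bound hm.norm.stronglyMeasurable.integral_prod_right'.aestronglyMeasurable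
      ((∫ p, ‖A p‖ ^ 2) + ∫ p, ‖B p‖ ^ 2) (Filter.Eventually.of_forall fun s => ?_)
    have i1 := (memLp_two_iff_integrable_sq_norm (h1 s).1).1 (h1 s)
    have i2 := (memLp_two_iff_integrable_sq_norm hB2.1).1 hB2
    rw [Real.norm_of_nonneg (integral_nonneg fun _ => norm_nonneg _), ← h2 s, ← integral_add i1 i2]
    refine integral_mono (h3 s).norm (i1.add i2) fun p => ?_
    simp only [norm_mul]
    nlinarith [sq_nonneg (‖A (p + k + s)‖ - ‖B p‖), norm_nonneg (A (p + k + s)), norm_nonneg (B p)]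
  rw [integral_integral_swap (f := fun s p : ℝ => A (p + k + s) * B p) hi]
  simp only [uu, integral_mul_const]

theorem s3_swap {g : ℝ → ℂ} (hg : Integrable g) (h : ℝ) {φ : ℝ → ℝ → ℝ}
    (hφ : Continuous fun p : ℝ × ℝ => φ p.1 p.2) :
    ∫ s in Set.Ico 0 h, ∫ z, g z * ec (φ s z) = ∫ z, g z * ∫ s in Set.Ico 0 h, ec (φ s z) := by
  have := s3_fin h
  have h1 : Integrable (fun p : ℝ × ℝ => (1 : ℂ) * g p.2)
      (((volume : Measure ℝ).restrict (Set.Ico 0 h)).prod volume) :=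
    (integrable_const (1 : ℂ)).mul_prod hg
  have h2 : Integrable (Function.uncurry fun s z : ℝ => g z * ec (φ s z))
      (((volume : Measure ℝ).restrict (Set.Ico 0 h)).prod volume) := by
    have h3 := h1.mul_bdd (c := 1) (g := fun p : ℝ × ℝ => ec (φ p.1 p.2))
      (LT.continuous_ec.comp hφ).aestronglyMeasurable
      (Filter.Eventually.of_forall fun p => (LT.norm_ec _).le)
    refine h3.congr (Filter.Eventually.of_forall fun p => ?_)
    simp [Function.uncurry]
  rw [integral_integral_swap h2]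
  simp only [integral_const_mul]

theorem s3_conj_ww (h z : ℝ) : ∫ s in Set.Ico 0 h, ec (s * z) = conj (ww h z) := by
  rw [ww, ← integral_conj]
  simp only [← LT.ec_neg, neg_neg]

theorem s3_rho {ρ : ℝ → ℝ} (hρ : Integrable ρ) {h : ℝ} (hh : 0 < h) (k : ℝ) :
    ∫ s in Set.Ico 0 h, ∫ s' in Set.Ico 0 h, ∫ z, (ρ z : ℂ) * ec (-((k + s - s') * z))
      = ∫ z, ((ρ z * ‖ww h z‖ ^ 2 : ℝ) : ℂ) * ec (-(k * z)) := by
  have hρ' : Integrable fun z => (ρ z : ℂ) := hρ.ofReal
  have hb : ∀ v : ℝ, ∀ {g : ℝ → ℂ}, Integrable g →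
      Integrable fun z => g z * ec (-(v * z)) := fun v g hg =>
    hg.mul_bdd (c := 1) (Continuous.aestronglyMeasurable (by fun_prop))
      (Filter.Eventually.of_forall fun z => (LT.norm_ec _).le)
  have hg : Integrable fun z => (ρ z : ℂ) * ec (-(k * z)) * conj (ww h z) :=
    (hb k hρ').mul_bdd (c := h)
      (Complex.continuous_conj.comp (continuous_ww h)).aestronglyMeasurable
      (Filter.Eventually.of_forall fun z => by
        rw [Complex.norm_conj]; exact norm_ww_le hh z)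
  have h1 : ∀ s : ℝ, ∫ s' in Set.Ico 0 h, ∫ z, (ρ z : ℂ) * ec (-((k + s - s') * z))
      = ∫ z, ((ρ z : ℂ) * ec (-(k * z)) * conj (ww h z)) * ec (-(s * z)) := by
    intro s
    have h2 := s3_swap (hb s (hb k hρ')) h (φ := fun s' z => s' * z) (by fun_prop)
    have h3 : ∀ s' z : ℝ, (ρ z : ℂ) * ec (-((k + s - s') * z))
        = (ρ z : ℂ) * ec (-(k * z)) * ec (-(s * z)) * ec (s' * z) := by
      intro s' z
      rw [mul_assoc, mul_assoc, ← LT.ec_add, ← LT.ec_add]
      congr 2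
      ring
    simp only [h3]
    rw [h2]
    refine integral_congr_ae (Filter.Eventually.of_forall fun z => ?_)
    simp only
    rw [s3_conj_ww]
    ring
  simp only [h1]
  rw [s3_swap hg h (φ := fun s z => -(s * z)) (by fun_prop)]
  refine integral_congr_ae (Filter.Eventually.of_forall fun z => ?_)
  simp only
  have h4 : ∫ s in Set.Ico 0 h, ec (-(s * z)) = ww h z := rfl
  have h5 : ((‖ww h z‖ ^ 2 : ℝ) : ℂ) = ww h z * conj (ww h z) := by
    rw [Complex.mul_conj, Complex.normSq_eq_norm_sq]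
  rw [h4, Complex.ofReal_mul, h5]
  ring

theorem s3_corr (u : L2) (k : ℝ) : ∫ p, fn (ft u) (p + k) * conj (fn (ft u) p)
    = ∫ z, ((‖fn u z‖ ^ 2 : ℝ) : ℂ) * ec (-(k * z)) := by
  refine (LT.fourier_corr u k).trans (integral_congr_ae (Filter.Eventually.of_forall fun z => ?_))
  simp only [fn, RCLike.inner_apply, conj_trivial, mul_comm z k]

theorem uu_corr {h : ℝ} (hh : 0 < h) (u : L2) (k : ℝ) :
    Integrable (fun p => uu h (fn (ft u)) (p + k) * conj (uu h (fn (ft u)) p)) ∧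
      ∫ p, uu h (fn (ft u)) (p + k) * conj (uu h (fn (ft u)) p)
        = ∫ z, ((‖fn u z‖ ^ 2 * ‖ww h z‖ ^ 2 : ℝ) : ℂ) * ec (-(k * z)) := by
  have hc := continuous_uu h (ft u)
  have hU : MemLp (uu h (fn (ft u))) 2 volume :=
    (memLp_two_iff_integrable_sq_norm hc.aestronglyMeasurable).2 (uu_sq hh (ft u)).1
  have hm : Measurable (fn (ft u)) := (Lp.stronglyMeasurable (ft u)).measurable
  have h2 : MemLp (fn (ft u)) 2 volume := Lp.memLp (ft u)
  have hcorr := s3_corr u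
  generalize fn (ft u) = f at hc hU hm h2 hcorr
  refine ⟨(s3_shift hU k).integrable_mul (s3_conj hU), ?_⟩
  rw [s3_uu_mul (B := fun p => conj (uu h f p)) hm
    (Complex.continuous_conj.comp hc).measurable h2 (s3_conj hU), ← s3_rho (fn_sq u).1 hh]
  refine integral_congr_ae (Filter.Eventually.of_forall fun s => ?_)
  have h1 : ∀ p : ℝ, f (p + k + s) * conj (uu h f p)
      = uu h (fun p => conj (f p)) (p + 0) * f (p + (k + s)) := by
    intro p
    simp only [uu, add_zero, add_assoc]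
    rw [integral_conj, mul_comm]
  simp only [h1]
  rw [s3_uu_mul (A := fun p => conj (f p)) (B := fun p => f (p + (k + s)))
    (Complex.continuous_conj.measurable.comp hm) (hm.comp (measurable_add_const _)) (s3_conj h2)
    (s3_shift h2 _)]
  refine integral_congr_ae (Filter.Eventually.of_forall fun s' => ?_)
  simp only
  rw [← hcorr, ← integral_add_right_eq_self (fun p => f (p + (k + s - s')) * conj (f p)) s']
  refine integral_congr_ae (Filter.Eventually.of_forall fun p => ?_)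
  have h3 : p + s' + (k + s - s') = p + (k + s) := by ring
  simp only [h3, add_zero]
  rw [mul_comm]

end Pool.Agent.P.MP_9f4f5e_mp.LT1
end
end

-- part Pool.Agent.P.MP_9f4f5e_mp.LT1.S4
section

set_option linter.unusedSectionVars false

open MeasureTheory Matrix
open scoped ENNReal ComplexOrder ComplexConjugate FourierTransform
open Pool.Agent.P.MP_9f4f5e_mp.LT (tp dg qf ec fej)

noncomputable section

namespace Pool.Agent.P.MP_9f4f5e_mp.LT1

theorem orthonormal_ft {κ : Type} {u : κ → L2} (hu : Orthonormal ℂ u) :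
    Orthonormal ℂ fun k => ft (u k) := by
  classical
  rw [orthonormal_iff_ite] at hu ⊢
  intro i j
  rw [← hu i j]
  exact Lp.inner_fourier_eq _ _

/-- the indicator of a cell -/
def s4_e (h p : ℝ) : L2 :=
  indicatorConstLp 2 (measurableSet_Ico (a := p) (b := p + h)) (by simp) (1 : ℂ)

theorem s4_inner (h p : ℝ) (f : L2) : inner ℂ (s4_e h p) f = uu h (fn f) p := by
  rw [s4_e, L2.inner_indicatorConstLp_one, uu, ← integral_indicator measurableSet_Ico,
    ← integral_indicator measurableSet_Ico, ← integral_add_left_eq_self _ p]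
  refine integral_congr_ae (Filter.Eventually.of_forall fun s => ?_)
  by_cases hs : s ∈ Set.Ico 0 h
  · have h2 : p + s ∈ Set.Ico p (p + h) := ⟨by linarith [hs.1], by linarith [hs.2]⟩
    simp only [Set.indicator_of_mem hs, Set.indicator_of_mem h2, fn]
  · have h2 : p + s ∉ Set.Ico p (p + h) := fun h2 =>
      hs ⟨by linarith [h2.1], by linarith [h2.2]⟩
    simp only [Set.indicator_of_notMem hs, Set.indicator_of_notMem h2]

theorem s4_inner_e (h p q : ℝ) : inner ℂ (s4_e h p) (s4_e h q) =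
    ((volume.real (Set.Ico p (p + h) ∩ Set.Ico q (q + h)) : ℝ) : ℂ) := by
  exact L2.inner_indicatorConstLp_one_indicatorConstLp_one measurableSet_Ico measurableSet_Ico
    (by simp) (by simp)

theorem s4_orth {h : ℝ} (hh : 0 < h) {m : ℕ} (t : ℝ) (i j : Fin m) :
    inner ℂ (s4_e h (h * ((i : ℕ) : ℝ) - t)) (s4_e h (h * ((j : ℕ) : ℝ) - t)) =
      if i = j then (h : ℂ) else 0 := by
  rw [s4_inner_e]
  split_ifs with hij
  · subst hij
    rw [Set.inter_self, Real.volume_real_Ico_of_le (by linarith)]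
    simp
  · have key : ∀ a b : ℕ, a < b → Set.Ico (h * (a : ℝ) - t) (h * a - t + h) ∩
        Set.Ico (h * (b : ℝ) - t) (h * b - t + h) = ∅ := by
      intro a b hab
      have h1 : (a : ℝ) + 1 ≤ b := by exact_mod_cast hab
      refine Set.eq_empty_of_forall_notMem fun x hx => ?_
      have h2 := hx.1.2
      have h3 := hx.2.1
      nlinarith
    rcases lt_or_gt_of_ne (fun e => hij (Fin.ext e) : (i : ℕ) ≠ j) with h1 | h1
    · rw [key _ _ h1]
      simp
    · rw [Set.inter_comm, key _ _ h1]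
      simp

theorem uu_bessel {κ : Type} [Fintype κ] {f : κ → L2} (hf : Orthonormal ℂ f) {h : ℝ}
    (hh : 0 < h) {m : ℕ} (t : ℝ) (c : Fin m → ℂ) :
    ∑ k, ‖∑ i : Fin m, conj (c i) * uu h (fn (f k)) (h * ((i : ℕ) : ℝ) - t)‖ ^ 2
      ≤ h * ∑ i, ‖c i‖ ^ 2 := by
  set g : L2 := ∑ i : Fin m, c i • s4_e h (h * ((i : ℕ) : ℝ) - t) with hg
  have h1 : ∀ k, ∑ i : Fin m, conj (c i) * uu h (fn (f k)) (h * ((i : ℕ) : ℝ) - t) =
      inner ℂ g (f k) := by
    intro k
    rw [hg, sum_inner]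
    refine Finset.sum_congr rfl fun i _ => ?_
    rw [inner_smul_left, s4_inner]
  have h2 : inner ℂ g g = ((h * ∑ i, ‖c i‖ ^ 2 : ℝ) : ℂ) := by
    rw [hg, sum_inner]
    push_cast
    rw [Finset.mul_sum]
    refine Finset.sum_congr rfl fun i _ => ?_
    rw [inner_sum]
    simp only [inner_smul_left, inner_smul_right, s4_orth hh]
    rw [Finset.sum_eq_single i]
    · rw [if_pos rfl, ← Complex.mul_conj']
      ring
    · intro j _ hj
      rw [if_neg hj.symm]
      simp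
    · simp
  have h3 : ‖g‖ ^ 2 = h * ∑ i, ‖c i‖ ^ 2 := by
    rw [inner_self_eq_norm_sq_to_K] at h2
    have h4 : ((‖g‖ ^ 2 : ℝ) : ℂ) = ((h * ∑ i, ‖c i‖ ^ 2 : ℝ) : ℂ) := by
      rw [← h2]
      push_cast
      rfl
    exact_mod_cast h4
  rw [← h3]
  refine le_trans (le_of_eq ?_) (hf.sum_inner_products_le g (s := Finset.univ))
  refine Finset.sum_congr rfl fun k _ => ?_
  rw [h1, norm_inner_symm]

end Pool.Agent.P.MP_9f4f5e_mp.LT1
end
end

-- part Pool.Agent.P.MP_9f4f5e_mp.LT1.S5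
section

set_option linter.unusedSectionVars false

open MeasureTheory Matrix
open scoped ENNReal ComplexOrder ComplexConjugate FourierTransform
open Pool.Agent.P.MP_9f4f5e_mp.LT (tp dg qf ec fej)

noncomputable section

namespace Pool.Agent.P.MP_9f4f5e_mp.LT1

theorem s5_qf {m : ℕ} (W : Matrix (Fin m) (Fin m) ℂ) (v : Fin m → ℂ) :
    qf W v = (∑ i, ∑ j, v i * conj (v j) * W j i).re := by
  unfold qf
  congr 1
  simp only [dotProduct, Matrix.mulVec, Pi.star_apply, Finset.mul_sum, RCLike.star_def]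
  rw [Finset.sum_comm]
  exact Finset.sum_congr rfl fun i _ => Finset.sum_congr rfl fun j _ => by ring

theorem s5_norm {κ : Type} {u : κ → L2} (hu : Orthonormal ℂ u) (k : κ) : ‖ft (u k)‖ = 1 :=
  (orthonormal_ft hu).1 k

theorem s5_corr {h : ℝ} (hh : 0 < h) (u : L2) (a b : ℝ) :
    Integrable (fun t => uu h (fn (ft u)) (a - t) * conj (uu h (fn (ft u)) (b - t))) ∧
      ∫ t, uu h (fn (ft u)) (a - t) * conj (uu h (fn (ft u)) (b - t))
        = ∫ z, ((‖fn u z‖ ^ 2 * ‖ww h z‖ ^ 2 : ℝ) : ℂ) * ec (-((a - b) * z)) := by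
  obtain ⟨h1, h2⟩ := uu_corr hh u (a - b)
  have e : (fun t => uu h (fn (ft u)) (a - t) * conj (uu h (fn (ft u)) (b - t))) =
      fun t => (fun p => uu h (fn (ft u)) (p + (a - b)) * conj (uu h (fn (ft u)) p)) (b - t) := by
    funext t
    have : b - t + (a - b) = a - t := by ring
    simp only [this]
  rw [e]
  exact ⟨h1.comp_sub_left b, (integral_sub_left_eq_self _ volume b).trans h2⟩

theorem finite_level {κ : Type} [Fintype κ] {u : κ → L2} (hu : Orthonormal ℂ u)
    (hT : ∀ k, Integrable fun ξ => |ξ| * ‖fn (ft (u k)) ξ‖ ^ 2) {h : ℝ} (hh : 0 < h) {m : ℕ}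
    {W : Matrix (Fin m) (Fin m) ℂ} (hW : W.IsHermitian) (c : κ → ℝ) (hc : ∀ k, 0 ≤ c k) :
    ∑ k, (2 * c k * ((∑ i : Fin m, ∑ j : Fin m,
        (∫ z, ((‖fn (u k) z‖ ^ 2 * ‖ww h z‖ ^ 2 : ℝ) : ℂ)
          * ec (-((h * ((i : ℕ) : ℝ) - h * ((j : ℕ) : ℝ)) * z))) * W j i).re
        - m * h ^ 2 * (tk (u k) + h)) - c k ^ 2 * (m * h ^ 2))
      ≤ h * (2 / 3 * tp 3 W) := by
  set a : Fin m → ℝ := fun i => h * ((i : ℕ) : ℝ) with ha
  set v : ℝ → κ → Fin m → ℂ := fun t k i => uu h (fn (ft (u k))) (a i - t) with hv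
  have hC := fun k i j => s5_corr hh (u k) (a i) (a j)
  have hK : ∀ k i, Integrable (fun t => |a i - t| * ‖v t k i‖ ^ 2) ∧
      ∫ t, |a i - t| * ‖v t k i‖ ^ 2 ≤ h ^ 2 * (tk (u k) + h) := fun k i => by
    obtain ⟨h1, h2⟩ := uu_kin hh (ft (u k)) (hT k)
    rw [s5_norm hu k, one_pow, mul_one] at h2
    exact ⟨h1.comp_sub_left (a i), (integral_sub_left_eq_self
      (fun p => |p| * ‖uu h (fn (ft (u k))) p‖ ^ 2) volume (a i)).trans_le h2⟩
  have hS : ∀ k i, Integrable (fun t => ‖v t k i‖ ^ 2) ∧ ∫ t, ‖v t k i‖ ^ 2 ≤ h ^ 2 :=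
    fun k i => by
      obtain ⟨h1, h2⟩ := uu_sq hh (ft (u k))
      rw [s5_norm hu k, one_pow, mul_one] at h2
      exact ⟨h1.comp_sub_left (a i), (integral_sub_left_eq_self
        (fun p => ‖uu h (fn (ft (u k))) p‖ ^ 2) volume (a i)).trans_le h2⟩
  have hA : ∀ k, Integrable fun t => ∑ i, ∑ j, v t k i * conj (v t k j) * W j i := fun k =>
    integrable_finsetSum _ fun i _ => integrable_finsetSum _ fun j _ => (hC k i j).1.mul_const _
  have hA' : ∀ k, Integrable fun t => (∑ i, ∑ j, v t k i * conj (v t k j) * W j i).re :=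
    fun k => (hA k).re
  have hB : ∀ k, Integrable fun t => ∑ i, |a i - t| * ‖v t k i‖ ^ 2 := fun k =>
    integrable_finsetSum _ fun i _ => (hK k i).1
  have hD : ∀ k, Integrable fun t => ∑ i, ‖v t k i‖ ^ 2 := fun k =>
    integrable_finsetSum _ fun i _ => (hS k i).1
  have hI : ∀ k, Integrable fun t => 2 * c k * ((∑ i, ∑ j, v t k i * conj (v t k j) * W j i).re
      - ∑ i, |a i - t| * ‖v t k i‖ ^ 2) - c k ^ 2 * ∑ i, ‖v t k i‖ ^ 2 := fun k =>
    (((hA' k).sub (hB k)).const_mul _).sub ((hD k).const_mul _)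
  have hpt : ∀ t, ∑ k, (2 * c k * ((∑ i, ∑ j, v t k i * conj (v t k j) * W j i).re
      - ∑ i, |a i - t| * ‖v t k i‖ ^ 2) - c k ^ 2 * ∑ i, ‖v t k i‖ ^ 2)
      ≤ h * tp 2 (W - dg fun i => |a i - t|) := fun t => by
    have := peierls (hW.sub (LT.dg_isHermitian fun i => |a i - t|)) (v t)
      (uu_bessel (orthonormal_ft hu) hh t) c hc
    simpa only [LT.qf_sub, LT.qf_dg, s5_qf W] using this
  have key := integral_mono (integrable_finsetSum _ fun k _ => hI k)
    ((LT.integrable_tp hW a two_ne_zero).const_mul h) hpt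
  rw [integral_const_mul, integral_finsetSum _ fun k _ => hI k] at key
  refine le_trans (Finset.sum_le_sum fun k _ => ?_)
    (key.trans (mul_le_mul_of_nonneg_left (LT.lt_two hW a) hh.le))
  have eA : ∫ t, (∑ i, ∑ j, v t k i * conj (v t k j) * W j i).re
      = (∑ i, ∑ j, (∫ z, ((‖fn (u k) z‖ ^ 2 * ‖ww h z‖ ^ 2 : ℝ) : ℂ)
          * ec (-((a i - a j) * z))) * W j i).re := by
    refine (integral_re (hA k)).trans (congrArg Complex.re ?_)
    rw [integral_finsetSum _ fun i _ =>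
      integrable_finsetSum _ fun j _ => (hC k i j).1.mul_const _]
    refine Finset.sum_congr rfl fun i _ => ?_
    rw [integral_finsetSum _ fun j _ => (hC k i j).1.mul_const _]
    refine Finset.sum_congr rfl fun j _ => ?_
    rw [integral_mul_const, (hC k i j).2]
  have eB : ∫ t, ∑ i, |a i - t| * ‖v t k i‖ ^ 2 ≤ m * h ^ 2 * (tk (u k) + h) := by
    rw [integral_finsetSum _ fun i _ => (hK k i).1]
    refine (Finset.sum_le_sum fun i _ => (hK k i).2).trans_eq ?_
    rw [Finset.sum_const, Finset.card_univ, Fintype.card_fin, nsmul_eq_mul, mul_assoc]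
  have eD : ∫ t, ∑ i, ‖v t k i‖ ^ 2 ≤ m * h ^ 2 := by
    rw [integral_finsetSum _ fun i _ => (hS k i).1]
    refine (Finset.sum_le_sum fun i _ => (hS k i).2).trans_eq ?_
    rw [Finset.sum_const, Finset.card_univ, Fintype.card_fin, nsmul_eq_mul]
  have i1 : Integrable fun t => (∑ i, ∑ j, v t k i * conj (v t k j) * W j i).re
      - ∑ i, |a i - t| * ‖v t k i‖ ^ 2 := (hA' k).sub (hB k)
  rw [integral_sub (i1.const_mul _) ((hD k).const_mul _), integral_const_mul, integral_const_mul,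
    integral_sub (hA' k) (hB k), eA]
  have f1 := mul_le_mul_of_nonneg_left eB (mul_nonneg zero_le_two (hc k))
  have f2 := mul_le_mul_of_nonneg_left eD (sq_nonneg (c k))
  linarith

end Pool.Agent.P.MP_9f4f5e_mp.LT1
end
end

-- part Pool.Agent.P.MP_9f4f5e_mp.LT1.S6
section

set_option linter.unusedSectionVars false

open MeasureTheory Matrix
open scoped ENNReal ComplexOrder ComplexConjugate FourierTransform
open Pool.Agent.P.MP_9f4f5e_mp.LT (tp dg qf ec fej)

noncomputable section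

namespace Pool.Agent.P.MP_9f4f5e_mp.LT1

theorem s6_out {h : ℝ} {V : ℝ → ℝ} (hs : ∀ x, 1 / (2 * h) ≤ |x| → V x = 0) (x : ℝ)
    (hx : x ∉ Set.Ioo (-(1 / (2 * h))) (1 / (2 * h))) : V x = 0 :=
  hs x (not_lt.1 fun hc => hx (abs_lt.1 hc))

theorem s6_integrable {h : ℝ} {V : ℝ → ℝ} (hV : Measurable V) {M : ℝ} (h0 : ∀ x, 0 ≤ V x)
    (hM : ∀ x, V x ≤ M) (hs : ∀ x, 1 / (2 * h) ≤ |x| → V x = 0) : Integrable V := by
  have h1 : IntegrableOn V (Set.Ioo (-(1 / (2 * h))) (1 / (2 * h))) volume :=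
    Measure.integrableOn_of_bounded measure_Ioo_lt_top.ne hV.aestronglyMeasurable
      (M := M) (Filter.Eventually.of_forall fun x => by
        rw [Real.norm_eq_abs, abs_of_nonneg (h0 x)]
        exact hM x)
  exact h1.integrable_of_forall_notMem_eq_zero (s6_out hs)

theorem s6_integrable_mul {A : ℝ → ℝ} (hA : Integrable A) {e : ℝ → ℂ} (he : Continuous e)
    (he1 : ∀ x, ‖e x‖ = 1) : Integrable fun x => (A x : ℂ) * e x :=
  hA.ofReal.mul_bdd (c := 1) he.aestronglyMeasurable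
    (Filter.Eventually.of_forall fun x => (he1 x).le)

theorem s6_frame {h : ℝ} (hh : 0 < h) {m : ℕ} (c : Fin m → ℂ) :
    h * ∫ x in Set.Ioo (-(1 / (2 * h))) (1 / (2 * h)),
      ‖∑ i : Fin m, conj (c i) * ec (-(h * ((i : ℕ) : ℝ) * x))‖ ^ 2 ≤ ∑ i, ‖c i‖ ^ 2 := by
  have hi : ∀ i j : Fin m, IntegrableOn (fun x : ℝ => conj (c i) * c j *
      ec (h * (((j : ℕ) : ℤ) - ((i : ℕ) : ℤ) : ℤ) * x)) (Set.Ioo (-(1 / (2 * h))) (1 / (2 * h))) :=
    fun i j => LT.g4_int (by fun_prop) _ _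
  have e : ∀ x : ℝ, ((‖∑ i : Fin m, conj (c i) * ec (-(h * ((i : ℕ) : ℝ) * x))‖ ^ 2 : ℝ) : ℂ) =
      ∑ i : Fin m, ∑ j : Fin m,
        conj (c i) * c j * ec (h * (((j : ℕ) : ℤ) - ((i : ℕ) : ℤ) : ℤ) * x) := by
    intro x
    rw [Complex.ofReal_pow, ← Complex.mul_conj', map_sum, Finset.sum_mul_sum]
    refine Finset.sum_congr rfl fun i _ => Finset.sum_congr rfl fun j _ => ?_
    have e1 : ec (h * (((j : ℕ) : ℤ) - ((i : ℕ) : ℤ) : ℤ) * x) =
        ec (-(h * ((i : ℕ) : ℝ) * x)) * conj (ec (-(h * ((j : ℕ) : ℝ) * x))) := by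
      rw [← LT.ec_neg, ← LT.ec_add]
      congr 1
      push_cast
      ring
    rw [e1, map_mul, Complex.conj_conj]
    ring
  have e2 : ∀ i j : Fin m, ∫ x in Set.Ioo (-(1 / (2 * h))) (1 / (2 * h)), conj (c i) * c j *
      ec (h * (((j : ℕ) : ℤ) - ((i : ℕ) : ℤ) : ℤ) * x) =
        if i = j then ((‖c i‖ ^ 2 / h : ℝ) : ℂ) else 0 := by
    intro i j
    rw [integral_const_mul, LT.integral_ec_int hh]
    by_cases hij : i = j
    · subst hij
      rw [Complex.conj_mul']
      simp [div_eq_mul_inv]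
    · rw [if_neg hij, if_neg fun q => hij (Fin.ext (by omega)), mul_zero]
  refine le_of_eq (Complex.ofReal_injective ?_)
  rw [Complex.ofReal_mul, ← integral_complex_ofReal]
  simp only [e]
  rw [integral_finsetSum _ fun i _ => integrable_finsetSum _ fun j _ => hi i j,
    Finset.sum_congr rfl fun i _ => integral_finsetSum _ fun j _ => hi i j]
  simp only [e2, Finset.sum_ite_eq, Finset.mem_univ, if_true]
  rw [← Complex.ofReal_sum, ← Complex.ofReal_mul, ← Finset.sum_div, mul_div_cancel₀ _ hh.ne']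

theorem s6_dirichlet (h : ℝ) {m : ℕ} (hm : 0 < m) (y : ℝ) :
    ∑ i : Fin m, ∑ j : Fin m, ec ((h * ((i : ℕ) : ℝ) - h * ((j : ℕ) : ℝ)) * y)
      = ((m * fej m (h * y) : ℝ) : ℂ) := by
  have hm' : (m : ℝ) ≠ 0 := by positivity
  rw [fej, mul_div_cancel₀ _ hm', LT.g4_sq]
  refine Finset.sum_congr rfl fun i _ => Finset.sum_congr rfl fun j _ => ?_
  congr 1
  push_cast
  ring

theorem s6_inner {h : ℝ} {m : ℕ} (hm : 0 < m) {V : ℝ → ℝ} (hi : Integrable V) (z : ℝ) :
    ∑ i : Fin m, ∑ j : Fin m, ec (-((h * ((i : ℕ) : ℝ) - h * ((j : ℕ) : ℝ)) * z))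
        * ((h : ℂ) * ∫ x, (V x : ℂ) * ec ((h * ((i : ℕ) : ℝ) - h * ((j : ℕ) : ℝ)) * x))
      = ((m * ∫ x, V x * (h * fej m (h * (x - z))) : ℝ) : ℂ) := by
  have h1 : ∀ a : ℝ, ec (-(a * z)) * ((h : ℂ) * ∫ x, (V x : ℂ) * ec (a * x))
      = ∫ x, (h : ℂ) * ((V x : ℂ) * ec (a * (x - z))) := by
    intro a
    rw [← integral_const_mul, ← integral_const_mul]
    refine integral_congr_ae (Filter.Eventually.of_forall fun x => ?_)
    simp only
    rw [mul_sub a x z, sub_eq_add_neg (a * x), LT.ec_add]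
    ring
  have h2 : ∀ a : ℝ, Integrable fun x => (h : ℂ) * ((V x : ℂ) * ec (a * (x - z))) := fun a =>
    (s6_integrable_mul hi (by fun_prop) fun x => LT.norm_ec _).const_mul _
  simp only [h1]
  rw [← integral_const_mul, ← integral_complex_ofReal]
  rw [Finset.sum_congr rfl fun i _ => (integral_finsetSum Finset.univ fun j _ => h2 _).symm,
    ← integral_finsetSum Finset.univ
      fun i _ => integrable_finsetSum Finset.univ fun j _ => h2 _]
  refine integral_congr_ae (Filter.Eventually.of_forall fun x => ?_)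
  simp only [← Finset.mul_sum]
  rw [s6_dirichlet h hm (x - z)]
  push_cast
  ring

theorem s6_double {h : ℝ} {m : ℕ} (hm : 0 < m) {V : ℝ → ℝ} (hi : Integrable V) {A : ℝ → ℝ}
    (hA : Integrable A) :
    ∑ i : Fin m, ∑ j : Fin m,
        (∫ z, (A z : ℂ) * ec (-((h * ((i : ℕ) : ℝ) - h * ((j : ℕ) : ℝ)) * z)))
        * ((h : ℂ) * ∫ x, (V x : ℂ) * ec ((h * ((i : ℕ) : ℝ) - h * ((j : ℕ) : ℝ)) * x))
      = ((m * ∫ z, A z * ∫ x, V x * (h * fej m (h * (x - z))) : ℝ) : ℂ) := by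
  have h2 : ∀ a : ℝ, Integrable fun z => (A z : ℂ) * ec (-(a * z))
        * ((h : ℂ) * ∫ x, (V x : ℂ) * ec (a * x)) := fun a =>
    (s6_integrable_mul hA (by fun_prop) fun x => LT.norm_ec _).mul_const _
  simp only [← integral_mul_const]
  rw [← integral_const_mul, ← integral_complex_ofReal]
  rw [Finset.sum_congr rfl fun i _ => (integral_finsetSum Finset.univ fun j _ => h2 _).symm,
    ← integral_finsetSum Finset.univ
      fun i _ => integrable_finsetSum Finset.univ fun j _ => h2 _]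
  refine integral_congr_ae (Filter.Eventually.of_forall fun z => ?_)
  have h3 := s6_inner (h := h) hm hi z
  simp only [mul_assoc (A z : ℂ), ← Finset.mul_sum]
  rw [h3]
  push_cast
  ring

theorem s6_entry {h : ℝ} (hh : 0 < h) {V : ℝ → ℝ} (hs : ∀ x, 1 / (2 * h) ≤ |x| → V x = 0)
    (a b : ℝ) :
    ∫ x, (V x : ℂ) * (ec (-(b * x)) * conj (ec (-(a * x))))
        ∂(ENNReal.ofReal h • (volume : Measure ℝ).restrict
          (Set.Ioo (-(1 / (2 * h))) (1 / (2 * h))))
      = (h : ℂ) * ∫ x, (V x : ℂ) * ec ((a - b) * x) := by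
  rw [integral_smul_measure, ENNReal.toReal_ofReal hh.le,
    setIntegral_eq_integral_of_forall_compl_eq_zero (fun x hx => by
      rw [s6_out hs x hx, Complex.ofReal_zero, zero_mul]), Complex.real_smul]
  congr 1
  refine integral_congr_ae (Filter.Eventually.of_forall fun x => ?_)
  simp only
  rw [← LT.ec_neg, neg_neg, ← LT.ec_add]
  congr 2
  ring

theorem fixed_level {κ : Type} [Fintype κ] {u : κ → L2} (hu : Orthonormal ℂ u)
    (hT : ∀ k, Integrable fun ξ => |ξ| * ‖fn (ft (u k)) ξ‖ ^ 2) {h : ℝ} (hh : 0 < h) {m : ℕ}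
    (hm : 0 < m) {V : ℝ → ℝ} (hV : Measurable V) {M : ℝ} (h0 : ∀ x, 0 ≤ V x) (hM : ∀ x, V x ≤ M)
    (hs : ∀ x, 1 / (2 * h) ≤ |x| → V x = 0) (c : κ → ℝ) (hc : ∀ k, 0 ≤ c k) :
    ∑ k, (2 * c k * ((∫ z, ‖fn (u k) z‖ ^ 2 * ‖ww h z‖ ^ 2 / h ^ 2
        * ∫ x, V x * (h * fej m (h * (x - z)))) - tk (u k) - h) - c k ^ 2)
      ≤ 2 / 3 * ∫ x, V x ^ 3 := by
  have hi : Integrable V := s6_integrable hV h0 hM hs
  have hm' : (0 : ℝ) < m := by positivity
  have : IsFiniteMeasure ((volume : Measure ℝ).restrict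
      (Set.Ioo (-(1 / (2 * h))) (1 / (2 * h)))) :=
    isFiniteMeasure_restrict.2 measure_Ioo_lt_top.ne
  have : IsFiniteMeasure (ENNReal.ofReal h • (volume : Measure ℝ).restrict
      (Set.Ioo (-(1 / (2 * h))) (1 / (2 * h)))) :=
    Measure.smul_finite _ ENNReal.ofReal_ne_top
  obtain ⟨hW, hBL⟩ := berezin_three (ι := Fin m)
    (ENNReal.ofReal h • (volume : Measure ℝ).restrict (Set.Ioo (-(1 / (2 * h))) (1 / (2 * h))))
    (e := fun x i => ec (-(h * ((i : ℕ) : ℝ) * x)))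
    (fun i => Continuous.measurable (by fun_prop))
    (fun x i => (LT.norm_ec _).le)
    (fun c => by
      rw [integral_smul_measure, ENNReal.toReal_ofReal hh.le, smul_eq_mul]
      exact s6_frame hh c) hV h0 hM
  have hF := finite_level hu hT hh hW c hc
  have hA : ∀ k, Integrable fun z => ‖fn (u k) z‖ ^ 2 * ‖ww h z‖ ^ 2 := fun k =>
    (fn_sq (u k)).1.mul_bdd (c := h ^ 2)
      ((continuous_ww h).norm.pow 2).aestronglyMeasurable
      (Filter.Eventually.of_forall fun z => by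
        rw [Real.norm_eq_abs, abs_of_nonneg (by positivity)]
        exact pow_le_pow_left₀ (norm_nonneg _) (norm_ww_le hh z) 2)
  rw [integral_smul_measure, ENNReal.toReal_ofReal hh.le, smul_eq_mul,
    setIntegral_eq_integral_of_forall_compl_eq_zero (fun x hx => by
      rw [s6_out hs x hx, zero_pow three_ne_zero]), Fintype.card_fin] at hBL
  simp only [Matrix.of_apply, s6_entry hh hs] at hF hBL
  simp only [s6_double hm hi (hA _), Complex.ofReal_re] at hF
  have heq : ∀ k, (∫ z, ‖fn (u k) z‖ ^ 2 * ‖ww h z‖ ^ 2 / h ^ 2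
        * ∫ x, V x * (h * fej m (h * (x - z)))) = (h ^ 2)⁻¹ *
      ∫ z, ‖fn (u k) z‖ ^ 2 * ‖ww h z‖ ^ 2 * ∫ x, V x * (h * fej m (h * (x - z))) := by
    intro k
    rw [← integral_const_mul]
    refine integral_congr_ae (Filter.Eventually.of_forall fun z => ?_)
    simp only
    ring
  simp only [heq]
  refine le_of_mul_le_mul_left ?_ (mul_pos hm' (pow_pos hh 2))
  rw [Finset.mul_sum]
  refine le_trans (le_of_eq (Finset.sum_congr rfl fun k _ => ?_)) (hF.trans ?_)
  · field_simp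
    ring
  · have := mul_le_mul_of_nonneg_left hBL hh.le
    linarith

end Pool.Agent.P.MP_9f4f5e_mp.LT1
end
end

-- part Pool.Agent.P.MP_9f4f5e_mp.LT1.S7
section

set_option linter.unusedSectionVars false

open MeasureTheory Matrix
open scoped ENNReal ComplexOrder ComplexConjugate FourierTransform
open Pool.Agent.P.MP_9f4f5e_mp.LT (tp dg qf ec fej)

noncomputable section

namespace Pool.Agent.P.MP_9f4f5e_mp.LT1

theorem s7_cont {V : ℝ → ℝ} (hV : Measurable V) {M : ℝ} (hM : ∀ x, |V x| ≤ M) :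
    Continuous fun f : Lp ℝ 1 (volume : Measure ℝ) => ∫ z, f z * V z := by
  have hM0 : 0 ≤ M := (abs_nonneg _).trans (hM 0)
  have hI : ∀ f : Lp ℝ 1 (volume : Measure ℝ), Integrable fun z => f z * V z := fun f =>
    (L1.integrable_coeFn f).mul_bdd hV.aestronglyMeasurable (Filter.Eventually.of_forall hM)
  refine (LipschitzWith.of_dist_le_mul (K := NNReal.mk M hM0) fun f g => ?_).continuous
  have hd : Integrable fun z => dist (f z) (g z) := by
    simp only [dist_eq_norm]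
    exact ((L1.integrable_coeFn f).sub (L1.integrable_coeFn g)).norm
  rw [L1.dist_eq_integral_dist, dist_eq_norm, ← integral_sub (hI f) (hI g), NNReal.coe_mk,
    ← integral_const_mul]
  refine norm_integral_le_of_norm_le (hd.const_mul M) (Filter.Eventually.of_forall fun z => ?_)
  rw [← sub_mul, norm_mul, dist_eq_norm, mul_comm]
  exact mul_le_mul_of_nonneg_right (hM z) (norm_nonneg _)

theorem continuous_pair {A V : ℝ → ℝ} (hA : Integrable A) (hV : Measurable V) {M : ℝ}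
    (hM : ∀ x, |V x| ≤ M) : Continuous fun y => ∫ z, A z * V (z + y) := by
  let g : ℝ → C(ℝ, ℝ) := fun y => ⟨fun z => z - y, by fun_prop⟩
  have hg : Continuous g := ContinuousMap.continuous_of_continuous_uncurry _ (by
    show Continuous fun p : ℝ × ℝ => p.2 - p.1
    fun_prop)
  have hgm : ∀ y, MeasurePreserving (g y) volume volume := fun y =>
    measurePreserving_sub_right volume y
  have hc := (s7_cont hV hM).comp (Continuous.compMeasurePreservingLp
    (f := fun _ : ℝ => hA.toL1 A) continuous_const hg hgm ENNReal.one_ne_top)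
  refine hc.congr fun y => ?_
  have h1 := Lp.coeFn_compMeasurePreserving (hA.toL1 A) (hgm y)
  have h2 := (hgm y).quasiMeasurePreserving.ae_eq_comp hA.coeFn_toL1
  calc _ = ∫ z, A (z - y) * V z := by
        refine integral_congr_ae ?_
        filter_upwards [h1, h2] with z e1 e2
        rw [e1, e2]
        rfl
    _ = ∫ z, A z * V (z + y) := by
        rw [← integral_add_right_eq_self (fun z => A (z - y) * V z) y]
        simp only [add_sub_cancel_right]

theorem s7_mass (m : ℕ) {h δ : ℝ} (hh : 0 < h) (hδ : 0 < δ) :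
    ∫ s in Set.Ioo (-δ) δ, h * fej m (h * s) = ∫ s in Set.Ioo (-(h * δ)) (h * δ), fej m s := by
  have hδ2 : 0 < h * δ := mul_pos hh hδ
  rw [← integral_Ioc_eq_integral_Ioo, ← integral_Ioc_eq_integral_Ioo,
    ← intervalIntegral.integral_of_le (by linarith),
    ← intervalIntegral.integral_of_le (by linarith), intervalIntegral.integral_const_mul,
    intervalIntegral.mul_integral_comp_mul_left, mul_neg]

theorem s7_lower {A V : ℝ → ℝ} (hA : Integrable A) (hA0 : ∀ z, 0 ≤ A z)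
    (hi : Integrable V) (h0 : ∀ x, 0 ≤ V x) {h : ℝ} (hh : 0 < h) (m : ℕ) {δ c : ℝ} (hδ : 0 < δ)
    (hc : ∀ y ∈ Set.Ioo (-δ) δ, c ≤ ∫ z, A z * V (z + y)) :
    c * ∫ s in Set.Ioo (-(h * δ)) (h * δ), fej m s
      ≤ ∫ z, A z * ∫ x, V x * (h * fej m (h * (x - z))) := by
  have hK0 : ∀ y, 0 ≤ h * fej m (h * y) := fun y => mul_nonneg hh.le (LT.fej_nonneg _ _)
  have hKc : Continuous fun y => h * fej m (h * y) :=
    continuous_const.mul ((LT.continuous_fej m).comp (continuous_const.mul continuous_id))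
  have hKb : ∀ y, ‖h * fej m (h * y)‖ ≤ h * m := fun y => by
    rw [Real.norm_of_nonneg (hK0 y)]
    exact mul_le_mul_of_nonneg_left (LT.fej_le _ _) hh.le
  have hG0 : Integrable (fun p : ℝ × ℝ => A p.1 * V (p.1 + p.2)) (volume.prod volume) :=
    (measurePreserving_prod_add volume volume).integrable_comp_of_integrable (hA.mul_prod hi)
  have hG : Integrable (fun p : ℝ × ℝ => A p.1 * V (p.1 + p.2) * (h * fej m (h * p.2)))
      (volume.prod volume) :=
    hG0.mul_bdd (hKc.comp continuous_snd).aestronglyMeasurable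
      (Filter.Eventually.of_forall fun p => hKb p.2)
  have e1 : ∀ z, A z * ∫ x, V x * (h * fej m (h * (x - z)))
      = ∫ y, A z * V (z + y) * (h * fej m (h * y)) := fun z => by
    rw [← integral_add_left_eq_self (fun x => V x * (h * fej m (h * (x - z)))) z,
      ← integral_const_mul]
    simp only [add_sub_cancel_left, mul_assoc]
  have e2 : ∫ z, ∫ y, A z * V (z + y) * (h * fej m (h * y))
      = ∫ y, ∫ z, A z * V (z + y) * (h * fej m (h * y)) := integral_integral_swap hG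
  have hI : Integrable fun y => ∫ z, A z * V (z + y) * (h * fej m (h * y)) :=
    hG.integral_prod_right
  simp_rw [e1]
  rw [e2, ← s7_mass m hh hδ, ← integral_const_mul]
  refine le_trans (setIntegral_mono_on ((LT.g4_int hKc _ _).const_mul c) hI.integrableOn
    measurableSet_Ioo fun y hy => ?_)
    (setIntegral_le_integral hI (Filter.Eventually.of_forall fun y => ?_))
  · rw [integral_mul_const]
    exact mul_le_mul_of_nonneg_right (hc y hy) (hK0 y)
  · exact integral_nonneg fun z => mul_nonneg (mul_nonneg (hA0 z) (h0 _)) (hK0 y)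

theorem fej_limit {A V : ℝ → ℝ} (hA : Integrable A) (hA0 : ∀ z, 0 ≤ A z) (hV : Measurable V)
    (hi : Integrable V) {M : ℝ} (h0 : ∀ x, 0 ≤ V x) (hM : ∀ x, V x ≤ M) {h : ℝ} (hh : 0 < h)
    {η : ℝ} (hη : 0 < η) :
    ∀ᶠ m : ℕ in Filter.atTop,
      (∫ z, A z * V z) - η ≤ ∫ z, A z * ∫ x, V x * (h * fej m (h * (x - z))) := by
  have hF := continuous_pair hA hV (M := M) fun x => by rw [abs_of_nonneg (h0 x)]; exact hM x
  obtain ⟨c, hc⟩ : ∃ c, c = (∫ z, A z * V z) - η / 2 := ⟨_, rfl⟩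
  rcases lt_or_ge c 0 with hc0 | hc0
  · refine Filter.Eventually.of_forall fun m => ?_
    have : 0 ≤ ∫ z, A z * ∫ x, V x * (h * fej m (h * (x - z))) :=
      integral_nonneg fun z => mul_nonneg (hA0 z) (integral_nonneg fun x =>
        mul_nonneg (h0 x) (mul_nonneg hh.le (LT.fej_nonneg _ _)))
    linarith
  have hlt : c < (fun y => ∫ z, A z * V (z + y)) 0 := by
    simp only [add_zero]
    linarith
  obtain ⟨ε, hε, hball⟩ := Metric.eventually_nhds_iff.1
    (hF.continuousAt.eventually (lt_mem_nhds hlt))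
  obtain ⟨δ, hδ⟩ : ∃ δ, δ = min ε (1 / (2 * h)) := ⟨_, rfl⟩
  have hδ0 : 0 < δ := hδ ▸ lt_min hε (by positivity)
  have hδ1 : δ ≤ ε := hδ ▸ min_le_left _ _
  have hδ2 : h * δ ≤ 1 / 2 := by
    have h1 : δ ≤ 1 / (2 * h) := hδ ▸ min_le_right _ _
    calc h * δ ≤ h * (1 / (2 * h)) := mul_le_mul_of_nonneg_left h1 hh.le
      _ = 1 / 2 := by field_simp
  have hhδ : 0 < h * δ := mul_pos hh hδ0
  have hy : ∀ y ∈ Set.Ioo (-δ) δ, c ≤ ∫ z, A z * V (z + y) := fun y hy => by
    refine (hball ?_).le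
    rw [Real.dist_eq, sub_zero, abs_lt]
    exact ⟨by linarith [hy.1], by linarith [hy.2]⟩
  have ht : Filter.Tendsto (fun m : ℕ => c * (1 - 1 / (4 * (m : ℝ) * (h * δ) ^ 2)))
      Filter.atTop (nhds c) := by
    have h1 : Filter.Tendsto (fun m : ℕ => c * (1 - (1 / (4 * (h * δ) ^ 2)) * (m : ℝ)⁻¹))
        Filter.atTop (nhds (c * (1 - (1 / (4 * (h * δ) ^ 2)) * 0))) :=
      ((tendsto_inv_atTop_nhds_zero_nat.const_mul _).const_sub _).const_mul _
    rw [mul_zero, sub_zero, mul_one] at h1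
    refine h1.congr fun m => ?_
    congr 2
    rw [one_div, one_div, ← mul_inv]
    congr 1
    ring
  have hlt2 : (∫ z, A z * V z) - η < c := by linarith
  filter_upwards [ht.eventually (lt_mem_nhds hlt2), Filter.eventually_gt_atTop 0] with m hm1 hm2
  refine hm1.le.trans (le_trans ?_ (s7_lower hA hA0 hi h0 hh m hδ0 hy))
  exact mul_le_mul_of_nonneg_left (LT.fej_mass hm2 hhδ hδ2) hc0

end Pool.Agent.P.MP_9f4f5e_mp.LT1
end
end

-- part Pool.Agent.P.MP_9f4f5e_mp.LT1.S8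
section

set_option linter.unusedSectionVars false

open MeasureTheory Matrix
open scoped ENNReal ComplexOrder ComplexConjugate FourierTransform
open Pool.Agent.P.MP_9f4f5e_mp.LT (tp dg qf ec fej)

noncomputable section

namespace Pool.Agent.P.MP_9f4f5e_mp.LT1

theorem s8_ec (r : ℝ) : ‖ec r - 1‖ ≤ 2 * Real.pi * |r| := by
  have := Real.norm_exp_I_mul_ofReal_sub_one_le (x := 2 * Real.pi * r)
  rw [LT.ec_eq, mul_comm _ Complex.I]
  refine this.trans (le_of_eq ?_)
  rw [Real.norm_eq_abs, abs_mul, abs_of_pos Real.two_pi_pos]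

theorem s8_le_norm_ww {h : ℝ} (hh : 0 < h) (z : ℝ) :
    h * (1 - 2 * Real.pi * h * |z|) ≤ ‖ww h z‖ := by
  have hlt : (volume : Measure ℝ) (Set.Ico 0 h) < ⊤ := measure_Ico_lt_top
  have hre : (volume : Measure ℝ).real (Set.Ico 0 h) = h := by
    rw [Real.volume_real_Ico_of_le hh.le, sub_zero]
  have b := norm_setIntegral_le_of_norm_le_const (f := fun s : ℝ => ec (-(s * z)) - 1)
    (C := 2 * Real.pi * h * |z|) hlt fun s hs => by
      refine (s8_ec _).trans ?_
      have h1 : |s * z| ≤ h * |z| := by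
        rw [abs_mul, abs_of_nonneg hs.1]
        exact mul_le_mul_of_nonneg_right hs.2.le (abs_nonneg _)
      rw [abs_neg]
      nlinarith [Real.pi_pos]
  have i1 : IntegrableOn (fun _ : ℝ => (1 : ℂ)) (Set.Ico 0 h) := integrableOn_const hlt.ne
  have c : Continuous fun s : ℝ => ec (-(s * z)) := by fun_prop
  have i2 : IntegrableOn (fun s : ℝ => ec (-(s * z))) (Set.Ico 0 h) :=
    Measure.integrableOn_of_bounded hlt.ne c.aestronglyMeasurable (M := 1)
      (Filter.Eventually.of_forall fun s => (LT.norm_ec _).le)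
  rw [integral_sub i2 i1, setIntegral_const, hre] at b
  have t := norm_sub_norm_le ((h : ℝ) • (1 : ℂ)) (ww h z)
  rw [norm_sub_rev, norm_smul, norm_one, Real.norm_of_nonneg hh.le] at t
  rw [← ww] at b
  linarith

theorem s8_ratio {v : ℕ → ℝ} (hv : ∀ j, 0 < v j)
    (hv0 : Filter.Tendsto v Filter.atTop (nhds 0)) (z : ℝ) :
    Filter.Tendsto (fun j => ‖ww (v j) z‖ ^ 2 / v j ^ 2) Filter.atTop (nhds 1) := by
  have h1 : Filter.Tendsto (fun j => ‖ww (v j) z‖ / v j) Filter.atTop (nhds 1) := by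
    have hlow : Filter.Tendsto (fun j => 1 - 2 * Real.pi * v j * |z|) Filter.atTop (nhds 1) := by
      have := ((hv0.const_mul (2 * Real.pi)).mul_const |z|).const_sub 1
      simpa using this
    refine tendsto_of_tendsto_of_tendsto_of_le_of_le hlow tendsto_const_nhds (fun j => ?_)
      (fun j => ?_)
    · have := s8_le_norm_ww (hv j) z
      show 1 - 2 * Real.pi * v j * |z| ≤ ‖ww (v j) z‖ / v j
      rw [le_div_iff₀ (hv j)]
      linarith
    · show ‖ww (v j) z‖ / v j ≤ 1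
      rw [div_le_one (hv j)]
      exact norm_ww_le (hv j) z
  have h2 := h1.pow 2
  rw [one_pow] at h2
  refine h2.congr fun j => ?_
  rw [div_pow]

theorem s8_ratio_le {h : ℝ} (hh : 0 < h) (z : ℝ) : ‖ww h z‖ ^ 2 / h ^ 2 ≤ 1 := by
  rw [div_le_one (by positivity)]
  exact pow_le_pow_left₀ (norm_nonneg _) (norm_ww_le hh z) 2

theorem s8_int (u : L2) {h : ℝ} (hh : 0 < h) :
    Integrable fun z => ‖fn u z‖ ^ 2 * ‖ww h z‖ ^ 2 / h ^ 2 := by
  have h1 := (fn_sq u).1.mul_bdd (c := 1) (g := fun z => ‖ww h z‖ ^ 2 / h ^ 2)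
    (((continuous_ww h).norm.pow 2).div_const _).aestronglyMeasurable
    (Filter.Eventually.of_forall fun z => by
      rw [Real.norm_of_nonneg (by positivity)]; exact s8_ratio_le hh z)
  simpa only [mul_div_assoc] using h1

theorem s8_integrable {V : ℝ → ℝ} (hV : Measurable V) {M r : ℝ}
    (h0 : ∀ x, 0 ≤ V x) (hM : ∀ x, V x ≤ M) (hs : ∀ x, r ≤ |x| → V x = 0) : Integrable V := by
  have h1 : IntegrableOn V (Metric.ball (0 : ℝ) r) := by
    refine Measure.integrableOn_of_bounded (M := M) measure_ball_lt_top.ne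
      hV.aestronglyMeasurable ?_
    refine Filter.Eventually.of_forall fun x => ?_
    rw [Real.norm_eq_abs, abs_of_nonneg (h0 x)]
    exact hM x
  refine h1.integrable_of_forall_notMem_eq_zero fun x hx => hs x ?_
  simpa using hx

theorem s8_level {κ : Type} [Fintype κ] {u : κ → L2} (hu : Orthonormal ℂ u)
    (hT : ∀ k, Integrable fun ξ => |ξ| * ‖fn (ft (u k)) ξ‖ ^ 2) {h : ℝ} (hh : 0 < h)
    {V : ℝ → ℝ} (hV : Measurable V) (hi : Integrable V) {M : ℝ} (h0 : ∀ x, 0 ≤ V x)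
    (hM : ∀ x, V x ≤ M) (hs : ∀ x, 1 / (2 * h) ≤ |x| → V x = 0) (c : κ → ℝ) (hc : ∀ k, 0 ≤ c k) :
    ∑ k, (2 * c k * ((∫ z, ‖fn (u k) z‖ ^ 2 * ‖ww h z‖ ^ 2 / h ^ 2 * V z) - tk (u k) - h)
      - c k ^ 2) ≤ 2 / 3 * ∫ x, V x ^ 3 := by
  have key : ∀ η : ℝ, 0 < η →
      ∑ k, (2 * c k * ((∫ z, ‖fn (u k) z‖ ^ 2 * ‖ww h z‖ ^ 2 / h ^ 2 * V z) - η - tk (u k) - h)
        - c k ^ 2) ≤ 2 / 3 * ∫ x, V x ^ 3 := by
    intro η hη
    have h1 := Filter.eventually_all.2 fun k =>
      fej_limit (s8_int (u k) hh) (fun z => by positivity) hV hi h0 hM hh hη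
    obtain ⟨m, hm1, hm⟩ := (h1.and (Filter.eventually_gt_atTop 0)).exists
    refine le_trans (Finset.sum_le_sum fun k _ => ?_) (fixed_level hu hT hh hm hV h0 hM hs c hc)
    have := mul_le_mul_of_nonneg_left (hm1 k) (hc k)
    linarith
  have hl : Filter.Tendsto (fun η : ℝ =>
      ∑ k, (2 * c k * ((∫ z, ‖fn (u k) z‖ ^ 2 * ‖ww h z‖ ^ 2 / h ^ 2 * V z) - η - tk (u k) - h)
        - c k ^ 2)) (nhdsWithin 0 (Set.Ioi 0))
      (nhds (∑ k, (2 * c k * ((∫ z, ‖fn (u k) z‖ ^ 2 * ‖ww h z‖ ^ 2 / h ^ 2 * V z) - 0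
        - tk (u k) - h) - c k ^ 2))) :=
    Filter.Tendsto.mono_left (Continuous.tendsto (by fun_prop) 0) nhdsWithin_le_nhds
  have := le_of_tendsto hl (eventually_mem_nhdsWithin.mono key)
  simpa only [sub_zero] using this

theorem bounded_level {κ : Type} [Fintype κ] {u : κ → L2} (hu : Orthonormal ℂ u)
    (hT : ∀ k, Integrable fun ξ => |ξ| * ‖fn (ft (u k)) ξ‖ ^ 2)
    {V : ℝ → ℝ} (hV : Measurable V) {M r : ℝ} (h0 : ∀ x, 0 ≤ V x) (hM : ∀ x, V x ≤ M)
    (hs : ∀ x, r ≤ |x| → V x = 0) (c : κ → ℝ) (hc : ∀ k, 0 ≤ c k) :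
    ∑ k, (2 * c k * ((∫ z, ‖fn (u k) z‖ ^ 2 * V z) - tk (u k)) - c k ^ 2)
      ≤ 2 / 3 * ∫ x, V x ^ 3 := by
  have hi := s8_integrable hV h0 hM hs
  have hr : 0 < |r| + 1 := by positivity
  set v : ℕ → ℝ := fun j => (2 * (|r| + 1))⁻¹ * (1 / ((j : ℝ) + 1)) with hv
  have hpos : ∀ j, 0 < v j := fun j => by
    simp only [hv]
    positivity
  have hv0 : Filter.Tendsto v Filter.atTop (nhds 0) := by
    have := (tendsto_one_div_add_atTop_nhds_zero_nat (𝕜 := ℝ)).const_mul (2 * (|r| + 1))⁻¹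
    simpa [hv] using this
  have hvr : ∀ j, r ≤ 1 / (2 * v j) := fun j => by
    have h1 : 1 / (2 * v j) = (|r| + 1) * ((j : ℝ) + 1) := by
      simp only [hv]
      field_simp
    have h2 : (0 : ℝ) ≤ j := Nat.cast_nonneg j
    have h3 := le_abs_self r
    rw [h1]
    nlinarith
  have hlim : ∀ k, Filter.Tendsto
      (fun j => ∫ z, ‖fn (u k) z‖ ^ 2 * ‖ww (v j) z‖ ^ 2 / v j ^ 2 * V z) Filter.atTop
      (nhds (∫ z, ‖fn (u k) z‖ ^ 2 * V z)) := by
    intro k
    refine tendsto_integral_of_dominated_convergence (fun z => ‖fn (u k) z‖ ^ 2 * M)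
      (fun j => (s8_int (u k) (hpos j)).1.mul hV.aestronglyMeasurable)
      ((fn_sq (u k)).1.mul_const M) (fun j => Filter.Eventually.of_forall fun z => ?_)
      (Filter.Eventually.of_forall fun z => ?_)
    · have h1 := s8_ratio_le (hpos j) z
      have h2 := h0 z
      have h3 := hpos j
      rw [Real.norm_of_nonneg (by positivity), mul_div_assoc, mul_assoc]
      refine mul_le_mul_of_nonneg_left ?_ (by positivity)
      exact (mul_le_of_le_one_left h2 h1).trans (hM z)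
    · have h1 := ((s8_ratio hpos hv0 z).const_mul (‖fn (u k) z‖ ^ 2)).mul_const (V z)
      rw [mul_one] at h1
      simpa only [mul_div_assoc] using h1
  have hl := tendsto_finsetSum Finset.univ fun k _ =>
    ((((hlim k).sub_const (tk (u k))).sub hv0).const_mul (2 * c k)).sub_const (c k ^ 2)
  have := le_of_tendsto' hl fun j =>
    s8_level hu hT (hpos j) hV hi h0 hM (fun x hx => hs x ((hvr j).trans hx)) c hc
  simpa only [sub_zero] using this

end Pool.Agent.P.MP_9f4f5e_mp.LT1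
end
end

-- part Pool.Agent.P.MP_9f4f5e_mp.LT1.S9
section

set_option linter.unusedSectionVars false

open MeasureTheory Matrix
open scoped ENNReal ComplexOrder ComplexConjugate FourierTransform
open Pool.Agent.P.MP_9f4f5e_mp.LT (tp dg qf ec fej)

noncomputable section

namespace Pool.Agent.P.MP_9f4f5e_mp.LT1

theorem s9_meas (u : L2) : Measurable (fn u) := (Lp.stronglyMeasurable u).measurable

theorem s9_ofReal (a : ℝ) (z : ℂ) (ha : 0 ≤ a) :
    ENNReal.ofReal a * ‖z‖ₑ ^ 2 = ENNReal.ofReal (a * ‖z‖ ^ 2) := by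
  rw [ENNReal.ofReal_mul ha, ENNReal.ofReal_pow (norm_nonneg _), ofReal_norm]

theorem s9_kin_eq (u : L2) :
    kin u = ∫⁻ ξ, ENNReal.ofReal (2 * Real.pi * (|ξ| * ‖fn (ft u) ξ‖ ^ 2)) := by
  unfold kin
  refine lintegral_congr fun ξ => ?_
  rw [s9_ofReal _ _ (by positivity), mul_assoc]

theorem s9_kin_int {u : L2} (h : kin u ≠ ∞) :
    Integrable fun ξ => |ξ| * ‖fn (ft u) ξ‖ ^ 2 := by
  have hm : Measurable fun ξ : ℝ => 2 * Real.pi * (|ξ| * ‖fn (ft u) ξ‖ ^ 2) :=
    measurable_const.mul (measurable_abs.mul ((s9_meas _).norm.pow_const 2))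
  rw [s9_kin_eq] at h
  have h1 : Integrable fun ξ : ℝ => 2 * Real.pi * (|ξ| * ‖fn (ft u) ξ‖ ^ 2) :=
    (lintegral_ofReal_ne_top_iff_integrable hm.aestronglyMeasurable
      (Filter.Eventually.of_forall fun ξ => by positivity)).1 h
  have h2 := h1.const_mul (2 * Real.pi)⁻¹
  refine h2.congr (Filter.Eventually.of_forall fun ξ => ?_)
  have : (2 * Real.pi) ≠ 0 := by positivity
  simp only
  rw [← mul_assoc, inv_mul_cancel₀ this, one_mul]

theorem s9_kin_val {u : L2} (h : kin u ≠ ∞) : kin u = ENNReal.ofReal (2 * Real.pi * tk u) := by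
  rw [s9_kin_eq, tk, ← integral_const_mul]
  exact (ofReal_integral_eq_lintegral_ofReal ((s9_kin_int h).const_mul _)
    (Filter.Eventually.of_forall fun ξ => by positivity)).symm

theorem s9_pot_val (u : L2) {V : ℝ → ℝ} (hV : Measurable V) {M : ℝ} (h0 : ∀ x, 0 ≤ V x)
    (hM : ∀ x, V x ≤ M) : pot V u = ENNReal.ofReal (∫ z, ‖fn u z‖ ^ 2 * V z) := by
  have hi : Integrable fun z => ‖fn u z‖ ^ 2 * V z :=
    (fn_sq u).1.mul_bdd hV.aestronglyMeasurable (c := M) (Filter.Eventually.of_forall fun x => by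
      rw [Real.norm_eq_abs, abs_of_nonneg (h0 x)]; exact hM x)
  rw [ofReal_integral_eq_lintegral_ofReal hi
    (Filter.Eventually.of_forall fun x => mul_nonneg (by positivity) (h0 x))]
  unfold pot
  refine lintegral_congr fun x => ?_
  rw [s9_ofReal _ _ (h0 x), mul_comm]

theorem s9_cube_int {V : ℝ → ℝ} (hV : Measurable V) {M r : ℝ} (h0 : ∀ x, 0 ≤ V x)
    (hM : ∀ x, V x ≤ M) (hs : ∀ x, r ≤ |x| → V x = 0) : Integrable fun x => V x ^ 3 := by
  have h1 : Integrable ((Set.Ioo (-r) r).indicator fun _ : ℝ => M ^ 3) :=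
    (integrable_indicator_iff measurableSet_Ioo).2 (integrableOn_const (by simp))
  refine h1.mono' (hV.pow_const 3).aestronglyMeasurable (Filter.Eventually.of_forall fun x => ?_)
  rw [Real.norm_eq_abs, abs_of_nonneg (pow_nonneg (h0 x) 3)]
  by_cases hx : x ∈ Set.Ioo (-r) r
  · rw [Set.indicator_of_mem hx]
    exact pow_le_pow_left₀ (h0 x) (hM x) 3
  · rw [Set.indicator_of_notMem hx, hs x (not_lt.1 fun h => hx (abs_lt.1 h))]
    simp

theorem s9_bounded {κ : Type} [Fintype κ] {u : κ → L2} (hu : Orthonormal ℂ u)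
    {V : ℝ → ℝ} (hV : Measurable V) {M r : ℝ} (h0 : ∀ x, 0 ≤ V x) (hM : ∀ x, V x ≤ M)
    (hs : ∀ x, r ≤ |x| → V x = 0) :
    ∑ k, (pot V (u k) - kin (u k)) ^ 2
      ≤ ENNReal.ofReal (1 / (3 * Real.pi)) * ∫⁻ x, ENNReal.ofReal (V x) ^ 3 := by
  classical
  have hp : 0 < 2 * Real.pi := by positivity
  let κ' := {k // kin (u k) ≠ ∞}
  let c : κ' → ℝ := fun k =>
    max ((∫ z, ‖fn (u k.1) z‖ ^ 2 * (V z / (2 * Real.pi))) - tk (u k.1)) 0
  have key := bounded_level (κ := κ') (u := fun k => u k.1) (hu.comp _ Subtype.val_injective)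
    (fun k => s9_kin_int k.2) (V := fun x => V x / (2 * Real.pi)) (hV.div_const _)
    (M := M / (2 * Real.pi)) (r := r) (fun x => div_nonneg (h0 x) hp.le)
    (fun x => div_le_div_of_nonneg_right (hM x) hp.le) (fun x hx => by rw [hs x hx, zero_div])
    c (fun k => le_max_right _ _)
  have e1 : ∀ k : κ', 2 * c k * ((∫ z, ‖fn (u k.1) z‖ ^ 2 * (V z / (2 * Real.pi))) - tk (u k.1))
      - c k ^ 2 = c k ^ 2 := by
    intro k
    rcases le_total ((∫ z, ‖fn (u k.1) z‖ ^ 2 * (V z / (2 * Real.pi))) - tk (u k.1)) 0 with h | h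
    · have : c k = 0 := max_eq_right h
      rw [this]; ring
    · have : c k = _ := max_eq_left h
      rw [← this]; ring
  simp only [e1] at key
  have e2 : ∀ k : κ', (pot V (u k.1) - kin (u k.1)) ^ 2
      = ENNReal.ofReal ((2 * Real.pi) ^ 2 * c k ^ 2) := by
    intro k
    have htk : 0 ≤ tk (u k.1) := integral_nonneg fun ξ => by positivity
    rw [s9_pot_val _ hV h0 hM, s9_kin_val k.2, ← ENNReal.ofReal_sub _ (mul_nonneg hp.le htk),
      ← mul_pow, ENNReal.ofReal_pow (mul_nonneg hp.le (le_max_right _ _))]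
    congr 1
    have e3 : (∫ z, ‖fn (u k.1) z‖ ^ 2 * (V z / (2 * Real.pi)))
        = (∫ z, ‖fn (u k.1) z‖ ^ 2 * V z) / (2 * Real.pi) := by
      rw [← integral_div]
      exact integral_congr_ae (Filter.Eventually.of_forall fun z => by
        simp only [mul_div_assoc])
    have e4 : 2 * Real.pi * c k
        = max ((∫ z, ‖fn (u k.1) z‖ ^ 2 * V z) - 2 * Real.pi * tk (u k.1)) 0 := by
      simp only [c]
      rw [mul_max_of_nonneg _ _ hp.le, mul_zero, e3, mul_sub, mul_div_cancel₀ _ hp.ne']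
    rw [e4, ENNReal.ofReal_max, ENNReal.ofReal_zero, max_eq_left (zero_le)]
  have e5 : ∑ k, (pot V (u k) - kin (u k)) ^ 2 = ∑ k : κ', (pot V (u k.1) - kin (u k.1)) ^ 2 := by
    rw [← Finset.sum_subtype (Finset.univ.filter fun k => kin (u k) ≠ ∞) (by simp)
      (fun k => (pot V (u k) - kin (u k)) ^ 2)]
    refine (Finset.sum_subset (Finset.filter_subset _ _) fun k _ hk => ?_).symm
    have : kin (u k) = ∞ := by simpa using hk
    rw [this]
    simp
  have e6 : ∫⁻ x, ENNReal.ofReal (V x) ^ 3 = ENNReal.ofReal (∫ x, V x ^ 3) := by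
    rw [ofReal_integral_eq_lintegral_ofReal (s9_cube_int hV h0 hM hs)
      (Filter.Eventually.of_forall fun x => pow_nonneg (h0 x) 3)]
    exact lintegral_congr fun x => (ENNReal.ofReal_pow (h0 x) 3).symm
  rw [e5, e6, ← ENNReal.ofReal_mul (by positivity)]
  simp only [e2]
  rw [← ENNReal.ofReal_sum_of_nonneg fun k _ => by positivity]
  refine ENNReal.ofReal_le_ofReal ?_
  rw [← Finset.mul_sum]
  have e7 : ∫ x, (V x / (2 * Real.pi)) ^ 3 = (∫ x, V x ^ 3) / (2 * Real.pi) ^ 3 := by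
    rw [← integral_div]
    exact integral_congr_ae (Filter.Eventually.of_forall fun z => by simp only [div_pow])
  rw [e7] at key
  refine (mul_le_mul_of_nonneg_left key (by positivity)).trans (le_of_eq ?_)
  have := Real.pi_pos
  field_simp

/-- truncation -/
def s9_tr (V : ℝ → ℝ) (n : ℕ) (x : ℝ) : ℝ := if |x| < n then min (max (V x) 0) n else 0

theorem s9_tr_meas {V : ℝ → ℝ} (hV : Measurable V) (n : ℕ) : Measurable (s9_tr V n) :=
  Measurable.ite (measurableSet_lt measurable_abs measurable_const)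
    ((hV.max measurable_const).min measurable_const) measurable_const

theorem s9_tr_nonneg (V : ℝ → ℝ) (n : ℕ) (x : ℝ) : 0 ≤ s9_tr V n x := by
  unfold s9_tr
  split_ifs
  · exact le_min (le_max_right _ _) (Nat.cast_nonneg n)
  · exact le_rfl

theorem s9_tr_le (V : ℝ → ℝ) (n : ℕ) (x : ℝ) : s9_tr V n x ≤ n := by
  unfold s9_tr
  split_ifs
  · exact min_le_right _ _
  · exact Nat.cast_nonneg n

theorem s9_tr_le' (V : ℝ → ℝ) (n : ℕ) (x : ℝ) :
    ENNReal.ofReal (s9_tr V n x) ≤ ENNReal.ofReal (V x) := by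
  unfold s9_tr
  split_ifs
  · refine (ENNReal.ofReal_le_ofReal (min_le_left _ _)).trans ?_
    rw [ENNReal.ofReal_max, ENNReal.ofReal_zero, max_eq_left (zero_le)]
  · simp

theorem s9_tr_mono (V : ℝ → ℝ) (x : ℝ) : Monotone fun n => s9_tr V n x := by
  intro n m h
  have h' : (n : ℝ) ≤ m := Nat.cast_le.2 h
  by_cases hn : |x| < n
  · simp only [s9_tr, if_pos hn, if_pos (hn.trans_le h')]
    exact min_le_min le_rfl h'
  · have := s9_tr_nonneg V m x
    simpa only [s9_tr, if_neg hn] using this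

theorem s9_tr_ev (V : ℝ → ℝ) (x : ℝ) :
    ∀ᶠ n : ℕ in Filter.atTop, ENNReal.ofReal (s9_tr V n x) = ENNReal.ofReal (V x) := by
  filter_upwards [tendsto_natCast_atTop_atTop (R := ℝ).eventually_gt_atTop |x|,
    tendsto_natCast_atTop_atTop (R := ℝ).eventually_ge_atTop (max (V x) 0)] with n h1 h2
  rw [s9_tr, if_pos h1, min_eq_left h2, ENNReal.ofReal_max, ENNReal.ofReal_zero,
    max_eq_left (zero_le)]

theorem s9_pot_lim {V : ℝ → ℝ} (hV : Measurable V) (u : L2) :
    Filter.Tendsto (fun n => pot (s9_tr V n) u) Filter.atTop (nhds (pot V u)) := by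
  unfold pot
  refine lintegral_tendsto_of_tendsto_of_monotone
    (fun n => ((s9_tr_meas hV n).ennreal_ofReal.mul
      ((s9_meas u).enorm.pow_const 2)).aemeasurable)
    (Filter.Eventually.of_forall fun x n m h =>
      mul_le_mul_left (ENNReal.ofReal_le_ofReal (s9_tr_mono V x h)) _)
    (Filter.Eventually.of_forall fun x => tendsto_const_nhds.congr' ?_)
  filter_upwards [s9_tr_ev V x] with n hn
  rw [hn]

theorem lt_gamma_two {κ : Type} [Fintype κ] {u : κ → L2} (hu : Orthonormal ℂ u)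
    {V : ℝ → ℝ} (hV : Measurable V) :
    ∑ k, (pot V (u k) - kin (u k)) ^ 2
      ≤ ENNReal.ofReal (1 / (3 * Real.pi)) * ∫⁻ x, ENNReal.ofReal (V x) ^ 3 := by
  have h1 : Filter.Tendsto (fun n => ∑ k, (pot (s9_tr V n) (u k) - kin (u k)) ^ 2) Filter.atTop
      (nhds (∑ k, (pot V (u k) - kin (u k)) ^ 2)) := by
    refine tendsto_finsetSum _ fun k _ => ?_
    by_cases h : kin (u k) = ∞
    · simp only [h, ENNReal.sub_top]
      exact tendsto_const_nhds
    · exact ((ENNReal.continuous_pow 2).comp (ENNReal.continuous_sub_right _)).continuousAt.tendsto.comp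
        (s9_pot_lim hV (u k))
  refine le_of_tendsto' h1 fun n => ?_
  refine (s9_bounded hu (s9_tr_meas hV n) (s9_tr_nonneg V n) (s9_tr_le V n) (r := n)
    fun x hx => if_neg (not_lt.2 hx)).trans ?_
  exact mul_le_mul_right (lintegral_mono fun x => pow_le_pow_left' (s9_tr_le' V n x) 3) _

end Pool.Agent.P.MP_9f4f5e_mp.LT1
end
end

-- part Pool.Agent.P.MP_9f4f5e_mp.LT1.S11
section

set_option linter.unusedSectionVars false

open MeasureTheory Matrix
open scoped ENNReal ComplexOrder ComplexConjugate FourierTransform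
open Pool.Agent.P.MP_9f4f5e_mp.LT (tp dg qf ec fej)

noncomputable section

namespace Pool.Agent.P.MP_9f4f5e_mp.LT1

theorem s11_mass {u : L2} (hu : ‖u‖ = 1) : ∫⁻ x, ‖fn u x‖ₑ ^ 2 = 1 := by
  obtain ⟨h1, h2⟩ := fn_sq u
  have h3 := ofReal_integral_eq_lintegral_ofReal h1
    (Filter.Eventually.of_forall fun x => by positivity)
  rw [h2, hu] at h3
  have h4 : ∀ x, ‖fn u x‖ₑ ^ 2 = ENNReal.ofReal (‖fn u x‖ ^ 2) := fun x => by
    rw [ENNReal.ofReal_pow (norm_nonneg _), ofReal_norm]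
  simp only [h4]
  rw [← h3]
  simp

theorem s11_meas (u : L2) : Measurable fun x => ‖fn u x‖ₑ ^ 2 :=
  ((Lp.stronglyMeasurable u).measurable.enorm).pow_const 2

theorem s11_pot {u : L2} (hu : ‖u‖ = 1) {V : ℝ → ℝ} {s : ℝ} (hs : 0 ≤ s) :
    pot V u ≤ pot (fun x => V x - s) u + ENNReal.ofReal s := by
  unfold pot
  have h1 : ∀ x, ENNReal.ofReal (V x) * ‖fn u x‖ₑ ^ 2 ≤
      ENNReal.ofReal (V x - s) * ‖fn u x‖ₑ ^ 2 + ENNReal.ofReal s * ‖fn u x‖ₑ ^ 2 := fun x => by
    rw [← add_mul, ENNReal.ofReal_sub _ hs]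
    exact mul_le_mul_left le_tsub_add _
  refine (lintegral_mono h1).trans ?_
  rw [lintegral_add_right _ ((s11_meas u).const_mul _), lintegral_const_mul _ (s11_meas u),
    s11_mass hu, mul_one]

theorem s11_shift {u : L2} (hu : ‖u‖ = 1) {V : ℝ → ℝ} {s : ℝ} (hs : 0 ≤ s) :
    (pot V u - kin u) - ENNReal.ofReal s ≤ pot (fun x => V x - s) u - kin u := by
  rw [tsub_right_comm]
  exact tsub_le_tsub_right (tsub_le_iff_right.2 (s11_pot hu hs)) _

theorem s11_step {N : ℕ} {u : Fin N → L2} (hu : Orthonormal ℂ u) {V : ℝ → ℝ} (hV : Measurable V)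
    {s : ℝ} (hs : 0 ≤ s) :
    ∑ k, ((pot V (u k) - kin (u k)) - ENNReal.ofReal s) ^ 2
      ≤ ENNReal.ofReal (1 / (3 * Real.pi)) *
        ∫⁻ x, (ENNReal.ofReal (V x) - ENNReal.ofReal s) ^ 3 := by
  have h1 := lt_gamma_two hu (V := fun x => V x - s) (hV.sub_const s)
  simp only [ENNReal.ofReal_sub _ hs] at h1
  refine le_trans (Finset.sum_le_sum fun k _ => ?_) h1
  exact pow_le_pow_left' (s11_shift (hu.1 k) hs) 2

theorem s11_main {a : ℝ} (ha : 0 < a) {N : ℕ} {u : Fin N → L2} (hu : Orthonormal ℂ u)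
    {V : ℝ → ℝ} (hV : Measurable V) :
    ENNReal.ofReal (2 / (a * (a + 1) * (a + 2))) * ∑ k, (pot V (u k) - kin (u k)) ^ (a + 2)
      ≤ ENNReal.ofReal (1 / (3 * Real.pi)) *
        (ENNReal.ofReal (6 / (a * (a + 1) * (a + 2) * (a + 3))) *
          ∫⁻ x, ENNReal.ofReal (V x) ^ (a + 3)) := by
  have hw : Measurable fun s : ℝ => ENNReal.ofReal (s ^ (a - 1)) :=
    (measurable_id.pow_const (a - 1)).ennreal_ofReal
  have hL : ENNReal.ofReal (2 / (a * (a + 1) * (a + 2))) *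
      ∑ k, (pot V (u k) - kin (u k)) ^ (a + 2) =
      ∫⁻ s in Set.Ioi (0 : ℝ), ENNReal.ofReal (s ^ (a - 1)) *
        ∑ k, ((pot V (u k) - kin (u k)) - ENNReal.ofReal s) ^ 2 := by
    simp only [Finset.mul_sum]
    rw [lintegral_finsetSum]
    · exact Finset.sum_congr rfl fun k _ => (al_two ha _).symm
    · intro k _
      exact hw.mul ((measurable_const.sub measurable_id.ennreal_ofReal).pow_const 2)
  have hm : Measurable fun p : ℝ × ℝ => ENNReal.ofReal (p.1 ^ (a - 1)) *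
      (ENNReal.ofReal (V p.2) - ENNReal.ofReal p.1) ^ 3 :=
    (hw.comp measurable_fst).mul
      (((hV.comp measurable_snd).ennreal_ofReal.sub measurable_fst.ennreal_ofReal).pow_const 3)
  have hR : ENNReal.ofReal (6 / (a * (a + 1) * (a + 2) * (a + 3))) *
      ∫⁻ x, ENNReal.ofReal (V x) ^ (a + 3) =
      ∫⁻ s in Set.Ioi (0 : ℝ), ENNReal.ofReal (s ^ (a - 1)) *
        ∫⁻ x, (ENNReal.ofReal (V x) - ENNReal.ofReal s) ^ 3 := by
    rw [← lintegral_const_mul _ (hV.ennreal_ofReal.pow_const (a + 3))]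
    have h1 : ∀ s : ℝ, ENNReal.ofReal (s ^ (a - 1)) *
        ∫⁻ x, (ENNReal.ofReal (V x) - ENNReal.ofReal s) ^ 3 =
        ∫⁻ x, ENNReal.ofReal (s ^ (a - 1)) * (ENNReal.ofReal (V x) - ENNReal.ofReal s) ^ 3 :=
      fun s => (lintegral_const_mul _
        ((hV.ennreal_ofReal.sub measurable_const).pow_const 3)).symm
    simp only [h1]
    rw [lintegral_lintegral_swap (μ := volume.restrict (Set.Ioi (0 : ℝ))) (ν := volume)
      (f := fun s x => ENNReal.ofReal (s ^ (a - 1)) *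
        (ENNReal.ofReal (V x) - ENNReal.ofReal s) ^ 3) hm.aemeasurable]
    exact lintegral_congr fun x => (al_three ha _).symm
  rw [hL, hR, ← lintegral_const_mul' _ _ ENNReal.ofReal_ne_top]
  refine setLIntegral_mono' measurableSet_Ioi fun s hs => ?_
  rw [mul_left_comm]
  exact mul_le_mul_right (s11_step hu hV (le_of_lt hs)) _

theorem lt_upper {γ : ℝ} (hγ : 2 ≤ γ) : LiebThirring γ (1 / (Real.pi * (γ + 1))) := by
  intro N u hu V hV
  rcases eq_or_lt_of_le hγ with rfl | hlt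
  · have h1 := lt_gamma_two hu hV
    have h2 : (2 : ℝ) + 1 = ((3 : ℕ) : ℝ) := by norm_num
    have h3 : (1 : ℝ) / (Real.pi * ((3 : ℕ) : ℝ)) = 1 / (3 * Real.pi) := by
      rw [mul_comm]
      norm_num
    simp only [h2, h3, ENNReal.rpow_natCast, ENNReal.rpow_two]
    exact h1
  · have ha : 0 < γ - 2 := sub_pos.2 hlt
    have h1 := s11_main ha hu hV
    have e1 : γ - 2 + 2 = γ := by ring
    have e2 : γ - 2 + 3 = γ + 1 := by ring
    rw [e1, e2] at h1
    have hp : 0 < 2 / ((γ - 2) * (γ - 2 + 1) * γ) := by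
      have : 0 < γ := by linarith
      positivity
    have e3 : ENNReal.ofReal (1 / (3 * Real.pi)) *
        ENNReal.ofReal (6 / ((γ - 2) * (γ - 2 + 1) * γ * (γ + 1))) =
        ENNReal.ofReal (2 / ((γ - 2) * (γ - 2 + 1) * γ)) *
          ENNReal.ofReal (1 / (Real.pi * (γ + 1))) := by
      rw [← ENNReal.ofReal_mul (by positivity), ← ENNReal.ofReal_mul hp.le]
      congr 1
      have h4 : γ ≠ 0 := by linarith
      have h5 : γ + 1 ≠ 0 := by linarith
      have h6 : γ - 2 ≠ 0 := ha.ne'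
      have h7 : γ - 2 + 1 ≠ 0 := by linarith
      have h8 := Real.pi_ne_zero
      field_simp
      ring
    rw [← mul_assoc (ENNReal.ofReal (1 / (3 * Real.pi))), e3,
      mul_assoc (ENNReal.ofReal (2 / ((γ - 2) * (γ - 2 + 1) * γ)))] at h1
    exact (ENNReal.mul_le_mul_iff_right (ENNReal.ofReal_pos.2 hp).ne' ENNReal.ofReal_ne_top).1 h1

end Pool.Agent.P.MP_9f4f5e_mp.LT1
end
end

-- part Pool.Agent.P.MP_9f4f5e_mp.LT1.T4
section

set_option linter.unusedSectionVars false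

open MeasureTheory Matrix
open scoped ENNReal ComplexOrder ComplexConjugate FourierTransform
open Pool.Agent.P.MP_9f4f5e_mp.LT (tp dg qf ec fej)

noncomputable section

namespace Pool.Agent.P.MP_9f4f5e_mp.LT1

theorem al_one {γ : ℝ} (hγ : 0 < γ) (E : ℝ≥0∞) :
    ∫⁻ s in Set.Ioi (0 : ℝ), (E - ENNReal.ofReal s) ^ γ
      = ENNReal.ofReal (1 / (γ + 1)) * E ^ (γ + 1) := by
  have han : 0 < γ + 1 := by linarith
  by_cases hE : E = ∞
  · subst hE
    rw [ENNReal.top_rpow_of_pos han, ENNReal.mul_top (by simpa using han),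
      setLIntegral_congr_fun measurableSet_Ioi (g := fun _ => ∞)]
    · simp
    · intro s _
      simp only
      rw [ENNReal.top_sub ENNReal.ofReal_ne_top, ENNReal.top_rpow_of_pos hγ]
  obtain ⟨x, hx0, rfl⟩ : ∃ x : ℝ, 0 ≤ x ∧ E = ENNReal.ofReal x :=
    ⟨E.toReal, ENNReal.toReal_nonneg, (ENNReal.ofReal_toReal hE).symm⟩
  have h1 : ∫⁻ s in Set.Ioi (0 : ℝ), (ENNReal.ofReal x - ENNReal.ofReal s) ^ γ =
      ∫⁻ s in Set.Ioc (0 : ℝ) x, ENNReal.ofReal ((x - s) ^ γ) := by
    rw [← lintegral_indicator measurableSet_Ioi, ← lintegral_indicator measurableSet_Ioc]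
    congr 1
    funext s
    by_cases hs : 0 < s
    · rw [Set.indicator_of_mem (show s ∈ Set.Ioi (0 : ℝ) from hs)]
      by_cases hsx : s ≤ x
      · rw [Set.indicator_of_mem (show s ∈ Set.Ioc (0 : ℝ) x from ⟨hs, hsx⟩),
          ← ENNReal.ofReal_sub _ hs.le, ENNReal.ofReal_rpow_of_nonneg (by linarith) hγ.le]
      · rw [Set.indicator_of_notMem (fun h => hsx h.2),
          tsub_eq_zero_of_le (ENNReal.ofReal_le_ofReal (not_le.1 hsx).le),
          ENNReal.zero_rpow_of_pos hγ]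
    · rw [Set.indicator_of_notMem (show s ∉ Set.Ioi (0 : ℝ) from hs),
        Set.indicator_of_notMem (fun h => hs h.1)]
  have h2 : IntegrableOn (fun s : ℝ => (x - s) ^ γ) (Set.Ioc 0 x) :=
    (((continuous_const.sub continuous_id).rpow_const fun _ => Or.inr hγ.le).intervalIntegrable
      0 x).1
  have h3 : 0 ≤ᵐ[volume.restrict (Set.Ioc (0 : ℝ) x)] fun s : ℝ => (x - s) ^ γ :=
    (ae_restrict_iff' measurableSet_Ioc).2 (Filter.Eventually.of_forall fun s hs =>
      Real.rpow_nonneg (sub_nonneg.2 hs.2) _)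
  rw [h1, ← ofReal_integral_eq_lintegral_ofReal h2 h3, ← intervalIntegral.integral_of_le hx0,
    intervalIntegral.integral_comp_sub_left (fun s : ℝ => s ^ γ) x, sub_self, sub_zero,
    integral_rpow (Or.inl (by linarith)), Real.zero_rpow han.ne', sub_zero,
    ENNReal.ofReal_rpow_of_nonneg hx0 han.le, ← ENNReal.ofReal_mul (by positivity)]
  congr 1
  ring

theorem lt_succ {γ : ℝ} (hγ : 0 < γ) (H : LiebThirring γ (1 / (Real.pi * (γ + 1)))) :
    LiebThirring (γ + 1) (1 / (Real.pi * (γ + 1 + 1))) := by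
  intro N u hu V hV
  have hπ := Real.pi_pos
  have hL : ENNReal.ofReal (1 / (γ + 1)) * ∑ k, (pot V (u k) - kin (u k)) ^ (γ + 1) =
      ∫⁻ s in Set.Ioi (0 : ℝ), ∑ k, ((pot V (u k) - kin (u k)) - ENNReal.ofReal s) ^ γ := by
    rw [Finset.mul_sum, lintegral_finsetSum]
    · exact Finset.sum_congr rfl fun k _ => (al_one hγ _).symm
    · intro k _
      exact (measurable_const.sub measurable_id.ennreal_ofReal).pow_const γ
  have hm : Measurable fun p : ℝ × ℝ => (ENNReal.ofReal (V p.2) - ENNReal.ofReal p.1) ^ (γ + 1) :=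
    ((hV.comp measurable_snd).ennreal_ofReal.sub measurable_fst.ennreal_ofReal).pow_const _
  have hR : ENNReal.ofReal (1 / (γ + 1 + 1)) * ∫⁻ x, ENNReal.ofReal (V x) ^ (γ + 1 + 1) =
      ∫⁻ s in Set.Ioi (0 : ℝ), ∫⁻ x, (ENNReal.ofReal (V x) - ENNReal.ofReal s) ^ (γ + 1) := by
    rw [← lintegral_const_mul _ (hV.ennreal_ofReal.pow_const (γ + 1 + 1)),
      lintegral_lintegral_swap (μ := volume.restrict (Set.Ioi (0 : ℝ))) (ν := volume)
      (f := fun s x => (ENNReal.ofReal (V x) - ENNReal.ofReal s) ^ (γ + 1)) hm.aemeasurable]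
    exact lintegral_congr fun x => (al_one (by linarith) _).symm
  have h1 : ENNReal.ofReal (1 / (γ + 1)) * ∑ k, (pot V (u k) - kin (u k)) ^ (γ + 1) ≤
      ENNReal.ofReal (1 / (Real.pi * (γ + 1))) *
        (ENNReal.ofReal (1 / (γ + 1 + 1)) * ∫⁻ x, ENNReal.ofReal (V x) ^ (γ + 1 + 1)) := by
    rw [hL, hR, ← lintegral_const_mul' _ _ ENNReal.ofReal_ne_top]
    refine setLIntegral_mono' measurableSet_Ioi fun s hs => ?_
    have h2 := H N u hu (fun x => V x - s) (hV.sub_const s)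
    simp only [ENNReal.ofReal_sub _ (le_of_lt hs)] at h2
    refine le_trans (Finset.sum_le_sum fun k _ => ?_) h2
    exact ENNReal.rpow_le_rpow (s11_shift (hu.1 k) (le_of_lt hs)) hγ.le
  have e3 : ENNReal.ofReal (1 / (Real.pi * (γ + 1))) * ENNReal.ofReal (1 / (γ + 1 + 1)) =
      ENNReal.ofReal (1 / (γ + 1)) * ENNReal.ofReal (1 / (Real.pi * (γ + 1 + 1))) := by
    rw [← ENNReal.ofReal_mul (by positivity), ← ENNReal.ofReal_mul (by positivity)]
    congr 1
    field_simp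
  rw [← mul_assoc, e3, mul_assoc] at h1
  exact (ENNReal.mul_le_mul_iff_right (ENNReal.ofReal_pos.2 (by positivity)).ne'
    ENNReal.ofReal_ne_top).1 h1

end Pool.Agent.P.MP_9f4f5e_mp.LT1
end
end
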