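import Pool.Agent.K.MP_9f4f5e_mp.C3
import Pool.Agent.K.MP_9f4f5e_mp.C0
import Pool.Agent.P.MP_edb112_gt.Basic
import Pool.Agent.K.MP_9f4f5e_mp.C1
import Pool.Agent.K.MP_9f4f5e_mp.C2

-- part Pool.Agent.P.MP_9f4f5e_mp.LT.B6
section

set_option autoImplicit false
set_option linter.unusedSectionVars false

open MeasureTheory Matrix
open scoped ENNReal ComplexOrder ComplexConjugate RealInnerProductSpace FourierTransform

noncomputable section

namespace Pool.Agent.P.MP_9f4f5e_mp.LT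

variable {ι : Type} [Fintype ι] [DecidableEq ι]

/-- Hint: lintegral_tp_eq and lt_two. -/
theorem lt_two' {V : Matrix ι ι ℂ} (hV : V.IsHermitian) (a : ι → ℝ) :
    ∫⁻ t : ℝ, ENNReal.ofReal (tp 2 (V - dg fun i => |a i - t|))
      ≤ ENNReal.ofReal (2 / 3 * tp 3 V) := by
  rw [lintegral_tp_eq hV a two_ne_zero]
  exact ENNReal.ofReal_le_ofReal (lt_two hV a)

/-- Aizenman-Lieb. Hint: lintegral_tp_shift with k = 2 inside, lintegral_lintegral_swap
(measurable by continuous_tp), lt_two' for V - dg (fun _ => s), lintegral_tp_shift with k = 3. -/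
theorem lt_three {V : Matrix ι ι ℂ} (hV : V.IsHermitian) (a : ι → ℝ) :
    ∫⁻ t : ℝ, ENNReal.ofReal (tp 3 (V - dg fun i => |a i - t|))
      ≤ ENNReal.ofReal (1 / 2 * tp 4 V) := by
  have h1 : ∀ t : ℝ, ENNReal.ofReal (tp 3 (V - dg fun i => |a i - t|))
      = ENNReal.ofReal 3 * ∫⁻ s in Set.Ioi (0 : ℝ),
        ENNReal.ofReal (tp 2 (V - dg fun i => |a i - t| + s)) := fun t => by
    have h := lintegral_tp_shift (hV.sub (dg_isHermitian fun i => |a i - t|)) (k := 2) two_ne_zero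
    simp only [sub_sub, dg_add] at h
    rw [h, ← ENNReal.ofReal_mul (by norm_num)]
    congr 1
    push_cast
    ring
  have hm : Measurable fun p : ℝ × ℝ =>
      ENNReal.ofReal (tp 2 (V - dg fun i => |a i - p.1| + p.2)) :=
    (continuous_tp_sub_dg hV (d := fun (p : ℝ × ℝ) i => |a i - p.1| + p.2)
      (fun i => by fun_prop) two_ne_zero).measurable.ennreal_ofReal
  have h2 : ∀ s : ℝ, ∫⁻ t : ℝ, ENNReal.ofReal (tp 2 (V - dg fun i => |a i - t| + s))
      ≤ ENNReal.ofReal (2 / 3) * ENNReal.ofReal (tp 3 (V - dg fun _ => s)) := fun s => by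
    have h := lt_two' (hV.sub (dg_isHermitian fun _ => s)) a
    simp only [sub_sub, dg_add] at h
    rw [← ENNReal.ofReal_mul (by norm_num)]
    simpa only [add_comm] using h
  simp only [h1]
  rw [lintegral_const_mul' _ _ ENNReal.ofReal_ne_top, lintegral_lintegral_swap hm.aemeasurable]
  refine (mul_le_mul_right (lintegral_mono h2) _).trans_eq ?_
  rw [lintegral_const_mul' _ _ ENNReal.ofReal_ne_top, lintegral_tp_shift hV (k := 3) (by norm_num),
    ← ENNReal.ofReal_mul (by norm_num), ← ENNReal.ofReal_mul (by norm_num)]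
  congr 1
  push_cast
  ring

end Pool.Agent.P.MP_9f4f5e_mp.LT
end
end

-- part Pool.Agent.P.MP_9f4f5e_mp.LT.C2
section

set_option autoImplicit false
set_option linter.unusedSectionVars false

open MeasureTheory Matrix
open scoped ENNReal ComplexOrder ComplexConjugate RealInnerProductSpace FourierTransform

noncomputable section

namespace Pool.Agent.P.MP_9f4f5e_mp.LT

theorem c2_pow (k : ℕ) :
    IntegrableOn (fun x : ℝ => (1 + x)⁻¹ ^ (k + 2)) (Set.Ioi 0) ∧
      ∫ x in Set.Ioi (0 : ℝ), (1 + x)⁻¹ ^ (k + 2) = 1 / ((k : ℝ) + 1) := by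
  have hk : (k : ℝ) + 1 ≠ 0 := by positivity
  have hd : ∀ x ∈ Set.Ici (0 : ℝ), HasDerivAt (fun x : ℝ => -(1 / ((k : ℝ) + 1)) * (1 + x)⁻¹ ^ (k + 1))
      ((1 + x)⁻¹ ^ (k + 2)) x := fun x hx => by
    have h0 : (1 + x) ≠ 0 := by have : (0 : ℝ) ≤ x := hx; positivity
    have h1 := ((((hasDerivAt_id' x).const_add 1).fun_inv h0).fun_pow (k + 1)).const_mul
      (-(1 / ((k : ℝ) + 1)))
    refine h1.congr_deriv ?_
    simp only [Nat.add_sub_cancel, div_eq_mul_inv (-1 : ℝ), ← inv_pow]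
    generalize (1 + x)⁻¹ = u
    push_cast
    field_simp
    ring
  have ht : Filter.Tendsto (fun x : ℝ => -(1 / ((k : ℝ) + 1)) * (1 + x)⁻¹ ^ (k + 1)) Filter.atTop
      (nhds 0) := by
    have a : Filter.Tendsto (fun x : ℝ => (1 + x)⁻¹) Filter.atTop (nhds 0) :=
      tendsto_inv_atTop_zero.comp (Filter.tendsto_atTop_add_const_left _ _ Filter.tendsto_id)
    simpa using (a.pow (k + 1)).const_mul (-(1 / ((k : ℝ) + 1)))
  have hn : ∀ x ∈ Set.Ioi (0 : ℝ), 0 ≤ (1 + x)⁻¹ ^ (k + 2) := fun x hx => by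
    have : (0 : ℝ) < x := hx
    positivity
  refine ⟨integrableOn_Ioi_deriv_of_nonneg' hd hn ht, ?_⟩
  rw [integral_Ioi_of_hasDerivAt_of_nonneg' hd hn ht]
  simp

/-- the coefficients of one minus gt -/
def c2_co : Fin 7 → ℝ :=
  ![3 / 134, -(10873 / 3350), 83979 / 3350, -(200499 / 3350), 121134 / 1675, -(14904 / 335),
    3744 / 335]

theorem c2_sq (x : ℝ) : (1 - gt x) ^ 2 =
    ∑ j : Fin 7, ∑ k : Fin 7, c2_co j * c2_co k * (1 + x)⁻¹ ^ ((j : ℕ) + (k : ℕ) + 2) := by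
  have : 1 - gt x = ∑ j : Fin 7, c2_co j * (1 + x)⁻¹ ^ ((j : ℕ) + 1) := by
    unfold gt
    generalize (1 + x)⁻¹ = u
    simp [Fin.sum_univ_succ, c2_co]
    ring
  rw [this, sq, Finset.sum_mul_sum]
  exact Finset.sum_congr rfl fun j _ => Finset.sum_congr rfl fun k _ => by ring

/-- Hint: (1 - gt x)^2 = ∑ e_k (1+x)⁻¹^k, k = 2..14, and ∫ x in Ioi 0, (1+x)⁻¹^(k+2) = 1/(k+1)
(integral_Ioi_of_hasDerivAt_of_tendsto or integral_Ioi_rpow_of_lt after a shift). -/
theorem integral_one_sub_gt :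
    IntegrableOn (fun x : ℝ => (1 - gt x) ^ 2) (Set.Ioi 0) ∧
      ∫ x in Set.Ioi (0 : ℝ), (1 - gt x) ^ 2 = 117916079 / 370342500 := by
  have a : ∀ j k : Fin 7, Integrable (fun x : ℝ => c2_co j * c2_co k *
      (1 + x)⁻¹ ^ ((j : ℕ) + (k : ℕ) + 2)) (volume.restrict (Set.Ioi 0)) := fun j k =>
    (c2_pow _).1.const_mul _
  simp only [c2_sq]
  refine ⟨integrable_finsetSum _ fun j _ => integrable_finsetSum _ fun k _ => a j k, ?_⟩
  rw [integral_finsetSum _ fun j _ => integrable_finsetSum _ fun k _ => a j k]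
  simp only [integral_finsetSum _ fun k _ => a _ k, integral_const_mul, (c2_pow _).2]
  simp [Fin.sum_univ_succ, c2_co]
  norm_num

/-- Hint: translate, reflect (integral_comp_abs; integrability on Iic 0 by reflection), scale
(integral_comp_div or integral_comp_mul_left_Ioi); 2 * 117916079 / 370342500 ≤ 637/1000. -/
theorem integral_one_sub_gt_abs (a : ℝ) {ε : ℝ} (hε : 0 < ε) :
    Integrable (fun t : ℝ => (1 - gt (|a - t| / ε)) ^ 2) ∧
      ∫ t : ℝ, (1 - gt (|a - t| / ε)) ^ 2 ≤ 637 / 1000 * ε := by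
  obtain ⟨i0, e0⟩ := integral_one_sub_gt
  let F : ℝ → ℝ := fun x => (1 - gt |x|) ^ 2
  have i1 : IntegrableOn F (Set.Ioi 0) :=
    i0.congr_fun (fun x hx => by simp only [F, abs_of_pos (show 0 < x from hx)]) measurableSet_Ioi
  have i2 : IntegrableOn F (Set.Iic 0) := by
    rw [← Measure.map_neg_eq_self (volume : Measure ℝ)]
    let m : MeasurableEmbedding fun x : ℝ => -x := (Homeomorph.neg ℝ).measurableEmbedding
    rw [m.integrableOn_map_iff]
    simp_rw [Function.comp_def, F, abs_neg, Set.neg_preimage, Set.neg_Iic, neg_zero]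
    exact Iff.mpr integrableOn_Ici_iff_integrableOn_Ioi i1
  have i3 : Integrable F := by
    rw [← integrableOn_univ, ← Set.Iic_union_Ioi (a := (0 : ℝ))]
    exact i2.union i1
  have e3 : ∫ x, F x = 2 * (117916079 / 370342500) := by
    rw [← e0]
    exact integral_comp_abs (f := fun x => (1 - gt x) ^ 2)
  have e : ∀ t : ℝ, (1 - gt (|a - t| / ε)) ^ 2 = F ((a - t) / ε) := fun t => by
    simp only [F, abs_div, abs_of_pos hε]
  simp only [e]
  refine ⟨(i3.comp_div hε.ne').comp_sub_left a, ?_⟩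
  rw [integral_sub_left_eq_self (fun t => F (t / ε)) volume a, Measure.integral_comp_div, e3,
    abs_of_pos hε, smul_eq_mul]
  linarith

end Pool.Agent.P.MP_9f4f5e_mp.LT
end
end

-- part Pool.Agent.P.MP_9f4f5e_mp.LT.C1
section

set_option autoImplicit false
set_option linter.unusedSectionVars false

open MeasureTheory Matrix
open scoped ENNReal ComplexOrder ComplexConjugate RealInnerProductSpace FourierTransform

noncomputable section

namespace Pool.Agent.P.MP_9f4f5e_mp.LT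

/-- basic integral. Hint: Real.integral_rpow_mul_exp_neg_mul_Ioi or
integral_pow_mul_exp / Real.Gamma_nat_eq_factorial; integrableOn_rpow_mul_exp_neg_mul_rpow. -/
theorem integral_pow_exp (k : ℕ) {c : ℝ} (hc : 0 < c) :
    IntegrableOn (fun s : ℝ => s ^ k * Real.exp (-(c * s))) (Set.Ioi 0) ∧
      ∫ s in Set.Ioi (0 : ℝ), s ^ k * Real.exp (-(c * s)) = k.factorial / c ^ (k + 1) := by
  have hk : (0 : ℝ) ≤ k := Nat.cast_nonneg k
  constructor
  · have h := integrableOn_rpow_mul_exp_neg_mul_rpow (s := (k : ℝ)) (p := 1) (b := c)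
      (by linarith) one_pos hc
    simpa only [Real.rpow_natCast, Real.rpow_one, neg_mul] using h
  · have h := Real.integral_rpow_mul_exp_neg_mul_Ioi (a := (k : ℝ) + 1) (r := c) (by linarith) hc
    simp only [add_sub_cancel_right, Real.rpow_natCast, Real.Gamma_nat_eq_factorial] at h
    rw [h, ← Nat.cast_succ, Real.rpow_natCast, one_div, inv_pow, div_eq_inv_mul]

theorem c1_poly (e : ℕ → ℝ) (n : ℕ) {c : ℝ} (hc : 0 < c) :
    IntegrableOn (fun s : ℝ => (∑ k ∈ Finset.range n, e k * s ^ k) * Real.exp (-(c * s)))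
      (Set.Ioi 0) ∧
    ∫ s in Set.Ioi (0 : ℝ), (∑ k ∈ Finset.range n, e k * s ^ k) * Real.exp (-(c * s)) =
      ∑ k ∈ Finset.range n, e k * (k.factorial / c ^ (k + 1)) := by
  have h : (fun s : ℝ => (∑ k ∈ Finset.range n, e k * s ^ k) * Real.exp (-(c * s))) =
      fun s : ℝ => ∑ k ∈ Finset.range n, e k * (s ^ k * Real.exp (-(c * s))) := by
    funext s
    rw [Finset.sum_mul]
    exact Finset.sum_congr rfl fun k _ => mul_assoc _ _ _
  have hi : ∀ k ∈ Finset.range n, Integrable (fun s : ℝ => e k * (s ^ k * Real.exp (-(c * s))))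
      (volume.restrict (Set.Ioi 0)) := fun k _ => (integral_pow_exp k hc).1.const_mul _
  rw [h]
  refine ⟨integrable_finsetSum _ hi, ?_⟩
  rw [integral_finsetSum _ hi]
  exact Finset.sum_congr rfl fun k _ => by rw [integral_const_mul, (integral_pow_exp k hc).2]

theorem c1_two (p0 p1 p2 p3 q0 q1 q2 q3 : ℝ) {a b x y w : ℝ} (hc : 0 < a + b)
    (hw : w = (a + b)⁻¹) (hx : x = a * w) (hy : y = b * w) {f : ℝ → ℝ}
    (hf : ∀ s, f s = (p0 + p1 * (a * s) + p2 * (a * s) ^ 2 + p3 * (a * s) ^ 3) * Real.exp (-(a * s)) *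
      ((q0 + q1 * (b * s) + q2 * (b * s) ^ 2 + q3 * (b * s) ^ 3) * Real.exp (-(b * s)))) :
    IntegrableOn f (Set.Ioi 0) ∧ ∫ s in Set.Ioi (0 : ℝ), f s =
      w * (p0 * x ^ 0 * (1 * q0 * y ^ 0 + 1 * q1 * y ^ 1 + 2 * q2 * y ^ 2 + 6 * q3 * y ^ 3) +
        p1 * x ^ 1 * (1 * q0 * y ^ 0 + 2 * q1 * y ^ 1 + 6 * q2 * y ^ 2 + 24 * q3 * y ^ 3) +
        p2 * x ^ 2 * (2 * q0 * y ^ 0 + 6 * q1 * y ^ 1 + 24 * q2 * y ^ 2 + 120 * q3 * y ^ 3) +
        p3 * x ^ 3 * (6 * q0 * y ^ 0 + 24 * q1 * y ^ 1 + 120 * q2 * y ^ 2 + 720 * q3 * y ^ 3)) := by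
  obtain ⟨h1, h2⟩ := c1_poly (fun m => [p0 * q0 * (a ^ 0 * b ^ 0),
    p0 * q1 * (a ^ 0 * b ^ 1) + p1 * q0 * (a ^ 1 * b ^ 0),
    p0 * q2 * (a ^ 0 * b ^ 2) + p1 * q1 * (a ^ 1 * b ^ 1) + p2 * q0 * (a ^ 2 * b ^ 0),
    p0 * q3 * (a ^ 0 * b ^ 3) + p1 * q2 * (a ^ 1 * b ^ 2) + p2 * q1 * (a ^ 2 * b ^ 1) + p3 * q0 * (a ^ 3 * b ^ 0),
    p1 * q3 * (a ^ 1 * b ^ 3) + p2 * q2 * (a ^ 2 * b ^ 2) + p3 * q1 * (a ^ 3 * b ^ 1),
    p2 * q3 * (a ^ 2 * b ^ 3) + p3 * q2 * (a ^ 3 * b ^ 2),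
    p3 * q3 * (a ^ 3 * b ^ 3)].getD m 0) 7 hc
  have e : f = fun s : ℝ => (∑ m ∈ Finset.range 7, [p0 * q0 * (a ^ 0 * b ^ 0),
    p0 * q1 * (a ^ 0 * b ^ 1) + p1 * q0 * (a ^ 1 * b ^ 0),
    p0 * q2 * (a ^ 0 * b ^ 2) + p1 * q1 * (a ^ 1 * b ^ 1) + p2 * q0 * (a ^ 2 * b ^ 0),
    p0 * q3 * (a ^ 0 * b ^ 3) + p1 * q2 * (a ^ 1 * b ^ 2) + p2 * q1 * (a ^ 2 * b ^ 1) + p3 * q0 * (a ^ 3 * b ^ 0),
    p1 * q3 * (a ^ 1 * b ^ 3) + p2 * q2 * (a ^ 2 * b ^ 2) + p3 * q1 * (a ^ 3 * b ^ 1),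
    p2 * q3 * (a ^ 2 * b ^ 3) + p3 * q2 * (a ^ 3 * b ^ 2),
    p3 * q3 * (a ^ 3 * b ^ 3)].getD m 0 * s ^ m) *
      Real.exp (-((a + b) * s)) := by
    funext s
    have h3 : Real.exp (-((a + b) * s)) = Real.exp (-(a * s)) * Real.exp (-(b * s)) := by
      rw [← Real.exp_add]
      congr 1
      ring
    rw [hf, h3]
    simp only [Finset.sum_range_succ, Finset.sum_range_zero, List.getD_cons_zero,
      List.getD_cons_succ]
    ring
  rw [e]
  refine ⟨h1, h2.trans ?_⟩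
  simp only [Finset.sum_range_succ, Finset.sum_range_zero, List.getD_cons_zero,
    List.getD_cons_succ, div_eq_mul_inv, ← inv_pow, ← hw, Nat.factorial, Nat.succ_eq_add_one]
  rw [hx, hy]
  push_cast
  ring

/-- Hint: prove once a lemma for a polynomial of degree 6 with coefficients c0..c6 times
exp (-(c s)) and use it three times. -/
theorem integral_ph_sq {ε : ℝ} (hε : 0 < ε) :
    IntegrableOn (fun s : ℝ => ph (s / ε) ^ 2) (Set.Ioi 0) ∧
      ∫ s in Set.Ioi (0 : ℝ), ph (s / ε) ^ 2 = 14237 / 17956 * ε := by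
  have hi : 0 < ε⁻¹ := inv_pos.2 hε
  obtain ⟨h1, h2⟩ := c1_two (100 / 67) (-57 / 67) (36 / 67) (-8 / 67) (100 / 67) (-57 / 67)
    (36 / 67) (-8 / 67) (a := ε⁻¹) (b := ε⁻¹) (x := 1 / 2) (y := 1 / 2) (w := ε / 2)
    (by linarith) (by field_simp; norm_num) (by field_simp) (by field_simp)
    (f := fun s : ℝ => ph (s / ε) ^ 2) fun s => by
      rw [ph, div_eq_inv_mul s ε]
      ring
  refine ⟨h1, h2.trans ?_⟩
  ring

theorem integral_ff_sq {d : ℝ} (hd : 0 < d) :
    IntegrableOn (fun s : ℝ => ff (s / d) ^ 2) (Set.Ioi 0) ∧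
      ∫ s in Set.Ioi (0 : ℝ), ff (s / d) ^ 2 = 62509 / 80000 * d := by
  have hi : 0 < d⁻¹ := inv_pos.2 hd
  obtain ⟨h1, h2⟩ := c1_two 1 (85 / 100) (-57 / 100) (13 / 100) 1 (85 / 100) (-57 / 100)
    (13 / 100) (a := d⁻¹) (b := d⁻¹) (x := 1 / 2) (y := 1 / 2) (w := d / 2)
    (by linarith) (by field_simp; norm_num) (by field_simp) (by field_simp)
    (f := fun s : ℝ => ff (s / d) ^ 2) fun s => by
      rw [ff, div_eq_inv_mul s d]
      ring
  refine ⟨h1, h2.trans ?_⟩
  ring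

/-- Hint: c = 1/ε + 1/d; the final identity is field_simp; ring (checked with exact arithmetic:
the value is ε ∑ p_k q_l (k+l)! y^(k+1) (1-y)^l, y = d/(d+ε)). -/
theorem integral_ph_ff {ε d : ℝ} (hε : 0 < ε) (hd : 0 < d) :
    IntegrableOn (fun s : ℝ => ph (s / ε) * ff (s / d)) (Set.Ioi 0) ∧
      ∫ s in Set.Ioi (0 : ℝ), ph (s / ε) * ff (s / d) = ε * gt (d / ε) := by
  have hi : 0 < ε⁻¹ := inv_pos.2 hε
  have hj : 0 < d⁻¹ := inv_pos.2 hd
  have hs : 0 < ε + d := by linarith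
  obtain ⟨h1, h2⟩ := c1_two (100 / 67) (-57 / 67) (36 / 67) (-8 / 67) 1 (85 / 100) (-57 / 100)
    (13 / 100) (a := ε⁻¹) (b := d⁻¹) (x := 1 - (1 + d / ε)⁻¹) (y := (1 + d / ε)⁻¹)
    (w := ε * (1 - (1 + d / ε)⁻¹))
    (by linarith) (by field_simp; ring) (by field_simp) (by field_simp; ring)
    (f := fun s : ℝ => ph (s / ε) * ff (s / d)) fun s => by
      rw [ph, ff, div_eq_inv_mul s ε, div_eq_inv_mul s d]
      ring
  refine ⟨h1, h2.trans ?_⟩
  rw [gt]
  generalize (1 + d / ε)⁻¹ = u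
  ring

end Pool.Agent.P.MP_9f4f5e_mp.LT
end
end

-- part Pool.Agent.P.MP_9f4f5e_mp.LT.C3
section

set_option autoImplicit false
set_option linter.unusedSectionVars false

open MeasureTheory Matrix
open scoped ENNReal ComplexOrder ComplexConjugate RealInnerProductSpace FourierTransform

noncomputable section

namespace Pool.Agent.P.MP_9f4f5e_mp.LT

variable {ι : Type} [Fintype ι] [DecidableEq ι]

theorem c3_cs {μ : Measure ℝ} {f g : ℝ → ℝ} (hf : MemLp f 2 μ) (hg : MemLp g 2 μ)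
    (hA : 0 < ∫ s, f s ^ 2 ∂μ) :
    (∫ s, f s * g s ∂μ) ^ 2 ≤ (∫ s, f s ^ 2 ∂μ) * ∫ s, g s ^ 2 ∂μ := by
  have h1 : Integrable (fun s => f s ^ 2) μ := hf.integrable_sq
  have h2 : Integrable (fun s => g s ^ 2) μ := hg.integrable_sq
  have h3 : Integrable (fun s => f s * g s) μ := hf.integrable_mul hg
  have key : ∀ a b : ℝ, 0 ≤ a ^ 2 * (∫ s, g s ^ 2 ∂μ) - 2 * a * b * (∫ s, f s * g s ∂μ) +
      b ^ 2 * ∫ s, f s ^ 2 ∂μ := by
    intro a b
    have h4 : Integrable (fun s => a ^ 2 * g s ^ 2 - 2 * a * b * (f s * g s)) μ :=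
      (h2.const_mul _).sub (h3.const_mul _)
    rw [← integral_const_mul, ← integral_const_mul, ← integral_const_mul,
      ← integral_sub (h2.const_mul _) (h3.const_mul _), ← integral_add h4 (h1.const_mul _)]
    refine integral_nonneg fun s => ?_
    have h5 : a ^ 2 * g s ^ 2 - 2 * a * b * (f s * g s) + b ^ 2 * f s ^ 2 =
        (a * g s - b * f s) ^ 2 := by ring
    simp only [Pi.zero_apply, h5]
    positivity
  have h6 := key (∫ s, f s ^ 2 ∂μ) (∫ s, f s * g s ∂μ)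
  generalize (∫ s, f s ^ 2 ∂μ) = A at hA h6
  generalize (∫ s, f s * g s ∂μ) = I at h6
  generalize (∫ s, g s ^ 2 ∂μ) = B at h6
  have h7 : A ^ 2 * B - 2 * A * I * I + I ^ 2 * A = A * (A * B - I ^ 2) := by ring
  rw [h7] at h6
  exact sub_nonneg.1 (nonneg_of_mul_nonneg_right h6 hA)

theorem c3_ff_cont (d : ℝ) : Continuous fun s : ℝ => ff (s / d) := by
  unfold ff
  fun_prop

theorem c3_ph_cont (d : ℝ) : Continuous fun s : ℝ => ph (s / d) := by
  unfold ph
  fun_prop

theorem c3_ff_mem {d : ℝ} (hd : 0 < d) :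
    MemLp (fun s : ℝ => ff (s / d)) 2 (volume.restrict (Set.Ioi 0)) :=
  (memLp_two_iff_integrable_sq (c3_ff_cont d).aestronglyMeasurable).2 (integral_ff_sq hd).1

theorem c3_ph_mem {d : ℝ} (hd : 0 < d) :
    MemLp (fun s : ℝ => ph (s / d)) 2 (volume.restrict (Set.Ioi 0)) :=
  (memLp_two_iff_integrable_sq (c3_ph_cont d).aestronglyMeasurable).2 (integral_ph_sq hd).1

/-- Cauchy-Schwarz in the energy variable. Hint: with F s = ∑ i, c i * ff (s / d i),
ε * ∑ i, c i * gt (d i / ε) = ∫ s in Ioi 0, ph (s / ε) * F s (integral_ph_ff); the norm of it is at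
most ∫ |ph (s/ε)| * ‖F s‖; use integral_mul_le_Lp_mul_Lq_of_nonneg, or for all r > 0
2 |x| |y| ≤ r x^2 + y^2 / r and a discriminant argument; integral_ph_sq. -/
theorem kernel_cs (d : ι → ℝ) (hd : ∀ i, 0 < d i) (c : ι → ℂ) {ε : ℝ} (hε : 0 < ε) :
    IntegrableOn (fun s : ℝ => ‖∑ i, c i * (ff (s / d i) : ℂ)‖ ^ 2) (Set.Ioi 0) ∧
      ε * ‖∑ i, c i * (gt (d i / ε) : ℂ)‖ ^ 2
        ≤ 14237 / 17956 * ∫ s in Set.Ioi (0 : ℝ), ‖∑ i, c i * (ff (s / d i) : ℂ)‖ ^ 2 := by
  have hF : MemLp (fun s : ℝ => ∑ i, c i * (ff (s / d i) : ℂ)) 2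
      (volume.restrict (Set.Ioi 0)) :=
    memLp_finsetSum _ fun i _ => ((c3_ff_mem (hd i)).ofReal (K := ℂ)).const_mul (c i)
  refine ⟨hF.norm.integrable_sq, ?_⟩
  have h1 : (ε : ℂ) * ∑ i, c i * (gt (d i / ε) : ℂ) =
      ∫ s in Set.Ioi (0 : ℝ), (ph (s / ε) : ℂ) * ∑ i, c i * (ff (s / d i) : ℂ) := by
    have h2 : ∀ s : ℝ, (ph (s / ε) : ℂ) * ∑ i, c i * (ff (s / d i) : ℂ) =
        ∑ i, c i * ((ph (s / ε) * ff (s / d i) : ℝ) : ℂ) := by
      intro s
      rw [Finset.mul_sum]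
      refine Finset.sum_congr rfl fun i _ => ?_
      push_cast
      ring
    simp only [h2]
    have h8 : ∀ i, Integrable (fun s : ℝ => c i * ((ph (s / ε) * ff (s / d i) : ℝ) : ℂ))
        (volume.restrict (Set.Ioi 0)) := fun i =>
      ((integral_ph_ff hε (hd i)).1.ofReal (𝕜 := ℂ)).const_mul _
    rw [integral_finsetSum _ fun i _ => h8 i, Finset.mul_sum]
    refine Finset.sum_congr rfl fun i _ => ?_
    rw [integral_const_mul, integral_complex_ofReal, (integral_ph_ff hε (hd i)).2]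
    push_cast
    ring
  have h3 : ε * ‖∑ i, c i * (gt (d i / ε) : ℂ)‖ ≤
      ∫ s in Set.Ioi (0 : ℝ), ‖ph (s / ε)‖ * ‖∑ i, c i * (ff (s / d i) : ℂ)‖ := by
    have h4 := norm_integral_le_integral_norm (μ := volume.restrict (Set.Ioi (0 : ℝ)))
      fun s : ℝ => (ph (s / ε) : ℂ) * ∑ i, c i * (ff (s / d i) : ℂ)
    rw [← h1, norm_mul, Complex.norm_real, Real.norm_of_nonneg hε.le] at h4
    simpa only [norm_mul, Complex.norm_real] using h4
  have h5 : ∫ s in Set.Ioi (0 : ℝ), ‖ph (s / ε)‖ ^ 2 = 14237 / 17956 * ε := by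
    simp only [Real.norm_eq_abs, sq_abs]
    exact (integral_ph_sq hε).2
  have h6 := c3_cs (c3_ph_mem hε).norm hF.norm (by rw [h5]; positivity)
  rw [h5] at h6
  have h7 := (pow_le_pow_left₀ (by positivity) h3 2).trans h6
  refine le_of_mul_le_mul_left ?_ hε
  calc ε * (ε * ‖∑ i, c i * (gt (d i / ε) : ℂ)‖ ^ 2)
      = (ε * ‖∑ i, c i * (gt (d i / ε) : ℂ)‖) ^ 2 := by ring
    _ ≤ _ := h7
    _ = _ := by ring

/-- Sum over an orthonormal basis. Hint: kernel_cs with c i = conj (u i) * U i j (terms with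
ε j = 0 vanish), integral_finset_sum, Spec.parseval applied to i ↦ u i * ff (s / d i) (take
conjugates), integral_ff_sq, 14237/17956 * (62509/80000) ≤ 31/50. -/
theorem kernel_sum {W U : Matrix ι ι ℂ} {l : ι → ℝ} (h : Spec W U l) (d : ι → ℝ)
    (hd : ∀ i, 0 < d i) (ε : ι → ℝ) (hε : ∀ j, 0 ≤ ε j) (u : ι → ℂ) :
    ∑ j, ε j * ‖∑ i, conj (u i) * U i j * (gt (d i / ε j) : ℂ)‖ ^ 2
      ≤ 31 / 50 * ∑ i, d i * ‖u i‖ ^ 2 := by
  have h1 : ∀ j, ε j * ‖∑ i, conj (u i) * U i j * (gt (d i / ε j) : ℂ)‖ ^ 2 ≤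
      14237 / 17956 * ∫ s in Set.Ioi (0 : ℝ),
        ‖∑ i, conj (u i) * U i j * (ff (s / d i) : ℂ)‖ ^ 2 := by
    intro j
    rcases (hε j).eq_or_lt with h0 | h0
    · rw [← h0, zero_mul]
      exact mul_nonneg (by norm_num) (integral_nonneg fun s => by positivity)
    · exact (kernel_cs d hd (fun i => conj (u i) * U i j) h0).2
  have h2 : ∀ s : ℝ, ∑ j, ‖∑ i, conj (u i) * U i j * (ff (s / d i) : ℂ)‖ ^ 2 =
      ∑ i, ‖u i‖ ^ 2 * ff (s / d i) ^ 2 := by
    intro s
    have h3 := h.parseval fun i => u i * (ff (s / d i) : ℂ)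
    have h4 : ∀ j, ‖∑ i, conj (u i) * U i j * (ff (s / d i) : ℂ)‖ =
        ‖(Uᴴ *ᵥ fun i => u i * (ff (s / d i) : ℂ)) j‖ := by
      intro j
      rw [← Complex.norm_conj, map_sum]
      congr 1
      simp only [Matrix.mulVec, dotProduct, Matrix.conjTranspose_apply, Complex.star_def, map_mul,
        Complex.conj_conj, Complex.conj_ofReal]
      exact Finset.sum_congr rfl fun i _ => by ring
    simp only [h4, h3]
    refine Finset.sum_congr rfl fun i _ => ?_
    rw [norm_mul, mul_pow, Complex.norm_real, Real.norm_eq_abs, sq_abs]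
  refine (Finset.sum_le_sum fun j _ => h1 j).trans ?_
  rw [← Finset.mul_sum, ← integral_finsetSum _ fun j _ =>
    (kernel_cs d hd (fun i => conj (u i) * U i j) one_pos).1]
  simp only [h2]
  rw [integral_finsetSum _ fun i _ => (integral_ff_sq (hd i)).1.const_mul _, Finset.mul_sum,
    Finset.mul_sum]
  refine Finset.sum_le_sum fun i _ => ?_
  rw [integral_const_mul, (integral_ff_sq (hd i)).2]
  have h5 : 0 ≤ d i * ‖u i‖ ^ 2 := mul_nonneg (hd i).le (sq_nonneg _)
  linarith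

end Pool.Agent.P.MP_9f4f5e_mp.LT
end
end

-- part Pool.Agent.P.MP_9f4f5e_mp.LT.C4
section

set_option autoImplicit false
set_option linter.unusedSectionVars false

open MeasureTheory Matrix
open scoped ENNReal ComplexOrder ComplexConjugate RealInnerProductSpace FourierTransform

noncomputable section

namespace Pool.Agent.P.MP_9f4f5e_mp.LT

variable {ι : Type} [Fintype ι] [DecidableEq ι]

theorem c4_norm (B : Matrix ι ι ℂ) (u : ι → ℂ) (j : ι) :
    ‖(Bᴴ *ᵥ u) j‖ = ‖∑ i, conj (u i) * B i j‖ := by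
  rw [← Complex.norm_conj]
  congr 1
  simp only [Matrix.mulVec, dotProduct, Matrix.conjTranspose_apply, Complex.star_def, map_sum,
    map_mul, Complex.conj_conj]
  exact Finset.sum_congr rfl fun i _ => mul_comm _ _

theorem c4_par (x y : ℂ) : ‖x + y‖ ^ 2 ≤ 2 * ‖x‖ ^ 2 + 2 * ‖y‖ ^ 2 := by
  have h1 := norm_add_le x y
  have h2 := norm_nonneg (x + y)
  nlinarith [sq_nonneg (‖x‖ - ‖y‖), norm_nonneg x, norm_nonneg y]

/-- Pointwise Rumin bound. Hint: w j = max (l j) 0, ε j = 31/25 * w j,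
B = Matrix.of fun i j => U i j * (1 - gt (d i / ε j)), Z = B * dg (2 w) * Bᴴ (Spec.conj_posSemidef,
Spec.qf_conj, Spec.conj_apply hold for any matrix B). For every u:
qf W u ≤ ∑ w j ‖x j + y j‖^2 ≤ ∑ 2 w j (‖x j‖^2 + ‖y j‖^2), the x part is at most qf (dg d) u by
kernel_sum, the y part is qf Z u. Then posSemidef_of_qf and tp_one_le_trace. -/
theorem rumin_pointwise {W U : Matrix ι ι ℂ} {l : ι → ℝ} (h : Spec W U l) (d : ι → ℝ)
    (hd : ∀ i, 0 < d i) :
    tp 1 (W - dg d) ≤ ∑ j, 2 * max (l j) 0 *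
      ∑ i, ‖U i j‖ ^ 2 * (1 - gt (d i / (31 / 25 * max (l j) 0))) ^ 2 := by
  set w : ι → ℝ := fun j => max (l j) 0 with hw
  have hw0 : ∀ j, 0 ≤ w j := fun j => le_max_right _ _
  set ε : ι → ℝ := fun j => 31 / 25 * w j with hε
  have hε0 : ∀ j, 0 ≤ ε j := fun j => mul_nonneg (by norm_num) (hw0 j)
  set B : Matrix ι ι ℂ := Matrix.of fun i j => U i j * ((1 - gt (d i / ε j) : ℝ) : ℂ) with hB
  set Z : Matrix ι ι ℂ := B * dg (fun j => 2 * w j) * Bᴴ with hZ
  have hZp : Z.PosSemidef := Spec.conj_posSemidef B fun j => mul_nonneg (by norm_num) (hw0 j)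
  have hM : (W - dg d).IsHermitian := h.isHermitian.sub (dg_isHermitian d)
  have key : (Z - (W - dg d)).PosSemidef := by
    refine posSemidef_of_qf (hZp.isHermitian.sub hM) fun u => ?_
    rw [qf_sub, qf_sub, qf_dg, hZ, Spec.qf_conj]
    have e1 : qf W u = ∑ j, l j * ‖(Uᴴ *ᵥ u) j‖ ^ 2 := by
      conv_lhs => rw [h.eq]
      exact Spec.qf_conj U l u
    have k := kernel_sum h d hd ε hε0 u
    have e2 : ∑ j, l j * ‖(Uᴴ *ᵥ u) j‖ ^ 2 ≤
        ∑ j, (50 / 31 * (ε j * ‖∑ i, conj (u i) * U i j * (gt (d i / ε j) : ℂ)‖ ^ 2) +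
          2 * w j * ‖(Bᴴ *ᵥ u) j‖ ^ 2) := by
      refine Finset.sum_le_sum fun j _ => ?_
      rw [c4_norm, c4_norm]
      have e3 : ∑ i, conj (u i) * U i j =
          ∑ i, conj (u i) * U i j * (gt (d i / ε j) : ℂ) + ∑ i, conj (u i) * B i j := by
        rw [← Finset.sum_add_distrib]
        refine Finset.sum_congr rfl fun i _ => ?_
        simp only [hB, Matrix.of_apply]
        push_cast
        ring
      have e4 := c4_par (∑ i, conj (u i) * U i j * (gt (d i / ε j) : ℂ))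
        (∑ i, conj (u i) * B i j)
      rw [← e3] at e4
      have e5 : l j * ‖∑ i, conj (u i) * U i j‖ ^ 2 ≤ w j * ‖∑ i, conj (u i) * U i j‖ ^ 2 :=
        mul_le_mul_of_nonneg_right (le_max_left _ _) (sq_nonneg _)
      have e6 := mul_le_mul_of_nonneg_left e4 (hw0 j)
      have e7 : ε j = 31 / 25 * w j := rfl
      generalize ‖∑ i, conj (u i) * U i j * (gt (d i / ε j) : ℂ)‖ ^ 2 = X at e6 ⊢
      rw [e7]
      linarith
    rw [Finset.sum_add_distrib, ← Finset.mul_sum] at e2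
    rw [e1]
    linarith
  refine (tp_one_le_trace hM hZp key).trans (le_of_eq ?_)
  rw [Matrix.trace, Complex.re_sum]
  have e8 : ∀ n, (Z.diag n).re = ∑ j, ‖B n j‖ ^ 2 * (2 * w j) := fun n => by
    rw [Matrix.diag_apply, hZ, Spec.conj_apply, Complex.ofReal_re]
  rw [Finset.sum_congr rfl fun n _ => e8 n, Finset.sum_comm]
  refine Finset.sum_congr rfl fun j _ => ?_
  rw [Finset.mul_sum]
  refine Finset.sum_congr rfl fun i _ => ?_
  simp only [hB, Matrix.of_apply, norm_mul, Complex.norm_real, Real.norm_eq_abs, mul_pow, sq_abs]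
  ring

end Pool.Agent.P.MP_9f4f5e_mp.LT
end
end

-- part Pool.Agent.P.MP_9f4f5e_mp.LT.C5
section

set_option autoImplicit false
set_option linter.unusedSectionVars false

open MeasureTheory Matrix
open scoped ENNReal ComplexOrder ComplexConjugate RealInnerProductSpace FourierTransform

noncomputable section

namespace Pool.Agent.P.MP_9f4f5e_mp.LT

variable {ι : Type} [Fintype ι] [DecidableEq ι]

theorem c5_term (a c : ι → ℝ) (hc : ∀ i, 0 ≤ c i) (hs : ∑ i, c i = 1) {w : ℝ} (hw : 0 ≤ w) :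
    Integrable (fun t : ℝ => 2 * w * ∑ i, c i * (1 - gt (|a i - t| / (31 / 25 * w))) ^ 2) ∧
      ∫ t : ℝ, 2 * w * ∑ i, c i * (1 - gt (|a i - t| / (31 / 25 * w))) ^ 2 ≤ 79 / 50 * w ^ 2 := by
  rcases hw.eq_or_lt with rfl | hw'
  · simp
  have hε : 0 < 31 / 25 * w := by positivity
  have h1 : ∀ i, Integrable (fun t : ℝ => c i * (1 - gt (|a i - t| / (31 / 25 * w))) ^ 2) :=
    fun i => (integral_one_sub_gt_abs (a i) hε).1.const_mul _
  refine ⟨(integrable_finsetSum _ fun i _ => h1 i).const_mul _, ?_⟩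
  rw [integral_const_mul, integral_finsetSum _ fun i _ => h1 i]
  have h2 : ∑ i, ∫ t : ℝ, c i * (1 - gt (|a i - t| / (31 / 25 * w))) ^ 2
      ≤ ∑ i, c i * (637 / 1000 * (31 / 25 * w)) := by
    refine Finset.sum_le_sum fun i _ => ?_
    rw [integral_const_mul]
    exact mul_le_mul_of_nonneg_left (integral_one_sub_gt_abs (a i) hε).2 (hc i)
  rw [← Finset.sum_mul, hs, one_mul] at h2
  have h3 := mul_le_mul_of_nonneg_left h2 (by positivity : 0 ≤ 2 * w)
  nlinarith [sq_nonneg w]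

/-- Hint: for a.e. t all |a i - t| are positive (finite set is null); rumin_pointwise; the bound
is integrable in t (terms with max (l j) 0 = 0 vanish identically; else integral_one_sub_gt_abs),
Spec.col_sum, 2 * (31/25) * (637/1000) ≤ 79/50, Spec.tp_eq. -/
theorem lt_one {W : Matrix ι ι ℂ} (hW : W.IsHermitian) (a : ι → ℝ) :
    ∫⁻ t : ℝ, ENNReal.ofReal (tp 1 (W - dg fun i => |a i - t|))
      ≤ ENNReal.ofReal (79 / 50 * tp 2 W) := by
  obtain ⟨U, l, h⟩ := exists_spec hW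
  have h1 := fun j => c5_term a (fun i => ‖U i j‖ ^ 2) (fun i => sq_nonneg _) (h.col_sum j)
    (le_max_right (l j) 0)
  have h2 : ∀ᵐ t : ℝ, t ∉ Set.range a := (Set.finite_range a).countable.ae_notMem _
  have h3 := integrable_finsetSum Finset.univ fun j _ => (h1 j).1
  calc ∫⁻ t : ℝ, ENNReal.ofReal (tp 1 (W - dg fun i => |a i - t|))
      ≤ ∫⁻ t : ℝ, ENNReal.ofReal (∑ j, 2 * max (l j) 0 *
          ∑ i, ‖U i j‖ ^ 2 * (1 - gt (|a i - t| / (31 / 25 * max (l j) 0))) ^ 2) := by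
        refine lintegral_mono_ae (h2.mono fun t ht => ENNReal.ofReal_le_ofReal ?_)
        exact rumin_pointwise h _ fun i => abs_pos.2 (sub_ne_zero.2 fun e => ht ⟨i, e⟩)
    _ = ENNReal.ofReal (∫ t : ℝ, ∑ j, 2 * max (l j) 0 *
          ∑ i, ‖U i j‖ ^ 2 * (1 - gt (|a i - t| / (31 / 25 * max (l j) 0))) ^ 2) := by
        refine (ofReal_integral_eq_lintegral_ofReal h3 (Filter.Eventually.of_forall fun t => ?_)).symm
        refine Finset.sum_nonneg fun j _ => mul_nonneg (by positivity) ?_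
        exact Finset.sum_nonneg fun i _ => by positivity
    _ ≤ ENNReal.ofReal (79 / 50 * tp 2 W) := by
        refine ENNReal.ofReal_le_ofReal ?_
        rw [integral_finsetSum _ fun j _ => (h1 j).1, h.tp_eq, Finset.mul_sum]
        exact Finset.sum_le_sum fun j _ => (h1 j).2

end Pool.Agent.P.MP_9f4f5e_mp.LT
end
end

-- part Pool.Agent.P.MP_9f4f5e_mp.LT.D1
section

set_option autoImplicit false
set_option linter.unusedSectionVars false

open MeasureTheory Matrix
open scoped ENNReal ComplexOrder ComplexConjugate RealInnerProductSpace FourierTransform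

noncomputable section

namespace Pool.Agent.P.MP_9f4f5e_mp.LT

variable {ι : Type} [Fintype ι] [DecidableEq ι]

/-- iterated integral. Hint: PiLp.volume_preserving_toLp, then Fin 3 → ℝ to ℝ × ℝ × ℝ
(volume_preserving_piFinSuccAbove, volume_preserving_finTwoArrow), lintegral_prod. -/
theorem lintegral_E3 {G : ℝ → ℝ → ℝ → ℝ≥0∞}
    (hG : Measurable fun p : ℝ × ℝ × ℝ => G p.1 p.2.1 p.2.2) :
    ∫⁻ t : E3, G (t 0) (t 1) (t 2) = ∫⁻ x, ∫⁻ y, ∫⁻ z, G x y z := by
  have h := (((MeasurePreserving.id (volume : Measure ℝ)).prod (volume_preserving_finTwoArrow ℝ)).comp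
    (volume_preserving_piFinSuccAbove (fun _ : Fin 3 => ℝ) 0)).comp
      (PiLp.volume_preserving_ofLp (Fin 3))
  refine (h.lintegral_comp hG).trans ?_
  rw [lintegral_prod _ hG.aemeasurable]
  exact lintegral_congr fun x => lintegral_prod _ (hG.comp measurable_prodMk_left).aemeasurable

/-- Lifting. Hint: Fin.sum_univ_three, dg_add; V - dg (A + B + C) = V - dg A - dg B - dg C;
lintegral_E3 (measurable by continuous_tp_sub_dg), then lt_one in z, lt_two' in y, lt_three in x;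
79/50 * (2/3) * (1/2) = 79/150. -/
theorem lt_l1 {V : Matrix ι ι ℂ} (hV : V.IsHermitian) (b : ι → E3) :
    ∫⁻ t : E3, ENNReal.ofReal (tp 1 (V - dg fun i => ∑ k, |b i k - t k|))
      ≤ ENNReal.ofReal (79 / 150 * tp 4 V) := by
  have e := lintegral_E3 (G := fun x y z => ENNReal.ofReal
    (tp 1 (V - dg fun i => |b i 0 - x| + |b i 1 - y| + |b i 2 - z|)))
    (continuous_tp_sub_dg hV (fun i => by fun_prop) one_ne_zero).measurable.ennreal_ofReal
  simp only [Fin.sum_univ_three]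
  rw [e]
  have m : ∀ (c : ℝ) (f : ℝ → ℝ), 0 ≤ c → ∫⁻ x, ENNReal.ofReal (c * f x) =
      ENNReal.ofReal c * ∫⁻ x, ENNReal.ofReal (f x) := fun c f hc => by
    simp only [ENNReal.ofReal_mul hc]
    exact lintegral_const_mul' _ _ ENNReal.ofReal_ne_top
  calc _ ≤ ∫⁻ x, ENNReal.ofReal (79 / 75 * tp 3 (V - dg fun i => |b i 0 - x|)) := by
        refine lintegral_mono fun x => ?_
        have h1 := hV.sub (dg_isHermitian fun i => |b i 0 - x|)
        calc _ ≤ ∫⁻ y, ENNReal.ofReal (79 / 50 *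
              tp 2 ((V - dg fun i => |b i 0 - x|) - dg fun i => |b i 1 - y|)) := by
              refine lintegral_mono fun y => ?_
              simp only [← dg_add, ← sub_sub]
              exact lt_one (h1.sub (dg_isHermitian _)) _
          _ ≤ _ := by
              rw [m _ _ (by norm_num)]
              refine (mul_le_mul_right (lt_two' h1 _) _).trans_eq ?_
              rw [← ENNReal.ofReal_mul (by norm_num), ← mul_assoc]
              norm_num
    _ ≤ _ := by
        rw [m _ _ (by norm_num)]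
        refine (mul_le_mul_right (lt_three hV _) _).trans_eq ?_
        rw [← ENNReal.ofReal_mul (by norm_num), ← mul_assoc]
        norm_num

end Pool.Agent.P.MP_9f4f5e_mp.LT
end
end

-- part Pool.Agent.P.MP_9f4f5e_mp.LT.D2
section

set_option autoImplicit false
set_option linter.unusedSectionVars false

open MeasureTheory Matrix
open scoped ENNReal ComplexOrder ComplexConjugate RealInnerProductSpace FourierTransform

noncomputable section

namespace Pool.Agent.P.MP_9f4f5e_mp.LT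

theorem d2_r3 : ∫ y in Set.Ioi (0 : ℝ), y ^ 2 * (y * Real.exp (-y ^ 2)) = 1 / 2 := by
  have h := integral_rpow_mul_exp_neg_rpow (p := 2) (q := 3) (by norm_num) (by norm_num)
  have e : ((3 : ℝ) + 1) / 2 = 2 := by norm_num
  rw [e, Real.Gamma_two, mul_one] at h
  rw [← h]
  refine setIntegral_congr_fun measurableSet_Ioi fun x _ => ?_
  have e2 : x ^ (2 : ℝ) = x ^ 2 := by exact_mod_cast Real.rpow_natCast x 2
  have e3 : x ^ (3 : ℝ) = x ^ 3 := by exact_mod_cast Real.rpow_natCast x 3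
  simp only [e2, e3]
  ring

theorem d2_r1 : ∫ y : ℝ, |y| * Real.exp (-y ^ 2) = 1 := by
  have h := integral_rpow_mul_exp_neg_rpow (p := 2) (q := 1) (by norm_num) (by norm_num)
  have e : ((1 : ℝ) + 1) / 2 = 1 := by norm_num
  rw [e, Real.Gamma_one, mul_one] at h
  have h2 := integral_comp_abs (f := fun y : ℝ => y * Real.exp (-y ^ 2))
  simp only [sq_abs] at h2
  rw [h2]
  have h3 : ∫ y in Set.Ioi (0 : ℝ), y * Real.exp (-y ^ 2) = 1 / 2 := by
    rw [← h]
    refine setIntegral_congr_fun measurableSet_Ioi fun x _ => ?_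
    have e2 : x ^ (2 : ℝ) = x ^ 2 := by exact_mod_cast Real.rpow_natCast x 2
    simp only [e2, Real.rpow_one]
  rw [h3]
  norm_num

theorem d2_r0 : ∫ y : ℝ, Real.exp (-y ^ 2) = √Real.pi := by
  have h := integral_gaussian 1
  simpa using h

theorem d2_norm : ∫ p : E3, ‖p‖ * Real.exp (-‖p‖ ^ 2) = 2 * Real.pi := by
  have h := integral_fun_norm_addHaar (volume : Measure E3)
    (fun y : ℝ => y * Real.exp (-y ^ 2))
  rw [h, finrank_euclideanSpace_fin, Measure.real, EuclideanSpace.volume_ball_fin_three]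
  simp only [smul_eq_mul, nsmul_eq_mul]
  have e : (3 : ℕ) - 1 = 2 := rfl
  rw [e, d2_r3, ENNReal.ofReal_one, one_pow, one_mul,
    ENNReal.toReal_ofReal (by positivity)]
  push_cast
  ring

theorem d2_coord (k : Fin 3) : ∫ p : E3, |p k| * Real.exp (-‖p‖ ^ 2) = Real.pi := by
  have h1 := (PiLp.volume_preserving_toLp (Fin 3)).integral_comp
    (MeasurableEquiv.toLp 2 (Fin 3 → ℝ)).measurableEmbedding
    (fun p : E3 => |p k| * Real.exp (-‖p‖ ^ 2))
  rw [← h1]
  have h2 := integral_fintype_prod_volume_eq_prod (ι := Fin 3) (E := fun _ => ℝ) (𝕜 := ℝ)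
    (fun i y => (if i = k then |y| else 1) * Real.exp (-y ^ 2))
  have h3 : ∀ x : Fin 3 → ℝ, |(WithLp.toLp 2 x : E3) k| *
      Real.exp (-‖(WithLp.toLp 2 x : E3)‖ ^ 2) =
      ∏ i, (if i = k then |x i| else 1) * Real.exp (-x i ^ 2) := by
    intro x
    rw [Finset.prod_mul_distrib, Finset.prod_ite_eq', ← Real.exp_sum,
      EuclideanSpace.real_norm_sq_eq, Finset.sum_neg_distrib]
    simp
  simp only [h3]
  rw [h2]
  have h4 : ∀ i : Fin 3, ∫ y : ℝ, (if i = k then |y| else 1) * Real.exp (-y ^ 2) =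
      if i = k then 1 else √Real.pi := by
    intro i
    by_cases hi : i = k
    · simp only [hi, if_true, d2_r1]
    · simp only [hi, if_false, one_mul, d2_r0]
  simp only [h4]
  have h5 : √Real.pi * √Real.pi = Real.pi := Real.mul_self_sqrt Real.pi_pos.le
  rw [Fin.prod_univ_three]
  fin_cases k <;> simp [h5]

open Pool.Agent.BL in
theorem d2_hom (k : Fin 3) (p : E3) :
    ∫ g : G E3, |ap g p k| ∂(haar E3) = ‖p‖ * ∫ y : E3, |y k| ∂(sph E3) := by
  by_cases hp : p = 0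
  · subst hp
    simp [ap]
  · have hn : 0 < ‖p‖ := norm_pos_iff.2 hp
    have hu : ‖(‖p‖⁻¹ • p : E3)‖ = 1 := by
      rw [norm_smul, norm_inv, norm_norm, inv_mul_cancel₀ hn.ne']
    have hc : Continuous fun y : E3 => |y k| := by fun_prop
    rw [← integral_ap hu hc.aestronglyMeasurable, ← integral_const_mul]
    refine integral_congr_ae (Filter.Eventually.of_forall fun g => ?_)
    simp only [ap_smul, PiLp.smul_apply, smul_eq_mul, abs_mul, abs_inv, abs_norm]
    rw [← mul_assoc, mul_inv_cancel₀ hn.ne', one_mul]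

open Pool.Agent.BL in
theorem d2_half (k : Fin 3) : ∫ y : E3, |y k| ∂(sph E3) = 1 / 2 := by
  have i1 : Integrable (fun p : E3 => ‖p‖ * Real.exp (-‖p‖ ^ 2)) :=
    Integrable.of_integral_ne_zero (by rw [d2_norm]; positivity)
  have hc : Continuous fun z : G E3 × E3 => |ap z.1 z.2 k| * Real.exp (-‖z.2‖ ^ 2) := by
    have h0 : Continuous fun z : G E3 × E3 => ap z.1 z.2 :=
      continuous_ap continuous_fst continuous_snd
    have h1 : Continuous fun y : E3 => |y k| := by fun_prop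
    exact (h1.comp h0).mul (by fun_prop)
  have i2 : Integrable (fun z : G E3 × E3 => |ap z.1 z.2 k| * Real.exp (-‖z.2‖ ^ 2))
      ((haar E3).prod volume) := by
    refine ((integrable_const (1 : ℝ)).mul_prod i1).mono' hc.aestronglyMeasurable
      (Filter.Eventually.of_forall fun z => ?_)
    rw [one_mul, Real.norm_of_nonneg (by positivity)]
    refine mul_le_mul_of_nonneg_right ?_ (Real.exp_pos _).le
    rw [← norm_ap z.1 z.2, ← Real.norm_eq_abs]
    exact PiLp.norm_apply_le _ k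
  have sw := integral_integral_swap
    (f := fun (g : G E3) (p : E3) => |ap g p k| * Real.exp (-‖p‖ ^ 2)) i2
  have l1 : ∀ g : G E3, ∫ p : E3, |ap g p k| * Real.exp (-‖p‖ ^ 2) = Real.pi := by
    intro g
    have h1 := (toIso g).measurePreserving.integral_comp
      (toIso g).toHomeomorph.measurableEmbedding
      (fun p : E3 => |p k| * Real.exp (-‖p‖ ^ 2))
    rw [d2_coord] at h1
    rw [← h1]
    simp only [toIso_apply, norm_ap]
  have l2 : ∀ p : E3, ∫ g : G E3, |ap g p k| * Real.exp (-‖p‖ ^ 2) ∂(haar E3) =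
      (∫ y : E3, |y k| ∂(sph E3)) * (‖p‖ * Real.exp (-‖p‖ ^ 2)) := by
    intro p
    rw [integral_mul_const, d2_hom]
    ring
  simp only [l1, l2] at sw
  rw [integral_const_mul, d2_norm, integral_const, probReal_univ, one_smul] at sw
  have hpi := Real.pi_pos
  have : ((∫ y : E3, |y k| ∂(sph E3)) - 1 / 2) * Real.pi = 0 := by linarith
  rcases mul_eq_zero.1 this with h | h
  · linarith
  · exact absurd h hpi.ne'

open Pool.Agent.BL in
/-- Mean of the l1 norm over rotations. Hint: c k = ∫ y, |y k| ∂(sph E3); ∫ g, |ap g p k| ∂haar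
= ‖p‖ * c k (map_ap for the unit vector in direction p). Integrate this identity against
exp (-‖p‖^2) dp; by Fubini and invariance of volume under ap g the left side is
∫ p, |p k| * exp (-‖p‖^2) = π (product of one-dimensional integrals 1, √π, √π), while
∫ p, ‖p‖ * exp (-‖p‖^2) = 2 π (integral_fun_norm_addHaar, EuclideanSpace.volume_ball_fin_three,
∫ r in Ioi 0, r^3 exp (-r^2) = 1/2). So c k = 1/2. -/
theorem haar_l1 (p : E3) :
    Integrable (fun g : G E3 => ∑ k, |ap g p k|) (haar E3) ∧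
      ∫ g : G E3, ∑ k, |ap g p k| ∂(haar E3) ≤ 3 / 2 * ‖p‖ := by
  have hi : ∀ k : Fin 3, Integrable (fun g : G E3 => |ap g p k|) (haar E3) := by
    intro k
    have h0 : Continuous fun g : G E3 => ap g p := continuous_ap continuous_id continuous_const
    have h1 : Continuous fun y : E3 => |y k| := by fun_prop
    exact integrable_haar (h1.comp h0)
  refine ⟨integrable_finsetSum _ fun k _ => hi k, ?_⟩
  rw [integral_finsetSum _ fun k _ => hi k]
  simp only [d2_hom, d2_half, Fin.sum_univ_three]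
  linarith

end Pool.Agent.P.MP_9f4f5e_mp.LT
end
end

-- part Pool.Agent.P.MP_9f4f5e_mp.LT.D3
section

set_option autoImplicit false
set_option linter.unusedSectionVars false

open MeasureTheory Matrix
open scoped ENNReal ComplexOrder ComplexConjugate RealInnerProductSpace FourierTransform

noncomputable section

namespace Pool.Agent.P.MP_9f4f5e_mp.LT

variable {ι : Type} [Fintype ι] [DecidableEq ι]

/-- Rotated and scaled form. Hint: lt_l1 for b i = (2/3) • L (a i); the map t ↦ (2/3) • L t;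
L.measurePreserving, Measure.map_addHaar_smul or lintegral_comp_smul-type lemma with factor
(3/2)^3; 79/150 * (27/8) = 711/400. -/
theorem lt_rot {V : Matrix ι ι ℂ} (hV : V.IsHermitian) (a : ι → E3) (L : E3 ≃ₗᵢ[ℝ] E3) :
    ∫⁻ t : E3, ENNReal.ofReal (tp 1 (V - dg fun i => 2 / 3 * ∑ k, |L (a i - t) k|))
      ≤ ENNReal.ofReal (711 / 400 * tp 4 V) := by
  set b : ι → E3 := fun i => (2 / 3 : ℝ) • L (a i) with hb
  set F : E3 → ℝ≥0∞ := fun s => ENNReal.ofReal (tp 1 (V - dg fun i => ∑ k, |b i k - s k|)) with hF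
  have hFm : Measurable F :=
    (continuous_tp_sub_dg hV (d := fun (s : E3) i => ∑ k, |b i k - s k|)
      (fun i => by fun_prop) one_ne_zero).measurable.ennreal_ofReal
  have h1 : ∀ t : E3, ENNReal.ofReal (tp 1 (V - dg fun i => 2 / 3 * ∑ k, |L (a i - t) k|))
      = F ((2 / 3 : ℝ) • L t) := by
    intro t
    have h2 : (fun i => 2 / 3 * ∑ k, |L (a i - t) k|)
        = fun i => ∑ k, |b i k - ((2 / 3 : ℝ) • L t) k| := by
      funext i
      rw [Finset.mul_sum]
      refine Finset.sum_congr rfl fun k _ => ?_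
      rw [hb, map_sub]
      simp only [PiLp.sub_apply, PiLp.smul_apply, smul_eq_mul]
      rw [← mul_sub, abs_mul, abs_of_pos (by norm_num : (0 : ℝ) < 2 / 3)]
    rw [h2]
  have hsm : Measurable fun s : E3 => (2 / 3 : ℝ) • s := by fun_prop
  have h3 : ∫⁻ t : E3, F ((2 / 3 : ℝ) • L t) = ∫⁻ s : E3, F ((2 / 3 : ℝ) • s) :=
    L.measurePreserving.lintegral_comp (hFm.comp hsm)
  have h4 : ∫⁻ s : E3, F ((2 / 3 : ℝ) • s) = ENNReal.ofReal (27 / 8) * ∫⁻ s : E3, F s := by
    rw [← lintegral_map hFm hsm, Measure.map_addHaar_smul _ (by norm_num : (2 / 3 : ℝ) ≠ 0),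
      lintegral_smul_measure, finrank_euclideanSpace_fin, smul_eq_mul]
    norm_num
  simp only [h1]
  rw [h3, h4]
  calc _ ≤ ENNReal.ofReal (27 / 8) * ENNReal.ofReal (79 / 150 * tp 4 V) := by
        gcongr
        exact lt_l1 hV b
    _ = _ := by
        rw [← ENNReal.ofReal_mul (by norm_num)]
        congr 1
        ring

/-- The matrix inequality in three dimensions. Hint: tp_one_le_lintegral with haar_l1 at each t,
lintegral_lintegral_swap (continuous_tp_sub_dg, Pool.Agent.BL.continuous_ap; G E3 is second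
countable as a subtype), lt_rot with L = toIso g. -/
theorem lt_main {V : Matrix ι ι ℂ} (hV : V.IsHermitian) (a : ι → E3) :
    ∫⁻ t : E3, ENNReal.ofReal (tp 1 (V - dg fun i => ‖a i - t‖))
      ≤ ENNReal.ofReal (711 / 400 * tp 4 V) := by
  have h1 : ∀ t : E3, ENNReal.ofReal (tp 1 (V - dg fun i => ‖a i - t‖)) ≤
      ∫⁻ g : BL.G E3, ENNReal.ofReal (tp 1 (V - dg fun i => 2 / 3 * ∑ k, |BL.ap g (a i - t) k|))
        ∂(BL.haar E3) := by
    intro t
    refine tp_one_le_lintegral (BL.haar E3) hV (fun i => ‖a i - t‖)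
      (fun g i => 2 / 3 * ∑ k, |BL.ap g (a i - t) k|)
      (fun i => (haar_l1 (a i - t)).1.const_mul _) fun i => ?_
    rw [integral_const_mul]
    linarith [(haar_l1 (a i - t)).2]
  have : SecondCountableTopology (BL.G E3) :=
    TopologicalSpace.Subtype.secondCountableTopology _
  have hm : Measurable fun p : E3 × BL.G E3 =>
      ENNReal.ofReal (tp 1 (V - dg fun i => 2 / 3 * ∑ k, |BL.ap p.2 (a i - p.1) k|)) :=
    (continuous_tp_sub_dg hV
      (d := fun (p : E3 × BL.G E3) i => 2 / 3 * ∑ k, |BL.ap p.2 (a i - p.1) k|)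
      (fun i => by fun_prop) one_ne_zero).measurable.ennreal_ofReal
  refine (lintegral_mono h1).trans ?_
  rw [lintegral_lintegral_swap hm.aemeasurable]
  calc _ ≤ ∫⁻ _ : BL.G E3, ENNReal.ofReal (711 / 400 * tp 4 V) ∂(BL.haar E3) :=
        lintegral_mono fun g => lt_rot hV a (BL.toIso g)
    _ = _ := by rw [lintegral_const, measure_univ, mul_one]

end Pool.Agent.P.MP_9f4f5e_mp.LT
end
end

-- part Pool.Agent.P.MP_9f4f5e_mp.LT.P1
section

set_option autoImplicit false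
set_option linter.unusedSectionVars false

open MeasureTheory Matrix
open scoped ENNReal ComplexOrder ComplexConjugate RealInnerProductSpace FourierTransform

noncomputable section

namespace Pool.Agent.P.MP_9f4f5e_mp.LT

variable {X Y : Type} [MeasurableSpace X] [MeasurableSpace Y] {μ : Measure X} {ν : Measure Y}
  [SFinite μ] [SFinite ν]

/-- slices are square integrable. Hint: memLp_two_iff_integrable_sq_norm, Integrable.prod_left_ae,
AEStronglyMeasurable.prodMk_right. -/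
theorem ae_memLp_left {Ψ : X × Y → ℂ} (hΨ : MemLp Ψ 2 (μ.prod ν)) :
    ∀ᵐ y ∂ν, MemLp (fun x => Ψ (x, y)) 2 μ := by
  have h1 := ((memLp_two_iff_integrable_sq_norm hΨ.1).1 hΨ).prod_left_ae
  filter_upwards [h1, hΨ.1.prodMk_right] with y hy hm
  exact (memLp_two_iff_integrable_sq_norm hm).2 hy

theorem ae_memLp_right {Ψ : X × Y → ℂ} (hΨ : MemLp Ψ 2 (μ.prod ν)) :
    ∀ᵐ x ∂μ, MemLp (fun y => Ψ (x, y)) 2 ν := by
  have h1 := ((memLp_two_iff_integrable_sq_norm hΨ.1).1 hΨ).prod_right_ae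
  filter_upwards [h1, hΨ.1.prodMk_left] with x hx hm
  exact (memLp_two_iff_integrable_sq_norm hm).2 hx

theorem p1_memLp_conj {f : X → ℂ} (hf : MemLp f 2 μ) : MemLp (fun x => conj (f x)) 2 μ :=
  hf.star

theorem p1_slice {g f : X → ℂ} (hg : MemLp g 2 μ) (hf : MemLp f 2 μ)
    (hf1 : ∫ x, ‖f x‖ ^ 2 ∂μ = 1) :
    ∫ x, ‖g x - f x * ∫ x, conj (f x) * g x ∂μ‖ ^ 2 ∂μ + ‖∫ x, conj (f x) * g x ∂μ‖ ^ 2
      = ∫ x, ‖g x‖ ^ 2 ∂μ := by
  set c : ℂ := ∫ x, conj (f x) * g x ∂μ with hc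
  have hi : Integrable (fun x => conj (f x) * g x) μ := (p1_memLp_conj hf).integrable_mul hg
  have hg2 := (memLp_two_iff_integrable_sq_norm hg.1).1 hg
  have hf2 := (memLp_two_iff_integrable_sq_norm hf.1).1 hf
  have hre : Integrable (fun x => (conj c * (conj (f x) * g x)).re) μ := (hi.const_mul _).re
  have h1 : ∀ x, ‖g x - f x * c‖ ^ 2
      = ‖g x‖ ^ 2 - 2 * (conj c * (conj (f x) * g x)).re + ‖c‖ ^ 2 * ‖f x‖ ^ 2 := by
    intro x
    simp only [← Complex.normSq_eq_norm_sq, Complex.normSq_apply, Complex.sub_re, Complex.sub_im,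
      Complex.mul_re, Complex.mul_im, Complex.conj_re, Complex.conj_im]
    ring
  have h2 : ∫ x, (conj c * (conj (f x) * g x)).re ∂μ = ‖c‖ ^ 2 := by
    have h3 := integral_re (hi.const_mul (conj c))
    simp only [RCLike.re_to_complex] at h3
    rw [h3, integral_const_mul, ← hc, Complex.conj_mul', ← Complex.ofReal_pow, Complex.ofReal_re]
  have h4 : Integrable (fun x => ‖g x‖ ^ 2 - 2 * (conj c * (conj (f x) * g x)).re) μ :=
    hg2.sub (hre.const_mul 2)
  simp_rw [h1]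
  rw [integral_add h4 (hf2.const_mul _), integral_sub hg2
    (hre.const_mul 2), integral_const_mul, integral_const_mul, h2, hf1]
  ring

/-- Pythagoras for the projection onto f in the first variable. Hint: for a.e. y (ae_memLp_left)
∫ x, ‖Ψ (x,y) - f x * G y‖^2 + ‖G y‖^2 = ∫ x, ‖Ψ (x,y)‖^2 (expand with
‖a - b‖^2 = ‖a‖^2 - 2 re (conj b * a) + ‖b‖^2); G is AEStronglyMeasurable
(AEStronglyMeasurable.integral_prod_right' on the swapped product), ‖G y‖^2 is dominated by the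
integrable y ↦ ∫ x, ‖Ψ (x,y)‖^2; Integrable.mul_prod; integral_prod_symm. -/
theorem pythagoras {Ψ : X × Y → ℂ} (hΨ : MemLp Ψ 2 (μ.prod ν)) {f : X → ℂ} (hf : MemLp f 2 μ)
    (hf1 : ∫ x, ‖f x‖ ^ 2 ∂μ = 1) :
    MemLp (fun y => ∫ x, conj (f x) * Ψ (x, y) ∂μ) 2 ν ∧
    MemLp (fun p : X × Y => Ψ p - f p.1 * ∫ x, conj (f x) * Ψ (x, p.2) ∂μ) 2 (μ.prod ν) ∧
    ∫ p, ‖Ψ p - f p.1 * ∫ x, conj (f x) * Ψ (x, p.2) ∂μ‖ ^ 2 ∂(μ.prod ν)
      + ∫ y, ‖∫ x, conj (f x) * Ψ (x, y) ∂μ‖ ^ 2 ∂ν = ∫ p, ‖Ψ p‖ ^ 2 ∂(μ.prod ν) := by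
  have hΨ2 := (memLp_two_iff_integrable_sq_norm hΨ.1).1 hΨ
  have hf2 := (memLp_two_iff_integrable_sq_norm hf.1).1 hf
  have hGm : AEStronglyMeasurable (fun y => ∫ x, conj (f x) * Ψ (x, y) ∂μ) ν :=
    (((p1_memLp_conj hf).1.comp_fst (ν := ν)).mul hΨ.1).prod_swap.integral_prod_right'
  have hs := (ae_memLp_left hΨ).mono fun y hy => p1_slice hy hf hf1
  have hG2 : Integrable (fun y => ‖∫ x, conj (f x) * Ψ (x, y) ∂μ‖ ^ 2) ν := by
    refine hΨ2.integral_prod_right.mono' (hGm.norm.pow 2) ?_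
    filter_upwards [hs] with y hy
    rw [Real.norm_of_nonneg (by positivity), ← hy]
    exact le_add_of_nonneg_left (integral_nonneg fun x => by positivity)
  have hG : MemLp (fun y => ∫ x, conj (f x) * Ψ (x, y) ∂μ) 2 ν :=
    (memLp_two_iff_integrable_sq_norm hGm).2 hG2
  have hP : MemLp (fun p : X × Y => f p.1 * ∫ x, conj (f x) * Ψ (x, p.2) ∂μ) 2 (μ.prod ν) := by
    refine (memLp_two_iff_integrable_sq_norm (hf.1.comp_fst.mul hGm.comp_snd)).2 ?_
    refine (hf2.mul_prod hG2).congr (ae_of_all _ fun p => ?_)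
    simp only [Pi.mul_apply, norm_mul, mul_pow]
  have hR := hΨ.sub hP
  refine ⟨hG, hR, ?_⟩
  have hR2 : Integrable (fun p : X × Y => ‖Ψ p - f p.1 * ∫ x, conj (f x) * Ψ (x, p.2) ∂μ‖ ^ 2)
      (μ.prod ν) := (memLp_two_iff_integrable_sq_norm hR.1).1 hR
  rw [integral_prod_symm _ hR2, integral_prod_symm _ hΨ2,
    ← integral_add hR2.integral_prod_right hG2]
  exact integral_congr_ae hs

end Pool.Agent.P.MP_9f4f5e_mp.LT
end
end

-- part Pool.Agent.P.MP_9f4f5e_mp.LT.F1
section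

set_option autoImplicit false
set_option linter.unusedSectionVars false

open MeasureTheory Matrix
open scoped ENNReal ComplexOrder ComplexConjugate RealInnerProductSpace FourierTransform

noncomputable section

namespace Pool.Agent.P.MP_9f4f5e_mp.LT

variable {Y : Type} [MeasurableSpace Y] {ν : Measure Y} [SFinite ν] {Φ : E3 × Y → ℂ} {ρ : E3 → ℝ}

theorem f1_iff {X : Type} [MeasurableSpace X] {μ : Measure X} {f : X → ℂ}
    (hf : AEStronglyMeasurable f μ) : MemLp f 2 μ ↔ ∫⁻ x, ‖f x‖ₑ ^ 2 ∂μ < ∞ := by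
  rw [MemLp, and_iff_right hf, eLpNorm_lt_top_iff_lintegral_rpow_enorm_lt_top two_ne_zero
    ENNReal.ofNat_ne_top]
  simp

/-- Hint: StronglyMeasurable.integral_prod_right'. -/
theorem measurable_uu (hΦ : Measurable Φ) (Q : Set E3) :
    Measurable fun p : E3 × Y => uu Q Φ p.1 p.2 := by
  have m : Measurable fun q : (E3 × Y) × E3 => Φ (q.1.1 + q.2, q.1.2) := by fun_prop
  exact (m.stronglyMeasurable.integral_prod_right' (ν := volume.restrict Q)).measurable

/-- Cauchy-Schwarz. Hint: enorm_integral_le_lintegral_enorm, ENNReal.lintegral_mul_le_Lp_mul_Lq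
with the constant 1. -/
theorem enorm_uu_sq_le (hΦ : Measurable Φ) (Q : Set E3) (p : E3) (y : Y) :
    ‖uu Q Φ p y‖ₑ ^ 2 ≤ volume Q * ∫⁻ s in Q, ‖Φ (p + s, y)‖ₑ ^ 2 := by
  have m : Measurable fun s : E3 => ‖Φ (p + s, y)‖ₑ := by fun_prop
  have h := ENNReal.lintegral_mul_le_Lp_mul_Lq (volume.restrict Q) Real.HolderConjugate.two_two
    (f := fun _ => 1) aemeasurable_const m.aemeasurable
  simp only [Pi.mul_apply, one_mul, one_pow, lintegral_const, Measure.restrict_apply_univ,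
    ENNReal.rpow_two] at h
  refine (pow_le_pow_left' ((enorm_integral_le_lintegral_enorm _).trans h) 2).trans_eq ?_
  rw [← ENNReal.mul_rpow_of_nonneg _ _ (by norm_num), ← ENNReal.rpow_two, ← ENNReal.rpow_mul]
  simp

theorem Data.memLp (D : Data ν Φ ρ) : MemLp Φ 2 ((volume : Measure E3).prod ν) := by
  exact (memLp_two_iff_integrable_sq_norm D.meas.aestronglyMeasurable).2 D.l2

/-- Hint: ae_memLp_left, translation invariance, L2 on a set of finite measure is L1. -/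
theorem Data.ae_integrableOn (D : Data ν Φ ρ) {Q : Set E3} (hQ : volume Q ≠ ∞) :
    ∀ᵐ y ∂ν, ∀ p : E3, IntegrableOn (fun s => Φ (p + s, y)) Q := by
  filter_upwards [ae_memLp_left D.memLp] with y hy p
  have : IsFiniteMeasure (volume.restrict Q) := isFiniteMeasure_restrict.2 hQ
  exact ((hy.comp_measurePreserving (measurePreserving_add_left volume p)).restrict Q).integrable
    one_le_two

/-- Hint: enorm_uu_sq_le, bound the integral over Q by the integral over E3, translate, Tonelli. -/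
theorem Data.memLp_uu (D : Data ν Φ ρ) {Q : Set E3} (hQ : volume Q ≠ ∞) (p : E3) :
    MemLp (uu Q Φ p) 2 ν := by
  have m := D.meas
  refine (f1_iff ((measurable_uu m Q).comp measurable_prodMk_left).aestronglyMeasurable).2 ?_
  calc _ ≤ ∫⁻ y, volume Q * ∫⁻ s, ‖Φ (s, y)‖ₑ ^ 2 ∂volume ∂ν := lintegral_mono fun y =>
        (enorm_uu_sq_le m Q p y).trans (mul_le_mul_right ((setLIntegral_le_lintegral _ _).trans_eq
          (lintegral_add_left_eq_self (fun s => ‖Φ (s, y)‖ₑ ^ 2) p)) _)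
    _ < ∞ := by
      rw [lintegral_const_mul' _ _ hQ, ← lintegral_prod_symm' (fun z => ‖Φ z‖ₑ ^ 2) (by fun_prop)]
      exact ENNReal.mul_lt_top hQ.lt_top ((f1_iff m.aestronglyMeasurable).1 D.memLp)

/-- Hint: enorm_uu_sq_le, Tonelli, lintegral_add_right_eq_self: the square norm is at most
volume Q ^ 2 times that of Φ. -/
theorem Data.memLp_uu_prod (D : Data ν Φ ρ) {Q : Set E3} (hQ : volume Q ≠ ∞) :
    MemLp (fun p : E3 × Y => uu Q Φ p.1 p.2) 2 ((volume : Measure E3).prod ν) := by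
  have m := D.meas
  refine (f1_iff (measurable_uu m Q).aestronglyMeasurable).2 ?_
  calc _ ≤ ∫⁻ z : E3 × Y, volume Q * ∫⁻ s in Q, ‖Φ (z.1 + s, z.2)‖ₑ ^ 2 ∂volume ∂volume.prod ν :=
        lintegral_mono fun z => enorm_uu_sq_le m Q z.1 z.2
    _ = volume Q * ∫⁻ s in Q, ∫⁻ z, ‖Φ z‖ₑ ^ 2 ∂volume.prod ν := by
      rw [lintegral_const_mul' _ _ hQ, lintegral_lintegral_swap (by fun_prop)]
      refine congrArg _ (lintegral_congr fun s => ?_)
      rw [lintegral_prod_symm' _ (by fun_prop), lintegral_prod_symm' _ (by fun_prop)]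
      exact lintegral_congr fun y => lintegral_add_right_eq_self (fun x => ‖Φ (x, y)‖ₑ ^ 2) s
    _ < ∞ := by
      rw [lintegral_const, Measure.restrict_apply_univ]
      exact ENNReal.mul_lt_top hQ.lt_top (ENNReal.mul_lt_top
        ((f1_iff m.aestronglyMeasurable).1 D.memLp) hQ.lt_top)

end Pool.Agent.P.MP_9f4f5e_mp.LT
end
end

-- part Pool.Agent.P.MP_9f4f5e_mp.LT.F2
section

set_option autoImplicit false
set_option linter.unusedSectionVars false

open MeasureTheory Matrix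
open scoped ENNReal ComplexOrder ComplexConjugate RealInnerProductSpace FourierTransform

noncomputable section

namespace Pool.Agent.P.MP_9f4f5e_mp.LT

variable {ι : Type} [Fintype ι] [DecidableEq ι]

variable {Y : Type} [MeasurableSpace Y] {ν : Measure Y} [SFinite ν] {Φ : E3 × Y → ℂ} {ρ : E3 → ℝ}

theorem f2_int {Q : Set E3} (hQm : MeasurableSet Q) (p : E3) (g : E3 → ℂ) (z : ℂ) :
    ∫ ξ, conj ({ξ : E3 | ξ - p ∈ Q}.indicator (fun _ => z) ξ) * g ξ
      = conj z * ∫ s in Q, g (p + s) := by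
  rw [← integral_add_left_eq_self _ p, ← integral_indicator hQm, ← integral_const_mul]
  refine integral_congr_ae (Filter.Eventually.of_forall fun s => ?_)
  by_cases hs : s ∈ Q
  · simp [Set.indicator, hs]
  · simp [Set.indicator, hs]

theorem f2_meas {Q : Set E3} (hQm : MeasurableSet Q) (p : E3) :
    MeasurableSet {ξ : E3 | ξ - p ∈ Q} :=
  (measurable_sub_const p) hQm

theorem f2_vol (Q : Set E3) (p : E3) : volume {ξ : E3 | ξ - p ∈ Q} = volume Q := by
  have : {ξ : E3 | ξ - p ∈ Q} = (fun ξ => ξ + (-p)) ⁻¹' Q := by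
    ext ξ; simp [sub_eq_add_neg]
  rw [this, measure_preimage_add_right]

theorem f2_integrable {Q : Set E3} (hQm : MeasurableSet Q) (p : E3) {g : E3 → ℂ} (z : ℂ)
    (hg : IntegrableOn (fun s => g (p + s)) Q) :
    Integrable fun ξ => conj ({ξ : E3 | ξ - p ∈ Q}.indicator (fun _ => z) ξ) * g ξ := by
  have h1 : Integrable (fun s => Q.indicator (fun s => conj z * g (p + s)) s) :=
    (integrable_indicator_iff hQm).2 (hg.const_mul _)
  refine (h1.comp_sub_right p).congr (Filter.Eventually.of_forall fun ξ => ?_)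
  by_cases hs : ξ - p ∈ Q
  · simp [Set.indicator, hs]
  · simp [Set.indicator, hs]

/-- Pauli bound for disjoint translates. Hint: f = ∑ i, indicator {ξ | ξ - (a i - t) ∈ Q} (c i);
for a.e. y (Data.ae_integrableOn) ∫ conj f * Φ (·, y) = ∑ conj (c i) * uu Q Φ (a i - t) y
(integral_finset_sum, integral_indicator, integral_add_left_eq_self); pointwise
‖f ξ‖^2 = ∑ i, indicator ... (‖c i‖^2) by disjointness; measure_preimage_sub_right-type lemma;
D.pauli. -/
theorem Data.gram_le (D : Data ν Φ ρ) {Q : Set E3} (hQm : MeasurableSet Q) (hQ : volume Q ≠ ∞)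
    (a : ι → E3) (hdis : ∀ i j, i ≠ j → ∀ s ∈ Q, ∀ s' ∈ Q, a i + s ≠ a j + s') (t : E3)
    (c : ι → ℂ) :
    ∫ y, ‖∑ i, conj (c i) * uu Q Φ (a i - t) y‖ ^ 2 ∂ν ≤ (volume Q).toReal * ∑ i, ‖c i‖ ^ 2 := by
  set f : E3 → ℂ := fun ξ => ∑ i, {ξ : E3 | ξ - (a i - t) ∈ Q}.indicator (fun _ => c i) ξ with hf
  have hfm : MemLp f 2 volume :=
    memLp_finsetSum _ fun i _ => memLp_indicator_const 2 (f2_meas hQm _) (c i)
      (Or.inr (by rw [f2_vol]; exact hQ))
  have h1 : ∀ ξ, ‖f ξ‖ ^ 2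
      = ∑ i, {ξ : E3 | ξ - (a i - t) ∈ Q}.indicator (fun _ => ‖c i‖ ^ 2) ξ := by
    intro ξ
    by_cases h : ∃ i, ξ - (a i - t) ∈ Q
    · obtain ⟨i, hi⟩ := h
      have h2 : ∀ j, j ≠ i → ξ - (a j - t) ∉ Q := fun j hj h3 =>
        hdis j i hj _ h3 _ hi (by abel)
      simp only [hf]
      rw [Finset.sum_eq_single i, Finset.sum_eq_single i]
      · simp [Set.indicator, hi]
      · intro j _ hj
        simp [Set.indicator, h2 j hj]
      · simp
      · intro j _ hj
        simp [Set.indicator, h2 j hj]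
      · simp
    · push Not at h
      simp [hf, Set.indicator, h]
  have h2 : ∫ ξ, ‖f ξ‖ ^ 2 = (volume Q).toReal * ∑ i, ‖c i‖ ^ 2 := by
    simp only [h1]
    rw [integral_finsetSum, Finset.mul_sum]
    · refine Finset.sum_congr rfl fun i _ => ?_
      rw [integral_indicator_const _ (f2_meas hQm _), Measure.real, f2_vol, smul_eq_mul]
    · intro i _
      exact (integrable_indicator_iff (f2_meas hQm _)).2
        (integrableOn_const (by rw [f2_vol]; exact hQ))
  rw [← h2]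
  refine le_trans (le_of_eq ?_) (D.pauli f hfm)
  refine integral_congr_ae ((D.ae_integrableOn hQ).mono fun y hy => ?_)
  simp only [hf, map_sum, Finset.sum_mul]
  rw [integral_finsetSum _ fun i _ =>
    f2_integrable hQm (a i - t) (g := fun ξ => Φ (ξ, y)) (c i) (hy _)]
  congr 2
  exact Finset.sum_congr rfl fun i _ => (f2_int hQm (a i - t) (fun ξ => Φ (ξ, y)) (c i)).symm

/-- the quadratic form of a Gram matrix. Hint: MemLp.integrable_mul, integral_finset_sum,
Complex.mul_conj. -/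
theorem qf_gram {u : ι → Y → ℂ} (hu : ∀ i, MemLp (u i) 2 ν) (r : ℝ) (c : ι → ℂ) :
    qf (Matrix.of fun i j => (r : ℂ) * ∫ y, u i y * conj (u j y) ∂ν) c
      = r * ∫ y, ‖∑ i, conj (c i) * u i y‖ ^ 2 ∂ν := by
  have hi : ∀ i j, Integrable (fun y => u i y * conj (u j y)) ν := fun i j =>
    (hu i).integrable_mul (hu j).star
  have h1 : star c ⬝ᵥ (Matrix.of fun i j => (r : ℂ) * ∫ y, u i y * conj (u j y) ∂ν) *ᵥ c
      = ((r * ∫ y, ‖∑ i, conj (c i) * u i y‖ ^ 2 ∂ν : ℝ) : ℂ) := by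
    have h2 : ∀ y, ((‖∑ i, conj (c i) * u i y‖ ^ 2 : ℝ) : ℂ)
        = ∑ i, ∑ j, conj (c i) * c j * (u i y * conj (u j y)) := by
      intro y
      rw [Complex.ofReal_pow, ← Complex.mul_conj', map_sum, Finset.sum_mul_sum]
      refine Finset.sum_congr rfl fun i _ => Finset.sum_congr rfl fun j _ => ?_
      rw [map_mul, Complex.conj_conj]
      ring
    rw [Complex.ofReal_mul, ← integral_complex_ofReal]
    simp only [h2]
    rw [integral_finsetSum _ fun i _ => integrable_finsetSum _ fun j _ => (hi i j).const_mul _,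
      Finset.mul_sum, dotProduct]
    refine Finset.sum_congr rfl fun i _ => ?_
    rw [integral_finsetSum _ fun j _ => (hi i j).const_mul _, Finset.mul_sum, Matrix.mulVec,
      dotProduct, Finset.mul_sum]
    refine Finset.sum_congr rfl fun j _ => ?_
    rw [integral_const_mul, Matrix.of_apply, Pi.star_apply, Complex.star_def]
    ring
  rw [qf, h1, Complex.ofReal_re]

end Pool.Agent.P.MP_9f4f5e_mp.LT
end
end

-- part Pool.Agent.P.MP_9f4f5e_mp.LT.F3
section

set_option autoImplicit false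
set_option linter.unusedSectionVars false

open MeasureTheory Matrix
open scoped ENNReal ComplexOrder ComplexConjugate RealInnerProductSpace FourierTransform

noncomputable section

namespace Pool.Agent.P.MP_9f4f5e_mp.LT

variable {Y : Type} [MeasurableSpace Y] {ν : Measure Y} [SFinite ν] {Φ : E3 × Y → ℂ} {ρ : E3 → ℝ}

theorem f3_ofReal (c : ℝ) (hc : 0 ≤ c) (z : ℂ) :
    ENNReal.ofReal (c * ‖z‖ ^ 2) = ENNReal.ofReal c * ‖z‖ₑ ^ 2 := by
  rw [ENNReal.ofReal_mul hc, ENNReal.ofReal_pow (norm_nonneg _), ofReal_norm]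

theorem f3_shift {F : E3 × Y → ℝ≥0∞} (hF : Measurable F) (s : E3) :
    ∫⁻ p, F (p.1 + s, p.2) ∂((volume : Measure E3).prod ν)
      = ∫⁻ p, F p ∂((volume : Measure E3).prod ν) := by
  have hm : Measurable fun p : E3 × Y => F (p.1 + s, p.2) :=
    hF.comp ((measurable_fst.add_const s).prodMk measurable_snd)
  rw [lintegral_prod _ hm.aemeasurable, lintegral_prod _ hF.aemeasurable]
  exact lintegral_add_right_eq_self (fun p : E3 => ∫⁻ y, F (p, y) ∂ν) s

theorem f3_lin (hΦ : Measurable Φ) {Q : Set E3} (hQm : MeasurableSet Q) (hQ : volume Q ≠ ∞)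
    {r : ℝ} (hr0 : 0 ≤ r) (hr : ∀ s ∈ Q, ‖s‖ ≤ r) :
    ∫⁻ p, ENNReal.ofReal (‖p.1‖ * ‖uu Q Φ p.1 p.2‖ ^ 2) ∂((volume : Measure E3).prod ν)
      ≤ volume Q ^ 2 *
        ∫⁻ p, ENNReal.ofReal ((‖p.1‖ + r) * ‖Φ p‖ ^ 2) ∂((volume : Measure E3).prod ν) := by
  set F : E3 × Y → ℝ≥0∞ := fun p => ENNReal.ofReal ((‖p.1‖ + r) * ‖Φ p‖ ^ 2) with hFdef
  have hF : Measurable F :=
    ((measurable_fst.norm.add_const r).mul (hΦ.norm.pow_const 2)).ennreal_ofReal
  have hpt : ∀ p : E3 × Y, ENNReal.ofReal (‖p.1‖ * ‖uu Q Φ p.1 p.2‖ ^ 2)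
      ≤ volume Q * ∫⁻ s in Q, F (p.1 + s, p.2) := by
    intro p
    rw [f3_ofReal _ (norm_nonneg _)]
    calc ENNReal.ofReal ‖p.1‖ * ‖uu Q Φ p.1 p.2‖ₑ ^ 2
        ≤ ENNReal.ofReal ‖p.1‖ * (volume Q * ∫⁻ s in Q, ‖Φ (p.1 + s, p.2)‖ₑ ^ 2) := by
          gcongr
          exact enorm_uu_sq_le hΦ Q p.1 p.2
      _ = volume Q * ∫⁻ s in Q, ENNReal.ofReal ‖p.1‖ * ‖Φ (p.1 + s, p.2)‖ₑ ^ 2 := by
          rw [lintegral_const_mul' _ _ ENNReal.ofReal_ne_top, mul_left_comm]
      _ ≤ volume Q * ∫⁻ s in Q, F (p.1 + s, p.2) := by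
          refine mul_le_mul_right (setLIntegral_mono' hQm fun s hs => ?_) _
          simp only [hFdef]
          rw [f3_ofReal _ (add_nonneg (norm_nonneg _) hr0)]
          refine mul_le_mul_left (ENNReal.ofReal_le_ofReal ?_) _
          have h1 : ‖p.1‖ ≤ ‖p.1 + s‖ + ‖s‖ := by
            simpa using norm_sub_le (p.1 + s) s
          linarith [hr s hs]
  have hm : Measurable (Function.uncurry fun (p : E3 × Y) (s : E3) => F (p.1 + s, p.2)) :=
    hF.comp ((measurable_fst.fst.add measurable_snd).prodMk measurable_fst.snd)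
  calc ∫⁻ p, ENNReal.ofReal (‖p.1‖ * ‖uu Q Φ p.1 p.2‖ ^ 2) ∂((volume : Measure E3).prod ν)
      ≤ ∫⁻ p, volume Q * ∫⁻ s in Q, F (p.1 + s, p.2) ∂volume ∂((volume : Measure E3).prod ν) :=
        lintegral_mono hpt
    _ = volume Q * ∫⁻ s in Q, ∫⁻ p, F (p.1 + s, p.2) ∂((volume : Measure E3).prod ν) := by
        rw [lintegral_const_mul' _ _ hQ, lintegral_lintegral_swap hm.aemeasurable]
    _ = volume Q * ∫⁻ _ in Q, ∫⁻ p, F p ∂((volume : Measure E3).prod ν) := by
        simp only [f3_shift hF]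
    _ = volume Q ^ 2 * ∫⁻ p, F p ∂((volume : Measure E3).prod ν) := by
        rw [setLIntegral_const]
        ring

/-- Kinetic bound. Hint: work with lintegrals: ∫⁻ p, ofReal ‖p‖ * ∫⁻ y, ‖uu Q Φ p y‖ₑ^2
≤ volume Q * ∫⁻ s in Q, ∫⁻ p, ∫⁻ y, ofReal (‖p + s‖ + r) * ‖Φ (p + s, y)‖ₑ^2
= volume Q ^ 2 * ofReal (T + r N) (enorm_uu_sq_le, Tonelli, lintegral_add_right_eq_self);
lintegral_sub_left_eq_self; convert with ofReal_integral_eq_lintegral_ofReal,
Data.memLp_uu, measurability by StronglyMeasurable.integral_prod_right'. -/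
theorem Data.kin_le (D : Data ν Φ ρ) {Q : Set E3} (hQm : MeasurableSet Q) (hQ : volume Q ≠ ∞)
    {r : ℝ} (hr0 : 0 ≤ r) (hr : ∀ s ∈ Q, ‖s‖ ≤ r) (a : E3) :
    Integrable (fun t : E3 => ‖a - t‖ * ∫ y, ‖uu Q Φ (a - t) y‖ ^ 2 ∂ν) ∧
      ∫ t : E3, ‖a - t‖ * ∫ y, ‖uu Q Φ (a - t) y‖ ^ 2 ∂ν
        ≤ (volume Q).toReal ^ 2 * (∫ p, ‖p.1‖ * ‖Φ p‖ ^ 2 ∂((volume : Measure E3).prod ν)
          + r * ∫ p, ‖Φ p‖ ^ 2 ∂((volume : Measure E3).prod ν)) := by
  set g : E3 × Y → ℝ := fun p => ‖p.1‖ * ‖uu Q Φ p.1 p.2‖ ^ 2 with hg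
  have hg0 : ∀ p, 0 ≤ g p := fun p => mul_nonneg (norm_nonneg _) (sq_nonneg _)
  have hgm : Measurable g := measurable_fst.norm.mul ((measurable_uu D.meas Q).norm.pow_const 2)
  have hI : Integrable (fun p : E3 × Y => (‖p.1‖ + r) * ‖Φ p‖ ^ 2)
      ((volume : Measure E3).prod ν) := by
    refine (D.kin.add (D.l2.const_mul r)).congr (Filter.Eventually.of_forall fun p => ?_)
    simp only [Pi.add_apply]
    ring
  have hE : ∫ p, (‖p.1‖ + r) * ‖Φ p‖ ^ 2 ∂((volume : Measure E3).prod ν)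
      = ∫ p, ‖p.1‖ * ‖Φ p‖ ^ 2 ∂((volume : Measure E3).prod ν)
          + r * ∫ p, ‖Φ p‖ ^ 2 ∂((volume : Measure E3).prod ν) := by
    rw [← integral_const_mul, ← integral_add D.kin (D.l2.const_mul r)]
    refine integral_congr_ae (Filter.Eventually.of_forall fun p => ?_)
    simp only
    ring
  have hpos : ∀ p : E3 × Y, 0 ≤ (‖p.1‖ + r) * ‖Φ p‖ ^ 2 := fun p =>
    mul_nonneg (add_nonneg (norm_nonneg _) hr0) (sq_nonneg _)
  have hL := f3_lin (ν := ν) D.meas hQm hQ hr0 hr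
  rw [← ofReal_integral_eq_lintegral_ofReal hI (Filter.Eventually.of_forall hpos)] at hL
  have hfin : volume Q ^ 2 * ENNReal.ofReal
      (∫ p, (‖p.1‖ + r) * ‖Φ p‖ ^ 2 ∂((volume : Measure E3).prod ν)) ≠ ∞ :=
    ENNReal.mul_ne_top (ENNReal.pow_ne_top hQ) ENNReal.ofReal_ne_top
  have hgi : Integrable g ((volume : Measure E3).prod ν) :=
    ⟨hgm.aestronglyMeasurable, (hasFiniteIntegral_iff_ofReal
      (Filter.Eventually.of_forall hg0)).2 (lt_of_le_of_lt hL hfin.lt_top)⟩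
  have hsl : ∀ p : E3, ∫ y, g (p, y) ∂ν = ‖p‖ * ∫ y, ‖uu Q Φ p y‖ ^ 2 ∂ν := fun p =>
    integral_const_mul ‖p‖ fun y => ‖uu Q Φ p y‖ ^ 2
  have h1 : Integrable (fun p : E3 => ‖p‖ * ∫ y, ‖uu Q Φ p y‖ ^ 2 ∂ν) := by
    have h := hgi.integral_prod_left
    simpa only [hsl] using h
  refine ⟨h1.comp_sub_left a, ?_⟩
  rw [integral_sub_left_eq_self (fun p : E3 => ‖p‖ * ∫ y, ‖uu Q Φ p y‖ ^ 2 ∂ν) volume a]
  have h2 : ∫ p : E3, ‖p‖ * ∫ y, ‖uu Q Φ p y‖ ^ 2 ∂ν
      = ∫ p, g p ∂((volume : Measure E3).prod ν) := by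
    rw [integral_prod _ hgi]
    simp only [hsl]
  rw [h2, ← hE, integral_eq_lintegral_of_nonneg_ae (Filter.Eventually.of_forall hg0)
    hgm.aestronglyMeasurable]
  refine (ENNReal.toReal_mono hfin hL).trans (le_of_eq ?_)
  rw [ENNReal.toReal_mul, ENNReal.toReal_pow, ENNReal.toReal_ofReal (integral_nonneg hpos)]

end Pool.Agent.P.MP_9f4f5e_mp.LT
end
end

-- part Pool.Agent.P.MP_9f4f5e_mp.LT.F4
section

set_option autoImplicit false
set_option linter.unusedSectionVars false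

open MeasureTheory Matrix
open scoped ENNReal ComplexOrder ComplexConjugate RealInnerProductSpace FourierTransform

noncomputable section

namespace Pool.Agent.P.MP_9f4f5e_mp.LT

variable {Y : Type} [MeasurableSpace Y] {ν : Measure Y} [SFinite ν] {Φ : E3 × Y → ℂ} {ρ : E3 → ℝ}

/-- translations in the first variable preserve the product measure -/
theorem mp_shift (k : E3) : MeasurePreserving (fun p : E3 × Y => (p.1 + k, p.2))
    ((volume : Measure E3).prod ν) ((volume : Measure E3).prod ν) :=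
  (measurePreserving_add_right (volume : Measure E3) k).prod (MeasurePreserving.id ν)

/-- One-sided averaging. Hint: integral_integral_swap on (volume.prod ν).prod (volume.restrict Q);
the integrand is measurable and bounded by ‖A (p.1 + k + s, p.2)‖^2 + ‖B p‖^2, integrable by
Tonelli and mp_shift. -/
theorem integral_uu_mul {A B : E3 × Y → ℂ} (hA : Measurable A) (hB : Measurable B)
    (hA2 : MemLp A 2 ((volume : Measure E3).prod ν))
    (hB2 : MemLp B 2 ((volume : Measure E3).prod ν)) {Q : Set E3} (hQ : volume Q ≠ ∞) (k : E3) :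
    ∫ p, uu Q A (p.1 + k) p.2 * B p ∂((volume : Measure E3).prod ν)
      = ∫ s in Q, ∫ p, A (p.1 + k + s, p.2) * B p ∂((volume : Measure E3).prod ν) := by
  have : IsFiniteMeasure ((volume : Measure E3).restrict Q) := isFiniteMeasure_restrict.2 hQ
  have hm : Measurable fun q : E3 × (E3 × Y) => A (q.2.1 + k + q.1, q.2.2) * B q.2 := by fun_prop
  have h1 : ∀ s : E3, MemLp (fun p : E3 × Y => A (p.1 + k + s, p.2)) 2
      ((volume : Measure E3).prod ν) := fun s => by
    simpa only [Function.comp_def, add_assoc] using hA2.comp_measurePreserving (mp_shift (k + s))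
  have h2 : ∀ s : E3, ∫ p, ‖A (p.1 + k + s, p.2)‖ ^ 2 ∂((volume : Measure E3).prod ν) =
      ∫ p, ‖A p‖ ^ 2 ∂((volume : Measure E3).prod ν) := fun s => by
    have := integral_map (μ := (volume : Measure E3).prod ν) (mp_shift (ν := ν) (k + s)).aemeasurable
      (f := fun p => ‖A p‖ ^ 2) (by fun_prop)
    rw [(mp_shift (ν := ν) (k + s)).map_eq] at this
    simpa only [add_assoc] using this.symm
  have h3 : ∀ s : E3, Integrable (fun p : E3 × Y => A (p.1 + k + s, p.2) * B p)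
      ((volume : Measure E3).prod ν) := fun s => (h1 s).integrable_mul hB2
  have hi : Integrable (fun q : E3 × (E3 × Y) => A (q.2.1 + k + q.1, q.2.2) * B q.2)
      (((volume : Measure E3).restrict Q).prod ((volume : Measure E3).prod ν)) := by
    refine (integrable_prod_iff hm.aestronglyMeasurable).2 ⟨Filter.Eventually.of_forall h3, ?_⟩
    refine Integrable.of_bound hm.norm.stronglyMeasurable.integral_prod_right'.aestronglyMeasurable
      (∫ p, ‖A p‖ ^ 2 ∂((volume : Measure E3).prod ν) + ∫ p, ‖B p‖ ^ 2 ∂((volume : Measure E3).prod ν))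
      (Filter.Eventually.of_forall fun s => ?_)
    have i1 := (memLp_two_iff_integrable_sq_norm (h1 s).1).1 (h1 s)
    have i2 := (memLp_two_iff_integrable_sq_norm hB2.1).1 hB2
    rw [Real.norm_of_nonneg (integral_nonneg fun _ => norm_nonneg _), ← h2 s, ← integral_add i1 i2]
    refine integral_mono (h3 s).norm (i1.add i2) fun p => ?_
    simp only [norm_mul]
    nlinarith [sq_nonneg (‖A (p.1 + k + s, p.2)‖ - ‖B p‖), norm_nonneg (A (p.1 + k + s, p.2)),
      norm_nonneg (B p)]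
  rw [integral_integral_swap (f := fun (s : E3) (p : E3 × Y) => A (p.1 + k + s, p.2) * B p) hi]
  simp only [uu, integral_mul_const]

end Pool.Agent.P.MP_9f4f5e_mp.LT
end
end

-- part Pool.Agent.P.MP_9f4f5e_mp.LT.F5
section

set_option autoImplicit false
set_option linter.unusedSectionVars false

open MeasureTheory Matrix
open scoped ENNReal ComplexOrder ComplexConjugate RealInnerProductSpace FourierTransform

noncomputable section

namespace Pool.Agent.P.MP_9f4f5e_mp.LT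

variable {Y : Type} [MeasurableSpace Y] {ν : Measure Y} [SFinite ν] {Φ : E3 × Y → ℂ} {ρ : E3 → ℝ}

theorem f5_swap {g : E3 → ℂ} (hg : Integrable g) {Q : Set E3} (hQ : volume Q ≠ ∞)
    {φ : E3 → E3 → ℝ} (hφ : Continuous fun p : E3 × E3 => φ p.1 p.2) :
    ∫ s in Q, ∫ z, g z * ec (φ s z) = ∫ z, g z * ∫ s in Q, ec (φ s z) := by
  have : IsFiniteMeasure ((volume : Measure E3).restrict Q) := ⟨by simpa using hQ.lt_top⟩
  have h1 : Integrable (fun p : E3 × E3 => (1 : ℂ) * g p.2)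
      (((volume : Measure E3).restrict Q).prod volume) :=
    (integrable_const (1 : ℂ)).mul_prod hg
  have h2 : Integrable (Function.uncurry fun (s : E3) (z : E3) => g z * ec (φ s z))
      (((volume : Measure E3).restrict Q).prod volume) := by
    have h3 := h1.mul_bdd (c := 1) (g := fun p : E3 × E3 => ec (φ p.1 p.2))
      (continuous_ec.comp hφ).aestronglyMeasurable
      (Filter.Eventually.of_forall fun p => (norm_ec _).le)
    refine h3.congr (Filter.Eventually.of_forall fun p => ?_)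
    simp [Function.uncurry]
  rw [integral_integral_swap h2]
  refine integral_congr_ae (Filter.Eventually.of_forall fun z => ?_)
  simp only
  rw [integral_const_mul]

theorem f5_ww_meas (Q : Set E3) : StronglyMeasurable (ww Q) := by
  have h : StronglyMeasurable fun p : E3 × E3 => ec (-⟪p.2, p.1⟫) := by
    refine Continuous.stronglyMeasurable ?_
    fun_prop
  exact h.integral_prod_right' (ν := (volume : Measure E3).restrict Q)

theorem f5_ww_le {Q : Set E3} (hQ : volume Q ≠ ∞) (z : E3) : ‖ww Q z‖ ≤ volume.real Q := by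
  have h := norm_setIntegral_le_of_norm_le_const (μ := (volume : Measure E3)) (s := Q)
    (f := fun s : E3 => ec (-⟪s, z⟫)) (C := 1) hQ.lt_top fun s _ => (norm_ec _).le
  simpa [ww] using h

theorem f5_conj_ww (Q : Set E3) (z : E3) : ∫ s in Q, ec ⟪s, z⟫ = conj (ww Q z) := by
  rw [ww, ← integral_conj]
  refine integral_congr_ae (Filter.Eventually.of_forall fun s => ?_)
  simp only
  rw [← ec_neg, neg_neg]

/-- Fubini on the density side. Hint: ec_add, ec_neg, norm_ec, integral_integral_swap twice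
(bounded by ρ times the finite measure), integral_conj, Complex.mul_conj. -/
theorem integral_rho_ww (hρ : Integrable ρ) (hm : Measurable ρ) {Q : Set E3}
    (hQ : volume Q ≠ ∞) (k : E3) :
    ∫ s in Q, ∫ s' in Q, ∫ z, (ρ z : ℂ) * ec (-⟪k + s - s', z⟫)
      = ∫ z, ((ρ z * ‖ww Q z‖ ^ 2 : ℝ) : ℂ) * ec (-⟪k, z⟫) := by
  have hρ' : Integrable fun z => (ρ z : ℂ) := hρ.ofReal
  have hb : ∀ v : E3, ∀ {g : E3 → ℂ}, Integrable g →
      Integrable fun z => g z * ec (-⟪v, z⟫) := fun v g hg =>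
    hg.mul_bdd (c := 1) (Continuous.aestronglyMeasurable (by fun_prop))
      (Filter.Eventually.of_forall fun z => (norm_ec _).le)
  have hg : Integrable fun z => (ρ z : ℂ) * ec (-⟪k, z⟫) * conj (ww Q z) :=
    (hb k hρ').mul_bdd (c := volume.real Q)
      (Complex.continuous_conj.comp_stronglyMeasurable (f5_ww_meas Q)).aestronglyMeasurable
      (Filter.Eventually.of_forall fun z => by
        rw [Complex.norm_conj]; exact f5_ww_le hQ z)
  have h1 : ∀ s : E3, ∫ s' in Q, ∫ z, (ρ z : ℂ) * ec (-⟪k + s - s', z⟫)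
      = ∫ z, ((ρ z : ℂ) * ec (-⟪k, z⟫) * conj (ww Q z)) * ec (-⟪s, z⟫) := by
    intro s
    have h2 := f5_swap (hb s (hb k hρ')) hQ (φ := fun s' z => ⟪s', z⟫) (by fun_prop)
    have h3 : ∀ s' z : E3, (ρ z : ℂ) * ec (-⟪k + s - s', z⟫)
        = (ρ z : ℂ) * ec (-⟪k, z⟫) * ec (-⟪s, z⟫) * ec ⟪s', z⟫ := by
      intro s' z
      rw [mul_assoc, mul_assoc, ← ec_add, ← ec_add, inner_sub_left, inner_add_left]
      congr 2
      ring
    simp only [h3]
    rw [h2]
    refine integral_congr_ae (Filter.Eventually.of_forall fun z => ?_)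
    simp only
    rw [f5_conj_ww]
    ring
  simp only [h1]
  rw [f5_swap hg hQ (φ := fun s z => -⟪s, z⟫) (by fun_prop)]
  refine integral_congr_ae (Filter.Eventually.of_forall fun z => ?_)
  simp only
  have h4 : ∫ s in Q, ec (-⟪s, z⟫) = ww Q z := rfl
  have h5 : ((‖ww Q z‖ ^ 2 : ℝ) : ℂ) = ww Q z * conj (ww Q z) := by
    rw [Complex.mul_conj, Complex.normSq_eq_norm_sq]
  rw [h4, Complex.ofReal_mul, h5]
  ring

theorem f5_shift {G : E3 × Y → ℂ} (hG : Measurable G) (k : E3) :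
    ∫ p, G (p.1 + k, p.2) ∂((volume : Measure E3).prod ν)
      = ∫ p, G p ∂((volume : Measure E3).prod ν) := by
  have h := mp_shift (ν := ν) k
  rw [← integral_map h.measurable.aemeasurable hG.aestronglyMeasurable, h.map_eq]

theorem f5_memLp_conj {G : E3 × Y → ℂ} (hG : MemLp G 2 ((volume : Measure E3).prod ν)) :
    MemLp (fun p => conj (G p)) 2 ((volume : Measure E3).prod ν) :=
  hG.congr_norm (Complex.continuous_conj.comp_aestronglyMeasurable hG.1)
    (Filter.Eventually.of_forall fun p => (Complex.norm_conj _).symm)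

/-- The averaged Gram entries. Hint: substitute p = b - t (integral_sub_left_eq_self), k = a - b,
integral_prod (integrable by Data.memLp_uu_prod, mp_shift, MemLp.integrable_mul);
integral_uu_mul twice (conj (uu Q Φ p y) = uu Q (conj Φ) p y by integral_conj), shift by mp_shift,
D.corr, integral_rho_ww. -/
theorem Data.corr_uu (D : Data ν Φ ρ) {Q : Set E3} (hQ : volume Q ≠ ∞) (a b : E3) :
    Integrable (fun t : E3 => ∫ y, uu Q Φ (a - t) y * conj (uu Q Φ (b - t) y) ∂ν) ∧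
      ∫ t : E3, ∫ y, uu Q Φ (a - t) y * conj (uu Q Φ (b - t) y) ∂ν
        = ∫ z, ((ρ z * ‖ww Q z‖ ^ 2 : ℝ) : ℂ) * ec (-⟪a - b, z⟫) := by
  have hU := D.memLp_uu_prod hQ
  have hUm := measurable_uu D.meas Q
  have hΦc : Measurable fun p => conj (Φ p) := Complex.continuous_conj.measurable.comp D.meas
  have hsh : ∀ v : E3, Measurable fun p : E3 × Y => (p.1 + v, p.2) := fun v =>
    (mp_shift (ν := ν) v).measurable
  have hH : Integrable (fun p : E3 × Y => uu Q Φ (p.1 + (a - b)) p.2 * conj (uu Q Φ p.1 p.2))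
      ((volume : Measure E3).prod ν) :=
    (hU.comp_measurePreserving (mp_shift (a - b))).integrable_mul (f5_memLp_conj hU)
  have hab : ∀ t : E3, a - t = b - t + (a - b) := fun t => by abel
  have hF := hH.integral_prod_left
  have hFt := hF.comp_sub_left b
  have hfun : (fun t : E3 => ∫ y, uu Q Φ (a - t) y * conj (uu Q Φ (b - t) y) ∂ν)
      = fun t : E3 => ∫ y, uu Q Φ (b - t + (a - b)) y * conj (uu Q Φ (b - t) y) ∂ν :=
    funext fun t => by rw [← hab t]
  rw [hfun]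
  refine ⟨hFt, ?_⟩
  rw [integral_sub_left_eq_self
    (fun x : E3 => ∫ y, uu Q Φ (x + (a - b)) y * conj (uu Q Φ x y) ∂ν) volume b,
    ← integral_prod _ hH,
    integral_uu_mul (B := fun p : E3 × Y => conj (uu Q Φ p.1 p.2)) D.meas
      (Complex.continuous_conj.measurable.comp hUm) D.memLp
      (f5_memLp_conj hU) hQ (a - b),
    ← integral_rho_ww D.rho_int D.rho_meas hQ (a - b)]
  refine integral_congr_ae (Filter.Eventually.of_forall fun s => ?_)
  simp only
  have h1 : ∀ p : E3 × Y, Φ (p.1 + (a - b) + s, p.2) * conj (uu Q Φ p.1 p.2)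
      = uu Q (fun p => conj (Φ p)) (p.1 + 0) p.2 * Φ (p.1 + (a - b + s), p.2) := by
    intro p
    simp only [uu, add_zero, add_assoc]
    rw [integral_conj, mul_comm]
  simp only [h1]
  rw [integral_uu_mul hΦc (B := fun p : E3 × Y => Φ (p.1 + (a - b + s), p.2))
    (D.meas.comp (hsh _)) (f5_memLp_conj D.memLp)
    (D.memLp.comp_measurePreserving (mp_shift (a - b + s))) hQ 0]
  refine integral_congr_ae (Filter.Eventually.of_forall fun s' => ?_)
  simp only
  rw [← D.corr, ← f5_shift (G := fun p => Φ (p.1 + (a - b + s - s'), p.2) * conj (Φ p))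
    ((D.meas.comp (hsh _)).mul hΦc) s']
  refine integral_congr_ae (Filter.Eventually.of_forall fun p => ?_)
  have h2 : p.1 + s' + (a - b + s - s') = p.1 + (a - b + s) := by abel
  simp only [h2, add_zero]
  rw [mul_comm]

end Pool.Agent.P.MP_9f4f5e_mp.LT
end
end

-- part Pool.Agent.P.MP_9f4f5e_mp.LT.F6
section

set_option autoImplicit false
set_option linter.unusedSectionVars false

open MeasureTheory Matrix
open scoped ENNReal ComplexOrder ComplexConjugate RealInnerProductSpace FourierTransform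

noncomputable section

namespace Pool.Agent.P.MP_9f4f5e_mp.LT

variable {ι : Type} [Fintype ι] [DecidableEq ι]

variable {Y : Type} [MeasurableSpace Y] {ν : Measure Y} [SFinite ν] {Φ : E3 × Y → ℂ} {ρ : E3 → ℝ}

theorem f6_trace (G : ι → ι → ℂ) (n d : ι → ℝ) (hG : ∀ i, G i i = (n i : ℂ)) (r : ℝ)
    (W : Matrix ι ι ℂ) :
    ((Matrix.of fun i j => (r : ℂ) * G i j) * (W - dg d)).trace.re
      = r * (∑ i, ∑ j, G i j * W j i).re - r * ∑ i, d i * n i := by
  have h1 : ((Matrix.of fun i j => (r : ℂ) * G i j) * W).trace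
      = (r : ℂ) * ∑ i, ∑ j, G i j * W j i := by
    simp only [Matrix.trace, Matrix.diag_apply, Matrix.mul_apply, Matrix.of_apply, Finset.mul_sum,
      mul_assoc]
  have h2 : ((Matrix.of fun i j => (r : ℂ) * G i j) * dg d).trace
      = ((r * ∑ i, d i * n i : ℝ) : ℂ) := by
    simp only [Matrix.trace, Matrix.diag_apply, dg, Matrix.mul_diagonal, Matrix.of_apply, hG]
    push_cast
    rw [Finset.mul_sum]
    exact Finset.sum_congr rfl fun i _ => by ring
  rw [Matrix.mul_sub, Matrix.trace_sub, Complex.sub_re, h1, h2, Complex.ofReal_re,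
    Complex.re_ofReal_mul]

theorem f6_diag (u : Y → ℂ) :
    ∫ y, u y * conj (u y) ∂ν = ((∫ y, ‖u y‖ ^ 2 ∂ν : ℝ) : ℂ) := by
  rw [← integral_complex_ofReal]
  refine integral_congr_ae (Filter.Eventually.of_forall fun y => ?_)
  simp only [Complex.mul_conj, Complex.normSq_eq_norm_sq]

theorem f6_le {φ ψ : E3 → ℝ} (hφ : Integrable φ) (h : ∀ t, φ t ≤ ψ t) {c : ℝ} (hc : 0 ≤ c)
    (hψ : ∫⁻ t, ENNReal.ofReal (ψ t) ≤ ENNReal.ofReal c) : ∫ t, φ t ≤ c := by
  rw [integral_eq_lintegral_pos_part_sub_lintegral_neg_part hφ]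
  have h1 : (∫⁻ t, ENNReal.ofReal (φ t)).toReal ≤ c :=
    ENNReal.toReal_le_of_le_ofReal hc
      ((lintegral_mono fun t => ENNReal.ofReal_le_ofReal (h t)).trans hψ)
  linarith [ENNReal.toReal_nonneg (a := ∫⁻ t, ENNReal.ofReal (-φ t))]

/-- Finite level inequality. Hint: v = (volume Q).toReal,
g t = Matrix.of fun i j => v⁻¹ * ∫ y, uu (a i - t) y * conj (uu (a j - t) y); qf_gram, Data.gram_le,
trace_mul_le_tp_one give φ t := (g t * (W - dg ‖a i - t‖)).trace.re ≤ tp 1 (...);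
φ t = (∑ i j, g t i j * W j i).re - ∑ i, ‖a i - t‖ * (v⁻¹ * ∫ y, ‖uu‖^2) is integrable
(Data.corr_uu, Data.kin_le); ofReal (∫ φ) ≤ ∫⁻ ofReal φ ≤ lt_main. -/
theorem Data.finite_level (D : Data ν Φ ρ) {Q : Set E3} (hQm : MeasurableSet Q)
    (hQ : volume Q ≠ ∞) (hQ0 : volume Q ≠ 0) {r : ℝ} (hr0 : 0 ≤ r) (hr : ∀ s ∈ Q, ‖s‖ ≤ r)
    (a : ι → E3) (hdis : ∀ i j, i ≠ j → ∀ s ∈ Q, ∀ s' ∈ Q, a i + s ≠ a j + s')
    {W : Matrix ι ι ℂ} (hW : W.IsHermitian) :
    (volume Q).toReal⁻¹ *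
        (∑ i, ∑ j, (∫ z, ((ρ z * ‖ww Q z‖ ^ 2 : ℝ) : ℂ) * ec (-⟪a i - a j, z⟫)) * W j i).re
      ≤ Fintype.card ι * (volume Q).toReal
          * (∫ p, ‖p.1‖ * ‖Φ p‖ ^ 2 ∂((volume : Measure E3).prod ν)
            + r * ∫ p, ‖Φ p‖ ^ 2 ∂((volume : Measure E3).prod ν))
        + 711 / 400 * tp 4 W := by
  have hv : 0 < (volume Q).toReal := ENNReal.toReal_pos hQ0 hQ
  have hC := fun i j => D.corr_uu hQ (a i) (a j)
  have hk := fun i => D.kin_le hQm hQ hr0 hr (a i)
  have hpt : ∀ t : E3, (volume Q).toReal⁻¹ *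
      (∑ i, ∑ j, (∫ y, uu Q Φ (a i - t) y * conj (uu Q Φ (a j - t) y) ∂ν) * W j i).re -
        (volume Q).toReal⁻¹ * ∑ i, ‖a i - t‖ * ∫ y, ‖uu Q Φ (a i - t) y‖ ^ 2 ∂ν
      ≤ tp 1 (W - dg fun i => ‖a i - t‖) := fun t => by
    rw [← f6_trace (fun i j => ∫ y, uu Q Φ (a i - t) y * conj (uu Q Φ (a j - t) y) ∂ν) _ _
      (fun i => f6_diag _)]
    have hq := qf_gram (u := fun i => uu Q Φ (a i - t)) (fun i => D.memLp_uu hQ _)
      (volume Q).toReal⁻¹
    refine trace_mul_le_tp_one (hW.sub (dg_isHermitian _)) (fun c => ?_) fun c => ?_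
    · rw [hq]
      exact mul_nonneg (inv_nonneg.2 hv.le) (integral_nonneg fun y => by positivity)
    · rw [hq, inv_mul_le_iff₀ hv]
      exact D.gram_le hQm hQ a hdis t c
  have hA : Integrable fun t : E3 =>
      ∑ i, ∑ j, (∫ y, uu Q Φ (a i - t) y * conj (uu Q Φ (a j - t) y) ∂ν) * W j i :=
    integrable_finset_sum _ fun i _ => integrable_finset_sum _ fun j _ => (hC i j).1.mul_const _
  have hA' : Integrable fun t : E3 =>
      (∑ i, ∑ j, (∫ y, uu Q Φ (a i - t) y * conj (uu Q Φ (a j - t) y) ∂ν) * W j i).re := hA.re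
  have hB : Integrable fun t : E3 => ∑ i, ‖a i - t‖ * ∫ y, ‖uu Q Φ (a i - t) y‖ ^ 2 ∂ν :=
    integrable_finset_sum _ fun i _ => (hk i).1
  have key := f6_le ((hA'.const_mul _).sub (hB.const_mul _)) hpt
    (mul_nonneg (by norm_num) (tp_nonneg hW 4)) (lt_main hW a)
  have eA : ∫ t : E3,
      (∑ i, ∑ j, (∫ y, uu Q Φ (a i - t) y * conj (uu Q Φ (a j - t) y) ∂ν) * W j i).re
      = (∑ i, ∑ j, (∫ z, ((ρ z * ‖ww Q z‖ ^ 2 : ℝ) : ℂ) * ec (-⟪a i - a j, z⟫)) * W j i).re := by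
    refine (integral_re hA).trans (congrArg Complex.re ?_)
    rw [integral_finset_sum _ fun i _ =>
      integrable_finset_sum _ fun j _ => (hC i j).1.mul_const _]
    refine Finset.sum_congr rfl fun i _ => ?_
    rw [integral_finset_sum _ fun j _ => (hC i j).1.mul_const _]
    refine Finset.sum_congr rfl fun j _ => ?_
    rw [integral_mul_const, (hC i j).2]
  have eB : ∫ t : E3, ∑ i, ‖a i - t‖ * ∫ y, ‖uu Q Φ (a i - t) y‖ ^ 2 ∂ν
      ≤ Fintype.card ι * ((volume Q).toReal ^ 2 *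
        (∫ p, ‖p.1‖ * ‖Φ p‖ ^ 2 ∂((volume : Measure E3).prod ν)
          + r * ∫ p, ‖Φ p‖ ^ 2 ∂((volume : Measure E3).prod ν))) := by
    rw [integral_finset_sum _ fun i _ => (hk i).1]
    refine (Finset.sum_le_sum fun i _ => (hk i).2).trans_eq ?_
    rw [Finset.sum_const, Finset.card_univ, nsmul_eq_mul]
  simp only [Pi.sub_apply] at key
  rw [integral_sub (hA'.const_mul _) (hB.const_mul _), integral_const_mul, integral_const_mul,
    eA] at key
  have e3 := mul_le_mul_of_nonneg_left eB (inv_nonneg.2 hv.le)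
  have e4 : ∀ x n : ℝ, (volume Q).toReal⁻¹ * (n * ((volume Q).toReal ^ 2 * x))
      = n * (volume Q).toReal * x := fun x n => by field_simp
  rw [e4] at e3
  linarith

end Pool.Agent.P.MP_9f4f5e_mp.LT
end
end

-- part Pool.Agent.P.MP_9f4f5e_mp.LT.G5
section

set_option autoImplicit false
set_option linter.unusedSectionVars false

open MeasureTheory Matrix
open scoped ENNReal ComplexOrder ComplexConjugate RealInnerProductSpace FourierTransform

noncomputable section

namespace Pool.Agent.P.MP_9f4f5e_mp.LT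

theorem ker_nonneg (m : ℕ) {h : ℝ} (hh : 0 < h) (y : E3) : 0 ≤ ker m h y := by
  unfold ker
  exact mul_nonneg (by positivity) (Finset.prod_nonneg fun k _ => fej_nonneg _ _)

theorem ker_le (m : ℕ) {h : ℝ} (hh : 0 < h) (y : E3) : ker m h y ≤ h ^ 3 * m ^ 3 := by
  unfold ker
  refine mul_le_mul_of_nonneg_left ?_ (by positivity)
  calc ∏ k, fej m (h * y k) ≤ ∏ _k : Fin 3, (m : ℝ) :=
        Finset.prod_le_prod (fun k _ => fej_nonneg _ _) (fun k _ => fej_le _ _)
    _ = (m : ℝ) ^ 3 := by simp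

@[fun_prop] theorem continuous_ker (m : ℕ) (h : ℝ) : Continuous (ker m h) := by
  unfold ker
  fun_prop

/-- Hint: integral_box, substitution s ↦ h s in each coordinate. -/
theorem integral_ker_box (m : ℕ) {h δ : ℝ} (hh : 0 < h) (hδ : 0 < δ) :
    ∫ y in {y : E3 | ∀ k, y k ∈ Set.Ioo (-δ) δ}, ker m h y
      = (∫ s in Set.Ioo (-(h * δ)) (h * δ), fej m s) ^ 3 := by
  have h1 : ∀ y : E3, ker m h y = ∏ k : Fin 3, (h * fej m (h * y k)) := by
    intro y
    unfold ker
    rw [Finset.prod_mul_distrib]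
    simp
  simp_rw [h1]
  rw [integral_box (𝕜 := ℝ) (fun _ => Set.Ioo (-δ) δ) (fun _ => measurableSet_Ioo)
    (fun _ s => h * fej m (h * s))]
  have hδ2 : 0 < h * δ := mul_pos hh hδ
  have h2 : ∫ s in Set.Ioo (-δ) δ, h * fej m (h * s)
      = ∫ s in Set.Ioo (-(h * δ)) (h * δ), fej m s := by
    rw [← integral_Ioc_eq_integral_Ioo, ← integral_Ioc_eq_integral_Ioo,
      ← intervalIntegral.integral_of_le (by linarith),
      ← intervalIntegral.integral_of_le (by linarith), intervalIntegral.integral_const_mul,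
      intervalIntegral.mul_integral_comp_mul_left, mul_neg]
  simp only [h2, Finset.prod_const, Finset.card_univ, Fintype.card_fin]

theorem g5_norm_lt {δ : ℝ} (hδ : 0 < δ) {y : E3} (hy : ∀ k, y k ∈ Set.Ioo (-δ) δ) :
    ‖y‖ < 2 * δ := by
  have h1 : ∀ k, y k ^ 2 ≤ δ ^ 2 := fun k => sq_le_sq' (hy k).1.le (hy k).2.le
  refine lt_of_pow_lt_pow_left₀ 2 (by positivity) ?_
  rw [EuclideanSpace.real_norm_sq_eq, Fin.sum_univ_three]
  nlinarith [h1 0, h1 1, h1 2, mul_pos hδ hδ]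

theorem g5_lower (m : ℕ) {h δ c : ℝ} (hh : 0 < h) (hδ : 0 < δ) {V : E3 → ℝ}
    (h0 : ∀ x, 0 ≤ V x) (hi : Integrable V) (z : E3)
    (hV : ∀ y : E3, (∀ k, y k ∈ Set.Ioo (-δ) δ) → c ≤ V (y + z)) :
    c * (∫ s in Set.Ioo (-(h * δ)) (h * δ), fej m s) ^ 3 ≤ ∫ x, V x * ker m h (x - z) := by
  have hB : MeasurableSet {y : E3 | ∀ k, y k ∈ Set.Ioo (-δ) δ} := by
    rw [Set.ofPred_forall]
    exact MeasurableSet.iInter fun k =>
      measurableSet_Ioo.preimage (by fun_prop : Continuous fun y : E3 => y k).measurable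
  have hfin : volume {y : E3 | ∀ k, y k ∈ Set.Ioo (-δ) δ} ≠ ∞ := by
    refine ne_top_of_le_ne_top (measure_ball_lt_top (x := (0 : E3)) (r := 2 * δ)).ne
      (measure_mono fun y hy => ?_)
    rw [mem_ball_zero_iff]
    exact g5_norm_lt hδ hy
  have hbd : ∀ y : E3, ‖ker m h y‖ ≤ h ^ 3 * m ^ 3 := fun y => by
    rw [Real.norm_of_nonneg (ker_nonneg m hh y)]
    exact ker_le m hh y
  have hI : Integrable fun y => V (y + z) * ker m h y :=
    (hi.comp_add_right z).mul_bdd (continuous_ker m h).aestronglyMeasurable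
      (Filter.Eventually.of_forall hbd)
  have hK : IntegrableOn (ker m h) {y : E3 | ∀ k, y k ∈ Set.Ioo (-δ) δ} :=
    Measure.integrableOn_of_bounded hfin (continuous_ker m h).aestronglyMeasurable
      (Filter.Eventually.of_forall hbd)
  have h1 : ∫ x, V x * ker m h (x - z) = ∫ y, V (y + z) * ker m h y := by
    rw [← integral_add_right_eq_self (fun x => V x * ker m h (x - z)) z]
    simp only [add_sub_cancel_right]
  rw [h1, ← integral_ker_box m hh hδ, ← integral_const_mul]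
  refine le_trans (setIntegral_mono_on (hK.const_mul c) hI.integrableOn hB fun y hy => ?_)
    (setIntegral_le_integral hI (Filter.Eventually.of_forall fun y => ?_))
  · exact mul_le_mul_of_nonneg_right (hV y hy) (ker_nonneg m hh y)
  · exact mul_nonneg (h0 _) (ker_nonneg m hh y)

/-- Approximate identity, lower bound. Hint: le_of_forall_lt-type argument: for 0 ≤ c < V z there
is δ > 0 with h δ ≤ 1/2 and c < V on z + box δ (‖y‖ ≤ 2 δ on the box); then
∫ V x * ker (x - z) ≥ c * ∫ box, ker ≥ c * (1 - 1/(4 m (hδ)^2))^3 for large m, which tends to c;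
Filter.le_liminf_of_le, liminf_le_liminf, Tendsto.liminf_eq. -/
theorem le_liminf_ker {h : ℝ} (hh : 0 < h) {V : E3 → ℝ} (hl : LowerSemicontinuous V)
    (h0 : ∀ x, 0 ≤ V x) (hi : Integrable V) (z : E3) :
    ENNReal.ofReal (V z) ≤ Filter.liminf
      (fun m : ℕ => ENNReal.ofReal (∫ x, V x * ker (m + 1) h (x - z))) Filter.atTop := by
  refine le_of_forall_lt_imp_le_of_dense fun a ha => ?_
  have hat : a ≠ ∞ := ne_top_of_lt ha
  have hc : a.toReal < V z := (ENNReal.lt_ofReal_iff_toReal_lt hat).1 ha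
  obtain ⟨c, hc1, hc2⟩ := exists_between hc
  have hc0 : 0 ≤ c := (ENNReal.toReal_nonneg).trans hc1.le
  obtain ⟨ε, hε, hball⟩ := Metric.eventually_nhds_iff.1 (hl z c hc2)
  obtain ⟨δ, hδ⟩ : ∃ δ, δ = min (ε / 2) (1 / (2 * h)) := ⟨_, rfl⟩
  have hδ0 : 0 < δ := hδ ▸ lt_min (by linarith) (by positivity)
  have hδ1 : δ ≤ ε / 2 := hδ ▸ min_le_left _ _
  have hδ2 : h * δ ≤ 1 / 2 := by
    have h1 : δ ≤ 1 / (2 * h) := hδ ▸ min_le_right _ _
    calc h * δ ≤ h * (1 / (2 * h)) := mul_le_mul_of_nonneg_left h1 hh.le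
      _ = 1 / 2 := by field_simp
  have hhδ : 0 < h * δ := mul_pos hh hδ0
  have hV : ∀ y : E3, (∀ k, y k ∈ Set.Ioo (-δ) δ) → c ≤ V (y + z) := by
    intro y hy
    refine (hball ?_).le
    rw [dist_eq_norm, add_sub_cancel_right]
    linarith [g5_norm_lt hδ0 hy]
  have ht : Filter.Tendsto (fun m : ℕ => 1 - 1 / (4 * ((m + 1 : ℕ) : ℝ) * (h * δ) ^ 2))
      Filter.atTop (nhds 1) := by
    have h1 : Filter.Tendsto (fun m : ℕ => 1 - (1 / (4 * (h * δ) ^ 2)) * (1 / ((m : ℝ) + 1)))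
        Filter.atTop (nhds (1 - (1 / (4 * (h * δ) ^ 2)) * 0)) :=
      (tendsto_one_div_add_atTop_nhds_zero_nat.const_mul _).const_sub _
    rw [mul_zero, sub_zero] at h1
    refine h1.congr fun m => ?_
    push_cast
    field_simp
  have ht2 : Filter.Tendsto
      (fun m : ℕ => c * (1 - 1 / (4 * ((m + 1 : ℕ) : ℝ) * (h * δ) ^ 2)) ^ 3)
      Filter.atTop (nhds c) := by
    have := (ht.pow 3).const_mul c
    rwa [one_pow, mul_one] at this
  refine Filter.le_liminf_of_le (h := ?_)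
  filter_upwards [ht.eventually (lt_mem_nhds one_pos), ht2.eventually (lt_mem_nhds hc1)]
    with m hm1 hm2
  rw [ENNReal.le_ofReal_iff_toReal_le hat
    (integral_nonneg fun x => mul_nonneg (h0 x) (ker_nonneg _ hh _))]
  refine hm2.le.trans (le_trans ?_ (g5_lower (m + 1) hh hδ0 h0 hi z hV))
  refine mul_le_mul_of_nonneg_left ?_ hc0
  exact pow_le_pow_left₀ hm1.le (fej_mass (Nat.succ_pos m) hhδ hδ2) 3

end Pool.Agent.P.MP_9f4f5e_mp.LT
end
end

-- part Pool.Agent.P.MP_9f4f5e_mp.LT.G6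
section

set_option autoImplicit false
set_option linter.unusedSectionVars false

open MeasureTheory Matrix
open scoped ENNReal ComplexOrder ComplexConjugate RealInnerProductSpace FourierTransform

noncomputable section

namespace Pool.Agent.P.MP_9f4f5e_mp.LT

variable {Y : Type} [MeasurableSpace Y] {ν : Measure Y} [SFinite ν] {Φ : E3 × Y → ℂ} {ρ : E3 → ℝ}

theorem g6_integrable {h : ℝ} {V : E3 → ℝ} (hV : Measurable V) {M : ℝ} (h0 : ∀ x, 0 ≤ V x)
    (hM : ∀ x, V x ≤ M) (hs : ∀ x, x ∉ cell h → V x = 0) : Integrable V := by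
  have h1 : IntegrableOn V (cell h) volume :=
    Measure.integrableOn_of_bounded (volume_cell_ne_top h) hV.aestronglyMeasurable
      (M := M) (Filter.Eventually.of_forall fun x => by
        rw [Real.norm_eq_abs, abs_of_nonneg (h0 x)]
        exact hM x)
  exact h1.integrable_of_forall_notMem_eq_zero hs

theorem g6_measurable_ec (a : E3) : Measurable fun x : E3 => ec ⟪a, x⟫ :=
  (continuous_ec.comp (continuous_const.inner continuous_id)).measurable

theorem g6_measurable_ec_neg (a : E3) : Measurable fun x : E3 => ec (-⟪a, x⟫) :=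
  (continuous_ec.comp (continuous_const.inner continuous_id).neg).measurable

theorem g6_integrable_mul {A : E3 → ℝ} (hA : Integrable A) {e : E3 → ℂ} (he : Measurable e)
    (he1 : ∀ x, ‖e x‖ = 1) : Integrable fun x => (A x : ℂ) * e x :=
  hA.ofReal.mul_bdd (c := 1) he.aestronglyMeasurable
    (Filter.Eventually.of_forall fun x => (he1 x).le)

theorem g6_inner {h : ℝ} {m : ℕ} (hm : 0 < m) {V : E3 → ℝ} (hi : Integrable V) (z : E3) :
    ∑ i : Fin 3 → Fin m, ∑ j : Fin 3 → Fin m, ec (-⟪lat h i - lat h j, z⟫)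
        * ((h : ℂ) ^ 3 * ∫ x, (V x : ℂ) * ec ⟪lat h i - lat h j, x⟫)
      = ((m ^ 3 * ∫ x, V x * ker m h (x - z) : ℝ) : ℂ) := by
  have h1 : ∀ i j : Fin 3 → Fin m, ec (-⟪lat h i - lat h j, z⟫)
        * ((h : ℂ) ^ 3 * ∫ x, (V x : ℂ) * ec ⟪lat h i - lat h j, x⟫)
      = ∫ x, (h : ℂ) ^ 3 * ((V x : ℂ) * ec ⟪lat h i - lat h j, x - z⟫) := by
    intro i j
    rw [← integral_const_mul, ← integral_const_mul]
    refine integral_congr_ae (Filter.Eventually.of_forall fun x => ?_)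
    simp only
    rw [inner_sub_right (lat h i - lat h j) x z, sub_eq_add_neg (⟪lat h i - lat h j, x⟫), ec_add]
    ring
  have h2 : ∀ i j : Fin 3 → Fin m, Integrable
      fun x => (h : ℂ) ^ 3 * ((V x : ℂ) * ec ⟪lat h i - lat h j, x - z⟫) := by
    intro i j
    refine Integrable.const_mul ?_ _
    exact g6_integrable_mul hi
      ((g6_measurable_ec _).comp (measurable_id.sub_const z)) fun x => norm_ec _
  simp only [h1]
  rw [← integral_const_mul, ← integral_complex_ofReal]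
  rw [Finset.sum_congr rfl fun i _ => (integral_finsetSum Finset.univ fun j _ => h2 i j).symm,
    ← integral_finsetSum Finset.univ
      fun i _ => integrable_finsetSum Finset.univ fun j _ => h2 i j]
  refine integral_congr_ae (Filter.Eventually.of_forall fun x => ?_)
  have h3 := dirichlet_eq h hm (x - z)
  simp only [← Finset.mul_sum]
  rw [mul_left_comm, h3]
  push_cast
  ring

theorem g6_double {h : ℝ} {m : ℕ} (hm : 0 < m) {V : E3 → ℝ} (hi : Integrable V) {A : E3 → ℝ}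
    (hA : Integrable A) :
    ∑ i : Fin 3 → Fin m, ∑ j : Fin 3 → Fin m, (∫ z, (A z : ℂ) * ec (-⟪lat h i - lat h j, z⟫))
        * ((h : ℂ) ^ 3 * ∫ x, (V x : ℂ) * ec ⟪lat h i - lat h j, x⟫)
      = ((m ^ 3 * ∫ z, A z * ∫ x, V x * ker m h (x - z) : ℝ) : ℂ) := by
  have h2 : ∀ i j : Fin 3 → Fin m, Integrable
      fun z => (A z : ℂ) * ec (-⟪lat h i - lat h j, z⟫)
        * ((h : ℂ) ^ 3 * ∫ x, (V x : ℂ) * ec ⟪lat h i - lat h j, x⟫) := by
    intro i j
    exact (g6_integrable_mul hA (g6_measurable_ec_neg _) fun x => norm_ec _).mul_const _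
  simp only [← integral_mul_const]
  rw [← integral_const_mul, ← integral_complex_ofReal]
  rw [Finset.sum_congr rfl fun i _ => (integral_finsetSum Finset.univ fun j _ => h2 i j).symm,
    ← integral_finsetSum Finset.univ
      fun i _ => integrable_finsetSum Finset.univ fun j _ => h2 i j]
  refine integral_congr_ae (Filter.Eventually.of_forall fun z => ?_)
  have h3 := g6_inner (h := h) hm hi z
  simp only [mul_assoc (A z : ℂ), ← Finset.mul_sum]
  rw [h3]
  push_cast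
  ring

theorem g6_entry {h : ℝ} (hh : 0 < h) {V : E3 → ℝ} (hs : ∀ x, x ∉ cell h → V x = 0) (a b : E3) :
    ∫ x, (V x : ℂ) * (ec (-⟪b, x⟫) * conj (ec (-⟪a, x⟫)))
        ∂(ENNReal.ofReal (h ^ 3) • (volume : Measure E3).restrict (cell h))
      = (h : ℂ) ^ 3 * ∫ x, (V x : ℂ) * ec ⟪a - b, x⟫ := by
  rw [integral_smul_measure, ENNReal.toReal_ofReal (by positivity),
    setIntegral_eq_integral_of_forall_compl_eq_zero (fun x hx => by simp [hs x hx]),
    Complex.real_smul, Complex.ofReal_pow]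
  congr 1
  refine integral_congr_ae (Filter.Eventually.of_forall fun x => ?_)
  simp only
  rw [← ec_neg, neg_neg, ← ec_add, inner_sub_left]
  congr 2
  ring

/-- Fixed lattice. Hint: ι = Fin 3 → Fin m, card = m^3; μ = ofReal (h^3) • volume.restrict (cell h),
e x i = ec (-⟪lat h i, x⟫), berezin_lieb with cell_frame; Data.finite_level with Q = cube h,
r = 2 h, a = lat h. W j i = h^3 * ∫ x, V x * ec ⟪lat i - lat j, x⟫ (V vanishes off the cell).
Move W j i and the sums inside the z-integral, then inside the x-integral, dirichlet_eq at x - z: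
the double sum is ∫ z, ρ z ‖ww z‖^2 * (m^3 * ∫ x, V x * ker m h (x - z)). No Fubini is needed.
Divide by m^3 h^3; ofReal_integral_eq_lintegral_ofReal (integrable: bounded by a multiple of ρ). -/
theorem Data.fixed_level (D : Data ν Φ ρ) {h : ℝ} (hh : 0 < h) {m : ℕ} (hm : 0 < m)
    {V : E3 → ℝ} (hV : Measurable V) {M : ℝ} (h0 : ∀ x, 0 ≤ V x) (hM : ∀ x, V x ≤ M)
    (hs : ∀ x, x ∉ cell h → V x = 0) :
    ∫⁻ z, ENNReal.ofReal (ρ z * (‖ww (cube h) z‖ ^ 2 / h ^ 6) * ∫ x, V x * ker m h (x - z))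
      ≤ ENNReal.ofReal (∫ p, ‖p.1‖ * ‖Φ p‖ ^ 2 ∂((volume : Measure E3).prod ν)
          + 2 * h * ∫ p, ‖Φ p‖ ^ 2 ∂((volume : Measure E3).prod ν)
          + 711 / 400 * ∫ x, V x ^ 4) := by
  have hi : Integrable V := g6_integrable hV h0 hM hs
  have h3 : 0 < h ^ 3 := by positivity
  have hm3 : (0 : ℝ) < (m : ℝ) ^ 3 := by positivity
  have : IsFiniteMeasure ((volume : Measure E3).restrict (cell h)) :=
    isFiniteMeasure_restrict.2 (volume_cell_ne_top h)
  have : IsFiniteMeasure (ENNReal.ofReal (h ^ 3) • (volume : Measure E3).restrict (cell h)) :=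
    Measure.smul_finite _ ENNReal.ofReal_ne_top
  obtain ⟨hW, hBL⟩ := berezin_lieb (ι := Fin 3 → Fin m)
    (ENNReal.ofReal (h ^ 3) • (volume : Measure E3).restrict (cell h))
    (e := fun x i => ec (-⟪lat h i, x⟫)) (fun i => g6_measurable_ec_neg _)
    (fun x i => (norm_ec _).le)
    (fun c => by
      rw [integral_smul_measure, ENNReal.toReal_ofReal h3.le, smul_eq_mul]
      exact cell_frame hh c) hV h0 hM
  have hF := D.finite_level (measurableSet_cube h)
    (by rw [volume_cube hh]; exact ENNReal.ofReal_ne_top)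
    (by rw [volume_cube hh]; exact (ENNReal.ofReal_pos.2 h3).ne')
    (r := 2 * h) (by positivity) (fun s hs => norm_le_of_mem_cube hs) (lat h (m := m))
    (lat_disjoint hh) hW
  have hA : Integrable fun z => ρ z * ‖ww (cube h) z‖ ^ 2 :=
    D.rho_int.mul_bdd (c := (h ^ 3) ^ 2)
      ((measurable_ww _).norm.pow_const 2).aestronglyMeasurable
      (Filter.Eventually.of_forall fun z => by
        rw [Real.norm_eq_abs, abs_of_nonneg (by positivity)]
        exact pow_le_pow_left₀ (norm_nonneg _) (norm_ww_le hh z) 2)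
  have hcard : (Fintype.card (Fin 3 → Fin m) : ℝ) = (m : ℝ) ^ 3 := by simp
  rw [integral_smul_measure, ENNReal.toReal_ofReal h3.le, smul_eq_mul,
    setIntegral_eq_integral_of_forall_compl_eq_zero (fun x hx => by simp [hs x hx]),
    hcard] at hBL
  simp only [Matrix.of_apply, g6_entry hh hs] at hF hBL
  rw [g6_double hm hi hA, Complex.ofReal_re, volume_cube hh, ENNReal.toReal_ofReal h3.le,
    hcard] at hF
  have hB0 : ∀ z, 0 ≤ ∫ x, V x * ker m h (x - z) := fun z =>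
    integral_nonneg fun x => mul_nonneg (h0 x) (ker_nonneg m hh _)
  have hBm : StronglyMeasurable fun z : E3 => ∫ x, V x * ker m h (x - z) := by
    have h1 : Measurable fun p : E3 × E3 => V p.2 * ker m h (p.2 - p.1) :=
      (hV.comp measurable_snd).mul
        ((continuous_ker m h).measurable.comp (measurable_snd.sub measurable_fst))
    exact h1.stronglyMeasurable.integral_prod_right'
  have hB1 : ∀ z, ∫ x, V x * ker m h (x - z) ≤ ∫ x, V x * (h ^ 3 * m ^ 3) := fun z =>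
    integral_mono_of_nonneg
      (Filter.Eventually.of_forall fun x => mul_nonneg (h0 x) (ker_nonneg m hh _))
      (hi.mul_const _)
      (Filter.Eventually.of_forall fun x => mul_le_mul_of_nonneg_left (ker_le m hh _) (h0 x))
  have hAB : Integrable fun z => ρ z * ‖ww (cube h) z‖ ^ 2 * ∫ x, V x * ker m h (x - z) :=
    hA.mul_bdd (c := ∫ x, V x * (h ^ 3 * m ^ 3)) hBm.aestronglyMeasurable
      (Filter.Eventually.of_forall fun z => by
        rw [Real.norm_eq_abs, abs_of_nonneg (hB0 z)]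
        exact hB1 z)
  have heq : (fun z => ρ z * (‖ww (cube h) z‖ ^ 2 / h ^ 6) * ∫ x, V x * ker m h (x - z))
      = fun z => (h ^ 6)⁻¹ * (ρ z * ‖ww (cube h) z‖ ^ 2 * ∫ x, V x * ker m h (x - z)) := by
    funext z
    ring
  have hI : Integrable
      fun z => ρ z * (‖ww (cube h) z‖ ^ 2 / h ^ 6) * ∫ x, V x * ker m h (x - z) := by
    rw [heq]
    exact hAB.const_mul _
  rw [← ofReal_integral_eq_lintegral_ofReal hI (Filter.Eventually.of_forall fun z =>
    mul_nonneg (mul_nonneg (D.rho_nonneg z) (by positivity)) (hB0 z))]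
  refine ENNReal.ofReal_le_ofReal ?_
  rw [heq, integral_const_mul]
  set S := ∫ z, ρ z * ‖ww (cube h) z‖ ^ 2 * ∫ x, V x * ker m h (x - z)
  set K := ∫ p, ‖p.1‖ * ‖Φ p‖ ^ 2 ∂((volume : Measure E3).prod ν)
  set N := ∫ p, ‖Φ p‖ ^ 2 ∂((volume : Measure E3).prod ν)
  set T := ∫ x, V x ^ 4
  have h4 : (h ^ 3)⁻¹ * ((m : ℝ) ^ 3 * S)
      ≤ (m : ℝ) ^ 3 * h ^ 3 * (K + 2 * h * N + 711 / 400 * T) := by
    linarith
  refine le_of_mul_le_mul_left ?_ (mul_pos hm3 h3)
  refine le_trans (le_of_eq ?_) h4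
  field_simp

end Pool.Agent.P.MP_9f4f5e_mp.LT
end
end

-- part Pool.Agent.P.MP_9f4f5e_mp.LT.G7
section

set_option autoImplicit false
set_option linter.unusedSectionVars false

open MeasureTheory Matrix
open scoped ENNReal ComplexOrder ComplexConjugate RealInnerProductSpace FourierTransform

noncomputable section

namespace Pool.Agent.P.MP_9f4f5e_mp.LT

variable {Y : Type} [MeasurableSpace Y] {ν : Measure Y} [SFinite ν] {Φ : E3 × Y → ℂ} {ρ : E3 → ℝ}

theorem g7_integrable {V : E3 → ℝ} (hV : Measurable V) {M r : ℝ}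
    (h0 : ∀ x, 0 ≤ V x) (hM : ∀ x, V x ≤ M) (hs : ∀ x, r ≤ ‖x‖ → V x = 0) : Integrable V := by
  have h1 : IntegrableOn V (Metric.ball (0 : E3) r) := by
    refine Measure.integrableOn_of_bounded (M := M) measure_ball_lt_top.ne hV.aestronglyMeasurable ?_
    refine Filter.Eventually.of_forall fun x => ?_
    rw [Real.norm_eq_abs, abs_of_nonneg (h0 x)]
    exact hM x
  refine h1.integrable_of_forall_notMem_eq_zero fun x hx => hs x ?_
  simpa using hx

theorem g7_off_cell {V : E3 → ℝ} {r h : ℝ} (hh : 0 < h) (hhr : 2 * h * r ≤ 1)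
    (hs : ∀ x, r ≤ ‖x‖ → V x = 0) : ∀ x, x ∉ cell h → V x = 0 := by
  intro x hx
  apply hs
  by_contra hlt
  push Not at hlt
  apply hx
  intro k
  have h1 : |x k| ≤ ‖x‖ := by
    have := PiLp.norm_apply_le x k
    simpa [Real.norm_eq_abs] using this
  have h2 : r ≤ 1 / (2 * h) := by
    rw [le_div_iff₀ (by positivity)]
    linarith
  linarith

theorem g7_meas_conv {V : E3 → ℝ} (hV : Measurable V) (m : ℕ) (h : ℝ) :
    Measurable fun z : E3 => ∫ x, V x * ker m h (x - z) := by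
  have h1 : Measurable fun p : E3 × E3 => V p.2 * ker m h (p.2 - p.1) :=
    (hV.comp measurable_snd).mul
      ((continuous_ker m h).measurable.comp (measurable_snd.sub measurable_fst))
  exact (h1.stronglyMeasurable.integral_prod_right' (ν := (volume : Measure E3))).measurable

theorem g7_level (D : Data ν Φ ρ) {V : E3 → ℝ} (hl : LowerSemicontinuous V) {M r h : ℝ}
    (hh : 0 < h) (hhr : 2 * h * r ≤ 1)
    (h0 : ∀ x, 0 ≤ V x) (hM : ∀ x, V x ≤ M) (hs : ∀ x, r ≤ ‖x‖ → V x = 0) :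
    ∫⁻ z, ENNReal.ofReal (ρ z * (‖ww (cube h) z‖ ^ 2 / h ^ 6) * V z)
      ≤ ENNReal.ofReal (∫ p, ‖p.1‖ * ‖Φ p‖ ^ 2 ∂((volume : Measure E3).prod ν)
          + 2 * h * ∫ p, ‖Φ p‖ ^ 2 ∂((volume : Measure E3).prod ν)
          + 711 / 400 * ∫ x, V x ^ 4) := by
  have hV : Measurable V := hl.measurable
  have hi : Integrable V := g7_integrable hV h0 hM hs
  have ha : Measurable fun z : E3 => ρ z * (‖ww (cube h) z‖ ^ 2 / h ^ 6) :=
    D.rho_meas.mul ((((measurable_ww (cube h)).norm).pow_const 2).div_const _)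
  have ha0 : ∀ z : E3, 0 ≤ ρ z * (‖ww (cube h) z‖ ^ 2 / h ^ 6) := fun z =>
    mul_nonneg (D.rho_nonneg z) (by positivity)
  have hF : ∀ m : ℕ, Measurable fun z : E3 => ENNReal.ofReal
      (ρ z * (‖ww (cube h) z‖ ^ 2 / h ^ 6) * ∫ x, V x * ker (m + 1) h (x - z)) := fun m =>
    (ha.mul (g7_meas_conv hV (m + 1) h)).ennreal_ofReal
  calc ∫⁻ z, ENNReal.ofReal (ρ z * (‖ww (cube h) z‖ ^ 2 / h ^ 6) * V z)
      ≤ ∫⁻ z, Filter.liminf (fun m : ℕ => ENNReal.ofReal
          (ρ z * (‖ww (cube h) z‖ ^ 2 / h ^ 6) * ∫ x, V x * ker (m + 1) h (x - z)))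
          Filter.atTop := by
        refine lintegral_mono fun z => ?_
        simp only [ENNReal.ofReal_mul (ha0 z)]
        rw [ENNReal.liminf_const_mul_of_ne_top ENNReal.ofReal_ne_top]
        exact mul_le_mul_right (le_liminf_ker hh hl h0 hi z) _
    _ ≤ Filter.liminf (fun m : ℕ => ∫⁻ z, ENNReal.ofReal
          (ρ z * (‖ww (cube h) z‖ ^ 2 / h ^ 6) * ∫ x, V x * ker (m + 1) h (x - z)))
          Filter.atTop := lintegral_liminf_le hF
    _ ≤ _ := by
        refine Filter.liminf_le_of_frequently_le' (Filter.Frequently.of_forall fun m => ?_)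
        exact D.fixed_level hh (Nat.succ_pos m) hV h0 hM (g7_off_cell hh hhr hs)

theorem g7_ratio {u : ℕ → ℝ} (hu : ∀ j, 0 < u j)
    (hu0 : Filter.Tendsto u Filter.atTop (nhds 0)) (z : E3) :
    Filter.Tendsto (fun j => ‖ww (cube (u j)) z‖ ^ 2 / u j ^ 6) Filter.atTop (nhds 1) := by
  have h1 : Filter.Tendsto (fun j => ‖ww (cube (u j)) z‖ / u j ^ 3) Filter.atTop (nhds 1) := by
    have hlow : Filter.Tendsto (fun j => 1 - 4 * Real.pi * u j * ‖z‖) Filter.atTop (nhds 1) := by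
      have := ((hu0.const_mul (4 * Real.pi)).mul_const ‖z‖).const_sub 1
      simpa using this
    refine tendsto_of_tendsto_of_tendsto_of_le_of_le hlow tendsto_const_nhds (fun j => ?_)
      (fun j => ?_)
    · have h3 : 0 < u j ^ 3 := pow_pos (hu j) 3
      have := le_norm_ww (hu j) z
      show 1 - 4 * Real.pi * u j * ‖z‖ ≤ ‖ww (cube (u j)) z‖ / u j ^ 3
      rw [le_div_iff₀ h3]
      linarith
    · have h3 : 0 < u j ^ 3 := pow_pos (hu j) 3
      have := norm_ww_le (hu j) z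
      show ‖ww (cube (u j)) z‖ / u j ^ 3 ≤ 1
      rw [div_le_one h3]
      exact this
  have h2 := h1.pow 2
  rw [one_pow] at h2
  refine h2.congr fun j => ?_
  rw [div_pow, ← pow_mul]

/-- Limits. Hint: for h with 2 h r ≤ 1 (so V vanishes off the cell: |x k| ≤ ‖x‖ < r) Fatou in m
(lintegral_liminf_le, le_liminf_ker, ENNReal.liminf_const_mul-type lemma, measurability of
z ↦ ∫ x, V x * ker (x - z) by StronglyMeasurable.integral_prod_right') gives the bound for
∫⁻ ofReal (ρ (‖ww‖^2/h^6) V). Then h j = 1/(2 r (j+1)) → 0, ‖ww‖^2/h^6 → 1 pointwise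
(norm_ww_le, le_norm_ww), Fatou again. -/
theorem Data.dual (D : Data ν Φ ρ) {V : E3 → ℝ} (hl : LowerSemicontinuous V) {M r : ℝ}
    (hr : 0 < r) (h0 : ∀ x, 0 ≤ V x) (hM : ∀ x, V x ≤ M) (hs : ∀ x, r ≤ ‖x‖ → V x = 0) :
    ∫⁻ z, ENNReal.ofReal (ρ z * V z)
      ≤ ENNReal.ofReal (∫ p, ‖p.1‖ * ‖Φ p‖ ^ 2 ∂((volume : Measure E3).prod ν)
          + 711 / 400 * ∫ x, V x ^ 4) := by
  have hV : Measurable V := hl.measurable
  set u : ℕ → ℝ := fun j => (2 * r)⁻¹ * (1 / ((j : ℝ) + 1)) with hu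
  have hupos : ∀ j, 0 < u j := fun j => by
    simp only [hu]
    positivity
  have hu0 : Filter.Tendsto u Filter.atTop (nhds 0) := by
    have := (tendsto_one_div_add_atTop_nhds_zero_nat (𝕜 := ℝ)).const_mul (2 * r)⁻¹
    simpa [hu] using this
  have hur : ∀ j, 2 * u j * r ≤ 1 := fun j => by
    have h1 : 2 * u j * r = 1 / ((j : ℝ) + 1) := by
      simp only [hu]
      field_simp
    rw [h1, div_le_one (by positivity)]
    have : (0 : ℝ) ≤ j := Nat.cast_nonneg j
    linarith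
  have hF : ∀ j : ℕ, Measurable fun z : E3 => ENNReal.ofReal
      (ρ z * (‖ww (cube (u j)) z‖ ^ 2 / u j ^ 6) * V z) := fun j =>
    ((D.rho_meas.mul ((((measurable_ww (cube (u j))).norm).pow_const 2).div_const _)).mul
      hV).ennreal_ofReal
  have hlim : Filter.Tendsto (fun j : ℕ => ENNReal.ofReal
      (∫ p, ‖p.1‖ * ‖Φ p‖ ^ 2 ∂((volume : Measure E3).prod ν)
          + 2 * u j * ∫ p, ‖Φ p‖ ^ 2 ∂((volume : Measure E3).prod ν)
          + 711 / 400 * ∫ x, V x ^ 4)) Filter.atTop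
      (nhds (ENNReal.ofReal (∫ p, ‖p.1‖ * ‖Φ p‖ ^ 2 ∂((volume : Measure E3).prod ν)
          + 711 / 400 * ∫ x, V x ^ 4))) := by
    refine ENNReal.tendsto_ofReal ?_
    have := ((((hu0.const_mul 2).mul_const
      (∫ p, ‖Φ p‖ ^ 2 ∂((volume : Measure E3).prod ν))).const_add
      (∫ p, ‖p.1‖ * ‖Φ p‖ ^ 2 ∂((volume : Measure E3).prod ν))).add_const
      (711 / 400 * ∫ x, V x ^ 4))
    simpa using this
  calc ∫⁻ z, ENNReal.ofReal (ρ z * V z)
      = ∫⁻ z, Filter.liminf (fun j : ℕ => ENNReal.ofReal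
          (ρ z * (‖ww (cube (u j)) z‖ ^ 2 / u j ^ 6) * V z)) Filter.atTop := by
        refine lintegral_congr fun z => ?_
        have h1 := ((g7_ratio hupos hu0 z).const_mul (ρ z)).mul_const (V z)
        rw [mul_one] at h1
        exact ((ENNReal.tendsto_ofReal h1).liminf_eq).symm
    _ ≤ Filter.liminf (fun j : ℕ => ∫⁻ z, ENNReal.ofReal
          (ρ z * (‖ww (cube (u j)) z‖ ^ 2 / u j ^ 6) * V z)) Filter.atTop :=
        lintegral_liminf_le hF
    _ ≤ Filter.liminf (fun j : ℕ => ENNReal.ofReal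
          (∫ p, ‖p.1‖ * ‖Φ p‖ ^ 2 ∂((volume : Measure E3).prod ν)
          + 2 * u j * ∫ p, ‖Φ p‖ ^ 2 ∂((volume : Measure E3).prod ν)
          + 711 / 400 * ∫ x, V x ^ 4)) Filter.atTop :=
        Filter.liminf_le_liminf (Filter.Eventually.of_forall fun j =>
          g7_level D hl (hupos j) (hur j) h0 hM hs)
    _ = _ := hlim.liminf_eq

end Pool.Agent.P.MP_9f4f5e_mp.LT
end
end

-- part Pool.Agent.P.MP_9f4f5e_mp.LT.G8
section

set_option autoImplicit false
set_option linter.unusedSectionVars false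

open MeasureTheory Matrix
open scoped ENNReal ComplexOrder ComplexConjugate RealInnerProductSpace FourierTransform

noncomputable section

namespace Pool.Agent.P.MP_9f4f5e_mp.LT

/-- Extension to bounded measurable potentials. Hint: exists_le_lowerSemicontinuous_lintegral_ge
(Vitali-Caratheodory) for f = nnreal-valued V0^4 gives g : E3 → ℝ≥0∞ lsc, f ≤ g, ∫⁻ g ≤ ∫⁻ f + ε;
V = indicator (ball 0 r) (((min (g x) (ofReal (M^4))).toReal) ^ (1/4)) is lsc (monotone continuous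
image, LowerSemicontinuous of an indicator of an open set: prove it from the definition),
V0 ≤ V ≤ M, V^4 ≤ g. Let ε → 0. -/
theorem dual_measurable {ρ : E3 → ℝ} (hρ0 : ∀ z, 0 ≤ ρ z) {T C : ℝ} (hT : 0 ≤ T) (hC : 0 < C)
    (H : ∀ (V : E3 → ℝ) (M r : ℝ), LowerSemicontinuous V → 0 < r → (∀ x, 0 ≤ V x) →
      (∀ x, V x ≤ M) → (∀ x, r ≤ ‖x‖ → V x = 0) →
      ∫⁻ z, ENNReal.ofReal (ρ z * V z) ≤ ENNReal.ofReal (T + C * ∫ x, V x ^ 4))
    {V : E3 → ℝ} (hV : Measurable V) {M r : ℝ} (hr : 0 < r) (h0 : ∀ x, 0 ≤ V x)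
    (hM : ∀ x, V x ≤ M) (hs : ∀ x, r ≤ ‖x‖ → V x = 0) :
    ∫⁻ z, ENNReal.ofReal (ρ z * V z) ≤ ENNReal.ofReal (T + C * ∫ x, V x ^ 4) := by
  have hM0 : 0 ≤ M := (h0 0).trans (hM 0)
  have hV4 : Integrable fun x => V x ^ 4 := by
    have h1 : Integrable ((Metric.ball (0 : E3) r).indicator fun _ => M ^ 4) :=
      (integrableOn_const measure_ball_lt_top.ne).integrable_indicator measurableSet_ball
    refine h1.mono' (hV.pow_const 4).aestronglyMeasurable (ae_of_all _ fun x => ?_)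
    rw [Real.norm_of_nonneg (pow_nonneg (h0 x) 4)]
    by_cases hx : x ∈ Metric.ball (0 : E3) r
    · rw [Set.indicator_of_mem hx]
      exact pow_le_pow_left₀ (h0 x) (hM x) 4
    · rw [Set.indicator_of_notMem hx, hs x (by simpa using hx)]
      norm_num
  have hI0 : 0 ≤ ∫ x, V x ^ 4 := integral_nonneg fun x => pow_nonneg (h0 x) 4
  refine ENNReal.le_of_forall_pos_le_add fun ε hε _ => ?_
  have hδ : 0 < (ε : ℝ) / C := div_pos hε hC
  obtain ⟨g, hfg, hgl, hgi⟩ := exists_le_lowerSemicontinuous_lintegral_ge (volume : Measure E3)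
    (fun x => ENNReal.ofReal (V x ^ 4)) (hV.pow_const 4).ennreal_ofReal
    (ε := ENNReal.ofReal (ε / C)) (by simpa using hδ)
  rw [← ofReal_integral_eq_lintegral_ofReal hV4 (ae_of_all _ fun x => pow_nonneg (h0 x) 4),
    ← ENNReal.ofReal_add hI0 hδ.le] at hgi
  set φ : ℝ≥0∞ → ℝ := fun u =>
    ENNReal.truncateToReal (ENNReal.ofReal (M ^ 4)) u ^ (((4 : ℕ) : ℝ)⁻¹) with hφ
  have hφ0 : ∀ u, 0 ≤ φ u := fun u => Real.rpow_nonneg ENNReal.truncateToReal_nonneg _
  have hφ4 : ∀ u, φ u ^ 4 = ENNReal.truncateToReal (ENNReal.ofReal (M ^ 4)) u := fun u =>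
    Real.rpow_inv_natCast_pow ENNReal.truncateToReal_nonneg (by norm_num)
  have hφc : Continuous φ :=
    (ENNReal.continuous_truncateToReal ENNReal.ofReal_ne_top).rpow_const fun _ =>
      Or.inr (by positivity)
  have hφm : Monotone φ := fun u v huv => Real.rpow_le_rpow ENNReal.truncateToReal_nonneg
    (ENNReal.monotone_truncateToReal ENNReal.ofReal_ne_top huv) (by positivity)
  have hφM : ∀ u, φ u ≤ M := by
    intro u
    refine le_of_pow_le_pow_left₀ (n := 4) (by norm_num) hM0 ?_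
    rw [hφ4]
    exact ENNReal.toReal_le_of_le_ofReal (by positivity) (min_le_left _ _)
  have hφg : ∀ u, ENNReal.ofReal (φ u ^ 4) ≤ u := by
    intro u
    rw [hφ4]
    exact ENNReal.ofReal_toReal_le.trans (min_le_right _ _)
  have hVφ : ∀ x, V x ≤ φ (g x) := by
    intro x
    refine le_trans ?_ (hφm (hfg x))
    refine le_of_pow_le_pow_left₀ (n := 4) (by norm_num) (hφ0 _) ?_
    rw [hφ4, ENNReal.truncateToReal_eq_toReal ENNReal.ofReal_ne_top
      (ENNReal.ofReal_le_ofReal (pow_le_pow_left₀ (h0 x) (hM x) 4)),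
      ENNReal.toReal_ofReal (pow_nonneg (h0 x) 4)]
  have hl : LowerSemicontinuous (φ ∘ g) := hφc.comp_lowerSemicontinuous hgl hφm
  set W : E3 → ℝ := (Metric.ball (0 : E3) r).indicator (φ ∘ g) with hW
  have hW0 : ∀ x, 0 ≤ W x := fun x => Set.indicator_nonneg (fun y _ => hφ0 _) x
  have hWle : ∀ x, W x ≤ φ (g x) := fun x => Set.indicator_le_self' (fun y _ => hφ0 _) x
  have hWl : LowerSemicontinuous W := by
    intro x y hy
    by_cases hx : x ∈ Metric.ball (0 : E3) r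
    · rw [hW, Set.indicator_of_mem hx] at hy
      filter_upwards [hl x y hy, Metric.isOpen_ball.mem_nhds hx] with z hz hz'
      rwa [hW, Set.indicator_of_mem hz']
    · rw [hW, Set.indicator_of_notMem hx] at hy
      exact Filter.Eventually.of_forall fun z => hy.trans_le (hW0 z)
  have hVW : ∀ x, V x ≤ W x := by
    intro x
    by_cases hx : x ∈ Metric.ball (0 : E3) r
    · rw [hW, Set.indicator_of_mem hx]
      exact hVφ x
    · rw [hs x (by simpa using hx)]
      exact hW0 x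
  have hWi : ∫ x, W x ^ 4 ≤ (∫ x, V x ^ 4) + ε / C := by
    rw [integral_eq_lintegral_of_nonneg_ae (ae_of_all _ fun x => pow_nonneg (hW0 x) 4)
      (hWl.measurable.pow_const 4).aestronglyMeasurable]
    refine ENNReal.toReal_le_of_le_ofReal (add_nonneg hI0 hδ.le) (le_trans ?_ hgi)
    refine lintegral_mono fun x => le_trans ?_ (hφg (g x))
    exact ENNReal.ofReal_le_ofReal (pow_le_pow_left₀ (hW0 x) (hWle x) 4)
  have h2 := H W M r hWl hr hW0 (fun x => (hWle x).trans (hφM _)) fun x hx =>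
    Set.indicator_of_notMem (by simpa using hx) _
  calc ∫⁻ z, ENNReal.ofReal (ρ z * V z) ≤ ∫⁻ z, ENNReal.ofReal (ρ z * W z) :=
        lintegral_mono fun z =>
          ENNReal.ofReal_le_ofReal (mul_le_mul_of_nonneg_left (hVW z) (hρ0 z))
    _ ≤ ENNReal.ofReal (T + C * ∫ x, W x ^ 4) := h2
    _ ≤ ENNReal.ofReal (T + C * (∫ x, V x ^ 4) + ε) := by
        refine ENNReal.ofReal_le_ofReal ?_
        have h3 := mul_le_mul_of_nonneg_left hWi hC.le
        rw [mul_add, mul_div_cancel₀ _ hC.ne'] at h3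
        linarith
    _ = _ := by
        rw [ENNReal.ofReal_add (add_nonneg hT (mul_nonneg hC.le hI0)) ε.coe_nonneg,
          ENNReal.ofReal_coe_nnreal]

end Pool.Agent.P.MP_9f4f5e_mp.LT
end
end

-- part Pool.Agent.P.MP_9f4f5e_mp.LT.G9
section

set_option autoImplicit false
set_option linter.unusedSectionVars false

open MeasureTheory Matrix
open scoped ENNReal ComplexOrder ComplexConjugate RealInnerProductSpace FourierTransform

noncomputable section

namespace Pool.Agent.P.MP_9f4f5e_mp.LT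

/-- The truncation of `ρ` at height and radius `j + 1`. -/
def g9_tr (ρ : E3 → ℝ) (j : ℕ) : E3 → ℝ :=
  Set.indicator (Metric.ball (0 : E3) (j + 1)) (fun z => min (ρ z) (j + 1))

theorem g9_meas {ρ : E3 → ℝ} (hρ : Measurable ρ) (j : ℕ) : Measurable (g9_tr ρ j) :=
  (hρ.min measurable_const).indicator Metric.isOpen_ball.measurableSet

theorem g9_nonneg {ρ : E3 → ℝ} (hρ0 : ∀ z, 0 ≤ ρ z) (j : ℕ) (z : E3) : 0 ≤ g9_tr ρ j z := by
  unfold g9_tr
  by_cases h : z ∈ Metric.ball (0 : E3) (j + 1)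
  · rw [Set.indicator_of_mem h]
    exact le_min (hρ0 z) (by positivity)
  · rw [Set.indicator_of_notMem h]

theorem g9_le {ρ : E3 → ℝ} (hρ0 : ∀ z, 0 ≤ ρ z) (j : ℕ) (z : E3) : g9_tr ρ j z ≤ ρ z := by
  unfold g9_tr
  by_cases h : z ∈ Metric.ball (0 : E3) (j + 1)
  · rw [Set.indicator_of_mem h]
    exact min_le_left _ _
  · rw [Set.indicator_of_notMem h]
    exact hρ0 z

theorem g9_le' (ρ : E3 → ℝ) (j : ℕ) (z : E3) : g9_tr ρ j z ≤ j + 1 := by
  unfold g9_tr
  by_cases h : z ∈ Metric.ball (0 : E3) (j + 1)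
  · rw [Set.indicator_of_mem h]
    exact min_le_right _ _
  · rw [Set.indicator_of_notMem h]
    positivity

theorem g9_zero (ρ : E3 → ℝ) (j : ℕ) (z : E3) (hz : (j : ℝ) + 1 ≤ ‖z‖) : g9_tr ρ j z = 0 := by
  unfold g9_tr
  rw [Set.indicator_of_notMem]
  rw [mem_ball_zero_iff]
  exact not_lt.mpr hz

theorem g9_ev (ρ : E3 → ℝ) (z : E3) : ∀ᶠ j : ℕ in Filter.atTop, g9_tr ρ j z = ρ z := by
  obtain ⟨N, hN⟩ := exists_nat_gt (max ‖z‖ (ρ z))
  filter_upwards [Filter.eventually_ge_atTop N] with j hj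
  have hj' : (N : ℝ) ≤ j := by exact_mod_cast hj
  have h1 : ‖z‖ < (j : ℝ) + 1 := by
    have := le_max_left ‖z‖ (ρ z)
    linarith
  have h2 : ρ z ≤ (j : ℝ) + 1 := by
    have := le_max_right ‖z‖ (ρ z)
    linarith
  unfold g9_tr
  rw [Set.indicator_of_mem (mem_ball_zero_iff.mpr h1)]
  exact min_eq_left h2

theorem g9_int {ρ : E3 → ℝ} (hρ : Measurable ρ) (hρ0 : ∀ z, 0 ≤ ρ z) (j : ℕ) :
    Integrable (fun z => g9_tr ρ j z ^ (4 / 3 : ℝ)) := by
  have hm : Measurable (fun z => g9_tr ρ j z ^ (4 / 3 : ℝ)) :=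
    (g9_meas hρ j).pow_const _
  have hb : Integrable (Set.indicator (Metric.ball (0 : E3) (j + 1))
      (fun _ => ((j : ℝ) + 1) ^ (4 / 3 : ℝ))) := by
    rw [integrable_indicator_iff Metric.isOpen_ball.measurableSet]
    exact integrableOn_const (measure_ball_lt_top.ne)
  refine hb.mono' hm.aestronglyMeasurable (Filter.Eventually.of_forall fun z => ?_)
  rw [Real.norm_of_nonneg (Real.rpow_nonneg (g9_nonneg hρ0 j z) _)]
  by_cases h : z ∈ Metric.ball (0 : E3) (j + 1)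
  · rw [Set.indicator_of_mem h]
    exact Real.rpow_le_rpow (g9_nonneg hρ0 j z) (g9_le' ρ j z) (by norm_num)
  · rw [Set.indicator_of_notMem h]
    have : g9_tr ρ j z = 0 := g9_zero ρ j z (not_lt.mp fun h' => h (mem_ball_zero_iff.mpr h'))
    rw [this, Real.zero_rpow (by norm_num)]

theorem g9_step {ρ : E3 → ℝ} (hρ : Measurable ρ) (hρ0 : ∀ z, 0 ≤ ρ z) {T C : ℝ} (hT : 0 ≤ T)
    (hC : 0 < C)
    (H : ∀ (V : E3 → ℝ) (M r : ℝ), Measurable V → 0 < r → (∀ x, 0 ≤ V x) →
      (∀ x, V x ≤ M) → (∀ x, r ≤ ‖x‖ → V x = 0) →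
      ∫⁻ z, ENNReal.ofReal (ρ z * V z) ≤ ENNReal.ofReal (T + C * ∫ x, V x ^ 4)) (j : ℕ) :
    3 / 4 * (4 * C) ^ (-(1 / 3) : ℝ) * ∫ z, g9_tr ρ j z ^ (4 / 3 : ℝ) ≤ T := by
  set lam : ℝ := (4 * C) ^ (-(1 / 3) : ℝ) with hlam
  have h4 : 0 < 4 * C := by positivity
  have hl0 : 0 < lam := Real.rpow_pos_of_pos h4 _
  have hl3 : C * lam ^ 3 = 1 / 4 := by
    have : lam ^ 3 = (4 * C)⁻¹ := by
      rw [hlam, ← Real.rpow_natCast, ← Real.rpow_mul h4.le, ← Real.rpow_neg_one]
      norm_num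
    rw [this]
    field_simp
  set X : ℝ := ∫ z, g9_tr ρ j z ^ (4 / 3 : ℝ) with hX
  have hX0 : 0 ≤ X := integral_nonneg fun z => Real.rpow_nonneg (g9_nonneg hρ0 j z) _
  have hV := H (fun z => lam * g9_tr ρ j z ^ (1 / 3 : ℝ)) (lam * ((j : ℝ) + 1) ^ (1 / 3 : ℝ))
    ((j : ℝ) + 1) (((g9_meas hρ j).pow_const _).const_mul _) (by positivity)
    (fun z => mul_nonneg hl0.le (Real.rpow_nonneg (g9_nonneg hρ0 j z) _))
    (fun z => mul_le_mul_of_nonneg_left
      (Real.rpow_le_rpow (g9_nonneg hρ0 j z) (g9_le' ρ j z) (by norm_num)) hl0.le)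
    (fun z hz => by
      rw [g9_zero ρ j z hz, Real.zero_rpow (by norm_num), mul_zero])
  have e4 : ∫ z, (lam * g9_tr ρ j z ^ (1 / 3 : ℝ)) ^ 4 = lam ^ 4 * X := by
    rw [hX, ← integral_const_mul]
    refine integral_congr_ae (Filter.Eventually.of_forall fun z => ?_)
    show (lam * g9_tr ρ j z ^ (1 / 3 : ℝ)) ^ 4 = lam ^ 4 * g9_tr ρ j z ^ (4 / 3 : ℝ)
    rw [mul_pow, ← Real.rpow_natCast (g9_tr ρ j z ^ (1 / 3 : ℝ)),
      ← Real.rpow_mul (g9_nonneg hρ0 j z)]
    norm_num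
  have e1 : ENNReal.ofReal (lam * X) ≤
      ∫⁻ z, ENNReal.ofReal (ρ z * (lam * g9_tr ρ j z ^ (1 / 3 : ℝ))) := by
    rw [hX, ← integral_const_mul, ofReal_integral_eq_lintegral_ofReal
      ((g9_int hρ hρ0 j).const_mul lam) (Filter.Eventually.of_forall fun z =>
        mul_nonneg hl0.le (Real.rpow_nonneg (g9_nonneg hρ0 j z) _))]
    refine lintegral_mono fun z => ENNReal.ofReal_le_ofReal ?_
    have h43 : g9_tr ρ j z ^ (4 / 3 : ℝ) = g9_tr ρ j z * g9_tr ρ j z ^ (1 / 3 : ℝ) := by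
      rw [show (4 / 3 : ℝ) = 1 + 1 / 3 by norm_num,
        Real.rpow_add' (g9_nonneg hρ0 j z) (by norm_num), Real.rpow_one]
    rw [h43]
    have h13 : 0 ≤ g9_tr ρ j z ^ (1 / 3 : ℝ) := Real.rpow_nonneg (g9_nonneg hρ0 j z) _
    have := mul_le_mul_of_nonneg_right (g9_le hρ0 j z) (mul_nonneg hl0.le h13)
    nlinarith
  have e2 := e1.trans hV
  rw [e4, ENNReal.ofReal_le_ofReal_iff (by positivity)] at e2
  have : C * (lam ^ 4 * X) = lam * X / 4 := by
    calc C * (lam ^ 4 * X) = (C * lam ^ 3) * (lam * X) := by ring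
      _ = lam * X / 4 := by rw [hl3]; ring
  rw [this] at e2
  linarith

/-- Optimisation. Hint: lam = (4 C)^(-1/3), σ j = indicator (ball 0 (j+1)) (min ρ (j+1)),
V = lam * σ j ^ (1/3), X j = ∫ σ j ^ (4/3) (integrable: bounded, bounded support);
ρ V ≥ lam σ^(4/3), V^4 = lam^4 σ^(4/3), so lam X ≤ T + C lam^4 X = T + lam X / 4.
Monotone convergence (lintegral_iSup, or lintegral_liminf_le since σ j z = ρ z eventually). -/
theorem optimise {ρ : E3 → ℝ} (hρ : Measurable ρ) (hρ0 : ∀ z, 0 ≤ ρ z) {T C : ℝ} (hT : 0 ≤ T)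
    (hC : 0 < C)
    (H : ∀ (V : E3 → ℝ) (M r : ℝ), Measurable V → 0 < r → (∀ x, 0 ≤ V x) →
      (∀ x, V x ≤ M) → (∀ x, r ≤ ‖x‖ → V x = 0) →
      ∫⁻ z, ENNReal.ofReal (ρ z * V z) ≤ ENNReal.ofReal (T + C * ∫ x, V x ^ 4)) :
    ENNReal.ofReal (3 / 4 * (4 * C) ^ (-(1 / 3) : ℝ)) * ∫⁻ z, ENNReal.ofReal (ρ z) ^ (4 / 3 : ℝ)
      ≤ ENNReal.ofReal T := by
  have hc : 0 ≤ 3 / 4 * (4 * C) ^ (-(1 / 3) : ℝ) :=
    mul_nonneg (by norm_num) (Real.rpow_nonneg (by positivity) _)
  have hm : ∀ j : ℕ, Measurable fun z => ENNReal.ofReal (3 / 4 * (4 * C) ^ (-(1 / 3) : ℝ)) *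
      ENNReal.ofReal (g9_tr ρ j z) ^ (4 / 3 : ℝ) := fun j =>
    (((g9_meas hρ j).ennreal_ofReal).pow_const _).const_mul _
  have hj : ∀ j : ℕ, ∫⁻ z, ENNReal.ofReal (3 / 4 * (4 * C) ^ (-(1 / 3) : ℝ)) *
      ENNReal.ofReal (g9_tr ρ j z) ^ (4 / 3 : ℝ) ≤ ENNReal.ofReal T := by
    intro j
    refine le_trans (le_of_eq ?_) (ENNReal.ofReal_le_ofReal (g9_step hρ hρ0 hT hC H j))
    rw [← integral_const_mul, ofReal_integral_eq_lintegral_ofReal
      ((g9_int hρ hρ0 j).const_mul _) (Filter.Eventually.of_forall fun z =>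
        mul_nonneg hc (Real.rpow_nonneg (g9_nonneg hρ0 j z) _))]
    refine lintegral_congr fun z => ?_
    rw [ENNReal.ofReal_mul hc, ENNReal.ofReal_rpow_of_nonneg (g9_nonneg hρ0 j z) (by norm_num)]
  rw [← lintegral_const_mul _ (hρ.ennreal_ofReal.pow_const _)]
  have hl : ∀ z, ENNReal.ofReal (3 / 4 * (4 * C) ^ (-(1 / 3) : ℝ)) *
      ENNReal.ofReal (ρ z) ^ (4 / 3 : ℝ) = Filter.liminf (fun j : ℕ =>
        ENNReal.ofReal (3 / 4 * (4 * C) ^ (-(1 / 3) : ℝ)) *
          ENNReal.ofReal (g9_tr ρ j z) ^ (4 / 3 : ℝ)) Filter.atTop := by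
    intro z
    refine (Filter.Tendsto.liminf_eq ?_).symm
    refine tendsto_const_nhds.congr' ?_
    filter_upwards [g9_ev ρ z] with j hj
    rw [hj]
  calc _ = ∫⁻ z, Filter.liminf (fun j : ℕ =>
        ENNReal.ofReal (3 / 4 * (4 * C) ^ (-(1 / 3) : ℝ)) *
          ENNReal.ofReal (g9_tr ρ j z) ^ (4 / 3 : ℝ)) Filter.atTop := lintegral_congr hl
    _ ≤ Filter.liminf (fun j : ℕ => ∫⁻ z, ENNReal.ofReal (3 / 4 * (4 * C) ^ (-(1 / 3) : ℝ)) *
          ENNReal.ofReal (g9_tr ρ j z) ^ (4 / 3 : ℝ)) Filter.atTop := lintegral_liminf_le hm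
    _ ≤ ENNReal.ofReal T :=
      Filter.liminf_le_of_frequently_le' (Filter.Frequently.of_forall hj)

end Pool.Agent.P.MP_9f4f5e_mp.LT
end
end

-- part Pool.Agent.P.MP_9f4f5e_mp.LT.E1
section

set_option autoImplicit false
set_option linter.unusedSectionVars false

open MeasureTheory Matrix
open scoped ENNReal ComplexOrder ComplexConjugate RealInnerProductSpace FourierTransform

noncomputable section

namespace Pool.Agent.P.MP_9f4f5e_mp.LT

variable {V : Type} [NormedAddCommGroup V] [InnerProductSpace ℝ V] [FiniteDimensional ℝ V]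
  [MeasurableSpace V] [BorelSpace V]

theorem e1_comp_toLp (L : V ≃ₗᵢ[ℝ] V) (f : SchwartzMap V ℂ) :
    (Lp.compMeasurePreserving L L.measurePreserving (f.toLp 2 (volume : Measure V)) :
      Lp ℂ 2 (volume : Measure V)) =
      (SchwartzMap.compCLMOfContinuousLinearEquiv ℂ L.toContinuousLinearEquiv f).toLp 2
        (volume : Measure V) := by
  apply Lp.ext
  have h1 := Lp.coeFn_compMeasurePreserving (f.toLp 2 (volume : Measure V)) L.measurePreserving
  have h2 := SchwartzMap.coeFn_toLp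
    (SchwartzMap.compCLMOfContinuousLinearEquiv ℂ L.toContinuousLinearEquiv f) 2
    (volume : Measure V)
  have h3 := L.measurePreserving.quasiMeasurePreserving.ae_eq_comp
    (SchwartzMap.coeFn_toLp f 2 (volume : Measure V))
  refine h1.trans (h3.trans ?_)
  refine Filter.EventuallyEq.trans ?_ h2.symm
  exact Filter.Eventually.of_forall fun x => rfl

theorem e1_fourier_schwartz (L : V ≃ₗᵢ[ℝ] V) (f : SchwartzMap V ℂ) :
    𝓕 (SchwartzMap.compCLMOfContinuousLinearEquiv ℂ L.toContinuousLinearEquiv f) =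
      SchwartzMap.compCLMOfContinuousLinearEquiv ℂ L.toContinuousLinearEquiv (𝓕 f) := by
  ext w
  have := Real.fourier_comp_linearIsometry L (f : V → ℂ) w
  exact this

theorem e1_fourier_comp (L : V ≃ₗᵢ[ℝ] V) (φ : Lp ℂ 2 (volume : Measure V)) :
    (𝓕 (Lp.compMeasurePreserving L L.measurePreserving φ : Lp ℂ 2 (volume : Measure V)) :
      Lp ℂ 2 (volume : Measure V)) =
      Lp.compMeasurePreserving L L.measurePreserving (𝓕 φ : Lp ℂ 2 (volume : Measure V)) := by
  have hC : Continuous (Lp.compMeasurePreserving L L.measurePreserving :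
      Lp ℂ 2 (volume : Measure V) → Lp ℂ 2 (volume : Measure V)) :=
    (Lp.isometry_compMeasurePreserving L.measurePreserving).continuous
  have hF : Continuous (fun φ : Lp ℂ 2 (volume : Measure V) =>
      (𝓕 φ : Lp ℂ 2 (volume : Measure V))) := (Lp.fourierTransformₗᵢ V ℂ).continuous
  refine DenseRange.induction_on
    (p := fun φ : Lp ℂ 2 (volume : Measure V) =>
      (𝓕 (Lp.compMeasurePreserving L L.measurePreserving φ : Lp ℂ 2 (volume : Measure V)) :
        Lp ℂ 2 (volume : Measure V)) =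
      Lp.compMeasurePreserving L L.measurePreserving (𝓕 φ : Lp ℂ 2 (volume : Measure V)))
    (SchwartzMap.denseRange_toLpCLM (E := V) (F := ℂ) (μ := (volume : Measure V)) (p := 2)
      ENNReal.ofNat_ne_top) φ ?_ ?_
  · exact isClosed_eq (hF.comp hC) (hC.comp hF)
  · intro f
    rw [SchwartzMap.toLpCLM_apply, e1_comp_toLp, SchwartzMap.toLp_fourier_eq,
      SchwartzMap.toLp_fourier_eq, e1_comp_toLp, e1_fourier_schwartz]

/-- The L2 Fourier transform commutes with linear isometries. Hint: C = Lp.compMeasurePreserving L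
L.measurePreserving (continuous: Lp.compMeasurePreservingₗᵢ, Lp.coeFn_compMeasurePreserving); show
𝓕 (C φ) = C (𝓕 φ) by DenseRange.induction_on with SchwartzMap.denseRange_toLpCLM (see
fourier_toTemperedDistribution_eq in Mathlib/Analysis/Fourier/LpSpace.lean),
SchwartzMap.compCLMOfContinuousLinearEquiv, SchwartzMap.toLp_fourier_eq,
Real.fourier_comp_linearIsometry; then C ψ = -ψ gives C (𝓕 ψ) = -𝓕 ψ. -/
theorem fourier_anti (L : V ≃ₗᵢ[ℝ] V) (ψ : Lp ℂ 2 (volume : Measure V))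
    (h : ∀ᵐ z, ψ (L z) = -ψ z) :
    ∀ᵐ z, (𝓕 ψ : Lp ℂ 2 (volume : Measure V)) (L z) = -(𝓕 ψ : Lp ℂ 2 (volume : Measure V)) z := by
  have hψ : (Lp.compMeasurePreserving L L.measurePreserving ψ : Lp ℂ 2 (volume : Measure V)) =
      -ψ := by
    apply Lp.ext
    refine (Lp.coeFn_compMeasurePreserving ψ L.measurePreserving).trans ?_
    refine Filter.EventuallyEq.trans ?_ (Lp.coeFn_neg ψ).symm
    filter_upwards [h] with z hz
    exact hz
  have hneg : (𝓕 (-ψ) : Lp ℂ 2 (volume : Measure V)) = -(𝓕 ψ : Lp ℂ 2 (volume : Measure V)) :=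
    map_neg (Lp.fourierTransformₗᵢ V ℂ) ψ
  have key := e1_fourier_comp L ψ
  rw [hψ, hneg] at key
  have h1 := Lp.coeFn_compMeasurePreserving (𝓕 ψ : Lp ℂ 2 (volume : Measure V))
    L.measurePreserving
  rw [← key] at h1
  filter_upwards [h1, Lp.coeFn_neg (𝓕 ψ : Lp ℂ 2 (volume : Measure V))] with z hz1 hz2
  rw [hz2] at hz1
  exact hz1.symm

end Pool.Agent.P.MP_9f4f5e_mp.LT
end
end

-- part Pool.Agent.P.MP_9f4f5e_mp.LT.E3
section

set_option autoImplicit false
set_option linter.unusedSectionVars false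

open MeasureTheory Matrix
open scoped ENNReal ComplexOrder ComplexConjugate RealInnerProductSpace FourierTransform

noncomputable section

namespace Pool.Agent.P.MP_9f4f5e_mp.LT

/-- the remaining particles -/
def e3_rest {n : ℕ} (z : EN (n + 1)) : EN n := WithLp.toLp 2 fun p => z (p.1.succ, p.2)

theorem e3_glue_zero {n : ℕ} (x : E3) (y : EN n) (k : Fin 3) : glue x y (0, k) = x k := rfl

theorem e3_glue_succ {n : ℕ} (x : E3) (y : EN n) (i : Fin n) (k : Fin 3) :
    glue x y (i.succ, k) = y (i, k) := rfl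

theorem e3_rest_glue {n : ℕ} (x : E3) (y : EN n) : e3_rest (glue x y) = y := rfl

theorem e3_glue_rest {n : ℕ} (z : EN (n + 1)) : glue (part z 0) (e3_rest z) = z := by
  ext ⟨p, k⟩
  refine Fin.cases ?_ (fun q => ?_) p
  · rfl
  · rfl

theorem e3_glue_add {n : ℕ} (x x' : E3) (y y' : EN n) :
    glue (x + x') (y + y') = glue x y + glue x' y' := by
  ext ⟨p, k⟩
  refine Fin.cases ?_ (fun q => ?_) p
  · rfl
  · rfl

theorem e3_glue_smul {n : ℕ} (c : ℝ) (x : E3) (y : EN n) :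
    glue (c • x) (c • y) = c • glue x y := by
  ext ⟨p, k⟩
  refine Fin.cases ?_ (fun q => ?_) p
  · rfl
  · rfl

theorem e3_norm_glue {n : ℕ} (x : E3) (y : EN n) : ‖glue x y‖ ^ 2 = ‖x‖ ^ 2 + ‖y‖ ^ 2 := by
  rw [EuclideanSpace.norm_sq_eq, EuclideanSpace.norm_sq_eq, EuclideanSpace.norm_sq_eq,
    Fintype.sum_prod_type, Fintype.sum_prod_type, Fin.sum_univ_succ]
  rfl

/-- gluing as a linear equivalence -/
def e3_lin (n : ℕ) : WithLp 2 (E3 × EN n) ≃ₗ[ℝ] EN (n + 1) where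
  toFun p := glue p.ofLp.1 p.ofLp.2
  invFun z := WithLp.toLp 2 (part z 0, e3_rest z)
  map_add' _ _ := e3_glue_add _ _ _ _
  map_smul' _ _ := e3_glue_smul _ _ _
  left_inv _ := rfl
  right_inv z := e3_glue_rest z

/-- gluing as a linear isometry -/
def e3_iso (n : ℕ) : WithLp 2 (E3 × EN n) ≃ₗᵢ[ℝ] EN (n + 1) where
  toLinearEquiv := e3_lin n
  norm_map' p := by
    have h1 : ‖e3_lin n p‖ ^ 2 = ‖p‖ ^ 2 := by
      rw [WithLp.prod_norm_sq_eq_of_L2]
      exact e3_norm_glue _ _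
    exact (pow_left_inj₀ (norm_nonneg _) (norm_nonneg _) two_ne_zero).1 h1

/-- Hint: glue is a linear isometry equivalence from WithLp 2 (E3 × EN n) onto EN (n+1)
(Fintype.sum_prod_type, Fin.sum_univ_succ); LinearIsometryEquiv.measurePreserving and
WithLp.volume_preserving_toLp. -/
theorem mp_glue (n : ℕ) : MeasurePreserving (fun p : E3 × EN n => glue p.1 p.2)
    ((volume : Measure E3).prod (volume : Measure (EN n))) volume :=
  (e3_iso n).measurePreserving.comp (WithLp.volume_preserving_toLp E3 (EN n))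

theorem continuous_glue (n : ℕ) : Continuous fun p : E3 × EN n => glue p.1 p.2 :=
  (e3_iso n).continuous.comp (WithLp.prod_continuous_toLp 2 E3 (EN n))

theorem continuous_part {n : ℕ} (i : Fin n) : Continuous fun z : EN n => part z i := by
  unfold part
  fun_prop

theorem e3_continuous_rest {n : ℕ} : Continuous fun z : EN (n + 1) => e3_rest z := by
  unfold e3_rest
  fun_prop

/-- gluing as a homeomorphism -/
def e3_homeo (n : ℕ) : E3 × EN n ≃ₜ EN (n + 1) where
  toFun p := glue p.1 p.2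
  invFun z := (part z 0, e3_rest z)
  left_inv _ := rfl
  right_inv z := e3_glue_rest z
  continuous_toFun := continuous_glue n
  continuous_invFun := (continuous_part 0).prodMk e3_continuous_rest

theorem measurableEmbedding_glue (n : ℕ) :
    MeasurableEmbedding fun p : E3 × EN n => glue p.1 p.2 :=
  (e3_homeo n).measurableEmbedding

theorem glue_add {n : ℕ} (x k : E3) (y : EN n) : glue (x + k) y = glue x y + glue k 0 := by
  rw [← e3_glue_add, add_zero]

theorem inner_glue {n : ℕ} (x k : E3) (y : EN n) :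
    ⟪glue k (0 : EN n), glue x y⟫ = ⟪k, x⟫ := by
  rw [PiLp.inner_apply, PiLp.inner_apply, Fintype.sum_prod_type, Fin.sum_univ_succ]
  simp [e3_glue_zero, e3_glue_succ]

/-- symmetric kinetic energy. Hint: mp_sw 0 i, part_sw, lintegral_comp, lintegral_congr_ae. -/
theorem kin_symm {n : ℕ} {Ψ : EN (n + 1) → ℂ} (hm : Measurable Ψ)
    (hanti : ∀ i j, i ≠ j → ∀ᵐ z, Ψ (sw i j z) = -Ψ z) (c : ℝ) :
    ∑ i : Fin (n + 1), ∫⁻ ξ, ENNReal.ofReal (c * ‖part ξ i‖) * ‖Ψ ξ‖ₑ ^ 2
      = ((n : ℝ≥0∞) + 1) * ∫⁻ ξ, ENNReal.ofReal (c * ‖part ξ 0‖) * ‖Ψ ξ‖ₑ ^ 2 := by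
  have h1 : ∀ i : Fin (n + 1), ∫⁻ ξ, ENNReal.ofReal (c * ‖part ξ i‖) * ‖Ψ ξ‖ₑ ^ 2
      = ∫⁻ ξ, ENNReal.ofReal (c * ‖part ξ 0‖) * ‖Ψ ξ‖ₑ ^ 2 := by
    intro i
    by_cases hi : i = 0
    · rw [hi]
    have hf : Measurable fun ξ : EN (n + 1) =>
        ENNReal.ofReal (c * ‖part ξ i‖) * ‖Ψ ξ‖ₑ ^ 2 :=
      ((continuous_part i).norm.measurable.const_mul c).ennreal_ofReal.mul
        (hm.enorm.pow_const 2)
    rw [← (mp_sw 0 i).lintegral_comp hf]
    refine lintegral_congr_ae ?_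
    filter_upwards [hanti 0 i (Ne.symm hi)] with z hz
    rw [hz, part_sw, Equiv.swap_apply_right, enorm_neg]
  rw [Finset.sum_congr rfl fun i _ => h1 i, Finset.sum_const, Finset.card_univ, Fintype.card_fin,
    nsmul_eq_mul, Nat.cast_succ]

/-- the numerical constant. Hint: cube both sides (pow_le_pow_left₀ / abs_le_of_sq..., rpow_natCast,
Real.rpow_neg), 0.838^3 * 6 π^2 * (711/100) ≤ 8 π^3 by Real.pi_gt_d2. -/
theorem const_le : (0.838 : ℝ) * (3 / 4 * (6 * Real.pi ^ 2) ^ (1 / 3 : ℝ))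
    ≤ 2 * Real.pi * (3 / 4 * (4 * (711 / 400) : ℝ) ^ (-(1 / 3) : ℝ)) := by
  have hpi := Real.pi_gt_d2
  have hp0 : 0 < Real.pi := Real.pi_pos
  have ha : ((6 * Real.pi ^ 2) ^ (1 / 3 : ℝ)) ^ 3 = 6 * Real.pi ^ 2 := by
    rw [← Real.rpow_natCast, ← Real.rpow_mul (by positivity)]
    norm_num
  have hb : ((4 * (711 / 400) : ℝ) ^ (-(1 / 3) : ℝ)) ^ 3 = 100 / 711 := by
    rw [← Real.rpow_natCast, ← Real.rpow_mul (by positivity)]
    have h3 : (-(1 / 3) : ℝ) * ((3 : ℕ) : ℝ) = -1 := by norm_num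
    rw [h3, Real.rpow_neg_one]
    norm_num
  refine le_of_pow_le_pow_left₀ (n := 3) three_ne_zero (by positivity) ?_
  rw [mul_pow, mul_pow, mul_pow (2 * Real.pi), mul_pow (3 / 4 : ℝ), ha, hb]
  have h2 : 0 < Real.pi ^ 2 := by positivity
  have h4 : (2 * Real.pi) ^ 3 = 8 * Real.pi ^ 2 * Real.pi := by ring
  rw [h4]
  nlinarith [mul_lt_mul_of_pos_left hpi h2]

end Pool.Agent.P.MP_9f4f5e_mp.LT
end
end

-- part Pool.Agent.P.MP_9f4f5e_mp.LT.P2
section

set_option autoImplicit false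
set_option linter.unusedSectionVars false

open MeasureTheory Matrix
open scoped ENNReal ComplexOrder ComplexConjugate RealInnerProductSpace FourierTransform

noncomputable section

namespace Pool.Agent.P.MP_9f4f5e_mp.LT

variable {X Y : Type} [MeasurableSpace X] [MeasurableSpace Y] {μ : Measure X} {ν : Measure Y}
  [SFinite μ] [SFinite ν]

theorem p2_memLp_conj {f : X → ℂ} (hf : MemLp f 2 μ) : MemLp (fun x => conj (f x)) 2 μ := by
  refine MemLp.congr_norm hf ?_ (Filter.Eventually.of_forall fun x => by simp)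
  exact Complex.continuous_conj.comp_aestronglyMeasurable hf.1

theorem p2_memLp_tensor {f : X → ℂ} (hf : MemLp f 2 μ) :
    MemLp (fun p : X × X => conj (f p.1) * conj (f p.2)) 2 (μ.prod μ) := by
  have hc := p2_memLp_conj hf
  have hm : AEStronglyMeasurable (fun p : X × X => conj (f p.1) * conj (f p.2)) (μ.prod μ) :=
    (hc.1.comp_fst).mul (hc.1.comp_snd)
  rw [memLp_two_iff_integrable_sq_norm hm]
  have h2 : Integrable (fun x => ‖f x‖ ^ 2) μ := (memLp_two_iff_integrable_sq_norm hf.1).1 hf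
  refine (h2.mul_prod h2).congr (Filter.Eventually.of_forall fun p => ?_)
  simp [mul_pow]

theorem p2_integrable_mul {Z : Type} [MeasurableSpace Z] {m : Measure Z} {a b : Z → ℂ}
    (ha : MemLp a 2 m) (hb : MemLp b 2 m) : Integrable (fun z => a z * b z) m :=
  ha.integrable_mul hb

/-- the double contraction of an antisymmetric function vanishes. Hint: the integrand is
integrable on μ.prod μ (MemLp.integrable_mul; f p.1 * f p.2 is in L2 by Integrable.mul_prod),
integral_prod_swap, integral_prod_symm. -/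
theorem double_contraction {Θ : X × X → ℂ} (hΘ : MemLp Θ 2 (μ.prod μ))
    (hanti : ∀ᵐ p ∂(μ.prod μ), Θ (p.2, p.1) = -Θ p) {f : X → ℂ} (hf : MemLp f 2 μ) :
    Integrable (fun η => conj (f η) * ∫ x, conj (f x) * Θ (x, η) ∂μ) μ ∧
      ∫ η, conj (f η) * ∫ x, conj (f x) * Θ (x, η) ∂μ ∂μ = 0 := by
  have hF : Integrable (fun p : X × X => conj (f p.1) * conj (f p.2) * Θ p) (μ.prod μ) :=
    p2_integrable_mul (p2_memLp_tensor hf) hΘ
  have heq : ∀ η, ∫ x, conj (f x) * conj (f η) * Θ (x, η) ∂μ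
      = conj (f η) * ∫ x, conj (f x) * Θ (x, η) ∂μ := by
    intro η
    rw [← integral_const_mul]
    refine integral_congr_ae (Filter.Eventually.of_forall fun x => ?_)
    simp only
    ring
  refine ⟨?_, ?_⟩
  · have := hF.integral_prod_right
    simpa only [heq] using this
  · have h1 := integral_prod_symm _ hF
    simp only [heq] at h1
    rw [← h1]
    have h2 := integral_prod_swap (μ := μ) (ν := μ)
      (fun p : X × X => conj (f p.1) * conj (f p.2) * Θ p)
    have h3 : ∫ p : X × X, conj (f p.swap.1) * conj (f p.swap.2) * Θ p.swap ∂(μ.prod μ)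
        = -∫ p : X × X, conj (f p.1) * conj (f p.2) * Θ p ∂(μ.prod μ) := by
      rw [← integral_neg]
      refine integral_congr_ae ?_
      filter_upwards [hanti] with p hp
      have : Θ p.swap = -Θ p := hp
      rw [this]
      simp only [Prod.fst_swap, Prod.snd_swap]
      ring
    have h4 := h2.symm.trans h3
    exact self_eq_neg.mp h4

/-- Contraction of the remainder in the second variable. Hint: transport to (μ.prod μ).prod ν
(measurePreserving_prodAssoc); for a.e. y the slice Θ (x, η) = Ψ (x, η, y) is in L2 and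
antisymmetric (ae_memLp_left, Measure.ae_ae_of_ae_prod on the swapped product); for a.e. x then
η ↦ Θ (x, η) is in L2 and equals -Θ (η, x) a.e.; double_contraction. The conclusion is iterated,
so no measurability of the exceptional set is needed. -/
theorem contraction_rem {Ψ : X × X × Y → ℂ} (hΨ : MemLp Ψ 2 (μ.prod (μ.prod ν)))
    (hanti : ∀ᵐ p ∂(μ.prod (μ.prod ν)), Ψ (p.2.1, p.1, p.2.2) = -Ψ p) {f : X → ℂ}
    (hf : MemLp f 2 μ) :
    ∀ᵐ y ∂ν, ∀ᵐ x ∂μ,
      ∫ η, conj (f η) * (Ψ (x, η, y) - f x * ∫ x', conj (f x') * Ψ (x', η, y) ∂μ) ∂μ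
        = -∫ x', conj (f x') * Ψ (x', x, y) ∂μ := by
  have hmp : MeasurePreserving (MeasurableEquiv.prodAssoc : (X × X) × Y ≃ᵐ X × X × Y)
      ((μ.prod μ).prod ν) (μ.prod (μ.prod ν)) := measurePreserving_prodAssoc μ μ ν
  have hΨ' : MemLp (fun q : (X × X) × Y => Ψ (q.1.1, q.1.2, q.2)) 2 ((μ.prod μ).prod ν) :=
    hΨ.comp_measurePreserving hmp
  have hanti' : ∀ᵐ q ∂((μ.prod μ).prod ν),
      Ψ (q.1.2, q.1.1, q.2) = -Ψ (q.1.1, q.1.2, q.2) :=
    hmp.quasiMeasurePreserving.ae hanti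
  have hanti2 : ∀ᵐ q ∂(ν.prod (μ.prod μ)),
      Ψ (q.2.2, q.2.1, q.1) = -Ψ (q.2.1, q.2.2, q.1) :=
    (Measure.measurePreserving_swap (μ := ν) (ν := μ.prod μ)).quasiMeasurePreserving.ae hanti'
  have hanti3 := Measure.ae_ae_of_ae_prod hanti2
  filter_upwards [ae_memLp_left hΨ', hanti3] with y hy1 hy2
  have hd := double_contraction (Θ := fun p : X × X => Ψ (p.1, p.2, y)) hy1 hy2 hf
  have hy3 := Measure.ae_ae_of_ae_prod hy2
  filter_upwards [ae_memLp_right hy1, hy3] with x hx1 hx2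
  have hi1 : Integrable (fun η => conj (f η) * Ψ (x, η, y)) μ :=
    p2_integrable_mul (p2_memLp_conj hf) hx1
  have hsplit : ∀ η, conj (f η) * (Ψ (x, η, y) - f x * ∫ x', conj (f x') * Ψ (x', η, y) ∂μ)
      = conj (f η) * Ψ (x, η, y)
        - f x * (conj (f η) * ∫ x', conj (f x') * Ψ (x', η, y) ∂μ) := by
    intro η
    ring
  simp only [hsplit]
  rw [integral_sub hi1 (hd.1.const_mul (f x)), integral_const_mul, hd.2, mul_zero, sub_zero,
    ← integral_neg]
  refine integral_congr_ae ?_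
  filter_upwards [hx2] with η hη
  have : Ψ (η, x, y) = -Ψ (x, η, y) := hη
  rw [this]
  ring

end Pool.Agent.P.MP_9f4f5e_mp.LT
end
end

-- part Pool.Agent.P.MP_9f4f5e_mp.LT.P3
section

set_option autoImplicit false
set_option linter.unusedSectionVars false

open MeasureTheory Matrix
open scoped ENNReal ComplexOrder ComplexConjugate RealInnerProductSpace FourierTransform

noncomputable section

namespace Pool.Agent.P.MP_9f4f5e_mp.LT

theorem p3_pyth (n : ℕ) {Ψ : EN (n + 1) → ℂ} (hΨ : MemLp Ψ 2 volume) {f : E3 → ℂ}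
    (hf : MemLp f 2 volume) (hf1 : ∫ x, ‖f x‖ ^ 2 = 1) :
    MemLp (fun y : EN n => ∫ x, conj (f x) * Ψ (glue x y)) 2 volume ∧
    MemLp (fun p : E3 × EN n => Ψ (glue p.1 p.2) - f p.1 * ∫ x, conj (f x) * Ψ (glue x p.2)) 2
      ((volume : Measure E3).prod volume) ∧
    ∫ p : E3 × EN n, ‖Ψ (glue p.1 p.2) - f p.1 * ∫ x, conj (f x) * Ψ (glue x p.2)‖ ^ 2
        ∂((volume : Measure E3).prod volume)
      + ∫ y : EN n, ‖∫ x, conj (f x) * Ψ (glue x y)‖ ^ 2 = ∫ z, ‖Ψ z‖ ^ 2 := by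
  have h := pythagoras (Ψ := fun p : E3 × EN n => Ψ (glue p.1 p.2))
    (hΨ.comp_measurePreserving (mp_glue n)) hf hf1
  rw [← (mp_glue n).integral_comp (measurableEmbedding_glue n) fun z => ‖Ψ z‖ ^ 2]
  exact h

theorem p3_mp_swap {X Y : Type} [MeasurableSpace X] [MeasurableSpace Y] (μ : Measure X)
    (ν : Measure Y) [SFinite μ] [SFinite ν] :
    MeasurePreserving (fun p : X × X × Y => (p.2.1, p.1, p.2.2)) (μ.prod (μ.prod ν))
      (μ.prod (μ.prod ν)) :=
  (measurePreserving_prodAssoc μ μ ν).comp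
    (((Measure.measurePreserving_swap (μ := μ) (ν := μ)).prod (MeasurePreserving.id ν)).comp
      (measurePreserving_prodAssoc μ μ ν).symm)

theorem p3_mp_glue (n : ℕ) :
    MeasurePreserving (fun p : E3 × E3 × EN n => (p.1, glue p.2.1 p.2.2))
      ((volume : Measure E3).prod ((volume : Measure E3).prod (volume : Measure (EN n))))
      ((volume : Measure E3).prod (volume : Measure (EN (n + 1)))) :=
  (MeasurePreserving.id (volume : Measure E3)).prod (mp_glue n)

/-- slices of the remainder are antisymmetric -/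
theorem p3_anti (n : ℕ) {Ψ : EN (n + 1) → ℂ}
    (hanti : ∀ i j, i ≠ j → ∀ᵐ z, Ψ (sw i j z) = -Ψ z) (f : E3 → ℂ) :
    ∀ᵐ x : E3, ∀ i j : Fin n, i ≠ j → ∀ᵐ y : EN n,
      Ψ (glue x (sw i j y)) - f x * ∫ x', conj (f x') * Ψ (glue x' (sw i j y))
        = -(Ψ (glue x y) - f x * ∫ x', conj (f x') * Ψ (glue x' y)) := by
  refine ae_all_iff.2 fun i => ae_all_iff.2 fun j => ?_
  by_cases hij : i = j
  · exact Filter.Eventually.of_forall fun x h => absurd hij h
  have h1 : ∀ᵐ p ∂((volume : Measure E3).prod (volume : Measure (EN n))),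
      Ψ (glue p.1 (sw i j p.2)) = -Ψ (glue p.1 p.2) := by
    have h2 := (mp_glue n).quasiMeasurePreserving.ae
      (hanti i.succ j.succ fun h => hij (Fin.succ_injective _ h))
    filter_upwards [h2] with p hp
    rwa [sw_glue] at hp
  have h2 : ∀ᵐ y : EN n, ∫ x', conj (f x') * Ψ (glue x' (sw i j y))
      = -∫ x', conj (f x') * Ψ (glue x' y) := by
    have h3 := Measure.ae_ae_of_ae_prod
      ((Measure.measurePreserving_swap (μ := (volume : Measure (EN n)))
        (ν := (volume : Measure E3))).quasiMeasurePreserving.ae h1)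
    filter_upwards [h3] with y hy
    rw [← integral_neg]
    refine integral_congr_ae ?_
    filter_upwards [hy] with x hx
    rw [← mul_neg]
    exact congrArg _ hx
  filter_upwards [Measure.ae_ae_of_ae_prod h1] with x hx _
  filter_upwards [hx, h2] with y hy hy'
  rw [hy, hy']
  ring

/-- Pauli principle, normalised f. Hint: induction on n for all Ψ. Let G y = ∫ conj f * Ψ (glue · y),
Ψ' (x, y) = Ψ (glue x y) - f x * G y (pythagoras with mp_glue, MemLp.comp_measurePreserving).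
n = 0: pythagoras. Step: for a.e. x the slice Ψ' (x, ·) is in L2 (ae_memLp_right) and antisymmetric
(sw_glue, mp_glue.quasiMeasurePreserving.ae, ae_ae_of_ae_prod, ae_all_iff; G (sw i j y) = -G y
a.e.); apply the induction hypothesis to it and integrate over x. Let H (x, y') be its
f-contraction, H (x, y') = ∫ η, conj (f η) * Ψ' (x, glue η y'); H is in L2 of the product
(pythagoras once more, or measurability plus the bound), so ∫ x, ∫ y', ‖H‖^2 = ∫ y', ∫ x, ‖H‖^2,
and contraction_rem (sw_glue_glue) gives H (x, y') = -G (glue x y') for a.e. y', a.e. x. -/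
theorem pauli_norm (n : ℕ) {Ψ : EN (n + 1) → ℂ} (hΨ : MemLp Ψ 2 volume)
    (hanti : ∀ i j, i ≠ j → ∀ᵐ z, Ψ (sw i j z) = -Ψ z) {f : E3 → ℂ} (hf : MemLp f 2 volume)
    (hf1 : ∫ x, ‖f x‖ ^ 2 = 1) :
    ((n : ℝ) + 1) * ∫ y : EN n, ‖∫ x, conj (f x) * Ψ (glue x y)‖ ^ 2 ≤ ∫ z, ‖Ψ z‖ ^ 2 := by
  induction n with
  | zero =>
    have h1 := (p3_pyth 0 hΨ hf hf1).2.2
    rw [← h1, Nat.cast_zero, zero_add, one_mul]
    exact le_add_of_nonneg_left (integral_nonneg fun _ => by positivity)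
  | succ n ih =>
    obtain ⟨hG, hR, hP⟩ := p3_pyth (n + 1) hΨ hf hf1
    set G : EN (n + 1) → ℂ := fun y => ∫ x, conj (f x) * Ψ (glue x y) with hGdef
    set R : E3 × EN (n + 1) → ℂ := fun p => Ψ (glue p.1 p.2) - f p.1 * G p.2 with hRdef
    set H : E3 × EN n → ℂ := fun q => ∫ η, conj (f η) * R (q.1, glue η q.2) with hHdef
    have hH : MemLp H 2 ((volume : Measure E3).prod (volume : Measure (EN n))) :=
      (pythagoras (Ψ := fun p : E3 × E3 × EN n => R (p.2.1, glue p.1 p.2.2))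
        (hR.comp_measurePreserving ((p3_mp_glue n).comp (p3_mp_swap _ _))) hf hf1).1
    have iH := (memLp_two_iff_integrable_sq_norm hH.1).1 hH
    have iR := (memLp_two_iff_integrable_sq_norm hR.1).1 hR
    have hG' := hG.comp_measurePreserving (mp_glue n)
    have iG := (memLp_two_iff_integrable_sq_norm hG'.1).1 hG'
    have hHG : ∀ᵐ y : EN n, ∀ᵐ x : E3, H (x, y) = -G (glue x y) := by
      refine contraction_rem (Ψ := fun p : E3 × E3 × EN n => Ψ (glue p.1 (glue p.2.1 p.2.2)))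
        (hΨ.comp_measurePreserving ((mp_glue (n + 1)).comp (p3_mp_glue n))) ?_ hf
      have h2 := ((mp_glue (n + 1)).comp (p3_mp_glue n)).quasiMeasurePreserving.ae
        (hanti 0 1 Fin.zero_ne_one)
      filter_upwards [h2] with p hp
      rw [← sw_glue_glue]
      exact hp
    have h1 : ∫ y, ‖G y‖ ^ 2 = ∫ x : E3, ∫ y : EN n, ‖H (x, y)‖ ^ 2 := by
      rw [← (mp_glue n).integral_comp (measurableEmbedding_glue n) fun z => ‖G z‖ ^ 2,
        ← integral_prod _ iH, integral_prod_symm _ iH]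
      refine (integral_prod_symm _ iG).trans (integral_congr_ae ?_)
      filter_upwards [hHG] with y hy
      refine integral_congr_ae ?_
      filter_upwards [hy] with x hx
      rw [hx, norm_neg]
      rfl
    have h2 : ((n : ℝ) + 1) * ∫ y, ‖G y‖ ^ 2 ≤
        ∫ p, ‖R p‖ ^ 2 ∂((volume : Measure E3).prod volume) := by
      rw [h1, integral_prod _ iR, ← integral_const_mul]
      refine integral_mono_ae (iH.integral_prod_left.const_mul _) iR.integral_prod_left ?_
      filter_upwards [ae_memLp_right hR, p3_anti (n + 1) hanti f] with x hx hx'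
      exact ih (Ψ := fun y => R (x, y)) hx hx'
    push_cast
    linarith

/-- Hint: if ∫ ‖f‖^2 = 0 then f = 0 a.e.; else scale. -/
theorem pauli (n : ℕ) {Ψ : EN (n + 1) → ℂ} (hΨ : MemLp Ψ 2 volume)
    (hanti : ∀ i j, i ≠ j → ∀ᵐ z, Ψ (sw i j z) = -Ψ z) {f : E3 → ℂ} (hf : MemLp f 2 volume) :
    ((n : ℝ) + 1) * ∫ y : EN n, ‖∫ x, conj (f x) * Ψ (glue x y)‖ ^ 2
      ≤ (∫ x, ‖f x‖ ^ 2) * ∫ z, ‖Ψ z‖ ^ 2 := by
  have i2 := (memLp_two_iff_integrable_sq_norm hf.1).1 hf
  have h0 : 0 ≤ ∫ x, ‖f x‖ ^ 2 := integral_nonneg fun _ => by positivity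
  rcases h0.eq_or_lt with h1 | h1
  · have h2 := (integral_eq_zero_iff_of_nonneg (fun _ => by positivity) i2).1 h1.symm
    have h3 : ∀ y : EN n, ∫ x, conj (f x) * Ψ (glue x y) = 0 := by
      intro y
      refine integral_eq_zero_of_ae ?_
      filter_upwards [h2] with x hx
      have h4 : f x = 0 := by simpa using hx
      simp [h4]
    simp [h3, ← h1]
  · set c : ℝ := ∫ x, ‖f x‖ ^ 2 with hc
    have hs : 0 < Real.sqrt c := Real.sqrt_pos.2 h1
    have hn : ‖(((Real.sqrt c)⁻¹ : ℝ) : ℂ)‖ ^ 2 = c⁻¹ := by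
      rw [Complex.norm_real, Real.norm_eq_abs, sq_abs, inv_pow, Real.sq_sqrt h1.le]
    have h2 := pauli_norm n hΨ hanti (f := fun x => (((Real.sqrt c)⁻¹ : ℝ) : ℂ) * f x)
      (hf.const_mul _) (by
        simp only [norm_mul, mul_pow, hn]
        rw [integral_const_mul, inv_mul_cancel₀ h1.ne'])
    have h3 : ∀ y : EN n, ‖∫ x, conj ((((Real.sqrt c)⁻¹ : ℝ) : ℂ) * f x) * Ψ (glue x y)‖ ^ 2
        = c⁻¹ * ‖∫ x, conj (f x) * Ψ (glue x y)‖ ^ 2 := by
      intro y
      simp only [map_mul, Complex.conj_ofReal, mul_assoc]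
      rw [integral_const_mul, norm_mul, mul_pow, hn]
    simp only [h3] at h2
    rw [integral_const_mul, mul_left_comm, inv_mul_le_iff₀ h1] at h2
    exact h2

end Pool.Agent.P.MP_9f4f5e_mp.LT
end
end

-- part Pool.Agent.P.MP_9f4f5e_mp.LT.H1
section

set_option autoImplicit false
set_option linter.unusedSectionVars false

open MeasureTheory Matrix
open scoped ENNReal ComplexOrder ComplexConjugate RealInnerProductSpace FourierTransform

noncomputable section

namespace Pool.Agent.P.MP_9f4f5e_mp.LT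

/-- Hint: exists_swIso, fourier_anti. -/
theorem fourier_sw {n : ℕ} (ψ : Lp ℂ 2 (volume : Measure (EN n)))
    (hanti : ∀ i j, i ≠ j → ∀ᵐ z, ψ (sw i j z) = -ψ z) : ∀ i j, i ≠ j →
    ∀ᵐ z, (𝓕 ψ : Lp ℂ 2 (volume : Measure (EN n))) (sw i j z)
      = -(𝓕 ψ : Lp ℂ 2 (volume : Measure (EN n))) z := by
  intro i j hij
  obtain ⟨L, hL⟩ := exists_swIso i j
  have h := fourier_anti L ψ (by simpa only [hL] using hanti i j hij)
  simpa only [hL] using h

theorem h1_int_sq {X : Type} [MeasurableSpace X] {μ : Measure X} (φ : Lp ℂ 2 μ) :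
    Integrable (fun x => ‖φ x‖ ^ 2) μ :=
  (memLp_two_iff_integrable_sq_norm (Lp.aestronglyMeasurable φ)).1 (Lp.memLp φ)

theorem h1_sq_eq {X : Type} [MeasurableSpace X] {μ : Measure X} (φ : Lp ℂ 2 μ) :
    ∫ x, ‖φ x‖ ^ 2 ∂μ = ‖φ‖ ^ 2 := by
  have h1 : inner ℂ φ φ = ∫ x, inner ℂ (φ x) (φ x) ∂μ := L2.inner_def φ φ
  have h2 : ∀ x, inner ℂ (φ x) (φ x) = ((‖φ x‖ ^ 2 : ℝ) : ℂ) := fun x => by
    rw [inner_self_eq_norm_sq_to_K]
    push_cast
    rfl
  simp only [h2] at h1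
  rw [integral_complex_ofReal, inner_self_eq_norm_sq_to_K] at h1
  have h3 : ((‖φ‖ ^ 2 : ℝ) : ℂ) = ((∫ x, ‖φ x‖ ^ 2 ∂μ : ℝ) : ℂ) := by
    rw [← h1]
    push_cast
    rfl
  exact (Complex.ofReal_inj.1 h3).symm

theorem h1_norm_sq (n : ℕ) (w : ℂ) :
    ‖((Real.sqrt (n + 1) : ℝ) : ℂ) * w‖ ^ 2 = ((n : ℝ) + 1) * ‖w‖ ^ 2 := by
  rw [norm_mul, mul_pow, Complex.norm_real, Real.norm_eq_abs, sq_abs,
    Real.sq_sqrt (by positivity)]

theorem h1_mul_conj (n : ℕ) (v w : ℂ) :
    ((Real.sqrt (n + 1) : ℝ) : ℂ) * v * conj (((Real.sqrt (n + 1) : ℝ) : ℂ) * w)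
      = (((n : ℝ) + 1 : ℝ) : ℂ) * (v * conj w) := by
  have h : ((Real.sqrt (n + 1) : ℝ) : ℂ) * ((Real.sqrt (n + 1) : ℝ) : ℂ)
      = (((n : ℝ) + 1 : ℝ) : ℂ) := by
    rw [← Complex.ofReal_mul, Real.mul_self_sqrt (by positivity)]
  rw [map_mul, Complex.conj_ofReal, ← h]
  ring

/-- Hint: Lp.stronglyMeasurable, Lp.memLp, mp_glue (integral_comp with measurableEmbedding_glue,
integrable_comp), Lp.norm_fourier_eq (∫ ‖𝓕 ψ‖^2 = 1), pauli, fourier_corr at glue k 0 with
glue_add, inner_glue, integral_prod. -/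
theorem data_of_psi {n : ℕ} (ψ : Lp ℂ 2 (volume : Measure (EN (n + 1))))
    (hanti : ∀ i j, i ≠ j → ∀ᵐ z, ψ (sw i j z) = -ψ z) (hnorm : ‖ψ‖ = 1)
    (hT : Integrable fun ξ =>
      ‖part ξ 0‖ * ‖(𝓕 ψ : Lp ℂ 2 (volume : Measure (EN (n + 1)))) ξ‖ ^ 2) :
    Data (volume : Measure (EN n))
      (fun p => ((Real.sqrt (n + 1) : ℝ) : ℂ)
        * (𝓕 ψ : Lp ℂ 2 (volume : Measure (EN (n + 1)))) (glue p.1 p.2))
      (fun x => ((n : ℝ) + 1) * ∫ y : EN n, ‖ψ (glue x y)‖ ^ 2) := by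
  have hanti2 := fourier_sw ψ hanti
  have hn2 : ‖(𝓕 ψ : Lp ℂ 2 (volume : Measure (EN (n + 1))))‖ = 1 := by
    rw [Lp.norm_fourier_eq, hnorm]
  have hcorr := fourier_corr ψ
  generalize (𝓕 ψ : Lp ℂ 2 (volume : Measure (EN (n + 1)))) = χ at hanti2 hn2 hcorr hT ⊢
  have hg := mp_glue n
  have he := measurableEmbedding_glue n
  have hψ2 : Integrable (fun p : E3 × EN n => ‖ψ (glue p.1 p.2)‖ ^ 2)
      ((volume : Measure E3).prod (volume : Measure (EN n))) :=
    (hg.integrable_comp_emb he).2 (h1_int_sq ψ)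
  have hψm : StronglyMeasurable fun p : E3 × EN n => ‖ψ (glue p.1 p.2)‖ ^ 2 :=
    (((Lp.stronglyMeasurable ψ).measurable.comp he.measurable).norm.pow_const 2).stronglyMeasurable
  refine ⟨?_, ?_, ?_, ?_, ?_, ?_, ?_, ?_⟩
  · exact ((Lp.stronglyMeasurable χ).measurable.comp he.measurable).const_mul _
  · simp only [h1_norm_sq]
    exact ((hg.integrable_comp_emb he).2 (h1_int_sq χ)).const_mul _
  · simp only [h1_norm_sq]
    have h1 : Integrable (fun p : E3 × EN n => ‖p.1‖ * ‖χ (glue p.1 p.2)‖ ^ 2)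
        ((volume : Measure E3).prod (volume : Measure (EN n))) :=
      (hg.integrable_comp_emb he).2 hT
    refine (h1.const_mul ((n : ℝ) + 1)).congr (Filter.Eventually.of_forall fun p => ?_)
    simp only
    ring
  · intro f hf
    have h1 := pauli n (Lp.memLp χ) hanti2 hf
    rw [h1_sq_eq, hn2, one_pow, mul_one, ← integral_const_mul] at h1
    refine le_trans (le_of_eq ?_) h1
    refine integral_congr_ae (Filter.Eventually.of_forall fun y => ?_)
    simp only
    rw [← h1_norm_sq, ← integral_const_mul]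
    congr 2
    refine integral_congr_ae (Filter.Eventually.of_forall fun x => ?_)
    simp only
    ring
  · exact hψm.integral_prod_right'.measurable.const_mul _
  · intro z
    exact mul_nonneg (by positivity) (integral_nonneg fun y => by positivity)
  · exact hψ2.integral_prod_left.const_mul _
  · intro k
    simp only [h1_mul_conj, glue_add _ k]
    have h1 := hg.integral_comp he fun ζ => χ (ζ + glue k 0) * conj (χ ζ)
    have h2 := hg.integral_comp he
      fun ζ => ((‖ψ ζ‖ ^ 2 : ℝ) : ℂ) * ec (-⟪glue k (0 : EN n), ζ⟫)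
    simp only [inner_glue] at h2
    have h3 : Integrable
        (fun p : E3 × EN n => ((‖ψ (glue p.1 p.2)‖ ^ 2 : ℝ) : ℂ) * ec (-⟪k, p.1⟫))
        ((volume : Measure E3).prod (volume : Measure (EN n))) := by
      refine hψ2.ofReal.mul_bdd (c := 1) ?_ (Filter.Eventually.of_forall fun p => ?_)
      · exact (by fun_prop : Continuous fun p : E3 × EN n => ec (-⟪k, p.1⟫)).aestronglyMeasurable
      · exact (norm_ec _).le
    rw [integral_const_mul, h1, hcorr, ← h2, integral_prod _ h3, ← integral_const_mul]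
    refine integral_congr_ae (Filter.Eventually.of_forall fun x => ?_)
    simp only
    rw [integral_mul_const, integral_complex_ofReal, Complex.ofReal_mul, mul_assoc]

end Pool.Agent.P.MP_9f4f5e_mp.LT
end
end

-- part Pool.Agent.P.MP_9f4f5e_mp.LT.H2
section

set_option autoImplicit false
set_option linter.unusedSectionVars false

open MeasureTheory Matrix
open scoped ENNReal ComplexOrder ComplexConjugate RealInnerProductSpace FourierTransform

noncomputable section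

namespace Pool.Agent.P.MP_9f4f5e_mp.LT

/-- Assembly. Hint: kin_symm with fourier_sw; if the kinetic lintegral is ∞ done; else
data_of_psi, Data.dual, dual_measurable, optimise, const_le; for a.e. x the density lintegral is
ofReal of the real density (ae_memLp_right, ofReal_integral_eq_lintegral_ofReal). -/
theorem main (n : ℕ) (ψ : Lp ℂ 2 (volume : Measure (EN (n + 1))))
    (hanti : ∀ i j, i ≠ j → ∀ᵐ z, ψ (sw i j z) = -ψ z) (hnorm : ‖ψ‖ = 1) :
    ENNReal.ofReal (0.838 * (3 / 4 * (6 * Real.pi ^ 2) ^ (1 / 3 : ℝ))) *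
        ∫⁻ x : E3, (((n : ℝ≥0∞) + 1) * ∫⁻ y : EN n, ‖ψ (glue x y)‖ₑ ^ 2) ^ (4 / 3 : ℝ)
      ≤ ∑ i : Fin (n + 1), ∫⁻ ξ, ENNReal.ofReal (2 * Real.pi * ‖part ξ i‖)
          * ‖(𝓕 ψ : Lp ℂ 2 (volume : Measure (EN (n + 1)))) ξ‖ₑ ^ 2 := by
  set Ψ : Lp ℂ 2 (volume : Measure (EN (n + 1))) := 𝓕 ψ with hΨ
  have hΨm : Measurable Ψ := (Lp.stronglyMeasurable Ψ).measurable
  have hψm : Measurable ψ := (Lp.stronglyMeasurable ψ).measurable
  rw [kin_symm hΨm (fourier_sw ψ hanti)]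
  have hpi : 0 < 2 * Real.pi := by positivity
  have hpm : Measurable fun ξ : EN (n + 1) => ‖part ξ 0‖ := (continuous_part 0).norm.measurable
  have hkm : Measurable fun ξ : EN (n + 1) => ‖part ξ 0‖ * ‖Ψ ξ‖ ^ 2 :=
    hpm.mul (hΨm.norm.pow_const 2)
  have hk0 : ∀ ξ : EN (n + 1), 0 ≤ ‖part ξ 0‖ * ‖Ψ ξ‖ ^ 2 := fun ξ => by positivity
  have hK : ∫⁻ ξ, ENNReal.ofReal (2 * Real.pi * ‖part ξ 0‖) * ‖Ψ ξ‖ₑ ^ 2
      = ENNReal.ofReal (2 * Real.pi) * ∫⁻ ξ, ENNReal.ofReal (‖part ξ 0‖ * ‖Ψ ξ‖ ^ 2) := by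
    rw [← lintegral_const_mul _ hkm.ennreal_ofReal]
    refine lintegral_congr fun ξ => ?_
    rw [ENNReal.ofReal_mul hpi.le, ENNReal.ofReal_mul (norm_nonneg _), mul_assoc,
      ENNReal.ofReal_pow (norm_nonneg _), ofReal_norm (Ψ ξ)]
  rw [hK]
  by_cases htop : ∫⁻ ξ, ENNReal.ofReal (‖part ξ 0‖ * ‖Ψ ξ‖ ^ 2) = ∞
  · rw [htop, ENNReal.mul_top (by simpa using Real.pi_pos), ENNReal.mul_top (by simp)]
    exact le_top
  have hT : Integrable fun ξ : EN (n + 1) => ‖part ξ 0‖ * ‖Ψ ξ‖ ^ 2 :=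
    ⟨hkm.aestronglyMeasurable,
      (hasFiniteIntegral_iff_ofReal (ae_of_all _ hk0)).2 (lt_top_iff_ne_top.2 htop)⟩
  have D := data_of_psi ψ hanti hnorm hT
  set T : ℝ := ∫ ξ : EN (n + 1), ‖part ξ 0‖ * ‖Ψ ξ‖ ^ 2 with hTdef
  have hT0 : 0 ≤ T := integral_nonneg hk0
  have hn0 : (0 : ℝ) ≤ (n : ℝ) + 1 := by positivity
  have hkin : ∫ p : E3 × EN n, ‖p.1‖ * ‖((Real.sqrt (n + 1) : ℝ) : ℂ) * Ψ (glue p.1 p.2)‖ ^ 2
      ∂((volume : Measure E3).prod (volume : Measure (EN n))) = ((n : ℝ) + 1) * T := by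
    rw [hTdef, ← (mp_glue n).integral_comp (measurableEmbedding_glue n), ← integral_const_mul]
    refine integral_congr_ae (ae_of_all _ fun p => ?_)
    simp only [part_glue_zero, norm_mul, mul_pow, Complex.norm_real, Real.norm_eq_abs, sq_abs,
      Real.sq_sqrt hn0]
    ring
  have h1 := optimise D.rho_meas D.rho_nonneg (mul_nonneg hn0 hT0)
    (by norm_num : (0 : ℝ) < 711 / 400) fun V M r hV hr h0 hM hs =>
      dual_measurable D.rho_nonneg (mul_nonneg hn0 hT0) (by norm_num : (0 : ℝ) < 711 / 400)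
        (fun V M r hl hr h0 hM hs => by
          have h2 := D.dual hl hr h0 hM hs
          rwa [hkin] at h2) hV hr h0 hM hs
  have hL2 : MemLp (fun p : E3 × EN n => ψ (glue p.1 p.2)) 2
      ((volume : Measure E3).prod (volume : Measure (EN n))) :=
    (Lp.memLp ψ).comp_measurePreserving (mp_glue n)
  have hrho : ∫⁻ x : E3, (((n : ℝ≥0∞) + 1) * ∫⁻ y : EN n, ‖ψ (glue x y)‖ₑ ^ 2) ^ (4 / 3 : ℝ)
      = ∫⁻ x : E3, ENNReal.ofReal (((n : ℝ) + 1) * ∫ y : EN n, ‖ψ (glue x y)‖ ^ 2)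
          ^ (4 / 3 : ℝ) := by
    refine lintegral_congr_ae ?_
    filter_upwards [ae_memLp_right hL2] with x hx
    have h3 : Integrable fun y : EN n => ‖ψ (glue x y)‖ ^ 2 :=
      (memLp_two_iff_integrable_sq_norm hx.aestronglyMeasurable).1 hx
    rw [ENNReal.ofReal_mul hn0, ofReal_integral_eq_lintegral_ofReal h3
      (ae_of_all _ fun y => by positivity), ENNReal.ofReal_add (Nat.cast_nonneg n) zero_le_one,
      ENNReal.ofReal_natCast, ENNReal.ofReal_one]
    congr 2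
    refine lintegral_congr fun y => ?_
    rw [ENNReal.ofReal_pow (norm_nonneg _), ofReal_norm]
  rw [hrho, ← ofReal_integral_eq_lintegral_ofReal hT (ae_of_all _ hk0), ← hTdef]
  calc _ ≤ ENNReal.ofReal (2 * Real.pi * (3 / 4 * (4 * (711 / 400) : ℝ) ^ (-(1 / 3) : ℝ))) *
        ∫⁻ x : E3, ENNReal.ofReal (((n : ℝ) + 1) * ∫ y : EN n, ‖ψ (glue x y)‖ ^ 2)
          ^ (4 / 3 : ℝ) := mul_le_mul_left (ENNReal.ofReal_le_ofReal const_le) _
    _ ≤ ENNReal.ofReal (2 * Real.pi) * ENNReal.ofReal (((n : ℝ) + 1) * T) := by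
        rw [ENNReal.ofReal_mul hpi.le, mul_assoc]
        exact mul_le_mul_right h1 _
    _ = _ := by
        rw [ENNReal.ofReal_mul hn0, ENNReal.ofReal_add (Nat.cast_nonneg n) zero_le_one,
          ENNReal.ofReal_natCast, ENNReal.ofReal_one]
        ring

end Pool.Agent.P.MP_9f4f5e_mp.LT
end
end
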